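import Pool.Agent.Lib.MP_8465a2_an.N2.BasicB

/-! Existence of approximate minimisers of the energy. -/

namespace Pool.Agent.LinN2

open MeasureTheory Metric Set Filter Topology Complex

namespace AMinAux

lemma exists_ramp {σ : ℝ} (hσ : 0 < σ) : ∃ R : ℝ → ℝ, ContDiff ℝ 1 R ∧ (∀ t, 0 ≤ R t) ∧
    (∀ t, R t ≤ 1) ∧ (∀ t ≤ 0, R t = 0) ∧ (∀ t, 1 ≤ t → R t = 1) ∧
    ∀ t, |deriv R t| ≤ 1 + σ := by
  obtain ⟨k, hk⟩ := exists_nat_gt (1 / σ)
  have hk0 : (0 : ℝ) < k := lt_trans (by positivity) hk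
  set d : ℝ → ℝ := fun u => max 0 (1 - (2 * u - 1) ^ (2 * k)) with hd
  have hc : Continuous d := by fun_prop
  have hd0 : ∀ u, 0 ≤ d u := fun u => le_max_left _ _
  have hev : Even (2 * k) := even_two_mul k
  have hd1 : ∀ u, d u ≤ 1 := fun u => max_le zero_le_one (by linarith [hev.pow_nonneg (2 * u - 1)])
  have hout : ∀ u, 1 ≤ |2 * u - 1| → d u = 0 := fun u hu => by
    refine max_eq_left ?_
    have := one_le_pow₀ (n := 2 * k) hu
    rw [hev.pow_abs] at this
    linarith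
  have hint : ∀ a b, IntervalIntegrable d volume a b := fun a b => hc.intervalIntegrable a b
  set I : ℝ := ∫ u in (0 : ℝ)..1, d u with hI
  have hIv : I = 1 - 1 / (2 * k + 1) := by
    have h1 : I = ∫ u in (0 : ℝ)..1, (1 - (2 * u - 1) ^ (2 * k)) := by
      refine intervalIntegral.integral_congr fun u hu => ?_
      rw [uIcc_of_le zero_le_one] at hu
      refine max_eq_right ?_
      have : |2 * u - 1| ≤ 1 := abs_le.2 ⟨by linarith [hu.1], by linarith [hu.2]⟩
      have := pow_le_one₀ (n := 2 * k) (abs_nonneg _) this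
      rw [hev.pow_abs] at this
      linarith
    have h2 : ∀ u ∈ uIcc (0 : ℝ) 1, HasDerivAt
        (fun u : ℝ => u - (2 * u - 1) ^ (2 * k + 1) / (2 * (2 * k + 1)))
        (1 - (2 * u - 1) ^ (2 * k)) u := fun u _ => by
      have := (hasDerivAt_id u).sub
        (((((hasDerivAt_id u).const_mul 2).sub_const 1).pow (2 * k + 1)).div_const
          (2 * (2 * k + 1) : ℝ))
      refine this.congr_deriv ?_
      simp only [id, Nat.add_sub_cancel]
      push_cast
      field_simp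
    rw [h1, intervalIntegral.integral_eq_sub_of_hasDerivAt h2
      (Continuous.intervalIntegrable (by fun_prop) _ _)]
    have : (2 * (0 : ℝ) - 1) ^ (2 * k + 1) = -1 := by
      rw [show (2 * (0 : ℝ) - 1) = -1 by ring]; exact Odd.neg_one_pow ⟨k, rfl⟩
    rw [this, show (2 * (1 : ℝ) - 1) = 1 by ring, one_pow]
    field_simp
    ring
  have hIpos : 0 < I := by
    rw [hIv, sub_pos, div_lt_one (by positivity)]; linarith
  have hder : ∀ t, HasDerivAt (fun t => (∫ u in (0 : ℝ)..t, d u) / I) (d t / I) t := fun t =>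
    (hc.integral_hasStrictDerivAt 0 t).hasDerivAt.div_const I
  have hmono : Monotone fun t => (∫ u in (0 : ℝ)..t, d u) / I :=
    monotone_of_deriv_nonneg (fun t => (hder t).differentiableAt) fun t => by
      rw [(hder t).deriv]; exact div_nonneg (hd0 t) hIpos.le
  have hz : ∀ t ≤ 0, (∫ u in (0 : ℝ)..t, d u) / I = 0 := fun t ht => by
    rw [intervalIntegral.integral_congr (g := fun _ => 0) fun u hu => ?_]
    · simp
    · rw [uIcc_of_ge ht] at hu
      exact hout u (le_abs.2 (Or.inr (by linarith [hu.2])))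
  have ho : ∀ t, 1 ≤ t → (∫ u in (0 : ℝ)..t, d u) / I = 1 := fun t ht => by
    rw [← intervalIntegral.integral_add_adjacent_intervals (hint 0 1) (hint 1 t),
      intervalIntegral.integral_congr (f := d) (a := 1) (g := fun _ => 0) fun u hu => ?_]
    · simp [← hI, hIpos.ne']
    · rw [uIcc_of_le ht] at hu
      exact hout u (le_abs.2 (Or.inl (by linarith [hu.1])))
  refine ⟨fun t => (∫ u in (0 : ℝ)..t, d u) / I, ?_, fun t => ?_, fun t => ?_, hz, ho, fun t => ?_⟩
  · rw [contDiff_one_iff_deriv]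
    refine ⟨fun t => (hder t).differentiableAt, ?_⟩
    rw [show deriv (fun t => (∫ u in (0 : ℝ)..t, d u) / I) = fun t => d t / I from
      funext fun t => (hder t).deriv]
    fun_prop
  · have := hmono (min_le_left t 0)
    simp only [hz _ (min_le_right t 0)] at this
    exact this
  · have := hmono (le_max_left t 1)
    simp only [ho _ (le_max_right t 1)] at this
    exact this
  · rw [(hder t).deriv, abs_of_nonneg (div_nonneg (hd0 t) hIpos.le), div_le_iff₀ hIpos, hIv]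
    have h1 : 1 < σ * k := by rwa [div_lt_iff₀ hσ, mul_comm] at hk
    have h2 : (1 : ℝ) ≤ (1 + σ) * (1 - 1 / (2 * k + 1)) := by
      rw [show (1 + σ) * (1 - 1 / (2 * k + 1)) = (1 + σ) * (2 * k) / (2 * k + 1) by
        field_simp; ring, le_div_iff₀ (by positivity)]
      nlinarith
    exact (hd1 t).trans h2

variable {a : E2 → ℂ} {η : ℝ} {f h : E2 → ℝ}

lemma bdd_Om : Bornology.IsBounded Om := isBounded_closedBall

lemma En_comp (ha : ContDiff ℂ 2 a) (hη : 0 < η) (hf : ContDiff ℝ 1 f) {R : ℝ → ℝ}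
    (hR : ContDiff ℝ 1 R) {c : ℝ} (hc : ∀ t, |deriv R t| ≤ c) :
    En a η Om (R ∘ f) ≤ c ^ 2 * En a η Om f := by
  unfold En Bf
  rw [← integral_const_mul]
  refine integral_mono (intOn (continuous_wbf ha hη (hR.comp hf) (hR.comp hf)) bdd_Om)
    ((intOn (continuous_wbf ha hη hf hf) bdd_Om).const_mul _) fun y => ?_
  have h1 : fderiv ℝ (R ∘ f) y = deriv R (f y) • fderiv ℝ f y :=
    ((hR.differentiable one_ne_zero (f y)).hasDerivAt.comp_hasFDerivAt y
      (hf.differentiable one_ne_zero y).hasFDerivAt).fderiv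
  have h2 : bf a (R ∘ f) (R ∘ f) y = deriv R (f y) ^ 2 * bf a f f y := by
    simp only [bf, h1, smul_apply, smul_eq_mul]; ring
  have h3 : deriv R (f y) ^ 2 ≤ c ^ 2 := by
    rw [← sq_abs]; exact pow_le_pow_left₀ (abs_nonneg _) (hc _) 2
  have h4 := mul_nonneg (wt_nonneg η (a y)) (bf_nonneg a f y)
  simp only [h2]
  nlinarith

lemma En_add (ha : ContDiff ℂ 2 a) (hη : 0 < η) (hf : ContDiff ℝ 1 f) (hh : ContDiff ℝ 1 h)
    (t : ℝ) : En a η Om (fun y => f y + t * h y) =
      En a η Om f + 2 * t * Bf a η Om f h + t ^ 2 * En a η Om h := by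
  unfold En Bf
  have i1 := intOn (μ := volume) (continuous_wbf ha hη hf hf) bdd_Om
  have i2 := (intOn (μ := volume) (continuous_wbf ha hη hf hh) bdd_Om).const_mul (2 * t)
  have i3 := (intOn (μ := volume) (continuous_wbf ha hη hh hh) bdd_Om).const_mul (t ^ 2)
  rw [← integral_const_mul, ← integral_const_mul, ← integral_add i1 i2]
  refine Eq.trans ?_ (integral_add (i1.add i2) i3)
  refine integral_congr_ae (ae_of_all _ fun y => ?_)
  have h1 : fderiv ℝ (fun y => f y + t * h y) y = fderiv ℝ f y + t • fderiv ℝ h y :=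
    ((hf.differentiable one_ne_zero y).hasFDerivAt.add
      ((hh.differentiable one_ne_zero y).hasFDerivAt.const_mul t)).fderiv
  simp only [bf, h1, add_apply, smul_apply, smul_eq_mul,
    Pi.add_apply]
  ring

lemma quad {τ B H : ℝ} (hτ : 0 < τ) (hH : 0 ≤ H)
    (h : ∀ t, 0 ≤ t → 0 ≤ τ ^ 2 + 2 * t * B + t ^ 2 * H) : -(τ * √H) ≤ B := by
  rcases hH.eq_or_lt with rfl | hH
  · by_contra hB
    simp only [Real.sqrt_zero, mul_zero, neg_zero, not_le] at hB
    have := h (τ ^ 2 / -B) (div_nonneg (sq_nonneg _) (by linarith))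
    have h2 : 2 * (τ ^ 2 / -B) * B = -(2 * τ ^ 2) := by
      have := hB.ne
      field_simp
    rw [h2] at this
    nlinarith
  · have hs := Real.sqrt_pos.2 hH
    have hq := Real.sq_sqrt hH.le
    have := h (τ / √H) (by positivity)
    have h2 : (τ / √H) ^ 2 * H = τ ^ 2 := by rw [div_pow, hq]; field_simp
    have h3 : 0 ≤ 2 * (τ / √H) * (τ * √H + B) := by
      have : 2 * (τ / √H) * (τ * √H + B) = 2 * τ ^ 2 + 2 * (τ / √H) * B := by field_simp
      linarith
    have := nonneg_of_mul_nonneg_right h3 (by positivity) |> fun h => h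
    linarith

end AMinAux

open AMinAux in
theorem amin : AMinStmt := by
  intro a η ηN τ ψ ha hη hψ h1 h0 hτ hτ1
  set D : Set (E2 → ℝ) := {f | ContDiff ℝ 1 f ∧ (∀ y ∈ N0 ηN, 1 ≤ f y) ∧ ∀ y, 2 ≤ ‖y‖ → f y ≤ 0}
  have hψD : ψ ∈ D := ⟨hψ.sm, fun y hy => (h1 y hy).ge, fun y hy => (h0 y hy).le⟩
  have hb : BddBelow (En a η Om '' D) := ⟨0, by rintro _ ⟨f, -, rfl⟩; exact En_nonneg _ _ _ _⟩
  have hle : ∀ f ∈ D, sInf (En a η Om '' D) ≤ En a η Om f := fun f hf => csInf_le hb ⟨f, hf, rfl⟩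
  obtain ⟨_, ⟨f, hf, rfl⟩, hfm⟩ := exists_lt_of_csInf_lt (s := En a η Om '' D)
    ⟨_, ψ, hψD, rfl⟩ (lt_add_of_pos_right _ (show 0 < τ ^ 2 / 2 by positivity))
  have hQ := En_nonneg a η Om f
  set σ : ℝ := τ ^ 2 / (6 * (En a η Om f + 1)) with hσ
  have hσ0 : 0 < σ := by positivity
  have hσ1 : σ * (6 * (En a η Om f + 1)) = τ ^ 2 := div_mul_cancel₀ _ (by positivity)
  have hτ2 : τ ^ 2 ≤ 1 := pow_le_one₀ hτ.le hτ1
  have hσ2 : σ ≤ 1 := by nlinarith
  obtain ⟨R, hR, r0, r1, rz, ro, rd⟩ := exists_ramp hσ0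
  have hχ : En a η Om (R ∘ f) ≤ sInf (En a η Om '' D) + τ ^ 2 := by
    have h2 := En_comp ha hη hf.1 hR rd
    have h3 : (1 + σ) ^ 2 ≤ 1 + 3 * σ := by nlinarith
    have h4 := mul_le_mul_of_nonneg_right h3 hQ
    nlinarith
  have hsm := hR.comp hf.1
  have e1 : ∀ y ∈ N0 ηN, (R ∘ f) y = 1 := fun y hy => ro _ (hf.2.1 y hy)
  have e0 : ∀ y, 2 ≤ ‖y‖ → (R ∘ f) y = 0 := fun y hy => rz _ (hf.2.2 y hy)
  refine ⟨R ∘ f, ⟨hsm, fun y => r0 _, fun y => r1 _⟩, e1, e0, by linarith [hle ψ hψD],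
    fun h hh p1 p0 => quad hτ (En_nonneg _ _ _ _) fun t ht => ?_⟩
  have := hle (fun y => (R ∘ f) y + t * h y) ⟨hsm.add (contDiff_const.mul hh),
    fun y hy => by beta_reduce; rw [e1 y hy]; linarith [mul_nonneg ht (p1 y hy)],
    fun y hy => by
      beta_reduce; rw [e0 y hy]; linarith [mul_nonpos_of_nonneg_of_nonpos ht (p0 y hy)]⟩
  rw [En_add ha hη hsm hh] at this
  linarith

end Pool.Agent.LinN2
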