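import Pool.Agent.Lib.MP_8465a2_an.N2.BasicB

/-!
Area of round shells (MP_8465a2_an).
-/

namespace Pool.Agent.LinN2

open MeasureTheory Metric Set Filter Topology Complex
open scoped ENNReal ComplexConjugate

variable {n : ℕ}

theorem arS (hn : 3 ≤ n) (h : AreaStmt) : ARStmt n := by
  obtain ⟨K, hK, h⟩ := h
  have hn' : (3 : ℝ) ≤ n := by exact_mod_cast hn
  refine ⟨4 * K * (n + 3), by nlinarith,
    fun g x p e ξ y c η T R D hg he hξ hR hp hD hS hc hη hT hTS => ?_⟩
  set S := SS g (cx x) R with hS'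
  have hS0 : 0 < S := by linarith
  have hD' : 1 ≤ Real.exp D := Real.one_le_exp (by linarith)
  have key := (h (aa g p e ξ c) η 0 (c2 y) (c2 y + ((R : ℂ), 0)) (2 * R) (Real.log S + D + (n + 2))
    (hg.aa p e ξ c 2) hη (by positivity) (by simp [Prod.norm_def, abs_of_pos hR, hR.le]; linarith)
    fun y' hy' => ?_).2
  · have e1 : aa g p e ξ c (c2 y + ((R : ℂ), 0)) = cx ξ ⬝ᵥ g (cx (p + plr e y + R • e.1)) - c := by
      simp only [aa, pl_add, pl_c2, cx_add, cx_smul, add_assoc]
      simp [pl]
    have e2 : Real.log S - U1 (aa g p e ξ c) η (c2 y + ((R : ℂ), 0)) ≤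
        XV g S η (p + plr e y + R • e.1) ξ c := by
      rw [U1, e1]
      exact le_max_right _ _
    have e3 := XV_nonneg g S η (p + plr e y + R • e.1) ξ c
    rw [AR, div_le_iff₀ (by positivity)]
    refine key.trans ?_
    simp only [_root_.zero_apply, zero_re, sub_zero]
    have e4 : Real.log S + D + (n + 2) - U1 (aa g p e ξ c) η (c2 y + ((R : ℂ), 0)) ≤
        (n + 3) * (D + XV g S η (p + plr e y + R • e.1) ξ c) := by nlinarith
    exact (mul_le_mul_of_nonneg_left e4 (by positivity)).trans (le_of_eq (by ring))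
  · have a1 : ‖cx p + pl e y' - cx x‖ ≤ 70 * R := by
      have : cx p + pl e y' - cx x = cx (p + plr e y - x) + pl e (y' - c2 y) := by
        rw [cx_sub, cx_add, pl_sub, pl_c2]; abel
      rw [this]
      refine (norm_add_le _ _).trans ?_
      rw [norm_cx]
      linarith [norm_pl_le he (y' - c2 y)]
    have a2 : ‖aa g p e ξ c y'‖ ≤ (n + 1) * (Real.exp D * S) := by
      refine (norm_sub_le _ _).trans ?_
      have b1 := norm_dot_le (cx ξ) (g (cx p + pl e y'))
      have b2 := (le_SS hg.continuous a1).trans hS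
      rw [norm_cx] at b1
      rw [norm_real, Real.norm_eq_abs]
      nlinarith [mul_le_mul hξ b2 (norm_nonneg _) zero_le_one]
    have a3 : η ≤ Real.exp D * S := by nlinarith
    have a4 : ‖aa g p e ξ c y'‖ ^ 2 + η ^ 2 ≤ ((n + 2) * (Real.exp D * S)) ^ 2 := by
      nlinarith [pow_le_pow_left₀ (norm_nonneg _) a2 2, pow_le_pow_left₀ hη.le a3 2,
        sq_nonneg (Real.exp D * S)]
    have a5 := Real.log_le_log (by positivity) a4
    rw [Real.log_pow, Real.log_mul (by positivity) (by positivity),
      Real.log_mul (by positivity) hS0.ne', Real.log_exp] at a5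
    have a6 := Real.log_le_sub_one_of_pos (show (0 : ℝ) < n + 2 by positivity)
    simp only [_root_.zero_apply, zero_re, sub_zero, U1]
    push_cast at a5
    linarith

end Pool.Agent.LinN2
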