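import Pool.Agent.Lib.MP_8465a2_an.N2.BasicB

/-!
Invariance of the energy and area densities under complex affine maps.
-/

namespace Pool.Agent.LinN2

open MeasureTheory Metric Set Filter Topology Complex
open scoped ENNReal ComplexConjugate

noncomputable section

namespace Aff

/-- complex determinant of a linear map of the plane -/
def dM (M : E2 ≃L[ℂ] E2) : ℂ := (M (1, 0)).1 * (M (0, 1)).2 - (M (0, 1)).1 * (M (1, 0)).2

lemma app_eq (M : E2 ≃L[ℂ] E2) (v : E2) : M v = v.1 • M (1, 0) + v.2 • M (0, 1) := by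
  rw [← map_smul, ← map_smul, ← map_add]; congr 1; ext <;> simp

lemma det_eq (M : E2 ≃L[ℂ] E2) : LinearMap.det (M.toLinearEquiv : E2 →ₗ[ℂ] E2) = dM M := by
  rw [← LinearMap.det_toMatrix (Module.Basis.finTwoProd ℂ), Matrix.det_fin_two]
  simp [LinearMap.toMatrix_apply, dM, Module.Basis.finTwoProd, LinearEquiv.finTwoArrow]

lemma dM_ne (M : E2 ≃L[ℂ] E2) : dM M ≠ 0 := by
  rw [← det_eq]; exact (LinearEquiv.isUnit_det' M.toLinearEquiv).ne_zero

lemma detR (M : E2 ≃L[ℂ] E2) :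
    LinearMap.det ((M.toLinearEquiv : E2 →ₗ[ℂ] E2).restrictScalars ℝ) = ‖dM M‖ ^ 2 := by
  rw [LinearMap.det_restrictScalars, det_eq, Algebra.norm_complex_apply, Complex.normSq_eq_norm_sq]

/-- change of variables for an arbitrary integrand -/
lemma chg (M : E2 ≃L[ℂ] E2) (y0 : E2) (G : E2 → ℝ) :
    ∫ u, ‖dM M‖ ^ 2 * G (y0 + M u) = ∫ y, G y := by
  have hD : (0 : ℝ) < ‖dM M‖ ^ 2 := pow_pos (norm_pos_iff.2 (dM_ne M)) 2
  have : (volume : Measure E2).IsAddHaarMeasure :=
    Measure.prod.instIsAddHaarMeasure (volume : Measure ℂ) (volume : Measure ℂ)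
  have h1 := Measure.map_linearMap_addHaar_eq_smul_addHaar (volume : Measure E2)
    (f := (M.toLinearEquiv : E2 →ₗ[ℂ] E2).restrictScalars ℝ) (by rw [detR]; exact hD.ne')
  rw [detR] at h1
  have h2 : ∫ u, G (y0 + M u) = ∫ y, G (y0 + y) ∂(Measure.map (fun u => M u) volume) :=
    (M.toHomeomorph.toMeasurableEquiv.measurableEmbedding.integral_map (fun y => G (y0 + y))).symm
  have h3 : Measure.map (fun u => M u) (volume : Measure E2) =
      ENNReal.ofReal |(‖dM M‖ ^ 2)⁻¹| • volume := h1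
  rw [integral_const_mul, h2, h3, integral_smul_measure, integral_add_left_eq_self,
    ENNReal.toReal_ofReal (abs_nonneg _), abs_of_pos (inv_pos.2 hD), smul_eq_mul, ← mul_assoc,
    mul_inv_cancel₀ hD.ne', one_mul]

lemma fd_comp {𝕜 F : Type} [NontriviallyNormedField 𝕜] [NormedSpace 𝕜 E2] [NormedAddCommGroup F]
    [NormedSpace 𝕜 F] (L : E2 →L[𝕜] E2) (y0 : E2) {f : E2 → F} (hf : Differentiable 𝕜 f)
    (u v : E2) : fderiv 𝕜 (fun u => f (y0 + L u)) u v = fderiv 𝕜 f (y0 + L u) (L v) := by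
  have h : HasFDerivAt (fun u => f (y0 + L u)) ((fderiv 𝕜 f (y0 + L u)).comp L) u :=
    (hf _).hasFDerivAt.comp u (L.hasFDerivAt.const_add y0)
  rw [h.fderiv]; rfl

lemma map_Wf (M : E2 ≃L[ℂ] E2) (y0 : E2) {a : E2 → ℂ} (ha : Differentiable ℂ a) (u : E2) :
    M (Wf (fun u => a (y0 + M u)) u) = dM M • Wf a (y0 + M u) := by
  have h := fd_comp (M : E2 →L[ℂ] E2) y0 ha u
  simp only [ContinuousLinearEquiv.coe_coe] at h
  rw [app_eq]
  simp only [Wf, h]
  rw [fderiv_pair a _ (M (0, 1)), fderiv_pair a _ (M (1, 0))]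
  ext <;> simp [dM] <;> ring

lemma fdR (M : E2 ≃L[ℂ] E2) (y0 : E2) {f : E2 → ℝ} (hf : Differentiable ℝ f) (u v : E2) :
    fderiv ℝ (fun u => f (y0 + M u)) u v = fderiv ℝ f (y0 + M u) (M v) :=
  fd_comp ((M : E2 →L[ℂ] E2).restrictScalars ℝ) y0 hf u v

lemma lin_smul (L : E2 →L[ℝ] ℝ) (d : ℂ) (W : E2) :
    L (d • W) = d.re * L W + d.im * L (I • W) := by
  have : d • W = d.re • W + d.im • (I • W) := by
    conv_lhs => rw [← re_add_im d]
    rw [add_smul, mul_smul]; rfl
  rw [this, map_add, map_smul, map_smul]; rfl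

lemma bf_comp (M : E2 ≃L[ℂ] E2) (y0 : E2) {a : E2 → ℂ} (ha : Differentiable ℂ a)
    {f h : E2 → ℝ} (hf : Differentiable ℝ f) (hh : Differentiable ℝ h) (u : E2) :
    bf (fun u => a (y0 + M u)) (fun u => f (y0 + M u)) (fun u => h (y0 + M u)) u =
      ‖dM M‖ ^ 2 * bf a f h (y0 + M u) := by
  unfold bf
  rw [fdR M y0 hf, fdR M y0 hh, fdR M y0 hf, fdR M y0 hh, map_smul, map_Wf M y0 ha, smul_smul,
    lin_smul _ (dM M), lin_smul _ (dM M), lin_smul _ (I * dM M), lin_smul _ (I * dM M),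
    ← Complex.normSq_eq_norm_sq,
    Complex.normSq_apply]
  simp only [mul_re, mul_im, I_re, I_im]
  ring

end Aff

open Aff in
theorem aff : AffStmt := by
  intro M y0 a η F ha
  refine ⟨fun f h hf hh => ?_, ?_⟩
  · refine Eq.trans ?_ (chg M y0 _)
    refine integral_congr_ae (Eventually.of_forall fun u => ?_)
    simp only [add_sub_cancel_left, ContinuousLinearEquiv.symm_apply_apply]
    rw [bf_comp M y0 ha hf hh]; ring
  · refine Eq.trans ?_ (chg M y0 _)
    refine integral_congr_ae (Eventually.of_forall fun u => ?_)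
    simp only [add_sub_cancel_left, ContinuousLinearEquiv.symm_apply_apply]
    have : Wf (fun u => a (y0 + M u)) u = dM M • M.symm (Wf a (y0 + M u)) := by
      rw [← map_smul, ← map_Wf M y0 ha, ContinuousLinearEquiv.symm_apply_apply]
    rw [this, norm_smul]; ring

end

end Pool.Agent.LinN2
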