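import Pool.Agent.Lib.MP_8465a2_an.N2.BasicB

/-!
Area of the level curves from the growth of the function.
-/

namespace Pool.Agent.LinN2

open MeasureTheory Metric Set Filter Topology Complex

namespace Area

instance haarE2 : (volume : Measure E2).IsAddHaarMeasure :=
  inferInstanceAs ((volume : Measure ℂ).prod volume).IsAddHaarMeasure

lemma contDiff_D {φ : E2 → ℝ} (hφ : ContDiff ℝ 2 φ) (e : E2) :
    ContDiff ℝ 1 fun y => fderiv ℝ φ y e :=
  (hφ.fderiv_right (m := 1) le_rfl).clm_apply contDiff_const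

lemma fderiv_D {φ : E2 → ℝ} (hφ : ContDiff ℝ 2 φ) (y e : E2) :
    fderiv ℝ (fun y => fderiv ℝ φ y e) y e = dd φ y e := by
  have h := ((hφ.fderiv_right (m := 1) le_rfl).differentiable one_ne_zero y).hasFDerivAt
  have h2 := h.clm_apply (hasFDerivAt_const e y)
  rw [h2.fderiv]
  simp [dd]

lemma continuous_dd {φ : E2 → ℝ} (hφ : ContDiff ℝ 2 φ) (e : E2) :
    Continuous fun y => dd φ y e := by
  have := (hφ.fderiv_right (m := 1) le_rfl).continuous_fderiv one_ne_zero
  unfold dd
  fun_prop

lemma dd_zero {ψ : E2 → ℝ} {y0 : E2} {R : ℝ} (h : ∀ y, R ≤ ‖y - y0‖ → ψ y = 0) {y : E2}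
    (hy : R < ‖y - y0‖) (e : E2) : dd ψ y e = 0 := by
  have h1 : ψ =ᶠ[𝓝 y] fun _ => 0 := by
    have : ∀ᶠ z in 𝓝 y, R < ‖z - y0‖ :=
      (isOpen_lt continuous_const (by fun_prop)).mem_nhds hy
    exact this.mono fun z hz => h z hz.le
  have h2 : fderiv ℝ ψ =ᶠ[𝓝 y] fderiv ℝ fun _ : E2 => (0 : ℝ) := h1.fderiv
  unfold dd
  rw [h2.fderiv_eq]
  simp

/-- second Green identity along a constant field -/
lemma green (h1 : IBPStmt) {ψ V : E2 → ℝ} (hψ : ContDiff ℝ 2 ψ) (hV : ContDiff ℝ 2 V) {y0 : E2}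
    {R : ℝ} (h0 : ∀ y, R ≤ ‖y - y0‖ → ψ y = 0) (e : E2) :
    ∫ y, ψ y * dd V y e = ∫ y, V y * dd ψ y e := by
  have hc : HasCompactSupport ψ := compactSupport_of_zero h0
  have hcD : HasCompactSupport fun y => fderiv ℝ ψ y e := hc.fderiv_apply ℝ e
  have hcdd : HasCompactSupport fun y => dd ψ y e :=
    compactSupport_of_zero (y0 := y0) (R := R + 1) fun y hy => dd_zero h0 (by linarith) e
  have hψ1 : ContDiff ℝ 1 ψ := hψ.of_le one_le_two
  have hV1 : ContDiff ℝ 1 V := hV.of_le one_le_two
  have key := (h1 (fun _ => e) contDiff_const (by simp)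
    (fun y => ψ y * fderiv ℝ V y e - V y * fderiv ℝ ψ y e)
    ((hψ1.mul (contDiff_D hV e)).sub (hV1.mul (contDiff_D hψ e)))
    (hc.mul_right.sub hcD.mul_left)).1
  have e1 : ∀ y, fderiv ℝ (fun y => ψ y * fderiv ℝ V y e - V y * fderiv ℝ ψ y e) y e =
      ψ y * dd V y e - V y * dd ψ y e := by
    intro y
    have a1 := (hψ1.differentiable one_ne_zero y).hasFDerivAt
    have a2 := (hV1.differentiable one_ne_zero y).hasFDerivAt
    have a3 := ((contDiff_D hV e).differentiable one_ne_zero y).hasFDerivAt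
    have a4 := ((contDiff_D hψ e).differentiable one_ne_zero y).hasFDerivAt
    have a5 := ((a1.mul a3).sub (a2.mul a4)).fderiv
    have a6 : fderiv ℝ (fun y => ψ y * fderiv ℝ V y e - V y * fderiv ℝ ψ y e) y = _ := a5
    rw [a6]
    simp only [sub_apply, add_apply, smul_apply, smul_eq_mul, fderiv_D hV, fderiv_D hψ]
    ring
  simp only [e1] at key
  rw [integral_sub] at key
  · linarith
  · exact (hψ.continuous.mul (continuous_dd hV e)).integrable_of_hasCompactSupport hc.mul_right
  · exact (hV.continuous.mul (continuous_dd hψ e)).integrable_of_hasCompactSupport hcdd.mul_left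

lemma dd_affine {U : E2 → ℝ} (hU : ContDiff ℝ 2 U) (L : E2 →L[ℝ] ℝ) (M : ℝ) (y e : E2) :
    dd (fun y => M - (U y - L y)) y e = -dd U y e := by
  have h1 : (fderiv ℝ fun y => M - (U y - L y)) = fun y => L - fderiv ℝ U y := by
    funext y
    have := ((hU.differentiable two_ne_zero y).hasFDerivAt.sub L.hasFDerivAt).const_sub M
    rw [show fderiv ℝ (fun y => M - (U y - L y)) y = _ from this.fderiv]
    abel
  have h2 := (((hU.fderiv_right (m := 1) le_rfl).differentiable one_ne_zero y).hasFDerivAt).const_sub L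
  unfold dd
  rw [h1, h2.fderiv]
  simp

lemma int_lin (L : E2 →L[ℝ] ℝ) (ρ : ℝ) : ∫ v in closedBall (0 : E2) ρ, L v = 0 := by
  have hm : MeasurableSet (closedBall (0 : E2) ρ) := measurableSet_closedBall
  rw [← integral_indicator hm]
  have h := integral_neg_eq_self ((closedBall (0 : E2) ρ).indicator L) volume
  have e : ∀ v : E2, (closedBall (0 : E2) ρ).indicator L (-v) =
      -(closedBall (0 : E2) ρ).indicator L v := by
    intro v
    by_cases hv : v ∈ closedBall (0 : E2) ρ
    · have hv' : -v ∈ closedBall (0 : E2) ρ := by simpa using hv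
      simp [indicator_of_mem hv, indicator_of_mem hv']
    · have hv' : -v ∉ closedBall (0 : E2) ρ := by simpa using hv
      simp [indicator_of_notMem hv, indicator_of_notMem hv']
  simp only [e, integral_neg] at h
  linarith

lemma int_shift (F : E2 → ℝ) (y1 : E2) (ρ : ℝ) :
    ∫ y in closedBall y1 ρ, F y = ∫ v in closedBall (0 : E2) ρ, F (y1 + v) := by
  rw [← integral_indicator measurableSet_closedBall, ← integral_indicator measurableSet_closedBall,
    ← integral_add_left_eq_self _ y1]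
  congr 1
  funext v
  by_cases hv : v ∈ closedBall (0 : E2) ρ
  · have hv' : y1 + v ∈ closedBall y1 ρ := by simpa using hv
    simp [indicator_of_mem hv, indicator_of_mem hv']
  · have hv' : y1 + v ∉ closedBall y1 ρ := by simpa using hv
    simp [indicator_of_notMem hv, indicator_of_notMem hv']

/-- the mean defect on a ball -/
lemma mean (h3 : SubStmt) {f : E2 → ℂ} {η : ℝ} (hf : ContDiff ℂ 2 f) (hη : 0 < η)
    (hU : Continuous (U1 f η)) (L : E2 →L[ℝ] ℝ) (M : ℝ) (y1 : E2) (ρ : ℝ) :
    ∫ y in closedBall y1 ρ, (M - (U1 f η y - L y)) ≤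
      (volume : Measure E2).real (closedBall 0 ρ) * (M - (U1 f η y1 - L y1)) := by
  have hb : Bornology.IsBounded (closedBall (0 : E2) ρ) := isBounded_closedBall
  have hs := (h3 E2 volume η hη (closedBall 0 ρ) measurableSet_closedBall hb (fun t v hv => by
    rw [mem_closedBall_zero_iff] at hv ⊢
    rwa [norm_smul, norm_exp_ofReal_mul_I, one_mul]) y1).2 f (hf.differentiable two_ne_zero)
  rw [int_shift]
  have i1 : IntegrableOn (fun v => U1 f η (y1 + v)) (closedBall (0 : E2) ρ) :=
    intOn (hU.comp (by fun_prop)) hb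
  have i2 : IntegrableOn (fun v => L v) (closedBall (0 : E2) ρ) := intOn L.continuous hb
  have i3 : IntegrableOn (fun _ : E2 => M + L y1) (closedBall (0 : E2) ρ) :=
    intOn continuous_const hb
  have e : ∀ v, M - (U1 f η (y1 + v) - L (y1 + v)) = (M + L y1 - U1 f η (y1 + v)) + L v := by
    intro v; rw [map_add]; ring
  simp only [e]
  have i4 : IntegrableOn (fun v => M + L y1 - U1 f η (y1 + v)) (closedBall (0 : E2) ρ) := i3.sub i1
  rw [integral_add i4 i2, integral_sub i3 i1, int_lin, setIntegral_const, smul_eq_mul]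
  nlinarith

end Area

open Area in
theorem area (h1 : IBPStmt) (h2 : LapStmt) (h3 : SubStmt) : AreaStmt := by
  obtain ⟨K, hK, hcut⟩ := exists_cut
  set c : ℝ := (volume : Measure E2).real (closedBall 0 1) with hc
  have hc0 : 0 ≤ c := measureReal_nonneg
  refine ⟨1 + 162 * K * c, by nlinarith, fun f η l y0 y1 R M hf hη hR hy hM => ?_⟩
  obtain ⟨ψ, hψ, hψ2, hone, hzero, -, hdd⟩ := hcut y0 R hR
  obtain ⟨hU, -, hlap⟩ := (h2 E2 η hη).2 f hf
  let L : E2 →L[ℝ] ℝ := reCLM.comp (l.restrictScalars ℝ)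
  have hL : ∀ y, L y = (l y).re := fun _ => rfl
  set V : E2 → ℝ := fun y => M - (U1 f η y - L y) with hV
  have hV2 : ContDiff ℝ 2 V := contDiff_const.sub (hU.sub L.contDiff)
  have hV0 : ∀ y, ‖y - y0‖ ≤ 4 * R → 0 ≤ V y := fun y hy => sub_nonneg.2 (hM y hy)
  have hD0 : 0 ≤ V y1 := hV0 y1 (by linarith)
  -- the mean of the defect
  have hmean : ∫ y in closedBall y0 (2 * R), V y ≤ 81 * R ^ 4 * c * V y1 := by
    have hsub : ∀ y ∈ closedBall y1 (3 * R), ‖y - y0‖ ≤ 4 * R := fun y hy' => by
      rw [mem_closedBall_iff_norm] at hy'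
      calc ‖y - y0‖ = ‖(y - y1) + (y1 - y0)‖ := by congr 1; abel
        _ ≤ ‖y - y1‖ + ‖y1 - y0‖ := norm_add_le _ _
        _ ≤ _ := by linarith
    have a1 : ∫ y in closedBall y0 (2 * R), V y ≤ ∫ y in closedBall y1 (3 * R), V y := by
      refine setIntegral_mono_set (intOn hV2.continuous isBounded_closedBall)
        (ae_restrict_of_forall_mem measurableSet_closedBall fun y hy' => hV0 y (hsub y hy'))
        (LE.le.eventuallyLE fun y hy' => ?_)
      rw [mem_closedBall_iff_norm] at hy' ⊢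
      calc ‖y - y1‖ = ‖(y - y0) - (y1 - y0)‖ := by congr 1; abel
        _ ≤ ‖y - y0‖ + ‖y1 - y0‖ := norm_sub_le _ _
        _ ≤ _ := by linarith
    have a2 := mean h3 hf hη hU.continuous L M y1 (3 * R)
    rw [Measure.addHaar_real_closedBall' _ _ (by positivity : 0 ≤ 3 * R)] at a2
    have a3 : Module.finrank ℝ E2 = 4 := by simp
    rw [a3, ← hc] at a2
    calc _ ≤ _ := a1
      _ ≤ _ := a2
      _ = _ := by ring
  -- one real direction
  have hdir : ∀ e : E2, ‖e‖ = 1 → ∫ y, ψ y * dd (U1 f η) y e ≤ 81 * K * c * R ^ 2 * V y1 := by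
    intro e he
    have g := green h1 hψ2 hV2 hzero e
    have e1 : ∀ y, ψ y * dd V y e = -(ψ y * dd (U1 f η) y e) := fun y => by
      rw [hV, dd_affine hU]; ring
    simp only [e1, integral_neg] at g
    have e2 : ∫ y, V y * dd ψ y e = ∫ y in closedBall y0 (2 * R), V y * dd ψ y e := by
      refine (setIntegral_eq_integral_of_forall_compl_eq_zero fun y hy' => ?_).symm
      rw [dd_zero hzero (not_le.1 (mt mem_closedBall_iff_norm.2 hy')), mul_zero]
    have e3 : ∫ y in closedBall y0 (2 * R), -(K / R ^ 2 * V y) ≤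
        ∫ y in closedBall y0 (2 * R), V y * dd ψ y e := by
      refine setIntegral_mono_on (intOn (by have := hV2.continuous; fun_prop) isBounded_closedBall)
        (intOn (hV2.continuous.mul (continuous_dd hψ2 e)) isBounded_closedBall)
        measurableSet_closedBall fun y hy' => ?_
      have b1 := hV0 y (by rw [mem_closedBall_iff_norm] at hy'; linarith)
      have b2 := (abs_le.1 (hdd y e)).1
      rw [he] at b2
      nlinarith
    rw [integral_neg, integral_const_mul] at e3
    have e4 : K / R ^ 2 * ∫ y in closedBall y0 (2 * R), V y ≤ K / R ^ 2 * (81 * R ^ 4 * c * V y1) := by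
      gcongr
    have e5 : K / R ^ 2 * (81 * R ^ 4 * c * V y1) = 81 * K * c * R ^ 2 * V y1 := by
      field_simp
    linarith
  have hcs : HasCompactSupport ψ := compactSupport_of_zero hzero
  have hint : ∀ e : E2, Integrable fun y => ψ y * dd (U1 f η) y e := fun e =>
    (hψ2.continuous.mul (continuous_dd hU e)).integrable_of_hasCompactSupport hcs.mul_right
  set G : E2 → ℝ := fun y => wt η (f y) *
    (‖fderiv ℂ f y (1, 0)‖ ^ 2 + ‖fderiv ℂ f y (0, 1)‖ ^ 2) with hG
  have hG0 : ∀ y, 0 ≤ G y := fun y => mul_nonneg (wt_nonneg _ _) (by positivity)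
  have hGc : Continuous G := by
    have := hf.continuous_fderiv two_ne_zero
    have := (continuous_wt hη).comp hf.continuous
    exact this.mul (by fun_prop)
  have hsum : ∀ y, 2 * (ψ y * G y) = (ψ y * dd (U1 f η) y (1, 0) + ψ y * dd (U1 f η) y (I • (1, 0))) +
      (ψ y * dd (U1 f η) y (0, 1) + ψ y * dd (U1 f η) y (I • (0, 1))) := by
    intro y
    have b1 := hlap y (1, 0)
    have b2 := hlap y (0, 1)
    unfold lapd at b1 b2
    rw [← mul_add, ← mul_add, b1, b2, hG]
    ring
  have htot : ∫ y, ψ y * G y ≤ 162 * K * c * R ^ 2 * V y1 := by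
    have b0 : ∫ y, 2 * (ψ y * G y) = 2 * ∫ y, ψ y * G y := integral_const_mul _ _
    simp only [hsum] at b0
    have hint2 : ∀ e e' : E2, Integrable fun y =>
        ψ y * dd (U1 f η) y e + ψ y * dd (U1 f η) y e' := fun e e' => (hint e).add (hint e')
    rw [integral_add (hint2 _ _) (hint2 _ _), integral_add (hint _) (hint _),
      integral_add (hint _) (hint _)] at b0
    have n1 : ‖((1, 0) : E2)‖ = 1 := by simp [Prod.norm_def]
    have n2 : ‖((0, 1) : E2)‖ = 1 := by simp [Prod.norm_def]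
    have b1 := hdir _ n1
    have b2 := hdir _ n2
    have b3 := hdir (I • (1, 0)) (by rw [norm_smul, n1]; simp)
    have b4 := hdir (I • (0, 1)) (by rw [norm_smul, n2]; simp)
    linarith
  have hmain : ∫ y in closedBall y0 R, G y ≤ (1 + 162 * K * c) * R ^ 2 * V y1 := by
    have b1 : ∫ y in closedBall y0 R, G y = ∫ y in closedBall y0 R, ψ y * G y := by
      refine setIntegral_congr_fun measurableSet_closedBall fun y hy' => ?_
      rw [mem_closedBall_iff_norm] at hy'
      simp only [hone y (by linarith), one_mul]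
    have b2 : ∫ y in closedBall y0 R, ψ y * G y ≤ ∫ y, ψ y * G y :=
      setIntegral_le_integral
        ((hψ2.continuous.mul hGc).integrable_of_hasCompactSupport hcs.mul_right)
        (ae_of_all _ fun y => mul_nonneg (hψ.nn y) (hG0 y))
    have b3 : 0 ≤ R ^ 2 * V y1 := by positivity
    nlinarith
  refine ⟨hmain, le_trans ?_ hmain⟩
  refine setIntegral_mono_on (intOn (continuous_wW hf hη) isBounded_closedBall)
    (intOn hGc isBounded_closedBall) measurableSet_closedBall fun y _ => ?_
  refine mul_le_mul_of_nonneg_left ?_ (wt_nonneg _ _)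
  rw [Prod.norm_def]
  simp only [Wf, norm_neg]
  rcases le_total ‖fderiv ℂ f y (0, 1)‖ ‖fderiv ℂ f y (1, 0)‖ with h | h
  · rw [max_eq_right h]; nlinarith [sq_nonneg ‖fderiv ℂ f y (0, 1)‖]
  · rw [max_eq_left h]; nlinarith [sq_nonneg ‖fderiv ℂ f y (1, 0)‖]

end Pool.Agent.LinN2
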