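import Pool.Agent.Lib.MP_8465a2_an.N2.BasicB

/-!
Averages over translations commute with two derivatives.
-/

namespace Pool.Agent.LinN2

open MeasureTheory Metric Set Filter Topology Complex

namespace Avg

section General

variable {E : Type} [NormedAddCommGroup E] [NormedSpace ℝ E] [FiniteDimensional ℝ E]
  [MeasurableSpace E] [BorelSpace E] {μ : Measure E} [IsLocallyFiniteMeasure μ] {K : Set E}

lemma cont {F : Type} [NormedAddCommGroup F] [NormedSpace ℝ F] (hK : IsCompact K) {ψ : E → F}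
    (hψ : Continuous ψ) : Continuous fun x => ∫ v in K, ψ (x - v) ∂μ :=
  continuous_parametric_integral_of_continuous (f := fun x v => ψ (x - v))
    (hψ.comp (continuous_fst.sub continuous_snd)) hK

lemma intg {F : Type} [NormedAddCommGroup F] (hK : IsCompact K) {ψ : E → F}
    (hψ : Continuous ψ) (x : E) : IntegrableOn (fun v => ψ (x - v)) K μ :=
  (hψ.comp (continuous_const.sub continuous_id)).continuousOn.integrableOn_compact hK

lemma step {F : Type} [NormedAddCommGroup F] [NormedSpace ℝ F] (hK : IsCompact K) {φ : E → F}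
    (hφ : ContDiff ℝ 1 φ) (x : E) :
    HasFDerivAt (fun x => ∫ v in K, φ (x - v) ∂μ) (∫ v in K, fderiv ℝ φ (x - v) ∂μ) x := by
  have hc : Continuous (fderiv ℝ φ) := hφ.continuous_fderiv one_ne_zero
  have hd : Differentiable ℝ φ := hφ.differentiable one_ne_zero
  have hcp : IsCompact (closedBall x 1 ×ˢ K) := (isCompact_closedBall x 1).prod hK
  obtain ⟨M, hM⟩ := hcp.exists_bound_of_continuousOn
    (f := fun z : E × E => fderiv ℝ φ (z.1 - z.2))
    (hc.comp (continuous_fst.sub continuous_snd)).continuousOn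
  refine hasFDerivAt_integral_of_dominated_of_fderiv_le (F := fun x v => φ (x - v))
    (F' := fun x v => fderiv ℝ φ (x - v)) (bound := fun _ => M) (s := closedBall x 1)
    (closedBall_mem_nhds x one_pos)
    (Eventually.of_forall fun y => (intg hK hφ.continuous y).aestronglyMeasurable)
    (intg hK hφ.continuous x) (intg hK hc x).aestronglyMeasurable ?_ ?_ ?_
  · filter_upwards [ae_restrict_mem hK.measurableSet] with v hv y hy
    exact hM (y, v) ⟨hy, hv⟩
  · exact continuousOn_const.integrableOn_compact hK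
  · refine Eventually.of_forall fun v y _ => ?_
    have h1 : HasFDerivAt (fun y : E => y - v) (ContinuousLinearMap.id ℝ E) y :=
      (hasFDerivAt_id y).sub_const v
    simpa [Function.comp_def] using (hd (y - v)).hasFDerivAt.comp y h1

lemma fd {F : Type} [NormedAddCommGroup F] [NormedSpace ℝ F] (hK : IsCompact K) {φ : E → F}
    (hφ : ContDiff ℝ 1 φ) :
    fderiv ℝ (fun x => ∫ v in K, φ (x - v) ∂μ) = fun x => ∫ v in K, fderiv ℝ φ (x - v) ∂μ :=
  funext fun x => (step hK hφ x).fderiv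

lemma c1 {F : Type} [NormedAddCommGroup F] [NormedSpace ℝ F] (hK : IsCompact K) {φ : E → F}
    (hφ : ContDiff ℝ 1 φ) : ContDiff ℝ 1 fun x => ∫ v in K, φ (x - v) ∂μ := by
  rw [contDiff_one_iff_fderiv, fd hK hφ]
  exact ⟨fun x => (step hK hφ x).differentiableAt, cont hK (hφ.continuous_fderiv one_ne_zero)⟩

lemma c2' (hK : IsCompact K) {φ : E → ℝ} (hφ : ContDiff ℝ 2 φ) :
    ContDiff ℝ 2 fun x => ∫ v in K, φ (x - v) ∂μ := by
  have h1 : ContDiff ℝ 1 φ := hφ.of_le one_le_two
  have h2 : ContDiff ℝ 1 (fderiv ℝ φ) := hφ.fderiv_right (by norm_num)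
  rw [show (2 : WithTop ℕ∞) = 1 + 1 from rfl, contDiff_succ_iff_fderiv, fd hK h1]
  exact ⟨fun x => (step hK h1 x).differentiableAt, by simp, c1 hK h2⟩

lemma app {F : Type} [NormedAddCommGroup F] [NormedSpace ℝ F] [CompleteSpace F]
    (hK : IsCompact K) {φ : E → F} (hφ : ContDiff ℝ 1 φ) (x w : E) :
    fderiv ℝ (fun x => ∫ v in K, φ (x - v) ∂μ) x w = ∫ v in K, fderiv ℝ φ (x - v) w ∂μ := by
  rw [fd hK hφ]
  exact ContinuousLinearMap.integral_apply (intg hK (hφ.continuous_fderiv one_ne_zero) x) w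

omit [FiniteDimensional ℝ E] [MeasurableSpace E] [BorelSpace E] in
lemma cont_app {F : Type} [NormedAddCommGroup F] [NormedSpace ℝ F] {φ : E → F}
    (hφ : ContDiff ℝ 1 φ) (w : E) : Continuous fun x => fderiv ℝ φ x w :=
  (hφ.continuous_fderiv one_ne_zero).clm_apply continuous_const

lemma dd_int (hK : IsCompact K) {φ : E → ℝ} (hφ : ContDiff ℝ 2 φ) (x w : E) :
    dd (fun x => ∫ v in K, φ (x - v) ∂μ) x w = ∫ v in K, dd φ (x - v) w ∂μ := by
  have h1 : ContDiff ℝ 1 φ := hφ.of_le one_le_two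
  have h2 : ContDiff ℝ 1 (fderiv ℝ φ) := hφ.fderiv_right (by norm_num)
  unfold dd
  rw [fd hK h1, app hK h2]
  exact ContinuousLinearMap.integral_apply (intg hK (cont_app h2 w) x) w

omit [FiniteDimensional ℝ E] [MeasurableSpace E] [BorelSpace E] in
lemma dd_cont {φ : E → ℝ} (hφ : ContDiff ℝ 2 φ) (w : E) : Continuous fun x => dd φ x w := by
  have h2 : ContDiff ℝ 1 (fderiv ℝ φ) := hφ.fderiv_right (by norm_num)
  exact (cont_app h2 w).clm_apply continuous_const

end General

lemma dd_aff {E G : Type} [NormedAddCommGroup E] [NormedSpace ℝ E] [NormedAddCommGroup G]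
    [NormedSpace ℝ G] {Φ : E → ℝ} (hΦ : ContDiff ℝ 2 Φ) (p : E) (L : G →L[ℝ] E) (y W : G) :
    dd (fun y => Φ (p + L y)) y W = dd Φ (p + L y) (L W) := by
  have h1 : Differentiable ℝ Φ := hΦ.differentiable two_ne_zero
  have h2 : Differentiable ℝ (fderiv ℝ Φ) :=
    (hΦ.fderiv_right (m := 1) (by norm_num)).differentiable one_ne_zero
  have hA : ∀ y, HasFDerivAt (fun y => p + L y) L y := fun y => L.hasFDerivAt.const_add p
  have e1 : fderiv ℝ (fun y => Φ (p + L y)) = fun y => (fderiv ℝ Φ (p + L y)).comp L :=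
    funext fun y => ((h1 _).hasFDerivAt.comp y (hA y)).fderiv
  have e2 := ((h2 (p + L y)).hasFDerivAt.comp y (hA y)).clm_comp (hasFDerivAt_const L y)
  unfold dd
  rw [e1]
  erw [e2.fderiv]
  simp

end Avg

theorem avg : AvgStmt := by
  intro n φ R p e hφ
  have hK : IsCompact (closedBall (0 : Cn n) R) := isCompact_closedBall _ _
  have hΦ := Avg.c2' (μ := volume) hK hφ
  have hL : ∀ y, (plL e).restrictScalars ℝ y = pl e y := fun _ => rfl
  refine ⟨hΦ.comp (contDiff_const.add ((plL e).restrictScalars ℝ).contDiff), fun y W => ?_⟩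
  have key : ∀ W : E2, dd (fun y : E2 => ∫ v in closedBall (0 : Cn n) R, φ (p + pl e y - v)) y W =
      ∫ v in closedBall (0 : Cn n) R, dd φ (p + pl e y - v) (pl e W) := fun W =>
    (Avg.dd_aff hΦ p ((plL e).restrictScalars ℝ) y W).trans (Avg.dd_int hK hφ _ _)
  unfold lapd
  rw [key, key, pl_smul, integral_add (Avg.intg hK (Avg.dd_cont hφ _) _)
    (Avg.intg hK (Avg.dd_cont hφ _) _)]

end Pool.Agent.LinN2
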