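import Pool.Agent.Lib.MP_8465a2_an.N2.Stmts

/-!
Basic facts on suprema over complex balls, heights and null coordinates (MP_8465a2_an).
-/

namespace Pool.Agent.LinN2

open MeasureTheory Metric Set Filter Topology Complex
open scoped ENNReal ComplexConjugate

noncomputable section

variable {n : ℕ}

@[simp] lemma cx_apply (x : Rn n) (l : Fin n) : cx x l = (x l : ℂ) := rfl
@[simp] lemma cx_zero : cx (0 : Rn n) = 0 := by ext; simp
lemma cx_add (x y : Rn n) : cx (x + y) = cx x + cx y := by ext; simp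
lemma cx_sub (x y : Rn n) : cx (x - y) = cx x - cx y := by ext; simp
lemma cx_smul (t : ℝ) (x : Rn n) : cx (t • x) = (t : ℂ) • cx x := by ext; simp
lemma cx_sum {ι : Type} (S : Finset ι) (f : ι → Rn n) : cx (∑ i ∈ S, f i) = ∑ i ∈ S, cx (f i) := by
  ext; simp
@[simp] lemma star_cx (x : Rn n) : star (cx x) = cx x := by ext; simp
@[simp] lemma norm_cx (x : Rn n) : ‖cx x‖ = ‖x‖ := by simp [Pi.norm_def, cx]
lemma norm_cx_sub (x y : Rn n) : ‖cx x - cx y‖ = ‖x - y‖ := by rw [← cx_sub, norm_cx]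
lemma cx_dot (x y : Rn n) : cx x ⬝ᵥ cx y = ((x ⬝ᵥ y : ℝ) : ℂ) := by simp [dotProduct]

@[fun_prop] lemma continuous_cx : Continuous (cx (n := n)) := by unfold cx; fun_prop

/-- real part of a complex vector -/
def rp (y : Cn n) : Rn n := fun l => (y l).re
/-- imaginary part of a complex vector -/
def ip (y : Cn n) : Rn n := fun l => (y l).im

lemma rp_add_ip (y : Cn n) : cx (rp y) + I • cx (ip y) = y := by
  ext l; simp [rp, ip, mul_comm I, re_add_im]
lemma norm_rp_le (y : Cn n) : ‖rp y‖ ≤ ‖y‖ :=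
  (pi_norm_le_iff_of_nonneg (norm_nonneg _)).2 fun l =>
    (abs_re_le_norm _).trans (norm_le_pi_norm y l)
lemma norm_ip_le (y : Cn n) : ‖ip y‖ ≤ ‖y‖ :=
  (pi_norm_le_iff_of_nonneg (norm_nonneg _)).2 fun l =>
    (abs_im_le_norm _).trans (norm_le_pi_norm y l)

lemma norm_dot_le (a b : Cn n) : ‖a ⬝ᵥ b‖ ≤ n * ‖a‖ * ‖b‖ := by
  refine (norm_sum_le _ _).trans ((Finset.sum_le_card_nsmul _ _ (‖a‖ * ‖b‖) fun l _ => ?_).trans ?_)
  · rw [norm_mul]; gcongr <;> apply norm_le_pi_norm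
  · simp [mul_assoc]

lemma Adm.contDiff {g : Cn n → Cn n} (h : Adm g) (k : WithTop ℕ∞) : ContDiff ℂ k g := by
  rw [contDiff_pi]
  intro l
  obtain ⟨p, hp⟩ := h.poly l
  rw [show (fun y => g y l) = fun y => MvPolynomial.eval y p from funext hp]
  exact (AnalyticOnNhd.eval_mvPolynomial p).contDiff

lemma Adm.differentiable {g : Cn n → Cn n} (h : Adm g) : Differentiable ℂ g :=
  (h.contDiff 1).differentiable one_ne_zero

lemma Adm.continuous {g : Cn n → Cn n} (h : Adm g) : Continuous g := h.differentiable.continuous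

/-- an admissible map is real at real points -/
lemma Adm.cx_rp {g : Cn n → Cn n} (h : Adm g) (x : Rn n) : cx (rp (g (cx x))) = g (cx x) := by
  ext l
  have := congrFun (h.real (cx x)) l
  rw [star_cx, Pi.star_apply] at this
  exact conj_eq_iff_re.1 this.symm

section SS

variable {g : Cn n → Cn n}

lemma le_SS (hg : Continuous g) {x y : Cn n} {r : ℝ} (h : ‖y - x‖ ≤ r) : ‖g y‖ ≤ SS g x r :=
  le_csSup ((isCompact_closedBall x r).bddAbove_image hg.norm.continuousOn)
    ⟨y, mem_closedBall_iff_norm.2 h, rfl⟩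

lemma SS_le {x : Cn n} {r M : ℝ} (hM : 0 ≤ M) (h : ∀ y, ‖y - x‖ ≤ r → ‖g y‖ ≤ M) : SS g x r ≤ M :=
  Real.sSup_le (by rintro _ ⟨y, hy, rfl⟩; exact h y (mem_closedBall_iff_norm.1 hy)) hM

lemma SS_nonneg (g : Cn n → Cn n) (x : Cn n) (r : ℝ) : 0 ≤ SS g x r :=
  Real.sSup_nonneg (by rintro _ ⟨y, _, rfl⟩; exact norm_nonneg _)

lemma exists_SS (hg : Continuous g) (x : Cn n) {r : ℝ} (hr : 0 ≤ r) :
    ∃ y, ‖y - x‖ ≤ r ∧ ‖g y‖ = SS g x r := by
  obtain ⟨y, hy, h⟩ := (isCompact_closedBall x r).exists_isMaxOn (nonempty_closedBall.2 hr)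
    hg.norm.continuousOn
  exact ⟨y, mem_closedBall_iff_norm.1 hy, le_antisymm (le_SS hg (mem_closedBall_iff_norm.1 hy))
    (SS_le (norm_nonneg _) fun z hz => h (mem_closedBall_iff_norm.2 hz))⟩

lemma SS_mono (hg : Continuous g) {x x' : Cn n} {r r' : ℝ} (h : ‖x - x'‖ + r ≤ r') :
    SS g x r ≤ SS g x' r' :=
  SS_le (SS_nonneg _ _ _) fun y hy => le_SS hg (by
    calc ‖y - x'‖ ≤ ‖y - x‖ + ‖x - x'‖ := norm_sub_le_norm_sub_add_norm_sub _ _ _
      _ ≤ r' := by linarith)

lemma SS_mono' (hg : Continuous g) (x : Cn n) {r r' : ℝ} (h : r ≤ r') : SS g x r ≤ SS g x r' :=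
  SS_mono hg (by simpa using h)

/-- three circles -/
lemma SS_three (hg : Differentiable ℂ g) (x : Cn n) {a b s : ℝ} (hab : a < b) (h1 : a ≤ s)
    (h2 : s ≤ b) : SS g x (Real.exp s) ≤ SS g x (Real.exp a) ^ (1 - (s - a) / (b - a)) *
      SS g x (Real.exp b) ^ ((s - a) / (b - a)) := by
  refine SS_le (by have := SS_nonneg g x (Real.exp a); have := SS_nonneg g x (Real.exp b); positivity)
    fun y hy => ?_
  have key : ∀ z : ℂ, ‖x + Complex.exp (z - s) • (y - x) - x‖ ≤ Real.exp z.re := fun z => by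
    rw [add_sub_cancel_left, norm_smul, Complex.norm_exp]
    calc _ ≤ Real.exp (z - s).re * Real.exp s := by gcongr
      _ = _ := by rw [← Real.exp_add]; simp
  have hd : Differentiable ℂ fun z : ℂ => g (x + Complex.exp (z - s) • (y - x)) :=
    hg.comp (by fun_prop)
  have := HadamardThreeLines.norm_le_interp_of_mem_verticalClosedStrip' (z := (s : ℂ))
    (f := fun z : ℂ => g (x + Complex.exp (z - s) • (y - x))) (a := SS g x (Real.exp a))
    (b := SS g x (Real.exp b)) hab ⟨by simpa using h1, by simpa using h2⟩ hd.diffContOnCl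
    ⟨SS g x (Real.exp b), by
      rintro _ ⟨z, hz, rfl⟩
      exact le_SS hg.continuous ((key z).trans (Real.exp_le_exp.2 hz.2))⟩
    (fun z hz => le_SS hg.continuous ((key z).trans (le_of_eq (congrArg _ hz))))
    (fun z hz => le_SS hg.continuous ((key z).trans (le_of_eq (congrArg _ hz))))
  simpa using this

lemma SS_pos (hg : Differentiable ℂ g) (h0 : NZ g) (x : Cn n) {r : ℝ} (hr : 0 < r) :
    0 < SS g x r := by
  obtain ⟨y, hy⟩ := h0
  by_contra h
  have h1 : SS g x r = 0 := le_antisymm (not_lt.1 h) (SS_nonneg _ _ _)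
  set s := Real.log (r + ‖y - x‖)
  have hs : Real.log r ≤ s := Real.log_le_log hr (by linarith [norm_nonneg (y - x)])
  have h2 := SS_three hg x (a := Real.log r) (b := s + 1) (s := s) (by linarith) hs (by linarith)
  rw [Real.exp_log hr, h1, Real.zero_rpow, zero_mul] at h2
  · refine hy (norm_le_zero_iff.1 ((le_SS hg.continuous ?_).trans h2))
    rw [Real.exp_log (by positivity)]
    linarith
  · have : (s - Real.log r) / (s + 1 - Real.log r) < 1 := by
      rw [div_lt_one (by linarith)]; linarith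
    linarith

/-- height as a function of the logarithm of the radius -/
def HH (g : Cn n → Cn n) (x : Cn n) (s : ℝ) : ℝ := Real.log (SS g x (Real.exp s))

lemma HH_log (g : Cn n → Cn n) (x : Cn n) {r : ℝ} (hr : 0 < r) :
    HH g x (Real.log r) = Real.log (SS g x r) := by rw [HH, Real.exp_log hr]

lemma HH_mono (hg : Differentiable ℂ g) (h0 : NZ g) (x : Cn n) : Monotone (HH g x) :=
  fun _ _ h => Real.log_le_log (SS_pos hg h0 x (Real.exp_pos _))
    (SS_mono' hg.continuous x (Real.exp_le_exp.2 h))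

lemma HH_convex (hg : Differentiable ℂ g) (h0 : NZ g) (x : Cn n) : ConvexOn ℝ univ (HH g x) := by
  refine LinearOrder.convexOn_of_lt convex_univ fun a _ b _ hab t u ht hu htu => ?_
  obtain rfl : t = 1 - u := by linarith
  have h1 := SS_three hg x hab (s := (1 - u) * a + u * b) (by nlinarith) (by nlinarith)
  have e : ((1 - u) * a + u * b - a) / (b - a) = u := by
    rw [div_eq_iff (by linarith)]; ring
  have p1 := SS_pos hg h0 x (Real.exp_pos a)
  have p2 := SS_pos hg h0 x (Real.exp_pos b)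
  have h2 := Real.log_le_log (SS_pos hg h0 x (Real.exp_pos _)) h1
  rw [e, Real.log_mul (by positivity) (by positivity), Real.log_rpow p1, Real.log_rpow p2] at h2
  exact h2

/-- chords to the left have smaller slope -/
lemma HH_chord (hg : Differentiable ℂ g) (h0 : NZ g) (x : Cn n) {a b c d : ℝ} (hab : a ≤ b)
    (hcd : c ≤ d) (hac : a ≤ c) (hbd : b ≤ d) :
    (HH g x b - HH g x a) * (d - c) ≤ (HH g x d - HH g x c) * (b - a) := by
  have hc := HH_convex hg h0 x
  rcases hab.eq_or_lt with rfl | hab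
  · simp
  rcases hcd.eq_or_lt with rfl | hcd
  · simp
  have had : a < d := by linarith
  have h1 := hc.secant_mono (a := a) (x := b) (y := d) trivial trivial trivial hab.ne' had.ne' hbd
  have h2 := hc.secant_mono (a := d) (x := a) (y := c) trivial trivial trivial had.ne hcd.ne hac
  rw [← neg_div_neg_eq, neg_sub, neg_sub, ← neg_div_neg_eq (HH g x c - _), neg_sub, neg_sub] at h2
  have h3 := h1.trans h2
  rwa [div_le_div_iff₀ (by linarith) (by linarith)] at h3

/-- the complex supremum is controlled by the values at real points -/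
lemma exists_real (hg : Differentiable ℂ g) (x : Rn n) {r : ℝ} (hr : 0 ≤ r) :
    ∃ x1 : Rn n, ‖x1 - x‖ ≤ 2 * r ∧ SS g (cx x) r ^ 2 ≤ ‖g (cx x1)‖ * SS g (cx x) (4 * r) := by
  obtain ⟨y, hy, h1⟩ := exists_SS hg.continuous (cx x) hr
  have a1 : ‖rp (y - cx x)‖ ≤ r := (norm_rp_le _).trans hy
  have a2 : ‖ip (y - cx x)‖ ≤ r := (norm_ip_le _).trans hy
  set a := rp (y - cx x)
  set b := ip (y - cx x)
  obtain ⟨t, ht, h2⟩ := isCompact_Icc.exists_isMaxOn (s := Icc (-1 : ℝ) 1)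
    (nonempty_Icc.2 (by norm_num)) (f := fun t : ℝ => ‖g (cx (x + a + t • b))‖)
    (hg.continuous.comp (by fun_prop)).norm.continuousOn
  have hb : ∀ (w : ℂ) (c : ℝ), ‖w‖ ≤ c → ‖cx x + cx a + w • cx b - cx x‖ ≤ (1 + c) * r := by
    intro w c hw
    rw [add_assoc, add_sub_cancel_left]
    refine (norm_add_le _ _).trans ?_
    rw [norm_smul, norm_cx, norm_cx]
    nlinarith [mul_le_mul hw a2 (norm_nonneg _) ((norm_nonneg _).trans hw)]
  refine ⟨x + a + t • b, ?_, ?_⟩
  · have := hb t 1 (by rw [Complex.norm_real]; exact abs_le.2 ht)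
    rw [← cx_smul, ← cx_add, ← cx_add, norm_cx_sub] at this
    linarith
  set σ := Real.arsinh 1
  have hσ : 0 < σ := Real.arsinh_pos_iff.2 one_pos
  have hc : ∀ z : ℂ, 0 ≤ z.re → z.re ≤ 2 * σ → ‖Complex.cosh z‖ ≤ 3 := fun z h1 h2 => by
    have e : Real.cosh (2 * σ) = 3 := by
      rw [Real.cosh_two_mul, Real.cosh_sq, Real.sinh_arsinh]; norm_num
    rw [← e]
    refine le_trans ?_ (Real.cosh_le_cosh.2 (show |z.re| ≤ |2 * σ| by
      rwa [abs_of_nonneg h1, abs_of_nonneg (by linarith)]))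
    rw [Complex.cosh, Real.cosh_eq, norm_div, Complex.norm_two]
    gcongr
    refine (norm_add_le _ _).trans ?_
    simp [Complex.norm_exp]
  have hd : Differentiable ℂ fun z : ℂ => g (cx x + cx a + Complex.cosh z • cx b) :=
    hg.comp (by fun_prop)
  have h4 : ∀ z : ℂ, 0 ≤ z.re → z.re ≤ 2 * σ →
      ‖g (cx x + cx a + Complex.cosh z • cx b)‖ ≤ SS g (cx x) (4 * r) := fun z h1 h2 =>
    le_SS hg.continuous ((hb _ 3 (hc z h1 h2)).trans (by linarith))
  have := HadamardThreeLines.norm_le_interp_of_mem_verticalClosedStrip'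
    (z := (σ : ℂ) + (Real.pi / 2 : ℝ) * I) (l := 0) (u := 2 * σ)
    (f := fun z : ℂ => g (cx x + cx a + Complex.cosh z • cx b))
    (a := ‖g (cx (x + a + t • b))‖) (b := SS g (cx x) (4 * r)) (by linarith)
    ⟨by simpa using hσ.le, by simpa using by linarith⟩ hd.diffContOnCl
    ⟨SS g (cx x) (4 * r), by rintro _ ⟨z, hz, rfl⟩; exact h4 z hz.1 hz.2⟩
    (fun z hz => by
      have e : Complex.cosh z = (Real.cos z.im : ℝ) := by
        rw [show z = z.im * I from Complex.ext (by simpa using hz) (by simp), Complex.cosh_mul_I]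
        simp
      have := h2 (show Real.cos z.im ∈ Icc (-1 : ℝ) 1 from Real.cos_mem_Icc _)
      simp only [e, ← cx_smul, ← cx_add]
      exact this)
    (fun z hz => h4 z (by rw [show z.re = 2 * σ from hz]; linarith) (le_of_eq hz))
  have e1 : Complex.cosh ((σ : ℂ) + (Real.pi / 2 : ℝ) * I) = I := by
    rw [Complex.cosh_add, Complex.cosh_mul_I, Complex.sinh_mul_I, ← Complex.ofReal_cos,
      ← Complex.ofReal_sin, ← Complex.ofReal_sinh, Real.sinh_arsinh]
    simp
  have e2 : (((σ : ℂ) + (Real.pi / 2 : ℝ) * I).re - 0) / (2 * σ - 0) = 1 / 2 := by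
    simp; field_simp
  rw [e1, e2, add_assoc (cx x) (cx a), rp_add_ip, add_sub_cancel, h1,
    show (1 : ℝ) - 1 / 2 = 1 / 2 by norm_num, ← Real.mul_rpow (norm_nonneg _) (SS_nonneg _ _ _),
    ← Real.sqrt_eq_rpow] at this
  exact (Real.le_sqrt (SS_nonneg _ _ _)
    (mul_nonneg (norm_nonneg _) (SS_nonneg _ _ _))).1 this

end SS

section Scales

variable {g : Cn n → Cn n} {A : ℕ}

lemma rj_pos (hA : 1 ≤ A) (j : ℕ) : 0 < rj A j := by
  have : (0 : ℝ) < A := by exact_mod_cast hA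
  unfold rj; positivity
@[simp] lemma rj_zero (A : ℕ) : rj A 0 = 1 := pow_zero _
lemma rj_add (A i j : ℕ) : rj A (i + j) = rj A i / (A : ℝ) ^ j := by
  rw [rj, rj, pow_add, inv_pow (A : ℝ) j, div_eq_mul_inv]
lemma rj_succ (A j : ℕ) : rj A (j + 1) = rj A j / A := by rw [rj_add, pow_one]
lemma rj_anti (hA : 1 ≤ A) : Antitone (rj A) := fun _ _ h =>
  pow_le_pow_of_le_one (by positivity) (inv_le_one_of_one_le₀ (by exact_mod_cast hA)) h
lemma rj_le_one (hA : 1 ≤ A) (j : ℕ) : rj A j ≤ 1 := by simpa using rj_anti hA (Nat.zero_le j)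
lemma log_rj (A j : ℕ) : Real.log (rj A j) = -(j * Real.log A) := by
  rw [rj, Real.log_pow, Real.log_inv, mul_neg]
lemma rj_eq_exp (hA : 1 ≤ A) (j : ℕ) : rj A j = Real.exp (-(j * Real.log A)) := by
  rw [← log_rj, Real.exp_log (rj_pos hA j)]
lemma one_le_log (hA : 3 ≤ A) : 1 ≤ Real.log A := by
  rw [Real.le_log_iff_exp_le (by exact_mod_cast (by omega : 0 < A))]
  exact Real.exp_one_lt_three.le.trans (by exact_mod_cast hA)
lemma rj_le_exp (hA : 3 ≤ A) (j : ℕ) : rj A j ≤ Real.exp (-(j : ℝ)) := by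
  rw [rj_eq_exp (by omega), Real.exp_le_exp]
  nlinarith [one_le_log hA, Nat.cast_nonneg (α := ℝ) j]

lemma hj_eq (hA : 1 ≤ A) (g : Cn n → Cn n) (x : Rn n) (j : ℕ) :
    hj g A x j = HH g (cx x) (-(j * Real.log A)) := by rw [hj, HH, rj_eq_exp hA]

lemma mj_nonneg (hg : Differentiable ℂ g) (h0 : NZ g) (hA : 1 ≤ A) (x : Rn n) (j : ℕ) :
    0 ≤ mj g A x j := by
  rw [mj, hj_eq hA, hj_eq hA, sub_nonneg]
  refine HH_mono hg h0 _ ?_
  have := Real.log_nonneg (show (1 : ℝ) ≤ A by exact_mod_cast hA)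
  push_cast; linarith

lemma mj_eq (hA : 2 ≤ A) (g : Cn n → Cn n) (x : Rn n) (j : ℕ) :
    mj g A x j = mu g A x j * Real.log A :=
  (div_mul_cancel₀ _ (Real.log_pos (by exact_mod_cast hA)).ne').symm

/-- below the scale `j` on the left and `j + 1` on the right the slope is at most `mu j` -/
lemma HH_le_mu (hg : Differentiable ℂ g) (h0 : NZ g) (hA : 2 ≤ A) (x : Rn n) (j : ℕ) {a b : ℝ}
    (hab : a ≤ b) (ha : a ≤ -((j + 1 : ℕ) * Real.log A)) (hb : b ≤ -(j * Real.log A)) :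
    HH g (cx x) b - HH g (cx x) a ≤ mu g A x j * (b - a) := by
  have hl : 0 < Real.log A := Real.log_pos (by exact_mod_cast hA)
  have := HH_chord hg h0 (cx x) hab (by push_cast; linarith) ha hb
  rw [← hj_eq (by omega), ← hj_eq (by omega), ← mj, mj_eq hA] at this
  push_cast at this
  exact le_of_mul_le_mul_right (by linarith) hl

/-- above the scale `j + 1` on the left and `j` on the right the slope is at least `mu j` -/
lemma mu_le_HH (hg : Differentiable ℂ g) (h0 : NZ g) (hA : 2 ≤ A) (x : Rn n) (j : ℕ) {a b : ℝ}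
    (hab : a ≤ b) (ha : -((j + 1 : ℕ) * Real.log A) ≤ a) (hb : -(j * Real.log A) ≤ b) :
    mu g A x j * (b - a) ≤ HH g (cx x) b - HH g (cx x) a := by
  have hl : 0 < Real.log A := Real.log_pos (by exact_mod_cast hA)
  have := HH_chord hg h0 (cx x) (by push_cast; linarith) hab ha hb
  rw [← hj_eq (by omega), ← hj_eq (by omega), ← mj, mj_eq hA] at this
  push_cast at this
  exact le_of_mul_le_mul_right (by linarith) hl

lemma mj_anti (hg : Differentiable ℂ g) (h0 : NZ g) (hA : 2 ≤ A) (x : Rn n) :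
    Antitone (mj g A x) := by
  have hl : 0 < Real.log A := Real.log_pos (by exact_mod_cast hA)
  refine antitone_nat_of_succ_le fun j => ?_
  have := HH_le_mu hg h0 hA x j (a := -((j + 1 + 1 : ℕ) * Real.log A))
    (b := -((j + 1 : ℕ) * Real.log A)) (by push_cast; linarith) (by push_cast; linarith)
    (by push_cast; linarith)
  rw [← hj_eq (by omega), ← hj_eq (by omega), ← mj] at this
  rw [mj_eq hA g x j]
  push_cast at this
  linarith

lemma mu_anti (hg : Differentiable ℂ g) (h0 : NZ g) (hA : 2 ≤ A) (x : Rn n) :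
    Antitone (mu g A x) := fun _ _ h =>
  div_le_div_of_nonneg_right (mj_anti hg h0 hA x h) (Real.log_natCast_nonneg A)

lemma Pin.half_le {b i : ℕ} {x : Rn n} (h : Pin g A b x i) (hg : Differentiable ℂ g) (h0 : NZ g)
    (hA : 2 ≤ A) : 1 / 2 ≤ mu g A x i := by
  rw [mu, le_div_iff₀ (Real.log_pos (by exact_mod_cast hA))]
  linarith [h.2.1, mj_anti hg h0 hA x (Nat.le_add_right i b)]

/-- growth of the supremum below the scale `j + 1` -/
lemma SS_le_rpow (hg : Differentiable ℂ g) (h0 : NZ g) (hA : 2 ≤ A) (x : Rn n) (j : ℕ) {s t : ℝ}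
    (hs : 0 < s) (hst : s ≤ t) (ht : t ≤ rj A (j + 1)) :
    SS g (cx x) t ≤ Real.exp (mu g A x j * Real.log (t / s)) * SS g (cx x) s := by
  have hl : 0 < Real.log A := Real.log_pos (by exact_mod_cast hA)
  have ht0 : 0 < t := hs.trans_le hst
  have h1 : Real.log t ≤ -((j + 1 : ℕ) * Real.log A) := log_rj A _ ▸ Real.log_le_log ht0 ht
  have h2 := Real.log_le_log hs hst
  have := HH_le_mu hg h0 hA x j h2 (h2.trans h1) (h1.trans (by push_cast; linarith))
  rw [HH_log _ _ hs, HH_log _ _ ht0] at this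
  rw [Real.log_div ht0.ne' hs.ne', ← Real.exp_log (SS_pos hg h0 _ hs),
    ← Real.exp_log (SS_pos hg h0 _ ht0), ← Real.exp_add, Real.exp_le_exp]
  linarith

/-- an inactive scale bounds the function from below -/
lemma inactive (hg : Differentiable ℂ g) (h0 : NZ g) (hA : 16 ≤ A) {x : Rn n} {j : ℕ}
    (h : mj g A x j < Real.log A / 2) : SS g (cx x) (rj A (j + 1)) / 2 ≤ ‖g (cx x)‖ := by
  have hA' : (16 : ℝ) ≤ A := by exact_mod_cast hA
  have hr := rj_pos (A := A) (by omega) j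
  have hr1 := rj_pos (A := A) (by omega) (j + 1)
  have p0 := SS_pos hg h0 (cx x) hr
  have p1 := SS_pos hg h0 (cx x) hr1
  have h1 : SS g (cx x) (rj A j) < √A * SS g (cx x) (rj A (j + 1)) := by
    rw [← Real.log_lt_log_iff p0 (by positivity), Real.log_mul (by positivity) p1.ne',
      Real.log_sqrt (by positivity)]
    unfold mj hj at h
    linarith
  obtain ⟨y, hy, h2⟩ := exists_SS hg.continuous (cx x) hr1.le
  have h3 := Complex.dist_le_div_mul_dist_of_mapsTo_ball (c := 0) (R₁ := A) (z := 1)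
    (R₂ := 2 * (√A * SS g (cx x) (rj A (j + 1)))) (f := fun t : ℂ => g (cx x + t • (y - cx x)))
    (hg.comp (by fun_prop)).differentiableOn (fun t ht => by
      rw [mem_ball_zero_iff] at ht
      rw [mem_closedBall_iff_norm]
      refine (norm_sub_le _ _).trans ?_
      have a1 : ‖g (cx x + t • (y - cx x))‖ ≤ SS g (cx x) (rj A j) := le_SS hg.continuous (by
        rw [add_sub_cancel_left, norm_smul]
        calc _ ≤ A * rj A (j + 1) := by gcongr
          _ = _ := by rw [rj_succ]; field_simp)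
      have a2 : ‖g (cx x + (0 : ℂ) • (y - cx x))‖ ≤ SS g (cx x) (rj A j) :=
        le_SS hg.continuous (by simpa using hr.le)
      linarith) (by rw [mem_ball_zero_iff, norm_one]; linarith)
  simp only [one_smul, add_sub_cancel, zero_smul, add_zero, dist_eq_norm, sub_zero, norm_one,
    mul_one] at h3
  have h4 : 2 * (√A * SS g (cx x) (rj A (j + 1))) / A ≤ SS g (cx x) (rj A (j + 1)) / 2 := by
    have a1 : (4 : ℝ) ≤ √A := Real.le_sqrt_of_sq_le (by linarith)
    rw [div_le_div_iff₀ (by linarith) two_pos]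
    nlinarith [Real.mul_self_sqrt (show (0 : ℝ) ≤ A by linarith),
      mul_le_mul_of_nonneg_left a1 (show 0 ≤ √A * SS g (cx x) (rj A (j + 1)) by positivity)]
  linarith [norm_sub_norm_le (g y) (g (cx x))]

variable {N : ℝ}

lemma Nor.diff (h : Nor g N) : Differentiable ℂ g := h.adm.differentiable

lemma Nor.nz (h : Nor g N) : NZ g := by
  obtain ⟨y, _, hy⟩ := exists_SS h.adm.continuous 0 zero_le_one
  exact ⟨y, norm_pos_iff.1 (hy ▸ (Real.exp_pos _).trans_le h.low)⟩

lemma Nor.SS_le_one (h : Nor g N) {x : Cn n} {r : ℝ} (hr : ‖x‖ + r ≤ 100) : SS g x r ≤ 1 :=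
  SS_le zero_le_one fun y hy => h.up y (by linarith [norm_le_norm_add_norm_sub' y x])

/-- the slope is at most `2 N` below the radius `6` -/
lemma Nor.slope (h : Nor g N) {x : Rn n} (hx : ‖x‖ ≤ 5) {s t : ℝ} (hs : 0 < s) (hst : s ≤ t)
    (ht : t ≤ 6) : Real.log (SS g (cx x) t) - Real.log (SS g (cx x) s) ≤
      2 * N * (Real.log t - Real.log s) := by
  have ht0 : 0 < t := hs.trans_le hst
  have h1 := Real.log_le_log hs hst
  have h2 := Real.log_le_log ht0 ht
  have h3 : Real.log 12 = Real.log 6 + Real.log 2 := by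
    rw [← Real.log_mul (by norm_num) (by norm_num)]; norm_num
  have h4 := Real.log_two_gt_d9
  have := HH_chord h.diff h.nz (cx x) h1 (show Real.log 6 ≤ Real.log 12 by linarith) (h1.trans h2)
    (by linarith)
  rw [HH_log _ _ hs, HH_log _ _ ht0, HH_log _ _ (by norm_num), HH_log _ _ (by norm_num)] at this
  have a1 : Real.log (SS g (cx x) 12) ≤ 0 :=
    Real.log_nonpos (SS_nonneg _ _ _) (h.SS_le_one (by rw [norm_cx]; linarith))
  have a2 : -N ≤ Real.log (SS g (cx x) 6) := by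
    rw [Real.le_log_iff_exp_le (SS_pos h.diff h.nz _ (by norm_num))]
    exact h.low.trans (SS_mono h.adm.continuous (by simp; linarith))
  have a3 := HH_mono h.diff h.nz (cx x) h1
  rw [HH_log _ _ hs, HH_log _ _ ht0] at a3
  nlinarith [h.one, mul_le_mul_of_nonneg_right (show Real.log (SS g (cx x) 12) -
    Real.log (SS g (cx x) 6) ≤ N by linarith) (sub_nonneg.2 h1)]

lemma Nor.log_ge (h : Nor g N) {x : Rn n} (hx : ‖x‖ ≤ 5) {s : ℝ} (hs : 0 < s) (hs6 : s ≤ 6) :
    -(5 * N) + 2 * N * Real.log s ≤ Real.log (SS g (cx x) s) := by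
  have h1 := h.slope hx hs hs6 le_rfl
  have a2 : -N ≤ Real.log (SS g (cx x) 6) := by
    rw [Real.le_log_iff_exp_le (SS_pos h.diff h.nz _ (by norm_num))]
    exact h.low.trans (SS_mono h.adm.continuous (by simp; linarith))
  have a3 : Real.log 6 ≤ 2 := by
    rw [Real.log_le_iff_le_exp (by norm_num), show (2 : ℝ) = 1 + 1 by norm_num, Real.exp_add]
    nlinarith [Real.exp_one_gt_d9]
  nlinarith [h.one]

lemma Nor.mj_le (h : Nor g N) (hA : 2 ≤ A) {x : Rn n} (hx : ‖x‖ ≤ 5) (j : ℕ) :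
    mj g A x j ≤ 2 * N * Real.log A := by
  refine (mj_anti h.diff h.nz hA x (Nat.zero_le j)).trans ?_
  have := h.slope hx (rj_pos (A := A) (by omega) 1) (rj_le_one (by omega) 1) (by norm_num)
  rw [log_rj] at this
  simpa [mj, hj] using this

end Scales

section Null

variable {u1 u2 : Rn n}

lemma zc_add (u1 u2 : Rn n) (y y' : Cn n) : zc u1 u2 (y + y') = zc u1 u2 y + zc u1 u2 y' :=
  dotProduct_add _ _ _
lemma wc_add (u1 u2 : Rn n) (y y' : Cn n) : wc u1 u2 (y + y') = wc u1 u2 y + wc u1 u2 y' :=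
  dotProduct_add _ _ _
lemma zc_sub (u1 u2 : Rn n) (y y' : Cn n) : zc u1 u2 (y - y') = zc u1 u2 y - zc u1 u2 y' :=
  dotProduct_sub _ _ _
lemma wc_sub (u1 u2 : Rn n) (y y' : Cn n) : wc u1 u2 (y - y') = wc u1 u2 y - wc u1 u2 y' :=
  dotProduct_sub _ _ _
lemma zc_smul (u1 u2 : Rn n) (c : ℂ) (y : Cn n) : zc u1 u2 (c • y) = c * zc u1 u2 y :=
  dotProduct_smul _ _ _
lemma wc_smul (u1 u2 : Rn n) (c : ℂ) (y : Cn n) : wc u1 u2 (c • y) = c * wc u1 u2 y :=
  dotProduct_smul _ _ _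
lemma zc_star (u1 u2 : Rn n) (y : Cn n) : zc u1 u2 (star y) = conj (wc u1 u2 y) := by
  simp [zc, wc, dotProduct]
lemma wc_star (u1 u2 : Rn n) (y : Cn n) : wc u1 u2 (star y) = conj (zc u1 u2 y) := by
  simp [zc, wc, dotProduct, sub_eq_add_neg]
lemma zc_cx (u1 u2 x : Rn n) : zc u1 u2 (cx x) = (u1 ⬝ᵥ x : ℝ) + I * (u2 ⬝ᵥ x : ℝ) := by
  rw [zc, add_dotProduct, smul_dotProduct, cx_dot, cx_dot, smul_eq_mul]
lemma wc_cx (u1 u2 x : Rn n) : wc u1 u2 (cx x) = (u1 ⬝ᵥ x : ℝ) - I * (u2 ⬝ᵥ x : ℝ) := by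
  rw [wc, sub_dotProduct, smul_dotProduct, cx_dot, cx_dot, smul_eq_mul]

lemma ON.sq_le (h : ON u1 u2) (l : Fin n) : u1 l ^ 2 + u2 l ^ 2 ≤ 1 := by
  obtain ⟨h1, h2, h3⟩ := h
  have e : (u1 l • u1 + u2 l • u2) ⬝ᵥ (u1 l • u1 + u2 l • u2) = u1 l ^ 2 + u2 l ^ 2 := by
    simp only [add_dotProduct, dotProduct_add, smul_dotProduct, dotProduct_smul, h1, h2, h3,
      dotProduct_comm u2 u1, smul_eq_mul]
    ring
  have h4 := Finset.single_le_sum (f := fun k => (u1 l • u1 + u2 l • u2) k *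
    (u1 l • u1 + u2 l • u2) k) (fun k _ => mul_self_nonneg _) (Finset.mem_univ l)
  rw [← dotProduct, e] at h4
  simp only [Pi.add_apply, Pi.smul_apply, smul_eq_mul] at h4
  nlinarith [sq_nonneg (u1 l), sq_nonneg (u2 l)]

lemma ON.norm_add (h : ON u1 u2) : ‖cx u1 + I • cx u2‖ ≤ 1 :=
  (pi_norm_le_iff_of_nonneg zero_le_one).2 fun l => by
    rw [← sq_le_one_iff₀ (norm_nonneg _), Complex.sq_norm, normSq_apply]
    simpa [sq] using h.sq_le l

lemma ON.norm_sub (h : ON u1 u2) : ‖cx u1 - I • cx u2‖ ≤ 1 :=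
  (pi_norm_le_iff_of_nonneg zero_le_one).2 fun l => by
    rw [← sq_le_one_iff₀ (norm_nonneg _), Complex.sq_norm, normSq_apply]
    simpa [sq] using h.sq_le l

lemma ON.norm_zc (h : ON u1 u2) (y : Cn n) : ‖zc u1 u2 y‖ ≤ n * ‖y‖ :=
  (norm_dot_le _ _).trans (by grw [h.norm_add, mul_one])

lemma ON.norm_wc (h : ON u1 u2) (y : Cn n) : ‖wc u1 u2 y‖ ≤ n * ‖y‖ :=
  (norm_dot_le _ _).trans (by grw [h.norm_sub, mul_one])

lemma ON.pos (h : ON u1 u2) : 1 ≤ n := by
  rcases n with _ | n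
  · simpa [dotProduct] using h.1
  · omega

/-- the null vector dual to the coordinate `zc` -/
def nv (u1 u2 : Rn n) : Cn n := (1 / 2 : ℂ) • (cx u1 - I • cx u2)

lemma star_nv (u1 u2 : Rn n) : star (nv u1 u2) = (1 / 2 : ℂ) • (cx u1 + I • cx u2) := by
  ext l; simp [nv]
lemma ON.norm_nv (h : ON u1 u2) : ‖nv u1 u2‖ ≤ 1 / 2 := by
  rw [nv, norm_smul]; grw [h.norm_sub]; simp
lemma ON.zc_nv (h : ON u1 u2) : zc u1 u2 (nv u1 u2) = 1 := by
  rw [nv, zc_smul, zc_sub, zc_smul, zc_cx, zc_cx, h.1, h.2.1, h.2.2, dotProduct_comm u2 u1, h.2.2]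
  simp; norm_num
lemma ON.wc_nv (h : ON u1 u2) : wc u1 u2 (nv u1 u2) = 0 := by
  rw [nv, wc_smul, wc_sub, wc_smul, wc_cx, wc_cx, h.1, h.2.1, h.2.2, dotProduct_comm u2 u1, h.2.2]
  simp

/-- growth of the supremum at a tube point -/
lemma TubeAx.SS_le {g : Cn n → Cn n} {x : Rn n} {r μ X B lam : ℝ} (h : TubeAx g x r μ X B u1 u2)
    (hr : 0 < r) (hμ : 0 ≤ μ) (hl : Real.exp (-B) ≤ n * lam) (hB : lam ≤ Real.exp B) :
    SS g (cx x) (lam * r) ≤ Real.exp (X + μ * Real.log (n * lam)) * SS g (cx x) r := by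
  have h0 := SS_nonneg g (cx x) r
  have h1 : 0 < n * lam := (Real.exp_pos _).trans_le hl
  refine Pool.Agent.LinN2.SS_le (by positivity) fun y hy =>
    (h.2 y (hy.trans (by rw [mul_comm]; gcongr))).trans ?_
  rw [Real.exp_add, mul_comm μ, ← Real.rpow_def_of_pos h1, mul_comm _ (SS g (cx x) r), ← mul_assoc]
  gcongr
  refine max_le ?_ hl
  rw [div_le_iff₀ hr, mul_assoc]
  exact max_le ((h.1.norm_zc _).trans (by gcongr)) ((h.1.norm_wc _).trans (by gcongr))

lemma TubeAx.mono {g : Cn n → Cn n} {x : Rn n} {r μ X X' B B' : ℝ} (h : TubeAx g x r μ X B u1 u2)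
    (hr : 0 < r) (hμ : 0 ≤ μ) (hX : X ≤ X') (hB : B' ≤ B) : TubeAx g x r μ X' B' u1 u2 := by
  have h0 := SS_nonneg g (cx x) r
  refine ⟨h.1, fun y hy => (h.2 y (hy.trans (by gcongr))).trans ?_⟩
  gcongr

lemma UP.mono {g : Cn n → Cn n} {y : Cn n} {S0 r μ X X' B B' : ℝ} (h : UP g y S0 r μ X B)
    (hS : 0 ≤ S0) (hX : X ≤ X') (hB : B' ≤ B) : UP g y S0 r μ X' B' :=
  fun s hs y' hy => (h s (hs.trans hB) y' hy).trans (by gcongr)

end Null

end

end Pool.Agent.LinN2
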