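import Pool.Agent.Lib.MP_8465a2_an.N2.BasicA

/-!
Basic facts on planes, energies, cutoffs and waves (MP_8465a2_an).
-/

namespace Pool.Agent.LinN2

open MeasureTheory Metric Set Filter Topology Complex
open scoped ENNReal ComplexConjugate

noncomputable section

variable {n : ℕ}

section Plane

variable {e : Dir n}

lemma pl_add (e : Dir n) (y y' : E2) : pl e (y + y') = pl e y + pl e y' := by
  simp only [pl, Prod.fst_add, Prod.snd_add, add_smul]; abel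
lemma pl_sub (e : Dir n) (y y' : E2) : pl e (y - y') = pl e y - pl e y' := by
  simp only [pl, Prod.fst_sub, Prod.snd_sub, sub_smul]; abel
lemma pl_smul (e : Dir n) (c : ℂ) (y : E2) : pl e (c • y) = c • pl e y := by
  simp [pl, smul_smul]
lemma pl_star (e : Dir n) (y : E2) : pl e (star y) = star (pl e y) := by ext l; simp [pl]
lemma pl_c2 (e : Dir n) (y : ℝ × ℝ) : pl e (c2 y) = cx (plr e y) := by ext l; simp [pl, c2, plr]
lemma plr_sub (e : Dir n) (y y' : ℝ × ℝ) : plr e (y - y') = plr e y - plr e y' := by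
  simp only [plr, Prod.fst_sub, Prod.snd_sub, sub_smul]; abel
lemma c2_sub (y y' : ℝ × ℝ) : c2 (y - y') = c2 y - c2 y' := by simp [c2]
@[simp] lemma norm_c2 (y : ℝ × ℝ) : ‖c2 y‖ = ‖y‖ := by simp [c2, Prod.norm_def]
@[simp] lemma c2_zero : c2 0 = 0 := by simp [c2]
@[simp] lemma plr_zero (e : Dir n) : plr e 0 = 0 := by simp [plr]

/-- the plane as a continuous linear map -/
def plL (e : Dir n) : E2 →L[ℂ] Cn n :=
  (ContinuousLinearMap.fst ℂ ℂ ℂ).smulRight (cx e.1) + (ContinuousLinearMap.snd ℂ ℂ ℂ).smulRight (cx e.2)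
@[simp] lemma plL_apply (e : Dir n) (y : E2) : plL e y = pl e y := rfl

@[fun_prop] lemma continuous_pl : Continuous fun z : Dir n × E2 => pl z.1 z.2 := by
  unfold pl; fun_prop
@[fun_prop] lemma continuous_plr : Continuous fun z : Dir n × (ℝ × ℝ) => plr z.1 z.2 := by
  unfold plr; fun_prop
@[fun_prop] lemma continuous_c2 : Continuous c2 := by unfold c2; fun_prop

/-- real part of a point of the plane -/
def r2 (y : E2) : ℝ × ℝ := (y.1.re, y.2.re)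
/-- imaginary part of a point of the plane -/
def i2 (y : E2) : ℝ × ℝ := (y.1.im, y.2.im)
lemma r2_add_i2 (y : E2) : c2 (r2 y) + I • c2 (i2 y) = y := by
  ext <;> simp [c2, r2, i2, mul_comm I, re_add_im]
lemma norm_r2_le (y : E2) : ‖r2 y‖ ≤ ‖y‖ :=
  max_le_max (abs_re_le_norm _) (abs_re_le_norm _)
lemma norm_i2_le (y : E2) : ‖i2 y‖ ≤ ‖y‖ :=
  max_le_max (abs_im_le_norm _) (abs_im_le_norm _)
lemma mem_N0 {ηN : ℝ} {y : E2} : y ∈ N0 ηN ↔ ‖r2 y‖ ≤ 1 ∧ ‖i2 y‖ ≤ ηN := by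
  simp [N0, r2, i2, Prod.norm_def, and_assoc]
lemma norm_le_of_N0 {ηN : ℝ} (h : ηN ≤ 1) {y : E2} (hy : y ∈ N0 ηN) : ‖y‖ ≤ 3 / 2 := by
  have key : ∀ z : ℂ, |z.re| ≤ 1 → |z.im| ≤ ηN → ‖z‖ ≤ 3 / 2 := fun z h1 h2 => by
    refine le_of_sq_le_sq ?_ (by norm_num) |> fun h => h
    rw [Complex.sq_norm, normSq_apply]
    nlinarith [abs_le.1 h1, abs_le.1 (h2.trans h)]
  exact max_le (key _ hy.1 hy.2.2.1) (key _ hy.2.1 hy.2.2.2)

lemma norm_bv (j : ℕ) : ‖(bv j : Rn n)‖ ≤ 1 :=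
  (pi_norm_le_iff_of_nonneg zero_le_one).2 fun l => by unfold bv; split_ifs <;> simp

lemma Ebox_norm (he : e ∈ Ebox n) : ‖e.1‖ ≤ 9 / 8 ∧ ‖e.2‖ ≤ 9 / 8 :=
  ⟨by linarith [norm_le_norm_add_norm_sub' e.1 (bv 0), norm_bv (n := n) 0,
    mem_closedBall_iff_norm.1 he.1], by
    linarith [norm_le_norm_add_norm_sub' e.2 (bv 1), norm_bv (n := n) 1,
      mem_closedBall_iff_norm.1 he.2]⟩

lemma norm_pl_le (he : e ∈ Ebox n) (y : E2) : ‖pl e y‖ ≤ 9 / 4 * ‖y‖ := by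
  refine (norm_add_le _ _).trans ?_
  rw [norm_smul, norm_smul, norm_cx, norm_cx]
  nlinarith [mul_le_mul (norm_fst_le y) (Ebox_norm he).1 (norm_nonneg _) (norm_nonneg _),
    mul_le_mul (norm_snd_le y) (Ebox_norm he).2 (norm_nonneg _) (norm_nonneg _)]

lemma le_norm_pl (hn : 2 ≤ n) (he : e ∈ Ebox n) (y : E2) : 3 / 4 * ‖y‖ ≤ ‖pl e y‖ := by
  have h1 : ‖pl e y - pl (bv 0, bv 1) y‖ ≤ 1 / 4 * ‖y‖ := by
    rw [show pl e y - pl (bv 0, bv 1) y = y.1 • cx (e.1 - bv 0) + y.2 • cx (e.2 - bv 1) by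
      simp only [pl, cx_sub, smul_sub]; abel]
    refine (norm_add_le _ _).trans ?_
    rw [norm_smul, norm_smul, norm_cx, norm_cx]
    nlinarith [mul_le_mul (norm_fst_le y) (mem_closedBall_iff_norm.1 he.1) (norm_nonneg _)
      (norm_nonneg _), mul_le_mul (norm_snd_le y) (mem_closedBall_iff_norm.1 he.2) (norm_nonneg _)
      (norm_nonneg _)]
  have h2 : ‖y‖ ≤ ‖pl ((bv 0, bv 1) : Dir n) y‖ := max_le
    (le_trans (by simp [pl, bv]) (norm_le_pi_norm _ ⟨0, by omega⟩))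
    (le_trans (by simp [pl, bv]) (norm_le_pi_norm _ ⟨1, by omega⟩))
  linarith [norm_le_norm_add_norm_sub (pl e y) (pl (bv 0, bv 1) y)]

lemma norm_plr_le (he : e ∈ Ebox n) (y : ℝ × ℝ) : ‖plr e y‖ ≤ 9 / 4 * ‖y‖ := by
  simpa [pl_c2] using norm_pl_le he (c2 y)

lemma le_norm_plr (hn : 2 ≤ n) (he : e ∈ Ebox n) (y : ℝ × ℝ) : 3 / 4 * ‖y‖ ≤ ‖plr e y‖ := by
  simpa [pl_c2] using le_norm_pl hn he (c2 y)

lemma contDiff_dot {E : Type} [NormedAddCommGroup E] [NormedSpace ℂ E] {f : E → Cn n}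
    {k : WithTop ℕ∞} (hf : ContDiff ℂ k f) (a : Cn n) : ContDiff ℂ k fun y => a ⬝ᵥ f y :=
  ContDiff.sum fun l _ => contDiff_const.mul (contDiff_pi.1 hf l)

lemma Adm.aa {g : Cn n → Cn n} (h : Adm g) (p : Rn n) (e : Dir n) (ξ : Rn n) (c : ℝ)
    (k : WithTop ℕ∞) : ContDiff ℂ k (aa g p e ξ c) :=
  (contDiff_dot ((h.contDiff k).comp (contDiff_const.add (plL e).contDiff)) _).sub contDiff_const

lemma Adm.pz {g : Cn n → Cn n} (h : Adm g) (p : Rn n) (ζ : Cn n) (ξ : Rn n)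
    (k : WithTop ℕ∞) : ContDiff ℂ k (pz g p ζ ξ) :=
  contDiff_dot ((h.contDiff k).comp (by fun_prop)) _

lemma Adm.pz_conj {g : Cn n → Cn n} (h : Adm g) (p : Rn n) (ζ : Cn n) (ξ : Rn n) (u : E2) :
    LinN2.pz g p ζ ξ (conj u.2, conj u.1) = conj (LinN2.pz g p ζ ξ u) := by
  have : cx p + conj u.2 • ζ + conj u.1 • star ζ = star (cx p + u.1 • ζ + u.2 • star ζ) := by
    ext l; simp; ring
  simp only [LinN2.pz, this, h.real]
  simp [dotProduct]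

lemma XV_nonneg (g : Cn n → Cn n) (S η : ℝ) (x ξ : Rn n) (c : ℝ) : 0 ≤ XV g S η x ξ c :=
  le_max_left _ _

lemma continuous_XV {g : Cn n → Cn n} (hg : Continuous g) (S : ℝ) {η : ℝ} (hη : 0 < η) :
    Continuous fun z : Rn n × Rn n × ℝ => XV g S η z.1 z.2.1 z.2.2 := by
  unfold XV dotProduct
  refine continuous_const.max (continuous_const.sub (Continuous.div_const (Continuous.log ?_
    fun z => by positivity) _))
  fun_prop

end Plane

section Energy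

variable {a : E2 → ℂ} {η : ℝ} {f h : E2 → ℝ}

lemma wt_nonneg (η : ℝ) (τ : ℂ) : 0 ≤ wt η τ := by unfold wt; positivity

lemma contDiff_wt (hη : 0 < η) (k : WithTop ℕ∞) : ContDiff ℝ k (wt η) :=
  contDiff_const.div (((contDiff_norm_sq ℝ).add contDiff_const).pow 2) fun _ => by positivity

lemma continuous_wt (hη : 0 < η) : Continuous (wt η) := (contDiff_wt hη 0).continuous

lemma contDiff_Wf (ha : ContDiff ℂ 2 a) : ContDiff ℂ 1 (Wf a) := by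
  have := ha.fderiv_right (m := 1) le_rfl
  unfold Wf
  fun_prop

lemma continuous_Wf (ha : ContDiff ℂ 2 a) : Continuous (Wf a) := (contDiff_Wf ha).continuous

lemma continuous_Tf (ha : ContDiff ℂ 2 a) : Continuous (Tf a) := by
  have := ha.continuous_fderiv two_ne_zero
  unfold Tf
  fun_prop

lemma fderiv_pair (a : E2 → ℂ) (y v : E2) :
    fderiv ℂ a y v = v.1 * fderiv ℂ a y (1, 0) + v.2 * fderiv ℂ a y (0, 1) := by
  rw [← smul_eq_mul, ← smul_eq_mul, ← map_smul, ← map_smul, ← map_add]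
  simp

lemma fderiv_Wf (a : E2 → ℂ) (y : E2) : fderiv ℂ a y (Wf a y) = 0 := by
  rw [fderiv_pair]; simp [Wf]; ring

lemma continuous_bf (ha : ContDiff ℂ 2 a) (hf : ContDiff ℝ 1 f) (hh : ContDiff ℝ 1 h) :
    Continuous (bf a f h) := by
  have := continuous_Wf ha
  have := hf.continuous_fderiv one_ne_zero
  have := hh.continuous_fderiv one_ne_zero
  unfold bf
  fun_prop

lemma continuous_wbf (ha : ContDiff ℂ 2 a) (hη : 0 < η) (hf : ContDiff ℝ 1 f)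
    (hh : ContDiff ℝ 1 h) : Continuous fun y => wt η (a y) * bf a f h y :=
  ((continuous_wt hη).comp ha.continuous).mul (continuous_bf ha hf hh)

lemma continuous_wW (ha : ContDiff ℂ 2 a) (hη : 0 < η) :
    Continuous fun y => wt η (a y) * ‖Wf a y‖ ^ 2 :=
  ((continuous_wt hη).comp ha.continuous).mul ((continuous_Wf ha).norm.pow 2)

lemma continuous_lapd {E X : Type} [NormedAddCommGroup E] [NormedSpace ℝ E] [NormedSpace ℂ E]
    [TopologicalSpace X] {φ : E → ℝ} (hφ : ContDiff ℝ 2 φ) {y v : X → E} (hy : Continuous y)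
    (hv : Continuous v) : Continuous fun x => lapd φ (y x) (v x) := by
  have := (hφ.fderiv_right (m := 1) le_rfl).continuous_fderiv one_ne_zero
  unfold lapd dd
  fun_prop

/-- continuous functions are integrable on bounded sets -/
lemma intOn {E : Type} [NormedAddCommGroup E] [NormedSpace ℝ E] [FiniteDimensional ℝ E]
    [MeasurableSpace E] [BorelSpace E] {μ : Measure E} [IsFiniteMeasureOnCompacts μ] {F : E → ℝ}
    (hF : Continuous F) {S : Set E} (hS : Bornology.IsBounded S) : IntegrableOn F S μ :=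
  (hF.continuousOn.integrableOn_compact hS.isCompact_closure).mono_set subset_closure

lemma bf_comm (a : E2 → ℂ) (f h : E2 → ℝ) (y : E2) : bf a f h y = bf a h f y := by
  unfold bf; ring
lemma bf_nonneg (a : E2 → ℂ) (f : E2 → ℝ) (y : E2) : 0 ≤ bf a f f y :=
  add_nonneg (mul_self_nonneg _) (mul_self_nonneg _)
lemma bf_sq_le (a : E2 → ℂ) (f h : E2 → ℝ) (y : E2) :
    bf a f h y ^ 2 ≤ bf a f f y * bf a h h y := by
  unfold bf
  nlinarith [sq_nonneg (fderiv ℝ f y (Wf a y) * fderiv ℝ h y (I • Wf a y) -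
    fderiv ℝ f y (I • Wf a y) * fderiv ℝ h y (Wf a y))]
lemma abs_bf_le (a : E2 → ℂ) (f h : E2 → ℝ) (y : E2) {t : ℝ} (ht : 0 < t) :
    |bf a f h y| ≤ (t * bf a f f y + bf a h h y / t) / 2 := by
  have h1 := bf_nonneg a f y
  have h2 := bf_nonneg a h y
  refine abs_le_of_sq_le_sq' ?_ (by positivity) |> abs_le.2
  have e : bf a f f y * bf a h h y = (t * bf a f f y) * (bf a h h y / t) := by field_simp
  nlinarith [bf_sq_le a f h y, sq_nonneg (t * bf a f f y - bf a h h y / t)]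
lemma bf_le (a : E2 → ℂ) (f : E2 → ℝ) (y : E2) :
    bf a f f y ≤ 2 * ‖fderiv ℝ f y‖ ^ 2 * ‖Wf a y‖ ^ 2 := by
  have key : ∀ v : E2, ‖v‖ = ‖Wf a y‖ →
      fderiv ℝ f y v * fderiv ℝ f y v ≤ ‖fderiv ℝ f y‖ ^ 2 * ‖Wf a y‖ ^ 2 := fun v hv => by
    rw [← mul_pow, ← sq, ← hv]
    exact sq_le_sq' (abs_le.1 ((fderiv ℝ f y).le_opNorm v)).1 (abs_le.1 ((fderiv ℝ f y).le_opNorm v)).2
  unfold bf
  linarith [key _ rfl, key (I • Wf a y) (by rw [norm_smul]; simp)]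
lemma bf_zero_left {y : E2} (hy : fderiv ℝ f y = 0) (h : E2 → ℝ) : bf a f h y = 0 := by
  simp [bf, hy]
lemma bf_zero_right {y : E2} (hy : fderiv ℝ h y = 0) (f : E2 → ℝ) : bf a f h y = 0 := by
  simp [bf, hy]

lemma En_nonneg (a : E2 → ℂ) (η : ℝ) (S : Set E2) (f : E2 → ℝ) : 0 ≤ En a η S f :=
  integral_nonneg fun y => mul_nonneg (wt_nonneg _ _) (bf_nonneg _ _ _)
lemma Ar_nonneg (a : E2 → ℂ) (η : ℝ) (S : Set E2) : 0 ≤ Ar a η S :=
  integral_nonneg fun y => mul_nonneg (wt_nonneg _ _) (sq_nonneg _)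
lemma AR_nonneg (a : E2 → ℂ) (η : ℝ) (y : E2) (R : ℝ) : 0 ≤ AR a η y R :=
  div_nonneg (Ar_nonneg _ _ _) (sq_nonneg _)
lemma En_mono (ha : ContDiff ℂ 2 a) (hη : 0 < η) (hf : ContDiff ℝ 1 f) {S S' : Set E2}
    (hS : S ⊆ S') (hb : Bornology.IsBounded S') : En a η S f ≤ En a η S' f :=
  setIntegral_mono_set (intOn (continuous_wbf ha hη hf hf) hb)
    (ae_of_all _ fun _ => mul_nonneg (wt_nonneg _ _) (bf_nonneg _ _ _)) hS.eventuallyLE
lemma Ar_mono (ha : ContDiff ℂ 2 a) (hη : 0 < η) {S S' : Set E2}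
    (hS : S ⊆ S') (hb : Bornology.IsBounded S') : Ar a η S ≤ Ar a η S' :=
  setIntegral_mono_set (intOn (continuous_wW ha hη) hb)
    (ae_of_all _ fun _ => mul_nonneg (wt_nonneg _ _) (sq_nonneg _)) hS.eventuallyLE
lemma En_diff (ha : ContDiff ℂ 2 a) (hη : 0 < η) (hf : ContDiff ℝ 1 f) {S S' : Set E2}
    (hS : S ⊆ S') (hm : MeasurableSet S) (hb : Bornology.IsBounded S') :
    En a η (S' \ S) f = En a η S' f - En a η S f :=
  setIntegral_sdiff hm (intOn (continuous_wbf ha hη hf hf) hb) hS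

lemma Cut.fderiv_one {ψ : E2 → ℝ} (h : Cut ψ) {y : E2} (hy : ψ y = 1) : fderiv ℝ ψ y = 0 :=
  IsLocalMax.fderiv_eq_zero (Eventually.of_forall fun z => hy ▸ h.le z)
lemma Cut.fderiv_zero {ψ : E2 → ℝ} (h : Cut ψ) {y : E2} (hy : ψ y = 0) : fderiv ℝ ψ y = 0 :=
  IsLocalMin.fderiv_eq_zero (Eventually.of_forall fun z => hy ▸ h.nn z)
lemma cut_one : Cut fun _ => 1 := ⟨contDiff_const, fun _ => zero_le_one, fun _ => le_rfl⟩

lemma compactSupport_of_zero {F : Type} [Zero F] {ψ : E2 → F} {y0 : E2} {R : ℝ}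
    (h : ∀ y, R ≤ ‖y - y0‖ → ψ y = 0) : HasCompactSupport ψ :=
  HasCompactSupport.intro (isCompact_closedBall y0 R) fun y hy =>
    h y (not_le.1 (mt mem_closedBall_iff_norm.2 hy)).le

section Bump

variable {E : Type} [NormedAddCommGroup E] [NormedSpace ℝ E]

lemma exists_fderiv_bound {F : Type} [NormedAddCommGroup F] [NormedSpace ℝ F] {f : E → F}
    (hf : ContDiff ℝ 1 f) (hc : HasCompactSupport f) :
    ∃ K : ℝ, (∀ y, ‖fderiv ℝ f y‖ ≤ K) ∧ ∀ y v, ‖fderiv ℝ f y v‖ ≤ K * ‖v‖ := by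
  obtain ⟨K, k⟩ := (hc.fderiv ℝ).exists_bound_of_continuous (hf.continuous_fderiv one_ne_zero)
  exact ⟨K, k, fun y v => (fderiv ℝ f y).le_of_opNorm_le (k y) v⟩

lemma exists_bump [FiniteDimensional ℝ E] : ∃ (b : E → ℝ) (K : ℝ), ContDiff ℝ 2 b ∧
    (∀ y, 0 ≤ b y) ∧ (∀ y, b y ≤ 1) ∧
    (∀ y, ‖y‖ ≤ 3 / 2 → b y = 1) ∧ (∀ y, 2 ≤ ‖y‖ → b y = 0) ∧ (∀ y, ‖fderiv ℝ b y‖ ≤ K) ∧
    ∀ y v, |dd b y v| ≤ K * ‖v‖ ^ 2 := by
  let b : ContDiffBump (0 : E) := ⟨3 / 2, 2, by norm_num, by norm_num⟩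
  have hb : ContDiff ℝ 2 (b : E → ℝ) := b.contDiff
  have hc : HasCompactSupport (b : E → ℝ) := b.hasCompactSupport
  have hb1 : ContDiff ℝ 1 (fderiv ℝ b) := hb.fderiv_right (m := 1) le_rfl
  obtain ⟨K1, k1, -⟩ := exists_fderiv_bound (hb.of_le one_le_two) hc
  obtain ⟨K2, -, k2⟩ := exists_fderiv_bound hb1 (hc.fderiv ℝ)
  refine ⟨b, max K1 K2, hb, fun _ => b.nonneg, fun _ => b.le_one, fun y hy =>
    b.one_of_mem_closedBall (mem_closedBall_zero_iff.2 hy),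
    fun y hy => b.zero_of_le_dist (by rwa [dist_zero_right]),
    fun y => (k1 y).trans (le_max_left _ _), fun y v => ?_⟩
  refine ((fderiv ℝ (fderiv ℝ b) y v).le_of_opNorm_le (k2 y v) v).trans ?_
  rw [mul_assoc, ← sq]
  gcongr
  exact le_max_right _ _

lemma fderiv_scale {F : Type} [NormedAddCommGroup F] [NormedSpace ℝ F] {b : E → F}
    (hb : Differentiable ℝ b) (y0 : E) (t : ℝ) (y : E) :
    fderiv ℝ (fun y => b (t • (y - y0))) y = t • fderiv ℝ b (t • (y - y0)) := by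
  have hl : HasFDerivAt (fun y : E => t • (y - y0)) (t • ContinuousLinearMap.id ℝ E) y :=
    ((hasFDerivAt_id y).sub_const y0).const_smul t
  have h : HasFDerivAt (fun y => b (t • (y - y0)))
      ((fderiv ℝ b (t • (y - y0))).comp (t • ContinuousLinearMap.id ℝ E)) y :=
    (hb _).hasFDerivAt.comp y hl
  rw [h.fderiv, ContinuousLinearMap.comp_smul, ContinuousLinearMap.comp_id]

/-- round cutoffs in a finite dimensional space -/
lemma exists_cut' [FiniteDimensional ℝ E] : ∃ K : ℝ, 1 ≤ K ∧ ∀ (y0 : E) (R : ℝ), 0 < R →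
    ∃ ψ : E → ℝ, ContDiff ℝ 2 ψ ∧ (∀ y, 0 ≤ ψ y) ∧ (∀ y, ψ y ≤ 1) ∧
    (∀ y, ‖y - y0‖ ≤ 3 / 2 * R → ψ y = 1) ∧ (∀ y, 2 * R ≤ ‖y - y0‖ → ψ y = 0) ∧
    (∀ y, ‖fderiv ℝ ψ y‖ ≤ K / R) ∧ ∀ y v, |dd ψ y v| ≤ K / R ^ 2 * ‖v‖ ^ 2 := by
  obtain ⟨b, K, hb, h0, h1, h2, h3, k1, k2⟩ := exists_bump (E := E)
  have hb1 : ContDiff ℝ 1 (fderiv ℝ b) := hb.fderiv_right (m := 1) le_rfl
  refine ⟨max 1 K, le_max_left _ _, fun y0 R hR => ?_⟩
  have hs : ContDiff ℝ 2 fun y => b (R⁻¹ • (y - y0)) := hb.comp (by fun_prop)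
  have hn : ∀ y : E, ‖R⁻¹ • (y - y0)‖ = ‖y - y0‖ / R := fun y => by
    rw [norm_smul, norm_inv, Real.norm_of_nonneg hR.le, div_eq_inv_mul]
  have e1 : (fderiv ℝ fun y => b (R⁻¹ • (y - y0))) =
      fun y => (R⁻¹ • fderiv ℝ b) (R⁻¹ • (y - y0)) := funext fun y =>
    fderiv_scale (hb.differentiable two_ne_zero) y0 _ y
  have hd : Differentiable ℝ (R⁻¹ • fderiv ℝ b) := (hb1.differentiable one_ne_zero).const_smul _
  refine ⟨fun y => b (R⁻¹ • (y - y0)), hs, fun _ => h0 _, fun _ => h1 _,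
    fun y hy => h2 _ ?_, fun y hy => h3 _ ?_, fun y => ?_, fun y v => ?_⟩
  · rwa [hn, div_le_iff₀ hR]
  · rwa [hn, le_div_iff₀ hR]
  · rw [e1, div_eq_inv_mul]
    simp only [Pi.smul_apply]
    rw [norm_smul, norm_inv, Real.norm_of_nonneg hR.le]
    gcongr
    exact (k1 _).trans (le_max_right _ _)
  · have h : dd (fun y => b (R⁻¹ • (y - y0))) y v = R⁻¹ ^ 2 * dd b (R⁻¹ • (y - y0)) v := by
      unfold dd
      rw [e1, fderiv_scale hd, fderiv_const_smul (hb1.differentiable one_ne_zero _), smul_smul, sq]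
      rfl
    rw [h, abs_mul, abs_of_nonneg (by positivity), inv_pow, div_eq_inv_mul, mul_assoc]
    gcongr
    refine (k2 _ _).trans ?_
    gcongr
    exact le_max_right _ _

end Bump

/-- round cutoffs -/
lemma exists_cut : ∃ K : ℝ, 1 ≤ K ∧ ∀ (y0 : E2) (R : ℝ), 0 < R → ∃ ψ, Cut ψ ∧ ContDiff ℝ 2 ψ ∧
    (∀ y, ‖y - y0‖ ≤ 3 / 2 * R → ψ y = 1) ∧ (∀ y, 2 * R ≤ ‖y - y0‖ → ψ y = 0) ∧
    (∀ y, ‖fderiv ℝ ψ y‖ ≤ K / R) ∧ ∀ y v, |dd ψ y v| ≤ K / R ^ 2 * ‖v‖ ^ 2 := by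
  obtain ⟨K, hK, h⟩ := exists_cut' (E := E2)
  refine ⟨K, hK, fun y0 R hR => ?_⟩
  obtain ⟨ψ, h1, h2, h3, h4⟩ := h y0 R hR
  exact ⟨ψ, ⟨h1.of_le one_le_two, h2, h3⟩, h1, h4⟩

lemma Shell.mono {ηN ri ro K K' s : ℝ} {y0 : E2} (h : Shell a η ηN y0 ri ro K s) (hs : 0 ≤ s)
    (hK : K ≤ K') : Shell a η ηN y0 ri ro K' s := by
  obtain ⟨ψ, h1, h2, h3, h4⟩ := h
  exact ⟨ψ, h1, h2, h3, fun χ a1 a2 => (h4 χ a1 a2).trans
    (mul_le_mul_of_nonneg_right hK (add_nonneg hs (En_nonneg _ _ _ _)))⟩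

lemma Flux.mono {ηN ρ F F' : ℝ} {y0 : E2} (h : Flux a η ηN y0 ρ F) (hF : F ≤ F') :
    Flux a η ηN y0 ρ F' := by
  obtain ⟨ψ, h1, h2, h3, h4⟩ := h
  exact ⟨ψ, h1, h2, h3, fun E0 => (h4 E0).imp fun M hM τ χ a1 a2 a3 =>
    (hM τ χ a1 a2 a3).trans (by linarith)⟩

end Energy

section Wave

variable {A : E2 → ℂ} {S0 μ X B : ℝ}

lemma Wav.sym_sm (h : Wav A S0 μ X B) : ContDiff ℂ 2 (sym A) :=
  h.sm.add (h.sm'.comp (contDiff_snd.prodMk contDiff_fst))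

lemma Wav.sub_sm (h : Wav A S0 μ X B) (c : ℂ) : ContDiff ℂ 2 fun u => sym A u - c :=
  h.sym_sm.sub contDiff_const

lemma Wav.mono (h : Wav A S0 μ X B) {X' B' : ℝ} (hS : 0 ≤ S0) (hμ : 0 ≤ μ) (hX : X ≤ X')
    (hB : B' ≤ B) : Wav A S0 μ X' B' :=
  ⟨h.sm, h.sm', fun u hu => (h.bd u (hu.trans (by gcongr))).trans (by gcongr)⟩

/-- the conjugate wave -/
lemma Wav.conj (h : Wav A S0 μ X B) : Wav (fun u : E2 => conj (A (conj u.1, conj u.2))) S0 μ X B :=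
  ⟨h.sm', by simpa using h.sm, fun u hu => by
    simpa using h.bd (conj u.1, conj u.2) (by simpa [Prod.norm_def] using hu)⟩

lemma sym_swap (A : E2 → ℂ) (u : E2) :
    sym A u.swap = sym (fun u : E2 => conj (A (conj u.1, conj u.2))) u := by
  simp [sym, add_comm, Prod.swap]

lemma sym_real (A : E2 → ℂ) (z : ℂ) : sym A (z, conj z) = (2 * (A (z, conj z)).re : ℝ) := by
  simp [sym, add_conj]

lemma sym_conj (A : E2 → ℂ) (u : E2) : sym A (conj u.2, conj u.1) = conj (sym A u) := by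
  simp [sym, add_comm]

lemma Wav.norm_sym (h : Wav A S0 μ X B) (hS : 0 ≤ S0) (hμ : 0 ≤ μ) {u : E2}
    (hu : ‖u‖ ≤ Real.exp B) :
    ‖sym A u‖ ≤ 2 * (S0 * Real.exp X * (max ‖u‖ (Real.exp (-B))) ^ μ) := by
  have h1 := h.bd u hu
  have h2 : ‖conj (A (conj u.2, conj u.1))‖ ≤
      S0 * Real.exp X * (max ‖u.2‖ (Real.exp (-B))) ^ μ :=
    h.conj.bd u.swap (by rwa [Prod.norm_def, max_comm])
  have h3 : S0 * Real.exp X * (max ‖u.1‖ (Real.exp (-B))) ^ μ ≤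
      S0 * Real.exp X * (max ‖u‖ (Real.exp (-B))) ^ μ := by gcongr; exact norm_fst_le u
  have h4 : S0 * Real.exp X * (max ‖u.2‖ (Real.exp (-B))) ^ μ ≤
      S0 * Real.exp X * (max ‖u‖ (Real.exp (-B))) ^ μ := by gcongr; exact norm_snd_le u
  exact (norm_add_le _ _).trans (by linarith [h1.trans h3, h2.trans h4])

end Wave

end

end Pool.Agent.LinN2
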