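import Pool.Agent.Lib.MP_8465a2_an.N2.BasicB

/-!
The bootstrap for the packing theorem (MP_8465a2_an).
-/

namespace Pool.Agent.LinN2

open MeasureTheory Metric Set Filter Topology

variable {n : ℕ}

lemma Boot.sum_le {KS : Finset ℕ} {k0 : ℕ} (h0 : 1 ≤ k0) (h : ∀ k ∈ KS, k0 < k) :
    ∑ k ∈ KS, ((k : ℝ) ^ 2)⁻¹ ≤ (k0 : ℝ)⁻¹ := by
  have h1 : KS ⊆ Finset.Ioc k0 (KS.sup id + k0) := fun k hk =>
    Finset.mem_Ioc.2 ⟨h k hk, (Finset.le_sup (f := id) hk).trans (Nat.le_add_right _ _)⟩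
  refine (Finset.sum_le_sum_of_subset_of_nonneg h1 fun _ _ _ => by positivity).trans ?_
  refine (sum_Ioc_inv_sq_le_sub (by omega) (Nat.le_add_left _ _)).trans ?_
  exact sub_le_self _ (by positivity)

theorem boot (hn : 3 ≤ n) (h1 : DecStmt n) (h2 : ExpStmt n) (h3 : RescStmt n) : BootStmt n := by
  intro A C0 C1 p b0 hA hS hY
  obtain ⟨C, hC, h1⟩ := h1 A C0 C1 p b0 hA hS hY
  obtain ⟨B0, r0, κ0, hB, hr0, hr1, h2⟩ := h2 C0 hS.1
  obtain ⟨K, hK, h2⟩ := h2 C hC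
  obtain ⟨L, hL, h3⟩ := h3.2
  obtain ⟨k0, a1, a2, a3⟩ := ((h1 B0 κ0 hB).and
    ((tendsto_natCast_atTop_atTop.eventually_ge_atTop (2 * K * L)).and
    (tendsto_natCast_atTop_atTop.eventually_ge_atTop (2 / r0)))).exists
  have hk : (2 : ℝ) ≤ k0 := by nlinarith
  have key : ∀ m : ℕ, PB n C0 B0 (r0 / 2 ^ m) r0 (2 * K * 2 ^ k0) := by
    intro m
    induction m with
    | zero => exact fun g N _ r b1 b2 => absurd b2 (by simpa using b1)
    | succ m ih =>
      intro g N hg r b1 b2 F μ hF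
      have hr : 0 < r := lt_trans (by positivity) b1
      obtain ⟨KS, FY, ρY, IS, ρ, FQ, μq, hD⟩ := a1 g N r hg hr (b2.trans hr1)
      refine (h2 g N r k0 KS FY ρY IS ρ FQ μq F μ hg hr b2 hD hF).trans ?_
      have c1 : ∑ k ∈ KS, ∑ i ∈ IS k, (∑ q ∈ FQ k i, ρ i ^ (n - 2) * μq i q ^ 2) /
          (2 ^ k * (k : ℝ) ^ 2) ≤ L * (2 * K * 2 ^ k0) * N ^ 2 * (k0 : ℝ)⁻¹ := by
        refine le_trans ?_ (mul_le_mul_of_nonneg_left (Boot.sum_le (KS := KS)
          (by exact_mod_cast one_le_two.trans hk) fun k hk => (hD.hK k hk).1) (by positivity))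
        rw [Finset.mul_sum]
        refine Finset.sum_le_sum fun k hk => ?_
        obtain ⟨d1, -, -, d2⟩ := hD.hK k hk
        have d3 : (k0 : ℝ) ≤ k := by exact_mod_cast d1.le
        refine (Finset.sum_le_card_nsmul _ _ (L * (2 * K * 2 ^ k0) * N ^ 2 / (2 ^ k * (k : ℝ) ^ 2))
          fun i hi => ?_).trans ?_
        · obtain ⟨e1, e2, e3, -⟩ := hD.hQ k hk i hi
          refine div_le_div_of_nonneg_right (h3 C0 B0 _ r0 _ (by positivity) ih g N hg (ρ i)
            (hr.trans_le e1) ?_ ?_ _ _ e3) (by positivity)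
          · rw [pow_succ, ← div_div] at b1
            linarith
          · rw [div_le_iff₀ hr0] at a3
            rw [le_div_iff₀ (by positivity)] at e2
            nlinarith [hr.trans_le e1]
        · have d4 : ((IS k).card : ℝ) ≤ 2 ^ k := by exact_mod_cast d2
          rw [nsmul_eq_mul]
          refine (mul_le_mul_of_nonneg_right d4 (by positivity)).trans (le_of_eq ?_)
          field_simp
      have c2 : L * (2 * K * 2 ^ k0) * N ^ 2 * (k0 : ℝ)⁻¹ ≤ 2 ^ k0 * N ^ 2 := by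
        rw [← div_eq_mul_inv, div_le_iff₀ (by positivity)]
        nlinarith [mul_le_mul_of_nonneg_left a2 (show (0 : ℝ) ≤ 2 ^ k0 * N ^ 2 by positivity)]
      nlinarith [c1.trans c2]
  refine ⟨B0, r0, 2 * K * 2 ^ k0, hB, hr0, by positivity, fun g N hg r b1 b2 => ?_⟩
  obtain ⟨m, hm⟩ := pow_unbounded_of_one_lt (r0 / r) (one_lt_two (α := ℝ))
  refine key m g N hg r ?_ b2
  rwa [div_lt_comm₀ (by positivity) b1]

end Pool.Agent.LinN2
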