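import Pool.Agent.Lib.MP_8465a2_an.N2.BasicB

/-!
Cauchy-Kowalevski bound for complexified gradients of harmonic polynomials (MP_8465a2_an).
-/

namespace Pool.Agent.LinN2

open MeasureTheory Metric Set Filter Topology Complex
open scoped ENNReal ComplexConjugate ContDiff

noncomputable section

namespace CK

section General

variable {E F ι : Type} [NormedAddCommGroup E] [NormedSpace ℂ E] [NormedAddCommGroup F]
  [NormedSpace ℂ F]

/-- directional derivative -/
def Dv (v : E) (G : E → F) : E → F := fun y => fderiv ℂ G y v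

lemma Dv_smooth {G : E → F} (h : ContDiff ℂ ω G) (v : E) : ContDiff ℂ ω (Dv v G) :=
  (h.fderiv_right le_rfl).clm_apply contDiff_const

lemma diff {G : E → F} (h : ContDiff ℂ ω G) : Differentiable ℂ G := h.differentiable (by simp)

lemma Dv_comm {G : E → F} (h : ContDiff ℂ ω G) (v w y : E) :
    Dv v (Dv w G) y = Dv w (Dv v G) y := by
  have d : DifferentiableAt ℂ (fderiv ℂ G) y := diff (h.fderiv_right le_rfl) y
  have e : ∀ a b, Dv a (Dv b G) y = fderiv ℂ (fderiv ℂ G) y a b := fun a b => by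
    change fderiv ℂ (fun z => fderiv ℂ G z b) y a = _
    rw [fderiv_clm_apply d (differentiableAt_const _)]
    simp
  rw [e, e]
  exact h.contDiffAt.isSymmSndFDerivAt_of_omega v w

lemma hasDerivAt_line {G : E → F} (h : Differentiable ℂ G) (p v : E) (s : ℂ) :
    HasDerivAt (fun z : ℂ => G (p + z • v)) (Dv v G (p + s • v)) s := by
  have := (h (p + s • v)).hasFDerivAt.comp_hasDerivAt s
    (((hasDerivAt_id s).smul_const v).const_add p)
  simpa [Dv, Function.comp_def] using this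

lemma cauchy {G : E → F} (h : Differentiable ℂ G) (p v : E) {δ C : ℝ} (hδ : 0 < δ)
    (hC : ∀ z : ℂ, ‖z‖ = δ → ‖G (p + z • v)‖ ≤ C) : ‖Dv v G p‖ ≤ C / δ := by
  have := Complex.norm_deriv_le_of_forall_mem_sphere_norm_le (c := 0)
    (f := fun z : ℂ => G (p + z • v)) hδ
    (Differentiable.diffContOnCl fun z => (hasDerivAt_line h p v z).differentiableAt)
    fun z hz => hC z (by simpa using hz)
  rwa [(hasDerivAt_line h p v 0).deriv, zero_smul, add_zero] at this

lemma iter_smooth {G : E → F} (h : ContDiff ℂ ω G) (v : E) (m : ℕ) :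
    ContDiff ℂ ω ((Dv v)^[m] G) := by
  induction m with
  | zero => exact h
  | succ m ih => rw [Function.iterate_succ_apply']; exact Dv_smooth ih v

lemma iteratedDeriv_line {G : E → F} (h : ContDiff ℂ ω G) (p v : E) (m : ℕ) :
    iteratedDeriv m (fun z : ℂ => G (p + z • v)) = fun z => (Dv v)^[m] G (p + z • v) := by
  induction m with
  | zero => simp
  | succ m ih =>
    rw [iteratedDeriv_succ, ih, Function.iterate_succ_apply']
    exact funext fun z => (hasDerivAt_line (diff (iter_smooth h v m)) p v z).deriv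

variable [Fintype ι]

/-- the normal derivative is expressed through tangential derivatives -/
def Sys (N : E) (T : ι → E) (B : ι → F →L[ℂ] F) (G : E → F) : Prop :=
  ContDiff ℂ ω G ∧ ∀ y, Dv N G y = ∑ l, B l (Dv (T l) G y)

variable {N : E} {T : ι → E} {B : ι → F →L[ℂ] F} {G : E → F}

lemma Sys.step (h : Sys N T B G) : Sys N T B (Dv N G) := by
  refine ⟨Dv_smooth h.1 N, fun y => ?_⟩
  have e : HasFDerivAt (fun z => ∑ l, B l (Dv (T l) G z))
      (∑ l, (B l).comp (fderiv ℂ (Dv (T l) G) y)) y :=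
    HasFDerivAt.fun_sum fun l _ =>
      (B l).hasFDerivAt.comp y (diff (Dv_smooth h.1 (T l)) y).hasFDerivAt
  rw [← funext h.2] at e
  simp only [Dv_comm h.1 (T _) N]
  rw [Dv, e.fderiv]
  simp [Dv]

lemma Sys.nagumo {H : Submodule ℂ E} {c δ ρ : ℝ} {x : E} (hT : ∀ l, T l ∈ H ∧ ‖T l‖ ≤ 2)
    (hB : ∑ l, ‖B l‖ ≤ c) (hδ : 0 < δ) (j : ℕ) : ∀ {G : E → F} {C : ℝ}, Sys N T B G → 0 ≤ C →
    (∀ t ∈ H, ‖t‖ ≤ ρ + j * (2 * δ) → ‖G (x + t)‖ ≤ C) →
    ∀ t ∈ H, ‖t‖ ≤ ρ → ‖(Dv N)^[j] G (x + t)‖ ≤ (c / δ) ^ j * C := by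
  have hc : 0 ≤ c := (Finset.sum_nonneg fun l _ => norm_nonneg _).trans hB
  induction j with
  | zero => intro G C _ _ h t ht h1; simpa using h t ht (by simpa using h1)
  | succ j ih =>
    intro G C hG hC h t ht h1
    rw [Function.iterate_succ_apply, pow_succ, mul_assoc]
    refine ih hG.step (by positivity) (fun t ht h1 => ?_) t ht h1
    rw [hG.2]
    have a : ∀ l, ‖Dv (T l) G (x + t)‖ ≤ C / δ := fun l => cauchy (diff hG.1) _ _ hδ fun z hz => by
      rw [add_assoc]
      refine h _ (H.add_mem ht (H.smul_mem _ (hT l).1)) ((norm_add_le _ _).trans ?_)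
      rw [norm_smul, hz]
      have := mul_le_mul_of_nonneg_left (hT l).2 hδ.le
      push_cast
      linarith
    calc _ ≤ ∑ l, ‖B l‖ * (C / δ) :=
          norm_sum_le_of_le _ fun l _ => ((B l).le_opNorm _).trans (by gcongr; exact a l)
      _ ≤ c * (C / δ) := by rw [← Finset.sum_mul]; gcongr
      _ = _ := by ring

lemma Sys.bound [CompleteSpace F] (hG : Sys N T B G) {H : Submodule ℂ E} {c ρ r M : ℝ} {x : E}
    (hT : ∀ l, T l ∈ H ∧ ‖T l‖ ≤ 2) (hB : ∑ l, ‖B l‖ ≤ c) (hc : 0 < c) (hr : 0 < r) (hM : 0 ≤ M)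
    (h : ∀ t ∈ H, ‖t‖ ≤ ρ + 12 * c * r → ‖G (x + t)‖ ≤ M) {t : E} (ht : t ∈ H) (h1 : ‖t‖ ≤ ρ)
    {s : ℂ} (hs : ‖s‖ ≤ r) : ‖G (x + t + s • N)‖ ≤ 2 * M := by
  have a := Complex.hasSum_taylorSeries_of_entire (f := fun z : ℂ => G (x + t + z • N))
    (fun z => (hasDerivAt_line (diff hG.1) _ N z).differentiableAt) 0 s
  rw [mul_comm]
  refine a.norm_le_of_bounded (hasSum_geometric_two.mul_left M) fun m => ?_
  rw [iteratedDeriv_line hG.1]
  simp only [sub_zero, zero_smul, add_zero, norm_smul, norm_inv, Complex.norm_natCast, norm_pow]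
  rcases m.eq_zero_or_pos with rfl | hm
  · simpa using h t ht (h1.trans (le_add_of_nonneg_right (by positivity)))
  have hm' : (0 : ℝ) < m := by exact_mod_cast hm
  have b := Sys.nagumo (δ := 6 * c * r / m) (ρ := ρ) (x := x) hT hB (by positivity) m hG hM
    (fun t ht h2 => h t ht (h2.trans (le_of_eq (by field_simp; ring)))) t ht h1
  have b2 : (m : ℝ) ^ m / m.factorial ≤ 3 ^ m := by
    refine (Real.pow_div_factorial_le_exp _ hm'.le m).trans ?_
    rw [← Real.exp_one_pow]
    exact pow_le_pow_left₀ (Real.exp_pos _).le Real.exp_one_lt_three.le m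
  calc _ ≤ (m.factorial : ℝ)⁻¹ * (r ^ m * ((c / (6 * c * r / m)) ^ m * M)) := by gcongr
    _ = M * ((m : ℝ) ^ m / m.factorial * (1 / 6) ^ m) := by
      rw [show c / (6 * c * r / m) = m * (1 / 6) / r by field_simp, div_pow, mul_pow]
      field_simp
    _ ≤ M * (3 ^ m * (1 / 6) ^ m) := by gcongr
    _ = _ := by rw [← mul_pow]; norm_num

end General

variable {n : ℕ}

/-- tangential directions -/
def Tl (N : Cn n) (l : Fin n) : Cn n := Pi.single l 1 - N l • N

/-- coefficients of the system -/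
def Bl (N : Cn n) (l : Fin n) : Cn n →L[ℂ] Cn n :=
  (∑ k, N k • ContinuousLinearMap.proj k : Cn n →L[ℂ] ℂ).smulRight (Pi.single l 1) -
    (ContinuousLinearMap.proj l : Cn n →L[ℂ] ℂ).smulRight N

lemma Bl_apply (N : Cn n) (l : Fin n) (v : Cn n) :
    Bl N l v = (N ⬝ᵥ v) • Pi.single l 1 - v l • N := by
  simp [Bl, dotProduct]

lemma sys {g : Cn n → Cn n} (h : Adm g) (N : Cn n) : Sys N (Tl N) (Bl N) g := by
  refine ⟨h.contDiff _, fun y => funext fun k => ?_⟩
  have a1 := h.curl y (Pi.single k 1) N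
  have a2 := h.dvg y
  rw [dotProduct_comm, dotProduct_single_one] at a1
  have a3 : ∑ l, Dv (Tl N l) g y l = -(N ⬝ᵥ Dv N g y) := by
    simp only [Dv, Tl, map_sub, map_smul, Pi.sub_apply, Pi.smul_apply, smul_eq_mul,
      Finset.sum_sub_distrib, a2, dotProduct, zero_sub]
  have a4 : N ⬝ᵥ Dv (Tl N k) g y = Dv N g y k - N k * (N ⬝ᵥ Dv N g y) := by
    simp only [Dv, Tl, map_sub, map_smul, dotProduct_sub, dotProduct_smul, a1, smul_eq_mul]
  simp only [Bl_apply, Finset.sum_apply, Pi.sub_apply, Pi.smul_apply, smul_eq_mul,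
    Finset.sum_sub_distrib, Pi.single_apply, mul_ite, mul_one, mul_zero, Finset.sum_ite_eq,
    Finset.mem_univ, if_true]
  rw [← Finset.sum_mul, a3, a4]
  ring

end CK

open CK in
theorem ck {n : ℕ} (hn : 3 ≤ n) : CKStmt n := by
  have hn' : (3 : ℝ) ≤ n := by exact_mod_cast hn
  refine ⟨1 + n + 12 * (n * (n + 1)) * n,
    by rw [add_assoc]; exact le_add_of_nonneg_right (by positivity),
    fun g x ν R M hg hν hR h y hy => ?_⟩
  have h0 : cx ν ⬝ᵥ cx ν = 1 := by rw [cx_dot, hν, ofReal_one]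
  have h1 : ‖cx ν‖ ≤ 1 := by
    rw [norm_cx]
    refine (pi_norm_le_iff_of_nonneg zero_le_one).2 fun l => ?_
    rw [Real.norm_eq_abs, abs_le_one_iff_mul_self_le_one, ← hν]
    exact Finset.single_le_sum (f := fun k => ν k * ν k) (fun k _ => mul_self_nonneg _)
      (Finset.mem_univ l)
  set N := cx ν
  have h2 : ∀ l, ‖N l‖ ≤ 1 := fun l => (norm_le_pi_norm N l).trans h1
  have h3 : ‖N ⬝ᵥ (y - x)‖ ≤ n * R := (norm_dot_le _ _).trans (by grw [h1, hy, mul_one])
  have hM : 0 ≤ M := (norm_nonneg _).trans (h 0 (by simp) (by rw [norm_zero]; positivity))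
  have := (sys hg N).bound (H := LinearMap.ker (dotProductBilin ℂ ℂ N)) (c := n * (n + 1))
    (ρ := (1 + n) * R) (r := n * R) (M := M) (x := x) (fun l => ⟨by simp [Tl, h0], ?_⟩) ?_
    (by positivity) (by positivity) hM (fun t ht h4 => h t ht (h4.trans (le_of_eq (by ring))))
    (t := y - x - (N ⬝ᵥ (y - x)) • N) (by simp [h0]) ?_ h3
  · rwa [add_assoc, sub_add_cancel, add_sub_cancel] at this
  · refine (norm_sub_le _ _).trans ?_
    rw [norm_smul, Pi.norm_single, norm_one]
    grw [h1, h2 l]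
    norm_num
  · refine (Finset.sum_le_card_nsmul _ _ ((n : ℝ) + 1) fun l _ => ?_).trans (by simp [mul_add])
    refine ContinuousLinearMap.opNorm_le_bound _ (by positivity) fun v => ?_
    rw [Bl_apply]
    refine (norm_sub_le _ _).trans ?_
    rw [norm_smul, norm_smul, Pi.norm_single, norm_one]
    grw [norm_dot_le, h1, norm_le_pi_norm v l]
    exact le_of_eq (by ring)
  · refine (norm_sub_le _ _).trans ?_
    rw [norm_smul]
    grw [h3, h1, hy]
    exact le_of_eq (by ring)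

end

end Pool.Agent.LinN2
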