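import Pool.Agent.Lib.MP_8465a2_an.N2.BasicB
import Pool.Agent.Lib.MP_8465a2_an.Cartan

/-!
Cartan estimate along rays and moments from exponential tails (MP_8465a2_an).
-/

namespace Pool.Agent.LinN2

open MeasureTheory Metric Set Filter Topology
open scoped ENNReal

noncomputable section

namespace Car

lemma line : ∃ K : ℝ, 1 ≤ K ∧ ∀ (F : ℂ → ℂ) (A L s : ℝ), Differentiable ℂ F → 0 < A → 1 ≤ L →
    (∀ w, ‖w‖ ≤ 8 → ‖F w‖ ≤ A) → A * Real.exp (-L) ≤ ‖F 0‖ →
    volume {t ∈ Icc (0 : ℝ) 1 | ‖F t‖ ≤ A * Real.exp (-s)} ≤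
      ENNReal.ofReal (K * Real.exp (-s / (4 * L))) := by
  obtain ⟨K, hK, h⟩ := LinCrit.cartan_meas
  refine ⟨K * Real.exp 2, by nlinarith [Real.add_one_le_exp 2], fun F A L s hF hA hL hb h0 => ?_⟩
  have e1 : K * Real.exp 2 * Real.exp (-s / (4 * L)) = K * Real.exp (2 - s / (4 * L)) := by
    rw [mul_assoc, ← Real.exp_add, neg_div, sub_eq_add_neg]
  rw [e1]
  by_cases hs : s ≤ 8 * L
  · refine (measure_mono fun t ht => ht.1).trans ?_
    rw [Real.volume_Icc, sub_zero]
    refine ENNReal.ofReal_le_ofReal (one_le_mul_of_one_le_of_one_le hK (Real.one_le_exp ?_))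
    rw [sub_nonneg, div_le_iff₀ (by linarith)]
    linarith
  push Not at hs
  have hn : ∀ w, ‖F w / A‖ = ‖F w‖ / A := fun w => by
    rw [norm_div, Complex.norm_real, Real.norm_of_nonneg hA.le]
  obtain ⟨M, z, hM, hz, hF⟩ := LinCrit.factor (F := fun w => F w / A)
    (hF.div_const _).differentiableOn (fun w hw => by
      rw [hn, div_le_iff₀ hA]; linarith [hb w hw.le]) hL (by rw [hn, le_div_iff₀' hA]; exact h0)
  have h1 : ∀ t ∈ Icc (0 : ℝ) 1, ‖F t‖ ≤ A * Real.exp (-s) →
      ∏ j, |t - (z j).re| ≤ Real.exp (7 * L - s) := fun t ht h2 => by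
    have ht' : ‖(t : ℂ)‖ ≤ 1 := by rw [Complex.norm_real, Real.norm_of_nonneg ht.1]; exact ht.2
    have h4 := hF t ht'
    rw [hn, ← le_div_iff₀' (by positivity)] at h4
    refine le_trans (Finset.prod_le_prod (fun _ _ => abs_nonneg _) fun j _ => ?_) (h4.trans ?_)
    · simpa using Complex.abs_re_le_norm (t - z j)
    · rw [div_le_iff₀ (by positivity), ← Real.exp_add, div_le_iff₀' hA]
      exact h2.trans (le_of_eq (by congr 2; ring))
  rcases Nat.eq_zero_or_pos M with rfl | hM0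
  · rw [Set.eq_empty_of_forall_notMem (s := {t | _}) fun t ht => by
      have := h1 t ht.1 ht.2
      rw [Fintype.prod_empty, Real.one_le_exp_iff] at this
      linarith]
    simp
  have hM' : (0 : ℝ) < M := by exact_mod_cast hM0
  refine (measure_mono fun t ht => ?_).trans ((h M (fun j => (z j).re) ((s - 7 * L) / (2 * M)) hM0
    fun j => (Complex.abs_re_le_norm _).trans (hz j)).trans (ENNReal.ofReal_le_ofReal ?_))
  · refine ⟨ht.1, (h1 t ht.1 ht.2).trans (le_of_eq ?_)⟩
    congr 1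
    field_simp
    ring
  · gcongr
    have : (s - 7 * L) / (4 * L) ≤ (s - 7 * L) / (2 * M) := by
      exact div_le_div_of_nonneg_left (by linarith) (by linarith) (by linarith)
    have e : (s - 7 * L) / (4 * L) = s / (4 * L) - 7 / 4 := by field_simp
    linarith

lemma scale {E : Type} [NormedAddCommGroup E] [NormedSpace ℝ E] [FiniteDimensional ℝ E]
    [MeasurableSpace E] [BorelSpace E] (μ : Measure E) [μ.IsAddHaarMeasure] {F : E → ℝ≥0∞}
    (hF : Measurable F) {t : ℝ} (ht : 0 < t) :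
    ∫⁻ y, F y ∂μ = ENNReal.ofReal (t ^ Module.finrank ℝ E) * ∫⁻ h, F (t • h) ∂μ := by
  have h1 := lintegral_map (μ := μ) (f := F) (g := fun h : E => t • h) hF (by fun_prop)
  rw [Measure.map_addHaar_smul _ ht.ne', lintegral_smul_measure] at h1
  rw [← h1, smul_eq_mul, ← mul_assoc, ← ENNReal.ofReal_mul (by positivity)]
  simp [abs_of_pos, ht, ht.ne']

lemma moment {Ω : Type} [MeasurableSpace Ω] {μ : Measure Ω} {f : Ω → ℝ} {K D p : ℝ}
    (hf : Measurable f) (hK : 0 ≤ K) (hD : 0 < D) (hp : 0 < p)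
    (h : ∀ s, 0 < s → μ {x | s ≤ f x} ≤ ENNReal.ofReal (K * Real.exp (-s / D))) :
    ∫⁻ x, ENNReal.ofReal (max (f x) 0 ^ p) ∂μ ≤ ENNReal.ofReal (p * (K * (D ^ p * Real.Gamma p))) := by
  rw [lintegral_rpow_eq_lintegral_meas_le_mul μ (f := fun x => max (f x) 0)
    (ae_of_all _ fun x => le_max_right _ _) (hf.max measurable_const).aemeasurable hp,
    ENNReal.ofReal_mul hp.le]
  gcongr
  have key := Real.integral_rpow_mul_exp_neg_mul_Ioi hp (inv_pos.2 hD)
  rw [one_div, inv_inv] at key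
  have hint : IntegrableOn (fun t : ℝ => t ^ (p - 1) * Real.exp (-(D⁻¹ * t))) (Ioi 0) :=
    .of_integral_ne_zero (by rw [key]; have := Real.Gamma_pos_of_pos hp; positivity)
  rw [← key, ← integral_const_mul, ofReal_integral_eq_lintegral_ofReal (hint.const_mul K)
    ((ae_restrict_iff' measurableSet_Ioi).2 (ae_of_all _ fun t (ht : 0 < t) => by positivity))]
  refine setLIntegral_mono' measurableSet_Ioi fun t (ht : 0 < t) => ?_
  have e : {a | t ≤ max (f a) 0} = {a | t ≤ f a} := by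
    ext a; simp [ht.not_ge]
  rw [e]
  refine (mul_le_mul_left (h t ht) _).trans (le_of_eq ?_)
  rw [← ENNReal.ofReal_mul (by positivity)]
  congr 1
  rw [show -t / D = -(D⁻¹ * t) by ring]
  ring

end Car

theorem car : CarStmt := by
  intro E _ _ _ _ _
  obtain ⟨K, hK, h⟩ := Car.line
  refine ⟨2 * 2 ^ Module.finrank ℝ E * K,
    by nlinarith [one_le_pow₀ (n := Module.finrank ℝ E) (show (1 : ℝ) ≤ 2 by norm_num)],
    fun μ _ φ ρ M L s hφ hρ hM hL hF => ?_⟩
  set Z := {y | φ y ≤ M * Real.exp (-s)}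
  have hZ : MeasurableSet Z := measurableSet_le hφ measurable_const
  set W := {y | ‖y‖ ≤ ρ ∧ φ y ≤ M * Real.exp (-s)}
  have hW : MeasurableSet W := (measurableSet_le measurable_norm measurable_const).inter hZ
  have h1 : ∀ t ∈ Icc (1 / 2 : ℝ) 1,
      μ W ≤ ∫⁻ h in closedBall 0 (2 * ρ), Z.indicator 1 (t • h) ∂μ := fun t ht => by
    have ht0 : 0 < t := by linarith [ht.1]
    rw [← lintegral_indicator_one hW, Car.scale μ (measurable_one.indicator hW) ht0,
      ← lintegral_indicator measurableSet_closedBall]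
    refine (mul_le_of_le_one_left' (ENNReal.ofReal_le_one.mpr (pow_le_one₀ ht0.le ht.2))).trans
      (lintegral_mono fun h => ?_)
    by_cases hh : t • h ∈ W
    · have h2 := hh.1
      rw [norm_smul, Real.norm_of_nonneg ht0.le] at h2
      rw [indicator_of_mem hh, indicator_of_mem (mem_closedBall_zero_iff.mpr
        (by nlinarith [ht.1, norm_nonneg h])), indicator_of_mem (show _ ∈ Z from hh.2)]
    · simp [indicator_of_notMem hh]
  have h2 : ∀ y ∈ closedBall (0 : E) (2 * ρ), ∫⁻ t in Icc (0 : ℝ) 1,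
      Z.indicator 1 (t • y) ≤ ENNReal.ofReal (K * Real.exp (-s / (4 * L))) := fun y hy => by
    obtain ⟨F, f1, f2, f3, f4⟩ := hF y (mem_closedBall_zero_iff.1 hy)
    refine le_trans ?_ (h F M L s f1 hM hL f2 f3)
    have hm : MeasurableSet ((fun t : ℝ => t • y) ⁻¹' Z) := hZ.preimage (by fun_prop)
    rw [show (fun t : ℝ => Z.indicator (1 : E → ℝ≥0∞) (t • y)) =
      ((fun t : ℝ => t • y) ⁻¹' Z).indicator 1 from rfl, lintegral_indicator_one hm,
      Measure.restrict_apply hm]
    exact measure_mono fun t ht => ⟨ht.2, (f4 t ht.2).trans ht.1⟩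
  have h3 : ENNReal.ofReal (1 / 2) * μ W ≤ ENNReal.ofReal (K * Real.exp (-s / (4 * L))) *
      (ENNReal.ofReal (2 ^ Module.finrank ℝ E) * μ (closedBall 0 ρ)) := by
    calc _ = ∫⁻ _ in Icc (1 / 2 : ℝ) 1, μ W := by
          rw [setLIntegral_const, Real.volume_Icc, mul_comm]; norm_num
      _ ≤ ∫⁻ t in Icc (1 / 2 : ℝ) 1, ∫⁻ h in closedBall 0 (2 * ρ), Z.indicator 1 (t • h) ∂μ :=
          setLIntegral_mono' measurableSet_Icc h1
      _ ≤ ∫⁻ t in Icc (0 : ℝ) 1, ∫⁻ h in closedBall 0 (2 * ρ), Z.indicator 1 (t • h) ∂μ :=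
          lintegral_mono_set (Icc_subset_Icc_left (by norm_num))
      _ = ∫⁻ h in closedBall 0 (2 * ρ), (∫⁻ t in Icc (0 : ℝ) 1, Z.indicator 1 (t • h)) ∂μ :=
          lintegral_lintegral_swap (((measurable_one.indicator hZ).comp
            (by fun_prop)).aemeasurable)
      _ ≤ ∫⁻ _ in closedBall (0 : E) (2 * ρ), ENNReal.ofReal (K * Real.exp (-s / (4 * L))) ∂μ :=
          setLIntegral_mono' measurableSet_closedBall h2
      _ = _ := by
          rw [setLIntegral_const, Measure.addHaar_closedBall_mul_of_pos μ 0 two_pos]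
  rw [← ENNReal.mul_le_mul_iff_right (a := ENNReal.ofReal (1 / 2)) (by simp) ENNReal.ofReal_ne_top]
  refine h3.trans (le_of_eq ?_)
  rw [← mul_assoc, ← mul_assoc, ← ENNReal.ofReal_mul (by positivity),
    ← ENNReal.ofReal_mul (by positivity)]
  congr 2
  ring

theorem tail : TailStmt := by
  intro Ω _ μ f K D hf hK hD h
  have e : ∀ x, ENNReal.ofReal (f x) = ENNReal.ofReal (max (f x) 0) := fun x => by
    rcases le_total (f x) 0 with c | c
    · rw [max_eq_right c, ENNReal.ofReal_of_nonpos c, ENNReal.ofReal_zero]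
    · rw [max_eq_left c]
  constructor
  · have := Car.moment hf hK hD one_pos h
    simpa only [Real.rpow_one, Real.Gamma_one, one_mul, mul_one, ← e] using this
  · have := Car.moment hf hK hD two_pos h
    rw [Real.Gamma_two, mul_one, ← mul_assoc, Real.rpow_two] at this
    refine le_trans (le_of_eq (lintegral_congr fun x => ?_)) this
    rw [e, Real.rpow_two, ENNReal.ofReal_pow (le_max_right _ _)]

end

end Pool.Agent.LinN2
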