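import Pool.Agent.Lib.MP_8465a2_an.N2.Chain1

/-!
The cost of a chain (MP_8465a2_an).
-/

namespace Pool.Agent.LinN2
namespace ChainAux

open MeasureTheory Metric Set Filter Topology Complex
open scoped ENNReal ComplexConjugate

noncomputable section

variable {n : ℕ}

/-- majorant of the indicator function of the bad shells -/
def ind (g : Cn n → Cn n) (x : Rn n) (R m κ : ℝ) (u1 u2 : Rn n) (z : Zs n) : ℝ :=
  {z : Zs n | 1 - 1 / κ ^ 10 < ‖z.2.2‖}.indicator 1 z +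
    {z : Zs n | |dt u1 u2 z.2.1.1| ≤ Real.exp (-κ)}.indicator 1 z +
    {z : Zs n | ‖cx z.2.1.2 ⬝ᵥ g (cx (z.1 + R • z.2.1.1.1)) - ((0 : ℝ) : ℂ)‖ ≤
      SS g (cx x) R * Real.exp (-(m * κ / 8))}.indicator 1 z

variable {g : Cn n → Cn n} {x : Rn n} {R m κ : ℝ} {u1 u2 : Rn n}

lemma ind0 (S : Set (Zs n)) (z : Zs n) : (0 : ℝ) ≤ S.indicator 1 z :=
  indicator_nonneg (fun _ _ => zero_le_one) z

lemma ind_nonneg (z : Zs n) : 0 ≤ ind g x R m κ u1 u2 z :=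
  add_nonneg (add_nonneg (ind0 _ _) (ind0 _ _)) (ind0 _ _)

lemma one_le_ind (z : Zs n) (h : ¬ (‖z.2.2‖ ≤ 1 - 1 / κ ^ 10 ∧
    Real.exp (-κ) ≤ |dt u1 u2 z.2.1.1| ∧ SS g (cx x) R * Real.exp (-(m * κ / 8)) ≤
      ‖cx z.2.1.2 ⬝ᵥ g (cx (z.1 + R • z.2.1.1.1))‖)) : 1 ≤ ind g x R m κ u1 u2 z := by
  have a1 := ind0 {z : Zs n | 1 - 1 / κ ^ 10 < ‖z.2.2‖} z
  have a2 := ind0 {z : Zs n | |dt u1 u2 z.2.1.1| ≤ Real.exp (-κ)} z
  have a3 := ind0 {z : Zs n | ‖cx z.2.1.2 ⬝ᵥ g (cx (z.1 + R • z.2.1.1.1)) - ((0 : ℝ) : ℂ)‖ ≤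
      SS g (cx x) R * Real.exp (-(m * κ / 8))} z
  unfold ind
  simp only [not_and_or, not_le] at h
  rcases h with h | h | h
  · rw [indicator_of_mem (s := {z : Zs n | 1 - 1 / κ ^ 10 < ‖z.2.2‖}) h, Pi.one_apply]
    linarith
  · rw [indicator_of_mem (s := {z : Zs n | |dt u1 u2 z.2.1.1| ≤ Real.exp (-κ)}) h.le,
      Pi.one_apply]
    linarith
  · rw [indicator_of_mem (s := {z : Zs n | ‖cx z.2.1.2 ⬝ᵥ g (cx (z.1 + R • z.2.1.1.1)) -
      ((0 : ℝ) : ℂ)‖ ≤ SS g (cx x) R * Real.exp (-(m * κ / 8))}) (by simpa using h.le),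
      Pi.one_apply]
    linarith

lemma EB_ind (h6 : GrazeStmt n) (hg : Continuous g) {ρ μ KG KM : ℝ} (hκ : 1 ≤ κ) (hμ : 0 < μ)
    (hm : μ ≤ m) (h0 : 0 ≤ ρ) (h1 : ρ ≤ 1 / κ ^ 10) (hKG : 1 ≤ KG) (hKM : 1 ≤ KM)
    (hG : volume {θ ∈ Tbox n | |dt u1 u2 θ.1| ≤ Real.exp (-κ)} ≤
      ENNReal.ofReal (KG * √(Real.exp (-κ))))
    (hM : ∀ p', ‖p' - x‖ ≤ 3 * ρ → volume {θ ∈ Tbox n | ‖cx θ.2 ⬝ᵥ g (cx (p' + R • θ.1.1)) -
      ((0 : ℝ) : ℂ)‖ ≤ SS g (cx x) R * Real.exp (-(m * κ / 8))} ≤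
      ENNReal.ofReal (KM * Real.exp (-(m * κ / 8) / (KM * (20 * μ))))) :
    EB x ρ (ind g x R m κ u1 u2)
      ((24 + 16 * KG * (3628800 * 2 ^ 10) + 16 * KM * (3628800 * (160 * KM) ^ 10)) / κ ^ 10) := by
  have hδ : 1 / κ ^ 10 ≤ 1 := by
    rw [div_le_one (by positivity)]; exact one_le_pow₀ hκ
  have m2 : MeasurableSet {z : Zs n | |dt u1 u2 z.2.1.1| ≤ Real.exp (-κ)} := by
    refine (isClosed_le ?_ continuous_const).measurableSet
    unfold dt dotProduct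
    fun_prop
  have m3 : MeasurableSet {z : Zs n | ‖cx z.2.1.2 ⬝ᵥ g (cx (z.1 + R • z.2.1.1.1)) -
      ((0 : ℝ) : ℂ)‖ ≤ SS g (cx x) R * Real.exp (-(m * κ / 8))} := by
    refine (isClosed_le ?_ continuous_const).measurableSet
    unfold dotProduct
    fun_prop
  refine (((EB.frame h6 h0 h1 hδ).add (EB.ind m2 (by positivity) h0 (h1.trans hδ)
    fun _ _ _ => hG)).add (EB.ind m3 (by positivity) h0 (h1.trans hδ)
    fun p' _ hp => hM p' hp)).le ?_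
  have e1 : √(Real.exp (-κ)) ≤ 3628800 * 2 ^ 10 / κ ^ 10 := by
    rw [← Real.exp_half, neg_div]
    exact exp_le two_pos (by linarith)
  have e2 : Real.exp (-(m * κ / 8) / (KM * (20 * μ))) ≤ 3628800 * (160 * KM) ^ 10 / κ ^ 10 := by
    refine le_trans (Real.exp_le_exp.2 ?_) (exp_le (a := 160 * KM) (by positivity) (by linarith))
    rw [neg_div, neg_le_neg_iff, div_le_div_iff₀ (by positivity) (by positivity)]
    nlinarith [mul_le_mul_of_nonneg_left hm (show 0 ≤ κ * KM by positivity)]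
  grw [e1, e2]
  exact le_of_eq (by ring)

/-- the explicit cost -/
def Vf (g : Cn n → Cn n) (x : Rn n) (η ε T C KA KT μ κ : ℝ) (k1 k2 : ℕ) (R μt : ℕ → ℝ)
    (u1 u2 : ℕ → Rn n) (R' : ℝ) (z : Zs n) : ℝ :=
  C * ((∑ l ∈ Finset.range k2, KA * ((20 * μ + 20 * μ) +
      Yf g x η ε T (R' / 2 ^ l) z / (20 * μ))) / (κ ^ 2 * (k2 : ℝ) ^ 2) +
    κ ^ 2 * (∑ t ∈ Finset.range k1, (KT * (4 * μ) / κ ^ 5 + (KA * (20 * μ + μ * κ ^ 5) *
      ind g x (R (t + 1)) (μt (t + 1)) κ (u1 (t + 1)) (u2 (t + 1)) z +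
        KA * (Yf g x η ε T (R (t + 1)) z / (μ * κ ^ 5)))) +
      KA * ((20 * μ + 20 * μ) + Yf g x η ε T (R 0) z / (20 * μ))) / (k1 : ℝ) ^ 2)

lemma final_ineq {C K1 K3 μ κ J a b : ℝ} (hC : 0 ≤ C) (h1 : 0 ≤ K1) (h3 : 0 ≤ K3) (hμ : 0 < μ)
    (hκ : 1 ≤ κ) (hJ : κ ^ 6 ≤ J) (ha : J ≤ 256 * κ * a) (hb : J ≤ 8 * b) :
    μ * (C * (b * (K1 * μ) / (κ ^ 2 * b ^ 2) + κ ^ 2 * (a * (K3 * μ / κ ^ 5) + K1 * μ) / a ^ 2)) ≤
      C * (65544 * K1 + 256 * K3) * μ ^ 2 / (J * κ ^ 2) := by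
  have hJ0 : 0 < J := lt_of_lt_of_le (by positivity) hJ
  have ha0 : 0 < a := by
    by_contra h
    nlinarith [mul_nonneg (show 0 ≤ 256 * κ by linarith) (neg_nonneg.2 (not_lt.1 h))]
  have hb0 : 0 < b := by linarith
  have e1 : 1 / b ≤ 8 / J := by rw [div_le_div_iff₀ hb0 hJ0]; linarith
  have e2 : 1 / a ≤ 256 * κ / J := by rw [div_le_div_iff₀ ha0 hJ0]; linarith
  have e3 : 1 / J ≤ 1 / κ ^ 6 := one_div_le_one_div_of_le (by positivity) hJ
  calc _ = C * μ ^ 2 * (K1 / κ ^ 2 * (1 / b) + K3 / κ ^ 3 * (1 / a) +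
        K1 * κ ^ 2 * (1 / a) ^ 2) := by field_simp; ring
    _ ≤ C * μ ^ 2 * (K1 / κ ^ 2 * (8 / J) + K3 / κ ^ 3 * (256 * κ / J) +
        K1 * κ ^ 2 * (256 * κ / J) ^ 2) := by gcongr
    _ = C * μ ^ 2 * (K1 / κ ^ 2 * (8 / J) + K3 / κ ^ 3 * (256 * κ / J) +
        65536 * K1 * κ ^ 4 / J * (1 / J)) := by field_simp; ring
    _ ≤ C * μ ^ 2 * (K1 / κ ^ 2 * (8 / J) + K3 / κ ^ 3 * (256 * κ / J) +
        65536 * K1 * κ ^ 4 / J * (1 / κ ^ 6)) := by gcongr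
    _ = _ := by field_simp; ring

lemma EB_V (h6 : GrazeStmt n) {ρ η ε T C KA KT KM K2 μ J R' : ℝ} {k1 k2 : ℕ} {R μt : ℕ → ℝ}
    {u1 u2 : ℕ → Rn n} (hC : 0 ≤ C) (hA : 0 ≤ KA) (hT : 0 ≤ KT) (hM : 0 ≤ KM) (h2 : 0 ≤ K2)
    (hμ : 0 < μ) (hκ : 1 ≤ κ) (h0 : 0 ≤ ρ) (h1 : ρ ≤ 1) (hJ : κ ^ 6 ≤ J)
    (ha : J ≤ 256 * κ * k1) (hb : J ≤ 8 * k2)
    (y1 : ∀ l < k2, EB x ρ (Yf g x η ε T (R' / 2 ^ l)) (16 * (KM * (20 * μ) ^ 2)))
    (y2 : ∀ t ≤ k1, EB x ρ (Yf g x η ε T (R t)) (16 * (KM * (20 * μ) ^ 2)))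
    (y3 : ∀ t ≤ k1, EB x ρ (ind g x (R t) (μt t) κ (u1 t) (u2 t)) (K2 / κ ^ 10)) :
    EB x ρ (fun z => μ * Vf g x η ε T C KA KT μ κ k1 k2 R μt u1 u2 R' z)
      (C * (65544 * (KA * (640 + 320 * KM)) + 256 * (64 * KT + 21 * KA * K2 + 6400 * KA * KM)) *
        μ ^ 2 / (J * κ ^ 2)) := by
  have a1 : ∀ r, EB x ρ (Yf g x η ε T r) (16 * (KM * (20 * μ) ^ 2)) →
      EB x ρ (fun z => KA * ((20 * μ + 20 * μ) + Yf g x η ε T r z / (20 * μ)))
        (KA * (640 + 320 * KM) * μ) := fun r h =>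
    (((EB.const h6 (by positivity) h0 h1).add (h.div_const (by positivity))).const_mul hA).le
      (le_of_eq (by field_simp; ring))
  have a2 : ∀ t < k1, EB x ρ (fun z => KT * (4 * μ) / κ ^ 5 + (KA * (20 * μ + μ * κ ^ 5) *
      ind g x (R (t + 1)) (μt (t + 1)) κ (u1 (t + 1)) (u2 (t + 1)) z +
        KA * (Yf g x η ε T (R (t + 1)) z / (μ * κ ^ 5))))
      ((64 * KT + 21 * KA * K2 + 6400 * KA * KM) * μ / κ ^ 5) := fun t ht => by
    refine ((EB.const h6 (by positivity) h0 h1).add (((y3 (t + 1) ht).const_mul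
      (by positivity)).add (((y2 (t + 1) ht).div_const (by positivity)).const_mul hA))).le ?_
    have : 20 * μ + μ * κ ^ 5 ≤ 21 * μ * κ ^ 5 := by
      nlinarith [mul_le_mul_of_nonneg_left (one_le_pow₀ (n := 5) hκ) hμ.le]
    grw [this]
    exact le_of_eq (by field_simp; ring)
  exact ((((((EB.sum k2 fun l hl => a1 _ (y1 l hl)).div_const (by positivity)).add
    ((((EB.sum k1 a2).add (a1 _ (y2 0 (Nat.zero_le _)))).const_mul (by positivity)).div_const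
      (by positivity))).const_mul hC).const_mul hμ.le).le
    (final_ineq hC (by positivity) (by positivity) hμ hκ hJ ha hb))

end

end ChainAux

open MeasureTheory Metric Set Filter Topology Complex ChainAux
open scoped ENNReal ComplexConjugate

theorem chain {n : ℕ} (hn : 3 ≤ n) (h1 : FluxStmt) (h2 : RoundStmt) (h3 : TShellStmt n)
    (h4 : ARStmt n) (h5 : MomStmt n) (h6 : GrazeStmt n) (h7 : PtStmt) : ChainStmt n := by
  intro C0 hC0
  obtain ⟨KR, hKR, h2⟩ := h2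
  obtain ⟨KT, hKT, h3⟩ := h3 C0 hC0
  obtain ⟨KA, hKA, h4⟩ := h4
  obtain ⟨KM, hKM, h5⟩ := h5
  obtain ⟨KG, hKG, hG⟩ := h6.2.1
  obtain ⟨C, hC, h1⟩ := h1 (max KT KR) (le_max_of_le_left hKT)
  obtain ⟨K2, hK2⟩ : ∃ K2 : ℝ, K2 =
    24 + 16 * KG * (3628800 * 2 ^ 10) + 16 * KM * (3628800 * (160 * KM) ^ 10) := ⟨_, rfl⟩
  have hK2' : 0 ≤ K2 := by rw [hK2]; positivity
  obtain ⟨K4, hK4⟩ : ∃ K4 : ℝ, K4 = C * (65544 * (KA * (640 + 320 * KM)) +
    256 * (64 * KT + 21 * KA * K2 + 6400 * KA * KM)) := ⟨_, rfl⟩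
  have hK4' : 0 ≤ K4 := by rw [hK4]; positivity
  have hn' : (3 : ℝ) ≤ n := by exact_mod_cast hn
  refine ⟨KT + 18 * n + K4, by linarith, ?_⟩
  intro g x ρ μ κ J ηN hg h0 hκ hJ hμ hρ hch hN0 hN1
  obtain ⟨k1, k2, R, μt, u1, u2, R', hk1, hk2, hR, hRs, hR0, hR', hρ', hD⟩ := hch
  have hκ1 : 18 * (n : ℝ) ≤ κ := by linarith
  have hκ2 : 2 ≤ κ := by linarith
  have hμ0 : 0 < μ := by linarith
  have hJ0 : 0 < J := lt_of_lt_of_le (by positivity) hJ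
  have hk1' : 1 ≤ k1 := by
    rcases k1 with _ | k1
    · simp at hk1; linarith
    · omega
  have hk2' : 1 ≤ k2 := by
    rcases k2 with _ | k2
    · simp at hk2; linarith
    · omega
  have hδ : 1 / κ ^ 10 ≤ 1 / 4 := one_div_le_one_div_of_le (by norm_num)
    (le_trans (by norm_num) (pow_le_pow_left₀ zero_le_two hκ2 10))
  have he3 : 2 ≤ Real.exp (3 * κ) := by linarith [Real.add_one_le_exp (3 * κ)]
  have hRa : ∀ t ≤ k1, R t ≤ R 0 := by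
    intro t ht
    induction t with
    | zero => exact le_rfl
    | succ t ih =>
      refine (hRs t ht).trans (le_trans ?_ (ih (by omega)))
      exact mul_le_of_le_one_right (hR t (by omega)).1.le (Real.exp_le_one_iff.2 (by linarith))
  have hRρ : ∀ t ≤ k1, 3 * ρ ≤ R t := fun t ht => (hR t ht).2.2.2.2.trans
    (mul_le_of_le_one_right (hR t ht).1.le (Real.exp_le_one_iff.2 (neg_nonpos.2 (by positivity))))
  have hR00 : 0 < R 0 := (hR 0 (Nat.zero_le _)).1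
  have hR0δ : R 0 ≤ 1 / κ ^ 10 := le_trans (le_mul_of_one_le_right hR00.le (by linarith)) hR0
  have hρδ : ρ ≤ 1 / κ ^ 10 := by linarith [hRρ 0 (Nat.zero_le _)]
  have hR'0 : 0 < R' := lt_of_lt_of_le (by positivity) hρ'
  have hl : ∀ l < k2, 3 * ρ ≤ R' / 2 ^ l ∧ R' / 2 ^ l ≤ R 0 := fun l hl => by
    constructor
    · rw [le_div_iff₀ (by positivity)]
      have : (2 : ℝ) ^ l ≤ 2 ^ k2 := pow_le_pow_right₀ one_le_two hl.le
      nlinarith [mul_le_mul_of_nonneg_left this hρ.le, mul_pos hρ (pow_pos two_pos k2)]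
    · refine (div_le_self hR'0.le (one_le_pow₀ one_le_two)).trans ?_
      nlinarith [hRa k1 le_rfl]
  have hS : 0 < SS g (cx x) (3 * ρ) := SS_pos hg.differentiable h0 _ (by positivity)
  have hev := (eventually_all_finset (Finset.range (k1 + 1))).2 fun t ht =>
    have ht' : t ≤ k1 := Nat.lt_succ_iff.1 (Finset.mem_range.1 ht)
    h3 g x (R t) (μt t) κ (1 / κ ^ 10) ηN (u1 t) (u2 t) hg h0 (by linarith)
      (hμ.trans (hR t ht').2.1) (hR t ht').1 (hR t ht').2.2.2.1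
      (le_trans (mul_le_mul_of_nonneg_right (hRa t ht') (Real.exp_pos _).le) hR0)
      (by linarith) hN0 hN1
  filter_upwards [hev, Ioc_mem_nhdsGT hS] with T hev hT
  filter_upwards [(eventually_all_finset _).2 hev, self_mem_nhdsWithin] with ε hev hε
  filter_upwards [(eventually_all_finset _).2 hev, Ioc_mem_nhdsGT hT.1] with η hev hη
  replace hε : 0 < ε := hε
  have hY : ∀ r, 3 * ρ ≤ r → r ≤ R 0 → EB x ρ (Yf g x η ε T r) (16 * (KM * (20 * μ) ^ 2)) :=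
    fun r a1 a2 => EB.Yf h7 hε hT.1 hg.continuous hη.1 (by positivity) hρ.le (by linarith)
      fun p' c hp => (h5 g x p' r (20 * μ) c hg h0 (by linarith) (hp.trans a1) (by linarith)
        (hD r (by linarith) a2)).2 η hη.1
  have hV := EB_V (C := C) (KA := KA) (KT := KT) (K2 := K2) (μt := μt) (u1 := u1) (u2 := u2) h6
    (by linarith) (by linarith) (by linarith) (by linarith) hK2' hμ0 (by linarith) hρ.le
    (by linarith) hJ hk1 hk2 (fun l a => hY _ (hl l a).1 (hl l a).2)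
    (fun t a => hY _ (hRρ t a) (hRa t a)) fun t a => hK2 ▸ EB_ind h6 hg.continuous (by linarith)
      hμ0 (hR t a).2.1 hρ.le hρδ hKG hKM (hG _ _ _ (hR t a).2.2.2.1.1 (Real.exp_pos _))
      fun p' hp => (h5 g x p' (R t) (20 * μ) 0 hg h0 (hR t a).1 (hp.trans (hRρ t a)) (by linarith)
        (hD _ (hR t a).1 (hRa t a))).1 _
  rw [← hK4] at hV
  refine ⟨fun z => ENNReal.ofReal (μ * Vf g x η ε T C KA KT μ κ k1 k2 R μt u1 u2 R' z),
    hV.1.ennreal_ofReal, fun p' hp => (hV.2.2 p' hp).trans (ENNReal.ofReal_le_ofReal ?_), ?_⟩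
  · gcongr
    linarith
  intro p θ y hθ hy hp
  refine ⟨_, le_rfl, ?_⟩
  have hAR : ∀ r, 3 * ρ ≤ r → r ≤ R 0 → ∀ c, |c| ≤ T → AR (aa g p θ.1 θ.2 c) η (c2 y) r ≤
      KA * (20 * μ + XV g (SS g (cx x) r) η (p + plr θ.1 y + r • θ.1.1) θ.2 c) :=
    fun r a1 a2 c hc => h4 g x p θ.1 θ.2 y c η T r (20 * μ) hg hθ.1 (by simpa using hθ.2)
      (by linarith) (hp.trans a1) (by linarith) (hD r (by linarith) a2) hc hη.1 hη.2
      (hT.2.trans (SS_mono' hg.continuous _ a1))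
  have hsh : ∀ t, ∃ s : ℝ → ℝ, t ≤ k1 → IB ε T s (KT * (4 * μ) / κ ^ 5 +
      (KA * (20 * μ + μ * κ ^ 5) * ind g x (R t) (μt t) κ (u1 t) (u2 t) (p + plr θ.1 y, θ, y) +
        KA * (Yf g x η ε T (R t) (p + plr θ.1 y, θ, y) / (μ * κ ^ 5)))) ∧ ∀ c, |c| ≤ T → 0 ≤ s c ∧
      Shell (aa g p θ.1 θ.2 c) η ηN (c2 y) (R t / (18 * n)) (R t * Real.exp (3 * κ))
        (max KT KR) (s c) := by
    intro t
    by_cases ht : t ≤ k1
    swap
    · exact ⟨0, fun h => (ht h).elim⟩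
    have b1 := ind_nonneg (g := g) (x := x) (R := R t) (m := μt t) (κ := κ) (u1 := u1 t)
      (u2 := u2 t) (p + plr θ.1 y, θ, y)
    have b2 := Yf_nonneg (g := g) (x := x) (η := η) h7 hε hT.1 (R t) (p + plr θ.1 y, θ, y)
    by_cases hgood : ‖y‖ ≤ 1 - 1 / κ ^ 10 ∧ Real.exp (-κ) ≤ |dt (u1 t) (u2 t) θ.1| ∧
        SS g (cx x) (R t) * Real.exp (-(μt t * κ / 8)) ≤
          ‖cx θ.2 ⬝ᵥ g (cx (p + plr θ.1 y + R t • θ.1.1))‖
    · obtain ⟨s, s1, s2, s3⟩ := hev t (Finset.mem_range.2 (by omega)) p θ y hθ hgood.1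
        (hp.trans (hR t ht).2.2.2.2) hgood.2.1 hgood.2.2
      refine ⟨s, fun _ => ⟨⟨s1, s2.trans ?_⟩, fun c hc =>
        ⟨(s3 c hc).1, (s3 c hc).2.mono (s3 c hc).1 (le_max_left _ _)⟩⟩⟩
      refine le_add_of_le_of_nonneg ?_ (by positivity)
      gcongr
      exact (hR t ht).2.2.1
    · have b3 := one_le_ind (g := g) (x := x) (p + plr θ.1 y, θ, y) hgood
      refine ⟨_, fun _ => ⟨(IB.XV (x := x) h7 hε hT.1 hg.continuous hη.1 (R t)
        (p + plr θ.1 y, θ, y) (K := KA) (D := 20 * μ) (lam := μ * κ ^ 5) (by linarith)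
        (by linarith) (by positivity)).le ?_, fun c hc => ?_⟩⟩
      · refine le_add_of_nonneg_of_le (by positivity) ?_
        rw [mul_add KA (20 * μ + μ * κ ^ 5)]
        exact add_le_add_left (le_mul_of_one_le_right (by positivity) b3) _
      · have b4 := (AR_nonneg _ _ _ _).trans (hAR _ (hRρ t ht) (hRa t ht) c hc)
        refine ⟨b4, (h2 _ η ηN _ (R t) _ _ _ (hg.aa _ _ _ _ 2) hη.1 (hR t ht).1
          (div_le_self (hR t ht).1.le (by linarith)) ?_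
          (hAR _ (hRρ t ht) (hRa t ht) c hc)).mono b4 (le_max_right _ _)⟩
        rw [mul_comm]
        exact mul_le_mul_of_nonneg_left he3 (hR t ht).1.le
  choose s hs using hsh
  have hI : ∀ r, IB ε T (fun c => KA * (20 * μ +
      XV g (SS g (cx x) r) η (p + plr θ.1 y + r • θ.1.1) θ.2 c))
      (KA * ((20 * μ + 20 * μ) + Yf g x η ε T r (p + plr θ.1 y, θ, y) / (20 * μ))) := fun r =>
    IB.XV (x := x) h7 hε hT.1 hg.continuous hη.1 r (p + plr θ.1 y, θ, y) (by linarith)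
      (by linarith) (by positivity)
  have hF := ((((IB.sum h7 hε hT.1 k2 fun l _ => hI (R' / 2 ^ l)).div_const
    (a := κ ^ 2 * (k2 : ℝ) ^ 2) (by positivity)).add h7 hε hT.1
    ((((IB.sum h7 hε hT.1 k1 fun t ht => (hs (t + 1) ht).1).add h7 hε hT.1
      (hI (R 0))).const_mul (a := κ ^ 2) (by positivity)).div_const (a := (k1 : ℝ) ^ 2)
      (by positivity))).const_mul (a := C) (by linarith))
  refine ⟨_, hF.1, hF.2, fun c hc => ⟨?_, ?_⟩⟩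
  · have c1 : ∀ r, 0 ≤ KA * (20 * μ +
        XV g (SS g (cx x) r) η (p + plr θ.1 y + r • θ.1.1) θ.2 c) := fun r =>
      mul_nonneg (by linarith) (add_nonneg (by linarith) (XV_nonneg _ _ _ _ _ _))
    exact mul_nonneg (by linarith) (add_nonneg (div_nonneg (Finset.sum_nonneg fun l _ => c1 _)
      (by positivity)) (div_nonneg (mul_nonneg (by positivity) (add_nonneg (Finset.sum_nonneg
        fun t ht => ((hs (t + 1) (Finset.mem_range.1 ht)).2 c hc).1) (c1 _))) (by positivity)))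
  · refine h1 _ η ηN (c2 y) k1 k2 (κ ^ 2) (R 0) R' _ (6 * ρ) (fun t => R t / (18 * n))
      (fun t => R t * Real.exp (3 * κ)) (fun t => s t c) (fun l => KA * (20 * μ +
        XV g (SS g (cx x) (R' / 2 ^ l)) η (p + plr θ.1 y + (R' / 2 ^ l) • θ.1.1) θ.2 c))
      (hg.aa _ _ _ _ 2) hη.1 hk1' hk2' (by positivity) hR00 hR'0 ?_
      (div_le_self hR00.le (by linarith)) (hAR _ (hRρ 0 (Nat.zero_le _)) le_rfl c hc)
      (fun t ht => ⟨?_, ?_, ((hs (t + 1) ht).2 c hc).1, ((hs (t + 1) ht).2 c hc).2⟩) ?_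
      (fun l a => hAR _ (hl l a).1 (hl l a).2 c hc) hρ'
    · rw [norm_c2]
      linarith
    · exact (div_le_self (hR _ ht).1.le (by linarith)).trans
        (le_mul_of_one_le_right (hR _ ht).1.le (by linarith))
    · refine (mul_le_mul_of_nonneg_right (hRs t ht) (Real.exp_pos _).le).trans ?_
      rw [mul_assoc, ← Real.exp_add, div_eq_mul_inv]
      refine mul_le_mul_of_nonneg_left ?_ (hR t ht.le).1.le
      rw [show -(4 * κ) + 3 * κ = -κ by ring, Real.exp_neg]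
      exact inv_anti₀ (by linarith) (by linarith [Real.add_one_le_exp κ])
    · rw [le_div_iff₀ (by linarith)]
      linarith

end Pool.Agent.LinN2
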