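import Pool.Agent.Lib.MP_8465a2_an.N2.BasicB

/-!
Tools for the cost of a chain (MP_8465a2_an): bounds in mean.
-/

namespace Pool.Agent.LinN2
namespace ChainAux

open MeasureTheory Metric Set Filter Topology Complex
open scoped ENNReal ComplexConjugate

noncomputable section

variable {n : ℕ}

/-- the parameter space -/
abbrev Zs (n : ℕ) := Rn n × (Dir n × Rn n) × (ℝ × ℝ)

/-- bound in mean over the planes -/
def EB (x : Rn n) (ρ : ℝ) (f : Zs n → ℝ) (b : ℝ) : Prop :=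
  Measurable f ∧ 0 ≤ b ∧ ∀ p', ‖p' - x‖ ≤ 3 * ρ → ∫⁻ y in closedBall (0 : ℝ × ℝ) (1 + ρ),
    ∫⁻ θ in Tbox n, ENNReal.ofReal (f (p', θ, y)) ≤ ENNReal.ofReal b

variable {x : Rn n} {ρ : ℝ} {f f' : Zs n → ℝ} {b b' : ℝ}

lemma EB.le (h : EB x ρ f b) (hb : b ≤ b') : EB x ρ f b' :=
  ⟨h.1, h.2.1.trans hb, fun p' hp => (h.2.2 p' hp).trans (ENNReal.ofReal_le_ofReal hb)⟩

lemma EB.add (h : EB x ρ f b) (h' : EB x ρ f' b') : EB x ρ (fun z => f z + f' z) (b + b') := by
  refine ⟨h.1.add h'.1, add_nonneg h.2.1 h'.2.1, fun p' hp => ?_⟩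
  have m1 : Measurable fun q : (ℝ × ℝ) × (Dir n × Rn n) => ENNReal.ofReal (f (p', q.2, q.1)) :=
    (h.1.comp (by fun_prop)).ennreal_ofReal
  calc _ ≤ ∫⁻ y in closedBall (0 : ℝ × ℝ) (1 + ρ), ((∫⁻ θ in Tbox n, ENNReal.ofReal (f (p', θ, y))) +
        ∫⁻ θ in Tbox n, ENNReal.ofReal (f' (p', θ, y))) := by
        refine lintegral_mono fun y => ?_
        have m2 : Measurable fun θ : Dir n × Rn n => ENNReal.ofReal (f (p', θ, y)) :=
          (h.1.comp (by fun_prop)).ennreal_ofReal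
        rw [← lintegral_add_left m2]
        exact lintegral_mono fun θ => ENNReal.ofReal_add_le
    _ ≤ ENNReal.ofReal b + ENNReal.ofReal b' := by
        rw [lintegral_add_left m1.lintegral_prod_right']
        exact add_le_add (h.2.2 p' hp) (h'.2.2 p' hp)
    _ = _ := (ENNReal.ofReal_add h.2.1 h'.2.1).symm

lemma EB.const_mul (h : EB x ρ f b) {c : ℝ} (hc : 0 ≤ c) :
    EB x ρ (fun z => c * f z) (c * b) := by
  refine ⟨h.1.const_mul c, mul_nonneg hc h.2.1, fun p' hp => ?_⟩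
  simp only [ENNReal.ofReal_mul hc, lintegral_const_mul' _ _ ENNReal.ofReal_ne_top]
  exact mul_le_mul_right (h.2.2 p' hp) _

lemma EB.div_const (h : EB x ρ f b) {c : ℝ} (hc : 0 ≤ c) :
    EB x ρ (fun z => f z / c) (b / c) := by
  simpa only [div_eq_inv_mul] using h.const_mul (inv_nonneg.2 hc)

lemma EB.zero : EB x ρ (fun _ => 0) 0 := ⟨measurable_const, le_rfl, fun _ _ => by simp⟩

lemma EB.sum (k : ℕ) {F : ℕ → Zs n → ℝ} (h : ∀ t < k, EB x ρ (F t) b) :
    EB x ρ (fun z => ∑ t ∈ Finset.range k, F t z) (k * b) := by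
  induction k with
  | zero => simpa using EB.zero
  | succ k ih =>
    simp only [Finset.sum_range_succ, Nat.cast_succ, add_mul, one_mul]
    exact (ih fun t ht => h t (by omega)).add (h k (by omega))

lemma vol_ball {r : ℝ} (hr : 0 ≤ r) :
    volume (closedBall (0 : ℝ × ℝ) r) = ENNReal.ofReal (4 * r ^ 2) := by
  rw [show (0 : ℝ × ℝ) = (0, 0) from rfl, ← closedBall_prod_same, Measure.volume_eq_prod,
    Measure.prod_prod, Real.volume_closedBall, ← ENNReal.ofReal_mul (by positivity)]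
  congr 1; ring

lemma EB.of_inner (hf : Measurable f) (hb : 0 ≤ b) (h0 : 0 ≤ ρ) (h1 : ρ ≤ 1)
    (h : ∀ p' y, ‖p' - x‖ ≤ 3 * ρ →
      ∫⁻ θ in Tbox n, ENNReal.ofReal (f (p', θ, y)) ≤ ENNReal.ofReal b) : EB x ρ f (16 * b) := by
  refine ⟨hf, by positivity, fun p' hp => (lintegral_mono fun y => h p' y hp).trans ?_⟩
  rw [setLIntegral_const, vol_ball (by linarith), ← ENNReal.ofReal_mul hb]
  refine ENNReal.ofReal_le_ofReal ?_
  nlinarith [mul_le_mul_of_nonneg_left (show (1 + ρ) ^ 2 ≤ 4 by nlinarith) hb]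

lemma vol_T (h6 : GrazeStmt n) : volume (Tbox n) ≤ 1 := by
  rw [h6.2.2.1, ENNReal.ofReal_le_one]
  exact pow_le_one₀ (by norm_num) (by norm_num)

lemma EB.const (h6 : GrazeStmt n) (hb : 0 ≤ b) (h0 : 0 ≤ ρ) (h1 : ρ ≤ 1) :
    EB x ρ (fun _ => b) (16 * b) :=
  EB.of_inner measurable_const hb h0 h1 fun p' y _ => by
    rw [setLIntegral_const]
    exact mul_le_of_le_one_right' (vol_T h6)

lemma EB.ind {S : Set (Zs n)} (hS : MeasurableSet S) (hb : 0 ≤ b) (h0 : 0 ≤ ρ) (h1 : ρ ≤ 1)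
    (h : ∀ p' y, ‖p' - x‖ ≤ 3 * ρ →
      volume {θ ∈ Tbox n | (p', θ, y) ∈ S} ≤ ENNReal.ofReal b) :
    EB x ρ (S.indicator 1) (16 * b) := by
  refine EB.of_inner (measurable_one.indicator hS) hb h0 h1 fun p' y hp => le_trans ?_ (h p' y hp)
  have hm : MeasurableSet {θ : Dir n × Rn n | (p', θ, y) ∈ S} :=
    (by fun_prop : Measurable fun θ : Dir n × Rn n => ((p', θ, y) : Zs n)) hS
  have e : (fun θ : Dir n × Rn n => ENNReal.ofReal (S.indicator 1 (p', θ, y))) =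
      {θ : Dir n × Rn n | (p', θ, y) ∈ S}.indicator 1 := by
    ext θ
    by_cases hθ : (p', θ, y) ∈ S <;> simp [indicator, hθ]
  rw [e, lintegral_indicator_one hm, Measure.restrict_apply hm, inter_comm]
  exact le_rfl

lemma EB.frame (h6 : GrazeStmt n) {δ : ℝ} (h0 : 0 ≤ ρ) (h1 : ρ ≤ δ) (h2 : δ ≤ 1) :
    EB x ρ ({z : Zs n | 1 - δ < ‖z.2.2‖}.indicator 1) (24 * δ) := by
  have hS : MeasurableSet {z : Zs n | 1 - δ < ‖z.2.2‖} :=
    measurableSet_lt measurable_const (by fun_prop)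
  have hS' : MeasurableSet {y : ℝ × ℝ | 1 - δ < ‖y‖} :=
    measurableSet_lt measurable_const (by fun_prop)
  refine ⟨measurable_one.indicator hS, by linarith, fun p' _ => ?_⟩
  calc _ ≤ ∫⁻ y in closedBall (0 : ℝ × ℝ) (1 + ρ), {y : ℝ × ℝ | 1 - δ < ‖y‖}.indicator 1 y := by
        refine lintegral_mono fun y => ?_
        by_cases hy : 1 - δ < ‖y‖
        · simpa [indicator, hy] using vol_T h6
        · simp [indicator, hy]
    _ = volume (closedBall (0 : ℝ × ℝ) (1 + ρ) \ closedBall 0 (1 - δ)) := by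
        rw [lintegral_indicator_one hS', Measure.restrict_apply hS', inter_comm]
        congr 1; ext y; simp
    _ ≤ _ := by
        rw [measure_diff (closedBall_subset_closedBall (by linarith))
          measurableSet_closedBall.nullMeasurableSet measure_closedBall_lt_top.ne,
          vol_ball (by linarith), vol_ball (by linarith), ← ENNReal.ofReal_sub _ (by positivity)]
        refine ENNReal.ofReal_le_ofReal ?_
        nlinarith

lemma exp_le {a κ : ℝ} (ha : 0 < a) (hκ : 0 < κ) :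
    Real.exp (-(κ / a)) ≤ 3628800 * a ^ 10 / κ ^ 10 := by
  have h := Real.pow_div_factorial_le_exp (κ / a) (by positivity) 10
  rw [Real.exp_neg, inv_le_comm₀ (Real.exp_pos _) (by positivity)]
  refine le_trans (le_of_eq ?_) h
  simp only [Nat.factorial]
  field_simp
  norm_num

/-! ### Integrals over the level -/

/-- bound in mean over the level -/
def IB (ε T : ℝ) (f : ℝ → ℝ) (b : ℝ) : Prop := Continuous f ∧ ∫ c, pt ε T c * f c ≤ b

variable {ε T : ℝ}

lemma int_pt (h7 : PtStmt) (hε : 0 < ε) (hT : 0 < T) {f : ℝ → ℝ} (hf : Continuous f) :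
    Integrable fun c => pt ε T c * f c :=
  ((h7.1 ε T hε hT).1.mul hf).integrable_of_hasCompactSupport (h7.1 ε T hε hT).2.2.2.1.mul_right

lemma IB.le {f : ℝ → ℝ} (h : IB ε T f b) (hb : b ≤ b') : IB ε T f b' := ⟨h.1, h.2.trans hb⟩

lemma IB.add (h7 : PtStmt) (hε : 0 < ε) (hT : 0 < T) {f f' : ℝ → ℝ} (h : IB ε T f b)
    (h' : IB ε T f' b') : IB ε T (fun c => f c + f' c) (b + b') := by
  refine ⟨h.1.add h'.1, ?_⟩
  simp only [mul_add]
  rw [integral_add (int_pt h7 hε hT h.1) (int_pt h7 hε hT h'.1)]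
  exact add_le_add h.2 h'.2

lemma IB.const_mul {f : ℝ → ℝ} (h : IB ε T f b) {a : ℝ} (ha : 0 ≤ a) :
    IB ε T (fun c => a * f c) (a * b) := by
  refine ⟨continuous_const.mul h.1, ?_⟩
  simp only [mul_left_comm _ a]
  rw [integral_const_mul]
  exact mul_le_mul_of_nonneg_left h.2 ha

lemma IB.div_const {f : ℝ → ℝ} (h : IB ε T f b) {a : ℝ} (ha : 0 ≤ a) :
    IB ε T (fun c => f c / a) (b / a) := by
  simpa only [div_eq_inv_mul] using h.const_mul (inv_nonneg.2 ha)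

lemma IB.sum (h7 : PtStmt) (hε : 0 < ε) (hT : 0 < T) (k : ℕ) {F : ℕ → ℝ → ℝ} {B : ℕ → ℝ}
    (h : ∀ t < k, IB ε T (F t) (B t)) :
    IB ε T (fun c => ∑ t ∈ Finset.range k, F t c) (∑ t ∈ Finset.range k, B t) := by
  induction k with
  | zero => exact ⟨by simpa using continuous_const, by simp⟩
  | succ k ih =>
    simp only [Finset.sum_range_succ]
    exact (ih fun t ht => h t (by omega)).add h7 hε hT (h k (by omega))

lemma IB.const (h7 : PtStmt) (hε : 0 < ε) (hT : 0 < T) (hb : 0 ≤ b) : IB ε T (fun _ => b) b := by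
  refine ⟨continuous_const, ?_⟩
  rw [integral_mul_const]
  exact mul_le_of_le_one_left hb (h7.1 ε T hε hT).2.2.2.2.1

lemma IB.mono (h7 : PtStmt) (hε : 0 < ε) (hT : 0 < T) {f f' : ℝ → ℝ} (h : IB ε T f b)
    (hf : Continuous f') (hle : ∀ c, f' c ≤ f c) : IB ε T f' b :=
  ⟨hf, (integral_mono (int_pt h7 hε hT hf) (int_pt h7 hε hT h.1) fun c =>
    mul_le_mul_of_nonneg_left (hle c) ((h7.1 ε T hε hT).2.1 c)).trans h.2⟩

/-- second moment of the defect over the level -/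
def Yf (g : Cn n → Cn n) (x : Rn n) (η ε T r : ℝ) (z : Zs n) : ℝ :=
  ∫ c, pt ε T c * XV g (SS g (cx x) r) η (z.1 + r • z.2.1.1.1) z.2.1.2 c ^ 2

variable {g : Cn n → Cn n} {η : ℝ}

lemma Yf_nonneg (h7 : PtStmt) (hε : 0 < ε) (hT : 0 < T) (r : ℝ) (z : Zs n) :
    0 ≤ Yf g x η ε T r z :=
  integral_nonneg fun c => mul_nonneg ((h7.1 ε T hε hT).2.1 c) (sq_nonneg _)

lemma cont_XV' {X : Type} [TopologicalSpace X] (hg : Continuous g) (hη : 0 < η) (S : ℝ)
    {p ξ : X → Rn n} {c : X → ℝ} (hp : Continuous p) (hξ : Continuous ξ) (hc : Continuous c) :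
    Continuous fun z => XV g S η (p z) (ξ z) (c z) := by
  simpa only [Function.comp_def] using (continuous_XV hg S hη).comp (hp.prodMk (hξ.prodMk hc))

lemma cont_XV (hg : Continuous g) (hη : 0 < η) (S : ℝ) (p ξ : Rn n) :
    Continuous fun c => XV g S η p ξ c :=
  cont_XV' hg hη S continuous_const continuous_const continuous_id

lemma IB.XV (h7 : PtStmt) (hε : 0 < ε) (hT : 0 < T) (hg : Continuous g) (hη : 0 < η) (r : ℝ)
    (z : Zs n) {K D lam : ℝ} (hK : 0 ≤ K) (hD : 0 ≤ D) (hl : 0 < lam) :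
    IB ε T (fun c => K * (D + XV g (SS g (cx x) r) η (z.1 + r • z.2.1.1.1) z.2.1.2 c))
      (K * ((D + lam) + Yf g x η ε T r z / lam)) := by
  have h1 : IB ε T (fun c => LinN2.XV g (SS g (cx x) r) η (z.1 + r • z.2.1.1.1) z.2.1.2 c ^ 2)
      (Yf g x η ε T r z) := ⟨(cont_XV hg hη _ _ _).pow 2, le_rfl⟩
  refine IB.const_mul (IB.mono h7 hε hT ((IB.const h7 hε hT (b := D + lam) (by positivity)).add
    h7 hε hT (h1.div_const hl.le)) (continuous_const.add (cont_XV hg hη _ _ _)) fun c => ?_) hK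
  simp only [Pi.add_apply]
  generalize LinN2.XV g (SS g (cx x) r) η (z.1 + r • z.2.1.1.1) z.2.1.2 c = X
  have : X ≤ lam + X ^ 2 / lam := by
    rw [← sub_le_iff_le_add', le_div_iff₀ hl]
    nlinarith [sq_nonneg (X - lam), sq_nonneg X, sq_nonneg lam]
  linarith

lemma EB.Yf (h7 : PtStmt) (hε : 0 < ε) (hT : 0 < T) (hg : Continuous g) (hη : 0 < η) {r : ℝ}
    (hb : 0 ≤ b) (h0 : 0 ≤ ρ) (h1 : ρ ≤ 1)
    (h : ∀ p' (c : ℝ), ‖p' - x‖ ≤ 3 * ρ → ∫⁻ θ in Tbox n, ENNReal.ofReal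
      (XV g (SS g (cx x) r) η (p' + r • θ.1.1) θ.2 c) ^ 2 ≤ ENNReal.ofReal b) :
    EB x ρ (Yf g x η ε T r) (16 * b) := by
  have hp := h7.1 ε T hε hT
  have hc : Continuous fun q : Zs n × ℝ => pt ε T q.2 *
      XV g (SS g (cx x) r) η (q.1.1 + r • q.1.2.1.1.1) q.1.2.1.2 q.2 ^ 2 :=
    (hp.1.comp continuous_snd).mul ((cont_XV' hg hη _ (by fun_prop) (by fun_prop)
      continuous_snd).pow 2)
  refine EB.of_inner hc.stronglyMeasurable.integral_prod_right'.measurable hb h0 h1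
    fun p' y hp' => ?_
  have hm : Measurable fun q : (Dir n × Rn n) × ℝ => ENNReal.ofReal (pt ε T q.2 *
      XV g (SS g (cx x) r) η (p' + r • q.1.1.1) q.1.2 q.2 ^ 2) :=
    ((hp.1.comp continuous_snd).mul ((cont_XV' hg hη _ (by fun_prop) (by fun_prop)
      continuous_snd).pow 2)).measurable.ennreal_ofReal
  calc _ = ∫⁻ θ in Tbox n, ∫⁻ c, ENNReal.ofReal (pt ε T c *
        XV g (SS g (cx x) r) η (p' + r • θ.1.1) θ.2 c ^ 2) := by
        refine lintegral_congr fun θ => ?_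
        exact ofReal_integral_eq_lintegral_ofReal (int_pt h7 hε hT ((cont_XV hg hη _ _ _).pow 2))
          (ae_of_all _ fun c => mul_nonneg (hp.2.1 c) (sq_nonneg _))
    _ = ∫⁻ c, ∫⁻ θ in Tbox n, ENNReal.ofReal (pt ε T c *
        XV g (SS g (cx x) r) η (p' + r • θ.1.1) θ.2 c ^ 2) :=
        lintegral_lintegral_swap hm.aemeasurable
    _ ≤ ∫⁻ c, ENNReal.ofReal (pt ε T c) * ENNReal.ofReal b := by
        refine lintegral_mono fun c => ?_
        simp only [ENNReal.ofReal_mul (hp.2.1 c), lintegral_const_mul' _ _ ENNReal.ofReal_ne_top,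
          ENNReal.ofReal_pow (XV_nonneg _ _ _ _ _ _)]
        exact mul_le_mul_right (h p' c hp') _
    _ ≤ _ := by
        rw [lintegral_mul_const' _ _ ENNReal.ofReal_ne_top, ← ofReal_integral_eq_lintegral_ofReal
          (hp.1.integrable_of_hasCompactSupport hp.2.2.2.1) (ae_of_all _ hp.2.1)]
        exact mul_le_of_le_one_left' (ENNReal.ofReal_le_one.2 hp.2.2.2.2.1)

end

end ChainAux
end Pool.Agent.LinN2
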