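import Pool.Agent.Lib.MP_8465a2_an.N2.BasicB

/-!
Real zeros from the winding number on one circle (MP_8465a2_an).
-/

namespace Pool.Agent.LinN2

open MeasureTheory Metric Set Filter Topology Complex
open scoped ENNReal ComplexConjugate

noncomputable section

namespace Circ

/-- the identification of the plane with the complex line -/
def ee : ℝ × ℝ →L[ℝ] ℂ := Complex.equivRealProdCLM.symm.toContinuousLinearMap

lemma ee_apply (x y : ℝ) : ee (x, y) = x + y * I := by
  simp [ee, Complex.equivRealProdCLM_symm_apply]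

lemma hasF_dir {U : ℂ → ℝ} (hU : ContDiff ℝ 2 U) (v : ℂ) (z : ℂ) :
    HasFDerivAt (fun z => fderiv ℝ U z v) ((fderiv ℝ (fderiv ℝ U) z).flip v) z := by
  have h1 : DifferentiableAt ℝ (fderiv ℝ U) z :=
    ((hU.fderiv_right (m := 1) (by norm_num)).differentiable one_ne_zero) z
  simpa using h1.hasFDerivAt.clm_apply (hasFDerivAt_const v z)

/-- convexity of the circular means of a periodic subharmonic function -/
lemma convex_mean {U : ℂ → ℝ} (hU : ContDiff ℝ 2 U) (hp : Function.Periodic U (2 * Real.pi))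
    (hl : ∀ z, 0 ≤ lapd U z 1) {S : ℝ} (hS : 0 < S) :
    (∫ s in (-Real.pi)..Real.pi, U s) - ∫ s in (-Real.pi)..Real.pi, U (s + S * I) ≤
      S * ∫ s in (-Real.pi)..Real.pi, -fderiv ℝ U s I := by
  have hd : Differentiable ℝ U := hU.differentiable two_ne_zero
  have hc1 : ∀ v, Continuous fun z => fderiv ℝ U z v := fun v =>
    (hU.continuous_fderiv two_ne_zero).clm_apply continuous_const
  have hw : ∀ p : ℝ × ℝ, HasFDerivAt (fun p : ℝ × ℝ => S - p.2) (-ContinuousLinearMap.snd ℝ ℝ ℝ) p :=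
    fun p => hasFDerivAt_snd.const_sub S
  have hF := fun p : ℝ × ℝ => (hw p).mul ((hasF_dir hU 1 (ee p)).comp p ee.hasFDerivAt)
  have hG := fun p : ℝ × ℝ => ((hw p).mul ((hasF_dir hU I (ee p)).comp p ee.hasFDerivAt)).add
    ((hd (ee p)).hasFDerivAt.comp p ee.hasFDerivAt)
  have e1 : ee (1, 0) = 1 := by simp [ee_apply]
  have e2 : ee (0, 1) = I := by simp [ee_apply]
  have key := integral2_divergence_prod_of_hasFDerivAt _ _ _ _ (-Real.pi) 0 Real.pi S
    (fun p _ => (hF p).continuousAt.continuousWithinAt)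
    (fun p _ => (hG p).continuousAt.continuousWithinAt) (fun p _ => hF p) (fun p _ => hG p)
  have hdiv : ∀ p : ℝ × ℝ, ((S - p.2) • ((fderiv ℝ (fderiv ℝ U) (ee p)).flip 1).comp ee +
      ((fun z => fderiv ℝ U z 1) ∘ ee) p • -ContinuousLinearMap.snd ℝ ℝ ℝ) (1, 0) +
      ((S - p.2) • ((fderiv ℝ (fderiv ℝ U) (ee p)).flip I).comp ee +
      ((fun z => fderiv ℝ U z I) ∘ ee) p • -ContinuousLinearMap.snd ℝ ℝ ℝ +
      (fderiv ℝ U (ee p)).comp ee) (0, 1) = (S - p.2) * lapd U (ee p) 1 := by
    intro p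
    simp [e1, e2, lapd, dd]
    ring
  simp only [hdiv] at key
  have hcont : Continuous fun p : ℝ × ℝ => (S - p.2) * lapd U (ee p) 1 :=
    (continuous_const.sub continuous_snd).mul (continuous_lapd hU ee.continuous continuous_const)
  have key2 := key (hcont.continuousOn.integrableOn_compact (isCompact_uIcc.prod isCompact_uIcc))
  have hpos := le_of_le_of_eq
    (intervalIntegral.integral_nonneg (by linarith [Real.pi_pos]) fun x _ =>
      intervalIntegral.integral_nonneg hS.le fun y hy => le_of_le_of_eq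
        (mul_nonneg (by linarith [hy.2] : 0 ≤ S - y) (hl (ee (x, y)))) (hdiv (x, y)).symm) key2
  have hper : ∀ y : ℝ, fderiv ℝ U (ee (Real.pi, y)) = fderiv ℝ U (ee (-Real.pi, y)) := by
    intro y
    have h1 : ee (Real.pi, y) = ee (-Real.pi, y) + 2 * Real.pi := by
      simp [ee_apply]; ring
    rw [h1, ← fderiv_comp_add_right, funext hp]
  simp only [Pi.mul_apply, Pi.add_apply, Function.comp_apply, hper, add_sub_cancel_right] at hpos
  simp only [ee_apply, sub_self, zero_mul, zero_add, sub_zero, ofReal_zero, add_zero] at hpos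
  have i1 : IntervalIntegrable (fun s : ℝ => S * fderiv ℝ U s I) volume (-Real.pi) Real.pi :=
    (continuous_const.mul ((hc1 I).comp continuous_ofReal)).intervalIntegrable _ _
  have i2 : IntervalIntegrable (fun s : ℝ => U s) volume (-Real.pi) Real.pi :=
    (hU.continuous.comp continuous_ofReal).intervalIntegrable _ _
  rw [intervalIntegral.integral_add i1 i2, intervalIntegral.integral_const_mul] at hpos
  rw [intervalIntegral.integral_neg]
  linarith

lemma arctan_bound (t : ℝ) : |t / (1 + t ^ 2) + Real.arctan t| ≤ Real.pi / 2 := by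
  have pos : ∀ t : ℝ, 0 ≤ t → |t / (1 + t ^ 2) + Real.arctan t| ≤ Real.pi / 2 := by
    intro t ht
    have h0 : 0 ≤ Real.arctan t := Real.arctan_nonneg.2 ht
    have h1 : Real.arctan t < Real.pi / 2 := Real.arctan_lt_pi_div_two t
    have h2 := Real.sin_le (x := Real.pi / 2 - Real.arctan t) (by linarith)
    rw [Real.sin_pi_div_two_sub, Real.cos_arctan] at h2
    have h3 : 0 < √(1 + t ^ 2) := Real.sqrt_pos.2 (by positivity)
    have h4 : √(1 + t ^ 2) ^ 2 = 1 + t ^ 2 := Real.sq_sqrt (by positivity)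
    have h5 : t ≤ √(1 + t ^ 2) := Real.le_sqrt_of_sq_le (by linarith)
    have h6 : t / (1 + t ^ 2) ≤ 1 / √(1 + t ^ 2) := by
      rw [div_le_div_iff₀ (by positivity) h3]
      nlinarith
    rw [abs_of_nonneg (by positivity)]
    linarith
  rcases le_total 0 t with h | h
  · exact pos t h
  · have := pos (-t) (by linarith)
    rw [Real.arctan_neg, neg_sq, neg_div, ← neg_add, abs_neg] at this
    exact this

/-- the primitive along a curve -/
lemma hasDerivAt_G {x y : ℝ → ℝ} {x' y' s ε : ℝ} (hε : 0 < ε) (hx : HasDerivAt x x' s)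
    (hy : HasDerivAt y y' s) :
    HasDerivAt (fun s => x s / √(x s ^ 2 + ε ^ 2) * Real.arctan (y s / √(x s ^ 2 + ε ^ 2)))
      ((x s * y' - y s * x') / (x s ^ 2 + y s ^ 2 + ε ^ 2) + 2 * pe ε (x s) *
        ((y s / √(x s ^ 2 + ε ^ 2)) / (1 + (y s / √(x s ^ 2 + ε ^ 2)) ^ 2) +
          Real.arctan (y s / √(x s ^ 2 + ε ^ 2))) * x') s := by
  have hp : 0 < x s ^ 2 + ε ^ 2 := by positivity
  have hr : HasDerivAt (fun s => √(x s ^ 2 + ε ^ 2)) _ s :=
    ((hx.pow 2).add_const (ε ^ 2)).sqrt hp.ne'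
  have h3 : 0 < √(x s ^ 2 + ε ^ 2) := Real.sqrt_pos.2 hp
  have h4 : √(x s ^ 2 + ε ^ 2) ^ 2 = x s ^ 2 + ε ^ 2 := Real.sq_sqrt hp.le
  refine ((hx.div hr h3.ne').mul (hy.div hr h3.ne').arctan).congr_deriv ?_
  simp only [pe, Pi.div_apply, Pi.pow_apply]
  have h5 : x s ^ 2 + y s ^ 2 + ε ^ 2 = √(x s ^ 2 + ε ^ 2) ^ 2 + y s ^ 2 := by rw [h4]; ring
  have h6 : ε ^ 2 = √(x s ^ 2 + ε ^ 2) ^ 2 - x s ^ 2 := by rw [h4]; ring
  rw [h5]
  generalize √(x s ^ 2 + ε ^ 2) = r at *
  rw [h6]
  norm_num
  field_simp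
  ring

end Circ

open Circ in
theorem circ (h : LapStmt) : CircStmt := by
  intro f ε S hf hp hε hS
  obtain ⟨hU, hD, hL⟩ := (h ℂ ε hε).2 f hf.contDiff
  have hpU : Function.Periodic (U1 f ε) (2 * Real.pi) := fun z => by simp only [U1, hp z]
  have h1 := convex_mean hU hpU (fun z => by
    rw [hL]
    unfold wt
    positivity) hS
  rw [div_le_iff₀ hS]
  refine h1.trans ?_
  rw [mul_comm _ S]
  refine mul_le_mul_of_nonneg_left ?_ hS.le
  have hx : ∀ s : ℝ, HasDerivAt (fun s : ℝ => (f s).re) (deriv f s).re s := fun s =>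
    (hf s).hasDerivAt.real_of_complex
  have hy : ∀ s : ℝ, HasDerivAt (fun s : ℝ => (f s).im) (deriv f s).im s := fun s =>
    imCLM.hasFDerivAt.comp_hasDerivAt s (hf s).hasDerivAt.comp_ofReal
  have cf : Continuous fun s : ℝ => f s := hf.continuous.comp continuous_ofReal
  have cd : Continuous fun s : ℝ => deriv f s := hf.deriv.continuous.comp continuous_ofReal
  have cx : Continuous fun s : ℝ => (f s).re := continuous_re.comp cf
  have cy : Continuous fun s : ℝ => (f s).im := continuous_im.comp cf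
  have cx' : Continuous fun s : ℝ => (deriv f s).re := continuous_re.comp cd
  have cy' : Continuous fun s : ℝ => (deriv f s).im := continuous_im.comp cd
  have hsq : ∀ s : ℝ, 0 < √((f s).re ^ 2 + ε ^ 2) := fun s => Real.sqrt_pos.2 (by positivity)
  have csq : Continuous fun s : ℝ => √((f s).re ^ 2 + ε ^ 2) :=
    ((cx.pow 2).add continuous_const).sqrt
  have cpe : Continuous fun s : ℝ => pe ε (f s).re := by
    unfold pe
    exact continuous_const.div (continuous_const.mul (csq.pow 3))
      fun s => by have := hsq s; positivity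
  have ct : Continuous fun s : ℝ => (f s).im / √((f s).re ^ 2 + ε ^ 2) :=
    cy.div csq fun s => (hsq s).ne'
  have c1 : Continuous fun s : ℝ => ((f s).re * (deriv f s).im - (f s).im * (deriv f s).re) /
      ((f s).re ^ 2 + (f s).im ^ 2 + ε ^ 2) :=
    ((cx.mul cy').sub (cy.mul cx')).div (((cx.pow 2).add (cy.pow 2)).add continuous_const)
      fun s => by positivity
  have ct2 : Continuous fun s : ℝ => ((f s).im / √((f s).re ^ 2 + ε ^ 2)) /
      (1 + ((f s).im / √((f s).re ^ 2 + ε ^ 2)) ^ 2) :=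
    ct.div (continuous_const.add (ct.pow 2)) fun s => by positivity
  have c2 : Continuous fun s : ℝ => 2 * pe ε (f s).re *
      (((f s).im / √((f s).re ^ 2 + ε ^ 2)) / (1 + ((f s).im / √((f s).re ^ 2 + ε ^ 2)) ^ 2) +
        Real.arctan ((f s).im / √((f s).re ^ 2 + ε ^ 2))) * (deriv f s).re :=
    ((continuous_const.mul cpe).mul (ct2.add (Real.continuous_arctan.comp ct))).mul cx'
  have key := intervalIntegral.integral_eq_sub_of_hasDerivAt (a := -Real.pi) (b := Real.pi)
    (fun s _ => hasDerivAt_G hε (hx s) (hy s)) ((c1.add c2).intervalIntegrable _ _)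
  have hend : f (Real.pi : ℝ) = f ((-Real.pi : ℝ) : ℂ) := by
    rw [← hp ((-Real.pi : ℝ) : ℂ)]
    congr 1
    push_cast
    ring
  rw [hend, sub_self, intervalIntegral.integral_add (c1.intervalIntegrable _ _)
    (c2.intervalIntegrable _ _)] at key
  have e1 : ∀ s : ℝ, -fderiv ℝ (U1 f ε) s I =
      ((f s).re * (deriv f s).im - (f s).im * (deriv f s).re) /
      ((f s).re ^ 2 + (f s).im ^ 2 + ε ^ 2) := by
    intro s
    rw [hD, fderiv_eq_smul_deriv, Complex.sq_norm, Complex.normSq_apply, ← neg_div]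
    congr 1
    · simp
      ring
    · ring
  simp only [e1]
  rw [eq_neg_of_add_eq_zero_left key, ← intervalIntegral.integral_neg,
    ← intervalIntegral.integral_const_mul]
  refine intervalIntegral.integral_mono_on (by linarith [Real.pi_pos])
    (c2.neg.intervalIntegrable _ _)
    ((continuous_const.mul (cpe.mul cx'.abs)).intervalIntegrable _ _) fun s _ => ?_
  have h2 := arctan_bound ((f s).im / √((f s).re ^ 2 + ε ^ 2))
  have h3 : 0 ≤ pe ε (f s).re := by unfold pe; positivity
  refine (neg_le_abs _).trans ?_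
  rw [abs_mul, abs_mul, abs_of_nonneg (by positivity : 0 ≤ 2 * pe ε (f s).re)]
  calc _ ≤ 2 * pe ε (f s).re * (Real.pi / 2) * |(deriv f s).re| := by gcongr
    _ = _ := by ring

end

end Pool.Agent.LinN2
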