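import Pool.Agent.Lib.MP_8465a2_an.N2.BasicB

/-!
The covering theorem for polynomials (MP_8465a2_an).
-/

namespace Pool.Agent.LinN2

open Filter Finset

namespace Cover

variable {n : ℕ}

/-- the cell of scale `i` containing `x` -/
noncomputable def cell (A i : ℕ) (x : Rn n) : Fin n → ℤ := fun l => ⌊x l * (A : ℝ) ^ i⌋

lemma cell_nested {A : ℕ} (hA : 1 ≤ A) {i j : ℕ} {x x' : Rn n} (hij : i ≤ j)
    (h : cell A j x = cell A j x') : cell A i x = cell A i x' := by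
  have hA0 : (0 : ℝ) < A := by exact_mod_cast hA
  have key : ∀ y : Rn n, ∀ l, cell A i y l = cell A j y l / ((A ^ (j - i) : ℕ) : ℤ) := by
    intro y l
    have e : y l * (A : ℝ) ^ i = y l * (A : ℝ) ^ j / ((A ^ (j - i) : ℕ) : ℝ) := by
      obtain ⟨d, rfl⟩ := Nat.exists_eq_add_of_le hij
      rw [Nat.add_sub_cancel_left, pow_add]
      push_cast
      field_simp
    rw [cell, cell, e, Int.floor_div_natCast]
  funext l
  rw [key x l, key x' l, h]

lemma rj_mul {A : ℕ} (hA : 1 ≤ A) (i : ℕ) : rj A i * (A : ℝ) ^ i = 1 := by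
  have hA0 : (0 : ℝ) < A := by exact_mod_cast hA
  rw [rj, ← mul_pow, inv_mul_cancel₀ hA0.ne', one_pow]

/-- neighbouring cells -/
noncomputable def nb (w : Fin n → ℤ) : Finset (Fin n → ℤ) :=
  Fintype.piFinset fun l => Finset.Icc (w l - 1) (w l + 1)

lemma card_nb (w : Fin n → ℤ) : (nb w).card = 3 ^ n := by
  have : ∀ l, (Finset.Icc (w l - 1) (w l + 1)).card = 3 := fun l => by
    rw [Int.card_Icc]; omega
  simp only [nb, Fintype.card_piFinset, this, prod_const, card_univ, Fintype.card_fin]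

lemma cell_mem_nb {A : ℕ} (hA : 1 ≤ A) {i : ℕ} {x q : Rn n} (h : ‖x - q‖ ≤ rj A i / 2) :
    cell A i x ∈ nb (cell A i q) := by
  have hA0 : (0 : ℝ) < (A : ℝ) ^ i := by
    have : (0 : ℝ) < A := by exact_mod_cast hA
    positivity
  rw [nb, Fintype.mem_piFinset]
  intro l
  have h1 : |x l - q l| ≤ rj A i / 2 := (norm_le_pi_norm (x - q) l).trans h
  have h2 := rj_mul hA i
  obtain ⟨h3, h4⟩ := abs_le.1 h1
  have h5 : x l * (A : ℝ) ^ i ≤ q l * (A : ℝ) ^ i + 1 := by nlinarith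
  have h6 : q l * (A : ℝ) ^ i - 1 ≤ x l * (A : ℝ) ^ i := by nlinarith
  rw [Finset.mem_Icc, cell, cell, ← Int.floor_sub_one, ← Int.floor_add_one]
  exact ⟨Int.floor_le_floor h6, Int.floor_le_floor h5⟩

/-- a corner of a cell -/
noncomputable def corner (A i : ℕ) (w : Fin n → ℤ) : Rn n := fun l => w l * rj A i

lemma near_corner {A : ℕ} (hA : 1 ≤ A) (i : ℕ) (x : Rn n) :
    ‖x - corner A i (cell A i x)‖ ≤ rj A i := by
  have hr := rj_pos hA i
  refine (pi_norm_le_iff_of_nonneg hr.le).2 fun l => ?_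
  have h1 := Int.floor_le (x l * (A : ℝ) ^ i)
  have h2 := Int.lt_floor_add_one (x l * (A : ℝ) ^ i)
  have h3 := rj_mul hA i
  have e : x l = x l * (A : ℝ) ^ i * rj A i := by rw [mul_assoc, mul_comm _ (rj A i), h3, mul_one]
  rw [Pi.sub_apply, corner, cell, Real.norm_eq_abs, abs_le]
  constructor <;> nlinarith

/-- cells meeting the full points of one scale -/
lemma exists_cells {g : Cn n → Cn n} {A b : ℕ} {N C0 B0 r0 C : ℝ} (h5 : NetStmt) (hA : 2 ≤ A)
    (hg : Nor g N) (hPB : PB n C0 B0 0 r0 C) (i : ℕ) (hi : rj A i ≤ r0)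
    (hT : ∀ x, Full g A b x i → Tube g x (rj A i) (mu g A x i) (C0 * mu g A x i) B0) :
    ∃ W : Finset (Fin n → ℤ), rj A i ^ (n - 2) * W.card ≤ 3 ^ n * (4 * (C * N ^ 2)) ∧
      ∀ x : Rn n, ‖x‖ ≤ 1 → Full g A b x i → cell A i x ∈ W := by
  classical
  have hr := rj_pos (A := A) (by omega) i
  obtain ⟨F, hF1, hF2, hF3⟩ := h5.2 (Rn n) {x | ‖x‖ ≤ 1 ∧ Full g A b x i} 0 1 (rj A i / 2)
    (by positivity) (fun x hx => by simpa using hx.1)
  have hmu : ∀ x ∈ F, 1 / 2 ≤ mu g A x i := fun x hx => (hF1 x hx).2.1.half_le hg.diff hg.nz hA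
  have hP := hPB g N hg (rj A i) hr hi F (fun x => mu g A x i)
    ⟨fun x hx => ⟨(hF1 x hx).1, hmu x hx, hT x (hF1 x hx).2⟩, hF2⟩
  have h1 : (F.card : ℝ) * (rj A i ^ (n - 2) / 4) ≤ C * N ^ 2 := by
    refine le_trans ?_ hP
    rw [← nsmul_eq_mul]
    refine card_nsmul_le_sum _ _ _ fun x hx => ?_
    have := hmu x hx
    have h2 : (1 : ℝ) / 4 ≤ mu g A x i ^ 2 := by nlinarith
    have h3 : 0 ≤ rj A i ^ (n - 2) := by positivity
    nlinarith
  refine ⟨F.biUnion fun q => nb (cell A i q), ?_, fun x hx hf => ?_⟩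
  · have h2 : (F.biUnion fun q => nb (cell A i q)).card ≤ F.card * 3 ^ n :=
      card_biUnion_le_card_mul _ _ _ fun q _ => (card_nb _).le
    have h3 : ((F.biUnion fun q => nb (cell A i q)).card : ℝ) ≤ F.card * 3 ^ n := by
      exact_mod_cast h2
    have h4 : 0 ≤ rj A i ^ (n - 2) := by positivity
    have h6 : (0 : ℝ) ≤ 3 ^ n := by positivity
    calc _ ≤ rj A i ^ (n - 2) * (F.card * 3 ^ n) := by gcongr
      _ = 3 ^ n * (4 * (F.card * (rj A i ^ (n - 2) / 4))) := by ring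
      _ ≤ _ := by gcongr
  · obtain ⟨q, hq, hxq⟩ := hF3 x ⟨hx, hf⟩
    exact mem_biUnion.2 ⟨q, hq, cell_mem_nb (by omega) hxq⟩

open Classical in
/-- an active point outside the degenerate set has many full scales -/
lemma many_full {g : Cn n → Cn n} {A b J : ℕ} {N : ℝ} (h4 : NPStmt) (hA : 3 ≤ A) (hg : Nor g N)
    (hb : 1 ≤ b) (hJ : 32 * (2 * (b : ℝ) + 4 * b ^ 2 * Real.log (4 * N)) ≤ J) {x : Rn n}
    (hx : ‖x‖ ≤ 1) (ha : ∀ j ≤ 2 * J, Real.log A / 2 ≤ mj g A x j)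
    (hY : x ∉ Yset (fun x i => Pin g A b x i) (fun x i => Pin g A b x i ∧ ¬ Full g A b x i) J) :
    J / 2 ≤ ((Ico J (2 * J)).filter fun i => Full g A b x i).card := by
  have hl := one_le_log hA
  have hN := hg.one
  have h1 := h4 (mj g A x) 0 (2 * J) b (Real.log (4 * N)) (mj_anti hg.diff hg.nz (by omega) x) hb
    (Real.log_nonneg (by linarith)) (by linarith [ha (2 * J) le_rfl]) (by
      rw [Real.exp_log (by linarith)]
      have := hg.mj_le (A := A) (by omega) (x := x) (by linarith) 0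
      nlinarith [ha (2 * J) le_rfl])
  have h2 : ((range (2 * J)).filter fun i => ¬ Pin g A b x i).card ≤ ((Ico 0 (2 * J)).filter fun i =>
      ¬ (0 + b ≤ i ∧ i + b ≤ 2 * J ∧
        b * (mj g A x (i - b) - mj g A x (i + b)) ≤ mj g A x (i + b))).card := by
    refine card_le_card fun i hi => ?_
    rw [mem_filter] at hi ⊢
    refine ⟨by simpa using hi.1, fun h => hi.2 ⟨by omega, ha _ h.2.1, h.2.2⟩⟩
  have h3 : 32 * ((range (2 * J)).filter fun i => ¬ Pin g A b x i).card ≤ J := by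
    have h2' := (Nat.cast_le (α := ℝ)).2 h2
    have : (32 : ℝ) * ((range (2 * J)).filter fun i => ¬ Pin g A b x i).card ≤ J := by linarith
    exact_mod_cast this
  have h6 : 8 * ((range (2 * J)).filter fun i => Pin g A b x i ∧ ¬ Full g A b x i).card < J := by
    by_contra h
    refine hY ⟨by linarith, h3, ?_⟩
    refine (not_lt.1 h).trans (Nat.mul_le_mul_left _ (card_le_card fun i hi => ?_))
    simpa only [mem_filter] using hi
  have h7 : Ico J (2 * J) ⊆ ((Ico J (2 * J)).filter fun i => Full g A b x i) ∪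
      (((range (2 * J)).filter fun i => ¬ Pin g A b x i) ∪
        ((range (2 * J)).filter fun i => Pin g A b x i ∧ ¬ Full g A b x i)) := by
    intro i hi
    have hi' := mem_Ico.1 hi
    simp only [mem_union, mem_filter, mem_range]
    by_cases hf : Full g A b x i
    · exact Or.inl ⟨hi, hf⟩
    · by_cases hp : Pin g A b x i
      · exact Or.inr (Or.inr ⟨hi'.2, hp, hf⟩)
      · exact Or.inr (Or.inl ⟨hi'.2, hp⟩)
  have h8 := (card_le_card h7).trans ((card_union_le _ _).trans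
    (Nat.add_le_add_left (card_union_le _ _) _))
  rw [Nat.card_Ico] at h8
  omega

lemma sum_image_le {α : Type} (S : Finset α) (c : α → Rn n) {r : ℝ} (hr : 0 ≤ r) (k : ℕ) :
    ∃ F : Finset (Rn n × ℝ), (∀ q ∈ F, q.2 = r) ∧ ∑ q ∈ F, q.2 ^ k ≤ r ^ k * S.card ∧
      ∀ a ∈ S, (c a, r) ∈ F := by
  classical
  refine ⟨S.image fun a => (c a, r), fun q hq => ?_, ?_, fun a ha => mem_image_of_mem _ ha⟩
  · obtain ⟨a, _, rfl⟩ := mem_image.1 hq
    rfl
  · refine (sum_le_card_nsmul _ _ (r ^ k) fun q hq => ?_).trans ?_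
    · obtain ⟨a, _, rfl⟩ := mem_image.1 hq
      exact le_rfl
    · rw [nsmul_eq_mul, mul_comm]
      have : (((S.image fun a => (c a, r)).card : ℕ) : ℝ) ≤ S.card := by
        exact_mod_cast card_image_le
      gcongr

lemma sum_union_le' {α : Type} [DecidableEq α] (S T : Finset α) (f : α → ℝ)
    (h : ∀ a ∈ S, 0 ≤ f a) : ∑ a ∈ S ∪ T, f a ≤ ∑ a ∈ S, f a + ∑ a ∈ T, f a := by
  rw [← sum_union_inter]
  have : 0 ≤ ∑ a ∈ S ∩ T, f a := sum_nonneg fun a ha => h a (mem_inter.1 ha).1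
  linarith

lemma sum_biUnion_le' {α : Type} [DecidableEq α] (I : Finset ℕ) (S : ℕ → Finset α) (f : α → ℝ)
    (h : ∀ i, ∀ a ∈ S i, 0 ≤ f a) : ∑ a ∈ I.biUnion S, f a ≤ ∑ i ∈ I, ∑ a ∈ S i, f a := by
  induction I using Finset.induction_on with
  | empty => simp
  | insert i I hi ih =>
    rw [biUnion_insert, sum_insert hi]
    exact (sum_union_le' _ _ f (h i)).trans (by gcongr)

end Cover

open Cover in
theorem cover {n : ℕ} (hn : 3 ≤ n) (h1 : StrStmt n) (h2 : YStmt n) (h3 : BootStmt n)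
    (h4 : NPStmt) (h5 : NetStmt) (h6 : TreeStmt) : CoverStmt n := by
  classical
  obtain ⟨A0, hA0⟩ := h2
  obtain ⟨A, hA1, hA2⟩ : ∃ A, A0 ≤ A ∧ 100 * n ≤ A := ⟨max A0 (100 * n), le_max_left _ _,
    le_max_right _ _⟩
  have hY := hA0 A hA1
  obtain ⟨C0, C1, p, b0, hS⟩ := h1 A (by omega)
  obtain ⟨B0, r0, C, hB0, hr0, hC, hPB⟩ := h3 A C0 C1 p b0 hA2 hS hY
  obtain ⟨-, -, hb0, hS⟩ := hS
  obtain ⟨b, hb1, hb2⟩ : ∃ b : ℕ, b0 ≤ b ∧ C1 * B0 ^ p ≤ b := ⟨⌈C1 * B0 ^ p⌉₊ + b0, by omega, by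
    push_cast
    linarith [Nat.le_ceil (C1 * B0 ^ p), Nat.cast_nonneg (α := ℝ) b0]⟩
  refine ⟨A, 11 ^ n + 3 * (3 ^ n * (4 * C)), by omega, by positivity, fun N => ?_⟩
  have e1 : ∀ᶠ J : ℕ in atTop, 32 * (2 * (b : ℝ) + 4 * b ^ 2 * Real.log (4 * N)) ≤ J :=
    tendsto_natCast_atTop_atTop.eventually_ge_atTop _
  have e2 : ∀ᶠ J : ℕ in atTop, -Real.log r0 ≤ J :=
    tendsto_natCast_atTop_atTop.eventually_ge_atTop _
  filter_upwards [e1, e2, eventually_ge_atTop 2] with J hJ1 hJ2 hJ3 g hg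
  have hN := hg.one
  have hA' : 1 ≤ A := by omega
  have hrJ : rj A J ≤ r0 := (rj_le_exp (by omega) J).trans (by
    rw [← Real.exp_log hr0, Real.exp_le_exp]; linarith)
  obtain ⟨FY, hFY1, hFY2⟩ := hY (fun x i => Pin g A b x i)
    (fun x i => Pin g A b x i ∧ ¬ Full g A b x i)
    (fun x i hp => ((hS g hg.adm hg.nz b x i).2 hb1 hp).1)
    (fun x i hp => by
      obtain ⟨W, hW1, hW2⟩ := ((hS g hg.adm hg.nz b x i).2 hb1 hp.1).2 hp.2
      exact ⟨W, hW1, fun x' hx' => hW2 x' hx'.1⟩) J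
  have hW : ∀ i, ∃ W : Finset (Fin n → ℤ), J ≤ i →
      rj A i ^ (n - 2) * W.card ≤ 3 ^ n * (4 * (C * N ^ 2)) ∧
      ∀ x : Rn n, ‖x‖ ≤ 1 → Full g A b x i → cell A i x ∈ W := fun i => by
    by_cases hi : J ≤ i
    · obtain ⟨W, hW⟩ := exists_cells (b := b) h5 (by omega) hg hPB i ((rj_anti hA' hi).trans hrJ)
        fun x hf => (hS g hg.adm hg.nz b x i).1 B0 hB0 hb2 hf
      exact ⟨W, fun _ => hW⟩
    · exact ⟨∅, fun h => absurd h hi⟩
  choose W hW using hW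
  obtain ⟨W', hW1, hW2⟩ := h6 (Rn n) (Fin n → ℤ) (cell A) (Ico J (2 * J)) W
    (fun i => rj A i ^ (n - 2)) (J / 2) (by omega) (fun i j x x' hij h => cell_nested hA' hij h)
    (fun i => pow_nonneg (rj_pos hA' i).le _)
  have hK : (0 : ℝ) ≤ 3 ^ n * (4 * (C * N ^ 2)) := by positivity
  have s1 : ∑ i ∈ Ico J (2 * J), rj A i ^ (n - 2) * (W i).card ≤
      J * (3 ^ n * (4 * (C * N ^ 2))) := by
    refine (sum_le_card_nsmul _ _ _ fun i hi => (hW i (mem_Ico.1 hi).1).1).trans ?_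
    rw [Nat.card_Ico, nsmul_eq_mul, show 2 * J - J = J by omega]
  have s2 : ∑ i ∈ Ico J (2 * J), rj A i ^ (n - 2) * (W' i).card ≤
      3 * (3 ^ n * (4 * (C * N ^ 2))) := by
    have t1 : (0 : ℝ) < ((J / 2 : ℕ) : ℝ) := by exact_mod_cast (by omega : 0 < J / 2)
    have t2 : (J : ℝ) ≤ 3 * ((J / 2 : ℕ) : ℝ) := by exact_mod_cast (by omega : J ≤ 3 * (J / 2))
    refine le_of_mul_le_mul_left (hW2.trans (s1.trans ?_)) t1
    nlinarith
  obtain ⟨F0, hF1, hF2, hF3⟩ := sum_image_le FY id (rj_pos hA' (2 * J)).le (n - 2)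
  have hG := fun i => sum_image_le (W' i) (corner A i) (rj_pos hA' i).le (n - 2)
  choose G hG1 hG2 hG3 using hG
  refine ⟨F0 ∪ (Ico J (2 * J)).biUnion G, fun q hq => ?_, ?_, fun x hx ha => ?_⟩
  · rcases mem_union.1 hq with h | h
    · rw [hF1 q h]
      exact ⟨rj_pos hA' _, rj_anti hA' (by omega)⟩
    · obtain ⟨i, hi, h⟩ := mem_biUnion.1 h
      rw [hG1 i q h]
      exact ⟨rj_pos hA' _, rj_anti hA' (mem_Ico.1 hi).1⟩
  · refine (sum_union_le' _ _ _ fun q hq => by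
      rw [hF1 q hq]; exact pow_nonneg (rj_pos hA' _).le _).trans ?_
    have t1 := (sum_biUnion_le' (Ico J (2 * J)) G (fun q => q.2 ^ (n - 2)) fun i q hq => by
      rw [hG1 i q hq]; exact pow_nonneg (rj_pos hA' _).le _).trans
      ((sum_le_sum fun i _ => hG2 i).trans s2)
    have t2 : Real.exp (-(J : ℝ)) ≤ N ^ 2 :=
      (Real.exp_le_one_iff.2 (by simp)).trans (by nlinarith)
    have t3 : (11 : ℝ) ^ n * Real.exp (-(J : ℝ)) ≤ 11 ^ n * N ^ 2 := by gcongr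
    nlinarith
  · by_cases hxY : x ∈ Yset (fun x i => Pin g A b x i)
      (fun x i => Pin g A b x i ∧ ¬ Full g A b x i) J
    · obtain ⟨c, hc, h⟩ := hFY1 x hxY
      exact ⟨(c, rj A (2 * J)), mem_union_left _ (hF3 c hc), h⟩
    · have t1 := many_full h4 (by omega) hg (by omega) hJ1 hx ha hxY
      obtain ⟨i, hi, h⟩ := hW1 x (t1.trans (card_le_card fun i hi => by
        simp only [mem_filter] at hi ⊢
        exact ⟨hi.1, (hW i (mem_Ico.1 hi.1).1).2 x hx hi.2⟩))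
      exact ⟨(corner A i (cell A i x), rj A i),
        mem_union_right _ (mem_biUnion.2 ⟨i, hi, hG3 i _ h⟩), near_corner hA' i x⟩

end Pool.Agent.LinN2
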