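import Pool.Agent.Lib.MP_8465a2_an.N2.BasicB

/-!
Decomposition of the depth into trivial, degenerate and chain contributions (MP_8465a2_an).
-/

namespace Pool.Agent.LinN2

open MeasureTheory Metric Set Filter Topology Complex
open scoped ENNReal ComplexConjugate

noncomputable section

namespace DecAux

/-- dyadic condensation -/
lemma dyadic (f : ℕ → ℝ) (hf : Antitone f) (k0 K : ℕ) (hK : k0 ≤ K) :
    ∑ j ∈ Finset.range (2 ^ (K + 1)), f j ≤
      ∑ j ∈ Finset.range (2 ^ (k0 + 1)), f j + ∑ k ∈ Finset.Ioc k0 K, 2 ^ k * f (2 ^ k) := by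
  induction K, hK using Nat.le_induction with
  | base => simp
  | succ K hK ih =>
    rw [Finset.sum_Ioc_succ_top hK, ← Finset.sum_range_add_sum_Ico f
      (Nat.pow_le_pow_right two_pos (Nat.le_succ (K + 1)))]
    have h1 : ∑ j ∈ Finset.Ico (2 ^ (K + 1)) (2 ^ (K + 1 + 1)), f j ≤
        2 ^ (K + 1) * f (2 ^ (K + 1)) := by
      have := Finset.sum_le_card_nsmul (Finset.Ico (2 ^ (K + 1)) (2 ^ (K + 1 + 1))) f
        (f (2 ^ (K + 1))) fun j hj => hf (Finset.mem_Ico.1 hj).1
      rw [Nat.card_Ico, show 2 ^ (K + 1 + 1) - 2 ^ (K + 1) = 2 ^ (K + 1) by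
        rw [pow_succ 2 (K + 1)]; omega, nsmul_eq_mul] at this
      exact_mod_cast this
    linarith

/-- summation of the recursion -/
lemma recsum (a e : ℕ → ℝ) (m : ℝ) (k0 K : ℕ) (hK : k0 ≤ K)
    (h : ∀ k ∈ Finset.Ioc k0 K, a k ≤ a (k - 1) / 2 + m / 2 ^ k + e k) :
    ∑ k ∈ Finset.Ioc k0 K, a k + a K + 2 * m / 2 ^ K ≤
      a k0 + 2 * m / 2 ^ k0 + 2 * ∑ k ∈ Finset.Ioc k0 K, e k := by
  induction K, hK using Nat.le_induction with
  | base => simp
  | succ K hK ih =>
    have h1 := ih fun k hk => h k (Finset.Ioc_subset_Ioc_right (Nat.le_succ K) hk)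
    have h2 := h (K + 1) (Finset.mem_Ioc.2 ⟨by omega, le_rfl⟩)
    rw [Finset.sum_Ioc_succ_top hK, Finset.sum_Ioc_succ_top hK]
    rw [Nat.add_sub_cancel] at h2
    have h3 : 2 * m / 2 ^ K = 4 * (m / 2 ^ (K + 1)) := by rw [pow_succ]; field_simp; ring
    have h4 : 2 * m / 2 ^ (K + 1) = 2 * (m / 2 ^ (K + 1)) := by ring
    linarith

variable {n : ℕ} {g : Cn n → Cn n} {A : ℕ}

open Classical in
/-- drop of the height at active scales -/
def ma (g : Cn n → Cn n) (A : ℕ) (x : Rn n) (j : ℕ) : ℝ :=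
  if Real.log A / 2 ≤ mj g A x j then mj g A x j else 0

lemma ma_nonneg (hg : Differentiable ℂ g) (h0 : NZ g) (hA : 1 ≤ A) (x : Rn n) (j : ℕ) :
    0 ≤ ma g A x j := by
  unfold ma; split_ifs
  · exact mj_nonneg hg h0 hA x j
  · exact le_rfl

lemma ma_le (hg : Differentiable ℂ g) (h0 : NZ g) (hA : 1 ≤ A) (x : Rn n) (j : ℕ) :
    ma g A x j ≤ mj g A x j := by
  unfold ma; split_ifs
  · exact le_rfl
  · exact mj_nonneg hg h0 hA x j

lemma ma_eq {x : Rn n} {j : ℕ} (h : Real.log A / 2 ≤ mj g A x j) : ma g A x j = mj g A x j :=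
  if_pos h

lemma ma_anti (hg : Differentiable ℂ g) (h0 : NZ g) (hA : 2 ≤ A) (x : Rn n) :
    Antitone (ma g A x) := by
  intro i j hij
  by_cases h : Real.log A / 2 ≤ mj g A x j
  · rw [ma_eq h, ma_eq (h.trans (mj_anti hg h0 hA x hij))]
    exact mj_anti hg h0 hA x hij
  · have : ma g A x j = 0 := if_neg h
    rw [this]
    exact ma_nonneg hg h0 (by omega) x i

lemma tele (x : Rn n) (J : ℕ) :
    hj g A x J = hj g A x 0 - ∑ j ∈ Finset.range J, mj g A x j := by
  induction J with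
  | zero => simp
  | succ J ih => rw [Finset.sum_range_succ, mj]; linarith

/-- the depth is paid by the active scales -/
lemma depth (hg : Differentiable ℂ g) (h0 : NZ g) (hA : 16 ≤ A) (x : Rn n) (J : ℕ) {s : ℝ}
    (hs : rj A J ≤ s) : -Real.log (SS g (cx x) s) ≤
      -hj g A x 0 + ∑ j ∈ Finset.range J, ma g A x j + (1 + Real.log A / 2) := by
  have hl : 0 ≤ Real.log A := Real.log_natCast_nonneg A
  have hs0 : 0 < s := (rj_pos (by omega) J).trans_le hs
  by_cases hall : ∀ j < J, Real.log A / 2 ≤ mj g A x j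
  · have h1 : ∑ j ∈ Finset.range J, ma g A x j = ∑ j ∈ Finset.range J, mj g A x j :=
      Finset.sum_congr rfl fun j hj => ma_eq (hall j (Finset.mem_range.1 hj))
    have h2 : hj g A x J ≤ Real.log (SS g (cx x) s) :=
      Real.log_le_log (SS_pos hg h0 _ (rj_pos (by omega) J)) (SS_mono' hg.continuous _ hs)
    rw [h1]
    linarith [tele (g := g) (A := A) x J]
  · classical
    have hex : ∃ j, j < J ∧ mj g A x j < Real.log A / 2 := by
      by_contra hc
      exact hall fun j hj => not_lt.1 fun h => hc ⟨j, hj, h⟩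
    obtain ⟨hj0, hm0⟩ := Nat.find_spec hex
    have hmin : ∀ j < Nat.find hex, Real.log A / 2 ≤ mj g A x j := fun j hj =>
      not_lt.1 fun h => Nat.find_min hex hj ⟨hj.trans hj0, h⟩
    generalize Nat.find hex = j0 at hj0 hm0 hmin
    have h1 : ∑ j ∈ Finset.range j0, mj g A x j ≤ ∑ j ∈ Finset.range J, ma g A x j := by
      rw [← Finset.sum_congr rfl fun j hj => ma_eq (hmin j (Finset.mem_range.1 hj))]
      exact Finset.sum_le_sum_of_subset_of_nonneg (Finset.range_subset_range.2 hj0.le)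
        fun j _ _ => ma_nonneg hg h0 (by omega) x j
    have h2 := inactive hg h0 hA hm0
    have h3 : ‖g (cx x)‖ ≤ SS g (cx x) s := le_SS hg.continuous (by simpa using hs0.le)
    have h4 := SS_pos hg h0 (cx x) (rj_pos (show 1 ≤ A by omega) (j0 + 1))
    have h5 : Real.log (SS g (cx x) (rj A (j0 + 1)) / 2) ≤ Real.log (SS g (cx x) s) :=
      Real.log_le_log (by positivity) (h2.trans h3)
    rw [Real.log_div h4.ne' two_ne_zero] at h5
    have h6 : Real.log 2 ≤ 1 := by
      have := Real.log_le_sub_one_of_pos (two_pos : (0 : ℝ) < 2); linarith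
    have h7 := tele (g := g) (A := A) x j0
    have h8 : mj g A x j0 = hj g A x j0 - Real.log (SS g (cx x) (rj A (j0 + 1))) := rfl
    linarith

/-- the order at a nearby point -/
lemma near (hg : Differentiable ℂ g) (h0 : NZ g) (hA : 16 ≤ A) {x q : Rn n} {J : ℕ}
    (h : ‖x - q‖ ≤ rj A (J + 1) / 2) : mu g A x (J + 1) ≤ 2 * mu g A q J := by
  have hA1 : 1 ≤ A := by omega
  have hl2 : 0 < Real.log 2 := Real.log_pos one_lt_two
  have hl : 4 * Real.log 2 ≤ Real.log A := by
    have : Real.log ((2 : ℝ) ^ 4) ≤ Real.log A :=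
      Real.log_le_log (by positivity) (by norm_num; exact_mod_cast hA)
    rwa [Real.log_pow] at this
  have p0 := rj_pos hA1 J
  have p1 := rj_pos hA1 (J + 1)
  have p2 : rj A (J + 1) ≤ rj A J := rj_anti hA1 (Nat.le_succ J)
  have a1 : Real.log (SS g (cx x) (rj A J / 2)) ≤ hj g A q J :=
    Real.log_le_log (SS_pos hg h0 _ (by positivity))
      (SS_mono hg.continuous (by rw [norm_cx_sub]; linarith))
  have a2 : hj g A q (J + 1) ≤ Real.log (SS g (cx x) (2 * rj A (J + 1))) :=
    Real.log_le_log (SS_pos hg h0 _ p1)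
      (SS_mono hg.continuous (by rw [norm_cx_sub, norm_sub_rev]; linarith))
  rw [← HH_log g _ (by positivity)] at a1 a2
  rw [Real.log_div p0.ne' two_ne_zero, log_rj] at a1
  rw [Real.log_mul two_ne_zero p1.ne', log_rj] at a2
  have a3 := mu_le_HH hg h0 (show 2 ≤ A by omega) x (J + 1)
    (a := Real.log 2 + -((J + 1 : ℕ) * Real.log A))
    (b := -(J * Real.log A) - Real.log 2) (by push_cast; linarith) (by push_cast; linarith)
    (by push_cast; linarith)
  have a4 : mj g A q J = hj g A q J - hj g A q (J + 1) := rfl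
  have a5 := mj_eq (show 2 ≤ A by omega) g q J
  have a6 : 0 ≤ mu g A x (J + 1) :=
    div_nonneg (mj_nonneg hg h0 hA1 x _) (Real.log_natCast_nonneg A)
  have a7 : -(J * Real.log A) - Real.log 2 - (Real.log 2 + -((J + 1 : ℕ) * Real.log A)) =
      Real.log A - 2 * Real.log 2 := by push_cast; ring
  rw [a7] at a3
  have a8 : mu g A x (J + 1) * (Real.log A / 2) ≤ mu g A q J * Real.log A := by
    have := mul_le_mul_of_nonneg_left (show Real.log A / 2 ≤ Real.log A - 2 * Real.log 2 by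
      linarith) a6
    linarith
  have a9 : 0 < Real.log A := by linarith
  nlinarith

lemma Near_mono {i d : ℕ} {P Q : Rn n → Prop} {x : Rn n} (h : Near A i d P x)
    (hQ : ∀ y, Q y → P y) : Near A i d Q x := by
  obtain ⟨W, h1, h2⟩ := h
  exact ⟨W, h1, fun y hy => h2 y (hQ y hy)⟩

lemma pow_ev : ∀ᶠ k : ℕ in atTop, (k : ℝ) ^ 6 ≤ 2 ^ k / 2 := by
  have h := tendsto_pow_const_div_const_pow_of_one_lt 6 (one_lt_two : (1 : ℝ) < 2)
  filter_upwards [h.eventually (gt_mem_nhds (show (0 : ℝ) < 1 / 2 by norm_num))] with k hk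
  rw [div_lt_iff₀ (by positivity)] at hk
  linarith

lemma pw {k : ℕ} (hk : 2 ≤ k) : 2 ^ k = 4 * 2 ^ (k - 2) ∧ 2 ^ (k - 1) = 2 * 2 ^ (k - 2) ∧
    k ≤ 2 * 2 ^ (k - 2) := by
  obtain ⟨l, rfl⟩ := Nat.exists_eq_add_of_le' hk
  refine ⟨by simp [pow_add]; ring, by simp [pow_succ]; ring, ?_⟩
  have := Nat.lt_two_pow_self (n := l)
  simp only [Nat.add_sub_cancel]
  omega

end DecAux

open DecAux

variable {n : ℕ}

theorem dec (hn : 3 ≤ n) (h1 : HeavyStmt n) (h2 : NetStmt) : DecStmt n := by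
  classical
  intro A C0 C1 p b0 hA hS hY
  have hA16 : 16 ≤ A := by omega
  have hA1 : 1 ≤ A := by omega
  have hA2 : 2 ≤ A := by omega
  have hl : 1 ≤ Real.log A := one_le_log (by omega)
  have h11 : (1 : ℝ) ≤ 11 ^ n := one_le_pow₀ (by norm_num)
  refine ⟨128 * Real.log A + 11 ^ n, by linarith, fun B0 κ0 hB0 => ?_⟩
  obtain ⟨b, hb, hev⟩ := h1 A C0 C1 p b0 hA hS B0 hB0
  have hev2 := (hev.and (pow_ev.and ((tendsto_natCast_atTop_atTop (R := ℝ)).eventually_ge_atTop
    κ0))).and (eventually_ge_atTop 2)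
  obtain ⟨k1, hk1⟩ := eventually_atTop.1 hev2
  filter_upwards [eventually_ge_atTop k1] with k0 hk0 g N r hN hr0 hr1
  have hg := hN.diff
  have h0 := hN.nz
  have hN1 := hN.one
  -- the last scale
  have hex : ∃ j, rj A (j + 1) < r := by
    obtain ⟨j, hj⟩ := exists_pow_lt_of_lt_one hr0 (show ((A : ℝ)⁻¹) < 1 from
      inv_lt_one_of_one_lt₀ (by exact_mod_cast hA2))
    exact ⟨j, (rj_anti hA1 (Nat.le_succ j)).trans_lt hj⟩
  obtain ⟨js, hjs1, hjs2⟩ : ∃ js, rj A (js + 1) < r ∧ r ≤ rj A js := by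
    refine ⟨Nat.find hex, Nat.find_spec hex, ?_⟩
    rcases h : Nat.find hex with _ | j
    · simpa using hr1
    · exact not_lt.1 (Nat.find_min hex (by omega))
  set K := max k0 (Nat.log 2 js) with hK
  have hKS : ∀ k ∈ Finset.Ioc k0 K, k0 < k ∧ k1 ≤ k ∧ 2 ^ k ≤ js := by
    intro k hk
    obtain ⟨a1, a2⟩ := Finset.mem_Ioc.1 hk
    have a3 : k ≤ Nat.log 2 js := by omega
    refine ⟨a1, by omega, ?_⟩
    refine (Nat.pow_le_pow_right two_pos a3).trans (Nat.pow_log_le_self 2 ?_)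
    rintro rfl
    simp at a3
    omega
  have hJK : js + 1 ≤ 2 ^ (K + 1) :=
    (Nat.lt_pow_succ_log_self one_lt_two js).trans_le
      (Nat.pow_le_pow_right two_pos (by omega))
  -- the covers
  have hYk := fun k : ℕ => hY (fun x i => Pin g A b0 x i)
    (fun x i => Pin g A (b k) x i ∧ ¬ Full g A (b k) x i)
    (fun x i hx => ((hS.2.2.2 g hN.adm h0 b0 x i).2 le_rfl hx).1)
    (fun x i hx => Near_mono (((hS.2.2.2 g hN.adm h0 (b k) x i).2 (hb k) hx.1).2 hx.2)
      fun _ hy => hy.1) (2 ^ (k - 1))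
  choose FY hFY1 hFY2 using hYk
  have hQk := fun k i : ℕ => h2.2 (Rn n) {x | ‖x‖ ≤ 5 ∧ 1 / 2 ≤ mu g A x i ∧
      mu g A x (2 ^ (k - 1)) ≤ 4 * mu g A x i ∧
      Tube g x (rj A i) (mu g A x i) (C0 * mu g A x i) B0 ∧
      Chain g C0 x (rj A i) (mu g A x i) k (2 ^ k / 2)} 0 5 (rj A i / 2)
    (half_pos (rj_pos hA1 i)) fun x hx => by simpa using hx.1
  choose FQ hFQ1 hFQ2 hFQ3 using hQk
  refine ⟨Finset.Ioc k0 K, FY, fun k => rj A (2 * 2 ^ (k - 1)),
    fun k => Finset.Ico (3 * 2 ^ (k - 2)) (2 ^ k), rj A, FQ, fun i x => mu g A x i,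
    ?_, ?_, ?_, ?_⟩
  · intro k hk
    obtain ⟨a1, a2, -⟩ := hKS k hk
    obtain ⟨⟨-, a3, a4⟩, -⟩ := hk1 k a2
    exact ⟨a1, a4, a3, by simp⟩
  · intro k hk
    obtain ⟨-, a2, -⟩ := hKS k hk
    obtain ⟨-, a5⟩ := hk1 k a2
    refine ⟨rj_pos hA1 _, ?_, (hFY2 k).trans ?_⟩
    · refine (rj_anti hA1 (show 1 ≤ 2 * 2 ^ (k - 1) by
        have := Nat.one_le_two_pow (n := k - 1); omega)).trans ?_
      rw [rj, pow_one, ← one_div]
      exact one_div_le_one_div_of_le (by norm_num) (by exact_mod_cast (show 4 ≤ A by omega))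
    · have a6 : ((2 ^ (k - 1) : ℕ) : ℝ) = 2 ^ k / 2 := by
        obtain ⟨l, rfl⟩ := Nat.exists_eq_add_of_le' (show 1 ≤ k by omega)
        simp [pow_succ]
      rw [a6]
      exact mul_le_mul_of_nonneg_right (by linarith) (Real.exp_nonneg _)
  · intro k hk i hi
    obtain ⟨-, a2, a3⟩ := hKS k hk
    obtain ⟨-, a5⟩ := hk1 k a2
    obtain ⟨i1, i2⟩ := Finset.mem_Ico.1 hi
    obtain ⟨-, -, w3⟩ := pw a5
    refine ⟨hjs2.trans (rj_anti hA1 (by omega)), ?_, ⟨fun x hx => ?_, hFQ2 k i⟩,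
      fun x hx => (hFQ1 k i x hx).2.2.2.2⟩
    · refine (rj_anti hA1 (show k ≤ i by omega)).trans ((rj_le_exp (by omega) k).trans ?_)
      rw [Real.exp_neg, one_div]
      exact inv_anti₀ (by positivity) (Real.add_one_le_exp _)
    · obtain ⟨c1, c2, -, c4, -⟩ := hFQ1 k i x hx
      exact ⟨c1, c2, c4⟩
  · intro x hx
    have key : ∀ Y Q : ℕ → ℝ, (∀ k, 0 ≤ Y k) → (∀ k, 0 ≤ Q k) →
        (∀ k, (∃ c ∈ FY k, ‖x - c‖ ≤ rj A (2 * 2 ^ (k - 1))) → Y k = 2 ^ k) →
        (∀ k (I : Finset ℕ) (t : ℝ), I ⊆ Finset.Ico (3 * 2 ^ (k - 2)) (2 ^ k) →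
          (∀ i ∈ I, ∃ q ∈ FQ k i, ‖x - q‖ ≤ rj A i / 2 ∧ t ≤ mu g A q i) → I.card * t ≤ Q k) →
        -Real.log (SS g (cx x) r) ≤ (128 * Real.log A + 11 ^ n) * (2 ^ k0 * N +
          N * ∑ k ∈ Finset.Ioc k0 K, Y k + ∑ k ∈ Finset.Ioc k0 K, Q k) := by
      intro Y Q hY0 hQ0 hY1 hQ1
      have hm := fun j => hN.mj_le hA2 hx j
      have hm0 := mj_nonneg hg h0 hA1 x
      have ha0 := ma_nonneg hg h0 hA1 x
      have hal := ma_le hg h0 hA1 x
      have d1 := depth hg h0 hA16 x (js + 1) hjs1.le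
      have d2 : ∑ j ∈ Finset.range (js + 1), ma g A x j ≤
          ∑ j ∈ Finset.range (2 ^ (K + 1)), ma g A x j :=
        Finset.sum_le_sum_of_subset_of_nonneg (Finset.range_subset_range.2 hJK)
          fun j _ _ => ha0 j
      have d3 := dyadic _ (ma_anti hg h0 hA2 x) k0 K (le_max_left _ _)
      have d4 : ∑ j ∈ Finset.range (2 ^ (k0 + 1)), ma g A x j ≤
          2 * 2 ^ k0 * (2 * N * Real.log A) := by
        have := Finset.sum_le_card_nsmul (Finset.range (2 ^ (k0 + 1))) (ma g A x)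
          (2 * N * Real.log A) fun j _ => (hal j).trans (hm j)
        rw [Finset.card_range, nsmul_eq_mul] at this
        push_cast at this
        rw [pow_succ (2 : ℝ)] at this
        linarith
      have d5 : -hj g A x 0 ≤ 5 * N := by
        have := hN.log_ge hx one_pos (by norm_num)
        rw [Real.log_one] at this
        rw [hj, rj_zero]
        linarith
      have d6 := recsum (fun k => 2 ^ k * ma g A x (2 ^ k))
        (fun k => 2 * N * Real.log A * Y k + 64 * Real.log A * Q k) (mj g A x 0) k0 K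
        (le_max_left _ _) (by
          intro k hk
          obtain ⟨-, a2, -⟩ := hKS k hk
          obtain ⟨⟨a3, -⟩, a5⟩ := hk1 k a2
          obtain ⟨w1, w2, -⟩ := pw a5
          have e1 : 0 ≤ 2 ^ (k - 1) * ma g A x (2 ^ (k - 1)) / 2 := by
            have := ha0 (2 ^ (k - 1)); positivity
          have e2 : 0 ≤ mj g A x 0 / 2 ^ k := by have := hm0 0; positivity
          have e3 : 0 ≤ 2 * N * Real.log A * Y k := by have := hY0 k; positivity
          have e4 : 0 ≤ 64 * Real.log A * Q k := by have := hQ0 k; positivity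
          have p2 : (0 : ℝ) < 2 ^ k := by positivity
          by_cases c1 : Real.log A / 2 ≤ mj g A x (2 ^ k)
          swap
          · have : ma g A x (2 ^ k) = 0 := if_neg c1
            simp only [this, mul_zero]
            linarith
          simp only [ma_eq c1]
          by_cases c2 : mj g A x (2 ^ (k - 1)) ≤ 4 * mj g A x (2 ^ k)
          swap
          · have e5 : ma g A x (2 ^ (k - 1)) = mj g A x (2 ^ (k - 1)) :=
              ma_eq (c1.trans (mj_anti hg h0 hA2 x (by omega)))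
            have e6 : (2 : ℝ) ^ k = 2 * 2 ^ (k - 1) := by
              have : 2 ^ k = 2 * 2 ^ (k - 1) := by omega
              exact_mod_cast this
            have e7 : 2 ^ k * mj g A x (2 ^ k) ≤ 2 ^ (k - 1) * ma g A x (2 ^ (k - 1)) / 2 := by
              rw [e5]
              have p3 : (0 : ℝ) < 2 ^ (k - 1) := by positivity
              nlinarith [not_le.1 c2]
            linarith
          by_cases c3 : mj g A x 0 ≤ 4 ^ k * mj g A x (2 ^ k)
          swap
          · have e7 : 2 ^ k * mj g A x (2 ^ k) ≤ mj g A x 0 / 2 ^ k := by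
              rw [le_div_iff₀ p2]
              have : (4 : ℝ) ^ k = 2 ^ k * 2 ^ k := by rw [← mul_pow]; norm_num
              nlinarith [not_le.1 c3]
            linarith
          by_cases c4 : x ∈ Yset (fun x i => Pin g A b0 x i)
            (fun x i => Pin g A (b k) x i ∧ ¬ Full g A (b k) x i) (2 ^ (k - 1))
          · have e7 : 2 ^ k * mj g A x (2 ^ k) ≤ 2 * N * Real.log A * Y k := by
              rw [hY1 k (hFY1 k x c4)]
              nlinarith [hm (2 ^ k)]
            linarith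
          obtain ⟨I, i1, i2, i3⟩ := a3 g x hN.adm h0 hx c1 c2 c3 c4
          have e5 := hQ1 k I (mu g A x (2 ^ k) / 8) i1 fun i hi => by
            obtain ⟨q, q1, q2⟩ := hFQ3 k i x ⟨hx, i3 i hi⟩
            refine ⟨q, q1, q2, ?_⟩
            obtain ⟨j1, -⟩ := Finset.mem_Ico.1 (i1 hi)
            have one : 1 ≤ 2 ^ (k - 2) := Nat.one_le_two_pow
            have f1 := near hg h0 hA16 (x := x) (q := q) (J := 2 ^ (k - 1))
              (q2.trans (by
                have := rj_anti hA1 (show 2 ^ (k - 1) + 1 ≤ i by omega)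
                linarith))
            have f2 := (hFQ1 k i q q1).2.2.1
            have f3 := mu_anti hg h0 hA2 x (show 2 ^ (k - 1) + 1 ≤ 2 ^ k by omega)
            linarith
          have e6 : (2 : ℝ) ^ k ≤ 8 * I.card := by exact_mod_cast i2
          have e7 : 0 ≤ mu g A x (2 ^ k) := div_nonneg (hm0 _) (by linarith)
          have e8 : 2 ^ k * mu g A x (2 ^ k) ≤ 64 * Q k := by nlinarith
          have e9 : 2 ^ k * mj g A x (2 ^ k) ≤ 64 * Real.log A * Q k := by
            rw [mj_eq hA2]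
            nlinarith
          linarith)
      have p1 : (1 : ℝ) ≤ 2 ^ k0 := one_le_pow₀ one_le_two
      have d7 : 0 ≤ 2 ^ K * ma g A x (2 ^ K) := by have := ha0 (2 ^ K); positivity
      have d8 : 0 ≤ 2 * mj g A x 0 / 2 ^ K := by have := hm0 0; positivity
      have d9 : 2 ^ k0 * ma g A x (2 ^ k0) ≤ 2 ^ k0 * (2 * N * Real.log A) :=
        mul_le_mul_of_nonneg_left ((hal _).trans (hm _)) (by positivity)
      have d10 : 2 * mj g A x 0 / 2 ^ k0 ≤ 2 * (2 * N * Real.log A) :=
        (div_le_self (by linarith [hm0 0]) p1).trans (by linarith [hm 0])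
      rw [Finset.sum_add_distrib, ← Finset.mul_sum, ← Finset.mul_sum] at d6
      have sY : 0 ≤ ∑ k ∈ Finset.Ioc k0 K, Y k := Finset.sum_nonneg fun k _ => hY0 k
      have sQ : 0 ≤ ∑ k ∈ Finset.Ioc k0 K, Q k := Finset.sum_nonneg fun k _ => hQ0 k
      generalize ∑ k ∈ Finset.Ioc k0 K, Y k = y at *
      generalize ∑ k ∈ Finset.Ioc k0 K, Q k = z at *
      generalize Real.log A = L at *
      generalize (2 : ℝ) ^ k0 = P at *
      have t1 : 1 ≤ P * N := one_le_mul_of_one_le_of_one_le p1 hN1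
      have t2 : N ≤ P * N := le_mul_of_one_le_left (by linarith) p1
      have t3 : 0 ≤ N * y := by positivity
      have t4 : P * N ≤ L * (P * N) := le_mul_of_one_le_left (by linarith) hl
      have t5 : L ≤ L * (P * N) := le_mul_of_one_le_right (by linarith) t1
      have t6 : L * N ≤ L * (P * N) := mul_le_mul_of_nonneg_left t2 (by linarith)
      have t7 : 0 ≤ L * (N * y) := by positivity
      have t8 : 0 ≤ 11 ^ n * (P * N + N * y + z) := by positivity
      nlinarith
    refine key _ _ (fun k => ?_) (fun k => ?_) (fun k hk => if_pos hk) fun k I t hI h => ?_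
    · split_ifs <;> positivity
    · refine Finset.sum_nonneg fun i _ => Finset.sum_nonneg fun q _ => ?_
      split_ifs
      · exact div_nonneg (mj_nonneg hg h0 hA1 _ _) (by linarith)
      · exact le_rfl
    · have nn : ∀ i q, 0 ≤ if ‖x - q‖ ≤ rj A i / 2 then mu g A q i else 0 := fun i q => by
        split_ifs
        · exact div_nonneg (mj_nonneg hg h0 hA1 _ _) (by linarith)
        · exact le_rfl
      refine le_trans ?_ (Finset.sum_le_sum_of_subset_of_nonneg hI
        fun i _ _ => Finset.sum_nonneg fun q _ => nn i q)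
      rw [← nsmul_eq_mul]
      refine Finset.card_nsmul_le_sum _ _ _ fun i hi => ?_
      obtain ⟨q, q1, q2, q3⟩ := h i hi
      refine le_trans ?_ (Finset.single_le_sum (fun q _ => nn i q) q1)
      rw [if_pos q2]
      exact q3

end

end Pool.Agent.LinN2
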