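import Mathlib

/-!
Definitions for the sharp bound on critical sets of harmonic functions (MP_8465a2_an).
-/

namespace Pool.Agent.LinN2

open MeasureTheory Metric Set Filter Topology Complex
open scoped ENNReal ComplexConjugate

noncomputable section

/-- real coordinate space with the sup norm -/
abbrev Rn (n : ℕ) := Fin n → ℝ
/-- complex coordinate space with the sup norm -/
abbrev Cn (n : ℕ) := Fin n → ℂ
/-- the complexified plane with the sup norm -/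
abbrev E2 := ℂ × ℂ
/-- a pair of directions spanning a plane -/
abbrev Dir (n : ℕ) := Rn n × Rn n

variable {n : ℕ}

/-- a real point as a complex point -/
def cx (x : Rn n) : Cn n := fun l => (x l : ℂ)

/-- complexified gradients of real harmonic polynomials -/
structure Adm (g : Cn n → Cn n) : Prop where
  poly : ∀ k, ∃ p : MvPolynomial (Fin n) ℂ, ∀ y, g y k = MvPolynomial.eval y p
  real : ∀ y, g (star y) = star (g y)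
  curl : ∀ y a b, fderiv ℂ g y a ⬝ᵥ b = fderiv ℂ g y b ⬝ᵥ a
  dvg : ∀ y, ∑ l, fderiv ℂ g y (Pi.single l 1) l = 0

/-- not identically zero -/
def NZ (g : Cn n → Cn n) : Prop := ∃ y, g y ≠ 0

/-- supremum of the norm on a complex ball -/
def SS (g : Cn n → Cn n) (x : Cn n) (r : ℝ) : ℝ := sSup ((fun y => ‖g y‖) '' closedBall x r)

/-- normalisation -/
structure Nor (g : Cn n → Cn n) (N : ℝ) : Prop where
  adm : Adm g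
  one : 1 ≤ N
  up : ∀ y, ‖y‖ ≤ 100 → ‖g y‖ ≤ 1
  low : Real.exp (-N) ≤ SS g 0 1

/-- null coordinate transversal to an axis -/
def zc (u1 u2 : Rn n) (y : Cn n) : ℂ := (cx u1 + I • cx u2) ⬝ᵥ y
/-- the conjugate null coordinate -/
def wc (u1 u2 : Rn n) (y : Cn n) : ℂ := (cx u1 - I • cx u2) ⬝ᵥ y
/-- orthonormal pair -/
def ON (u1 u2 : Rn n) : Prop := u1 ⬝ᵥ u1 = 1 ∧ u2 ⬝ᵥ u2 = 1 ∧ u1 ⬝ᵥ u2 = 0

/-- `g` vanishes to order about `μ` along the axis through `x` orthogonal to `u1, u2` -/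
def TubeAx (g : Cn n → Cn n) (x : Rn n) (r μ X B : ℝ) (u1 u2 : Rn n) : Prop :=
  ON u1 u2 ∧ ∀ y, ‖y - cx x‖ ≤ r * Real.exp B → ‖g y‖ ≤ SS g (cx x) r * Real.exp X *
    (max (max ‖zc u1 u2 (y - cx x)‖ ‖wc u1 u2 (y - cx x)‖ / r) (Real.exp (-B))) ^ μ

/-- tube structure with some axis -/
def Tube (g : Cn n → Cn n) (x : Rn n) (r μ X B : ℝ) : Prop := ∃ u1 u2, TubeAx g x r μ X B u1 u2

/-- growth of order `μ` around the complex point `y` -/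
def UP (g : Cn n → Cn n) (y : Cn n) (S0 r μ X B : ℝ) : Prop :=
  ∀ s, |s| ≤ B → ∀ y', ‖y' - y‖ ≤ r * Real.exp s → ‖g y'‖ ≤ S0 * Real.exp (X + μ * s)

/-- radius of scale `j` -/
def rj (A j : ℕ) : ℝ := ((A : ℝ)⁻¹) ^ j
/-- height at scale `j` -/
def hj (g : Cn n → Cn n) (A : ℕ) (x : Rn n) (j : ℕ) : ℝ := Real.log (SS g (cx x) (rj A j))
/-- drop of the height from scale `j` to scale `j + 1` -/
def mj (g : Cn n → Cn n) (A : ℕ) (x : Rn n) (j : ℕ) : ℝ := hj g A x j - hj g A x (j + 1)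
/-- order of vanishing at scale `j` -/
def mu (g : Cn n → Cn n) (A : ℕ) (x : Rn n) (j : ℕ) : ℝ := mj g A x j / Real.log A

/-- pinched scale -/
def Pin (g : Cn n → Cn n) (A b : ℕ) (x : Rn n) (i : ℕ) : Prop :=
  b ≤ i ∧ Real.log A / 2 ≤ mj g A x (i + b) ∧
    b * (mj g A x (i - b) - mj g A x (i + b)) ≤ mj g A x (i + b)

/-- quantitative linear independence -/
def Spread (k : ℕ) (θ : ℝ) (v : Fin k → Rn n) : Prop :=
  ∀ s : Fin k → ℝ, θ * ‖s‖ ≤ ‖∑ l, s l • v l‖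

/-- pinched scale with `n - 2` further spread pinched points -/
def Full (g : Cn n → Cn n) (A b : ℕ) (x : Rn n) (i : ℕ) : Prop :=
  Pin g A b x i ∧ ∃ v : Fin (n - 2) → Rn n, (∀ l, ‖v l‖ ≤ 2 * rj A i ∧ Pin g A b (x + v l) i) ∧
    Spread (n - 2) ((1 / (8 * (A : ℝ))) ^ (n - 2) * rj A i) v

/-- all points with the property `P` near `x` are close to a subspace of dimension `d` -/
def Near (A i d : ℕ) (P : Rn n → Prop) (x : Rn n) : Prop :=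
  ∃ W : Submodule ℝ (Rn n), Module.finrank ℝ W ≤ d ∧
    ∀ x', P x' → ‖x' - x‖ ≤ 2 * rj A i → ∃ w ∈ W, ‖x' - x - w‖ ≤ rj A i / (2 * A)

/-- the structure theory of pinched scales -/
def StrHyp (n A : ℕ) (C0 C1 : ℝ) (p b0 : ℕ) : Prop :=
  1 ≤ C0 ∧ 1 ≤ C1 ∧ 1 ≤ b0 ∧ ∀ g : Cn n → Cn n, Adm g → NZ g → ∀ (b : ℕ) (x : Rn n) (i : ℕ),
    (∀ B : ℝ, 1 ≤ B → C1 * B ^ p ≤ b → Full g A b x i →
      Tube g x (rj A i) (mu g A x i) (C0 * mu g A x i) B) ∧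
    (b0 ≤ b → Pin g A b x i → Near A i (n - 2) (fun x' => Pin g A b x' i) x ∧
      (¬ Full g A b x i → Near A i (n - 3) (fun x' => Pin g A b x' i) x))

open Classical in
/-- points with few bad and many degenerate scales -/
def Yset (P1 P2 : Rn n → ℕ → Prop) (J : ℕ) : Set (Rn n) :=
  {x | ‖x‖ ≤ 5 ∧ 32 * ((Finset.range (2 * J)).filter fun i => ¬ P1 x i).card ≤ J ∧
    J ≤ 8 * ((Finset.range (2 * J)).filter fun i => P2 x i).card}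

/-- the covering count -/
def YHyp (n A : ℕ) : Prop :=
  ∀ P1 P2 : Rn n → ℕ → Prop, (∀ x i, P1 x i → Near A i (n - 2) (fun x' => P1 x' i) x) →
    (∀ x i, P2 x i → Near A i (n - 3) (fun x' => P2 x' i) x) → ∀ J : ℕ,
    ∃ F : Finset (Rn n), (∀ x ∈ Yset P1 P2 J, ∃ c ∈ F, ‖x - c‖ ≤ rj A (2 * J)) ∧
      (F.card : ℝ) * rj A (2 * J) ^ (n - 2) ≤ 11 ^ n * Real.exp (-(J : ℝ))

/-- separated family of tube points -/
structure Pack (g : Cn n → Cn n) (C0 B0 Rin r : ℝ) (F : Finset (Rn n)) (μ : Rn n → ℝ) : Prop where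
  mem : ∀ x ∈ F, ‖x‖ ≤ Rin ∧ 1 / 2 ≤ μ x ∧ Tube g x r (μ x) (C0 * μ x) B0
  sep : ∀ x ∈ F, ∀ x' ∈ F, x ≠ x' → r / 2 ≤ ‖x - x'‖

/-- packing bound for radii in `(lo, hi]` -/
def PB (n : ℕ) (C0 B0 lo hi C : ℝ) : Prop :=
  ∀ (g : Cn n → Cn n) (N : ℝ), Nor g N → ∀ r, lo < r → r ≤ hi → ∀ F μ, Pack g C0 B0 1 r F μ →
    ∑ x ∈ F, r ^ (n - 2) * μ x ^ 2 ≤ C * N ^ 2

/-- a chain of tube scales above the point `x` -/
def Chain (g : Cn n → Cn n) (C0 : ℝ) (x : Rn n) (ρ μ κ J : ℝ) : Prop :=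
  ∃ (k1 k2 : ℕ) (R μt : ℕ → ℝ) (u1 u2 : ℕ → Rn n) (R' : ℝ), J ≤ 256 * κ * k1 ∧ J ≤ 8 * k2 ∧
    (∀ t ≤ k1, 0 < R t ∧ μ ≤ μt t ∧ μt t ≤ 4 * μ ∧
      TubeAx g x (R t) (μt t) (C0 * μt t) (3 * κ ^ 6) (u1 t) (u2 t) ∧
      3 * ρ ≤ R t * Real.exp (-(3 * κ ^ 6))) ∧
    (∀ t < k1, R (t + 1) ≤ R t * Real.exp (-(4 * κ))) ∧ R 0 * Real.exp (3 * κ) ≤ 1 / κ ^ 10 ∧
    36 * n * R' ≤ R k1 ∧ 6 * ρ * 2 ^ k2 ≤ R' ∧
    ∀ s, 0 < s → s ≤ R 0 → SS g (cx x) (70 * s) ≤ Real.exp (20 * μ) * SS g (cx x) s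

open Classical in
/-- decomposition of the depth into trivial, degenerate and chain contributions -/
structure Dec (g : Cn n → Cn n) (N C0 B0 κ0 r C : ℝ) (k0 : ℕ) (KS : Finset ℕ)
    (FY : ℕ → Finset (Rn n)) (ρY : ℕ → ℝ) (IS : ℕ → Finset ℕ) (ρ : ℕ → ℝ)
    (FQ : ℕ → ℕ → Finset (Rn n)) (μq : ℕ → Rn n → ℝ) : Prop where
  hK : ∀ k ∈ KS, k0 < k ∧ κ0 ≤ k ∧ (k : ℝ) ^ 6 ≤ 2 ^ k / 2 ∧ (IS k).card ≤ 2 ^ k
  hY : ∀ k ∈ KS, 0 < ρY k ∧ ρY k ≤ 1 / 4 ∧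
    ((FY k).card : ℝ) * ρY k ^ (n - 2) ≤ C * Real.exp (-(2 ^ k / 2))
  hQ : ∀ k ∈ KS, ∀ i ∈ IS k, r ≤ ρ i ∧ ρ i ≤ 1 / (k + 1) ∧ Pack g C0 B0 5 (ρ i) (FQ k i) (μq i) ∧
    ∀ x ∈ FQ k i, Chain g C0 x (ρ i) (μq i x) k (2 ^ k / 2)
  maj : ∀ x : Rn n, ‖x‖ ≤ 5 → -Real.log (SS g (cx x) r) ≤ C * (2 ^ k0 * N +
    N * ∑ k ∈ KS, (if ∃ c ∈ FY k, ‖x - c‖ ≤ ρY k then (2 : ℝ) ^ k else 0) +
    ∑ k ∈ KS, ∑ i ∈ IS k, ∑ q ∈ FQ k i, if ‖x - q‖ ≤ ρ i / 2 then μq i q else 0)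

/-! ### Planes -/

/-- linear part of the complexified plane -/
def pl (e : Dir n) (y : E2) : Cn n := y.1 • cx e.1 + y.2 • cx e.2
/-- linear part of the real plane -/
def plr (e : Dir n) (y : ℝ × ℝ) : Rn n := y.1 • e.1 + y.2 • e.2
/-- a real point of the plane -/
def c2 (y : ℝ × ℝ) : E2 := ((y.1 : ℂ), (y.2 : ℂ))
/-- the function whose level curves are used -/
def aa (g : Cn n → Cn n) (p : Rn n) (e : Dir n) (ξ : Rn n) (c : ℝ) (y : E2) : ℂ :=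
  cx ξ ⬝ᵥ g (cx p + pl e y) - c
/-- the same function in null coordinates -/
def pz (g : Cn n → Cn n) (p : Rn n) (ζ : Cn n) (ξ : Rn n) (u : E2) : ℂ :=
  cx ξ ⬝ᵥ g (cx p + u.1 • ζ + u.2 • star ζ)
/-- basis vector -/
def bv (j : ℕ) : Rn n := fun l => if l.val = j then 1 else 0
/-- admissible directions -/
def Ebox (n : ℕ) : Set (Dir n) := closedBall (bv 0) (1 / 8) ×ˢ closedBall (bv 1) (1 / 8)
/-- admissible directions and covectors -/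
def Tbox (n : ℕ) : Set (Dir n × Rn n) := Ebox n ×ˢ closedBall 0 1
/-- transversality determinant -/
def dt (u1 u2 : Rn n) (e : Dir n) : ℝ := (e.1 ⬝ᵥ u1) * (e.2 ⬝ᵥ u2) - (e.1 ⬝ᵥ u2) * (e.2 ⬝ᵥ u1)
/-- defect of the function at a real point -/
def XV (g : Cn n → Cn n) (S η : ℝ) (x ξ : Rn n) (c : ℝ) : ℝ :=
  max 0 (Real.log S - Real.log (‖cx ξ ⬝ᵥ g (cx x) - c‖ ^ 2 + η ^ 2) / 2)

/-! ### Potential theory on the level curves -/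

/-- second derivative in the direction `v` -/
def dd {E : Type} [NormedAddCommGroup E] [NormedSpace ℝ E] (φ : E → ℝ) (y v : E) : ℝ :=
  fderiv ℝ (fderiv ℝ φ) y v v
/-- Laplacian along the complex line in the direction `v` -/
def lapd {E : Type} [NormedAddCommGroup E] [NormedSpace ℝ E] [SMul ℂ E] (φ : E → ℝ) (y v : E) : ℝ :=
  dd φ y v + dd φ y (I • v)
/-- regularised logarithm of the Euclidean norm -/
def Ul {E ι : Type} [Fintype ι] (F : E → ι → ℂ) (η : ℝ) (y : E) : ℝ :=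
  Real.log (∑ k, ‖F y k‖ ^ 2 + η ^ 2) / 2
/-- regularised logarithm of the modulus -/
def U1 {E : Type} (f : E → ℂ) (η : ℝ) (y : E) : ℝ := Real.log (‖f y‖ ^ 2 + η ^ 2) / 2
/-- weight of the level `τ` (total mass `π`) -/
def wt (η : ℝ) (τ : ℂ) : ℝ := η ^ 2 / (‖τ‖ ^ 2 + η ^ 2) ^ 2
/-- holomorphic field tangent to the level curves -/
def Wf (a : E2 → ℂ) (y : E2) : E2 := (fderiv ℂ a y (0, 1), -fderiv ℂ a y (1, 0))
/-- energy density along the level curves -/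
def bf (a : E2 → ℂ) (f h : E2 → ℝ) (y : E2) : ℝ :=
  fderiv ℝ f y (Wf a y) * fderiv ℝ h y (Wf a y) +
    fderiv ℝ f y (I • Wf a y) * fderiv ℝ h y (I • Wf a y)
/-- energy form -/
def Bf (a : E2 → ℂ) (η : ℝ) (S : Set E2) (f h : E2 → ℝ) : ℝ := ∫ y in S, wt η (a y) * bf a f h y
/-- energy -/
def En (a : E2 → ℂ) (η : ℝ) (S : Set E2) (f : E2 → ℝ) : ℝ := Bf a η S f f
/-- area of the level curves -/
def Ar (a : E2 → ℂ) (η : ℝ) (S : Set E2) : ℝ := ∫ y in S, wt η (a y) * ‖Wf a y‖ ^ 2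
/-- scale free area in a ball -/
def AR (a : E2 → ℂ) (η : ℝ) (y0 : E2) (R : ℝ) : ℝ := Ar a η (closedBall y0 (2 * R)) / R ^ 2
/-- the domain -/
def Om : Set E2 := closedBall 0 3
/-- the grounded set -/
def N0 (ηN : ℝ) : Set E2 := {y | |y.1.re| ≤ 1 ∧ |y.2.re| ≤ 1 ∧ |y.1.im| ≤ ηN ∧ |y.2.im| ≤ ηN}

/-- cutoff function -/
structure Cut (ψ : E2 → ℝ) : Prop where
  sm : ContDiff ℝ 1 ψ
  nn : ∀ y, 0 ≤ ψ y
  le : ∀ y, ψ y ≤ 1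

/-- approximate minimiser of the energy -/
structure AMin (a : E2 → ℂ) (η ηN τ E0 : ℝ) (χ : E2 → ℝ) : Prop where
  cut : Cut χ
  one : ∀ y ∈ N0 ηN, χ y = 1
  zero : ∀ y, 2 ≤ ‖y‖ → χ y = 0
  en : En a η Om χ ≤ E0
  var : ∀ h, ContDiff ℝ 1 h → (∀ y ∈ N0 ηN, 0 ≤ h y) → (∀ y, 2 ≤ ‖y‖ → h y ≤ 0) →
    -(τ * √(En a η Om h)) ≤ Bf a η Om χ h

/-- bound for the flux into a ball -/
def Flux (a : E2 → ℂ) (η ηN : ℝ) (y0 : E2) (ρ F : ℝ) : Prop :=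
  ∃ ψ, Cut ψ ∧ (∀ y, ‖y - y0‖ ≤ ρ → ψ y = 1) ∧ (∀ y, 2 ≤ ‖y‖ → ψ y = 0) ∧
    ∀ E0, ∃ M, ∀ τ χ, 0 < τ → τ ≤ 1 → AMin a η ηN τ E0 χ → Bf a η Om χ ψ ≤ F + τ * M

/-- a shell with a Poincare inequality -/
def Shell (a : E2 → ℂ) (η ηN : ℝ) (y0 : E2) (ri ro K s : ℝ) : Prop :=
  ∃ ψ, Cut ψ ∧ (∀ y, ‖y - y0‖ ≤ ri → ψ y = 1) ∧ (∀ y, ro ≤ ‖y - y0‖ → ψ y = 0) ∧
    ∀ χ, Cut χ → (∀ y ∈ N0 ηN, χ y = 1) →
      ∫ y, wt η (a y) * ((1 - χ y) ^ 2 * bf a ψ ψ y) ≤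
        K * (s + En a η (closedBall y0 ro \ closedBall y0 ri) χ)

/-- a ball with a lower bound for the charged area -/
def PackCell (a : E2 → ℂ) (η ηN : ℝ) (y0 : E2) (ρ K G A : ℝ) : Prop :=
  ∀ χ, Cut χ → (∀ y ∈ N0 ηN, χ y = 1) →
    G ≤ K * ((∫ y in closedBall y0 ρ, χ y * (wt η (a y) * ‖Wf a y‖ ^ 2)) / ρ ^ 2) +
      K * √(A * En a η (closedBall y0 ρ) χ)

/-! ### The local model in null coordinates -/

/-- bump on `[-2, 2]`, equal to one on `[-1, 1]` -/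
def bb (x : ℝ) : ℝ := Real.smoothTransition (2 - x) * Real.smoothTransition (2 + x)
/-- weight on the `q` plane (zero near the origin) -/
def bw (q : ℂ) : ℝ := bb (Real.log ‖q‖) / ‖q‖ ^ 2
/-- the main constant -/
def VV : ℝ := 4 * Real.pi ^ 2 * ∫ x, bb x
/-- Poisson kernel in the argument of `q` -/
def Pk (η : ℝ) (q : ℂ) : ℝ := (1 - (1 - η) ^ 2) / ‖1 - ((1 - η : ℝ) : ℂ) * (q / (‖q‖ : ℝ))‖ ^ 2
/-- derivative along the fibres of `q = z w` -/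
def Tf (a : E2 → ℂ) (u : E2) : ℂ := fderiv ℂ a u (u.1, -u.2)
/-- fibre coordinate -/
def sc (u : E2) : ℝ := (Real.log ‖u.1‖ - Real.log ‖u.2‖) / 2
/-- side cutoff -/
def zt (L s : ℝ) : ℝ := Real.smoothTransition (L + 3 - s) * Real.smoothTransition (L + 3 + s)
/-- nearly real points of the annulus -/
def Gset (η' : ℝ) : Set E2 :=
  {u | ‖u.1 - conj u.2‖ ≤ η' ∧ Real.exp (-2) ≤ ‖u.1 * u.2‖ ∧ ‖u.1 * u.2‖ ≤ Real.exp 2}
/-- grounded mass -/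
def Gr (a : E2 → ℂ) (η η' : ℝ) : ℝ :=
  ∫ u in Gset η', wt η (a u) * (bw (u.1 * u.2) * Pk η (u.1 * u.2) * ‖Tf a u‖ ^ 2)
/-- total mass -/
def Tot (a : E2 → ℂ) (η L : ℝ) : ℝ :=
  ∫ u, wt η (a u) * (bw (u.1 * u.2) * zt L (sc u) * ‖Tf a u‖ ^ 2)
/-- ungrounded mass -/
def T2 (a : E2 → ℂ) (η L : ℝ) (χ : E2 → ℝ) : ℝ :=
  ∫ u, wt η (a u) * (bw (u.1 * u.2) * zt L (sc u) * ‖Tf a u‖ ^ 2 * (1 - χ u) ^ 2)
/-- side region -/
def Kside (L : ℝ) : Set E2 :=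
  {u | Real.exp L ≤ ‖u.1‖ ∧ ‖u.1‖ ≤ Real.exp (L + 4) ∧ ‖u.2‖ ≤ 2 * Real.exp (-L)}
/-- side mass -/
def MK (a : E2 → ℂ) (η L : ℝ) : ℝ :=
  ∫ u in Kside L, wt η (a u) *
    (‖u.1 * fderiv ℂ a u (1, 0)‖ ^ 2 + (Real.exp (-L) * ‖fderiv ℂ a u (0, 1)‖) ^ 2)
/-- energy region -/
def Reg (L : ℝ) : Set E2 := {u | Real.exp (-1) ≤ ‖u‖ ∧ ‖u‖ ≤ Real.exp (L + 4)}
/-- density of the level -/
def pe (ε c : ℝ) : ℝ := ε ^ 2 / (2 * √(c ^ 2 + ε ^ 2) ^ 3)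
/-- truncated density of the level -/
def pt (ε T c : ℝ) : ℝ := max (pe ε c - pe ε T) 0
/-- limit of the grounded mass -/
def Glim (a0 : E2 → ℂ) (ε T : ℝ) : ℝ :=
  4 * Real.pi ^ 2 * ∫ x : ℂ, bw (x * conj x) * ‖x‖ ^ 2 *
    (pt ε T (a0 (x, conj x)).re * ‖Tf a0 (x, conj x)‖)
/-- real function generated by a wave -/
def sym (A : E2 → ℂ) (u : E2) : ℂ := A u + conj (A (conj u.2, conj u.1))

/-- a wave of order `μ` -/
structure Wav (A : E2 → ℂ) (S0 μ X B : ℝ) : Prop where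
  sm : ContDiff ℂ 2 A
  sm' : ContDiff ℂ 2 fun u : E2 => conj (A (conj u.1, conj u.2))
  bd : ∀ u : E2, ‖u‖ ≤ Real.exp B → ‖A u‖ ≤ S0 * Real.exp X * (max ‖u.1‖ (Real.exp (-B))) ^ μ

/-- data of a packing cell on the plane `(p, θ)` with base point `y` -/
def PCell (g : Cn n → Cn n) (T ε η r μ K1 K2 K v0 : ℝ) (p : Rn n) (θ : Dir n × Rn n)
    (y : ℝ × ℝ) : Prop :=
  (∀ y' W : E2, ‖y' - c2 y‖ ≤ K1 * r → μ * r ^ (2 * n - 2) * ‖W‖ ^ 2 ≤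
    K * ∫ v in closedBall (0 : Cn n) (K2 * r), lapd (Ul g T) (cx p + pl θ.1 y' - v) (pl θ.1 W)) ∧
  ∃ G : ℝ → ℝ, Continuous G ∧ v0 * μ ≤ ∫ c, pt ε T c * G c ∧
    ∀ c, |c| ≤ T → PackCell (aa g p θ.1 θ.2 c) η r (c2 y) (K1 * r) K (G c) (K * μ)

/-- data of a cost cell on the plane `(p, θ)` with base point `y` -/
def QCell (g : Cn n → Cn n) (T ε η ηN ρ : ℝ) (p : Rn n) (θ : Dir n × Rn n) (y : ℝ × ℝ) (V : ℝ) :
    Prop :=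
  ∃ F : ℝ → ℝ, Continuous F ∧ ∫ c, pt ε T c * F c ≤ V ∧
    ∀ c, |c| ≤ T → 0 ≤ F c ∧ Flux (aa g p θ.1 θ.2 c) η ηN (c2 y) (6 * ρ) (F c)

end

end Pool.Agent.LinN2
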