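import Pool.Agent.Lib.MP_8465a2_an.N2.BasicB

/-!
The discrete decay lemma (MP_8465a2_an).
-/

namespace Pool.Agent.LinN2

namespace Disc

lemma step {K a b s l : ℝ} (hK : 1 ≤ K) (ha : 0 < a) (hab : a ≤ b) (hs : 0 ≤ s)
    (h : a ^ 2 ≤ K * (s + (b - a)) * (b - a)) :
    2 * l - l ^ 2 * (s + (b - a)) ≤ 2 * K / b * ((b - a) / a) := by
  have hb : 0 < b := ha.trans_le hab
  obtain ⟨d, rfl⟩ : ∃ d, b = a + d := ⟨b - a, by ring⟩
  rw [add_sub_cancel_left] at h ⊢
  have hd : 0 ≤ d := by linarith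
  have h1 : 0 < s + d := (add_nonneg hs hd).lt_of_ne fun h0 => by
    rw [← h0] at h
    nlinarith
  have h2 : a ≤ K * (s + d) := by
    refine le_of_sq_le_sq (h.trans ?_) (by positivity)
    rw [sq]
    gcongr
    nlinarith
  have h3 : 2 * l - l ^ 2 * (s + d) ≤ 1 / (s + d) := by
    rw [le_div_iff₀ h1]
    nlinarith [sq_nonneg (l * (s + d) - 1)]
  refine h3.trans ?_
  rw [div_mul_div_comm, div_le_div_iff₀ h1 (by positivity)]
  nlinarith [mul_le_mul_of_nonneg_right h2 hd]

end Disc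

theorem disc : DiscStmt := by
  intro K hK
  refine ⟨2 * K, by linarith, fun k e s hk h0 h1 h2 h3 => ?_⟩
  have hk0 : (0 : ℝ) < k := by exact_mod_cast hk
  have hs : 0 ≤ ∑ t ∈ Finset.range k, s (t + 1) :=
    Finset.sum_nonneg fun t ht => h2 t (Finset.mem_range.1 ht)
  have he0 := h0 0 k.zero_le
  rcases (h0 k le_rfl).eq_or_lt with h | h
  · rw [← h]; positivity
  have hp : ∀ t ≤ k, 0 < e t := fun t ht => by
    induction ht using Nat.decreasingInduction with
    | self => exact h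
    | of_succ t ht ih => exact ih.trans_le (h1 t ht)
  have key : ∀ l : ℝ, ∀ t ≤ k,
      2 * l * t - l ^ 2 * (∑ i ∈ Finset.range t, s (i + 1) + e 0 - e t) ≤ 2 * K / e t := by
    intro l t ht
    induction t with
    | zero => simpa using by positivity
    | succ t ih =>
      have a1 := hp (t + 1) ht
      have a2 := hp t (by omega)
      have a3 := Disc.step (l := l) hK a1 (h1 t ht) (h2 t ht) (h3 t ht)
      have a4 : 2 * K / e t * ((e t - e (t + 1)) / e (t + 1)) =
          2 * K / e (t + 1) - 2 * K / e t := by field_simp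
      rw [Finset.sum_range_succ]
      push_cast
      linarith [ih (by omega)]
  have hP : 0 < ∑ t ∈ Finset.range k, s (t + 1) + e 0 := by linarith [hp 0 k.zero_le]
  have h4 := key (k / (∑ t ∈ Finset.range k, s (t + 1) + e 0)) k le_rfl
  generalize ∑ t ∈ Finset.range k, s (t + 1) + e 0 = P at *
  have h5 : (k : ℝ) ^ 2 / P ≤ 2 * K / e k := by
    have e1 : (k : ℝ) ^ 2 / P = 2 * (k / P) * k - (k / P) ^ 2 * P := by field_simp; ring
    nlinarith [mul_nonneg (sq_nonneg (k / P)) h.le]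
  rw [div_le_div_iff₀ hP h] at h5
  rw [le_div_iff₀ (by positivity)]
  linarith

end Pool.Agent.LinN2
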