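import Pool.Agent.Lib.MP_8465a2_an.N2.Exp1

/-!
The averaged inequality (MP_8465a2_an).
-/

namespace Pool.Agent.LinN2

open MeasureTheory Metric Set Filter Topology Complex
open scoped ENNReal ComplexConjugate

noncomputable section

variable {n : ℕ}

namespace Exp

/-- index of a cost cell -/
abbrev Ix (n : ℕ) := Σ _ : ℕ, Σ _ : ℕ, Rn n

lemma near (hn : 3 ≤ n) {p x : Rn n} {e : Dir n} (he : e ∈ Ebox n) {y : E2} {y' : ℝ × ℝ}
    {r ρ : ℝ} (hy : y ∈ N0 r) (hr : r ≤ ρ) (h1 : ‖p + plr e (r2 y) - x‖ ≤ ρ / 2)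
    (h2 : ‖p + plr e y' - x‖ ≤ 3 * ρ) : ‖y - c2 y'‖ ≤ 6 * ρ := by
  have a1 := le_norm_plr (by omega) he (r2 y - y')
  have a2 : plr e (r2 y - y') = (p + plr e (r2 y) - x) - (p + plr e y' - x) := by
    rw [plr_sub]; abel
  have a3 : y - c2 y' = c2 (r2 y - y') + I • c2 (i2 y) := by
    rw [c2_sub, sub_add_eq_add_sub, r2_add_i2]
  have a4 := norm_add_le (c2 (r2 y - y')) (I • c2 (i2 y))
  rw [norm_smul, norm_I, one_mul, norm_c2, norm_c2, ← a3] at a4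
  rw [a2] at a1
  linarith [norm_sub_le (p + plr e (r2 y) - x) (p + plr e y' - x), (mem_N0.1 hy).2,
    norm_nonneg (p + plr e y' - x)]

open Classical in
lemma depth (hn : 3 ≤ n) {g : Cn n → Cn n} {N C0 B0 κ0 r C : ℝ} {k0 : ℕ} {KS FY ρY IS ρ FQ μq}
    (hD : Dec g N C0 B0 κ0 r C k0 KS FY ρY IS ρ FQ μq) (hN : 0 ≤ N) (hC : 0 ≤ C) {ω : Pl n}
    (hω : ω ∈ Dom n) (yQ : Ix n → ℝ × ℝ)
    (hQ : ∀ z ∈ (KS.sigma fun k => (IS k).sigma fun i => FQ k i : Finset (Ix n)),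
      Hit z.2.2 (ρ z.2.1 / 2) ω → ‖ω.1 + plr ω.2.1 (yQ z) - z.2.2‖ ≤ 3 * ρ z.2.1)
    {y : E2} (hy : y ∈ N0 r) :
    ‖ω.1 + plr ω.2.1 (r2 y)‖ ≤ 5 ∧ ‖cx ω.1 + pl ω.2.1 y - cx (ω.1 + plr ω.2.1 (r2 y))‖ ≤ 9 / 4 * r ∧
    -Real.log (SS g (cx (ω.1 + plr ω.2.1 (r2 y))) r) ≤ C * (2 ^ k0 * N +
      N * ∑ k ∈ KS, 2 ^ k * if ∃ c ∈ FY k, Hit c (ρY k) ω then (1 : ℝ) else 0) +
      ∑ z ∈ (KS.sigma fun k => (IS k).sigma fun i => FQ k i : Finset (Ix n)) with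
        Hit z.2.2 (ρ z.2.1 / 2) ω,
        if ‖y - c2 (yQ z)‖ ≤ 6 * ρ z.2.1 then C * μq z.2.1 z.2.2 else 0 := by
  obtain ⟨y1, y2⟩ := mem_N0.1 hy
  have he := hω.2.1
  have a1 : ‖ω.1 + plr ω.2.1 (r2 y)‖ ≤ 5 := by
    linarith [norm_add_le ω.1 (plr ω.2.1 (r2 y)), norm_plr_le he (r2 y),
      mem_closedBall_zero_iff.1 hω.1]
  refine ⟨a1, ?_, (hD.maj _ a1).trans ?_⟩
  · have : cx ω.1 + pl ω.2.1 y - cx (ω.1 + plr ω.2.1 (r2 y)) = pl ω.2.1 (I • c2 (i2 y)) := by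
      conv_lhs => rw [← r2_add_i2 y, pl_add, r2_add_i2, cx_add, ← pl_c2]
      abel
    rw [this]
    refine (norm_pl_le he _).trans ?_
    rw [norm_smul, norm_I, one_mul, norm_c2]
    linarith
  · rw [mul_add C (_ + _)]
    refine add_le_add (mul_le_mul_of_nonneg_left (add_le_add le_rfl (mul_le_mul_of_nonneg_left
      (Finset.sum_le_sum fun k _ => ?_) hN)) hC) ?_
    · by_cases h : ∃ c ∈ FY k, ‖ω.1 + plr ω.2.1 (r2 y) - c‖ ≤ ρY k
      · rw [if_pos h, if_pos (h.imp fun c hc => ⟨hc.1, _, y1, hc.2⟩), mul_one]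
      · rw [if_neg h]
        split_ifs <;> simp
    · rw [Finset.sum_filter, Finset.sum_sigma, Finset.mul_sum]
      refine Finset.sum_le_sum fun k hk => ?_
      rw [Finset.sum_sigma, Finset.mul_sum]
      refine Finset.sum_le_sum fun i hi => ?_
      rw [Finset.mul_sum]
      refine Finset.sum_le_sum fun q hq => ?_
      obtain ⟨b1, -, b3, -⟩ := hD.hQ k hk i hi
      have b4 : 0 ≤ C * μq i q := mul_nonneg hC (by linarith [(b3.mem q hq).2.1])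
      by_cases h : ‖ω.1 + plr ω.2.1 (r2 y) - q‖ ≤ ρ i / 2
      · have b5 : Hit q (ρ i / 2) ω := ⟨_, y1, h⟩
        rw [if_pos h, if_pos b5, if_pos (near hn he hy b1 h (hQ ⟨k, i, q⟩ (by simp [hk, hi, hq]) b5))]
      · rw [if_neg h, mul_zero]
        split_ifs <;> simp [b4]

lemma sum_exp (KS : Finset ℕ) : ∑ k ∈ KS, (2 : ℝ) ^ k * Real.exp (-(2 ^ k / 4)) ≤ 64 := by
  have h : ∀ k : ℕ, (2 : ℝ) ^ k * Real.exp (-(2 ^ k / 4)) ≤ 32 * (1 / 2) ^ k := fun k => by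
    have h1 : (0 : ℝ) < 2 ^ k := by positivity
    have h2 := Real.quadratic_le_exp_of_nonneg (x := 2 ^ k / 4) (by positivity)
    rw [Real.exp_neg, one_div, inv_pow, ← div_eq_mul_inv, ← div_eq_mul_inv,
      div_le_div_iff₀ (Real.exp_pos _) h1]
    nlinarith
  refine (Finset.sum_le_sum fun k _ => h k).trans ?_
  rw [← Finset.mul_sum]
  linarith [summable_geometric_two.sum_le_tsum KS (fun _ _ => by positivity), tsum_geometric_two]

/-- the top and degenerate contributions -/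
lemma top (hn : 3 ≤ n) (h6 : HitStmt n) (h7 : MomStmt n) (h8 : GrazeStmt n) (h9 : PtStmt)
    (a C : ℝ) (ha : 0 ≤ a) (hC : 0 ≤ C) : ∃ K : ℝ, 0 ≤ K ∧ ∀ (g : Cn n → Cn n) (N T ε η : ℝ) (k0 : ℕ)
    (KS : Finset ℕ) (FY : ℕ → Finset (Rn n)) (ρY : ℕ → ℝ), Nor g N → 0 < T → 0 < ε → 0 < η →
    (∀ k ∈ KS, 0 < ρY k ∧ ρY k ≤ 1 / 4 ∧
      ((FY k).card : ℝ) * ρY k ^ (n - 2) ≤ C * Real.exp (-(2 ^ k / 2))) →
    open Classical in Maj (fun ω => (a * (N + C * (2 ^ k0 * N +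
      N * ∑ k ∈ KS, 2 ^ k * if ∃ c ∈ FY k, Hit c (ρY k) ω then (1 : ℝ) else 0)) + N) *
      (N + ∫ c, pt ε T c * XV g 1 η (ω.1 + ω.2.1.1) ω.2.2 c)) (K * (2 ^ k0 * N ^ 2)) := by
  classical
  obtain ⟨K, hK, hX⟩ := maj_X2 h7 h8 h9
  refine ⟨(a + a * C + 1) * (2 + K) + a * C * (64 * (18 * 12 ^ n * C + K)), by positivity,
    fun g N T ε η k0 KS FY ρY hg hT hε hη hY => ?_⟩
  have hN := hg.one
  have hN0 : 0 < N := by linarith
  have h2 : (1 : ℝ) ≤ 2 ^ k0 := one_le_pow₀ one_le_two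
  have m1 := hX g N T ε η hg hT hε hη
  have m2 := (((maj_one h8).mul (c := 2 * N) (by positivity)).add
    (m1.mul (c := N⁻¹) (by positivity))).mul (c := (a + a * C + 1) * (2 ^ k0 * N)) (by positivity)
  have m3 := (maj_sum KS fun k hk => (((maj_sum (FY k) fun c _ => maj_hit hn h6 h8 c (hY k hk).1
    (hY k hk).2.1).mul (c := 2 * N * Real.exp (2 ^ k / 4)) (by positivity)).add
    (m1.mul (c := (N * Real.exp (2 ^ k / 4))⁻¹) (by positivity))).mul (c := 2 ^ k)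
    (by positivity)).mul (c := a * C * N) (by positivity)
  refine (m2.add m3).mono (fun ω _ => ?_) ?_
  · have x0 := X2_nonneg h9 g η hT hε ω
    have x1 := X1_le h9 hg.adm.continuous hT hε hη hN0 ω
    have x2 : 0 ≤ ∫ c, pt ε T c * XV g 1 η (ω.1 + ω.2.1.1) ω.2.2 c :=
      integral_nonneg fun c => mul_nonneg ((h9.1 ε T hε hT).2.1 c) (XV_nonneg _ _ _ _ _ _)
    have x3 : ∀ k, ∫ c, pt ε T c * XV g 1 η (ω.1 + ω.2.1.1) ω.2.2 c ≤ N * Real.exp (2 ^ k / 4) +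
        X2 g T ε η ω / (N * Real.exp (2 ^ k / 4)) := fun k : ℕ =>
      X1_le h9 hg.adm.continuous hT hε hη (by positivity) ω
    generalize ∫ c, pt ε T c * XV g 1 η (ω.1 + ω.2.1.1) ω.2.2 c = X at x1 x2 x3
    have e : ∀ s : ℝ, (a * (N + C * (2 ^ k0 * N + N * s)) + N) * (N + X) =
        (a * N + a * C * (2 ^ k0 * N) + N) * (N + X) + a * C * N * (s * (N + X)) := fun s => by ring
    rw [e]
    refine add_le_add (mul_le_mul ?_ (by rw [inv_mul_eq_div]; linarith) (by positivity)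
      (by positivity)) (mul_le_mul_of_nonneg_left ?_ (by positivity))
    · nlinarith [mul_le_mul_of_nonneg_right h2 hN0.le, mul_le_mul_of_nonneg_left
        (mul_le_mul_of_nonneg_right h2 hN0.le) ha]
    · rw [Finset.sum_mul]
      refine Finset.sum_le_sum fun k _ => ?_
      rw [mul_assoc]
      refine mul_le_mul_of_nonneg_left ?_ (by positivity)
      have y1 : (1 : ℝ) ≤ Real.exp (2 ^ k / 4) := Real.one_le_exp (by positivity)
      have y2 : ∀ c, (0 : ℝ) ≤ if Hit c (ρY k) ω then 1 else 0 := fun c => by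
        split_ifs <;> norm_num
      have y3 : 0 ≤ X2 g T ε η ω / (N * Real.exp (2 ^ k / 4)) := by positivity
      have y4 := Finset.sum_nonneg fun c (_ : c ∈ FY k) => y2 c
      rw [inv_mul_eq_div]
      split_ifs with h
      · obtain ⟨c, c1, c2⟩ := h
        have y5 := Finset.single_le_sum (fun c _ => y2 c) c1
        rw [if_pos c2] at y5
        nlinarith [x3 k, mul_le_mul_of_nonneg_left y5 (show 0 ≤ 2 * N * Real.exp (2 ^ k / 4) by
          positivity)]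
      · rw [zero_mul]
        positivity
  · have z1 : ∑ k ∈ KS, (2 : ℝ) ^ k * (2 * N * Real.exp (2 ^ k / 4) * (∑ _c ∈ FY k,
        9 * 12 ^ n * ρY k ^ (n - 2)) + (N * Real.exp (2 ^ k / 4))⁻¹ * (K * N ^ 2)) ≤
        64 * ((18 * 12 ^ n * C + K) * N) := by
      refine le_trans ?_ (mul_le_mul_of_nonneg_right (sum_exp KS) (by positivity))
      rw [Finset.sum_mul]
      refine Finset.sum_le_sum fun k hk => ?_
      rw [mul_assoc (2 ^ k : ℝ)]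
      refine mul_le_mul_of_nonneg_left ?_ (by positivity)
      have y1 : Real.exp (2 ^ k / 4) * Real.exp (-(2 ^ k / 2)) = Real.exp (-(2 ^ k / 4)) := by
        rw [← Real.exp_add]; congr 1; ring
      have y2 := mul_le_mul_of_nonneg_left (hY k hk).2.2
        (show 0 ≤ 18 * 12 ^ n * N * Real.exp (2 ^ k / 4) by positivity)
      have y3 : (N * Real.exp (2 ^ k / 4))⁻¹ * (K * N ^ 2) = Real.exp (-(2 ^ k / 4)) * (K * N) := by
        rw [Real.exp_neg]; field_simp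
      rw [Finset.sum_const, nsmul_eq_mul, y3]
      calc _ = 18 * 12 ^ n * N * Real.exp (2 ^ k / 4) * ((FY k).card * ρY k ^ (n - 2)) +
            Real.exp (-(2 ^ k / 4)) * (K * N) := by ring
        _ ≤ _ := add_le_add y2 le_rfl
        _ = _ := by rw [← y1]; ring
    refine (add_le_add le_rfl (mul_le_mul_of_nonneg_left z1 (by positivity))).trans ?_
    have z2 : N⁻¹ * (K * N ^ 2) = K * N := by field_simp
    rw [z2]
    nlinarith [mul_le_mul_of_nonneg_left h2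
      (show 0 ≤ a * C * (64 * (18 * 12 ^ n * C + K)) * N ^ 2 by positivity)]

end Exp

open Exp in
theorem expS (hn : 3 ≤ n) (h1 : OmegaStmt n) (h2 : ChainStmt n) (h3 : PCellStmt n)
    (h4 : PhiStmt n) (h5 : RescStmt n) (h6 : HitStmt n) (h7 : MomStmt n) (h8 : GrazeStmt n)
    (h9 : PtStmt) : ExpStmt n := by
  classical
  intro C0 hC0
  obtain ⟨K1, K2, K, v0, B1, hK1, hK2, hK, hv0, hB1, h3⟩ := h3 C0 hC0
  obtain ⟨Kc, hKc, h2⟩ := h2 C0 hC0
  obtain ⟨Ko, hKo, h1⟩ := h1 K1 K2 K v0 hK1 hK2 hK hv0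
  obtain ⟨a, ha, h4⟩ := h4
  obtain ⟨B0, hB, hB', hB''⟩ : ∃ B0 : ℝ, B1 ≤ B0 ∧ 2 * C0 ≤ B0 ∧ 2 * n ≤ B0 :=
    ⟨max B1 (max (2 * C0) (2 * n)), by simp, by simp, by simp⟩
  refine ⟨B0, min (1 / (4 * K1)) (1 / K2), Kc, hB1.trans hB, by positivity,
    (min_le_right _ _).trans (by rw [div_le_one (by linarith)]; linarith), fun C hC => ?_⟩
  obtain ⟨Kt, hKt, ht⟩ := top hn h6 h7 h8 h9 a C (by linarith) (by linarith)
  refine ⟨120 * K * Real.exp (n * B0) * Ko * (Kt + a * C * (2 * 6 ^ n * Kc)) + 1,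
    le_add_of_nonneg_left (by positivity),
    fun g N r k0 KS FY ρY IS ρ FQ μq F μ hg hr hr0 hD hF => ?_⟩
  have hN := hg.one
  have r1 : K1 * r ≤ 1 / 4 := by
    have := hr0.trans (min_le_left _ _)
    rw [le_div_iff₀ (by positivity)] at this
    linarith
  have r2 : K2 * r ≤ 1 := by
    have := hr0.trans (min_le_right _ _)
    rw [le_div_iff₀ (by positivity)] at this
    linarith
  have r3 : r ≤ 1 / 4 := by nlinarith
  set Q : Finset (Ix n) := KS.sigma fun k => (IS k).sigma fun i => FQ k i with hQ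
  have hQ' : ∀ z ∈ Q, 0 < ρ z.2.1 ∧ ρ z.2.1 ≤ 1 / 2 ∧ 1 / 2 ≤ μq z.2.1 z.2.2 ∧ Kc ≤ z.1 ∧
      (z.1 : ℝ) ^ 6 ≤ 2 ^ z.1 / 2 ∧ Chain g C0 z.2.2 (ρ z.2.1) (μq z.2.1 z.2.2) z.1 (2 ^ z.1 / 2) := by
    rintro ⟨k, i, q⟩ hz
    simp only [hQ, Finset.mem_sigma] at hz
    obtain ⟨b1, b2, b3, b4⟩ := hD.hQ k hz.1 i hz.2.1
    obtain ⟨c1, c2, c3, -⟩ := hD.hK k hz.1
    have : (1 : ℝ) ≤ k := by exact_mod_cast (by omega : 1 ≤ k)
    exact ⟨hr.trans_le b1, b2.trans (one_div_le_one_div_of_le two_pos (by linarith)),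
      (b3.mem q hz.2.2).2.1, c2, c3, b4 q hz.2.2⟩
  obtain ⟨T, ε, η, hT, hε, hη, hηT, hTN, e1, e2, e3, e4⟩ := ev3_exists (Real.exp_pos (-(5 * N)))
    (ev3_all F fun x hx => h3 g x r (μ x) B0 hg.adm hg.nz hr r1 (hF.mem x hx).2.1 hB
      (hF.mem x hx).2.2)
    (ev3_all Q fun z hz => h2 g z.2.2 (ρ z.2.1) (μq z.2.1 z.2.2) z.1 (2 ^ z.1 / 2) r hg.adm hg.nz
      (hQ' z hz).2.2.2.1 (hQ' z hz).2.2.2.2.1 (hQ' z hz).2.2.1 (hQ' z hz).1 (hQ' z hz).2.2.2.2.2 hr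
      (by linarith)) (h4 g N r K2 hg hr hK2 r2)
  choose! G G1 G2 G3 G4 using e1
  have e5 : ∀ z ∈ Q, ∃ (yQ : Pl n → ℝ × ℝ) (V : Pl n → ℝ),
      Maj (fun ω => if Hit z.2.2 (ρ z.2.1 / 2) ω then μq z.2.1 z.2.2 * V ω else 0)
        (6 ^ n * ρ z.2.1 ^ (n - 2) * (Kc * μq z.2.1 z.2.2 ^ 2 / (2 ^ z.1 / 2 * (z.1 : ℝ) ^ 2))) ∧
      ∀ ω ∈ Dom n, Hit z.2.2 (ρ z.2.1 / 2) ω → ‖ω.1 + plr ω.2.1 (yQ ω) - z.2.2‖ ≤ 3 * ρ z.2.1 ∧
        QCell g T ε η r (ρ z.2.1) ω.1 ω.2 (yQ ω) (V ω) := fun z hz => by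
    obtain ⟨Cst, c1, c2, c3⟩ := e2 z hz
    exact cell hn h6 Cst c1 _ (hQ' z hz).1 (hQ' z hz).2.1 (by positivity) c2
      (fun ω y V => QCell g T ε η r (ρ z.2.1) ω.1 ω.2 y V) _ c3
  choose! yQ V Q1 Q2 using e5
  have lo := min_sum F fun x hx => (min_meet h6 h8 (G1 x hx) (hF.mem x hx).1 hr r3 (G2 x hx)
    (G3 x hx)).mul (sq_nonneg (μ x))
  have hi := ((ht g N T ε η k0 KS FY ρY hg hT hε hη hD.hY).add ((maj_sum Q Q1).mul
    (c := a * C) (by positivity))).mul (c := Ko) (by positivity)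
  have key := lo.le h8 (hi.mono (fun ω hω => ?_) le_rfl)
  · have e6 : ∀ x, r ^ (n - 2) * μ x ^ 2 = 120 * K * Real.exp (n * B0) *
        (μ x ^ 2 * (r ^ n / (K * Real.exp (n * B0)) / (120 * r ^ 2))) := fun x => by
      rw [pow_sub_two hn r]; field_simp
    have e7 : ∑ z ∈ Q, 6 ^ n * ρ z.2.1 ^ (n - 2) *
        (Kc * μq z.2.1 z.2.2 ^ 2 / (2 ^ z.1 / 2 * (z.1 : ℝ) ^ 2)) = 2 * 6 ^ n * Kc *
        ∑ k ∈ KS, ∑ i ∈ IS k, (∑ q ∈ FQ k i, ρ i ^ (n - 2) * μq i q ^ 2) /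
          (2 ^ k * (k : ℝ) ^ 2) := by
      simp only [hQ, Finset.sum_sigma, Finset.mul_sum, Finset.sum_div]
      refine Finset.sum_congr rfl fun k _ => Finset.sum_congr rfl fun i _ =>
        Finset.sum_congr rfl fun q _ => by ring
    have e8 : 0 ≤ ∑ k ∈ KS, ∑ i ∈ IS k, (∑ q ∈ FQ k i, ρ i ^ (n - 2) * μq i q ^ 2) /
        (2 ^ k * (k : ℝ) ^ 2) := Finset.sum_nonneg fun k hk => Finset.sum_nonneg fun i hi => by
      have := hr.trans_le (hD.hQ k hk i hi).1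
      exact div_nonneg (Finset.sum_nonneg fun q _ => by positivity) (by positivity)
    simp only [e6]
    rw [← Finset.mul_sum]
    rw [e7] at key
    refine (mul_le_mul_of_nonneg_left key (by positivity)).trans ?_
    generalize ∑ k ∈ KS, ∑ i ∈ IS k, (∑ q ∈ FQ k i, ρ i ^ (n - 2) * μq i q ^ 2) /
        (2 ^ k * (k : ℝ) ^ 2) = s at e8 ⊢
    have e9 : (0 : ℝ) ≤ 2 ^ k0 * N ^ 2 := by positivity
    have e10 : (0 : ℝ) ≤ 120 * K * Real.exp (n * B0) * Ko := by positivity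
    have e11 : 0 ≤ a * C * (2 * 6 ^ n * Kc) := by positivity
    nlinarith [mul_nonneg e10 (mul_nonneg hKt e8), mul_nonneg e10 (mul_nonneg e11 e9)]
  · have hp := mem_closedBall_zero_iff.1 hω.1
    have f1 : ∀ x, ∃ y : ℝ × ℝ, Meet (G x) ω → ‖y‖ ≤ 1 / 4 ∧ (ω.1 + plr ω.2.1 y, ω.2) ∈ G x :=
      fun x => by
        by_cases h : Meet (G x) ω
        · exact h.imp fun y hy _ => hy
        · exact ⟨0, fun h' => absurd h' h⟩
    choose yT f1 using f1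
    have f2 := h1 g N r T ε η (a * (N + C * (2 ^ k0 * N +
      N * ∑ k ∈ KS, 2 ^ k * if ∃ c ∈ FY k, Hit c (ρY k) ω then (1 : ℝ) else 0))) ω.1 ω.2
      (F.filter fun x => Meet (G x) ω) μ yT (Ix n) (Q.filter fun z => Hit z.2.2 (ρ z.2.1 / 2) ω)
      (fun z => yQ z ω) (fun z => ρ z.2.1) (fun z => a * (C * μq z.2.1 z.2.2)) (fun z => V z ω) hg hr
      r1 r2 hT hε hη hηT (hTN.trans (SS_low hg hp)) hp hω.2 ?_ e3 (fun x hx => ?_)
      (fun x hx x' hx' => hF.sep x (Finset.mem_filter.1 hx).1 x' (Finset.mem_filter.1 hx').1)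
      (fun z hz => ?_) fun y hy => ?_
    · refine le_trans (le_of_eq ?_) (f2.trans (le_of_eq ?_))
      · rw [Finset.sum_filter]
        exact Finset.sum_congr rfl fun x _ => by split_ifs <;> simp
      · rw [Finset.sum_filter, Finset.mul_sum Q]
        congr 2
        exact Finset.sum_congr rfl fun z _ => by split_ifs <;> ring
    · have : (0 : ℝ) ≤ ∑ k ∈ KS, 2 ^ k * if ∃ c ∈ FY k, Hit c (ρY k) ω then (1 : ℝ) else 0 :=
        Finset.sum_nonneg fun k _ => by split_ifs <;> simp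
      positivity
    · obtain ⟨hx, hx'⟩ := Finset.mem_filter.1 hx
      obtain ⟨b1, b2, b3⟩ := hF.mem x hx
      exact ⟨by linarith, h5.1 g N C0 B0 r (μ x) x hg (by linarith) hr (by linarith) (by linarith)
        hC0 hB' hB'' b3, (f1 x hx').1, (G2 x hx _ (f1 x hx').2).1,
        G4 x hx ω.1 ω.2 _ (f1 x hx').1 (f1 x hx').2⟩
    · obtain ⟨hz, hz'⟩ := Finset.mem_filter.1 hz
      have := (hQ' z hz).2.2.1
      exact ⟨by positivity, (Q2 z hz ω hω hz').2⟩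
    · obtain ⟨b1, b2, b3⟩ := depth hn hD (by linarith) (by linarith) hω (fun z => yQ z ω)
        (fun z hz h => (Q2 z hz ω hω h).1) hy
      refine (e4 _ _ b1 b2).trans (mul_le_mul_of_nonneg_left ?_ measureReal_nonneg)
      refine (mul_le_mul_of_nonneg_left (add_le_add le_rfl b3 : N + _ ≤ N + _)
        (by linarith)).trans (le_of_eq ?_)
      rw [← add_assoc, mul_add]
      congr 1
      rw [Finset.mul_sum]
      exact Finset.sum_congr rfl fun z _ => by split_ifs <;> simp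

end

end Pool.Agent.LinN2
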