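import Pool.Agent.Lib.MP_8465a2_an.N2.BasicB

/-!
Upper and lower integrals over random planes (MP_8465a2_an).
-/

namespace Pool.Agent.LinN2.Exp

open MeasureTheory Metric Set Filter Topology Complex
open scoped ENNReal ComplexConjugate

noncomputable section

variable {n : ℕ}

/-- parameters of a random plane -/
abbrev Pl (n : ℕ) := Rn n × (Dir n × Rn n)

/-- admissible parameters -/
def Dom (n : ℕ) : Set (Pl n) := closedBall 0 2 ×ˢ Tbox n

/-- bound for the upper integral -/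
def Maj (f : Pl n → ℝ) (b : ℝ) : Prop :=
  0 ≤ b ∧ ∃ M : Pl n → ℝ≥0∞, Measurable M ∧ ∫⁻ ω in Dom n, M ω ≤ ENNReal.ofReal b ∧
    ∀ ω ∈ Dom n, ENNReal.ofReal (f ω) ≤ M ω

/-- bound for the lower integral -/
def Min (f : Pl n → ℝ) (a : ℝ) : Prop :=
  (∀ ω, 0 ≤ f ω) ∧ ∃ m : Pl n → ℝ≥0∞, Measurable m ∧ ENNReal.ofReal a ≤ ∫⁻ ω in Dom n, m ω ∧
    ∀ ω ∈ Dom n, m ω ≤ ENNReal.ofReal (f ω)

variable {f f' : Pl n → ℝ} {a a' b b' : ℝ}

lemma Maj.add (h : Maj f b) (h' : Maj f' b') : Maj (fun ω => f ω + f' ω) (b + b') := by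
  obtain ⟨h0, M, h1, h2, h3⟩ := h
  obtain ⟨h0', M', h1', h2', h3'⟩ := h'
  refine ⟨add_nonneg h0 h0', fun ω => M ω + M' ω, h1.add h1', ?_, fun ω hω =>
    ENNReal.ofReal_add_le.trans (add_le_add (h3 ω hω) (h3' ω hω))⟩
  rw [lintegral_add_left h1, ENNReal.ofReal_add h0 h0']
  exact add_le_add h2 h2'

lemma Maj.mul (h : Maj f b) {c : ℝ} (hc : 0 ≤ c) : Maj (fun ω => c * f ω) (c * b) := by
  obtain ⟨h0, M, h1, h2, h3⟩ := h
  refine ⟨mul_nonneg hc h0, fun ω => ENNReal.ofReal c * M ω, h1.const_mul _, ?_, fun ω hω => ?_⟩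
  · rw [lintegral_const_mul _ h1, ENNReal.ofReal_mul hc]
    gcongr
  · rw [ENNReal.ofReal_mul hc]
    exact mul_le_mul_right (h3 ω hω) _

lemma Maj.mono (h : Maj f b) (hf : ∀ ω ∈ Dom n, f' ω ≤ f ω) (hb : b ≤ b') : Maj f' b' := by
  obtain ⟨h0, M, h1, h2, h3⟩ := h
  exact ⟨h0.trans hb, M, h1, h2.trans (ENNReal.ofReal_le_ofReal hb), fun ω hω =>
    (ENNReal.ofReal_le_ofReal (hf ω hω)).trans (h3 ω hω)⟩

lemma maj_zero : Maj (fun _ : Pl n => 0) 0 := ⟨le_rfl, fun _ => 0, measurable_const, by simp, by simp⟩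

lemma maj_sum {ι : Type} (S : Finset ι) {f : ι → Pl n → ℝ} {b : ι → ℝ}
    (h : ∀ i ∈ S, Maj (f i) (b i)) : Maj (fun ω => ∑ i ∈ S, f i ω) (∑ i ∈ S, b i) := by
  classical
  induction S using Finset.induction_on with
  | empty => simpa using maj_zero
  | insert i S hi ih =>
    simp only [Finset.sum_insert hi]
    exact (h i (by simp)).add (ih fun j hj => h j (by simp [hj]))

lemma Min.mul (h : Min f a) {c : ℝ} (hc : 0 ≤ c) : Min (fun ω => c * f ω) (c * a) := by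
  obtain ⟨h0, M, h1, h2, h3⟩ := h
  refine ⟨fun ω => mul_nonneg hc (h0 ω), fun ω => ENNReal.ofReal c * M ω, h1.const_mul _, ?_,
    fun ω hω => ?_⟩
  · rw [lintegral_const_mul _ h1, ENNReal.ofReal_mul hc]
    gcongr
  · rw [ENNReal.ofReal_mul hc]
    exact mul_le_mul_right (h3 ω hω) _

lemma Min.add (h : Min f a) (h' : Min f' a') : Min (fun ω => f ω + f' ω) (a + a') := by
  obtain ⟨h0, M, h1, h2, h3⟩ := h
  obtain ⟨h0', M', h1', h2', h3'⟩ := h'
  refine ⟨fun ω => add_nonneg (h0 ω) (h0' ω), fun ω => M ω + M' ω, h1.add h1', ?_, fun ω hω => ?_⟩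
  · rw [lintegral_add_left h1]
    exact ENNReal.ofReal_add_le.trans (add_le_add h2 h2')
  · rw [ENNReal.ofReal_add (h0 ω) (h0' ω)]
    exact add_le_add (h3 ω hω) (h3' ω hω)

lemma min_sum {ι : Type} (S : Finset ι) {f : ι → Pl n → ℝ} {a : ι → ℝ}
    (h : ∀ i ∈ S, Min (f i) (a i)) : Min (fun ω => ∑ i ∈ S, f i ω) (∑ i ∈ S, a i) := by
  classical
  induction S using Finset.induction_on with
  | empty => exact ⟨by simp, fun _ => 0, measurable_const, by simp, by simp⟩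
  | insert i S hi ih =>
    simp only [Finset.sum_insert hi]
    exact (h i (by simp)).add (ih fun j hj => h j (by simp [hj]))

lemma meas_Dom (h8 : GrazeStmt n) : MeasurableSet (Dom n) :=
  measurableSet_closedBall.prod h8.2.2.2

lemma Min.le (h8 : GrazeStmt n) (h : Min f a) (h' : Maj f b) : a ≤ b := by
  obtain ⟨-, m, -, h2, h3⟩ := h
  obtain ⟨h0, M, -, h2', h3'⟩ := h'
  rw [← ENNReal.ofReal_le_ofReal_iff h0]
  exact h2.trans ((setLIntegral_mono' (meas_Dom h8) fun ω hω => (h3 ω hω).trans (h3' ω hω)).trans h2')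

lemma vol_T (h8 : GrazeStmt n) : volume (Tbox n) ≤ 1 := by
  rw [h8.2.2.1]
  exact ENNReal.ofReal_le_one.2 (pow_le_one₀ (by norm_num) (by norm_num))

lemma maj_one (h8 : GrazeStmt n) : Maj (fun _ : Pl n => 1) 1 := by
  refine ⟨zero_le_one, fun _ => 1, measurable_const, ?_, by simp⟩
  rw [setLIntegral_one, Dom, Measure.volume_eq_prod, Measure.prod_prod, h8.2.2.1,
    Real.volume_pi_closedBall _ (by norm_num), ← ENNReal.ofReal_mul (by positivity),
    Fintype.card_fin, ← mul_pow]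
  exact ENNReal.ofReal_le_ofReal (pow_le_one₀ (by norm_num) (by norm_num))

/-- the real plane passes near `x` -/
def Hit (x : Rn n) (s : ℝ) (ω : Pl n) : Prop :=
  ∃ y0 : ℝ × ℝ, ‖y0‖ ≤ 1 ∧ ‖ω.1 + plr ω.2.1 y0 - x‖ ≤ s

lemma vol_sq (y : ℝ × ℝ) {R : ℝ} (hR : 0 ≤ R) :
    volume (closedBall y R) = ENNReal.ofReal (4 * R ^ 2) := by
  rw [← closedBall_prod_same, Measure.volume_eq_prod, Measure.prod_prod, Real.volume_closedBall,
    Real.volume_closedBall, ← ENNReal.ofReal_mul (by positivity)]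
  congr 1
  ring

lemma pow_sub_two (hn : 3 ≤ n) (r : ℝ) : r ^ n = r ^ (n - 2) * r ^ 2 := by
  rw [← pow_add]; congr 1; omega

open Classical in
lemma cell (hn : 3 ≤ n) (h6 : HitStmt n) (Cst : Rn n × (Dir n × Rn n) × (ℝ × ℝ) → ℝ≥0∞)
    (hm : Measurable Cst) (x : Rn n) {ρ b : ℝ} (hρ : 0 < ρ) (hρ' : ρ ≤ 1 / 2) (hb0 : 0 ≤ b)
    (hb : ∀ p', ‖p' - x‖ ≤ 3 * ρ → ∫⁻ y in closedBall (0 : ℝ × ℝ) (1 + ρ), ∫⁻ θ in Tbox n,
      Cst (p', θ, y) ≤ ENNReal.ofReal b) (P : Pl n → ℝ × ℝ → ℝ → Prop) (μ : ℝ)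
    (hP : ∀ (p : Rn n) (θ : Dir n × Rn n) (y : ℝ × ℝ), θ ∈ Tbox n → ‖y‖ ≤ 1 + ρ →
      ‖p + plr θ.1 y - x‖ ≤ 3 * ρ →
      ∃ V, ENNReal.ofReal (μ * V) ≤ Cst (p + plr θ.1 y, θ, y) ∧ P (p, θ) y V) :
    ∃ (yQ : Pl n → ℝ × ℝ) (V : Pl n → ℝ),
      Maj (fun ω => if Hit x (ρ / 2) ω then μ * V ω else 0) (6 ^ n * ρ ^ (n - 2) * b) ∧
      ∀ ω ∈ Dom n, Hit x (ρ / 2) ω → ‖ω.1 + plr ω.2.1 (yQ ω) - x‖ ≤ 3 * ρ ∧ P ω (yQ ω) (V ω) := by
  set Z : Set (Rn n × (Dir n × Rn n) × (ℝ × ℝ)) := {z | ‖z.1 - x‖ ≤ 3 * ρ} with hZ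
  have hZm : MeasurableSet Z := (isClosed_le (by fun_prop) continuous_const).measurableSet
  obtain ⟨m1, e1⟩ := h6.1 (Z.indicator Cst) (hm.indicator hZm) (closedBall 0 (1 + ρ))
  have key : ∀ ω : Pl n, ∃ (y : ℝ × ℝ) (V : ℝ), ω ∈ Dom n → Hit x (ρ / 2) ω →
      (‖ω.1 + plr ω.2.1 y - x‖ ≤ 3 * ρ ∧ P ω y V) ∧ ENNReal.ofReal (ρ ^ 2) *
        ENNReal.ofReal (μ * V) ≤ ∫⁻ y in closedBall (0 : ℝ × ℝ) (1 + ρ),
          Z.indicator Cst (ω.1 + plr ω.2.1 y, ω.2, y) := fun ω => by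
    by_cases h : ω ∈ Dom n ∧ Hit x (ρ / 2) ω
    · obtain ⟨hω, y0, a1, a2⟩ := h
      obtain ⟨y, b1, b2, b3⟩ := h6.2.1 Cst x ρ ω.1 ω.2 y0 hm hρ hρ' hω.2 a1 a2
      obtain ⟨V, c1, c2⟩ := hP ω.1 ω.2 y hω.2 b1 b2
      exact ⟨y, V, fun _ _ => ⟨⟨b2, c2⟩, le_trans (by gcongr) b3⟩⟩
    · exact ⟨0, 0, fun a1 a2 => absurd ⟨a1, a2⟩ h⟩
  choose yQ V hV using key
  have hρ2 : ENNReal.ofReal (ρ ^ 2) ≠ 0 := by simpa using hρ.ne'
  refine ⟨yQ, V, ⟨by positivity, fun ω => (ENNReal.ofReal (ρ ^ 2))⁻¹ * _, m1.const_mul _, ?_,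
    fun ω hω => ?_⟩, fun ω hω h => (hV ω hω h).1⟩
  · rw [lintegral_const_mul _ m1]
    have e2 : ∫⁻ p' : Rn n, ∫⁻ y in closedBall (0 : ℝ × ℝ) (1 + ρ), ∫⁻ θ in Tbox n,
        Z.indicator Cst (p', θ, y) ≤ ENNReal.ofReal ((2 * (3 * ρ)) ^ n * b) := by
      calc _ ≤ ∫⁻ p' : Rn n, (closedBall x (3 * ρ)).indicator (fun _ => ENNReal.ofReal b) p' := by
            refine lintegral_mono fun p' => ?_
            by_cases h : ‖p' - x‖ ≤ 3 * ρ
            · rw [indicator_of_mem (mem_closedBall_iff_norm.2 h)]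
              refine le_trans ?_ (hb p' h)
              exact lintegral_mono fun y => lintegral_mono fun θ => indicator_le_self _ _ _
            · simp [hZ, indicator, h]
        _ = _ := by
            rw [lintegral_indicator_const measurableSet_closedBall,
              Real.volume_pi_closedBall _ (by positivity), ← ENNReal.ofReal_mul hb0,
              Fintype.card_fin, mul_comm]
    refine (mul_le_mul_right ((lintegral_mono_set (prod_mono (subset_univ _) Subset.rfl)).trans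
      (e1.le.trans e2)) _).trans (le_of_eq ?_)
    rw [← ENNReal.ofReal_inv_of_pos (by positivity), ← ENNReal.ofReal_mul (by positivity)]
    congr 1
    rw [show 2 * (3 * ρ) = 6 * ρ by ring, mul_pow, pow_sub_two hn ρ]
    field_simp
  · beta_reduce
    split_ifs with h
    · refine le_trans (le_of_eq ?_) (mul_le_mul_right (hV ω hω h).2 _)
      rw [← mul_assoc, ENNReal.inv_mul_cancel hρ2 ENNReal.ofReal_ne_top, one_mul]
    · simp

open Classical in
lemma maj_hit (hn : 3 ≤ n) (h6 : HitStmt n) (h8 : GrazeStmt n) (x : Rn n) {ρ : ℝ} (hρ : 0 < ρ)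
    (hρ' : ρ ≤ 1 / 4) :
    Maj (fun ω => if Hit x ρ ω then 1 else 0) (9 * 12 ^ n * ρ ^ (n - 2)) := by
  obtain ⟨yQ, V, h, hV⟩ := cell hn h6 (fun _ => 1) measurable_const x (ρ := 2 * ρ) (b := 9)
    (by positivity) (by linarith) (by norm_num) (fun p' _ => by
      simp only [setLIntegral_one, setLIntegral_const]
      rw [vol_sq _ (by positivity)]
      refine (mul_le_of_le_one_left' (vol_T h8)).trans (ENNReal.ofReal_le_ofReal ?_)
      nlinarith) (fun _ _ V => V = 1) 1 fun _ _ _ _ _ _ => ⟨1, by simp, rfl⟩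
  rw [show 2 * ρ / 2 = ρ by ring] at h hV
  refine h.mono (fun ω hω => ?_) ?_
  · split_ifs with h1
    · rw [(hV ω hω h1).2, mul_one]
    · rfl
  · have : (2 : ℝ) ^ (n - 2) ≤ 2 ^ n := pow_le_pow_right₀ one_le_two (Nat.sub_le _ _)
    rw [mul_pow, show (12 : ℝ) = 6 * 2 by norm_num, mul_pow]
    have h2 : (0 : ℝ) ≤ 6 ^ n * ρ ^ (n - 2) * 9 := by positivity
    nlinarith [mul_le_mul_of_nonneg_left this h2]

/-- the real plane meets the good set -/
def Meet (G : Set (Pl n)) (ω : Pl n) : Prop :=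
  ∃ y : ℝ × ℝ, ‖y‖ ≤ 1 / 4 ∧ (ω.1 + plr ω.2.1 y, ω.2) ∈ G

open Classical in
lemma min_meet (h6 : HitStmt n) (h8 : GrazeStmt n) {G : Set (Pl n)} (hG : MeasurableSet G)
    {x : Rn n} {r v : ℝ} (hx : ‖x‖ ≤ 1) (hr : 0 < r) (hr' : r ≤ 1 / 4)
    (h : ∀ z ∈ G, ‖z.1 - x‖ ≤ r ∧ z.2 ∈ Tbox n) (hv : ENNReal.ofReal v ≤ volume G) :
    Min (fun ω => if Meet G ω then 1 else 0) (v / (120 * r ^ 2)) := by
  set Z : Set (Rn n × (Dir n × Rn n) × (ℝ × ℝ)) := {z | (z.1, z.2.1) ∈ G} with hZ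
  have hZm : MeasurableSet Z := hG.preimage (by fun_prop)
  obtain ⟨m1, e1⟩ := h6.1 (Z.indicator 1) (measurable_one.indicator hZm) (closedBall 0 (1 / 4))
  have h30 : ENNReal.ofReal (30 * r ^ 2) ≠ 0 := by simpa using hr.ne'
  have hT := h8.2.2.2
  refine ⟨fun ω => by beta_reduce; split_ifs <;> norm_num, fun ω => (ENNReal.ofReal (30 * r ^ 2))⁻¹ * _,
    m1.const_mul _, ?_, fun ω hω => ?_⟩
  · rw [lintegral_const_mul _ m1]
    have e2 : ∫⁻ ω in (univ : Set (Rn n)) ×ˢ Tbox n, ∫⁻ y in closedBall (0 : ℝ × ℝ) (1 / 4),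
        Z.indicator 1 (ω.1 + plr ω.2.1 y, ω.2, y) ≤ ∫⁻ ω in Dom n,
        ∫⁻ y in closedBall (0 : ℝ × ℝ) (1 / 4), Z.indicator 1 (ω.1 + plr ω.2.1 y, ω.2, y) := by
      rw [← lintegral_indicator (MeasurableSet.univ.prod hT), ← lintegral_indicator (meas_Dom h8)]
      refine lintegral_mono (indicator_le fun ω hω => ?_)
      by_cases h2 : ω ∈ Dom n
      · rw [indicator_of_mem h2]
      · refine le_trans (le_of_eq ?_) zero_le
        refine setLIntegral_eq_zero measurableSet_closedBall fun y hy => indicator_of_notMem ?_ _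
        refine fun hz => h2 ⟨mem_closedBall_zero_iff.2 ?_, hω.2⟩
        have a1 := (h _ hz).1
        have a2 := norm_plr_le hω.2.1 y
        have a3 := mem_closedBall_zero_iff.1 hy
        have a4 : ω.1 = (ω.1 + plr ω.2.1 y - x) + x - plr ω.2.1 y := by abel
        rw [a4]
        linarith [norm_sub_le ((ω.1 + plr ω.2.1 y - x) + x) (plr ω.2.1 y),
          norm_add_le (ω.1 + plr ω.2.1 y - x) x]
    have e3 : ∫⁻ p' : Rn n, ∫⁻ y in closedBall (0 : ℝ × ℝ) (1 / 4), ∫⁻ θ in Tbox n,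
        Z.indicator 1 (p', θ, y) = ENNReal.ofReal (1 / 4) * volume G := by
      have e4 : ∀ (p' : Rn n) (y : ℝ × ℝ), ∫⁻ θ in Tbox n, Z.indicator 1 (p', θ, y) =
          volume (Prod.mk p' ⁻¹' G) := fun p' y => by
        rw [← lintegral_indicator hT, ← lintegral_indicator_one (hG.preimage (by fun_prop))]
        refine lintegral_congr fun θ => ?_
        by_cases h1 : (p', θ) ∈ G
        · simp [indicator, h1, hZ, (h _ h1).2]
        · simp [indicator, h1, hZ]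
      simp only [e4, setLIntegral_const]
      rw [lintegral_mul_const _ (measurable_measure_prodMk_left hG), ← Measure.prod_apply hG,
        vol_sq _ (by norm_num), mul_comm]
      norm_num [Measure.volume_eq_prod]
    refine le_trans ?_ (mul_le_mul_right (e3.ge.trans (e1.ge.trans e2)) _)
    refine le_trans (le_of_eq ?_) (mul_le_mul_right (mul_le_mul_right hv _) _)
    rw [← ENNReal.ofReal_inv_of_pos (by positivity), ← ENNReal.ofReal_mul (by positivity),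
      ← ENNReal.ofReal_mul (by positivity)]
    congr 1
    field_simp
    ring
  · beta_reduce
    split_ifs with h1
    · rw [ENNReal.ofReal_one]
      refine (mul_le_mul_right (?_ : _ ≤ ENNReal.ofReal (30 * r ^ 2)) _).trans
        (ENNReal.inv_mul_cancel h30 ENNReal.ofReal_ne_top).le
      refine le_trans ?_ (h6.2.2 x r ω.1 ω.2 hr hω.2)
      rw [← lintegral_indicator_one (isClosed_le (by fun_prop) continuous_const).measurableSet]
      refine (lintegral_mono' Measure.restrict_le_self fun y => ?_)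
      by_cases h2 : (ω.1 + plr ω.2.1 y, ω.2) ∈ G
      · simp [indicator, hZ, h2, (h _ h2).1]
      · simp [indicator, hZ, h2]
    · rw [setLIntegral_eq_zero measurableSet_closedBall fun y hy => indicator_of_notMem (s := Z)
        (fun hz => h1 ⟨y, mem_closedBall_zero_iff.1 hy, hz⟩) _]
      simp

/-- second moment of the defect at the top scale -/
def X2 (g : Cn n → Cn n) (T ε η : ℝ) (ω : Pl n) : ℝ :=
  ∫ c, pt ε T c * XV g 1 η (ω.1 + ω.2.1.1) ω.2.2 c ^ 2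

lemma SS_low {g : Cn n → Cn n} {N : ℝ} (hg : Nor g N) {p : Rn n} (hp : ‖p‖ ≤ 2) :
    Real.exp (-(5 * N)) ≤ SS g (cx p) 1 := by
  have := hg.log_ge (x := p) (by linarith) one_pos (by norm_num)
  rw [Real.log_one, mul_zero, add_zero] at this
  exact (Real.le_log_iff_exp_le (SS_pos hg.diff hg.nz _ one_pos)).1 this

lemma int_pt (h9 : PtStmt) {ε T : ℝ} (hε : 0 < ε) (hT : 0 < T) {F : ℝ → ℝ} (hF : Continuous F) :
    Integrable fun c => pt ε T c * F c :=
  ((h9.1 ε T hε hT).1.mul hF).integrable_of_hasCompactSupport (h9.1 ε T hε hT).2.2.2.1.mul_right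

lemma X1_le (h9 : PtStmt) {g : Cn n → Cn n} (hg : Continuous g) {T ε η lam : ℝ} (hT : 0 < T)
    (hε : 0 < ε) (hη : 0 < η) (hl : 0 < lam) (ω : Pl n) :
    ∫ c, pt ε T c * XV g 1 η (ω.1 + ω.2.1.1) ω.2.2 c ≤ lam + X2 g T ε η ω / lam := by
  have hc : Continuous fun c => XV g 1 η (ω.1 + ω.2.1.1) ω.2.2 c :=
    (continuous_XV hg 1 hη).comp (f := fun c => (ω.1 + ω.2.1.1, ω.2.2, c)) (by fun_prop)
  obtain ⟨-, a2, -, -, a5, -⟩ := h9.1 ε T hε hT
  have i1 := int_pt h9 hε hT (F := fun _ => lam) continuous_const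
  have i2 := (int_pt h9 hε hT (hc.fun_pow 2)).div_const lam
  calc _ ≤ ∫ c, (pt ε T c * lam + pt ε T c * XV g 1 η (ω.1 + ω.2.1.1) ω.2.2 c ^ 2 / lam) := by
        refine integral_mono (int_pt h9 hε hT hc) (i1.add i2) fun c => ?_
        beta_reduce
        rw [mul_div_assoc, ← mul_add]
        refine mul_le_mul_of_nonneg_left ?_ (a2 c)
        rw [← sub_le_iff_le_add', le_div_iff₀ hl]
        nlinarith [sq_nonneg (XV g 1 η (ω.1 + ω.2.1.1) ω.2.2 c - lam), sq_nonneg lam,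
          sq_nonneg (XV g 1 η (ω.1 + ω.2.1.1) ω.2.2 c)]
    _ ≤ _ := by
        rw [integral_add i1 i2, integral_mul_const, integral_div]
        exact add_le_add (mul_le_of_le_one_left hl.le a5) le_rfl

lemma X2_nonneg (h9 : PtStmt) (g : Cn n → Cn n) {T ε : ℝ} (η : ℝ) (hT : 0 < T) (hε : 0 < ε)
    (ω : Pl n) : 0 ≤ X2 g T ε η ω :=
  integral_nonneg fun c => mul_nonneg ((h9.1 ε T hε hT).2.1 c) (sq_nonneg _)

lemma maj_X2 (h7 : MomStmt n) (h8 : GrazeStmt n) (h9 : PtStmt) : ∃ K : ℝ, 1 ≤ K ∧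
    ∀ (g : Cn n → Cn n) (N T ε η : ℝ), Nor g N → 0 < T → 0 < ε → 0 < η →
    Maj (X2 g T ε η) (K * N ^ 2) := by
  obtain ⟨K, hK, h7⟩ := h7
  have h4 : (1 : ℝ) ≤ 4 ^ n := one_le_pow₀ (by norm_num)
  refine ⟨4 ^ n * (100 * K), by nlinarith, fun g N T ε η hg hT hε hη => ?_⟩
  obtain ⟨a1, a2, -, a4, a5, -⟩ := h9.1 ε T hε hT
  have hN := hg.one
  have hc := continuous_XV hg.adm.continuous 1 hη
  have hm : Measurable fun z : Pl n × ℝ => ENNReal.ofReal (pt ε T z.2) *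
      ENNReal.ofReal (XV g 1 η (z.1.1 + z.1.2.1.1) z.1.2.2 z.2) ^ 2 :=
    (a1.comp continuous_snd).measurable.ennreal_ofReal.mul
      ((hc.comp (f := fun z : Pl n × ℝ => (z.1.1 + z.1.2.1.1, z.1.2.2, z.2))
        (by fun_prop)).measurable.ennreal_ofReal.pow_const 2)
  refine ⟨by positivity, fun ω => ∫⁻ c, ENNReal.ofReal (pt ε T c) *
    ENNReal.ofReal (XV g 1 η (ω.1 + ω.2.1.1) ω.2.2 c) ^ 2, hm.lintegral_prod_right', ?_,
    fun ω hω => ?_⟩
  · have key : ∀ p : Rn n, ‖p‖ ≤ 2 → ∀ c : ℝ, ∫⁻ θ in Tbox n, ENNReal.ofReal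
        (XV g 1 η (p + θ.1.1) θ.2 c) ^ 2 ≤ ENNReal.ofReal (100 * K * N ^ 2) := fun p hp c => by
      have b1 := SS_low hg hp
      have b0 := SS_pos hg.diff hg.nz (cx p) one_pos
      have b2 : SS g (cx p) (70 * 1) ≤ Real.exp (5 * N) * SS g (cx p) 1 := by
        refine (hg.SS_le_one (by rw [norm_cx]; linarith)).trans ?_
        rwa [Real.exp_neg, inv_le_iff_one_le_mul₀' (Real.exp_pos _)] at b1
      have b3 := (h7 g p p 1 (5 * N) c hg.adm hg.nz one_pos (by simp) (by linarith) b2).2 η hη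
      simp only [one_smul] at b3
      have b4 : -(5 * N) ≤ Real.log (SS g (cx p) 1) := (Real.le_log_iff_exp_le b0).2 b1
      have b5 : Measurable fun θ : Dir n × Rn n => ENNReal.ofReal
          (XV g (SS g (cx p) 1) η (p + θ.1.1) θ.2 c) ^ 2 :=
        ((continuous_XV hg.adm.continuous _ hη).comp
          (f := fun θ : Dir n × Rn n => (p + θ.1.1, θ.2, c))
          (by fun_prop)).measurable.ennreal_ofReal.pow_const 2
      calc _ ≤ ∫⁻ θ in Tbox n, (2 * ENNReal.ofReal (XV g (SS g (cx p) 1) η (p + θ.1.1) θ.2 c) ^ 2 +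
            ENNReal.ofReal (50 * N ^ 2)) := by
            refine lintegral_mono fun θ => ?_
            have c1 := XV_nonneg g 1 η (p + θ.1.1) θ.2 c
            have c2 := XV_nonneg g (SS g (cx p) 1) η (p + θ.1.1) θ.2 c
            have c3 : XV g 1 η (p + θ.1.1) θ.2 c ≤
                XV g (SS g (cx p) 1) η (p + θ.1.1) θ.2 c + 5 * N := by
              refine max_le (by linarith) ?_
              rw [Real.log_one]
              linarith [le_max_right 0 (Real.log (SS g (cx p) 1) - Real.log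
                (‖cx θ.2 ⬝ᵥ g (cx (p + θ.1.1)) - c‖ ^ 2 + η ^ 2) / 2), show XV g (SS g (cx p) 1) η
                (p + θ.1.1) θ.2 c = max 0 _ from rfl]
            rw [← ENNReal.ofReal_pow c1, ← ENNReal.ofReal_pow c2, ← ENNReal.ofReal_ofNat 2,
              ← ENNReal.ofReal_mul zero_le_two, ← ENNReal.ofReal_add (by positivity) (by positivity)]
            refine ENNReal.ofReal_le_ofReal ((pow_le_pow_left₀ c1 c3 2).trans ?_)
            nlinarith [sq_nonneg (XV g (SS g (cx p) 1) η (p + θ.1.1) θ.2 c - 5 * N)]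
        _ ≤ 2 * ENNReal.ofReal (K * (5 * N) ^ 2) + ENNReal.ofReal (50 * N ^ 2) := by
            rw [lintegral_add_right _ measurable_const, lintegral_const_mul _ b5, setLIntegral_const]
            exact add_le_add (mul_le_mul_right b3 _) (mul_le_of_le_one_right' (vol_T h8))
        _ ≤ _ := by
            rw [← ENNReal.ofReal_ofNat 2, ← ENNReal.ofReal_mul zero_le_two,
              ← ENNReal.ofReal_add (by positivity) (by positivity)]
            exact ENNReal.ofReal_le_ofReal (by nlinarith [sq_nonneg N])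
    have e1 : ∫⁻ c, ENNReal.ofReal (pt ε T c) ≤ 1 := by
      rw [← ofReal_integral_eq_lintegral_ofReal (a1.integrable_of_hasCompactSupport a4)
        (ae_of_all _ a2)]
      exact ENNReal.ofReal_le_one.2 a5
    rw [Dom, Measure.volume_eq_prod, setLIntegral_prod _ hm.lintegral_prod_right'.aemeasurable]
    calc _ ≤ ∫⁻ _ in closedBall (0 : Rn n) 2, ENNReal.ofReal (100 * K * N ^ 2) := by
          refine setLIntegral_mono' measurableSet_closedBall fun p hp => ?_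
          refine (lintegral_lintegral_swap (f := fun (θ : Dir n × Rn n) (c : ℝ) =>
            ENNReal.ofReal (pt ε T c) * ENNReal.ofReal (XV g 1 η (p + θ.1.1) θ.2 c) ^ 2)
            (hm.comp (f := fun z : (Dir n × Rn n) × ℝ =>
            ((p, z.1), z.2)) (by fun_prop)).aemeasurable).le.trans ?_
          calc _ ≤ ∫⁻ c, ENNReal.ofReal (pt ε T c) * ENNReal.ofReal (100 * K * N ^ 2) := by
                refine lintegral_mono fun c => ?_
                rw [lintegral_const_mul' _ _ ENNReal.ofReal_ne_top]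
                exact mul_le_mul_right (key p (mem_closedBall_zero_iff.1 hp) c) _
            _ ≤ _ := by
                rw [lintegral_mul_const' _ _ ENNReal.ofReal_ne_top]
                exact mul_le_of_le_one_left' e1
      _ = _ := by
          rw [setLIntegral_const, Real.volume_pi_closedBall _ (by norm_num), Fintype.card_fin,
            ← ENNReal.ofReal_mul (by positivity)]
          congr 1
          ring
  · have hc' : Continuous fun c => XV g 1 η (ω.1 + ω.2.1.1) ω.2.2 c :=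
      hc.comp (f := fun c => (ω.1 + ω.2.1.1, ω.2.2, c)) (by fun_prop)
    rw [X2, ofReal_integral_eq_lintegral_ofReal (int_pt h9 hε hT (hc'.fun_pow 2))
      (ae_of_all _ fun c => mul_nonneg (a2 c) (sq_nonneg _))]
    refine lintegral_mono fun c => le_of_eq ?_
    rw [ENNReal.ofReal_mul (a2 c), ENNReal.ofReal_pow (XV_nonneg _ _ _ _ _ _)]

lemma ev3_all {ι : Type} (S : Finset ι) {l : Filter ℝ} {P : ι → ℝ → ℝ → ℝ → Prop}
    (h : ∀ i ∈ S, ∀ᶠ T in l, ∀ᶠ ε in l, ∀ᶠ η in l, P i T ε η) :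
    ∀ᶠ T in l, ∀ᶠ ε in l, ∀ᶠ η in l, ∀ i ∈ S, P i T ε η :=
  ((eventually_all_finset S).2 h).mono fun _ hT => ((eventually_all_finset S).2 hT).mono
    fun _ hε => (eventually_all_finset S).2 hε

lemma ev3_exists {P Q : ℝ → ℝ → ℝ → Prop} {R : ℝ → Prop} {δ : ℝ} (hδ : 0 < δ)
    (hP : ∀ᶠ T in 𝓝[>] (0 : ℝ), ∀ᶠ ε in 𝓝[>] (0 : ℝ), ∀ᶠ η in 𝓝[>] (0 : ℝ), P T ε η)
    (hQ : ∀ᶠ T in 𝓝[>] (0 : ℝ), ∀ᶠ ε in 𝓝[>] (0 : ℝ), ∀ᶠ η in 𝓝[>] (0 : ℝ), Q T ε η)
    (hR : ∀ᶠ T in 𝓝[>] (0 : ℝ), R T) : ∃ T ε η, 0 < T ∧ 0 < ε ∧ 0 < η ∧ η ≤ T ∧ T ≤ δ ∧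
      P T ε η ∧ Q T ε η ∧ R T := by
  obtain ⟨T, a1, a2, a3, a4⟩ := (hP.and (hQ.and (hR.and (Ioc_mem_nhdsGT hδ)))).exists
  obtain ⟨ε, b1, b2, b3⟩ := (a1.and (a2.and self_mem_nhdsWithin)).exists
  obtain ⟨η, c1, c2, c3⟩ := (b1.and (b2.and (Ioc_mem_nhdsGT a4.1))).exists
  exact ⟨T, ε, η, a4.1, b3, c3.1, c3.2, a4.2, c1, c2, a3⟩

end

end Pool.Agent.LinN2.Exp
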