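import Pool.Agent.Lib.MP_8465a2_an.N2.Stmts2

/-!
From the bound on the unit cube to the conjecture (MP_8465a2_an).
-/

namespace Pool.Agent.LinN2

open Finset MeasureTheory Pool.Agent.LinCrit Pool.Agent.Alesker Metric

namespace Final

variable {n : ℕ}

/-- the bound on a convex compact set -/
lemma core (h : LocalStmt n) {S : Set (Fin n → ℝ)} (hS : Convex ℝ S) (hc : IsCompact S) :
    ∃ C : ℝ, 0 ≤ C ∧ ∀ (v : (Fin n → ℝ) → ℝ) (i : Fin n) (L : ℝ), ∀ p ∈ S,
      (∀ c ∈ S, Har (fun z => v z + -v c) c (3 * R0 n) 1) → 2 ≤ L → Real.exp (-L) ≤ |pd i v p| →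
      μH[(n : ℝ) - 2] {x ∈ S | gr v x = 0} ≤ ENNReal.ofReal (C * L ^ 2) := by
  obtain ⟨C, hC, h1⟩ := h
  obtain ⟨B, hB, h2⟩ := chain hS hc.isBounded
  obtain ⟨t, htS, ht, hcov⟩ := finite_cover_balls_of_compact hc one_pos
  lift t to Finset (Fin n → ℝ) using ht
  have hR := R0_pos n
  refine ⟨#t * (C * B ^ 2), by positivity, fun v i L p hp hv hL h0 => ?_⟩
  have hs : Sm v := by simpa using (hv p hp).sm.add (contDiff_const (c := v p))
  have e1 : ∀ a l, pd l (fun z => v z + a) = pd l v := fun a l => funext fun z => by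
    rw [pd_add hs contDiff_const, pd_const, add_zero]
  have h3 : ∀ c ∈ t, μH[(n : ℝ) - 2] ((fun z => c + z) '' {x : Fin n → ℝ | ‖x‖ ≤ 1 ∧
      gr (fun z => v (c + z) + -v c) x = 0}) ≤
      ENNReal.ofReal (C * B ^ 2 * L ^ 2) := fun c hc => by
    rw [(isometry_add_left c).hausdorffMeasure_image (Or.inr (add_left_surjective c))]
    obtain ⟨y, hy, h4⟩ := h2 (pd i v) L p hp c (htS hc) (fun c hc => by
      rw [← e1 (-v c)]
      exact Har.pd ((hv c hc).mono (by simp; linarith)) i) (by linarith) h0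
    refine (h1 _ (y - c) i (B * L) (hv c (htS hc)).trans hy (by nlinarith) ?_).trans
      (ENNReal.ofReal_le_ofReal (le_of_eq (by ring)))
    rwa [pd_trans (hv c (htS hc)).sm, e1, add_sub_cancel]
  refine (measure_mono (t := ⋃ c ∈ t, _) fun x hx => ?_).trans
    ((measure_biUnion_finset_le _ _).trans ((sum_le_card_nsmul _ _ _ h3).trans (le_of_eq ?_)))
  · obtain ⟨c, hc, h4⟩ := Set.mem_iUnion₂.mp (hcov hx.1)
    refine Set.mem_iUnion₂.mpr ⟨c, hc, x - c, ⟨(mem_ball_iff_norm.mp h4).le, funext fun l => ?_⟩,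
      add_sub_cancel c x⟩
    change pd l _ _ = _
    rw [pd_trans (hv c (htS hc)).sm, e1, add_sub_cancel]
    exact congrFun hx.2 l
  · rw [mul_assoc (#t : ℝ), ENNReal.ofReal_mul (Nat.cast_nonneg _), ENNReal.ofReal_natCast,
      nsmul_eq_mul]

/-- the estimate for large frequency -/
lemma global (hn : 3 ≤ n) (h : LocalStmt n) : ∃ C : ℝ, 0 ≤ C ∧
    ∀ (u : EuclideanSpace ℝ (Fin n) → ℝ) (M N : ℝ), ContDiffOn ℝ 2 u (ball 0 1) →
    (∀ x ∈ ball (0 : EuclideanSpace ℝ (Fin n)) 1,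
      ∑ i, iteratedFDeriv ℝ 2 u x (fun _ => EuclideanSpace.single i (1 : ℝ)) = 0) → 0 < M →
    (∀ r < M, ∃ x ∈ ball (0 : EuclideanSpace ℝ (Fin n)) (1 / 2), r < ‖fderiv ℝ u x‖) →
    (∀ x ∈ ball (0 : EuclideanSpace ℝ (Fin n)) 1, ‖fderiv ℝ u x‖ ≤ Real.exp N * M) → 2 ≤ N →
    μH[(n : ℝ) - 2] ({x | fderiv ℝ u x = 0} ∩ ball 0 (1 / 2)) ≤ ENNReal.ofReal (C * N ^ 2) := by
  obtain ⟨η, T, hη, hη1, hT, hc, h1⟩ := transfer n
  have hS := (convex_closedBall (0 : EuclideanSpace ℝ (Fin n)) (1 / 2)).linear_preimage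
    T.toLinearMap
  obtain ⟨C, hC, h2⟩ := core h hS hc
  have hn' : (3 : ℝ) ≤ n := by exact_mod_cast hn
  have hR := R0_pos n
  obtain ⟨B, hB⟩ : ∃ B, B = 1 + Real.log (2 * n / η) := ⟨_, rfl⟩
  have hB1 : 1 ≤ B := by
    have := Real.log_nonneg (show 1 ≤ 2 * n / η by rw [le_div_iff₀ hη]; linarith)
    linarith
  refine ⟨(‖T‖₊ : ℝ) ^ (n - 2) * (C * B ^ 2), by positivity, fun u M N hu h0 hM hs hb hN => ?_⟩
  have hK : 0 < Real.exp N * M := by positivity
  obtain ⟨v, hv, h4⟩ := h1 u _ hu h0 hK hb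
  have hc0 : ∀ c : Fin n → ℝ, ‖c - c‖ ≤ 3 * R0 n := fun c => by simp; linarith
  obtain ⟨x, hx, h5⟩ := hs (M / 2) (by linarith)
  obtain ⟨p, rfl⟩ := hT x
  obtain ⟨e, he, h6⟩ := exists_dir h5
  obtain ⟨i, hi⟩ : ∃ i, M / (2 * n) ≤ |fderiv ℝ u (T p) (EuclideanSpace.single i 1)| := by
    by_contra h
    push Not at h
    have := sum_le_sum fun l (_ : l ∈ univ) => (le_abs_self _).trans ((abs_mul _ _).trans_le
      (mul_le_mul ((PiLp.norm_apply_le e l).trans he) (h l).le (abs_nonneg _) zero_le_one))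
    rw [← clm_eq_sum, sum_const, card_univ, Fintype.card_fin, nsmul_eq_mul,
      show n * (1 * (M / (2 * n))) = M / 2 by field_simp] at this
    linarith
  have hp := ball_subset_closedBall hx
  have h7 := h2 v i (B * N) p hp (fun c hc => (h4 c hc).1) (by nlinarith) (by
    rw [((h4 p hp).2 p (hc0 p)).2, abs_mul, abs_mul, abs_of_pos hη, abs_of_pos (inv_pos.mpr hK)]
    calc _ ≤ Real.exp (-(N + Real.log (2 * n / η))) := Real.exp_le_exp.mpr (by nlinarith)
      _ = (Real.exp N * M)⁻¹ * (η * (M / (2 * n))) := by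
        rw [Real.exp_neg, Real.exp_add, Real.exp_log (by positivity)]
        field_simp
      _ ≤ _ := by gcongr)
  refine (measure_mono fun x hx => ?_).trans
    ((T.lipschitz.hausdorffMeasure_image_le (by linarith) _).trans
      ((mul_le_mul' le_rfl h7).trans (le_of_eq ?_)))
  · obtain ⟨q, rfl⟩ := hT x
    have hq := ball_subset_closedBall hx.2
    exact ⟨q, ⟨hq, funext fun l => by
      simp [gr, ((h4 q hq).2 q (hc0 q)).2, show fderiv ℝ u (T q) = 0 from hx.1]⟩, rfl⟩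
  · rw [show (n : ℝ) - 2 = (n - 2 : ℕ) by rw [Nat.cast_sub (by omega)]; simp,
      ENNReal.rpow_natCast, ← ENNReal.ofReal_coe_nnreal, ← ENNReal.ofReal_pow (by positivity),
      ← ENNReal.ofReal_mul (by positivity), mul_assoc _ (C * _), mul_assoc C, ← mul_pow]

end Final

theorem final (h : ∀ n, 3 ≤ n → LocalStmt n) : FinalStmt := by
  intro n hn
  obtain ⟨C', δ, -, hδ, h'⟩ := Pool.Agent.LinCrit.global hn
  obtain ⟨C, hC, h⟩ := Final.global hn (h n hn)
  refine ⟨C * (1 + 2 / δ) ^ 2, fun u hu h0 ⟨x, hx, y, hy, hxy⟩ N hb => ?_⟩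
  have : Nonempty (Metric.ball (0 : EuclideanSpace ℝ (Fin n)) (1 / 2)) := ⟨⟨0, by simp⟩⟩
  have hs := fun r (hr : r < ⨆ y : Metric.ball (0 : EuclideanSpace ℝ (Fin n)) (1 / 2),
    ‖fderiv ℝ u (y : EuclideanSpace ℝ (Fin n))‖) => exists_lt_of_lt_ciSup hr
  generalize (⨆ y : Metric.ball (0 : EuclideanSpace ℝ (Fin n)) (1 / 2),
    ‖fderiv ℝ u (y : EuclideanSpace ℝ (Fin n))‖) = M at hb hs
  have hM : 0 < M := by
    by_contra hM
    refine hxy (Metric.isOpen_ball.is_const_of_fderiv_eq_zero (convex_ball _ _).isPreconnected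
      (hu.differentiableOn (by simp)) (fun z hz => norm_le_zero_iff.mp ((hb z hz).trans ?_)) hx hy)
    exact mul_nonpos_of_nonneg_of_nonpos (Real.exp_pos _).le (not_lt.mp hM)
  have hs' : ∀ r < M, ∃ x ∈ ball (0 : EuclideanSpace ℝ (Fin n)) (1 / 2), r < ‖fderiv ℝ u x‖ :=
    fun r hr => (hs r hr).elim fun z hz => ⟨z, z.2, hz⟩
  rcases le_total N δ with hN | hN
  · rw [(h' u M δ hu h0 hM hs' fun z hz => (hb z hz).trans (by gcongr)).2 rfl]
    simp
  · refine (h u M (max N 2) hu h0 hM hs' (fun z hz => (hb z hz).trans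
      (by gcongr; exact le_max_left _ _)) (le_max_right _ _)).trans (ENNReal.ofReal_le_ofReal ?_)
    have h2 : 0 < N := hδ.trans_le hN
    have h3 : 2 ≤ 2 / δ * N := by rw [div_mul_eq_mul_div, le_div_iff₀ hδ]; linarith
    have h4 : max N 2 ≤ (1 + 2 / δ) * N := max_le (by linarith) (by linarith)
    calc _ ≤ C * ((1 + 2 / δ) * N) ^ 2 := by gcongr
      _ = _ := by ring

end Pool.Agent.LinN2
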