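import Pool.Agent.Lib.MP_8465a2_an.N2.Flux1

/-!
The flux through a chain of shells (MP_8465a2_an).
-/

namespace Pool.Agent.LinN2

open MeasureTheory Metric Set Filter Topology Complex
open scoped ENNReal ComplexConjugate

noncomputable section

namespace FluxA

variable {a : E2 → ℂ} {η ηN τ E0 : ℝ} {χ ψ : E2 → ℝ} {y0 : E2}

lemma ball_Om {r : ℝ} (h : ‖y0‖ + r ≤ 2) : closedBall y0 r ⊆ Om := fun y hy => by
  have h1 := mem_closedBall_iff_norm.1 hy
  have h2 := norm_le_norm_add_norm_sub' y y0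
  exact mem_closedBall_zero_iff.2 (by linarith)

lemma far {r : ℝ} (h : ‖y0‖ + r ≤ 2) {y : E2} (hy : 2 ≤ ‖y‖) : r ≤ ‖y - y0‖ := by
  linarith [norm_le_norm_add_norm_sub' y y0]

lemma cont_z (ha : ContDiff ℂ 2 a) (hη : 0 < η) (hψ : Cut ψ) (hχ : Cut χ) :
    Continuous fun y => wt η (a y) * (ψ y ^ 2 * bf a χ χ y) :=
  ((continuous_wt hη).comp ha.continuous).mul
    ((hψ.sm.continuous.pow 2).mul (continuous_bf ha hχ.sm hχ.sm))

lemma En_le_z (ha : ContDiff ℂ 2 a) (hη : 0 < η) (hψ : Cut ψ) (hχ : Cut χ) {r : ℝ}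
    (h : ‖y0‖ + r ≤ 2) (h1 : ∀ y, ‖y - y0‖ ≤ r → ψ y = 1) :
    En a η (closedBall y0 r) χ ≤ ∫ y in Om, wt η (a y) * (ψ y ^ 2 * bf a χ χ y) := by
  have e : En a η (closedBall y0 r) χ =
      ∫ y in closedBall y0 r, wt η (a y) * (ψ y ^ 2 * bf a χ χ y) :=
    setIntegral_congr_fun measurableSet_closedBall fun y hy => by
      simp [h1 y (mem_closedBall_iff_norm.1 hy)]
  rw [e]
  exact setIntegral_mono_set (intOn (cont_z ha hη hψ hχ) bdd_Om)
    (ae_of_all _ fun y => mul_nonneg (wt_nonneg _ _) (mul_nonneg (sq_nonneg _) (bf_nonneg _ _ _)))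
    (ball_Om h).eventuallyLE

lemma z_le_En (ha : ContDiff ℂ 2 a) (hη : 0 < η) (hψ : Cut ψ) (hχ : Cut χ) {S : Set E2}
    (hb : Bornology.IsBounded S) :
    ∫ y in S, wt η (a y) * (ψ y ^ 2 * bf a χ χ y) ≤ En a η S χ :=
  setIntegral_mono (intOn (cont_z ha hη hψ hχ) hb) (intOn (continuous_wbf ha hη hχ.sm hχ.sm) hb)
    fun y => mul_le_mul_of_nonneg_left
      (mul_le_of_le_one_left (bf_nonneg _ _ _) (pow_le_one₀ (hψ.nn y) (hψ.le y))) (wt_nonneg _ _)

lemma off_shell (hψ : Cut ψ) {ri ro : ℝ} (h1 : ∀ y, ‖y - y0‖ ≤ ri → ψ y = 1)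
    (h0 : ∀ y, ro ≤ ‖y - y0‖ → ψ y = 0) :
    ∀ y ∉ closedBall y0 ro \ closedBall y0 ri, fderiv ℝ ψ y = 0 := fun y hy => by
  by_cases h : ‖y - y0‖ ≤ ri
  · exact hψ.fderiv_one (h1 y h)
  · refine hψ.fderiv_zero (h0 y (not_le.1 fun h' => hy ⟨mem_closedBall_iff_norm.2 h', ?_⟩).le)
    exact fun h'' => h (mem_closedBall_iff_norm.1 h'')

/-- one shell -/
lemma shell_step (ha : ContDiff ℂ 2 a) (hη : 0 < η) {ri ro K s : ℝ} (hK : 0 ≤ K) (hs : 0 ≤ s)
    (hro : ‖y0‖ + ro ≤ 2) (hio : ri ≤ ro) (h : Shell a η ηN y0 ri ro K s) (E0 : ℝ) :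
    ∃ M, 0 ≤ M ∧ ∀ τ χ, 0 < τ → AMin a η ηN τ E0 χ → 2 * τ * M ≤ En a η (closedBall y0 ri) χ →
      En a η (closedBall y0 ri) χ ^ 2 ≤
        16 * K * (s + En a η (closedBall y0 ro \ closedBall y0 ri) χ) *
          En a η (closedBall y0 ro \ closedBall y0 ri) χ := by
  obtain ⟨ψ, hψ, h1, h0, hP⟩ := h
  refine ⟨√(2 * E0 + 8 * En a η Om ψ), Real.sqrt_nonneg _, fun τ χ hτ hχ hbig => ?_⟩
  set M := √(2 * E0 + 8 * En a η Om ψ)
  set d := En a η (closedBall y0 ro \ closedBall y0 ri) χ with hd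
  set e := En a η (closedBall y0 ri) χ with he
  have hd0 : 0 ≤ d := En_nonneg _ _ _ _
  have he0 : 0 ≤ e := En_nonneg _ _ _ _
  have key : (e - τ * M) ^ 2 ≤ 4 * d * (K * (s + d)) := by
    refine sq_le_of_forall (by linarith) hd0 (by positivity) fun t ht => ?_
    have i1 := cacc ha hη hψ (fun y hy => h0 y (far hro hy)) hτ hχ
      (sdiff_subset.trans (ball_Om hro)) (off_shell hψ h1 h0) ht
    have i2 := En_le_z ha hη hψ hχ.cut (by linarith : ‖y0‖ + ri ≤ 2) h1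
    have i3 := mul_le_mul_of_nonneg_left (z_le_En ha hη hψ hχ.cut
      ((isBounded_closedBall (x := y0) (r := ro)).subset (sdiff_subset (t := closedBall y0 ri)))) ht.le
    have i4 := div_le_div_of_nonneg_right (hP χ hχ.cut hχ.one) ht.le
    linarith
  have : (e / 2) ^ 2 ≤ (e - τ * M) ^ 2 := pow_le_pow_left₀ (by linarith) (by linarith) 2
  nlinarith

/-- the initial energy -/
lemma start (ha : ContDiff ℂ 2 a) (hη : 0 < η) (hψ : Cut ψ) {R K r : ℝ} (hR : 0 < R)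
    (hy0 : ‖y0‖ + 2 * R ≤ 2) (hr : r ≤ R) (h1 : ∀ y, ‖y - y0‖ ≤ 3 / 2 * R → ψ y = 1)
    (h0 : ∀ y, 2 * R ≤ ‖y - y0‖ → ψ y = 0) (hK : ∀ y, ‖fderiv ℝ ψ y‖ ≤ K / R) (hτ : 0 < τ)
    (hχ : AMin a η ηN τ E0 χ) :
    En a η (closedBall y0 r) χ ≤ 8 * K ^ 2 * AR a η y0 R + 2 * τ * √(2 * E0 + 8 * En a η Om ψ) := by
  have i1 := cacc ha hη hψ (fun y hy => h0 y (far hy0 hy)) hτ hχ Subset.rfl
    (fun y hy => hψ.fderiv_zero (h0 y (far hy0 (by
      have := not_le.1 (mt mem_closedBall_zero_iff.2 hy); linarith)))) (t := 1 / 2) (by norm_num)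
  have i2 := En_le_z ha hη hψ hχ.cut (by linarith : ‖y0‖ + r ≤ 2) fun y hy => h1 y (by linarith)
  have i3 := round_core ha hη hψ hR h0 hK (g := fun y => (1 - χ y) ^ 2)
    ((continuous_const.sub hχ.cut.sm.continuous).pow 2)
    fun y => pow_le_one₀ (by linarith [hχ.cut.le y]) (by linarith [hχ.cut.nn y])
  linarith

/-- flux through one round annulus -/
lemma annulus (ha : ContDiff ℂ 2 a) (hη : 0 < η) (hψ : Cut ψ) (hχ : Cut χ) {R K : ℝ} (hR : 0 < R)
    (hy0 : ‖y0‖ + 2 * R ≤ 2) (h1 : ∀ y, ‖y - y0‖ ≤ 3 / 2 * R → ψ y = 1)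
    (h0 : ∀ y, 2 * R ≤ ‖y - y0‖ → ψ y = 0) (hK : ∀ y, ‖fderiv ℝ ψ y‖ ≤ K / R) {T : ℝ} (hT : 0 < T) :
    Bf a η Om χ ψ ≤ T / 2 * (En a η (closedBall y0 (2 * R)) χ - En a η (closedBall y0 R) χ) +
      K ^ 2 * AR a η y0 R / T := by
  have hoff := off_shell hψ (ri := R) (fun y hy => h1 y (by linarith)) h0
  have hb : Bornology.IsBounded (closedBall y0 (2 * R) \ closedBall y0 R) :=
    isBounded_closedBall.subset sdiff_subset
  rw [← En_diff ha hη hχ.sm (closedBall_subset_closedBall (by linarith)) measurableSet_closedBall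
    isBounded_closedBall]
  have e1 : Bf a η Om χ ψ = Bf a η (closedBall y0 (2 * R) \ closedBall y0 R) χ ψ :=
    setIntegral_eq_of_subset_of_forall_sdiff_eq_zero measurableSet_closedBall
      (sdiff_subset.trans (ball_Om hy0)) fun y hy => by rw [bf_zero_right (hoff y hy.2)]; simp
  have e2 : En a η (closedBall y0 (2 * R) \ closedBall y0 R) ψ ≤ 2 * K ^ 2 * AR a η y0 R := by
    have i := round_core ha hη hψ hR h0 hK (g := fun _ => 1) continuous_const fun _ => le_rfl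
    simp only [one_mul] at i
    refine le_trans (le_of_eq ?_) i
    exact setIntegral_eq_integral_of_forall_compl_eq_zero fun y hy => by
      rw [bf_zero_left (hoff y hy)]; simp
  have e3 : Bf a η (closedBall y0 (2 * R) \ closedBall y0 R) χ ψ ≤
      T / 2 * En a η (closedBall y0 (2 * R) \ closedBall y0 R) χ +
        1 / (2 * T) * En a η (closedBall y0 (2 * R) \ closedBall y0 R) ψ := by
    refine int_le_lin (continuous_wbf ha hη hχ.sm hψ.sm) (continuous_wbf ha hη hχ.sm hχ.sm)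
      (continuous_wbf ha hη hψ.sm hψ.sm) hb _ _ fun y => ?_
    have := mul_le_mul_of_nonneg_left ((le_abs_self _).trans (abs_bf_le a χ ψ y hT))
      (wt_nonneg η (a y))
    calc _ ≤ _ := this
      _ = _ := by field_simp
  have e4 := mul_le_mul_of_nonneg_left e2 (by positivity : 0 ≤ 1 / (2 * T))
  have e5 : 1 / (2 * T) * (2 * K ^ 2 * AR a η y0 R) = K ^ 2 * AR a η y0 R / T := by field_simp
  linarith

lemma Bf_avg (ha : ContDiff ℂ 2 a) (hη : 0 < η) (hχ : Cut χ) (k : ℕ) (c : ℝ) {φ : ℕ → E2 → ℝ}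
    (hφ : ∀ l, Cut (φ l)) :
    Bf a η Om χ (fun y => c * ∑ l ∈ Finset.range k, φ l y) =
      c * ∑ l ∈ Finset.range k, Bf a η Om χ (φ l) := by
  unfold Bf
  rw [← integral_finsetSum _ fun l _ => intOn (continuous_wbf ha hη hχ.sm (hφ l).sm) bdd_Om,
    ← integral_const_mul]
  refine integral_congr_ae (ae_of_all _ fun y => ?_)
  have h : HasFDerivAt (fun y => c * ∑ l ∈ Finset.range k, φ l y)
      (c • ∑ l ∈ Finset.range k, fderiv ℝ (φ l) y) y :=
    (HasFDerivAt.fun_sum fun l _ =>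
      ((hφ l).sm.differentiable one_ne_zero y).hasFDerivAt).const_mul c
  simp only [bf]
  rw [h.fderiv]
  simp only [smul_apply, sum_apply, smul_eq_mul, Finset.mul_sum, mul_add, ← Finset.sum_add_distrib]
  exact Finset.sum_congr rfl fun l _ => by ring

end FluxA

open FluxA in
theorem flux (h : DiscStmt) : FluxStmt := by
  intro K hK
  obtain ⟨C1, hC1, hD⟩ := h (16 * K) (by linarith)
  obtain ⟨K0, hK0, hcut⟩ := exists_cut
  have hK2 : 1 ≤ K0 ^ 2 := by nlinarith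
  refine ⟨4 * C1 * K0 ^ 2, by nlinarith, ?_⟩
  intro a η ηN y0 k1 k2 lam R0 R' A0 ρ ri ro s Al ha hη hk1 hk2 hlam hR0 hR' hy0 hr0 hA0 hsh hk hAl hρ
  have hmono : ∀ t ≤ k1, ri t ≤ R0 := by
    intro t
    induction t with
    | zero => exact fun _ => hr0
    | succ t ih => exact fun ht => ((hsh t ht).1.trans (hsh t ht).2.1).trans (ih (by omega))
  have hRl : ∀ l : ℕ, 0 < R' / 2 ^ l := fun l => by positivity
  have hRl2 : ∀ l : ℕ, R' / 2 ^ l ≤ R' := fun l => div_le_self hR'.le (one_le_pow₀ (by norm_num))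
  have hin : ∀ l : ℕ, ‖y0‖ + 2 * (R' / 2 ^ l) ≤ 2 := fun l => by
    linarith [hRl2 l, hmono k1 le_rfl]
  choose φ hφ _ hφ1 hφ0 hφK _ using fun l : ℕ => hcut y0 (R' / 2 ^ l) (hRl l)
  have hk2' : (1 : ℝ) ≤ k2 := by exact_mod_cast hk2
  have hk1' : (1 : ℝ) ≤ k1 := by exact_mod_cast hk1
  refine ⟨fun y => (k2 : ℝ)⁻¹ * ∑ l ∈ Finset.range k2, φ l y, ⟨?_, fun y => ?_, fun y => ?_⟩,
    fun y hy => ?_, fun y hy => ?_, fun E0 => ?_⟩
  · exact contDiff_const.mul (ContDiff.sum fun l _ => (hφ l).sm)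
  · exact mul_nonneg (by positivity) (Finset.sum_nonneg fun l _ => (hφ l).nn y)
  · rw [inv_mul_le_iff₀ (by linarith), mul_one]
    simpa using Finset.sum_le_card_nsmul (Finset.range k2) _ 1 fun l _ => (hφ l).le y
  · beta_reduce
    rw [Finset.sum_congr rfl fun l hl => hφ1 l y (by
      have h1 : ρ ≤ R' / 2 ^ k2 := by rwa [le_div_iff₀ (by positivity)]
      have h2 : R' / 2 ^ k2 ≤ R' / 2 ^ l := div_le_div_of_nonneg_left hR'.le (by positivity)
        (pow_le_pow_right₀ (by norm_num) (Finset.mem_range.1 hl).le)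
      linarith [hRl l])]
    simp only [Finset.sum_const, Finset.card_range, nsmul_eq_mul, mul_one]
    field_simp
  · beta_reduce
    rw [Finset.sum_eq_zero fun l _ => hφ0 l y (far (hin l) hy), mul_zero]
  obtain ⟨ψ, hψ, -, p1, p0, pK, -⟩ := hcut y0 R0 hR0
  have hstep : ∀ t : ℕ, ∃ M, 0 ≤ M ∧ (t < k1 → ∀ τ χ, 0 < τ → AMin a η ηN τ E0 χ →
      2 * τ * M ≤ En a η (closedBall y0 (ri (t + 1))) χ →
      En a η (closedBall y0 (ri (t + 1))) χ ^ 2 ≤ 16 * K * (s (t + 1) +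
        En a η (closedBall y0 (ro (t + 1)) \ closedBall y0 (ri (t + 1))) χ) *
          En a η (closedBall y0 (ro (t + 1)) \ closedBall y0 (ri (t + 1))) χ) := by
    intro t
    by_cases ht : t < k1
    · obtain ⟨M, h1, h2⟩ := shell_step ha hη (by linarith) (hsh t ht).2.2.1
        (by linarith [(hsh t ht).2.1, hmono t ht.le]) (hsh t ht).1 (hsh t ht).2.2.2 E0
      exact ⟨M, h1, fun _ => h2⟩
    · exact ⟨0, le_rfl, fun h => absurd h ht⟩
  choose Ms hMs0 hMs using hstep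
  set M0 := √(2 * E0 + 8 * En a η Om ψ)
  have hM0 : 0 ≤ M0 := Real.sqrt_nonneg _
  set M := ∑ t ∈ Finset.range k1, Ms t with hM
  have hM' : 0 ≤ M := Finset.sum_nonneg fun t _ => hMs0 t
  refine ⟨lam / 2 * (2 * M + 2 * C1 * M0), fun τ χ hτ _ hχ => ?_⟩
  set e : ℕ → ℝ := fun t => En a η (closedBall y0 (ri t)) χ with he
  set Ss := ∑ t ∈ Finset.range k1, s (t + 1) with hSs
  have hSs0 : 0 ≤ Ss := Finset.sum_nonneg fun t ht => (hsh t (Finset.mem_range.1 ht)).2.2.1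
  have hA0' : 0 ≤ A0 := (AR_nonneg _ _ _ _).trans hA0
  have hdec : ∀ t < k1, e (t + 1) ≤ e t := fun t ht => En_mono ha hη hχ.cut.sm
    (closedBall_subset_closedBall ((hsh t ht).1.trans (hsh t ht).2.1)) isBounded_closedBall
  have hlast : ∀ j t, t + j = k1 → e k1 ≤ e t := by
    intro j
    induction j with
    | zero => intro t ht; rw [← ht]; exact le_rfl
    | succ j ih => exact fun t ht => (ih (t + 1) (by omega)).trans (hdec t (by omega))
  have he0 : e 0 ≤ 8 * K0 ^ 2 * A0 + 2 * τ * M0 := by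
    have := start ha hη hψ hR0 hy0 hr0 p1 p0 pK hτ hχ
    have h2 := mul_le_mul_of_nonneg_left hA0 (by positivity : 0 ≤ 8 * K0 ^ 2)
    simp only [he]
    linarith
  have hek : e k1 ≤ 8 * C1 * K0 ^ 2 * ((Ss + A0) / k1 ^ 2) + τ * (2 * M + 2 * C1 * M0) := by
    have q0 : 0 ≤ 8 * C1 * K0 ^ 2 * ((Ss + A0) / k1 ^ 2) := by positivity
    have q1 : 0 ≤ τ * (C1 * M0) := by positivity
    have q2 : 0 ≤ τ * M := by positivity
    by_cases hsmall : e k1 ≤ 2 * τ * M
    · linarith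
    have hD' := hD k1 e s hk1 (fun t _ => En_nonneg _ _ _ _) hdec (fun t ht => (hsh t ht).2.2.1)
      fun t ht => by
        have i0 : Ms t ≤ M := Finset.single_le_sum (fun t _ => hMs0 t) (Finset.mem_range.2 ht)
        have i1 := hMs t ht τ χ hτ hχ (by
          have := hlast (k1 - (t + 1)) (t + 1) (by omega)
          have := mul_le_mul_of_nonneg_left i0 hτ.le
          simp only [he] at *
          linarith)
        have i2 : En a η (closedBall y0 (ro (t + 1)) \ closedBall y0 (ri (t + 1))) χ ≤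
            e t - e (t + 1) := by
          rw [En_diff ha hη hχ.cut.sm (closedBall_subset_closedBall (hsh t ht).1)
            measurableSet_closedBall isBounded_closedBall]
          have := En_mono ha hη hχ.cut.sm (closedBall_subset_closedBall (x := y0) (hsh t ht).2.1)
            isBounded_closedBall
          simp only [he]
          linarith
        have i3 := En_nonneg a η (closedBall y0 (ro (t + 1)) \ closedBall y0 (ri (t + 1))) χ
        have i4 := (hsh t ht).2.2.1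
        refine i1.trans (mul_le_mul (mul_le_mul_of_nonneg_left (by linarith) (by linarith)) i2 i3 ?_)
        exact mul_nonneg (by linarith) (by linarith)
    have hkk : (1 : ℝ) ≤ (k1 : ℝ) ^ 2 := one_le_pow₀ hk1'
    have j1 : C1 * (Ss + e 0) ≤ 8 * C1 * K0 ^ 2 * (Ss + A0) + 2 * (τ * (C1 * M0)) := by
      have j0 : Ss + e 0 ≤ 8 * K0 ^ 2 * (Ss + A0) + 2 * τ * M0 := by nlinarith
      have := mul_le_mul_of_nonneg_left j0 (by linarith : 0 ≤ C1)
      linarith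
    have j2 := div_le_div_of_nonneg_right j1 (by positivity : (0 : ℝ) ≤ (k1 : ℝ) ^ 2)
    rw [add_div, mul_div_assoc (8 * C1 * K0 ^ 2)] at j2
    have j3 : 2 * (τ * (C1 * M0)) / (k1 : ℝ) ^ 2 ≤ 2 * (τ * (C1 * M0)) :=
      div_le_self (by positivity) hkk
    linarith
  rw [Bf_avg ha hη hχ.cut k2 _ hφ]
  set f : ℕ → ℝ := fun l => En a η (closedBall y0 (2 * (R' / 2 ^ l))) χ with hf
  have hT : 0 < lam * k2 := by positivity
  have s1 : ∑ l ∈ Finset.range k2, Bf a η Om χ (φ l) ≤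
      ∑ l ∈ Finset.range k2, (lam * k2 / 2 * (f l - f (l + 1)) + K0 ^ 2 / (lam * k2) * Al l) := by
    refine Finset.sum_le_sum fun l hl => ?_
    have i := annulus ha hη (hφ l) hχ.cut (hRl l) (hin l) (hφ1 l) (hφ0 l) (hφK l) hT
    have e1 : 2 * (R' / 2 ^ (l + 1)) = R' / 2 ^ l := by rw [pow_succ]; field_simp
    have i2 := mul_le_mul_of_nonneg_left (hAl l (Finset.mem_range.1 hl))
      (by positivity : 0 ≤ K0 ^ 2 / (lam * k2))
    have e2 : K0 ^ 2 * AR a η y0 (R' / 2 ^ l) / (lam * k2) =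
      K0 ^ 2 / (lam * k2) * AR a η y0 (R' / 2 ^ l) := by ring
    simp only [hf, e1]
    linarith
  rw [Finset.sum_add_distrib, ← Finset.mul_sum, ← Finset.mul_sum, Finset.sum_range_sub'] at s1
  have s2 : f 0 - f k2 ≤ e k1 := by
    have i1 : f 0 ≤ e k1 := En_mono ha hη hχ.cut.sm
      (closedBall_subset_closedBall (by simpa using hk)) isBounded_closedBall
    have i2 : 0 ≤ f k2 := En_nonneg _ _ _ _
    linarith
  set X := ∑ l ∈ Finset.range k2, Al l with hX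
  have hX0 : 0 ≤ X := Finset.sum_nonneg fun l hl =>
    (AR_nonneg _ _ _ _).trans (hAl l (Finset.mem_range.1 hl))
  have s3 := mul_le_mul_of_nonneg_left (s2.trans hek) (by positivity : 0 ≤ lam * k2 / 2)
  have s4 := mul_le_mul_of_nonneg_left (s1.trans (add_le_add s3 le_rfl))
    (by positivity : (0 : ℝ) ≤ (k2 : ℝ)⁻¹)
  refine s4.trans ?_
  have e3 : (k2 : ℝ)⁻¹ * (lam * k2 / 2 * (8 * C1 * K0 ^ 2 * ((Ss + A0) / k1 ^ 2) +
      τ * (2 * M + 2 * C1 * M0)) + K0 ^ 2 / (lam * k2) * X) =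
      4 * C1 * K0 ^ 2 * (lam * (Ss + A0) / k1 ^ 2) + τ * (lam / 2 * (2 * M + 2 * C1 * M0)) +
        K0 ^ 2 * (X / (lam * k2 ^ 2)) := by field_simp; ring
  have q : 0 ≤ K0 ^ 2 * (X / (lam * k2 ^ 2)) := by positivity
  rw [e3]
  nlinarith

end

end Pool.Agent.LinN2
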