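import Pool.Agent.Lib.MP_8465a2_an.N2.BasicB

/-!
Caccioppoli inequalities for approximate minimisers and round shells (MP_8465a2_an).
-/

namespace Pool.Agent.LinN2

open MeasureTheory Metric Set Filter Topology Complex
open scoped ENNReal ComplexConjugate

noncomputable section

namespace FluxA

variable {a : E2 → ℂ} {η ηN τ E0 : ℝ} {χ ψ : E2 → ℝ}

lemma sq_le_of_forall {x A B : ℝ} (hx : 0 ≤ x) (hA : 0 ≤ A) (hB : 0 ≤ B)
    (h : ∀ t, 0 < t → x ≤ t * A + B / t) : x ^ 2 ≤ 4 * A * B := by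
  rcases hx.eq_or_lt with rfl | hx
  · have := mul_nonneg hA hB
    nlinarith
  rcases hA.eq_or_lt with rfl | hA
  · exfalso
    have h1 := h ((2 * B + 1) / x) (by positivity)
    rw [mul_zero, zero_add, div_div_eq_mul_div, le_div_iff₀ (by positivity)] at h1
    nlinarith
  · have h1 := h (x / (2 * A)) (by positivity)
    have e1 : x / (2 * A) * A = x / 2 := by field_simp
    have e2 : B / (x / (2 * A)) = 2 * A * B / x := by field_simp
    rw [e1, e2] at h1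
    have h2 : x / 2 ≤ 2 * A * B / x := by linarith
    rw [le_div_iff₀ hx] at h2
    nlinarith

lemma bdd_Om : Bornology.IsBounded Om := isBounded_closedBall

lemma int_le_lin {f g h : E2 → ℝ} (hf : Continuous f) (hg : Continuous g) (hh : Continuous h)
    {S : Set E2} (hb : Bornology.IsBounded S) (α β : ℝ) (hle : ∀ y, f y ≤ α * g y + β * h y) :
    ∫ y in S, f y ≤ α * (∫ y in S, g y) + β * ∫ y in S, h y := by
  have i1 : IntegrableOn (fun y => α * g y) S := intOn (by fun_prop) hb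
  have i2 : IntegrableOn (fun y => β * h y) S := intOn (by fun_prop) hb
  rw [← integral_const_mul, ← integral_const_mul, ← integral_add i1 i2]
  exact setIntegral_mono (intOn hf hb) (i1.add i2) hle

lemma pt_amgm (a : E2 → ℂ) (f h : E2 → ℝ) (y : E2) (p v : ℝ) {t : ℝ} (ht : 0 < t) :
    2 * p * v * bf a f h y ≤ t * (p ^ 2 * bf a f f y) + v ^ 2 * bf a h h y / t := by
  rw [← sub_le_iff_le_add', le_div_iff₀ ht]
  unfold bf
  nlinarith [sq_nonneg (t * p * fderiv ℝ f y (Wf a y) - v * fderiv ℝ h y (Wf a y)),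
    sq_nonneg (t * p * fderiv ℝ f y (I • Wf a y) - v * fderiv ℝ h y (I • Wf a y))]

lemma round_core (ha : ContDiff ℂ 2 a) (hη : 0 < η) (hψ : Cut ψ) {y0 : E2} {R K : ℝ} (hR : 0 < R)
    (h0 : ∀ y, 2 * R ≤ ‖y - y0‖ → ψ y = 0) (hK : ∀ y, ‖fderiv ℝ ψ y‖ ≤ K / R) {g : E2 → ℝ}
    (hg : Continuous g) (hg1 : ∀ y, g y ≤ 1) :
    ∫ y, wt η (a y) * (g y * bf a ψ ψ y) ≤ 2 * K ^ 2 * AR a η y0 R := by
  rw [← setIntegral_eq_integral_of_forall_compl_eq_zero (s := closedBall y0 (2 * R))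
    (fun y hy => by
      rw [bf_zero_left (hψ.fderiv_zero (h0 y (not_le.1 (mt mem_closedBall_iff_norm.2 hy)).le))]
      simp)]
  have e : 2 * K ^ 2 * AR a η y0 R =
      ∫ y in closedBall y0 (2 * R), 2 * (K / R) ^ 2 * (wt η (a y) * ‖Wf a y‖ ^ 2) := by
    rw [integral_const_mul]; unfold AR Ar; field_simp
  rw [e]
  refine setIntegral_mono (intOn (((continuous_wt hη).comp ha.continuous).mul
    (hg.mul (continuous_bf ha hψ.sm hψ.sm))) isBounded_closedBall)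
    (intOn (continuous_const.mul (continuous_wW ha hη)) isBounded_closedBall) fun y => ?_
  have h1 := bf_le a ψ y
  have h2 : ‖fderiv ℝ ψ y‖ ^ 2 ≤ (K / R) ^ 2 := pow_le_pow_left₀ (norm_nonneg _) (hK y) 2
  have h3 : g y * bf a ψ ψ y ≤ 2 * (K / R) ^ 2 * ‖Wf a y‖ ^ 2 := by
    have := mul_le_mul_of_nonneg_right (hg1 y) (bf_nonneg a ψ y)
    nlinarith [sq_nonneg ‖Wf a y‖]
  have := mul_le_mul_of_nonneg_left h3 (wt_nonneg η (a y))
  simp only
  linarith

lemma fderiv_test (hψ : Cut ψ) (hχ : Cut χ) (y w : E2) :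
    fderiv ℝ (fun y => ψ y ^ 2 * (1 - χ y)) y w =
      2 * ψ y * (1 - χ y) * fderiv ℝ ψ y w - ψ y ^ 2 * fderiv ℝ χ y w := by
  have h1 := (hψ.sm.differentiable one_ne_zero y).hasFDerivAt
  have h2 := (hχ.sm.differentiable one_ne_zero y).hasFDerivAt
  have h3 : HasFDerivAt (fun y => ψ y ^ 2 * (1 - χ y)) _ y := (h1.pow 2).mul (h2.const_sub 1)
  rw [h3.fderiv]
  simp
  ring

/-- Caccioppoli inequality -/
lemma cacc (ha : ContDiff ℂ 2 a) (hη : 0 < η) (hψ : Cut ψ) (h0 : ∀ y, 2 ≤ ‖y‖ → ψ y = 0)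
    (hτ : 0 < τ) (hχ : AMin a η ηN τ E0 χ) {S : Set E2} (hSO : S ⊆ Om)
    (hoff : ∀ y ∉ S, fderiv ℝ ψ y = 0) {t : ℝ} (ht : 0 < t) :
    ∫ y in Om, wt η (a y) * (ψ y ^ 2 * bf a χ χ y) ≤
      t * (∫ y in S, wt η (a y) * (ψ y ^ 2 * bf a χ χ y)) +
      (∫ y, wt η (a y) * ((1 - χ y) ^ 2 * bf a ψ ψ y)) / t + τ * √(2 * E0 + 8 * En a η Om ψ) := by
  have hc := hχ.cut
  set h : E2 → ℝ := fun y => ψ y ^ 2 * (1 - χ y) with hh
  have hsm : ContDiff ℝ 1 h := (hψ.sm.pow 2).mul (contDiff_const.sub hc.sm)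
  have cw : Continuous fun y => wt η (a y) := (continuous_wt hη).comp ha.continuous
  have cψ := hψ.sm.continuous
  have cχ := hc.sm.continuous
  have c1 := continuous_bf ha hc.sm hc.sm
  have c2 := continuous_bf ha hc.sm hψ.sm
  have c3 := continuous_bf ha hψ.sm hψ.sm
  have hv := hχ.var h hsm (fun y hy => by simp [hh, hχ.one y hy]) (fun y hy => by simp [hh, h0 y hy])
  have e1 : ∀ y, bf a χ h y = 2 * ψ y * (1 - χ y) * bf a χ ψ y - ψ y ^ 2 * bf a χ χ y := by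
    intro y; unfold bf; rw [hh, fderiv_test hψ hc, fderiv_test hψ hc]; ring
  have e2 : ∀ y, bf a h h y ≤ 2 * bf a χ χ y + 8 * bf a ψ ψ y := by
    intro y
    have p1 := bf_nonneg a χ y
    have p2 := bf_nonneg a ψ y
    have q1 : ψ y ^ 2 ≤ 1 := pow_le_one₀ (hψ.nn y) (hψ.le y)
    have q2 : (ψ y * (1 - χ y)) ^ 2 ≤ 1 := pow_le_one₀ (mul_nonneg (hψ.nn y) (by linarith [hc.le y]))
      (mul_le_one₀ (hψ.le y) (by linarith [hc.le y]) (by linarith [hc.nn y]))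
    have q3 : (ψ y ^ 2) ^ 2 ≤ 1 := pow_le_one₀ (sq_nonneg _) q1
    have q4 : bf a h h y ≤ 2 * ((ψ y ^ 2) ^ 2 * bf a χ χ y) +
        8 * ((ψ y * (1 - χ y)) ^ 2 * bf a ψ ψ y) := by
      unfold bf; rw [hh, fderiv_test hψ hc, fderiv_test hψ hc]
      nlinarith [sq_nonneg (2 * ψ y * (1 - χ y) * fderiv ℝ ψ y (Wf a y) +
        ψ y ^ 2 * fderiv ℝ χ y (Wf a y)), sq_nonneg (2 * ψ y * (1 - χ y) * fderiv ℝ ψ y (I • Wf a y) +
        ψ y ^ 2 * fderiv ℝ χ y (I • Wf a y))]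
    nlinarith [mul_le_mul_of_nonneg_right q3 p1, mul_le_mul_of_nonneg_right q2 p2]
  have hE : En a η Om h ≤ 2 * E0 + 8 * En a η Om ψ := by
    have : En a η Om h ≤ 2 * En a η Om χ + 8 * En a η Om ψ := by
      refine int_le_lin (continuous_wbf ha hη hsm hsm) (continuous_wbf ha hη hc.sm hc.sm)
        (continuous_wbf ha hη hψ.sm hψ.sm) bdd_Om 2 8 fun y => ?_
      have := mul_le_mul_of_nonneg_left (e2 y) (wt_nonneg η (a y))
      linarith
    linarith [hχ.en]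
  have hs := mul_le_mul_of_nonneg_left (Real.sqrt_le_sqrt hE) hτ.le
  have i1 : Continuous fun y => wt η (a y) * (ψ y ^ 2 * bf a χ χ y) := cw.mul ((cψ.pow 2).mul c1)
  have i2 : Continuous fun y => wt η (a y) * ((1 - χ y) ^ 2 * bf a ψ ψ y) :=
    cw.mul (((continuous_const.sub cχ).pow 2).mul c3)
  have i3 : Continuous fun y => wt η (a y) * (2 * ψ y * (1 - χ y) * bf a χ ψ y) :=
    cw.mul (((continuous_const.mul cψ).mul (continuous_const.sub cχ)).mul c2)
  have e3 : Bf a η Om χ h = (∫ y in Om, wt η (a y) * (2 * ψ y * (1 - χ y) * bf a χ ψ y)) -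
      ∫ y in Om, wt η (a y) * (ψ y ^ 2 * bf a χ χ y) := by
    rw [← integral_sub (intOn i3 bdd_Om) (intOn i1 bdd_Om)]
    unfold Bf
    exact integral_congr_ae (ae_of_all _ fun y => by simp only; rw [e1]; ring)
  have e4 : ∫ y in Om, wt η (a y) * (2 * ψ y * (1 - χ y) * bf a χ ψ y) =
      ∫ y in S, wt η (a y) * (2 * ψ y * (1 - χ y) * bf a χ ψ y) :=
    setIntegral_eq_of_subset_of_forall_sdiff_eq_zero measurableSet_closedBall hSO fun y hy => by
      rw [bf_zero_right (hoff y hy.2)]; simp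
  have e5 : ∫ y, wt η (a y) * ((1 - χ y) ^ 2 * bf a ψ ψ y) =
      ∫ y in S, wt η (a y) * ((1 - χ y) ^ 2 * bf a ψ ψ y) :=
    (setIntegral_eq_integral_of_forall_compl_eq_zero fun y hy => by
      rw [bf_zero_left (hoff y hy)]; simp).symm
  have hb : Bornology.IsBounded S := bdd_Om.subset hSO
  have e6 : ∫ y in S, wt η (a y) * (2 * ψ y * (1 - χ y) * bf a χ ψ y) ≤
      t * (∫ y in S, wt η (a y) * (ψ y ^ 2 * bf a χ χ y)) +
      (∫ y in S, wt η (a y) * ((1 - χ y) ^ 2 * bf a ψ ψ y)) / t := by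
    rw [div_eq_inv_mul]
    refine int_le_lin i3 i1 i2 hb t t⁻¹ fun y => ?_
    have := mul_le_mul_of_nonneg_left (pt_amgm a χ ψ y (ψ y) (1 - χ y) ht) (wt_nonneg η (a y))
    calc _ ≤ _ := this
      _ = _ := by ring
  rw [e5]
  linarith

end FluxA

theorem round : RoundStmt := by
  obtain ⟨K, hK, h⟩ := exists_cut
  refine ⟨2 * K ^ 2, by nlinarith, fun a η ηN y0 R ri ro s ha hη hR h1 h2 h3 => ?_⟩
  obtain ⟨ψ, hψ, -, p1, p0, pK, -⟩ := h y0 R hR
  refine ⟨ψ, hψ, fun y hy => p1 y (by linarith), fun y hy => p0 y (by linarith), fun χ hχ _ => ?_⟩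
  refine (FluxA.round_core ha hη hψ hR p0 pK (g := fun y => (1 - χ y) ^ 2)
    ((continuous_const.sub hχ.sm.continuous).pow 2)
    fun y => pow_le_one₀ (by linarith [hχ.le y]) (by linarith [hχ.nn y])).trans ?_
  exact mul_le_mul_of_nonneg_left (by linarith [En_nonneg a η (closedBall y0 ro \ closedBall y0 ri) χ])
    (by positivity)

end

end Pool.Agent.LinN2
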