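import Pool.Agent.Lib.MP_8465a2_an.N2.BasicB

/-!
Slabs and grazing planes (MP_8465a2_an).
-/

namespace Pool.Agent.LinN2

open MeasureTheory Metric Set Filter Topology Complex
open scoped ENNReal ComplexConjugate

noncomputable section

namespace Graze

lemma slab' {m : ℕ} (G x0 : Rn (m + 1)) (c t R : ℝ) (hG : G ≠ 0) (ht : 0 ≤ t) (hR : 0 ≤ R) :
    volume {ξ : Rn (m + 1) | ‖ξ - x0‖ ≤ R ∧ |ξ ⬝ᵥ G - c| ≤ t * ‖G‖} ≤
      ENNReal.ofReal (2 * t * (2 * R) ^ m) := by
  obtain ⟨l, hl⟩ : ∃ l, ‖G‖ ≤ |G l| := by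
    obtain ⟨l, -, h⟩ := Finset.exists_max_image Finset.univ (fun l => |G l|) Finset.univ_nonempty
    exact ⟨l, (pi_norm_le_iff_of_nonneg (abs_nonneg _)).2 fun j => h j (Finset.mem_univ j)⟩
  have hG0 : 0 < |G l| := (norm_pos_iff.2 hG).trans_le hl
  set S := {ξ : Rn (m + 1) | ‖ξ - x0‖ ≤ R ∧ |ξ ⬝ᵥ G - c| ≤ t * ‖G‖} with hS
  have hSm : MeasurableSet S := by
    have c1 : Continuous fun ξ : Rn (m + 1) => ‖ξ - x0‖ := by fun_prop
    have c2 : Continuous fun ξ : Rn (m + 1) => |ξ ⬝ᵥ G - c| := by unfold dotProduct; fun_prop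
    exact (isClosed_le c1 continuous_const).measurableSet.inter
      (isClosed_le c2 continuous_const).measurableSet
  have hp := (volume_preserving_piFinSuccAbove (fun _ : Fin (m + 1) => ℝ) l).symm
  rw [← hp.measure_preimage hSm.nullMeasurableSet, Measure.volume_eq_prod,
    Measure.prod_apply_symm (hp.measurable hSm)]
  set B := closedBall (fun j => x0 (l.succAbove j)) R with hB
  calc _ ≤ ∫⁻ y, B.indicator (fun _ => ENNReal.ofReal (2 * t)) y := lintegral_mono fun y => ?_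
    _ = ENNReal.ofReal (2 * t) * volume B := lintegral_indicator_const measurableSet_closedBall _
    _ = _ := by
      rw [hB, Real.volume_pi_closedBall _ hR, Fintype.card_fin,
        ← ENNReal.ofReal_mul (by positivity)]
  by_cases hy : y ∈ B
  · rw [indicator_of_mem hy, ← Real.volume_closedBall
      ((c - ∑ j, y j * G (l.succAbove j)) / G l) t]
    refine measure_mono fun x hx => ?_
    have h2 := hx.2
    simp only [dotProduct, Fin.sum_univ_succAbove _ l, MeasurableEquiv.piFinSuccAbove_symm_apply,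
      Fin.insertNthEquiv_apply, Fin.insertNth_apply_same, Fin.insertNth_apply_succAbove] at h2
    rw [mem_closedBall, Real.dist_eq]
    have e : x - (c - ∑ j, y j * G (l.succAbove j)) / G l =
        (x * G l + ∑ j, y j * G (l.succAbove j) - c) / G l := by
      have := abs_pos.1 hG0
      field_simp
      ring
    rw [e, abs_div, div_le_iff₀ hG0]
    exact h2.trans (mul_le_mul_of_nonneg_left hl ht)
  · rw [indicator_of_notMem hy]
    refine le_of_eq (measure_mono_null (t := ∅) (fun x hx => hy ?_) measure_empty)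
    refine mem_closedBall_iff_norm.2 ((pi_norm_le_iff_of_nonneg hR).2 fun j => ?_)
    have h1 := (norm_le_pi_norm _ (l.succAbove j)).trans hx.1
    simpa using h1

variable {n : ℕ}

lemma slab (hn : 3 ≤ n) (G x0 : Rn n) (c t R : ℝ) (hG : G ≠ 0) (ht : 0 ≤ t) (hR : 0 ≤ R) :
    volume {ξ : Rn n | ‖ξ - x0‖ ≤ R ∧ |ξ ⬝ᵥ G - c| ≤ t * ‖G‖} ≤
      ENNReal.ofReal (2 * t * (2 * R) ^ (n - 1)) := by
  obtain ⟨m, rfl⟩ : ∃ m, n = m + 1 := ⟨n - 1, by omega⟩
  exact slab' G x0 c t R hG ht hR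

lemma slab8 (hn : 3 ≤ n) (G x0 : Rn n) (t : ℝ) (hG : G ≠ 0) (ht : 0 ≤ t) :
    volume {ξ : Rn n | ‖ξ - x0‖ ≤ 1 / 8 ∧ |ξ ⬝ᵥ G| ≤ t * ‖G‖} ≤ ENNReal.ofReal (2 * t) := by
  have h := slab hn G x0 0 t (1 / 8) hG ht (by norm_num)
  simp only [sub_zero] at h
  refine h.trans (ENNReal.ofReal_le_ofReal (mul_le_of_le_one_right (by positivity) ?_))
  exact pow_le_one₀ (by norm_num) (by norm_num)

lemma ball8 (x0 : Rn n) : volume (closedBall x0 (1 / 8)) ≤ 1 := by
  rw [Real.volume_pi_closedBall _ (by norm_num), ← ENNReal.ofReal_one]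
  exact ENNReal.ofReal_le_ofReal (pow_le_one₀ (by norm_num) (by norm_num))

lemma abs_dot_le (a b : Rn n) : |a ⬝ᵥ b| ≤ n * ‖a‖ * ‖b‖ := by
  have := norm_dot_le (cx a) (cx b)
  rwa [cx_dot, norm_cx, norm_cx, Complex.norm_real, Real.norm_eq_abs] at this

/-- the covector defined by the second direction -/
def GG (u1 u2 e2 : Rn n) : Rn n := (e2 ⬝ᵥ u2) • u1 - (e2 ⬝ᵥ u1) • u2

lemma dt_eq (u1 u2 : Rn n) (e : Dir n) : dt u1 u2 e = e.1 ⬝ᵥ GG u1 u2 e.2 := by
  simp only [dt, GG, dotProduct_sub, dotProduct_smul, smul_eq_mul]; ring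

lemma planes (hn : 3 ≤ n) {u1 u2 : Rn n} {α : ℝ} (h : ON u1 u2) (hα : 0 < α) :
    volume {e ∈ Ebox n | |dt u1 u2 e| ≤ α} ≤ ENNReal.ofReal ((2 * n ^ 2 + 2) * √α) := by
  have hs : 0 < √α := Real.sqrt_pos.2 hα
  have hn' : (3 : ℝ) ≤ n := by exact_mod_cast hn
  have n1 : ‖u1‖ ≤ 1 := (pi_norm_le_iff_of_nonneg zero_le_one).2 fun l =>
    abs_le_one_iff_mul_self_le_one.2 (by nlinarith [h.sq_le l, sq_nonneg (u2 l)])
  have n2 : ‖u2‖ ≤ 1 := (pi_norm_le_iff_of_nonneg zero_le_one).2 fun l =>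
    abs_le_one_iff_mul_self_le_one.2 (by nlinarith [h.sq_le l, sq_nonneg (u1 l)])
  have n3 : 1 ≤ n * ‖u2‖ := by
    have := abs_dot_le u2 u2
    rw [h.2.1, abs_one] at this
    nlinarith [mul_nonneg (by linarith : (0 : ℝ) ≤ n) (norm_nonneg u2)]
  have hu2 : u2 ≠ 0 := by rintro rfl; simp at n3; linarith
  set E1 : Set (Dir n) := closedBall (bv 0) (1 / 8) ×ˢ
    {ξ : Rn n | ‖ξ - bv 1‖ ≤ 1 / 8 ∧ |ξ ⬝ᵥ u2| ≤ n ^ 2 * √α * ‖u2‖} with hE1
  set E2 : Set (Dir n) := {e | ‖e.1 - bv 0‖ ≤ 1 / 8} ∩ ({e | ‖e.2 - bv 1‖ ≤ 1 / 8} ∩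
    ({e | √α ≤ ‖GG u1 u2 e.2‖} ∩ {e | |e.1 ⬝ᵥ GG u1 u2 e.2| ≤ α})) with hE2
  have hsub : {e ∈ Ebox n | |dt u1 u2 e| ≤ α} ⊆ E1 ∪ E2 := by
    rintro e ⟨⟨h1, h2⟩, h3⟩
    by_cases hc : √α ≤ ‖GG u1 u2 e.2‖
    · exact Or.inr ⟨mem_closedBall_iff_norm.1 h1, mem_closedBall_iff_norm.1 h2, hc, by
        rwa [dt_eq] at h3⟩
    · refine Or.inl ⟨h1, mem_closedBall_iff_norm.1 h2, ?_⟩
      have e1 : e.2 ⬝ᵥ u2 = GG u1 u2 e.2 ⬝ᵥ u1 := by
        simp only [GG, sub_dotProduct, smul_dotProduct, smul_eq_mul, h.1, dotProduct_comm u2 u1,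
          h.2.2]
        ring
      have i1 := abs_dot_le (GG u1 u2 e.2) u1
      have i2 : n * ‖GG u1 u2 e.2‖ * ‖u1‖ ≤ n * √α * 1 :=
        mul_le_mul (mul_le_mul_of_nonneg_left (not_le.1 hc).le (by linarith)) n1 (norm_nonneg _)
          (by positivity)
      have i3 := mul_le_mul_of_nonneg_left n3 (by positivity : 0 ≤ n * √α)
      rw [e1]
      nlinarith
  have v1 : volume E1 ≤ ENNReal.ofReal (2 * (n ^ 2 * √α)) := by
    rw [hE1, Measure.volume_eq_prod, Measure.prod_prod]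
    exact (mul_le_mul' (ball8 _) (slab8 hn u2 _ _ hu2 (by positivity))).trans (one_mul _).le
  have hm : MeasurableSet E2 := by
    have c0 : Continuous fun e : Dir n => GG u1 u2 e.2 := by unfold GG dotProduct; fun_prop
    have c1 : Continuous fun e : Dir n => ‖e.1 - bv 0‖ := by fun_prop
    have c2 : Continuous fun e : Dir n => ‖e.2 - bv 1‖ := by fun_prop
    have c4 : Continuous fun e : Dir n => |e.1 ⬝ᵥ GG u1 u2 e.2| :=
      (continuous_fst.dotProduct c0).abs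
    exact (isClosed_le c1 continuous_const).measurableSet.inter
      ((isClosed_le c2 continuous_const).measurableSet.inter
        ((isClosed_le continuous_const c0.norm).measurableSet.inter
          (isClosed_le c4 continuous_const).measurableSet))
  have v2 : volume E2 ≤ ENNReal.ofReal (2 * √α) := by
    rw [Measure.volume_eq_prod, Measure.prod_apply_symm hm]
    set B := closedBall (bv 1 : Rn n) (1 / 8) with hB
    calc _ ≤ ∫⁻ y, B.indicator (fun _ => ENNReal.ofReal (2 * √α)) y := lintegral_mono fun y => ?_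
      _ = ENNReal.ofReal (2 * √α) * volume B := lintegral_indicator_const measurableSet_closedBall _
      _ ≤ _ := mul_le_of_le_one_right' (ball8 _)
    by_cases hy : y ∈ B ∧ √α ≤ ‖GG u1 u2 y‖
    · rw [indicator_of_mem hy.1]
      refine le_trans (measure_mono fun x hx => ?_)
        (slab8 hn (GG u1 u2 y) (bv 0) _ (norm_pos_iff.1 (hs.trans_le hy.2)) hs.le)
      refine ⟨hx.1, hx.2.2.2.trans ?_⟩
      calc α = √α * √α := (Real.mul_self_sqrt hα.le).symm
        _ ≤ _ := mul_le_mul_of_nonneg_left hy.2 hs.le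
    · refine le_trans (le_of_eq (measure_mono_null (t := ∅) (fun x hx => hy ?_) measure_empty))
        zero_le
      exact ⟨mem_closedBall_iff_norm.2 hx.2.1, hx.2.2.1⟩
  refine (measure_mono hsub).trans ((measure_union_le _ _).trans ((add_le_add v1 v2).trans ?_))
  rw [← ENNReal.ofReal_add (by positivity) (by positivity)]
  exact le_of_eq (by congr 1; ring)

end Graze

open Graze in
theorem graze {n : ℕ} (hn : 3 ≤ n) : GrazeStmt n := by
  refine ⟨slab hn, ⟨(2 * n ^ 2 + 2) * 2 ^ n, ?_, fun u1 u2 α h hα => ?_⟩, ?_, ?_⟩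
  · have : (1 : ℝ) ≤ 2 ^ n := one_le_pow₀ (by norm_num)
    nlinarith [sq_nonneg (n : ℝ)]
  · have hsub : {θ ∈ Tbox n | |dt u1 u2 θ.1| ≤ α} ⊆
        {e ∈ Ebox n | |dt u1 u2 e| ≤ α} ×ˢ closedBall (0 : Rn n) 1 :=
      fun θ hθ => ⟨⟨hθ.1.1, hθ.2⟩, hθ.1.2⟩
    refine (measure_mono hsub).trans ?_
    rw [Measure.volume_eq_prod, Measure.prod_prod, Real.volume_pi_closedBall _ zero_le_one,
      Fintype.card_fin]
    refine (mul_le_mul' (planes hn h hα) le_rfl).trans (le_of_eq ?_)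
    rw [← ENNReal.ofReal_mul (by positivity)]
    congr 1; ring
  · unfold Tbox Ebox
    rw [Measure.volume_eq_prod, Measure.prod_prod, Measure.volume_eq_prod, Measure.prod_prod,
      Real.volume_pi_closedBall _ zero_le_one, Real.volume_pi_closedBall _ (by norm_num),
      Real.volume_pi_closedBall _ (by norm_num), Fintype.card_fin,
      ← ENNReal.ofReal_mul (by positivity), ← ENNReal.ofReal_mul (by positivity), ← mul_pow,
      ← mul_pow]
    norm_num
  · exact (measurableSet_closedBall.prod measurableSet_closedBall).prod measurableSet_closedBall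

end

end Pool.Agent.LinN2
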