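import Pool.Agent.Lib.MP_8465a2_an.N2.BasicB

/-!
Greedy choice of spread vectors and orthogonal complements (MP_8465a2_an).
-/

namespace Pool.Agent.LinN2

open MeasureTheory Metric Set Filter Topology Complex
open scoped ENNReal ComplexConjugate

noncomputable section

namespace Greedy

variable {n : ℕ}

lemma part1 (k : ℕ) (G : Set (Rn n)) (r θ : ℝ) (hr : 0 < r) (hθ : 0 < θ) (hθ1 : θ ≤ 1)
    (hG : ∀ v ∈ G, ‖v‖ ≤ 2 * r) :
    (∃ v : Fin k → Rn n, (∀ l, v l ∈ G) ∧ Spread k ((θ / 4) ^ k * r) v) ∨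
      ∃ W : Submodule ℝ (Rn n), Module.finrank ℝ W < k ∧ ∀ v ∈ G, ∃ w ∈ W, ‖v - w‖ ≤ θ * r := by
  induction k with
  | zero =>
    left
    refine ⟨Fin.elim0, fun l => l.elim0, fun s => ?_⟩
    have : s = 0 := Subsingleton.elim _ _
    rw [this, norm_zero, mul_zero]
    exact norm_nonneg _
  | succ k ih =>
    rcases ih with ⟨v, hvG, hv⟩ | ⟨W, hW, hW'⟩
    swap
    · exact Or.inr ⟨W, by omega, hW'⟩
    by_cases h : ∀ u ∈ G, ∃ w ∈ Submodule.span ℝ (Set.range v), ‖u - w‖ ≤ θ * r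
    · refine Or.inr ⟨Submodule.span ℝ (Set.range v), ?_, h⟩
      have := finrank_range_le_card (R := ℝ) v
      simp only [Fintype.card_fin] at this
      exact Nat.lt_succ_of_le this
    push Not at h
    obtain ⟨u, huG, hu⟩ := h
    left
    refine ⟨Fin.cons u v, fun l => Fin.cases huG (fun l => hvG l) l, fun s => ?_⟩
    rw [Fin.sum_univ_succ]
    simp only [Fin.cons_zero, Fin.cons_succ]
    set L := ‖s 0 • u + ∑ l : Fin k, s l.succ • v l‖ with hL
    have hL0 : 0 ≤ L := norm_nonneg _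
    have h1 : |s 0| * (θ * r) ≤ L := by
      rcases eq_or_ne (s 0) 0 with h0 | h0
      · simp [h0, hL0]
      · have hw : -((s 0)⁻¹ • ∑ l : Fin k, s l.succ • v l) ∈ Submodule.span ℝ (Set.range v) :=
          Submodule.neg_mem _ (Submodule.smul_mem _ _ (Submodule.sum_mem _ fun l _ =>
            Submodule.smul_mem _ _ (Submodule.subset_span ⟨l, rfl⟩)))
        have h2 := (hu _ hw).le
        have e : s 0 • u + ∑ l : Fin k, s l.succ • v l =
            s 0 • (u - -((s 0)⁻¹ • ∑ l : Fin k, s l.succ • v l)) := by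
          rw [sub_neg_eq_add, smul_add, smul_smul, mul_inv_cancel₀ h0, one_smul]
        rw [hL, e, norm_smul, Real.norm_eq_abs]
        gcongr
    have h2 : (θ / 4) ^ k * r * ‖fun l : Fin k => s l.succ‖ ≤ L + |s 0| * (2 * r) := by
      refine (hv _).trans ?_
      have e : ∑ l : Fin k, s l.succ • v l = (s 0 • u + ∑ l : Fin k, s l.succ • v l) - s 0 • u := by
        abel
      rw [e]
      refine (norm_sub_le _ _).trans ?_
      rw [norm_smul, Real.norm_eq_abs]
      have := hG u huG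
      gcongr
    have hc : 0 < (θ / 4) ^ (k + 1) * r := by positivity
    have hp : (θ / 4) ^ k ≤ 1 := pow_le_one₀ (by positivity) (by linarith)
    have hp0 : 0 < (θ / 4) ^ k := by positivity
    rw [mul_comm, ← le_div_iff₀ hc, pi_norm_le_iff_of_nonneg (by positivity)]
    intro l
    rw [le_div_iff₀ hc]
    refine Fin.cases ?_ (fun l => ?_) l
    · rw [Real.norm_eq_abs, pow_succ]
      have a0 := abs_nonneg (s 0)
      have : (θ / 4) ^ k * (θ / 4) * r ≤ θ * r := by
        have : (θ / 4) ^ k * (θ / 4) ≤ θ := by nlinarith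
        gcongr
      calc |s 0| * ((θ / 4) ^ k * (θ / 4) * r) ≤ |s 0| * (θ * r) := by gcongr
        _ ≤ L := h1
    · have h3 : ‖s l.succ‖ ≤ ‖fun l : Fin k => s l.succ‖ :=
        norm_le_pi_norm (fun l : Fin k => s l.succ) l
      have h4 : (θ / 4) ^ k * r * ‖s l.succ‖ ≤ L + |s 0| * (2 * r) :=
        le_trans (by gcongr) h2
      have h5 : θ / 4 * ((θ / 4) ^ k * r * ‖s l.succ‖) ≤ θ / 4 * (L + |s 0| * (2 * r)) := by
        gcongr
      rw [pow_succ]
      nlinarith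

lemma Spread.li {k : ℕ} {θ : ℝ} {v : Fin k → Rn n} (h : Spread k θ v) (hθ : 0 < θ) :
    LinearIndependent ℝ v := by
  rw [Fintype.linearIndependent_iff]
  intro s hs l
  have h1 := h s
  rw [hs, norm_zero] at h1
  have h2 : ‖s‖ = 0 := le_antisymm (by nlinarith [norm_nonneg s]) (norm_nonneg _)
  rw [norm_eq_zero] at h2
  simp [h2]

lemma exists_compl {k m : ℕ} (hkm : k + m = n) (v : Fin k → Rn n) (hv : LinearIndependent ℝ v) :
    ∃ u : Fin m → Rn n, (∀ i j, u i ⬝ᵥ u j = if i = j then 1 else 0) ∧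
      ∀ x : Rn n, (∀ i, u i ⬝ᵥ x = 0) → ∃ s : Fin k → ℝ, x = ∑ l, s l • v l := by
  let e : EuclideanSpace ℝ (Fin n) ≃ₗ[ℝ] Rn n := WithLp.linearEquiv 2 ℝ (Fin n → ℝ)
  let V : Fin k → EuclideanSpace ℝ (Fin n) := fun l => e.symm (v l)
  have hV : LinearIndependent ℝ V := hv.map' e.symm.toLinearMap e.symm.ker
  let K := Submodule.span ℝ (Set.range V)
  have hK : Module.finrank ℝ K = k := by
    simpa using finrank_span_eq_card hV
  have hK' : Module.finrank ℝ Kᗮ = m := by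
    have := K.finrank_add_finrank_orthogonal
    rw [hK, finrank_euclideanSpace, Fintype.card_fin] at this
    omega
  let b : OrthonormalBasis (Fin m) ℝ Kᗮ := (stdOrthonormalBasis ℝ Kᗮ).reindex (finCongr hK')
  have hin : ∀ x y : EuclideanSpace ℝ (Fin n), e x ⬝ᵥ e y = inner ℝ x y := by
    intro x y
    simp [e, PiLp.inner_apply, dotProduct, mul_comm]
  refine ⟨fun i => e (b i), fun i j => ?_, fun x hx => ?_⟩
  · rw [hin]
    have := orthonormal_iff_ite.1 b.orthonormal i j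
    simpa using this
  · have hx' : e.symm x ∈ Kᗮᗮ := by
      rw [Submodule.mem_orthogonal]
      intro y hy
      have h1 : (⟨y, hy⟩ : Kᗮ) = ∑ i, b.repr ⟨y, hy⟩ i • b i := (b.sum_repr _).symm
      have h2 : y = ∑ i, b.repr ⟨y, hy⟩ i • (b i : EuclideanSpace ℝ (Fin n)) := by
        simpa using congrArg Subtype.val h1
      rw [h2, sum_inner]
      refine Finset.sum_eq_zero fun i _ => ?_
      have h3 := hx i
      rw [← e.apply_symm_apply x, hin] at h3
      rw [inner_smul_left, h3, mul_zero]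
    rw [Submodule.orthogonal_orthogonal] at hx'
    obtain ⟨s, hs⟩ := (Submodule.mem_span_range_iff_exists_fun ℝ).1 hx'
    refine ⟨s, ?_⟩
    have := congrArg e hs
    simpa [V, map_sum] using this.symm

lemma dot_rp (u : Rn n) (t : Cn n) : u ⬝ᵥ rp t = (cx u ⬝ᵥ t).re := by
  simp [dotProduct, rp, cx]

lemma dot_ip (u : Rn n) (t : Cn n) : u ⬝ᵥ ip t = (cx u ⬝ᵥ t).im := by
  simp [dotProduct, ip, cx]

lemma complexify {k m : ℕ} {θ : ℝ} (hθ : 0 < θ) {v : Fin k → Rn n} (hv : Spread k θ v)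
    {u : Fin m → Rn n}
    (hu : ∀ x : Rn n, (∀ i, u i ⬝ᵥ x = 0) → ∃ s : Fin k → ℝ, x = ∑ l, s l • v l)
    (t : Cn n) (ht : ∀ i, cx (u i) ⬝ᵥ t = 0) :
    ∃ s : Fin k → ℂ, θ * ‖s‖ ≤ 2 * ‖t‖ ∧ t = ∑ l, s l • cx (v l) := by
  obtain ⟨a, ha⟩ := hu (rp t) fun i => by rw [dot_rp, ht i, zero_re]
  obtain ⟨b, hb⟩ := hu (ip t) fun i => by rw [dot_ip, ht i, zero_im]
  refine ⟨cx a + I • cx b, ?_, ?_⟩
  · have h1 := hv a
    have h2 := hv b
    rw [← ha] at h1
    rw [← hb] at h2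
    have h3 : ‖cx a + I • cx b‖ ≤ ‖a‖ + ‖b‖ := by
      refine (norm_add_le _ _).trans ?_
      rw [norm_smul, norm_I, one_mul, norm_cx, norm_cx]
    have h4 := norm_rp_le t
    have h5 := norm_ip_le t
    nlinarith
  · conv_lhs => rw [← rp_add_ip t, ha, hb, cx_sum, cx_sum, Finset.smul_sum, ← Finset.sum_add_distrib]
    refine Finset.sum_congr rfl fun l _ => ?_
    rw [cx_smul, cx_smul, smul_smul, ← add_smul]
    rfl

end Greedy

open Greedy in
theorem greedy : GreedyStmt := by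
  intro n
  refine ⟨fun k G r θ => part1 k G r θ, fun v θ hn hθ hv => ?_, fun v θ hn hθ hv => ?_⟩
  · obtain ⟨u, hu1, hu2⟩ := exists_compl (m := 2) (by omega) v (Spread.li hv hθ)
    have hON : ON (u 0) (u 1) := ⟨by simpa using hu1 0 0, by simpa using hu1 1 1,
      by simpa using hu1 0 1⟩
    refine ⟨u 0, u 1, hON, fun y => ?_⟩
    set z := zc (u 0) (u 1) y with hz
    set w := wc (u 0) (u 1) y with hw
    set d := z • nv (u 0) (u 1) + w • star (nv (u 0) (u 1)) with hd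
    have hdn : ‖d‖ ≤ max ‖z‖ ‖w‖ := by
      refine (norm_add_le _ _).trans ?_
      rw [norm_smul, norm_smul, norm_star]
      have h1 := hON.norm_nv
      have h2 := le_max_left ‖z‖ ‖w‖
      have h3 := le_max_right ‖z‖ ‖w‖
      have h4 := norm_nonneg z
      have h5 := norm_nonneg w
      nlinarith
    have hz0 : zc (u 0) (u 1) (y - d) = 0 := by
      rw [zc_sub, hd, zc_add, zc_smul, zc_smul, zc_star, hON.zc_nv, hON.wc_nv]
      simp [hz]
    have hw0 : wc (u 0) (u 1) (y - d) = 0 := by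
      rw [wc_sub, hd, wc_add, wc_smul, wc_smul, wc_star, hON.zc_nv, hON.wc_nv]
      simp [hw]
    rw [zc, add_dotProduct, smul_dotProduct, smul_eq_mul] at hz0
    rw [wc, sub_dotProduct, smul_dotProduct, smul_eq_mul] at hw0
    have h0 : cx (u 0) ⬝ᵥ (y - d) = 0 := by linear_combination (hz0 + hw0) / 2
    have h1 : cx (u 1) ⬝ᵥ (y - d) = 0 := by
      rw [h0, zero_add] at hz0
      exact (mul_eq_zero.1 hz0).resolve_left I_ne_zero
    obtain ⟨s, hs1, hs2⟩ := complexify hθ hv hu2 (y - d) (Fin.forall_fin_two.2 ⟨h0, h1⟩)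
    refine ⟨s, hs1.trans ?_, ?_⟩
    · have a1 : ‖z‖ ≤ n * ‖y‖ := hON.norm_zc y
      have a2 : ‖w‖ ≤ n * ‖y‖ := hON.norm_wc y
      have a3 : ‖d‖ ≤ n * ‖y‖ := hdn.trans (max_le a1 a2)
      have a4 := norm_sub_le y d
      have a5 : 0 ≤ (n : ℝ) * ‖y‖ := by positivity
      nlinarith
    · rw [← hs2, sub_sub_cancel]
      exact hdn
  · obtain ⟨u, hu1, hu2⟩ := exists_compl (m := 1) (by omega) v (Spread.li hv hθ)
    refine ⟨u 0, by simpa using hu1 0 0, fun t ht => ?_⟩
    exact complexify hθ hv hu2 t (Fin.forall_fin_one.2 ht)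

end

end Pool.Agent.LinN2
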