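import Pool.Agent.Lib.MP_8465a2_an.N2.Ground1

/-!
The real slice limit, uniformly in the plane.
-/

namespace Pool.Agent.LinN2

open MeasureTheory Metric Set Filter Topology Complex
open scoped ENNReal ComplexConjugate

namespace Ground

/-- the integrand of the averaged grounded mass -/
noncomputable def Hh (a : E2 → ℂ) (η η' ε T c : ℝ) (u : E2) : ℝ≥0∞ :=
  (Gset η').indicator (fun u => ENNReal.ofReal (pt ε T c *
    (wt η (a u - c) * (bw (u.1 * u.2) * Pk η (u.1 * u.2) * ‖Tf a u‖ ^ 2)))) u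

/-- the same after rescaling around the real slice -/
noncomputable def Fz (a : E2 → ℂ) (η η' ε T : ℝ) (w : ℂ × ℂ × ℝ) : ℝ≥0∞ :=
  ENNReal.ofReal (‖η * conj w.1‖ ^ 2) * (ENNReal.ofReal |η| *
    Hh a η η' ε T ((a (w.1, conj w.1)).re + η * w.2.2) (w.1, conj w.1 + η * conj w.1 * w.2.1))

/-- the limit integrand -/
noncomputable def F0 (a : E2 → ℂ) (ε T : ℝ) (w : ℂ × ℂ × ℝ) : ℝ≥0∞ :=
  ENNReal.ofReal (‖w.1‖ ^ 2 * pt ε T (a (w.1, conj w.1)).re * bw (w.1 * conj w.1) *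
    ‖Tf a (w.1, conj w.1)‖ ^ 2) *
    ENNReal.ofReal (ker (fderiv ℂ a (w.1, conj w.1) (0, conj w.1)) w.2.1 w.2.2)

variable {a : E2 → ℂ} {η η' ε T : ℝ}

lemma meas_Hh (h : PtStmt) (ha : ContDiff ℂ 2 a) (hT : 0 < T) (hε : 0 < ε) :
    Measurable fun z : ℝ × E2 => Hh a η η' ε T z.1 z.2 := by
  have h1 := (h.1 ε T hε hT).1.measurable
  have h2 := h.2.2.2.2.2.1.measurable
  have h3 := (continuous_Tf ha).measurable
  have h4 := ha.continuous.measurable
  have h5 : Measurable (wt η) := by unfold wt; fun_prop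
  have h6 : Measurable (Pk η) := by unfold Pk; fun_prop
  exact Measurable.indicator (s := Prod.snd ⁻¹' Gset η') (f := fun z : ℝ × E2 =>
    ENNReal.ofReal (pt ε T z.1 * (wt η (a z.2 - z.1) *
      (bw (z.2.1 * z.2.2) * Pk η (z.2.1 * z.2.2) * ‖Tf a z.2‖ ^ 2)))) (by fun_prop)
    (measurable_snd (h.2.2.2.1 η').measurableSet)

lemma meas_Fz (h : PtStmt) (ha : ContDiff ℂ 2 a) (hT : 0 < T) (hε : 0 < ε) :
    Measurable (Fz a η η' ε T) := by
  have h4 := ha.continuous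
  have h1 := (meas_Hh (η := η) (η' := η') h ha hT hε).comp (f := fun w : ℂ × ℂ × ℝ =>
    ((a (w.1, conj w.1)).re + η * w.2.2, (w.1, conj w.1 + η * conj w.1 * w.2.1)))
    (Continuous.measurable (by fun_prop))
  exact (Continuous.measurable (ENNReal.continuous_ofReal.comp (by fun_prop))).mul
    (h1.const_mul _)

lemma rhs_eq (h : PtStmt) (ha : ContDiff ℂ 2 a) (hT : 0 < T) (hε : 0 < ε) (h0 : 0 < η)
    (h1 : η < 1) (h2 : η' ≤ 1) :
    ENNReal.ofReal (∫ c, pt ε T c * Gr (fun u => a u - c) η η') =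
      ∫⁻ c, ∫⁻ u, Hh a η η' ε T c u := by
  obtain ⟨p1, p2, -, p3, -⟩ := h.1 ε T hε hT
  have q := fun c : ℝ => h.2.1 (fun u => a u - c) η η' (ha.sub contDiff_const) h0 h1 h2
  rw [ofReal_integral_eq_lintegral_ofReal (f := fun c => pt ε T c * Gr (fun u => a u - c) η η')
    ((p1.mul (h.2.1 a η η' ha h0 h1 h2).1).integrable_of_hasCompactSupport p3.mul_right)
    (Eventually.of_forall fun c => mul_nonneg (p2 c) (q c).2.1)]
  refine lintegral_congr fun c => ?_
  have hT : Tf (fun u => a u - c) = Tf a := by ext u; simp [Tf, fderiv_sub_const]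
  have hP : ∀ q, 0 ≤ Pk η q := fun q => div_nonneg (by nlinarith) (sq_nonneg _)
  have q3 := (q c).2.2
  rw [hT] at q3
  rw [Gr, hT, ← integral_const_mul, ofReal_integral_eq_lintegral_ofReal (q3.const_mul _)
    (Eventually.of_forall fun u => mul_nonneg (p2 c) (mul_nonneg (wt_nonneg _ _)
      (mul_nonneg (mul_nonneg (h.2.2.2.2.2.2.1 _) (hP _)) (sq_nonneg _)))),
    ← lintegral_indicator (h.2.2.2.1 η').measurableSet]
  rfl

lemma Fz_le (h : PtStmt) (ha : ContDiff ℂ 2 a) (hT : 0 < T) (hε : 0 < ε) (h0 : η ≠ 0) :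
    ∫⁻ w, Fz a η η' ε T w ≤ ∫⁻ c, ∫⁻ u, Hh a η η' ε T c u := by
  have hm := meas_Hh (η := η) (η' := η') h ha hT hε
  rw [lintegral_lintegral_swap hm.aemeasurable, Measure.volume_eq_prod ℂ ℂ,
    lintegral_prod _ (hm.lintegral_prod_left').aemeasurable, Measure.volume_eq_prod]
  refine (lintegral_prod_le _).trans (lintegral_mono fun x => ?_)
  rw [Measure.volume_eq_prod]
  refine (lintegral_prod_le _).trans (le_of_eq_of_le ?_
    (aff_cx (fun y => ∫⁻ c, Hh a η η' ε T c (x, y)) (conj x) (η * conj x)))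
  rw [← lintegral_const_mul' _ _ ENNReal.ofReal_ne_top]
  refine lintegral_congr fun s => ?_
  rw [aff_real (fun c => Hh a η η' ε T c _) (a (x, conj x)).re h0, ← lintegral_const_mul' _ _ ENNReal.ofReal_ne_top,
    ← lintegral_const_mul' _ _ ENNReal.ofReal_ne_top]
  rfl

lemma norm_Tf (ha : ContDiff ℂ 2 a) (hs : ∀ u : E2, a (conj u.2, conj u.1) = conj (a u)) (x : ℂ) :
    ‖Tf a (x, conj x)‖ = 2 * |(fderiv ℂ a (x, conj x) (0, conj x)).im| := by
  have hd := (ha.differentiable two_ne_zero (x, conj x)).hasFDerivAt.restrictScalars ℝ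
  have h1 : HasDerivAt (fun τ : ℝ => a ((x, conj x) + τ • (x, 0)))
      (fderiv ℂ a (x, conj x) (x, 0)) 0 := hd.hasLineDerivAt _
  have h2 : HasDerivAt (fun τ : ℝ => a ((x, conj x) + τ • (0, conj x)))
      (fderiv ℂ a (x, conj x) (0, conj x)) 0 := hd.hasLineDerivAt _
  have h3 : fderiv ℂ a (x, conj x) (x, 0) = conj (fderiv ℂ a (x, conj x) (0, conj x)) := by
    refine h1.unique (h2.star.congr_of_eventuallyEq (Eventually.of_forall fun τ => ?_))
    refine Eq.trans ?_ (hs _)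
    simp
  have h4 : Tf a (x, conj x) =
      fderiv ℂ a (x, conj x) (x, 0) - fderiv ℂ a (x, conj x) (0, conj x) := by
    rw [← map_sub]; simp [Tf]
  rw [h4, h3, ← norm_neg, neg_sub, Complex.sub_conj]
  simp

lemma glim_le (h : PtStmt) (ha : ContDiff ℂ 2 a) (hs : ∀ u : E2, a (conj u.2, conj u.1) = conj (a u))
    (hT : 0 < T) (hε : 0 < ε) : ENNReal.ofReal (Glim a ε T) ≤ ∫⁻ w, F0 a ε T w := by
  obtain ⟨p1, p2, -⟩ := h.1 ε T hε hT
  have b1 := h.2.2.2.2.2.1
  have b2 := h.2.2.2.2.2.2.1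
  have hm : Measurable (F0 a ε T) := by
    have h3 := continuous_Tf ha
    have h4 := ha.continuous
    have h5 := ha.continuous_fderiv two_ne_zero
    have h6 : Measurable fun w : ℂ × ℂ × ℝ => fderiv ℂ a (w.1, conj w.1) (0, conj w.1) :=
      Continuous.measurable (by fun_prop)
    refine (Continuous.measurable (ENNReal.continuous_ofReal.comp (by fun_prop))).mul ?_
    unfold ker
    fun_prop
  rw [Glim, ← integral_const_mul, Measure.volume_eq_prod, lintegral_prod _ hm.aemeasurable]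
  have hn : ∀ x : ℂ, 0 ≤ 4 * Real.pi ^ 2 * (bw (x * conj x) * ‖x‖ ^ 2 *
      (pt ε T (a (x, conj x)).re * ‖Tf a (x, conj x)‖)) := fun x => by
    have := b2 (x * conj x)
    have := p2 (a (x, conj x)).re
    positivity
  by_cases hi : Integrable fun x : ℂ => 4 * Real.pi ^ 2 * (bw (x * conj x) * ‖x‖ ^ 2 *
      (pt ε T (a (x, conj x)).re * ‖Tf a (x, conj x)‖))
  swap
  · rw [integral_undef hi]; simp
  rw [ofReal_integral_eq_lintegral_ofReal hi (Eventually.of_forall hn)]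
  refine lintegral_mono fun x => ?_
  have hx := norm_Tf ha hs x
  by_cases hγ : (fderiv ℂ a (x, conj x) (0, conj x)).im = 0
  · simp [hx, hγ]
  rw [Measure.volume_eq_prod, lintegral_prod (fun y => F0 a ε T (x, y))
    (hm.comp measurable_prodMk_left).aemeasurable]
  simp only [F0, lintegral_const_mul' _ _ ENNReal.ofReal_ne_top]
  have := b2 (x * conj x)
  have := p2 (a (x, conj x)).re
  rw [int_ker hγ, ← ENNReal.ofReal_mul (by positivity), hx]
  refine le_of_eq (congrArg _ ?_)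
  have := abs_pos.2 hγ
  field_simp
  ring

/-- rescaled denominator of the Poisson kernel -/
noncomputable def NN (s : ℂ) (η : ℝ) : ℂ :=
  (((2 * s.re + η * ‖s‖ ^ 2) / (‖1 + η * s‖ + 1) : ℝ) + 1 - s + η * s) / (‖1 + η * s‖ : ℝ)

lemma Pk_eq {x s : ℂ} (hx : x ≠ 0) (h0 : η ≠ 0) (hs : 1 + η * s ≠ 0) :
    η * Pk η (x * (conj x + η * conj x * s)) = (2 - η) / ‖NN s η‖ ^ 2 := by
  have h1 : x * (conj x + η * conj x * s) = ((‖x‖ ^ 2 : ℝ) : ℂ) * (1 + η * s) := by
    rw [Complex.sq_norm, ← Complex.mul_conj]; ring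
  have h2 : ‖1 + η * s‖ - 1 = η * ((2 * s.re + η * ‖s‖ ^ 2) / (‖1 + η * s‖ + 1)) := by
    rw [← mul_div_assoc, eq_div_iff (by positivity)]
    have : ‖1 + η * s‖ ^ 2 = 1 + η * (2 * s.re + η * ‖s‖ ^ 2) := by
      simp only [Complex.sq_norm, normSq_apply]
      simp
      ring
    linear_combination this
  have h3 : ((‖1 + η * s‖ : ℝ) : ℂ) ≠ 0 := by simpa using hs
  have h4 : ((‖x‖ : ℝ) : ℂ) ≠ 0 := by simpa using hx
  have h5 : 1 - ((1 - η : ℝ) : ℂ) * (x * (conj x + η * conj x * s) /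
      (‖x * (conj x + η * conj x * s)‖ : ℝ)) = η * NN s η := by
    have h6 := congrArg (fun t : ℝ => (t : ℂ)) h2
    simp only [ofReal_sub, ofReal_one, ofReal_mul] at h6
    rw [h1, norm_mul, NN, Complex.norm_real, Real.norm_of_nonneg (sq_nonneg _)]
    generalize (((2 * s.re + η * ‖s‖ ^ 2) / (‖1 + η * s‖ + 1) : ℝ) : ℂ) = k at h6
    push_cast
    field_simp
    linear_combination h6
  rw [Pk, h5, norm_mul, Complex.norm_real, mul_pow, Real.norm_eq_abs, sq_abs]
  rcases eq_or_ne (‖NN s η‖ ^ 2) 0 with h7 | h7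
  · simp [h7]
  · field_simp
    ring

lemma NN_zero (s : ℂ) : ‖NN s 0‖ ^ 2 = 1 + s.im ^ 2 := by
  have : NN s 0 = s.re + 1 - s := by simp [NN]; ring
  rw [this, Complex.sq_norm, normSq_apply]
  simp [sq]

lemma wt_eq (h0 : η ≠ 0) (τ : ℂ) : η ^ 2 * wt η (η * τ) = 1 / (‖τ‖ ^ 2 + 1) ^ 2 := by
  rw [wt, norm_mul, Complex.norm_real, mul_pow, Real.norm_eq_abs, sq_abs]
  field_simp

lemma ftc (ha : ContDiff ℂ 2 a) (y v : E2) (η : ℝ) :
    a (y + η • v) - a y = η * ∫ τ in (0 : ℝ)..1, fderiv ℂ a (y + (τ * η) • v) v := by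
  have h5 := ha.continuous_fderiv two_ne_zero
  have := intervalIntegral.integral_eq_sub_of_hasDerivAt (a := 0) (b := 1)
    (f := fun τ : ℝ => a (y + (τ * η) • v))
    (f' := fun τ : ℝ => η * fderiv ℂ a (y + (τ * η) • v) v) (fun τ _ => by
      have hd := (ha.differentiable two_ne_zero (y + (τ * η) • v)).hasFDerivAt.restrictScalars ℝ
      have h2 : HasDerivAt (fun τ : ℝ => y + (τ * η) • v) (η • v) τ := by
        simpa using (((hasDerivAt_id τ).mul_const η).smul_const v).const_add y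
      simpa [Function.comp_def] using hd.comp_hasDerivAt τ h2)
    (Continuous.intervalIntegrable (by fun_prop) _ _)
  rw [intervalIntegral.integral_const_mul] at this
  simpa using this.symm

variable {Θ : Type} [PseudoMetricSpace Θ] [ProperSpace Θ] {A : Θ → E2 → ℂ}

/-- a continuous family of real holomorphic functions -/
structure Fam (A : Θ → E2 → ℂ) : Prop where
  sm : ∀ θ, ContDiff ℂ 2 (A θ)
  c0 : Continuous fun z : Θ × E2 => A z.1 z.2
  c1 : Continuous fun z : Θ × E2 × E2 => fderiv ℂ (A z.1) z.2.1 z.2.2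
  sy : ∀ θ (u : E2), A θ (conj u.2, conj u.1) = conj (A θ u)

omit [ProperSpace Θ] in
lemma F0_le (h : PtStmt) (hA : Fam A) (hT : 0 < T) (hε : 0 < ε) (h2 : 0 < η') (θ0 : Θ)
    (w : ℂ × ℂ × ℝ) : F0 (A θ0) ε T w ≤ liminf (fun z : ℝ × Θ => Fz (A z.2) z.1 η' ε T w)
      (𝓝[{z | 0 < z.1}] (0, θ0)) := by
  obtain ⟨x, s, v⟩ := w
  rcases (𝓝[{z : ℝ × Θ | 0 < z.1}] (0, θ0)).eq_or_neBot with hb | hb
  · simp [hb]
  rcases eq_or_ne x 0 with rfl | hx
  · simp [F0]
  obtain ⟨p1, p2, -⟩ := h.1 ε T hε hT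
  have b1 := h.2.2.2.2.2.1
  have b2 := h.2.2.2.2.2.2.1
  refine (Tendsto.liminf_eq ?_).ge
  let D : ℝ × Θ → ℂ := fun z => ∫ τ in (0 : ℝ)..1,
    fderiv ℂ (A z.2) ((x, conj x) + (τ * z.1) • (0, conj x * s)) (0, conj x * s)
  have hD : Continuous D := intervalIntegral.continuous_parametric_intervalIntegral_of_continuous'
    (f := fun (z : ℝ × Θ) (τ : ℝ) =>
      fderiv ℂ (A z.2) ((x, conj x) + (τ * z.1) • (0, conj x * s)) (0, conj x * s)) (hA.c1.comp (f := fun y : (ℝ × Θ) × ℝ =>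
      (y.1.2, (x, conj x) + (y.2 * y.1.1) • (0, conj x * s), (0, conj x * s))) (by fun_prop)) _ _
  have hc : Continuous fun z : ℝ × Θ => A z.2 (x, conj x) :=
    hA.c0.comp (f := fun z : ℝ × Θ => (z.2, (x, conj x))) (by fun_prop)
  have hTf : Continuous fun z : ℝ × Θ => Tf (A z.2) (x, conj x + z.1 * conj x * s) :=
    hA.c1.comp (f := fun z : ℝ × Θ => (z.2, (x, conj x + z.1 * conj x * s),
      (x, -(conj x + z.1 * conj x * s)))) (by fun_prop)
  have hN : ContinuousAt (NN s) 0 := by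
    unfold NN
    fun_prop (disch := simp)
  let E : ℝ × Θ → ℝ := fun z => ‖x‖ ^ 2 * pt ε T ((A z.2 (x, conj x)).re + z.1 * v) *
    bw (x * (conj x + z.1 * conj x * s)) * ‖Tf (A z.2) (x, conj x + z.1 * conj x * s)‖ ^ 2 *
    ((2 - z.1) / ‖NN s z.1‖ ^ 2 * (1 / (‖D z - v‖ ^ 2 + 1) ^ 2))
  have hE : ContinuousAt E (0, θ0) := by
    refine ContinuousAt.mul (Continuous.continuousAt (((continuous_const.mul (p1.comp
      ((continuous_re.comp hc).add (by fun_prop)))).mul (b1.comp (by fun_prop))).mul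
      (hTf.norm.pow 2))) (ContinuousAt.mul
      (ContinuousAt.div (by fun_prop) ((hN.comp_of_eq continuousAt_fst rfl).norm.pow 2) ?_)
      (Continuous.continuousAt (continuous_const.div (by fun_prop) fun z => by positivity)))
    rw [NN_zero]; positivity
  have hE0 : ENNReal.ofReal (E (0, θ0)) = F0 (A θ0) ε T (x, s, v) := by
    have hD0 : D (0, θ0) = s * fderiv ℂ (A θ0) (x, conj x) (0, conj x) := by
      rw [← smul_eq_mul, ← map_smul]
      simp [D, mul_comm]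
    have := b2 (x * conj x)
    have := p2 (A θ0 (x, conj x)).re
    rw [F0, ← ENNReal.ofReal_mul (by positivity)]
    simp only [E, hD0, NN_zero, ker]
    simp
  rw [← hE0]
  refine ((ENNReal.continuous_ofReal.tendsto _).comp (hE.tendsto.mono_left
    nhdsWithin_le_nhds)).congr' ?_
  have e1 : ∀ᶠ z : ℝ × Θ in 𝓝 (0, θ0), ‖(z.1 : ℂ) * conj x * s‖ < η' :=
    ContinuousAt.eventually_lt (by fun_prop) continuousAt_const (by simpa using h2)
  have e2 : ∀ᶠ z : ℝ × Θ in 𝓝 (0, θ0), 1 + (z.1 : ℂ) * s ≠ 0 :=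
    ContinuousAt.eventually_ne (by fun_prop) (by simp)
  filter_upwards [e1.filter_mono nhdsWithin_le_nhds, e2.filter_mono nhdsWithin_le_nhds,
    self_mem_nhdsWithin] with z z1 z2 z0
  obtain ⟨η, θ⟩ := z
  replace z0 : 0 < η := z0
  simp only [Function.comp, Fz, Hh, E] at z1 z2 ⊢
  by_cases hw : bw (x * (conj x + η * conj x * s)) = 0
  · simp [indicator, hw]
  have hG : (x, conj x + η * conj x * s) ∈ Gset η' := by
    refine ⟨?_, h.2.2.2.2.2.2.2.2.1 _ hw⟩
    rw [← Complex.norm_conj]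
    simpa using z1.le
  have hr : A θ (x, conj x) = (A θ (x, conj x)).re := by
    have := hA.sy θ (x, conj x)
    simp only [Complex.conj_conj] at this
    exact (Complex.conj_eq_iff_re.1 this.symm).symm
  have ha : A θ (x, conj x + η * conj x * s) - (((A θ (x, conj x)).re + η * v : ℝ) : ℂ) =
      η * (D (η, θ) - v) := by
    have := ftc (hA.sm θ) (x, conj x) (0, conj x * s) η
    rw [show (x, conj x) + η • ((0 : ℂ), conj x * s) = (x, conj x + η * conj x * s) by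
      simp [mul_assoc]] at this
    rw [ofReal_add, ← hr, mul_sub, ← this]
    push_cast
    ring
  rw [indicator_of_mem hG, ha, ← ENNReal.ofReal_mul (abs_nonneg _),
    ← ENNReal.ofReal_mul (sq_nonneg _), ← Pk_eq hx z0.ne' z2, ← wt_eq z0.ne', abs_of_pos z0,
    norm_mul, Complex.norm_conj, Complex.norm_real, Real.norm_of_nonneg z0.le]
  congr 1
  ring

lemma cont_Glim (h : PtStmt) (hA : Fam A) (hT : 0 < T) (hε : 0 < ε) :
    Continuous fun θ => Glim (A θ) ε T := by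
  have p1 := (h.1 ε T hε hT).1
  have b1 := h.2.2.2.2.2.1
  have hc : Continuous fun z : Θ × ℂ => A z.1 (z.2, conj z.2) :=
    hA.c0.comp (f := fun z : Θ × ℂ => (z.1, (z.2, conj z.2))) (by fun_prop)
  have hTf : Continuous fun z : Θ × ℂ => Tf (A z.1) (z.2, conj z.2) :=
    hA.c1.comp (f := fun z : Θ × ℂ => (z.1, (z.2, conj z.2), (z.2, -conj z.2))) (by fun_prop)
  refine continuous_const.mul ((continuous_parametric_integral_of_continuous (μ := volume)
    (f := fun θ (x : ℂ) => bw (x * conj x) * ‖x‖ ^ 2 *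
      (pt ε T (A θ (x, conj x)).re * ‖Tf (A θ) (x, conj x)‖))
    (show Continuous fun z : Θ × ℂ => bw (z.2 * conj z.2) * ‖z.2‖ ^ 2 *
      (pt ε T (A z.1 (z.2, conj z.2)).re * ‖Tf (A z.1) (z.2, conj z.2)‖) from
      Continuous.mul (by fun_prop) ((p1.comp (continuous_re.comp hc)).mul hTf.norm))
    (isCompact_closedBall 0 4)).congr fun θ => ?_)
  refine setIntegral_eq_integral_of_forall_compl_eq_zero fun x hx => ?_
  by_cases hw : bw (x * conj x) = 0
  · simp [hw]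
  exact absurd (mem_closedBall_zero_iff.2 ((norm_fst_le ((x, conj x) : E2)).trans
    (h.2.2.2.2.1 (x, conj x) ⟨by simp, h.2.2.2.2.2.2.2.2.1 _ hw⟩))) hx

lemma main {δ : ℝ} (h : PtStmt) (hA : Fam A) (hT : 0 < T) (hε : 0 < ε) (h2 : 0 < η') (h3 : η' ≤ 1)
    (hδ : 0 < δ) {K : Set Θ} (hK : IsCompact K) : ∀ᶠ η in 𝓝[>] (0 : ℝ), ∀ θ ∈ K,
      Glim (A θ) ε T - δ ≤ ∫ c, pt ε T c * Gr (fun u => A θ u - c) η η' := by
  have key : ∀ θ0 ∈ K, ∀ᶠ z : ℝ × Θ in 𝓝 (0, θ0), 0 < z.1 →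
      Glim (A z.2) ε T - δ ≤ ∫ c, pt ε T c * Gr (fun u => A z.2 u - c) z.1 η' := by
    intro θ0 _
    refine eventually_nhdsWithin_iff.1 (show ∀ᶠ z : ℝ × Θ in 𝓝[{z | 0 < z.1}] (0, θ0), _ from ?_)
    have e1 : ∀ᶠ z : ℝ × Θ in 𝓝 (0, θ0), Glim (A z.2) ε T < Glim (A θ0) ε T + δ / 2 :=
      ContinuousAt.eventually_lt ((cont_Glim h hA hT hε).comp continuous_snd).continuousAt
        continuousAt_const (by simpa using hδ)
    have e2 : ∀ᶠ z : ℝ × Θ in 𝓝 (0, θ0), z.1 < 1 :=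
      ContinuousAt.eventually_lt continuousAt_fst continuousAt_const one_pos
    have l := (glim_le h (hA.sm θ0) (hA.sy θ0) hT hε).trans
      ((lintegral_mono (F0_le h hA hT hε h2 θ0)).trans
        (lintegral_liminf_le fun z => meas_Fz h (hA.sm z.2) hT hε))
    rcases le_or_gt (Glim (A θ0) ε T) 0 with hg | hg
    · filter_upwards [e1.filter_mono nhdsWithin_le_nhds, e2.filter_mono nhdsWithin_le_nhds,
        self_mem_nhdsWithin] with z z1 z2 z0
      have : 0 ≤ ∫ c, pt ε T c * Gr (fun u => A z.2 u - c) z.1 η' := integral_nonneg fun c =>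
        mul_nonneg ((h.1 ε T hε hT).2.1 c)
          (h.2.1 _ _ _ ((hA.sm z.2).sub contDiff_const) z0 z2 h3).2.1
      linarith
    · have e3 := eventually_lt_of_lt_liminf (((ENNReal.ofReal_lt_ofReal_iff hg).2
        (sub_lt_self _ (half_pos hδ))).trans_le l)
      filter_upwards [e1.filter_mono nhdsWithin_le_nhds, e2.filter_mono nhdsWithin_le_nhds,
        self_mem_nhdsWithin, e3] with z z1 z2 z0 z3
      have z4 := z3.trans_le (Fz_le h (hA.sm z.2) hT hε (ne_of_gt z0))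
      rw [← rhs_eq h (hA.sm z.2) hT hε z0 z2 h3] at z4
      have := (ENNReal.ofReal_lt_ofReal_iff'.1 z4).1
      linarith
  exact eventually_nhdsWithin_iff.2 ((hK.eventually_forall_of_forall_eventually
    (P := fun η θ => 0 < η → Glim (A θ) ε T - δ ≤ ∫ c, pt ε T c * Gr (fun u => A θ u - c) η η')
    key).mono fun η hη h0 θ hθ => hη θ hθ h0)

lemma fam {n : ℕ} {g : Cn n → Cn n} (hg : Adm g) :
    Fam fun θ : Rn n × Cn n × Rn n => pz g θ.1 θ.2.1 θ.2.2 := by
  have h1 := hg.continuous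
  have h2 := (hg.contDiff 1).continuous_fderiv one_ne_zero
  refine ⟨fun θ => hg.pz _ _ _ _, by unfold pz dotProduct; fun_prop, ?_, fun θ u => hg.pz_conj ..⟩
  have h3 : ∀ (p : Rn n) (ζ : Cn n) (ξ : Rn n) (u v : E2), fderiv ℂ (pz g p ζ ξ) u v =
      cx ξ ⬝ᵥ fderiv ℂ g (cx p + u.1 • ζ + u.2 • star ζ) (v.1 • ζ + v.2 • star ζ) := by
    intro p ζ ξ u v
    have a1 : HasFDerivAt (fun u : E2 => cx p + u.1 • ζ + u.2 • star ζ) _ u :=
      (((hasFDerivAt_fst (𝕜 := ℂ) (p := u)).smul_const ζ).const_add (cx p)).add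
        ((hasFDerivAt_snd (𝕜 := ℂ) (p := u)).smul_const (star ζ))
    have a2 := (hg.differentiable _).hasFDerivAt.comp u a1
    have a3 := HasFDerivAt.fun_sum fun l (_ : l ∈ Finset.univ) =>
      (hasFDerivAt_pi'.1 a2 l).const_mul (cx ξ l)
    rw [show fderiv ℂ (pz g p ζ ξ) u = _ from a3.fderiv]
    simp [dotProduct, mul_add]
  simp only [h3]
  unfold dotProduct
  fun_prop

end Ground

theorem ground (h : PtStmt) : GroundStmt := by
  intro n g R T ε η' δ hg hT hε h2 h3 hδ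
  refine (Ground.main h (Ground.fam hg) hT hε h2 h3 hδ (isCompact_closedBall 0 R)).mono
    fun η hη p ζ ξ hp hζ hξ => hη (p, ζ, ξ) ?_
  simp [Prod.norm_def, hp, hζ, hξ]

end Pool.Agent.LinN2
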