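import Pool.Agent.Lib.MP_8465a2_an.N2.BasicB

/-!
The real slice limit, part one: changes of variables and the limit integral.
-/

namespace Pool.Agent.LinN2.Ground

open MeasureTheory Metric Set Filter Topology Complex
open scoped ENNReal ComplexConjugate

lemma aff_real (f : ℝ → ℝ≥0∞) (c : ℝ) {η : ℝ} (hη : η ≠ 0) :
    ∫⁻ y, f y = ENNReal.ofReal |η| * ∫⁻ v, f (c + η * v) := by
  rw [← lintegral_add_left_eq_self f c]
  conv_lhs => rw [← Real.smul_map_volume_mul_left hη, lintegral_smul_measure]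
  rw [smul_eq_mul]
  congr 1
  exact (Homeomorph.mulLeft₀ η hη).measurableEmbedding.lintegral_map _

lemma aff_cx (f : ℂ → ℝ≥0∞) (c b : ℂ) :
    ENNReal.ofReal (‖b‖ ^ 2) * ∫⁻ s, f (c + b * s) ≤ ∫⁻ y, f y := by
  rcases eq_or_ne b 0 with rfl | hb
  · simp
  have hd : LinearMap.det (LinearMap.mul ℝ ℂ b) = ‖b‖ ^ 2 := by
    rw [Complex.sq_norm, ← Algebra.norm_complex_apply, Algebra.norm_apply]
    rfl
  have hp : 0 < ‖b‖ ^ 2 := by positivity
  have h := Measure.map_linearMap_addHaar_eq_smul_addHaar (volume : Measure ℂ) (hd ▸ hp.ne')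
  have h2 : ∫⁻ s, f (c + b * s) = ∫⁻ y, f (c + y) ∂(Measure.map (LinearMap.mul ℝ ℂ b) volume) :=
    ((Homeomorph.mulLeft₀ b hb).measurableEmbedding.lintegral_map fun y => f (c + y)).symm
  rw [h2, h, lintegral_smul_measure, hd, smul_eq_mul, ← mul_assoc, ← ENNReal.ofReal_mul hp.le,
    abs_of_pos (inv_pos.2 hp), mul_inv_cancel₀ hp.ne', ENNReal.ofReal_one, one_mul,
    lintegral_add_left_eq_self]

lemma cx_prod {f : ℂ → ℝ≥0∞} (hf : Measurable f) :
    ∫⁻ z, f z = ∫⁻ y : ℝ, ∫⁻ x : ℝ, f (x + y * I) := by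
  rw [← (volume_preserving_equiv_real_prod.symm _).lintegral_comp hf, Measure.volume_eq_prod,
    lintegral_prod_symm (fun a => f (measurableEquivRealProd.symm a))
      (hf.comp (measurableEquivRealProd.symm.measurable)).aemeasurable]
  simp only [measurableEquivRealProd_symm_apply, Complex.mk_eq_add_mul_I]

lemma int_disc : ∫⁻ w : ℂ, ENNReal.ofReal (1 / (‖w‖ ^ 2 + 1) ^ 2) = ENNReal.ofReal Real.pi := by
  have hi : Integrable fun w : ℂ => 1 / (‖w‖ ^ 2 + 1) ^ 2 := by
    refine (integrable_rpow_neg_one_add_norm_sq (E := ℂ) (μ := volume) (r := 4)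
      (by rw [finrank_real_complex]; norm_num)).congr (Eventually.of_forall fun w => ?_)
    have : (0 : ℝ) ≤ 1 + ‖w‖ ^ 2 := by positivity
    simp only
    rw [show (-4 / 2 : ℝ) = -((2 : ℕ) : ℝ) by norm_num, Real.rpow_neg this, Real.rpow_natCast,
      add_comm, one_div]
  rw [← ofReal_integral_eq_lintegral_ofReal hi (Eventually.of_forall fun w => by positivity)]
  congr 1
  rw [integral_fun_norm_addHaar volume fun y : ℝ => 1 / (y ^ 2 + 1) ^ 2, finrank_real_complex]
  have h1 : ∫ y in Ioi (0 : ℝ), y ^ (2 - 1) • (1 / (y ^ 2 + 1) ^ 2) = 0 - -(1 / (0 ^ 2 + 1)) / 2 := by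
    refine integral_Ioi_of_hasDerivAt_of_nonneg' (g := fun y : ℝ => -(1 / (y ^ 2 + 1)) / 2)
      (fun y _ => ?_) (fun y hy => ?_) ?_
    · have h0 : y ^ 2 + 1 ≠ 0 := by positivity
      refine ((((hasDerivAt_const y (1 : ℝ)).div ((hasDerivAt_pow 2 y).add_const 1) h0).neg).div_const
        2).congr_deriv ?_
      simp only [smul_eq_mul]
      field_simp
      norm_num
      ring
    · have : 0 < y := hy
      positivity
    · have := ((tendsto_atTop_add_const_right _ (1 : ℝ) (tendsto_pow_atTop (n := 2)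
        two_ne_zero)).const_div_atTop (1 : ℝ)).neg.div_const 2
      simpa using this
  rw [h1, Measure.real, Complex.volume_ball]
  simp
  ring

lemma int_line : ∫⁻ y : ℝ, ENNReal.ofReal (2 / (1 + y ^ 2)) = ENNReal.ofReal (2 * Real.pi) := by
  simp only [div_eq_mul_inv]
  rw [← ofReal_integral_eq_lintegral_ofReal (integrable_inv_one_add_sq.const_mul 2)
    (Eventually.of_forall fun w => by positivity), integral_const_mul,
    integral_univ_inv_one_add_sq]

/-- the kernel of the limit -/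
noncomputable def ker (γ s : ℂ) (v : ℝ) : ℝ := 2 / (1 + s.im ^ 2) * (1 / (‖s * γ - v‖ ^ 2 + 1) ^ 2)

lemma ker_nonneg (γ s : ℂ) (v : ℝ) : 0 ≤ ker γ s v := by unfold ker; positivity

lemma int_ker {γ : ℂ} (hγ : γ.im ≠ 0) :
    ∫⁻ s : ℂ, ∫⁻ v : ℝ, ENNReal.ofReal (ker γ s v) =
      ENNReal.ofReal (2 * Real.pi ^ 2 / |γ.im|) := by
  let h : ℝ → ℝ≥0∞ := fun y => ∫⁻ x : ℝ, ENNReal.ofReal (1 / (‖(x : ℂ) + y * I‖ ^ 2 + 1) ^ 2)
  have hm : Measurable h := by
    refine Measurable.lintegral_prod_right' (f := fun z : ℝ × ℝ =>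
      ENNReal.ofReal (1 / (‖(z.2 : ℂ) + z.1 * I‖ ^ 2 + 1) ^ 2)) (by fun_prop)
  have hh : ∫⁻ y, h y = ENNReal.ofReal Real.pi := by
    rw [← int_disc, cx_prod (by fun_prop)]
  have h1 : ∀ s : ℂ, ∫⁻ v : ℝ, ENNReal.ofReal (ker γ s v) =
      ENNReal.ofReal (2 / (1 + s.im ^ 2)) * h (s * γ).im := by
    intro s
    simp only [h]
    rw [← lintegral_const_mul' _ _ ENNReal.ofReal_ne_top,
      ← lintegral_sub_left_eq_self _ (s * γ).re]
    refine lintegral_congr fun v => ?_
    rw [← ENNReal.ofReal_mul (by positivity), ker]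
    congr 7
    apply Complex.ext <;> simp
  have hp : 0 < |γ.im| := abs_pos.2 hγ
  have h2 : ∀ c : ℝ, ∫⁻ x, h (c + γ.im * x) = ENNReal.ofReal (Real.pi / |γ.im|) := by
    intro c
    have := aff_real h c hγ
    rw [hh] at this
    rw [ENNReal.ofReal_div_of_pos hp, this, mul_comm,
      ENNReal.mul_div_cancel_right (by simpa using hγ) ENNReal.ofReal_ne_top]
  simp only [h1]
  rw [cx_prod (by fun_prop)]
  have h3 : ∀ y : ℝ, ∫⁻ x : ℝ, ENNReal.ofReal (2 / (1 + ((x : ℂ) + y * I).im ^ 2)) *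
      h (((x : ℂ) + y * I) * γ).im =
      ENNReal.ofReal (2 / (1 + y ^ 2)) * ENNReal.ofReal (Real.pi / |γ.im|) := by
    intro y
    rw [← h2 (y * γ.re), ← lintegral_const_mul' _ _ ENNReal.ofReal_ne_top]
    refine lintegral_congr fun x => ?_
    congr 2
    · simp
    · simp; ring
  simp only [h3]
  rw [lintegral_mul_const' _ _ ENNReal.ofReal_ne_top, int_line,
    ← ENNReal.ofReal_mul (by positivity)]
  congr 1
  ring

end Pool.Agent.LinN2.Ground
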