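import Pool.Agent.Lib.MP_8465a2_an.N2.BasicB

/-!
Heavy blocks give chains of tubes (MP_8465a2_an).
-/

namespace Pool.Agent.LinN2

open Filter Finset

variable {n : ℕ}

namespace Heavy

lemma ev (C : ℝ) (q : ℕ) : ∀ᶠ k : ℕ in atTop, C * k ^ q ≤ 2 ^ k / 16 := by
  have h := (tendsto_pow_const_div_const_pow_of_one_lt q (one_lt_two (α := ℝ))).const_mul C
  rw [mul_zero] at h
  refine (h.eventually_le_const (show (0 : ℝ) < 1 / 16 by norm_num)).mono fun k hk => ?_
  rw [← mul_div_assoc, div_le_iff₀ (by positivity)] at hk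
  linarith

open Classical in
lemma few (h : NPStmt) {g : Cn n → Cn n} (hg : Differentiable ℂ g) (h0 : NZ g) {A : ℕ} (hA : 3 ≤ A)
    (x : Rn n) {lo hi b : ℕ} {Λ : ℝ} (hb : 1 ≤ b) (hΛ : 0 ≤ Λ) (h1 : Real.log A / 2 ≤ mj g A x hi)
    (h2 : mj g A x lo ≤ Real.exp Λ * mj g A x hi) :
    (((Ico lo hi).filter fun i => ¬ Pin g A b x i).card : ℝ) ≤ 2 * b + 4 * b ^ 2 * Λ := by
  have ha := mj_anti hg h0 (by omega : 2 ≤ A) x
  refine le_trans ?_ (h (mj g A x) lo hi b Λ ha hb hΛ (by linarith [one_le_log hA]) h2)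
  exact Nat.cast_le.2 (card_le_card (monotone_filter_right _ fun i _ hi' hp =>
    hi' ⟨by omega, h1.trans (ha hp.2.1), hp.2.2⟩))

lemma exp_two : (4 : ℝ) ≤ Real.exp 2 := by
  linarith [Real.quadratic_le_exp_of_nonneg (x := 2) zero_le_two]

lemma rj_le {A : ℕ} (hA : 3 ≤ A) {i j : ℕ} {t : ℝ} (h : j + t ≤ i) (hij : j ≤ i) :
    rj A i ≤ rj A j * Real.exp (-t) := by
  obtain ⟨d, rfl⟩ := Nat.exists_eq_add_of_le hij
  have h1 : rj A (j + d) = rj A j * rj A d := pow_add _ _ _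
  rw [h1]
  refine mul_le_mul_of_nonneg_left ((rj_le_exp hA d).trans (Real.exp_le_exp.2 ?_))
    (rj_pos (by omega) j).le
  push_cast at h
  linarith

lemma chain (hn : 3 ≤ n) {g : Cn n → Cn n} (hg : Differentiable ℂ g) (h0 : NZ g) {A : ℕ}
    (hA : 100 * n ≤ A) {x : Rn n} {C0 : ℝ} {k L i : ℕ} (hk : 1 ≤ k) (hL : 11 * k ^ 6 ≤ L)
    {G : Finset ℕ} (hG : ∀ j ∈ G, 8 * L + 2 ≤ j ∧ j < 10 * L ∧
      Tube g x (rj A j) (mu g A x j) (C0 * mu g A x j) (3 * (k : ℝ) ^ 6)) (hc : L ≤ 2 * G.card)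
    (hi : 12 * L ≤ i) (hm : mu g A x (8 * L) ≤ 4 * mu g A x i) (hm0 : 0 ≤ mu g A x i) :
    Chain g C0 x (rj A i) (mu g A x i) k (8 * L) := by
  classical
  have hA3 : 3 ≤ A := by omega
  have hk6 : k ≤ k ^ 6 := Nat.le_self_pow (by norm_num) k
  have ha := mu_anti hg h0 (by omega : 2 ≤ A) x
  have hd := Nat.div_mul_le_self L (32 * k)
  have hd' := Nat.lt_mul_div_succ L (show 0 < 32 * k by omega)
  obtain ⟨c, -, hc'⟩ := exists_lt_card_fiber_of_mul_lt_card_of_maps_to (s := G) (t := range (4 * k))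
    (f := fun j => j % (4 * k)) (n := L / (32 * k) + 1)
    (fun j _ => mem_range.2 (Nat.mod_lt _ (by omega))) (by rw [card_range]; nlinarith)
  set S := G.filter fun j => j % (4 * k) = c with hS
  have hf : {x | x ∈ S}.Finite := S.finite_toSet
  have hc2 : hf.toFinset = S := by ext; simp
  have m1 : ∀ t ≤ L / (32 * k) + 1, Nat.nth (· ∈ S) t ∈ S := fun t ht =>
    Nat.nth_mem_of_lt_card hf (by rw [hc2]; omega)
  have m2 : ∀ t < L / (32 * k) + 1, Nat.nth (· ∈ S) t + 4 * k ≤ Nat.nth (· ∈ S) (t + 1) :=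
    fun t ht => by
      have a1 := Nat.nth_lt_nth_of_lt_card hf (Nat.lt_add_one t) (by rw [hc2]; omega)
      have a2 : Nat.nth (· ∈ S) t ≡ Nat.nth (· ∈ S) (t + 1) [MOD 4 * k] :=
        (mem_filter.1 (m1 t ht.le)).2.trans (mem_filter.1 (m1 (t + 1) ht)).2.symm
      have := Nat.le_of_dvd (by omega) ((Nat.modEq_iff_dvd' a1.le).1 a2)
      omega
  generalize Nat.nth (· ∈ S) = J at m1 m2
  have m3 := fun t ht => hG _ (mem_filter.1 (m1 t ht)).1
  choose! u1 u2 hu using fun j hj => (hG j hj).2.2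
  have hL' : 11 * (k : ℝ) ^ 6 ≤ L := by exact_mod_cast hL
  have hk' : (1 : ℝ) ≤ k := by exact_mod_cast hk
  have hk6' : (k : ℝ) ≤ k ^ 6 := by exact_mod_cast hk6
  have hA' : (100 * n : ℝ) ≤ A := by exact_mod_cast hA
  have hn' : (3 : ℝ) ≤ n := by exact_mod_cast hn
  refine ⟨L / (32 * k) + 1, L, fun t => rj A (J t), fun t => mu g A x (J t), fun t => u1 (J t),
    fun t => u2 (J t), rj A (10 * L), by exact_mod_cast (by nlinarith), le_rfl, fun t ht => ?_,
    fun t ht => ?_, ?_, ?_, ?_, fun s hs hs' => ?_⟩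
  · obtain ⟨a1, a2, -⟩ := m3 t ht
    refine ⟨rj_pos (by omega) _, ha (by omega), (ha (by omega)).trans hm,
      hu _ (mem_filter.1 (m1 t ht)).1, ?_⟩
    have a3 : (J t : ℝ) ≤ 10 * L := by exact_mod_cast a2.le
    have a4 : (12 * L : ℝ) ≤ i := by exact_mod_cast hi
    have a5 := rj_le hA3 (i := i) (j := J t) (t := 3 * (k : ℝ) ^ 6 + 2) (by linarith) (by omega)
    rw [neg_add, Real.exp_add, ← mul_assoc, Real.exp_neg 2, ← div_eq_mul_inv,
      le_div_iff₀ (Real.exp_pos _)] at a5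
    nlinarith [exp_two, rj_pos (A := A) (by omega) i]
  · exact rj_le hA3 (by exact_mod_cast m2 t ht) (by have := m2 t ht; omega)
  · have a1 : (8 * L : ℝ) ≤ J 0 := by exact_mod_cast (by have := (m3 0 (Nat.zero_le _)).1; omega)
    have a2 : (k : ℝ) ^ 10 ≤ Real.exp k ^ 10 := by
      gcongr
      linarith [Real.add_one_le_exp (k : ℝ)]
    rw [← Real.exp_nat_mul] at a2
    rw [le_div_iff₀ (by positivity)]
    calc _ ≤ Real.exp (-(J 0 : ℝ)) * Real.exp (3 * k) * Real.exp ((10 : ℕ) * k) := by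
          gcongr
          exact rj_le_exp hA3 _
      _ ≤ 1 := by
          rw [← Real.exp_add, ← Real.exp_add]
          refine Real.exp_le_one_iff.2 ?_
          push_cast
          linarith
  · have a1 := rj_anti (A := A) (by omega) (show J (L / (32 * k) + 1) + 1 ≤ 10 * L from
      (m3 _ le_rfl).2.1)
    rw [rj_succ, le_div_iff₀ (by linarith)] at a1
    nlinarith [rj_pos (A := A) (by omega) (10 * L)]
  · have a1 := rj_anti (A := A) (by omega) (show 10 * L + (L + 1) ≤ i by omega)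
    rw [rj_add, le_div_iff₀ (by have : (0 : ℝ) < A := by linarith
                                positivity), pow_succ] at a1
    have a2 : (2 : ℝ) ^ L * 6 ≤ A ^ L * A := by gcongr <;> linarith
    nlinarith [rj_pos (A := A) (by omega) i]
  · have a1 := hs'.trans (rj_anti (A := A) (by omega) (show 8 * L + 1 + 1 ≤ J 0 from
      (m3 0 (Nat.zero_le _)).1))
    rw [rj_succ, le_div_iff₀ (by linarith)] at a1
    refine (SS_le_rpow hg h0 (by omega : 2 ≤ A) x (8 * L) hs (by linarith) (by nlinarith)).trans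
      (mul_le_mul_of_nonneg_right (Real.exp_le_exp.2 ?_) (SS_nonneg _ _ _))
    have a2 : Real.log (70 * s / s) ≤ 5 := by
      rw [mul_div_cancel_right₀ _ hs.ne', Real.log_le_iff_le_exp (by norm_num)]
      have := Real.sum_le_exp_of_nonneg (x := 5) (by norm_num) 6
      norm_num [sum_range_succ, Nat.factorial] at this
      linarith
    have a3 : 0 ≤ Real.log (70 * s / s) := by
      rw [mul_div_cancel_right₀ _ hs.ne']
      exact Real.log_nonneg (by norm_num)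
    nlinarith

end Heavy

open Heavy in
theorem heavy (hn : 3 ≤ n) (h : NPStmt) : HeavyStmt n := by
  classical
  intro A C0 C1 p b0 hA ⟨hC0, hC1, hb0, hS⟩ B0 hB0
  refine ⟨fun k => ⌈C1 * (3 * (k : ℝ) ^ 6) ^ p⌉₊ + b0, fun k => Nat.le_add_left _ _, ?_⟩
  filter_upwards [ev (8 * b0 + 32 * b0 ^ 2) 1, ev (20 * (C1 * 3 ^ p + 1 + b0) ^ 2 + 4) (12 * p),
    ev 11 6, eventually_ge_atTop 4, tendsto_natCast_atTop_atTop.eventually_ge_atTop B0]
    with k e1 e2 e3 e4 e5 g x hg h0 hx a1 a2 a3 a4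
  obtain ⟨j, rfl⟩ := Nat.exists_eq_add_of_le' e4
  have hA3 : 3 ≤ A := by omega
  have q1 : 2 ^ (j + 4) = 16 * 2 ^ j := by ring
  have q2 : 2 ^ (j + 4 - 1) = 8 * 2 ^ j := by rw [show j + 4 - 1 = j + 3 by omega]; ring
  have q3 : 3 * 2 ^ (j + 4 - 2) = 12 * 2 ^ j := by rw [show j + 4 - 2 = j + 2 by omega]; ring
  have q4 : (2 : ℝ) ^ (j + 4) / 16 = (2 ^ j : ℕ) := by push_cast; ring
  have q5 : (2 : ℝ) ^ (j + 4) / 2 = 8 * (2 ^ j : ℕ) := by push_cast; ring
  rw [q4] at e1 e2 e3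
  rw [q1] at a1 a2 a3
  rw [q2] at a2 a4
  rw [q1, q2, q3, q5]
  have hk : 1 ≤ j + 4 := by omega
  generalize 2 ^ j = L at *
  generalize j + 4 = k at *
  have hk' : (1 : ℝ) ≤ k := by exact_mod_cast hk
  have hk6 : (k : ℝ) ≤ k ^ 6 := le_self_pow₀ hk' (by norm_num)
  obtain ⟨b, hb⟩ : ∃ b, b = ⌈C1 * (3 * (k : ℝ) ^ 6) ^ p⌉₊ + b0 := ⟨_, rfl⟩
  rw [← hb] at a4
  have b1 : C1 * (3 * (k : ℝ) ^ 6) ^ p ≤ b := by
    rw [hb]; push_cast; linarith [Nat.le_ceil (C1 * (3 * (k : ℝ) ^ 6) ^ p), Nat.cast_nonneg (α := ℝ) b0]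
  have b2 : (b : ℝ) ≤ (C1 * 3 ^ p + 1 + b0) * k ^ (6 * p) := by
    have c1 := (Nat.ceil_lt_add_one (show 0 ≤ C1 * (3 * (k : ℝ) ^ 6) ^ p by positivity)).le
    have c2 : (1 : ℝ) ≤ k ^ (6 * p) := one_le_pow₀ hk'
    rw [mul_pow, ← pow_mul] at c1
    rw [hb, mul_pow, ← pow_mul]
    push_cast
    nlinarith [Nat.cast_nonneg (α := ℝ) b0]
  have b3 : (1 : ℝ) ≤ b := by exact_mod_cast (by omega : 1 ≤ b)
  have b4 : 2 * (2 * (b : ℝ) + 4 * b ^ 2 * 2) + 4 ≤ L := by
    have c1 := pow_le_pow_left₀ (by linarith) b2 2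
    have c2 : (1 : ℝ) ≤ k ^ (12 * p) := one_le_pow₀ hk'
    rw [mul_pow, ← pow_mul, show 6 * p * 2 = 12 * p by ring] at c1
    nlinarith
  have hm : 0 < mj g A x (16 * L) := by linarith [one_le_log hA3]
  have c1 := few h hg.differentiable h0 hA3 x (lo := 0) (Λ := k * 2) hb0 (by positivity) a1
    (a3.trans (by rw [Real.exp_nat_mul]; gcongr; exact exp_two))
  have c2 := few h hg.differentiable h0 hA3 x (lo := 8 * L) (b := b) (Λ := 2) (by omega) zero_le_two
    a1 (a2.trans (by gcongr; exact exp_two))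
  have c3 : ((range (2 * (8 * L))).filter fun i => Pin g A b x i ∧ ¬ Full g A b x i).card < L := by
    by_contra c
    refine a4 ⟨hx, ?_, by convert Nat.mul_le_mul_left 8 (not_lt.1 c)⟩
    have : (1 : ℝ) ≤ b0 := by exact_mod_cast hb0
    have c4 : (32 : ℝ) * ((Ico 0 (16 * L)).filter fun i => ¬ Pin g A b0 x i).card ≤ 8 * L := by
      nlinarith
    rw [range_eq_Ico, show 2 * (8 * L) = 16 * L by ring]
    convert (by exact_mod_cast c4 : 32 * _ ≤ 8 * L)
  have c5 : 2 * ((Ico (8 * L) (16 * L)).filter fun i => ¬ Pin g A b x i).card + 4 ≤ L := by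
    exact_mod_cast (by linarith : (2 : ℝ) * ((Ico (8 * L) (16 * L)).filter
      fun i => ¬ Pin g A b x i).card + 4 ≤ L)
  have c6 : ∀ lo hi, 8 * L ≤ lo → hi ≤ 16 * L →
      2 * (hi - lo) + 4 ≤ 2 * ((Ico lo hi).filter (Full g A b x)).card + 3 * L := fun lo hi d1 d2 => by
    have d3 := card_filter_add_card_filter_not (s := Ico lo hi) (Full g A b x)
    have d4 : ((Ico lo hi).filter fun i => ¬ Full g A b x i) ⊆ ((Ico (8 * L) (16 * L)).filter
        fun i => ¬ Pin g A b x i) ∪ ((range (2 * (8 * L))).filter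
        fun i => Pin g A b x i ∧ ¬ Full g A b x i) := fun i hi => by
      simp only [mem_filter, mem_union, mem_Ico, mem_range] at hi ⊢
      by_cases d : Pin g A b x i
      · exact Or.inr ⟨by omega, d, hi.2⟩
      · exact Or.inl ⟨by omega, d⟩
    have d5 := (card_le_card d4).trans (card_union_le _ _)
    rw [Nat.card_Ico] at d3
    omega
  have hmu : mu g A x (8 * L) ≤ 4 * mu g A x (16 * L) := by
    rw [mu, mu, ← mul_div_assoc]
    exact div_le_div_of_nonneg_right a2 (by linarith [one_le_log hA3])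
  refine ⟨(Ico (12 * L) (16 * L)).filter (Full g A b x), filter_subset _ _,
    by have := c6 (12 * L) (16 * L) (by omega) le_rfl; omega, fun i hi => ?_⟩
  obtain ⟨i1, i2⟩ := mem_filter.1 hi
  rw [mem_Ico] at i1
  have i3 := i2.1.half_le hg.differentiable h0 (by omega)
  have i4 : mu g A x (8 * L) ≤ 4 * mu g A x i := by
    linarith [mu_anti hg.differentiable h0 (by omega : 2 ≤ A) x i1.2.le]
  refine ⟨i3, i4, (hS g hg h0 b x i).1 B0 hB0 (le_trans (by gcongr; linarith) b1) i2,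
    chain hn hg.differentiable h0 hA hk (by exact_mod_cast e3)
      (G := (Ico (8 * L + 2) (10 * L)).filter (Full g A b x)) (fun j hj => ?_)
      (by have := c6 (8 * L + 2) (10 * L) (by omega) (by omega); omega) i1.1 i4 (by linarith)⟩
  obtain ⟨j1, j2⟩ := mem_filter.1 hj
  exact ⟨(mem_Ico.1 j1).1, (mem_Ico.1 j1).2, (hS g hg h0 b x j).1 _ (by linarith) b1 j2⟩

end Pool.Agent.LinN2
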