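import Pool.Agent.Lib.MP_8465a2_an.N2.BasicB

/-!
Hitting probabilities of random planes (MP_8465a2_an).
-/

namespace Pool.Agent.LinN2

open MeasureTheory Metric Set Filter Topology Complex
open scoped ENNReal ComplexConjugate

variable {n : ℕ}

namespace Hit

lemma vol_ball (y0 : ℝ × ℝ) {ρ : ℝ} (h : 0 ≤ ρ) :
    volume (closedBall y0 ρ) = ENNReal.ofReal (4 * ρ ^ 2) := by
  rw [← closedBall_prod_same, Measure.volume_eq_prod, Measure.prod_prod, Real.volume_closedBall,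
    Real.volume_closedBall, ← ENNReal.ofReal_mul (by positivity)]
  congr 1; ring

lemma meas_shift : Measurable fun z : (Rn n × (Dir n × Rn n)) × (ℝ × ℝ) =>
    ((z.1.1 + plr z.1.2.1 z.2, z.1.2, z.2) : Rn n × (Dir n × Rn n) × (ℝ × ℝ)) := by
  unfold plr; fun_prop

lemma one (F : Rn n × (Dir n × Rn n) × (ℝ × ℝ) → ℝ≥0∞) (hF : Measurable F) (Y : Set (ℝ × ℝ)) :
    Measurable (fun ω : Rn n × (Dir n × Rn n) => ∫⁻ y in Y, F (ω.1 + plr ω.2.1 y, ω.2, y)) ∧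
    ∫⁻ ω in (univ : Set (Rn n)) ×ˢ Tbox n, ∫⁻ y in Y, F (ω.1 + plr ω.2.1 y, ω.2, y) =
      ∫⁻ p' : Rn n, ∫⁻ y in Y, ∫⁻ θ in Tbox n, F (p', θ, y) := by
  have h1 : Measurable (fun ω : Rn n × (Dir n × Rn n) =>
      ∫⁻ y in Y, F (ω.1 + plr ω.2.1 y, ω.2, y)) :=
    Measurable.lintegral_prod_right' (ν := volume.restrict Y) (hF.comp meas_shift)
  refine ⟨h1, ?_⟩
  rw [Measure.volume_eq_prod, ← Measure.prod_restrict, Measure.restrict_univ,
    lintegral_prod_symm _ h1.aemeasurable]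
  have h2 : ∀ θ : Dir n × Rn n, ∫⁻ p : Rn n, ∫⁻ y in Y, F (p + plr θ.1 y, θ, y) =
      ∫⁻ p : Rn n, ∫⁻ y in Y, F (p, θ, y) := by
    intro θ
    have m1 : Measurable fun z : Rn n × (ℝ × ℝ) => F (z.1 + plr θ.1 z.2, θ, z.2) :=
      hF.comp (by unfold plr; fun_prop)
    have m2 : Measurable fun z : Rn n × (ℝ × ℝ) => F (z.1, θ, z.2) := hF.comp (by fun_prop)
    rw [lintegral_lintegral_swap m1.aemeasurable,
      lintegral_lintegral_swap (f := fun (p : Rn n) (y : ℝ × ℝ) => F (p, θ, y)) m2.aemeasurable]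
    exact lintegral_congr fun y =>
      lintegral_add_right_eq_self (fun p : Rn n => F (p, θ, y)) (plr θ.1 y)
  simp only [h2]
  have m3 : Measurable fun z : (Dir n × Rn n) × Rn n => ∫⁻ y in Y, F (z.2, z.1, y) :=
    Measurable.lintegral_prod_right' (ν := volume.restrict Y)
      (f := fun w : ((Dir n × Rn n) × Rn n) × (ℝ × ℝ) => F (w.1.2, w.1.1, w.2))
      (hF.comp (by fun_prop))
  rw [lintegral_lintegral_swap m3.aemeasurable]
  refine lintegral_congr fun p => ?_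
  have m4 : Measurable fun z : (Dir n × Rn n) × (ℝ × ℝ) => F (p, z.1, z.2) := hF.comp (by fun_prop)
  exact lintegral_lintegral_swap m4.aemeasurable

lemma two (F : Rn n × (Dir n × Rn n) × (ℝ × ℝ) → ℝ≥0∞) (x : Rn n) (ρ : ℝ) (p : Rn n)
    (θ : Dir n × Rn n) (y0 : ℝ × ℝ) (hF : Measurable F) (hρ : 0 < ρ) (hθ : θ ∈ Tbox n)
    (hy0 : ‖y0‖ ≤ 1) (hx : ‖p + plr θ.1 y0 - x‖ ≤ ρ / 2) :
    ∃ y : ℝ × ℝ, ‖y‖ ≤ 1 + ρ ∧ ‖p + plr θ.1 y - x‖ ≤ 3 * ρ ∧
      ENNReal.ofReal (ρ ^ 2) * F (p + plr θ.1 y, θ, y) ≤ ∫⁻ y in closedBall (0 : ℝ × ℝ) (1 + ρ),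
        {z : Rn n × (Dir n × Rn n) × (ℝ × ℝ) | ‖z.1 - x‖ ≤ 3 * ρ}.indicator F
          (p + plr θ.1 y, θ, y) := by
  have hb : ∀ y ∈ closedBall y0 ρ, ‖y‖ ≤ 1 + ρ ∧ ‖p + plr θ.1 y - x‖ ≤ 3 * ρ := by
    intro y hy
    rw [mem_closedBall, dist_eq_norm] at hy
    have h1 := norm_plr_le hθ.1 (y - y0)
    have h2 : p + plr θ.1 y - x = (p + plr θ.1 y0 - x) + plr θ.1 (y - y0) := by
      rw [plr_sub]; abel
    have h3 := norm_add_le (p + plr θ.1 y0 - x) (plr θ.1 (y - y0))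
    have h4 := norm_add_le y0 (y - y0)
    rw [add_sub_cancel] at h4
    rw [h2]
    constructor <;> linarith
  have hv := vol_ball y0 hρ.le
  have m1 : Measurable fun y : ℝ × ℝ => F (p + plr θ.1 y, θ, y) :=
    hF.comp (by unfold plr; fun_prop)
  have h0 : volume (closedBall y0 ρ) ≠ 0 := by
    rw [hv]; exact (ENNReal.ofReal_pos.2 (by positivity)).ne'
  have h1 : volume (closedBall y0 ρ) ≠ ⊤ := by rw [hv]; exact ENNReal.ofReal_ne_top
  obtain ⟨y, hy, hle⟩ := exists_le_setLAverage h0 h1 m1.aemeasurable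
  refine ⟨y, (hb y hy).1, (hb y hy).2, ?_⟩
  calc ENNReal.ofReal (ρ ^ 2) * F (p + plr θ.1 y, θ, y)
      ≤ volume (closedBall y0 ρ) * ⨍⁻ y in closedBall y0 ρ, F (p + plr θ.1 y, θ, y) ∂volume := by
        refine mul_le_mul' ?_ hle
        rw [hv]; exact ENNReal.ofReal_le_ofReal (by nlinarith [sq_nonneg ρ])
    _ = ∫⁻ y in closedBall y0 ρ, F (p + plr θ.1 y, θ, y) := measure_mul_setLAverage _ h1
    _ = ∫⁻ y in closedBall y0 ρ,
        {z : Rn n × (Dir n × Rn n) × (ℝ × ℝ) | ‖z.1 - x‖ ≤ 3 * ρ}.indicator F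
          (p + plr θ.1 y, θ, y) := by
        refine setLIntegral_congr_fun measurableSet_closedBall fun y hy => ?_
        exact (indicator_of_mem (show (p + plr θ.1 y, θ, y) ∈
          {z : Rn n × (Dir n × Rn n) × (ℝ × ℝ) | ‖z.1 - x‖ ≤ 3 * ρ} from (hb y hy).2) F).symm
    _ ≤ _ := lintegral_mono_set fun y hy => by
        rw [mem_closedBall, dist_zero_right]; exact (hb y hy).1

lemma three (hn : 3 ≤ n) (x : Rn n) (r : ℝ) (p : Rn n) (θ : Dir n × Rn n) (hr : 0 < r)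
    (hθ : θ ∈ Tbox n) :
    volume {y : ℝ × ℝ | ‖p + plr θ.1 y - x‖ ≤ r} ≤ ENNReal.ofReal (30 * r ^ 2) := by
  rcases eq_empty_or_nonempty {y : ℝ × ℝ | ‖p + plr θ.1 y - x‖ ≤ r} with h | ⟨y0, hy0⟩
  · rw [h]; simp
  · have hs : {y : ℝ × ℝ | ‖p + plr θ.1 y - x‖ ≤ r} ⊆ closedBall y0 (8 * r / 3) := by
      intro y hy
      rw [mem_closedBall, dist_eq_norm]
      have h1 := le_norm_plr (by omega) hθ.1 (y - y0)
      have h2 : plr θ.1 (y - y0) = (p + plr θ.1 y - x) - (p + plr θ.1 y0 - x) := by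
        rw [plr_sub]; abel
      have h3 := norm_sub_le (p + plr θ.1 y - x) (p + plr θ.1 y0 - x)
      rw [← h2] at h3
      have h4 : ‖p + plr θ.1 y - x‖ ≤ r := hy
      have h5 : ‖p + plr θ.1 y0 - x‖ ≤ r := hy0
      linarith
    refine (measure_mono hs).trans ?_
    rw [vol_ball y0 (by positivity)]
    exact ENNReal.ofReal_le_ofReal (by nlinarith [sq_nonneg r])

end Hit

theorem hit (hn : 3 ≤ n) : HitStmt n :=
  ⟨Hit.one, fun F x ρ p θ y0 hF hρ _ hθ hy0 hx => Hit.two F x ρ p θ y0 hF hρ hθ hy0 hx,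
    Hit.three hn⟩

end Pool.Agent.LinN2
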