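import Pool.Agent.Lib.MP_8465a2_an.N2.BasicB

/-!
Integration by parts along holomorphic divergence free fields, and the Green identity.
-/

namespace Pool.Agent.LinN2

open MeasureTheory Metric Set Filter Topology Complex
open scoped ENNReal ComplexConjugate

noncomputable section

namespace IBP

lemma int_dir {F : E2 → ℝ} (hF : ContDiff ℝ 1 F) (hc : HasCompactSupport F) {V : E2 → E2}
    (hV : Continuous V) : Integrable fun y => fderiv ℝ F y (V y) := by
  have h1 := hF.continuous_fderiv one_ne_zero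
  refine Continuous.integrable_of_hasCompactSupport (by fun_prop) ?_
  refine (hc.fderiv (𝕜 := ℝ)).mono fun y hy => ?_
  intro h0
  exact hy (by simp [h0])

lemma one_dir {F w : E2 → ℝ} (hF : ContDiff ℝ 1 F) (hc : HasCompactSupport F)
    (hw : ContDiff ℝ 1 w) (v : E2) :
    Integrable (fun y => w y * fderiv ℝ F y v) ∧ Integrable (fun y => fderiv ℝ w y v * F y) ∧
    ∫ y, w y * fderiv ℝ F y v = - ∫ y, fderiv ℝ w y v * F y := by
  have h1 := hF.continuous_fderiv one_ne_zero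
  have h2 := hw.continuous_fderiv one_ne_zero
  have h3 := hF.continuous
  have h4 := hw.continuous
  have i1 : Integrable (fun y => w y * fderiv ℝ F y v) := by
    refine Continuous.integrable_of_hasCompactSupport (by fun_prop) ?_
    refine (hc.fderiv (𝕜 := ℝ)).mono fun y hy => ?_
    intro h0
    exact hy (by simp [h0])
  have i2 : Integrable (fun y => fderiv ℝ w y v * F y) :=
    Continuous.integrable_of_hasCompactSupport (by fun_prop) hc.mul_left
  have i3 : Integrable (fun y => w y * F y) :=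
    Continuous.integrable_of_hasCompactSupport (by fun_prop) hc.mul_left
  have : (volume : Measure E2).IsAddHaarMeasure :=
    inferInstanceAs ((volume : Measure ℂ).prod (volume : Measure ℂ)).IsAddHaarMeasure
  exact ⟨i1, i2, integral_mul_fderiv_eq_neg_fderiv_mul_of_integrable i2 i1 i3
    (fun x _ => hw.differentiable one_ne_zero x) (fun x _ => hF.differentiable one_ne_zero x)⟩

lemma comp_lin {W : E2 → E2} (hW : ContDiff ℝ 1 W) (L : E2 →L[ℝ] ℝ) (y v : E2) :
    fderiv ℝ (fun y => L (W y)) y v = L (fderiv ℝ W y v) := by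
  have := (L.hasFDerivAt.comp y (hW.differentiable one_ne_zero y).hasFDerivAt).fderiv
  rw [show (fun y => L (W y)) = L ∘ W from rfl, this]
  rfl

lemma int4 {f1 f2 f3 f4 : E2 → ℝ} (h1 : Integrable f1) (h2 : Integrable f2) (h3 : Integrable f3)
    (h4 : Integrable f4) : ∫ y, (f1 y + f2 y + f3 y + f4 y) =
      (∫ y, f1 y) + (∫ y, f2 y) + (∫ y, f3 y) + ∫ y, f4 y := by
  have k1 := integral_add ((h1.add h2).add h3) h4
  have k2 := integral_add (h1.add h2) h3
  have k3 := integral_add h1 h2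
  simp only [Pi.add_apply] at k1 k2
  rw [k1, k2, k3]

lemma real_ibp {W : E2 → E2} (hW : ContDiff ℝ 1 W)
    (hd : ∀ y, (fderiv ℝ W y (1, 0)).1.re + (fderiv ℝ W y (I, 0)).1.im +
      (fderiv ℝ W y (0, 1)).2.re + (fderiv ℝ W y (0, I)).2.im = 0)
    {F : E2 → ℝ} (hF : ContDiff ℝ 1 F) (hc : HasCompactSupport F) :
    ∫ y, fderiv ℝ F y (W y) = 0 := by
  let L1 : E2 →L[ℝ] ℝ := reCLM.comp (ContinuousLinearMap.fst ℝ ℂ ℂ)
  let L2 : E2 →L[ℝ] ℝ := imCLM.comp (ContinuousLinearMap.fst ℝ ℂ ℂ)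
  let L3 : E2 →L[ℝ] ℝ := reCLM.comp (ContinuousLinearMap.snd ℝ ℂ ℂ)
  let L4 : E2 →L[ℝ] ℝ := imCLM.comp (ContinuousLinearMap.snd ℝ ℂ ℂ)
  obtain ⟨a1, b1, c1⟩ := one_dir hF hc (L1.contDiff.comp hW) (1, 0)
  obtain ⟨a2, b2, c2⟩ := one_dir hF hc (L2.contDiff.comp hW) (I, 0)
  obtain ⟨a3, b3, c3⟩ := one_dir hF hc (L3.contDiff.comp hW) (0, 1)
  obtain ⟨a4, b4, c4⟩ := one_dir hF hc (L4.contDiff.comp hW) (0, I)
  have e : ∀ y, fderiv ℝ F y (W y) = (L1 ∘ W) y * fderiv ℝ F y (1, 0) +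
      (L2 ∘ W) y * fderiv ℝ F y (I, 0) + (L3 ∘ W) y * fderiv ℝ F y (0, 1) +
      (L4 ∘ W) y * fderiv ℝ F y (0, I) := fun y => by
    have : W y = (L1 ∘ W) y • ((1, 0) : E2) + (L2 ∘ W) y • ((I, 0) : E2) +
        (L3 ∘ W) y • ((0, 1) : E2) + (L4 ∘ W) y • ((0, I) : E2) := by
      ext <;> simp [L1, L2, L3, L4, re_add_im]
    conv_lhs => rw [this]
    simp only [map_add, map_smul, smul_eq_mul]
  have z : ∀ y, fderiv ℝ (L1 ∘ W) y (1, 0) * F y + fderiv ℝ (L2 ∘ W) y (I, 0) * F y +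
      fderiv ℝ (L3 ∘ W) y (0, 1) * F y + fderiv ℝ (L4 ∘ W) y (0, I) * F y = 0 := fun y => by
    have k1 := comp_lin hW L1 y (1, 0)
    have k2 := comp_lin hW L2 y (I, 0)
    have k3 := comp_lin hW L3 y (0, 1)
    have k4 := comp_lin hW L4 y (0, I)
    have := hd y
    rw [show (L1 ∘ W) = fun y => L1 (W y) from rfl, show (L2 ∘ W) = fun y => L2 (W y) from rfl,
      show (L3 ∘ W) = fun y => L3 (W y) from rfl, show (L4 ∘ W) = fun y => L4 (W y) from rfl,
      k1, k2, k3, k4, ← add_mul, ← add_mul, ← add_mul]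
    exact mul_eq_zero_of_left this _
  have z' : ∫ y, (fderiv ℝ (L1 ∘ W) y (1, 0) * F y + fderiv ℝ (L2 ∘ W) y (I, 0) * F y +
      fderiv ℝ (L3 ∘ W) y (0, 1) * F y + fderiv ℝ (L4 ∘ W) y (0, I) * F y) = 0 := by
    simp_rw [z]; simp
  simp_rw [e]
  rw [int4 a1 a2 a3 a4, c1, c2, c3, c4]
  rw [int4 b1 b2 b3 b4] at z'
  linarith

lemma fderiv_real {G : Type} [NormedAddCommGroup G] [NormedSpace ℝ G] [NormedSpace ℂ G]
    [IsScalarTower ℝ ℂ G] {W : E2 → G} {y : E2} (hW : DifferentiableAt ℂ W y) (v : E2) :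
    fderiv ℝ W y v = fderiv ℂ W y v := by
  rw [hW.fderiv_restrictScalars ℝ]; rfl

lemma hol_ibp {W : E2 → E2} (hW : ContDiff ℂ 1 W)
    (hd : ∀ y, (fderiv ℂ W y (1, 0)).1 + (fderiv ℂ W y (0, 1)).2 = 0)
    {F : E2 → ℝ} (hF : ContDiff ℝ 1 F) (hc : HasCompactSupport F) :
    ∫ y, fderiv ℝ F y (W y) = 0 := by
  refine real_ibp (hW.restrict_scalars ℝ) (fun y => ?_) hF hc
  have hy := hW.differentiable one_ne_zero y
  have e1 : ((I, 0) : E2) = I • ((1, 0) : E2) := by simp
  have e2 : ((0, I) : E2) = I • ((0, 1) : E2) := by simp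
  simp only [fderiv_real hy]
  rw [e1, e2, map_smul, map_smul]
  have := congrArg re (hd y)
  simp only [add_re, zero_re] at this
  simp only [Prod.smul_fst, Prod.smul_snd, smul_eq_mul, mul_im, I_re, I_im, zero_mul, one_mul,
    zero_add]
  linarith

lemma div_Wf {a : E2 → ℂ} (ha : ContDiff ℂ 2 a) (y : E2) :
    (fderiv ℂ (Wf a) y (1, 0)).1 + (fderiv ℂ (Wf a) y (0, 1)).2 = 0 := by
  have h1 : ContDiff ℂ 1 (fderiv ℂ a) := ha.fderiv_right (by norm_num)
  have hD := (h1.differentiable one_ne_zero y).hasFDerivAt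
  have k : ∀ v : E2, HasFDerivAt (fun y => fderiv ℂ a y v)
      ((ContinuousLinearMap.apply ℂ ℂ v).comp (fderiv ℂ (fderiv ℂ a) y)) y := fun v =>
    (ContinuousLinearMap.apply ℂ ℂ v).hasFDerivAt.comp y hD
  have hW := ((k (0, 1)).prodMk (k (1, 0)).neg).fderiv
  have hs : IsSymmSndFDerivAt ℂ a y := ha.contDiffAt.isSymmSndFDerivAt (by simp)
  have e : Wf a = fun y => (fderiv ℂ a y (0, 1), (-fun y => fderiv ℂ a y (1, 0)) y) := rfl
  rw [e, hW]
  simp [hs.eq (1, 0) (0, 1)]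

/-- derivative of the test function along a field that kills `a` -/
lemma test_deriv {a : E2 → ℂ} {η : ℝ} (ha : ContDiff ℂ 2 a) (hη : 0 < η) {f φ : E2 → ℝ}
    (hf : ContDiff ℝ 1 f) (hφ : ContDiff ℝ 2 φ) {V : E2 → E2} (hV : ContDiff ℝ 1 V) (y v : E2)
    (hv : fderiv ℂ a y v = 0) :
    fderiv ℝ (fun y => wt η (a y) * (f y * fderiv ℝ φ y (V y))) y v =
      wt η (a y) * (fderiv ℝ f y v * fderiv ℝ φ y (V y) + f y *
        (fderiv ℝ (fderiv ℝ φ) y v (V y) + fderiv ℝ φ y (fderiv ℝ V y v))) := by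
  have hac := ha.differentiable two_ne_zero y
  have h0 := (((contDiff_wt hη 1).differentiable one_ne_zero (a y)).hasFDerivAt.comp y
    (hac.restrictScalars ℝ).hasFDerivAt)
  have h1 : ContDiff ℝ 1 (fderiv ℝ φ) := hφ.fderiv_right (by norm_num)
  have h2 := (h1.differentiable one_ne_zero y).hasFDerivAt.clm_apply
    (hV.differentiable one_ne_zero y).hasFDerivAt
  have h3 := (h0.mul ((hf.differentiable one_ne_zero y).hasFDerivAt.mul h2)).fderiv
  have e : (fun y => wt η (a y) * (f y * fderiv ℝ φ y (V y))) =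
      (wt η ∘ a) * (f * fun y => fderiv ℝ φ y (V y)) := rfl
  rw [e, h3]
  simp [fderiv_real hac, hv]
  ring

end IBP

open IBP

theorem ibp : IBPStmt := by
  intro W hW hd F hF hc
  refine ⟨hol_ibp hW hd hF hc, hol_ibp (W := fun y => I • W y) (hW.const_smul I) (fun y => ?_) hF hc⟩
  rw [show (fun y => I • W y) = I • W from rfl,
    fderiv_const_smul (hW.differentiable one_ne_zero y)]
  simp only [smul_apply, Prod.smul_fst, Prod.smul_snd, smul_eq_mul]
  rw [← mul_add, hd y, mul_zero]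

theorem green : GreenStmt := by
  intro a η ha hη f φ hf hc hφ
  have hW := contDiff_Wf ha
  have hWr := hW.restrict_scalars ℝ
  have hIW : ContDiff ℝ 1 fun y => I • Wf a y := (hW.const_smul I).restrict_scalars ℝ
  have h1 : ContDiff ℝ 1 (fderiv ℝ φ) := hφ.fderiv_right (by norm_num)
  have hwt : ContDiff ℝ 1 fun y => wt η (a y) :=
    (contDiff_wt hη 1).comp ((ha.of_le (by norm_num)).restrict_scalars ℝ)
  have s1 : ContDiff ℝ 1 fun y => wt η (a y) * (f y * fderiv ℝ φ y (Wf a y)) :=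
    hwt.mul (hf.mul (h1.clm_apply hWr))
  have s2 : ContDiff ℝ 1 fun y => wt η (a y) * (f y * fderiv ℝ φ y (I • Wf a y)) :=
    hwt.mul (hf.mul (h1.clm_apply hIW))
  have c1 : HasCompactSupport fun y => wt η (a y) * (f y * fderiv ℝ φ y (Wf a y)) :=
    HasCompactSupport.mul_left (HasCompactSupport.mul_right hc)
  have c2 : HasCompactSupport fun y => wt η (a y) * (f y * fderiv ℝ φ y (I • Wf a y)) :=
    HasCompactSupport.mul_left (HasCompactSupport.mul_right hc)
  have i1 := (ibp _ hW (div_Wf ha) _ s1 c1).1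
  have i2 := (ibp _ hW (div_Wf ha) _ s2 c2).2
  have t := integral_add (int_dir s1 c1 hW.continuous) (int_dir s2 c2 hIW.continuous)
  rw [i1, i2, add_zero] at t
  rw [← t]
  refine integral_congr_ae (Eventually.of_forall fun y => ?_)
  have hy := hW.differentiable one_ne_zero y
  have k : fderiv ℝ (fun y => I • Wf a y) y (I • Wf a y) = -fderiv ℝ (Wf a) y (Wf a y) := by
    rw [show (fun y => I • Wf a y) = I • Wf a from rfl, fderiv_real (hy.const_smul I),
      fderiv_real hy, fderiv_const_smul hy]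
    simp [smul_smul]
  simp only
  rw [test_deriv ha hη hf hφ hWr y _ (fderiv_Wf a y),
    test_deriv ha hη hf hφ hIW y _ (by rw [map_smul, fderiv_Wf, smul_zero]), k, map_neg]
  simp only [bf, lapd, dd]
  ring

end

end Pool.Agent.LinN2
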