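import Pool.Agent.Lib.MP_8465a2_an.N2.BasicB

/-!
The cutoff of a tube shell (MP_8465a2_an).
-/

namespace Pool.Agent.LinN2

open MeasureTheory Metric Set Filter Topology Complex
open scoped ENNReal ComplexConjugate

noncomputable section

namespace LCut

/-- the cutoff -/
def ps (b : ℂ → ℝ) (t : ℝ) (u : E2) : ℝ := b (u.1 * u.2) * b (t • u.1) * b (t • u.2)

lemma fderiv_ps {b : ℂ → ℝ} (hb : Differentiable ℝ b) (t : ℝ) (u v : E2) :
    fderiv ℝ (ps b t) u v =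
      fderiv ℝ b (u.1 * u.2) (u.1 * v.2 + v.1 * u.2) * (b (t • u.1) * b (t • u.2)) +
      fderiv ℝ b (t • u.1) (t • v.1) * (b (u.1 * u.2) * b (t • u.2)) +
      fderiv ℝ b (t • u.2) (t • v.2) * (b (u.1 * u.2) * b (t • u.1)) := by
  have f1 : HasFDerivAt (fun u : E2 => u.1) (ContinuousLinearMap.fst ℝ ℂ ℂ) u := hasFDerivAt_fst
  have f2 : HasFDerivAt (fun u : E2 => u.2) (ContinuousLinearMap.snd ℝ ℂ ℂ) u := hasFDerivAt_snd
  have h1 := (hb (u.1 * u.2)).hasFDerivAt.comp u (f1.mul f2)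
  have h2 := (hb (t • u.1)).hasFDerivAt.comp u (f1.const_smul t)
  have h3 := (hb (t • u.2)).hasFDerivAt.comp u (f2.const_smul t)
  have h : HasFDerivAt (ps b t) _ u := (h1.mul h2).mul h3
  rw [h.fderiv]
  simp only [add_apply, smul_apply, ContinuousLinearMap.comp_apply, ContinuousLinearMap.coe_fst', ContinuousLinearMap.coe_snd',
    Function.comp_apply, Pi.mul_apply, Pi.smul_apply, smul_eq_mul]
  rw [mul_comm u.2 v.1]
  ring

lemma zt_nonneg (L s : ℝ) : 0 ≤ zt L s :=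
  mul_nonneg (Real.smoothTransition.nonneg _) (Real.smoothTransition.nonneg _)

lemma zt_one {L s : ℝ} (h : |s| ≤ L + 2) : zt L s = 1 := by
  have := abs_le.1 h
  unfold zt
  rw [Real.smoothTransition.one_of_one_le (by linarith),
    Real.smoothTransition.one_of_one_le (by linarith), mul_one]

lemma continuous_zt (L : ℝ) : Continuous (zt L) := by
  unfold zt
  exact (Real.smoothTransition.continuous.comp (by fun_prop)).mul
    (Real.smoothTransition.continuous.comp (by fun_prop))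

lemma compact_zt (L : ℝ) : HasCompactSupport (zt L) :=
  HasCompactSupport.intro (isCompact_Icc (a := -(L + 3)) (b := L + 3)) fun s hs => by
    unfold zt
    rcases not_and_or.1 hs with h | h
    · rw [Real.smoothTransition.zero_of_nonpos (x := L + 3 + s) (by linarith [not_le.1 h]),
        mul_zero]
    · rw [Real.smoothTransition.zero_of_nonpos (x := L + 3 - s) (by linarith [not_le.1 h]),
        zero_mul]

lemma log_two_le : Real.log 2 ≤ 1 := by
  linarith [Real.log_le_sub_one_of_pos (x := 2) two_pos]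

lemma bw_ge {q : ℂ} (h1 : 1 ≤ ‖q‖) (h2 : ‖q‖ ≤ 2) : 1 / 4 ≤ bw q := by
  have l1 : 0 ≤ Real.log ‖q‖ := Real.log_nonneg h1
  have l2 : Real.log ‖q‖ ≤ 1 := (Real.log_le_log (by linarith) h2).trans log_two_le
  unfold bw bb
  rw [Real.smoothTransition.one_of_one_le (by linarith),
    Real.smoothTransition.one_of_one_le (by linarith), mul_one]
  exact one_div_le_one_div_of_le (by positivity) (by nlinarith)

lemma sc_le {L : ℝ} {u : E2} (h1 : 1 ≤ ‖u.1 * u.2‖) (hz : ‖u.1‖ ≤ 2 * Real.exp L)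
    (hw : ‖u.2‖ ≤ 2 * Real.exp L) : |sc u| ≤ L + 2 := by
  rw [norm_mul] at h1
  have p1 : 0 < ‖u.1‖ := (norm_nonneg _).lt_of_ne fun h => by rw [← h] at h1; norm_num at h1
  have p2 : 0 < ‖u.2‖ := (norm_nonneg _).lt_of_ne fun h => by rw [← h] at h1; norm_num at h1
  have e : Real.log (2 * Real.exp L) = Real.log 2 + L := by
    rw [Real.log_mul two_ne_zero (Real.exp_ne_zero _), Real.log_exp]
  have a1 := Real.log_le_log p1 hz
  have a2 := Real.log_le_log p2 hw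
  have a3 := Real.log_nonneg h1
  rw [Real.log_mul p1.ne' p2.ne'] at a3
  unfold sc
  exact abs_le.2 ⟨by linarith [log_two_le], by linarith [log_two_le]⟩

/-- the data of the bump -/
structure Bump (b : ℂ → ℝ) (K : ℝ) : Prop where
  sm : ContDiff ℝ 1 b
  nn : ∀ y, 0 ≤ b y
  le : ∀ y, b y ≤ 1
  one : ∀ y, ‖y‖ ≤ 1 → b y = 1
  zero : ∀ y, 2 ≤ ‖y‖ → b y = 0
  bd : ∀ y, ‖fderiv ℝ b y‖ ≤ K

variable {b : ℂ → ℝ} {K : ℝ}

lemma Bump.lt (h : Bump b K) {y : ℂ} (hy : b y ≠ 0) : ‖y‖ ≤ 2 :=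
  le_of_lt (not_le.1 fun h' => hy (h.zero y h'))

lemma Bump.supp (h : Bump b K) {y v : ℂ} (hy : fderiv ℝ b y v ≠ 0) : 1 ≤ ‖y‖ ∧ ‖y‖ ≤ 2 := by
  refine ⟨le_of_lt (not_le.1 fun h' => hy ?_), le_of_lt (not_le.1 fun h' => hy ?_)⟩
  · have : IsLocalMax b y := Eventually.of_forall fun z => h.one y h' ▸ h.le z
    rw [this.fderiv_eq_zero]; rfl
  · have : IsLocalMin b y := Eventually.of_forall fun z => h.zero y h' ▸ h.nn z
    rw [this.fderiv_eq_zero]; rfl

lemma Bump.sq_le (h : Bump b K) (y v y1 y2 : ℂ) :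
    (fderiv ℝ b y v * (b y1 * b y2)) ^ 2 ≤ K ^ 2 * ‖v‖ ^ 2 := by
  have h1 : |fderiv ℝ b y v| ≤ K * ‖v‖ := (fderiv ℝ b y).le_of_opNorm_le (h.bd y) v
  have h2 : 0 ≤ b y1 * b y2 := mul_nonneg (h.nn _) (h.nn _)
  have h3 : b y1 * b y2 ≤ 1 := mul_le_one₀ (h.le _) (h.nn _) (h.le _)
  rw [← mul_pow]
  refine sq_le_sq' (abs_le.1 ?_).1 (abs_le.1 ?_).2 <;>
  · rw [abs_mul, abs_of_nonneg h2]
    nlinarith [abs_nonneg (fderiv ℝ b y v)]

lemma norm_scale (L : ℝ) (z : ℂ) : ‖Real.exp (-L) • z‖ = Real.exp (-L) * ‖z‖ := by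
  rw [norm_smul, Real.norm_of_nonneg (Real.exp_pos _).le]

lemma le_of_scale {L c : ℝ} {z : ℂ} (h : ‖Real.exp (-L) • z‖ ≤ c) : ‖z‖ ≤ c * Real.exp L := by
  rw [norm_scale, Real.exp_neg, inv_mul_le_iff₀ (Real.exp_pos _)] at h
  linarith

lemma ge_of_scale {L c : ℝ} {z : ℂ} (h : c ≤ ‖Real.exp (-L) • z‖) : c * Real.exp L ≤ ‖z‖ := by
  rw [norm_scale, Real.exp_neg, le_inv_mul_iff₀ (Real.exp_pos _)] at h
  linarith

lemma mem_Kside {L : ℝ} {z w : ℂ} (h1 : 1 ≤ ‖Real.exp (-L) • z‖) (h2 : ‖Real.exp (-L) • z‖ ≤ 2)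
    (h3 : ‖z * w‖ ≤ 2) : (z, w) ∈ Kside L := by
  have a1 := ge_of_scale h1
  have a2 := le_of_scale h2
  rw [one_mul] at a1
  refine ⟨a1, a2.trans ?_, ?_⟩
  · rw [Real.exp_add, mul_comm]
    gcongr
    linarith [Real.add_one_le_exp (4 : ℝ)]
  · rw [norm_mul] at h3
    rw [Real.exp_neg, ← div_eq_mul_inv, le_div_iff₀ (Real.exp_pos _)]
    nlinarith [norm_nonneg w]

/-- first term -/
lemma Bump.term1 (h : Bump b K) (h3 : PtStmt) (L : ℝ) (u : E2) (v : ℂ) :
    (fderiv ℝ b (u.1 * u.2) v * (b (Real.exp (-L) • u.1) * b (Real.exp (-L) • u.2))) ^ 2 ≤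
      4 * K ^ 2 * (bw (u.1 * u.2) * zt L (sc u) * ‖v‖ ^ 2) := by
  have hbw : ∀ q, 0 ≤ bw q := h3.2.2.2.2.2.2.1
  by_cases h0 : fderiv ℝ b (u.1 * u.2) v *
      (b (Real.exp (-L) • u.1) * b (Real.exp (-L) • u.2)) = 0
  · rw [h0]
    have := hbw (u.1 * u.2)
    have := zt_nonneg L (sc u)
    simp only [ne_eq, OfNat.ofNat_ne_zero, not_false_eq_true, zero_pow]
    positivity
  · have hq := h.supp (left_ne_zero_of_mul h0)
    have hz := le_of_scale (h.lt (left_ne_zero_of_mul (right_ne_zero_of_mul h0)))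
    have hw := le_of_scale (h.lt (right_ne_zero_of_mul (right_ne_zero_of_mul h0)))
    rw [zt_one (sc_le hq.1 hz hw), mul_one]
    refine (h.sq_le _ _ _ _).trans ?_
    have := bw_ge hq.1 hq.2
    nlinarith [mul_nonneg (sq_nonneg K) (sq_nonneg ‖v‖)]

/-- second and third term -/
lemma Bump.term2 (h : Bump b K) (L : ℝ) (z w v : ℂ) :
    (fderiv ℝ b (Real.exp (-L) • z) (Real.exp (-L) • v) *
      (b (z * w) * b (Real.exp (-L) • w))) ^ 2 ≤
      K ^ 2 * ((Kside L).indicator (fun _ => (1 : ℝ)) (z, w) * (Real.exp (-L) * ‖v‖) ^ 2) := by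
  by_cases h0 : fderiv ℝ b (Real.exp (-L) • z) (Real.exp (-L) • v) *
      (b (z * w) * b (Real.exp (-L) • w)) = 0
  · rw [h0]
    have : 0 ≤ (Kside L).indicator (fun _ => (1 : ℝ)) (z, w) :=
      indicator_nonneg (fun _ _ => zero_le_one) _
    simp only [ne_eq, OfNat.ofNat_ne_zero, not_false_eq_true, zero_pow]
    positivity
  · have hz := h.supp (left_ne_zero_of_mul h0)
    have hq := h.lt (left_ne_zero_of_mul (right_ne_zero_of_mul h0))
    rw [indicator_of_mem (mem_Kside hz.1 hz.2 hq), one_mul, ← norm_scale]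
    exact h.sq_le _ _ _ _

lemma Bump.sq_fderiv (h : Bump b K) (h3 : PtStmt) (L : ℝ) (u v : E2) :
    fderiv ℝ (ps b (Real.exp (-L))) u v * fderiv ℝ (ps b (Real.exp (-L))) u v ≤
      12 * K ^ 2 * (bw (u.1 * u.2) * zt L (sc u) * ‖u.1 * v.2 + v.1 * u.2‖ ^ 2) +
      3 * K ^ 2 * ((Kside L).indicator (fun _ => (1 : ℝ)) u * (Real.exp (-L) * ‖v.1‖) ^ 2) +
      3 * K ^ 2 * ((Kside L).indicator (fun _ => (1 : ℝ)) u.swap *
        (Real.exp (-L) * ‖v.2‖) ^ 2) := by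
  rw [fderiv_ps (h.sm.differentiable one_ne_zero)]
  have t1 := h.term1 h3 L u (u.1 * v.2 + v.1 * u.2)
  have t2 := h.term2 L u.1 u.2 v.1
  have t3 := h.term2 L u.2 u.1 v.2
  rw [mul_comm u.2 u.1] at t3
  have key : ∀ x y z : ℝ, (x + y + z) * (x + y + z) ≤ 3 * x ^ 2 + 3 * y ^ 2 + 3 * z ^ 2 :=
    fun x y z => by nlinarith [sq_nonneg (x - y), sq_nonneg (x - z), sq_nonneg (y - z)]
  refine (key _ _ _).trans ?_
  have e : u.swap = (u.2, u.1) := rfl
  rw [e]
  linarith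

lemma Bump.bf_le (h : Bump b K) (h3 : PtStmt) (L : ℝ) (a : E2 → ℂ) (u : E2) :
    bf a (ps b (Real.exp (-L))) (ps b (Real.exp (-L))) u ≤
      24 * K ^ 2 * (bw (u.1 * u.2) * zt L (sc u) * ‖Tf a u‖ ^ 2) +
      6 * K ^ 2 * ((Kside L).indicator (fun _ => (1 : ℝ)) u *
        (Real.exp (-L) * ‖fderiv ℂ a u (0, 1)‖) ^ 2) +
      6 * K ^ 2 * ((Kside L).indicator (fun _ => (1 : ℝ)) u.swap *
        (Real.exp (-L) * ‖fderiv ℂ a u (1, 0)‖) ^ 2) := by
  have t1 := h.sq_fderiv h3 L u (Wf a u)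
  have t2 := h.sq_fderiv h3 L u (I • Wf a u)
  have e1 : u.1 * (Wf a u).2 + (Wf a u).1 * u.2 = -Tf a u := by
    rw [Tf, fderiv_pair]; simp only [Wf]; ring
  have e2 : u.1 * (I • Wf a u).2 + (I • Wf a u).1 * u.2 = I * -Tf a u := by
    rw [← e1]; simp only [Prod.smul_fst, Prod.smul_snd, smul_eq_mul]; ring
  have n1 : ‖(Wf a u).1‖ = ‖fderiv ℂ a u (0, 1)‖ := rfl
  have n2 : ‖(Wf a u).2‖ = ‖fderiv ℂ a u (1, 0)‖ := norm_neg _
  have n3 : ‖(I • Wf a u).1‖ = ‖fderiv ℂ a u (0, 1)‖ := by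
    rw [Prod.smul_fst, norm_smul, norm_I, one_mul, n1]
  have n4 : ‖(I • Wf a u).2‖ = ‖fderiv ℂ a u (1, 0)‖ := by
    rw [Prod.smul_snd, norm_smul, norm_I, one_mul, n2]
  rw [e1, norm_neg, n1, n2] at t1
  rw [e2, norm_mul, norm_I, one_mul, norm_neg, n3, n4] at t2
  unfold bf
  linarith

/-- the integrand of the side mass -/
def mk (a : E2 → ℂ) (η L : ℝ) (u : E2) : ℝ := wt η (a u) *
  (‖u.1 * fderiv ℂ a u (1, 0)‖ ^ 2 + (Real.exp (-L) * ‖fderiv ℂ a u (0, 1)‖) ^ 2)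

lemma closed_Kside (L : ℝ) : IsClosed (Kside L) :=
  (isClosed_le continuous_const continuous_fst.norm).inter
    ((isClosed_le continuous_fst.norm continuous_const).inter
      (isClosed_le continuous_snd.norm continuous_const))

lemma bdd_Kside (L : ℝ) : Bornology.IsBounded (Kside L) :=
  (isBounded_closedBall (x := (0 : E2)) (r := max (Real.exp (L + 4)) (2 * Real.exp (-L)))).subset
    fun _ hu => mem_closedBall_zero_iff.2 (max_le_max hu.2.1 hu.2.2)

lemma integrable_mk {a : E2 → ℂ} {η : ℝ} (ha : ContDiff ℂ 2 a) (hη : 0 < η) (L : ℝ) :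
    Integrable ((Kside L).indicator (mk a η L)) := by
  have h1 := ha.continuous_fderiv two_ne_zero
  have h2 := (continuous_wt hη).comp ha.continuous
  rw [integrable_indicator_iff (closed_Kside L).measurableSet]
  refine intOn (h2.mul ?_) (bdd_Kside L)
  fun_prop

lemma MK_eq (a : E2 → ℂ) (η L : ℝ) : MK a η L = ∫ u, (Kside L).indicator (mk a η L) u :=
  (integral_indicator (closed_Kside L).measurableSet).symm

lemma le_mk (a : E2 → ℂ) (η L : ℝ) (u : E2) {c : ℝ} (h1 : c ≤ 1) :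
    wt η (a u) * (c * ((Kside L).indicator (fun _ => (1 : ℝ)) u *
      (Real.exp (-L) * ‖fderiv ℂ a u (0, 1)‖) ^ 2)) ≤ (Kside L).indicator (mk a η L) u := by
  by_cases hu : u ∈ Kside L
  · rw [indicator_of_mem hu, indicator_of_mem hu, mk, one_mul]
    refine mul_le_mul_of_nonneg_left ?_ (wt_nonneg _ _)
    nlinarith [sq_nonneg ‖u.1 * fderiv ℂ a u (1, 0)‖,
      sq_nonneg (Real.exp (-L) * ‖fderiv ℂ a u (0, 1)‖)]
  · rw [indicator_of_notMem hu, indicator_of_notMem hu]; simp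

lemma contDiff_swap {a : E2 → ℂ} (ha : ContDiff ℂ 2 a) : ContDiff ℂ 2 fun u : E2 => a u.swap :=
  ha.comp (contDiff_snd.prodMk contDiff_fst)

lemma fderiv_swap {a : E2 → ℂ} (ha : ContDiff ℂ 2 a) (u : E2) :
    fderiv ℂ (fun u : E2 => a u.swap) u.swap (0, 1) = fderiv ℂ a u (1, 0) := by
  have h1 : HasFDerivAt (fun u : E2 => (u.2, u.1))
      ((ContinuousLinearMap.snd ℂ ℂ ℂ).prod (ContinuousLinearMap.fst ℂ ℂ ℂ)) u.swap :=
    hasFDerivAt_snd.prodMk hasFDerivAt_fst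
  have h2 : HasFDerivAt (fun u : E2 => a u.swap) _ u.swap :=
    (ha.differentiable two_ne_zero u).hasFDerivAt.comp u.swap h1
  rw [h2.fderiv]
  rfl

lemma mp_swap : MeasurePreserving (Prod.swap : E2 → E2) volume volume :=
  Measure.measurePreserving_swap

end LCut

open LCut in
theorem lcut (h2 : PolarStmt) (h3 : PtStmt) : LCutStmt := by
  obtain ⟨b, K, hb, b0, b1, b2, b3, k1, -⟩ := exists_bump (E := ℂ)
  have h : Bump b K := ⟨hb.of_le one_le_two, b0, b1, fun y hy => b2 y (by linarith), b3, k1⟩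
  refine ⟨24 * K ^ 2 + 1, by nlinarith [sq_nonneg K], fun L hL => ⟨ps b (Real.exp (-L)),
    ⟨?_, fun u => mul_nonneg (mul_nonneg (b0 _) (b0 _)) (b0 _), fun u =>
      mul_le_one₀ (mul_le_one₀ (b1 _) (b0 _) (b1 _)) (b0 _) (b1 _)⟩, fun u hu => ?_,
    fun u hu => ?_, fun a η χ ha hη hχ => ?_⟩⟩
  · have := h.sm
    unfold ps
    fun_prop
  · have a1 : ‖u.1‖ ≤ 1 := (norm_fst_le u).trans hu
    have a2 : ‖u.2‖ ≤ 1 := (norm_snd_le u).trans hu
    have a3 : Real.exp (-L) ≤ 1 := Real.exp_le_one_iff.2 (by linarith)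
    unfold ps
    rw [h.one _ (by rw [norm_mul]; exact mul_le_one₀ a1 (norm_nonneg _) a2),
      h.one _ (by rw [norm_scale]; exact mul_le_one₀ a3 (norm_nonneg _) a1),
      h.one _ (by rw [norm_scale]; exact mul_le_one₀ a3 (norm_nonneg _) a2), mul_one, mul_one]
  · have key : ∀ z : ℂ, 2 * Real.exp L ≤ ‖z‖ → b (Real.exp (-L) • z) = 0 := fun z hz =>
      b3 _ (by rw [norm_scale, Real.exp_neg, le_inv_mul_iff₀ (Real.exp_pos _)]; linarith)
    unfold ps
    rcases le_max_iff.1 (hu.trans_eq (Prod.norm_def u)) with h' | h'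
    · rw [key _ h', mul_zero, zero_mul]
    · rw [key _ h', mul_zero]
  · have hbw : ∀ q, 0 ≤ bw q := h3.2.2.2.2.2.2.1
    obtain ⟨c1, c2, -⟩ := h2.2.2.2.2.1 (zt L) (continuous_zt L) (compact_zt L)
    have cw := (continuous_wt hη).comp ha.continuous
    have cT := continuous_Tf ha
    have cχ := hχ.sm.continuous
    have i1 : Integrable fun u : E2 =>
        wt η (a u) * (bw (u.1 * u.2) * zt L (sc u) * ‖Tf a u‖ ^ 2 * (1 - χ u) ^ 2) :=
      Continuous.integrable_of_hasCompactSupport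
        (cw.mul ((c1.mul (cT.norm.pow 2)).mul ((continuous_const.sub cχ).pow 2)))
        (c2.mul_right.mul_right.mul_left)
    have i2 := integrable_mk ha hη L
    have i3 := integrable_mk (contDiff_swap ha) hη L
    have i4 : Integrable fun u : E2 =>
        (Kside L).indicator (mk (fun u => a u.swap) η L) u.swap :=
      mp_swap.integrable_comp_of_integrable i3
    have i5 : Integrable fun u : E2 =>
        wt η (a u) * (bw (u.1 * u.2) * zt L (sc u) * ‖Tf a u‖ ^ 2 * (1 - χ u) ^ 2) +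
          (Kside L).indicator (mk a η L) u := i1.add i2
    have e3 : MK (fun u => a u.swap) η L =
        ∫ u : E2, (Kside L).indicator (mk (fun u => a u.swap) η L) u.swap := by
      rw [MK_eq]
      exact (mp_swap.integral_comp MeasurableEquiv.prodComm.measurableEmbedding _).symm
    rw [e3, MK_eq, T2, ← integral_add i1 i2, ← integral_add i5 i4, ← integral_const_mul]
    refine integral_mono_of_nonneg (ae_of_all _ fun u => mul_nonneg (wt_nonneg _ _)
      (mul_nonneg (sq_nonneg _) (bf_nonneg _ _ _))) ((i5.add i4).const_mul _)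
      (ae_of_all _ fun u => ?_)
    have x0 : 0 ≤ (1 - χ u) ^ 2 := sq_nonneg _
    have x1 : (1 - χ u) ^ 2 ≤ 1 := by nlinarith [hχ.nn u, hχ.le u]
    have w0 := wt_nonneg η (a u)
    have y2 := le_mk a η L u x1
    have y3 := le_mk (fun u => a u.swap) η L u.swap x1
    rw [fderiv_swap ha, Prod.swap_swap] at y3
    have y0 := mul_le_mul_of_nonneg_left (mul_le_mul_of_nonneg_left (h.bf_le h3 L a u) x0) w0
    have z1 : 0 ≤ wt η (a u) * (bw (u.1 * u.2) * zt L (sc u) * ‖Tf a u‖ ^ 2 * (1 - χ u) ^ 2) :=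
      mul_nonneg w0 (mul_nonneg (mul_nonneg (mul_nonneg (hbw _) (zt_nonneg _ _)) (sq_nonneg _)) x0)
    have i0 : ∀ v, 0 ≤ (Kside L).indicator (fun _ => (1 : ℝ)) v :=
      indicator_nonneg fun _ _ => zero_le_one
    have z2 := le_trans (mul_nonneg w0 (mul_nonneg x0 (mul_nonneg (i0 _) (sq_nonneg _)))) y2
    have z3 := le_trans (mul_nonneg w0 (mul_nonneg x0 (mul_nonneg (i0 _) (sq_nonneg _)))) y3
    have k0 := sq_nonneg K
    refine y0.trans ?_
    nlinarith [mul_le_mul_of_nonneg_left y2 k0, mul_le_mul_of_nonneg_left y3 k0,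
      mul_nonneg k0 z2, mul_nonneg k0 z3]

end

end Pool.Agent.LinN2
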