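import Pool.Agent.Lib.MP_8465a2_an.N2.BasicB

/-! The shell of the local model: bookkeeping of constants. -/

namespace Pool.Agent.LinN2

open MeasureTheory Metric Set Filter Topology Complex
open scoped ENNReal ComplexConjugate

namespace LShell

lemma exp_half_le {κ : ℝ} (hκ : 0 < κ) : Real.exp (-(κ / 2)) ≤ 3840 / κ ^ 5 := by
  have h := Real.pow_div_factorial_le_exp (κ / 2) (by positivity) 5
  have e : (κ / 2) ^ 5 / ((Nat.factorial 5 : ℕ) : ℝ) = κ ^ 5 / 3840 := by
    norm_num [Nat.factorial]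
    ring
  rw [e] at h
  rw [Real.exp_neg, inv_le_comm₀ (Real.exp_pos _) (by positivity), inv_div]
  exact h

end LShell

theorem lshell (h1 : LCutStmt) (h2 : PoincStmt) (h3 : TotStmt) (h4 : SideStmt) (h5 : PtStmt) :
    LShellStmt := by
  intro C2 hC2
  obtain ⟨KC, hKC, h1⟩ := h1
  obtain ⟨KP, hKP, h2⟩ := h2
  obtain ⟨KT, hKT, h3⟩ := h3 C2 hC2
  obtain ⟨KS, hKS, h4⟩ := h4 C2 hC2
  have hPS : 1 ≤ KP * KS := one_le_mul_of_one_le_of_one_le hKP hKS
  have hCPS : 1 ≤ KC * (KP * KS) := one_le_mul_of_one_le_of_one_le hKC hPS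
  have hS' : KS ≤ KP * KS := le_mul_of_one_le_left (by linarith) hKP
  have hP' : KC * KP ≤ KC * (KP * KS) :=
    mul_le_mul_of_nonneg_left (le_mul_of_one_le_right (by linarith) hKS) (by linarith)
  have hC' : KC ≤ KC * (KP * KS) := le_mul_of_one_le_right (by linarith) hPS
  set K := 2 * KT + 7681 * (KP * KS) + 15362 * (KC * (KP * KS)) with hK
  refine ⟨K, by linarith, fun κ hκ => ?_⟩
  have k10 : 10 ≤ κ := by linarith
  have k0 : 0 < κ := by linarith
  obtain ⟨ψ, c1, c2, c3, c4⟩ := h1 κ (by linarith)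
  refine ⟨ψ, c1, c2, c3, fun A S0 μ c η T η' z1 hW hS0 hμ hz1 hlow hc hη hηT hη1 hT hη' => ?_⟩
  have k5 : 10 ≤ κ ^ 5 := le_trans k10 (le_self_pow₀ (by linarith) (by norm_num))
  have k6 : κ ^ 6 = κ ^ 5 * κ := by ring
  have k7 : 10 * κ ≤ κ ^ 6 := by rw [k6]; exact mul_le_mul_of_nonneg_right k5 k0.le
  have hμ0 : 0 < μ := by linarith
  have hμκ : 5 ≤ μ * κ := by linarith [mul_le_mul hμ k10 (by norm_num) hμ0.le]
  have ha : ContDiff ℂ 2 fun u => sym A u - c := hW.sub_sm c
  set w := μ / κ ^ 5 with hw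
  have hw0 : 0 < w := by positivity
  have hT2 : 2 * T ≤ S0 * Real.exp (-(μ * κ / 8)) := by
    have e : Real.exp (-(μ * κ / 8)) = Real.exp (15 * (μ * κ) / 8) * Real.exp (-(2 * μ * κ)) := by
      rw [← Real.exp_add]; congr 1; ring
    have e2 : 2 ≤ Real.exp (15 * (μ * κ) / 8) :=
      le_trans (by linarith) (Real.add_one_le_exp _)
    have e3 : 0 < S0 * Real.exp (-(2 * μ * κ)) := by positivity
    rw [e]
    linarith [mul_le_mul_of_nonneg_right e2 e3.le]
  have tot := h3 A S0 μ (μ * κ / 8) (μ * κ / 8) (2 * κ ^ 6) (κ ^ 6) κ c η T z1 hW hS0 hμ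
    (by positivity) (by positivity) (by linarith) (by linarith) (by linarith) (by linarith) hz1 hlow
    hc hη hηT hT2
  have side := h4 A S0 μ (μ * κ / 8) (μ * κ / 8) (2 * κ ^ 6) κ c η T z1 hW hS0 hμ
    (by positivity) (by positivity) (by linarith) (by linarith) (by linarith) hz1 hlow
    hc hη hηT hT
  have e1 : KT * (μ * κ / 8 + μ * κ / 8 + μ * κ) / κ ^ 6 ≤ 2 * KT * w := by
    have : KT * (μ * κ / 8 + μ * κ / 8 + μ * κ) / κ ^ 6 = 5 / 4 * KT * w := by
      rw [hw]; field_simp; ring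
    rw [this]
    linarith [mul_pos (show 0 < KT by linarith) hw0]
  have e2 : (μ * κ / 8 + μ * κ / 8 + μ) / (2 * κ ^ 6) + Real.exp (-(κ / 2)) ≤ 7681 * w := by
    have a1 : (μ * κ / 8 + μ * κ / 8 + μ) / (2 * κ ^ 6) ≤ w := by
      rw [hw, div_le_div_iff₀ (by positivity) (by positivity), k6]
      have : 0 < μ * κ ^ 5 := by positivity
      linarith [mul_le_mul_of_nonneg_left k10 this.le]
    have a2 : 3840 / κ ^ 5 ≤ 7680 * w := by
      rw [hw, ← mul_div_assoc]
      exact div_le_div_of_nonneg_right (by linarith) (by positivity)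
    linarith [LShell.exp_half_le k0]
  have m1 : MK (fun u => sym A u - c) η κ ≤ 7681 * KS * w := by
    refine side.1.trans ?_
    linarith [mul_le_mul_of_nonneg_left e2 (show 0 ≤ KS by linarith)]
  have m2 : MK (fun u => sym A u.swap - c) η κ ≤ 7681 * KS * w := by
    refine side.2.trans ?_
    linarith [mul_le_mul_of_nonneg_left e2 (show 0 ≤ KS by linarith)]
  have key : ∀ χ, Cut χ → (∀ u ∈ Gset η', χ u = 1) →
      T2 (fun u => sym A u - c) η κ χ ≤
        2 * (VV * μ + 2 * KT * w + 7681 * (KP * KS) * w - Gr (fun u => sym A u - c) η η') +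
          KP * En (fun u => sym A u - c) η (Reg κ) χ := by
    intro χ hχ hG
    have := (h2 (fun u => sym A u - c) η η' χ ha hη hη1 hη' hχ hG).1 κ (by linarith)
    have b1 := mul_le_mul_of_nonneg_left m1 (show 0 ≤ KP by linarith)
    have b2 := mul_le_mul_of_nonneg_left m2 (show 0 ≤ KP by linarith)
    linarith
  have hGr : Gr (fun u => sym A u - c) η η' ≤ VV * μ + 2 * KT * w + 7681 * (KP * KS) * w := by
    have := key (fun _ => 1) cut_one fun _ _ => rfl
    have z1 : T2 (fun u => sym A u - c) η κ (fun _ => 1) = 0 := by simp [T2]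
    have z2 : En (fun u => sym A u - c) η (Reg κ) (fun _ => 1) = 0 := by simp [En, Bf, bf]
    rw [z1, z2] at this
    linarith
  have hKw : K * μ / κ ^ 5 = K * w := by rw [hw, mul_div_assoc]
  rw [hKw]
  refine ⟨?_, fun χ hχ hG => ?_⟩
  · rw [hK]
    linarith [mul_pos (show 0 < KC * (KP * KS) by linarith) hw0]
  · refine (c4 (fun u => sym A u - c) η χ ha hη hχ).trans ?_
    have t2 := key χ hχ hG
    have en := En_nonneg (fun u => sym A u - c) η (Reg κ) χ
    set E := En (fun u => sym A u - c) η (Reg κ) χ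
    set D := VV * μ + 2 * KT * w + 7681 * (KP * KS) * w - Gr (fun u => sym A u - c) η η' with hD
    have hD0 : 0 ≤ D := by linarith
    have e : VV * μ + K * w - Gr (fun u => sym A u - c) η η' + E =
        D + 15362 * (KC * (KP * KS)) * w + E := by rw [hD, hK]; ring
    rw [e]
    have s1 : KS * w ≤ KP * KS * w := mul_le_mul_of_nonneg_right hS' hw0.le
    have s2 : KC * (T2 (fun u => sym A u - c) η κ χ + MK (fun u => sym A u - c) η κ +
        MK (fun u => sym A u.swap - c) η κ) ≤ KC * (2 * D + KP * E + 15362 * (KP * KS) * w) :=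
      mul_le_mul_of_nonneg_left (by linarith) (by linarith)
    refine s2.trans ?_
    have s3 : 2 * KC * D ≤ K * D := mul_le_mul_of_nonneg_right (by linarith) hD0
    have s4 : KC * KP * E ≤ K * E := mul_le_mul_of_nonneg_right (by linarith) en
    have s5 : 1 * (15362 * (KC * (KP * KS)) * w) ≤ K * (15362 * (KC * (KP * KS)) * w) :=
      mul_le_mul_of_nonneg_right (by linarith) (by positivity)
    linarith

end Pool.Agent.LinN2
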