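import Pool.Agent.Lib.MP_8465a2_an.N2.BasicB

/-!
The Levi form of the regularised logarithm (MP_8465a2_an).
-/

namespace Pool.Agent.LinN2

open MeasureTheory Metric Set Filter Topology Complex
open scoped ENNReal ComplexConjugate InnerProductSpace

noncomputable section

namespace Lap

variable {E : Type} [NormedAddCommGroup E] [NormedSpace ℝ E]

lemma line {G : Type} [NormedAddCommGroup G] [NormedSpace ℝ G] {φ : E → G} {y : E}
    (h : DifferentiableAt ℝ φ y) (v : E) :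
    HasDerivAt (fun t : ℝ => φ (y + t • v)) (fderiv ℝ φ y v) 0 := by
  have h1 : HasDerivAt (fun t : ℝ => y + t • v) v 0 := by
    simpa using ((hasDerivAt_id (0 : ℝ)).smul_const v).const_add y
  have h2 : HasFDerivAt φ (fderiv ℝ φ y) (y + (0 : ℝ) • v) := by simpa using h.hasFDerivAt
  exact h2.comp_hasDerivAt (0 : ℝ) h1

lemma dd_line {φ : E → ℝ} (h : ContDiff ℝ 2 φ) (y v : E) :
    HasDerivAt (fun t : ℝ => fderiv ℝ φ (y + t • v) v) (dd φ y v) 0 := by
  have h1 : DifferentiableAt ℝ (fderiv ℝ φ) y :=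
    ((h.fderiv_right (m := 1) (by norm_num)).differentiable one_ne_zero) y
  have h2 := (line h1 v).clm_apply (hasDerivAt_const (0 : ℝ) v)
  simpa [dd] using h2

variable [NormedSpace ℂ E] [IsScalarTower ℝ ℂ E]

lemma lineC {f : E → ℂ} {y : E} (h : DifferentiableAt ℂ f y) (v : E) :
    HasDerivAt (fun t : ℝ => f (y + t • v)) (fderiv ℂ f y v) 0 := by
  have := line (h.restrictScalars ℝ) v
  rwa [h.fderiv_restrictScalars ℝ] at this

lemma lineC2 {f : E → ℂ} (h : ContDiff ℂ 2 f) (y v : E) :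
    HasDerivAt (fun t : ℝ => fderiv ℂ f (y + t • v) v) (fderiv ℂ (fderiv ℂ f) y v v) 0 := by
  have h1 : DifferentiableAt ℂ (fderiv ℂ f) y :=
    ((h.fderiv_right (m := 1) (by norm_num)).differentiable one_ne_zero) y
  have h2 : DifferentiableAt ℂ (fun x => fderiv ℂ f x v) y :=
    h1.clm_apply (differentiableAt_const v)
  have h3 := lineC h2 v
  rw [fderiv_clm_apply h1 (differentiableAt_const v)] at h3
  simpa using h3

variable {ι : Type} [Fintype ι] {F : E → ι → ℂ} {η : ℝ}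

omit [NormedAddCommGroup E] [NormedSpace ℝ E] [NormedSpace ℂ E] [IsScalarTower ℝ ℂ E] in
lemma rho_pos (hη : 0 < η) (F : E → ι → ℂ) (y : E) : 0 < ∑ k, ‖F y k‖ ^ 2 + η ^ 2 := by
  positivity

lemma smooth (hη : 0 < η) (hF : ∀ k, ContDiff ℂ 2 fun y => F y k) : ContDiff ℝ 2 (Ul F η) := by
  unfold Ul
  refine ContDiff.div_const (ContDiff.log ?_ fun y => (rho_pos hη F y).ne') _
  exact (ContDiff.sum fun k _ => ((hF k).restrict_scalars ℝ).norm_sq ℝ).add contDiff_const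

lemma rho_line (hF : ∀ k, ContDiff ℂ 2 fun y => F y k) (y v : E) :
    HasDerivAt (fun t : ℝ => ∑ k, ‖F (y + t • v) k‖ ^ 2 + η ^ 2)
      (2 * ∑ k, ⟪F y k, fderiv ℂ (fun y => F y k) y v⟫_ℝ) 0 := by
  rw [Finset.mul_sum]
  refine HasDerivAt.add_const _ (HasDerivAt.fun_sum fun k _ => ?_)
  simpa using (lineC ((hF k).differentiable two_ne_zero y) v).norm_sq

lemma first (hη : 0 < η) (hF : ∀ k, ContDiff ℂ 2 fun y => F y k) (y v : E) :
    fderiv ℝ (Ul F η) y v =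
      (∑ k, ⟪F y k, fderiv ℂ (fun y => F y k) y v⟫_ℝ) / (∑ k, ‖F y k‖ ^ 2 + η ^ 2) := by
  have h1 := line ((smooth hη hF).differentiable two_ne_zero y) v
  have h2 := ((rho_line (η := η) hF y v).log (rho_pos hη F _).ne').div_const 2
  rw [h1.unique h2]
  simp only [zero_smul, add_zero]
  ring

lemma second (hη : 0 < η) (hF : ∀ k, ContDiff ℂ 2 fun y => F y k) (y v : E) :
    dd (Ul F η) y v =
      (∑ k, (⟪F y k, fderiv ℂ (fderiv ℂ fun y => F y k) y v v⟫_ℝ +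
        ‖fderiv ℂ (fun y => F y k) y v‖ ^ 2)) / (∑ k, ‖F y k‖ ^ 2 + η ^ 2) -
      2 * (∑ k, ⟪F y k, fderiv ℂ (fun y => F y k) y v⟫_ℝ) ^ 2 / (∑ k, ‖F y k‖ ^ 2 + η ^ 2) ^ 2 := by
  have h1 := dd_line (smooth hη hF) y v
  simp only [first hη hF] at h1
  have h2 : HasDerivAt
      (fun t : ℝ => ∑ k, ⟪F (y + t • v) k, fderiv ℂ (fun y => F y k) (y + t • v) v⟫_ℝ)
      (∑ k, (⟪F y k, fderiv ℂ (fderiv ℂ fun y => F y k) y v v⟫_ℝ +
        ‖fderiv ℂ (fun y => F y k) y v‖ ^ 2)) 0 := by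
    refine HasDerivAt.fun_sum fun k _ => ?_
    have := (lineC ((hF k).differentiable two_ne_zero y) v).inner ℝ (lineC2 (hF k) y v)
    simpa only [zero_smul, add_zero, real_inner_self_eq_norm_sq] using this
  have h3 := h2.fun_div (rho_line (η := η) hF y v) (rho_pos hη F _).ne'
  rw [h1.unique h3]
  simp only [zero_smul, add_zero]
  have := (rho_pos hη F y).ne'
  field_simp

lemma levi (hη : 0 < η) (hF : ∀ k, ContDiff ℂ 2 fun y => F y k) (y v : E) :
    lapd (Ul F η) y v =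
      2 * (∑ k, ‖fderiv ℂ (fun y => F y k) y v‖ ^ 2) / (∑ k, ‖F y k‖ ^ 2 + η ^ 2) -
      2 * ‖∑ k, conj (F y k) * fderiv ℂ (fun y => F y k) y v‖ ^ 2 /
        (∑ k, ‖F y k‖ ^ 2 + η ^ 2) ^ 2 := by
  unfold lapd
  rw [second hη hF, second hη hF]
  have e1 : ∑ k, ⟪F y k, fderiv ℂ (fun y => F y k) y v⟫_ℝ =
      (∑ k, conj (F y k) * fderiv ℂ (fun y => F y k) y v).re := by
    rw [re_sum]
    exact Finset.sum_congr rfl fun k _ => by rw [Complex.inner, mul_comm]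
  have e2 : ∑ k, ⟪F y k, fderiv ℂ (fun y => F y k) y (I • v)⟫_ℝ =
      -(∑ k, conj (F y k) * fderiv ℂ (fun y => F y k) y v).im := by
    rw [im_sum, ← Finset.sum_neg_distrib]
    refine Finset.sum_congr rfl fun k _ => ?_
    rw [Complex.inner, map_smul, smul_eq_mul, mul_assoc, I_mul_re, mul_comm]
  have e3 : ∑ k, (⟪F y k, fderiv ℂ (fderiv ℂ fun y => F y k) y (I • v) (I • v)⟫_ℝ +
        ‖fderiv ℂ (fun y => F y k) y (I • v)‖ ^ 2) =
      2 * (∑ k, ‖fderiv ℂ (fun y => F y k) y v‖ ^ 2) -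
      ∑ k, (⟪F y k, fderiv ℂ (fderiv ℂ fun y => F y k) y v v⟫_ℝ +
        ‖fderiv ℂ (fun y => F y k) y v‖ ^ 2) := by
    rw [Finset.mul_sum, ← Finset.sum_sub_distrib]
    refine Finset.sum_congr rfl fun k _ => ?_
    have : fderiv ℂ (fderiv ℂ fun y => F y k) y (I • v) (I • v) =
        -fderiv ℂ (fderiv ℂ fun y => F y k) y v v := by
      simp only [map_smul, smul_apply, smul_eq_mul, ← mul_assoc, I_mul_I,
        neg_one_mul]
    rw [this, inner_neg_right, map_smul, norm_smul, norm_I, one_mul]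
    ring
  rw [e1, e2, e3, Complex.sq_norm (∑ k, conj (F y k) * fderiv ℂ (fun y => F y k) y v), normSq_apply]
  ring

lemma par (a b : ℂ) : ‖a + I * b‖ ^ 2 + ‖a - I * b‖ ^ 2 = 2 * ‖a‖ ^ 2 + 2 * ‖b‖ ^ 2 := by
  simp only [Complex.sq_norm, normSq_apply, add_re, add_im, sub_re, sub_im, I_mul_re, I_mul_im]
  ring

lemma nonneg (hη : 0 < η) (hF : ∀ k, ContDiff ℂ 2 fun y => F y k) (y v : E) :
    0 ≤ lapd (Ul F η) y v := by
  rw [levi hη hF]
  have hρ := rho_pos hη F y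
  have h1 : ‖∑ k, conj (F y k) * fderiv ℂ (fun y => F y k) y v‖ ≤
      ∑ k, ‖F y k‖ * ‖fderiv ℂ (fun y => F y k) y v‖ :=
    (norm_sum_le _ _).trans (le_of_eq (Finset.sum_congr rfl fun k _ => by simp))
  have h2 := (pow_le_pow_left₀ (norm_nonneg _) h1 2).trans (Finset.sum_mul_sq_le_sq_mul_sq _ _ _)
  have h3 : 0 ≤ ∑ k, ‖fderiv ℂ (fun y => F y k) y v‖ ^ 2 := by positivity
  rw [sub_nonneg, div_le_div_iff₀ (by positivity) hρ]
  have h4 : ‖∑ k, conj (F y k) * fderiv ℂ (fun y => F y k) y v‖ ^ 2 ≤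
      (∑ k, ‖F y k‖ ^ 2 + η ^ 2) * ∑ k, ‖fderiv ℂ (fun y => F y k) y v‖ ^ 2 :=
    h2.trans (mul_le_mul_of_nonneg_right (le_add_of_nonneg_right (sq_nonneg η)) h3)
  nlinarith [mul_le_mul_of_nonneg_right h4 hρ.le]

lemma parall (hη : 0 < η) (hF : ∀ k, ContDiff ℂ 2 fun y => F y k) (y v w : E) :
    lapd (Ul F η) y (v + I • w) + lapd (Ul F η) y (v - I • w) =
      2 * lapd (Ul F η) y v + 2 * lapd (Ul F η) y w := by
  simp only [levi hη hF, map_add, map_sub, map_smul, smul_eq_mul, mul_add, mul_sub,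
    Finset.sum_add_distrib, Finset.sum_sub_distrib, mul_left_comm _ I, ← Finset.mul_sum]
  have e1 : ∑ k, ‖fderiv ℂ (fun y => F y k) y v + I * fderiv ℂ (fun y => F y k) y w‖ ^ 2 =
      2 * ∑ k, ‖fderiv ℂ (fun y => F y k) y v‖ ^ 2 + 2 * ∑ k, ‖fderiv ℂ (fun y => F y k) y w‖ ^ 2 -
      ∑ k, ‖fderiv ℂ (fun y => F y k) y v - I * fderiv ℂ (fun y => F y k) y w‖ ^ 2 := by
    rw [Finset.mul_sum, Finset.mul_sum, ← Finset.sum_add_distrib, ← Finset.sum_sub_distrib]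
    exact Finset.sum_congr rfl fun k _ => eq_sub_of_add_eq (par _ _)
  rw [e1, eq_sub_of_add_eq (par (∑ k, conj (F y k) * fderiv ℂ (fun y => F y k) y v)
    (∑ k, conj (F y k) * fderiv ℂ (fun y => F y k) y w))]
  ring

end Lap

theorem lap : LapStmt := by
  intro E _ _ _ _ η hη
  refine ⟨fun ι _ F hF => ?_, fun f hf => ?_⟩
  · have h : ∀ k, ContDiff ℂ 2 fun y => F y k := contDiff_pi.1 hF
    exact ⟨Lap.smooth hη h, Lap.nonneg hη h, Lap.parall hη h⟩
  · have e : U1 f η = Ul (fun y (_ : Unit) => f y) η := by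
      funext y
      simp [U1, Ul]
    have h : ∀ k : Unit, ContDiff ℂ 2 fun y => (fun y (_ : Unit) => f y) y k := fun _ => hf
    rw [e]
    refine ⟨Lap.smooth hη h, fun y v => ?_, fun y v => ?_⟩
    · rw [Lap.first hη h]
      simp only [Finset.univ_unique, Finset.sum_singleton]
      rw [Complex.inner, mul_comm]
    · rw [Lap.levi hη h]
      simp only [Finset.univ_unique, Finset.sum_singleton, norm_mul, RCLike.norm_conj, wt]
      have : ‖f y‖ ^ 2 + η ^ 2 ≠ 0 := by positivity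
      field_simp
      ring

end

end Pool.Agent.LinN2
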