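import Pool.Agent.Lib.MP_8465a2_an.N2.Levi2

/-!
Lower bound for the averaged Levi form at a tube point (MP_8465a2_an).
-/

namespace Pool.Agent.LinN2

open MeasureTheory Metric Set Filter Topology Complex
open scoped ENNReal ComplexConjugate

noncomputable section

variable {n : ℕ}

namespace Levi

/-- a point of the span of the axis and a real transversal vector where `g` is large -/
lemma exists_point (h1 : CKStmt n) : ∃ Kc : ℝ, 1 ≤ Kc ∧ ∀ (g : Cn n → Cn n) (x : Rn n) (r : ℝ)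
    (u1 u2 V : Rn n), Adm g → NZ g → 0 < r → ON u1 u2 → zc u1 u2 (cx V) ≠ 0 →
    ∃ t : Cn n, ‖t‖ ≤ Kc * r ∧ SS g (cx x) r / 3 ≤ ‖g (cx x + t)‖ ∧
      zc u1 u2 (t - (zc u1 u2 t / zc u1 u2 (cx V)) • cx V) = 0 ∧
      wc u1 u2 (t - (zc u1 u2 t / zc u1 u2 (cx V)) • cx V) = 0 := by
  obtain ⟨Kc, hK, h⟩ := h1
  refine ⟨Kc, hK, fun g x r u1 u2 V hg h0 hr hu hz => ?_⟩
  have hS := SS_pos hg.differentiable h0 (cx x) hr
  have hl : 0 < ‖zc u1 u2 (cx V)‖ := norm_pos_iff.2 hz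
  have hsq : ‖zc u1 u2 (cx V)‖ ^ 2 = (u1 ⬝ᵥ V) ^ 2 + (u2 ⬝ᵥ V) ^ 2 := by
    rw [zc_cx, Complex.sq_norm, normSq_apply]; simp; ring
  set l := ‖zc u1 u2 (cx V)‖ with hldef
  have hν : (l⁻¹ • ((u2 ⬝ᵥ V) • u1 - (u1 ⬝ᵥ V) • u2)) ⬝ᵥ
      (l⁻¹ • ((u2 ⬝ᵥ V) • u1 - (u1 ⬝ᵥ V) • u2)) = 1 := by
    simp only [smul_dotProduct, dotProduct_smul, sub_dotProduct, dotProduct_sub, hu.1, hu.2.1,
      hu.2.2, dotProduct_comm u2 u1, smul_eq_mul]
    field_simp
    linarith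
  by_contra hc
  have hb := h g (cx x) _ r (SS g (cx x) r / 3) hg hν hr (fun t ht hn => by
    by_contra hlt
    refine hc ⟨t, hn, (not_le.1 hlt).le, ?_, ?_⟩
    · rw [zc_sub, zc_smul, div_mul_cancel₀ _ hz, sub_self]
    · have e : ((u2 ⬝ᵥ V : ℝ) : ℂ) * (cx u1 ⬝ᵥ t) - ((u1 ⬝ᵥ V : ℝ) : ℂ) * (cx u2 ⬝ᵥ t) = 0 := by
        simp only [cx_smul, cx_sub, smul_dotProduct, sub_dotProduct, smul_eq_mul] at ht
        exact (mul_eq_zero.1 ht).resolve_left (by exact_mod_cast (inv_pos.2 hl).ne')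
      rw [wc_sub, wc_smul, sub_eq_zero, div_mul_eq_mul_div, eq_div_iff hz, zc_cx, wc_cx]
      simp only [zc, wc, add_dotProduct, sub_dotProduct, smul_dotProduct, smul_eq_mul]
      linear_combination (2 * I) * e)
  have := SS_le (g := g) (x := cx x) (r := r) (by positivity) hb
  linarith

lemma lapd_smul (U : Cn n → ℝ) (y v : Cn n) (t : ℝ) :
    lapd U y ((t : ℂ) • v) = t ^ 2 * lapd U y v := by
  unfold lapd
  rw [smul_comm I, Complex.coe_smul, Complex.coe_smul, dd_smul, dd_smul]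
  ring

/-- the bound for real directions -/
lemma key (hn : 3 ≤ n) (h1 : CKStmt n) (h2 : LapStmt) (h3 : SubStmt) {C0 Λ : ℝ} (hC0 : 1 ≤ C0)
    (hΛ : 0 ≤ Λ) : ∃ K1 K2 : ℝ, 1 ≤ K1 ∧ 0 < K2 ∧ ∀ (g : Cn n → Cn n) (x : Rn n) (r μ B T R : ℝ)
    (u1 u2 V : Rn n), Adm g → NZ g → 0 < r → 1 / 2 ≤ μ → K1 ≤ B →
    TubeAx g x r μ (C0 * μ) B u1 u2 → 0 < T → T ≤ SS g (cx x) r * Real.exp (-(B * μ)) →
    K1 * r ≤ R → ‖V‖ ≤ Λ * ‖zc u1 u2 (cx V)‖ →
    μ * r ^ (2 * n - 2) * ‖zc u1 u2 (cx V)‖ ^ 2 ≤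
      K2 * ∫ v in closedBall (0 : Cn n) R, lapd (Ul g T) (cx x + v) (cx V) := by
  obtain ⟨Kc, hKc, hp⟩ := exists_point h1
  obtain ⟨C, hC, hcore⟩ := core (n := n) h2
  have hn' : (3 : ℝ) ≤ n := by exact_mod_cast hn
  obtain ⟨l, hl⟩ : ∃ l : ℝ, l = n * Kc := ⟨_, rfl⟩
  have hl1 : 1 ≤ l := by rw [hl]; nlinarith
  obtain ⟨l', hl'⟩ : ∃ l' : ℝ, l' = n + 4 * l := ⟨_, rfl⟩
  have hl1' : 1 ≤ l' := by rw [hl']; linarith
  have g1 := Real.log_nonneg hl1'
  have g2 := Real.log_nonneg (show (1 : ℝ) ≤ n + 1 by linarith)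
  have g3 := Real.log_nonneg (show (1 : ℝ) ≤ 3 by norm_num)
  obtain ⟨C2, hC2⟩ : ∃ C2 : ℝ, C2 = C0 + Real.log l' + Real.log (n + 1) + 2 * Real.log 3 :=
    ⟨_, rfl⟩
  have hC2' : 0 ≤ C2 := by rw [hC2]; linarith
  obtain ⟨A, hA⟩ : ∃ A : ℝ, A = C * C2 + 1 := ⟨_, rfl⟩
  have hA1 : 1 ≤ A := by rw [hA]; nlinarith
  obtain ⟨ρ, hρ⟩ : ∃ ρ : ℝ, ρ = Real.exp (-A) := ⟨_, rfl⟩
  have ρ0 : 0 < ρ := hρ ▸ Real.exp_pos _
  have ρ1 : ρ ≤ 1 := hρ ▸ Real.exp_le_one_iff.2 (by linarith)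
  have lρ : Real.log ρ = -A := by rw [hρ, Real.log_exp]
  obtain ⟨c, hc⟩ : ∃ c : ℝ, c = volume.real (closedBall (0 : Cn n) 1) := ⟨_, rfl⟩
  have c0 : 0 < c := by
    rw [hc]
    exact ENNReal.toReal_pos (measure_closedBall_pos volume _ one_pos).ne'
      (isCompact_closedBall _ _).measure_lt_top.ne
  have hΛl : 0 ≤ Λ * l := by positivity
  refine ⟨A + (Kc + 1 + 5 * (Λ * l)), (2 + A) * (4 * Real.pi) * l ^ 2 / (ρ ^ (2 * n) * c),
    by linarith, by positivity,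
    fun g x r μ B T R u1 u2 V hg h0 hr hμ hB ht hT hTS hR hV => ?_⟩
  obtain ⟨hU, hU0, -⟩ := (h2 (Cn n) T hT).1 (Fin n) g (hg.contDiff 2)
  have Q0 : 0 ≤ ∫ v in closedBall (0 : Cn n) R, lapd (Ul g T) (cx x + v) (cx V) :=
    integral_nonneg fun _ => hU0 _ _
  rcases eq_or_ne (zc u1 u2 (cx V)) 0 with hz | hz
  · rw [hz, norm_zero]
    have : 0 ≤ (2 + A) * (4 * Real.pi) * l ^ 2 / (ρ ^ (2 * n) * c) := by positivity
    simpa using mul_nonneg this Q0
  have z0 : 0 < ‖zc u1 u2 (cx V)‖ := norm_pos_iff.2 hz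
  obtain ⟨τ, hτ⟩ : ∃ τ : ℝ, τ = l * r / ‖zc u1 u2 (cx V)‖ := ⟨_, rfl⟩
  have τ0 : 0 < τ := by rw [hτ]; positivity
  have τ1 : τ * ‖zc u1 u2 (cx V)‖ = l * r := by rw [hτ]; field_simp
  have zV : ‖zc u1 u2 (cx (τ • V))‖ = l * r := by
    rw [cx_smul, zc_smul, norm_mul, Complex.norm_real, Real.norm_of_nonneg τ0.le, τ1]
  have wV : ‖wc u1 u2 (cx (τ • V))‖ = l * r := by
    rw [← zV, ← star_cx (τ • V), wc_star, norm_conj, star_cx]
  have nV : ‖cx (τ • V)‖ ≤ Λ * l * r := by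
    rw [norm_cx, norm_smul, Real.norm_of_nonneg τ0.le, mul_assoc, ← τ1]
    nlinarith
  have hz' : zc u1 u2 (cx (τ • V)) ≠ 0 := by
    rw [← norm_pos_iff, zV]; positivity
  obtain ⟨t, t1, t2, t3, t4⟩ := hp g x r u1 u2 (τ • V) hg h0 hr ht.1 hz'
  have hS := SS_pos hg.differentiable h0 (cx x) hr
  set S := SS g (cx x) r with hSdef
  set V' := cx (τ • V) with hV'
  set s0 := zc u1 u2 t / zc u1 u2 V' with hs0
  have s1 : ‖s0‖ ≤ 1 := by
    rw [hs0, norm_div, zV, div_le_one (by positivity), hl, mul_assoc]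
    exact (ht.1.norm_zc t).trans (by gcongr)
  set a := t - s0 • V' with ha
  have na : ‖a‖ ≤ Kc * r + Λ * l * r := by
    refine (norm_sub_le _ _).trans (add_le_add t1 ?_)
    rw [norm_smul]
    nlinarith [norm_nonneg V']
  have μ0 : 0 < μ := by linarith
  have hAB : A ≤ B := by linarith
  have tube : ∀ σ : ℝ, ρ ≤ σ → σ ≤ 1 → ∀ (v : Cn n) (s : ℂ), ‖v‖ ≤ ρ * r → ‖s‖ ≤ 4 * σ →
      Ul g T (cx x + a + v + s • V') ≤ Real.log S + C0 * μ + μ * Real.log l' +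
        Real.log (n + 1) / 2 + μ * Real.log σ := by
    intro σ hσ hσ1 v s hv hs
    have σ0 : 0 < σ := ρ0.trans_le hσ
    have e : cx x + a + v + s • V' - cx x = a + v + s • V' := by abel
    have hv' : ‖v‖ ≤ σ * r := hv.trans (by gcongr)
    have hd : ‖cx x + a + v + s • V' - cx x‖ ≤ r * Real.exp B := by
      rw [e]
      have b1 : ‖s • V'‖ ≤ 4 * (Λ * l * r) := by
        rw [norm_smul]
        exact mul_le_mul (by linarith) nV (norm_nonneg _) (by norm_num)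
      have b2 := norm_add₃_le (a := a) (b := v) (c := s • V')
      have b3 : (Kc + 1 + 5 * (Λ * l)) * r ≤ Real.exp B * r :=
        mul_le_mul_of_nonneg_right (by linarith [Real.add_one_le_exp B]) hr.le
      nlinarith
    have hm : ∀ p q : ℂ, ‖p‖ ≤ n * ‖v‖ → ‖q‖ = l * r → ‖0 + p + s * q‖ ≤ l' * σ * r := by
      intro p q hp hq
      rw [zero_add]
      refine (norm_add_le _ _).trans ?_
      rw [norm_mul, hq, hl']
      have b1 : n * ‖v‖ ≤ n * (σ * r) := by gcongr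
      have b2 : ‖s‖ * (l * r) ≤ 4 * σ * (l * r) := by gcongr
      nlinarith
    have heB : Real.exp (-B) ≤ l' * σ := by
      have : Real.exp (-B) ≤ ρ := hρ ▸ Real.exp_le_exp.2 (by linarith)
      nlinarith
    have hb := ht.2 _ hd
    rw [e, zc_add, zc_add, wc_add, wc_add, t3, t4, zc_smul, wc_smul] at hb
    have hb2 : ‖g (cx x + a + v + s • V')‖ ≤ S * Real.exp (C0 * μ) * (l' * σ) ^ μ := by
      refine hb.trans ?_
      gcongr
      refine max_le ?_ heB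
      rw [div_le_iff₀ hr]
      exact max_le (hm _ _ (ht.1.norm_zc v) zV) (hm _ _ (ht.1.norm_wc v) wV)
    have hT2 : T ≤ S * Real.exp (C0 * μ) * (l' * σ) ^ μ := by
      refine hTS.trans ?_
      rw [mul_assoc, ← neg_mul, Real.exp_mul]
      gcongr
      calc Real.exp (-B) ^ μ ≤ (l' * σ) ^ μ := by gcongr
        _ ≤ _ := le_mul_of_one_le_left (by positivity) (Real.one_le_exp (by positivity))
    have := Ul_le hT hT2 hb2
    rw [Real.log_mul (by positivity) (by positivity), Real.log_mul hS.ne' (by positivity),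
      Real.log_exp, Real.log_rpow (by positivity), Real.log_mul (by positivity) σ0.ne'] at this
    linarith
  have circ : ∀ (E : Type) [NormedAddCommGroup E] [NormedSpace ℂ E] (R : ℝ) (t : ℝ),
      ∀ v ∈ closedBall (0 : E) R, Complex.exp (t * I) • v ∈ closedBall (0 : E) R := by
    intro E _ _ R t v hv
    rwa [mem_closedBall_zero_iff, norm_smul, norm_exp_ofReal_mul_I, one_mul,
      ← mem_closedBall_zero_iff]
  have main := hcore ρ ρ0 ρ1 (Ul g T) (cx x) (cx x + a) V' s0 (ρ * r) R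
    (Real.log S + C0 * μ + μ * Real.log l' + Real.log (n + 1) / 2) (μ * A) hU (fun y => hU0 y _)
    (by positivity) s1 (by
      rw [add_sub_cancel_left]
      have b3 : (Kc + 1 + 5 * (Λ * l)) * r ≤ (A + (Kc + 1 + 5 * (Λ * l))) * r :=
        mul_le_mul_of_nonneg_right (by linarith) hr.le
      nlinarith [mul_nonneg hΛl hr.le])
    (fun y => by
      have := (h3 ℂ volume T hT (closedBall 0 3) measurableSet_closedBall isBounded_closedBall
        (circ ℂ 3) 0).1 (Fin n) (fun s => g (y + s • V'))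
        (hg.differentiable.comp (by fun_prop))
      simpa [Ul] using this)
    (fun y => (h3 (Cn n) volume T hT (closedBall 0 (ρ * r)) measurableSet_closedBall
      isBounded_closedBall (circ (Cn n) _) y).1 (Fin n) g hg.differentiable)
    (fun v s hv hs => by simpa using tube 1 ρ1 le_rfl v s hv (by linarith))
    (fun v s hv hs => by
      have := tube ρ le_rfl ρ1 v s hv (by linarith)
      rw [lρ] at this
      linarith)
  have low : Real.log (S / 3) ≤ Ul g T (cx x + a + s0 • V') :=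
    le_Ul (by positivity) (by rwa [ha, add_assoc, sub_add_cancel])
  rw [Real.log_div hS.ne' (by norm_num)] at low
  have gap : μ ≤ μ * A - C * (Real.log S + C0 * μ + μ * Real.log l' + Real.log (n + 1) / 2 -
      Ul g T (cx x + a + s0 • V')) := by
    have : Real.log S + C0 * μ + μ * Real.log l' + Real.log (n + 1) / 2 -
        Ul g T (cx x + a + s0 • V') ≤ μ * C2 := by
      rw [hC2]
      nlinarith
    have := mul_le_mul_of_nonneg_left this hC
    rw [hA]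
    linarith
  have vol : volume.real (closedBall (0 : Cn n) (ρ * r)) = (ρ * r) ^ (2 * n) * c := by
    rw [Measure.addHaar_real_closedBall' volume _ (by positivity), hc]
    simp [Module.finrank_pi_fintype, mul_comm]
  rw [vol, lρ, hV', cx_smul] at main
  simp only [lapd_smul] at main
  rw [integral_const_mul] at main
  have fin := (mul_le_mul_of_nonneg_left (by simpa only [hV', cx_smul] using gap)
    (show 0 ≤ (ρ * r) ^ (2 * n) * c by positivity)).trans main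
  have er : r ^ (2 * n) = r ^ (2 * n - 2) * r ^ 2 := by
    rw [← pow_add]; congr 1; omega
  rw [div_mul_eq_mul_div, le_div_iff₀ (by positivity)]
  have r2 : 0 < r ^ 2 := by positivity
  refine le_of_mul_le_mul_left ?_ r2
  have e2 : r ^ 2 * l ^ 2 = τ ^ 2 * ‖zc u1 u2 (cx V)‖ ^ 2 := by
    rw [← mul_pow, ← mul_pow, τ1, mul_comm]
  rw [mul_pow, er] at fin
  calc r ^ 2 * (μ * r ^ (2 * n - 2) * ‖zc u1 u2 (cx V)‖ ^ 2 * (ρ ^ (2 * n) * c))
      = ‖zc u1 u2 (cx V)‖ ^ 2 * (ρ ^ (2 * n) * (r ^ (2 * n - 2) * r ^ 2) * c * μ) := by ring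
    _ ≤ ‖zc u1 u2 (cx V)‖ ^ 2 * ((2 - -A) * (4 * Real.pi * (τ ^ 2 *
        ∫ v in closedBall (0 : Cn n) R, lapd (Ul g T) (cx x + v) (cx V)))) := by gcongr
    _ = (2 + A) * (4 * Real.pi) * (τ ^ 2 * ‖zc u1 u2 (cx V)‖ ^ 2) *
        ∫ v in closedBall (0 : Cn n) R, lapd (Ul g T) (cx x + v) (cx V) := by ring
    _ = _ := by rw [← e2]; ring

/-- transversality of the plane -/
lemma norm_le_zc {u1 u2 : Rn n} {e : Dir n} {α : ℝ} (hu : ON u1 u2) (he : e ∈ Ebox n)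
    (hα : α ≤ |dt u1 u2 e|) (a : ℝ × ℝ) : α * ‖a‖ ≤ 2 * n * ‖zc u1 u2 (cx (plr e a))‖ := by
  have hz : ∀ f : Rn n, ‖f‖ ≤ 9 / 8 → ‖zc u1 u2 (cx f)‖ ≤ 2 * n := fun f hf => by
    have := hu.norm_zc (cx f)
    rw [norm_cx] at this
    nlinarith [Nat.cast_nonneg (α := ℝ) n]
  have key : ∀ (f : Rn n) (b : ℝ), ‖f‖ ≤ 9 / 8 →
      |(conj (zc u1 u2 (cx (plr e a))) * zc u1 u2 (cx f)).im| = |dt u1 u2 e| * |b| →
      α * |b| ≤ 2 * n * ‖zc u1 u2 (cx (plr e a))‖ := fun f b hf h => by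
    have h1 := abs_im_le_norm (conj (zc u1 u2 (cx (plr e a))) * zc u1 u2 (cx f))
    rw [h, norm_mul, norm_conj] at h1
    have h2 := mul_le_mul_of_nonneg_right hα (abs_nonneg b)
    have h3 := mul_le_mul_of_nonneg_left (hz f hf) (norm_nonneg (zc u1 u2 (cx (plr e a))))
    linarith
  rw [Prod.norm_def]
  rcases le_total ‖a.1‖ ‖a.2‖ with h | h
  · rw [max_eq_right h]
    refine key e.1 a.2 (Ebox_norm he).1 ?_
    rw [← abs_mul, ← abs_neg, zc_cx, zc_cx]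
    congr 1
    simp [plr, dt, dotProduct_comm]
    ring
  · rw [max_eq_left h]
    refine key e.2 a.1 (Ebox_norm he).2 ?_
    rw [← abs_mul, zc_cx, zc_cx]
    congr 1
    simp [plr, dt, dotProduct_comm]
    ring

end Levi

open Levi in
theorem levi (hn : 3 ≤ n) (h1 : CKStmt n) (h2 : LapStmt) (h3 : SubStmt) : LeviStmt n := by
  intro C0 α hC0 hα
  have hn' : (3 : ℝ) ≤ n := by exact_mod_cast hn
  obtain ⟨K1, K2, k1, k2, h⟩ := key hn h1 h2 h3 hC0 (Λ := 9 / 4 * (2 * n / α)) (by positivity)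
  refine ⟨max K1 (2 * (2 * n / α) ^ 2 * K2), le_max_of_le_left k1,
    fun g x r μ B T u1 u2 e hg h0 hr hμ hB ht hT hTS he hd W => ?_⟩
  set K := max K1 (2 * (2 * n / α) ^ 2 * K2) with hK
  obtain ⟨hU, hU0, hpar⟩ := (h2 (Cn n) T hT).1 (Fin n) g (hg.contDiff 2)
  have tr : ∀ a, ‖a‖ ≤ 2 * n / α * ‖zc u1 u2 (cx (plr e a))‖ := fun a => by
    rw [div_mul_eq_mul_div, le_div_iff₀ hα, mul_comm]
    exact norm_le_zc ht.1 he hd a
  have real : ∀ a, μ * r ^ (2 * n - 2) * ‖a‖ ^ 2 ≤ (2 * n / α) ^ 2 * (K2 *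
      ∫ v in closedBall (0 : Cn n) (K * r), lapd (Ul g T) (cx x + v) (cx (plr e a))) := by
    intro a
    have := h g x r μ B T (K * r) u1 u2 (plr e a) hg h0 hr hμ ((le_max_left _ _).trans hB) ht hT
      hTS (by gcongr; exact le_max_left _ _) ((norm_plr_le he a).trans (by
        rw [mul_assoc]; gcongr; exact tr a))
    calc μ * r ^ (2 * n - 2) * ‖a‖ ^ 2
        ≤ μ * r ^ (2 * n - 2) * (2 * n / α * ‖zc u1 u2 (cx (plr e a))‖) ^ 2 := by
          gcongr; exact tr a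
      _ = (2 * n / α) ^ 2 * (μ * r ^ (2 * n - 2) * ‖zc u1 u2 (cx (plr e a))‖ ^ 2) := by ring
      _ ≤ _ := by gcongr
  have cl : ∀ V, IntegrableOn (fun v : Cn n => lapd (Ul g T) (cx x + v) V)
      (closedBall (0 : Cn n) (K * r)) := fun V =>
    intOn (continuous_lapd hU (by fun_prop) continuous_const) isBounded_closedBall
  have hs : ∀ y, Ul g T (star y) = Ul g T y := fun y => by simp [Ul, hg.real]
  have eW : pl e W = cx (plr e (r2 W)) + I • cx (plr e (i2 W)) := by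
    rw [← pl_c2, ← pl_c2, ← pl_smul, ← pl_add, r2_add_i2]
  have eS : star (pl e W) = cx (plr e (r2 W)) - I • cx (plr e (i2 W)) := by
    rw [eW, star_add, star_smul, star_cx, star_cx]
    simp [sub_eq_add_neg]
  have split : 2 * ∫ v in closedBall (0 : Cn n) (K * r), lapd (Ul g T) (cx x + v) (pl e W) =
      2 * (∫ v in closedBall (0 : Cn n) (K * r), lapd (Ul g T) (cx x + v) (cx (plr e (r2 W)))) +
      2 * ∫ v in closedBall (0 : Cn n) (K * r), lapd (Ul g T) (cx x + v) (cx (plr e (i2 W))) := by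
    rw [two_mul]
    nth_rewrite 2 [← star_int hU hs x (K * r) (pl e W)]
    rw [← integral_add (cl _) (cl _), eS, eW, ← integral_const_mul, ← integral_const_mul,
      ← integral_add ((cl _).const_mul _) ((cl _).const_mul _)]
    simp only [hpar]
  have nW : ‖W‖ ^ 2 ≤ 2 * ‖r2 W‖ ^ 2 + 2 * ‖i2 W‖ ^ 2 := by
    have : ‖W‖ ≤ ‖r2 W‖ + ‖i2 W‖ := by
      have := norm_add_le (c2 (r2 W)) (I • c2 (i2 W))
      rwa [r2_add_i2, norm_smul, norm_I, one_mul, norm_c2, norm_c2] at this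
    nlinarith [norm_nonneg W, sq_nonneg (‖r2 W‖ - ‖i2 W‖)]
  have Q0 : 0 ≤ ∫ v in closedBall (0 : Cn n) (K * r), lapd (Ul g T) (cx x + v) (pl e W) :=
    integral_nonneg fun _ => hU0 _ _
  have a1 := real (r2 W)
  have a2 := real (i2 W)
  have a3 := mul_le_mul_of_nonneg_left nW (show 0 ≤ μ * r ^ (2 * n - 2) by positivity)
  have a4 := mul_le_mul_of_nonneg_right (le_max_right K1 (2 * (2 * n / α) ^ 2 * K2)) Q0
  have a5 := congrArg (fun z => (2 * n / α) ^ 2 * K2 * z) split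
  linarith

end

end Pool.Agent.LinN2
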