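import Pool.Agent.Lib.MP_8465a2_an.N2.BasicB

/-!
Second derivatives and a lower bound for the Riesz mass in the plane (MP_8465a2_an).
-/

namespace Pool.Agent.LinN2

open MeasureTheory Metric Set Filter Topology Complex
open scoped ENNReal ComplexConjugate

noncomputable section

namespace Levi

section Calc

variable {E : Type} [NormedAddCommGroup E] [NormedSpace ℝ E] {φ f g : E → ℝ}

lemma contDiff_dir (hφ : ContDiff ℝ 2 φ) (v : E) : ContDiff ℝ 1 (fun z => fderiv ℝ φ z v) :=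
  (hφ.fderiv_right (m := 1) le_rfl).clm_apply contDiff_const

lemma dd_eq (hφ : ContDiff ℝ 2 φ) (y v : E) :
    dd φ y v = fderiv ℝ (fun z => fderiv ℝ φ z v) y v := by
  have h : DifferentiableAt ℝ (fderiv ℝ φ) y :=
    ((hφ.fderiv_right (m := 1) le_rfl).differentiable one_ne_zero) y
  rw [fderiv_clm_apply h (differentiableAt_const v)]
  simp [dd]

lemma dd_smul (φ : E → ℝ) (y v : E) (t : ℝ) : dd φ y (t • v) = t ^ 2 * dd φ y v := by
  simp only [dd, map_smul, smul_apply, smul_eq_mul]; ring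

lemma dd_neg (φ : E → ℝ) (y v : E) : dd φ y (-v) = dd φ y v := by
  simp [dd]

lemma dd_congr {y : E} (h : f =ᶠ[𝓝 y] g) (v : E) : dd f y v = dd g y v := by
  unfold dd; rw [h.fderiv.fderiv_eq]

lemma dd_const (c : ℝ) (y v : E) : dd (fun _ => c) y v = 0 := by
  simp [dd]

lemma dd_sub_const (φ : E → ℝ) (c : ℝ) (y v : E) : dd (fun z => φ z - c) y v = dd φ y v := by
  unfold dd
  rw [show fderiv ℝ (fun z => φ z - c) = fderiv ℝ φ from funext fun z => fderiv_sub_const c]

lemma dd_const_sub (φ : E → ℝ) (c : ℝ) (y v : E) : dd (fun z => c - φ z) y v = -dd φ y v := by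
  unfold dd
  rw [show fderiv ℝ (fun z => c - φ z) = -fderiv ℝ φ from funext fun z => fderiv_const_sub c,
    fderiv_neg]
  rfl

lemma fderiv_aff {F : Type} [NormedAddCommGroup F] [NormedSpace ℝ F] (hφ : Differentiable ℝ φ)
    (y0 : E) (L : F →L[ℝ] E) (s w : F) :
    fderiv ℝ (fun s => φ (y0 + L s)) s w = fderiv ℝ φ (y0 + L s) (L w) := by
  have h : HasFDerivAt (fun s => φ (y0 + L s)) ((fderiv ℝ φ (y0 + L s)).comp L) s :=
    (hφ _).hasFDerivAt.comp s (L.hasFDerivAt.const_add y0)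
  rw [h.fderiv]; rfl

lemma dd_comp {F : Type} [NormedAddCommGroup F] [NormedSpace ℝ F] (hφ : ContDiff ℝ 2 φ)
    (y0 : E) (L : F →L[ℝ] E) (s w : F) :
    dd (fun s => φ (y0 + L s)) s w = dd φ (y0 + L s) (L w) := by
  have hc : ContDiff ℝ 2 (fun s => φ (y0 + L s)) := hφ.comp (contDiff_const.add L.contDiff)
  rw [dd_eq hc, dd_eq hφ, show (fun z => fderiv ℝ (fun s => φ (y0 + L s)) z w) =
    fun z => (fun y => fderiv ℝ φ y (L w)) (y0 + L z) from
      funext fun z => fderiv_aff (hφ.differentiable two_ne_zero) y0 L z w]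
  exact fderiv_aff ((contDiff_dir hφ (L w)).differentiable one_ne_zero) y0 L s w

lemma fderiv_mul_dir {y : E} (hf : DifferentiableAt ℝ f y) (hg : DifferentiableAt ℝ g y) (v : E) :
    fderiv ℝ (fun z => f z * g z) y v = f y * fderiv ℝ g y v + g y * fderiv ℝ f y v := by
  rw [fderiv_fun_mul hf hg]; simp

lemma dd_mul (hf : ContDiff ℝ 2 f) (hg : ContDiff ℝ 2 g) (y v : E) :
    dd (fun z => f z * g z) y v =
      f y * dd g y v + 2 * (fderiv ℝ f y v * fderiv ℝ g y v) + g y * dd f y v := by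
  have df := hf.differentiable two_ne_zero
  have dg := hg.differentiable two_ne_zero
  have df' := (contDiff_dir hf v).differentiable one_ne_zero
  have dg' := (contDiff_dir hg v).differentiable one_ne_zero
  rw [dd_eq (hf.mul hg), dd_eq hf, dd_eq hg,
    show (fun z => fderiv ℝ (fun z => f z * g z) z v) =
      fun z => f z * fderiv ℝ g z v + g z * fderiv ℝ f z v from
      funext fun z => fderiv_mul_dir (df z) (dg z) v,
    fderiv_fun_add ((df y).fun_mul (dg' y)) ((dg y).fun_mul (df' y)), add_apply,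
    fderiv_mul_dir (df y) (dg' y), fderiv_mul_dir (dg y) (df' y)]
  ring

lemma continuous_dd (hφ : ContDiff ℝ 2 φ) (v : E) : Continuous fun y => dd φ y v := by
  simp_rw [dd_eq hφ]
  exact ((contDiff_dir hφ v).continuous_fderiv one_ne_zero).clm_apply continuous_const

end Calc

lemma int_fderiv_zero {F : ℂ → ℝ} (hF : ContDiff ℝ 1 F) (hc : HasCompactSupport F) (v : ℂ) :
    ∫ y, fderiv ℝ F y v = 0 := by
  have h1 : Integrable (fun y => fderiv ℝ F y v) :=
    ((hF.continuous_fderiv one_ne_zero).clm_apply continuous_const).integrable_of_hasCompactSupport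
      (hc.fderiv_apply ℝ v)
  have := integral_mul_fderiv_eq_neg_fderiv_mul_of_integrable (μ := volume) (f := fun _ => (1 : ℝ))
    (g := F) (v := v) (by simp) (by simpa using h1)
    (by simpa using hF.continuous.integrable_of_hasCompactSupport hc)
    (fun _ _ => differentiableAt_const _) (fun y _ => hF.differentiable one_ne_zero y)
  simpa using this

lemma green1 {k u : ℂ → ℝ} (hk : ContDiff ℝ 2 k) (hu : ContDiff ℝ 2 u) (hc : HasCompactSupport k)
    (v : ℂ) : ∫ y, (k y * dd u y v - u y * dd k y v) = 0 := by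
  have dk := hk.differentiable two_ne_zero
  have du := hu.differentiable two_ne_zero
  have dk' := (contDiff_dir hk v).differentiable one_ne_zero
  have du' := (contDiff_dir hu v).differentiable one_ne_zero
  have := int_fderiv_zero (F := fun y => k y * fderiv ℝ u y v - u y * fderiv ℝ k y v)
    (((hk.of_le one_le_two).mul (contDiff_dir hu v)).sub
      ((hu.of_le one_le_two).mul (contDiff_dir hk v)))
    (hc.mul_right.sub (hc.fderiv_apply ℝ v).mul_left) v
  rw [← this]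
  congr 1
  ext y
  rw [fderiv_fun_sub ((dk y).fun_mul (du' y)) ((du y).fun_mul (dk' y)), sub_apply,
    fderiv_mul_dir (dk y) (du' y), fderiv_mul_dir (du y) (dk' y), dd_eq hu, dd_eq hk]
  ring

lemma vol_disc {r : ℝ} (hr : 0 ≤ r) (z : ℂ) : volume.real (closedBall z r) = Real.pi * r ^ 2 := by
  rw [measureReal_def, Complex.volume_closedBall]
  simp [ENNReal.toReal_ofReal hr, mul_comm]

/-- a test function whose Laplacian is very negative near the origin -/
lemma exists_test (h2 : LapStmt) : ∃ C : ℝ, 0 ≤ C ∧ ∀ ρ : ℝ, 0 < ρ → ρ ≤ 1 → ∃ k : ℂ → ℝ,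
    ContDiff ℝ 2 k ∧ (∀ s, 2 ≤ ‖s‖ → k s = 0) ∧ (∀ s, ‖s‖ ≤ 2 → k s ≤ 2 - Real.log ρ) ∧
    (∀ s, ‖s‖ ≤ 2 → lapd k s 1 ≤ C) ∧ ∀ s, ‖s‖ ≤ ρ → lapd k s 1 ≤ -(1 / (2 * ρ ^ 2)) := by
  obtain ⟨ψ, K, hψ, p0, p1, pone, pzero, k1, k2⟩ := exists_bump (E := ℂ)
  have hK : 0 ≤ K := (norm_nonneg _).trans (k1 0)
  refine ⟨8 * K, by positivity, fun ρ hρ hρ1 => ?_⟩
  obtain ⟨hU, hU1, hU2⟩ := (h2 ℂ ρ hρ).2 id contDiff_id
  have hL : ContDiff ℝ 2 fun s => 2 - U1 (id : ℂ → ℂ) ρ s := contDiff_const.sub hU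
  have hlap : ∀ s, lapd (fun s => ψ s * (2 - U1 (id : ℂ → ℂ) ρ s)) s 1 =
      -(ψ s * (2 * wt ρ s)) - 2 * (fderiv ℝ ψ s 1 * fderiv ℝ (U1 (id : ℂ → ℂ) ρ) s 1 +
        fderiv ℝ ψ s I * fderiv ℝ (U1 (id : ℂ → ℂ) ρ) s I) +
        (2 - U1 (id : ℂ → ℂ) ρ s) * (dd ψ s 1 + dd ψ s I) := by
    intro s
    have := hU2 s 1
    simp only [lapd, smul_eq_mul, mul_one, fderiv_id, ContinuousLinearMap.id_apply, norm_one,
      one_pow, id_eq] at this ⊢
    rw [dd_mul hψ hL, dd_mul hψ hL, dd_const_sub, dd_const_sub, fderiv_const_sub, ← this]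
    simp only [neg_apply]
    ring
  have hin : ∀ s, ‖s‖ ≤ 1 → lapd (fun s => ψ s * (2 - U1 (id : ℂ → ℂ) ρ s)) s 1 =
      -(2 * wt ρ s) := by
    intro s hs
    have he : ψ =ᶠ[𝓝 s] fun _ => 1 := by
      filter_upwards [isOpen_ball.mem_nhds (show s ∈ ball (0 : ℂ) (3 / 2) by
        rw [mem_ball_zero_iff]; linarith)] with z hz
      exact pone z (mem_ball_zero_iff.1 hz).le
    rw [hlap, he.fderiv_eq, dd_congr he, dd_congr he, dd_const, dd_const, he.eq_of_nhds]
    simp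
  have hUle : ∀ s : ℂ, ‖s‖ ≤ 2 → U1 (id : ℂ → ℂ) ρ s ≤ 2 := by
    intro s hs
    have h1 := Real.log_le_sub_one_of_pos (show 0 < ‖s‖ ^ 2 + ρ ^ 2 by positivity)
    simp only [U1, id_eq]
    nlinarith [norm_nonneg s]
  refine ⟨fun s => ψ s * (2 - U1 (id : ℂ → ℂ) ρ s), hψ.mul hL, fun s hs => by simp [pzero s hs],
    fun s hs => ?_, fun s hs => ?_, fun s hs => ?_⟩
  · have h1 : Real.log ρ ≤ U1 (id : ℂ → ℂ) ρ s := by
      have := Real.log_le_log (show 0 < ρ ^ 2 by positivity)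
        (show ρ ^ 2 ≤ ‖s‖ ^ 2 + ρ ^ 2 by nlinarith [norm_nonneg s])
      rw [Real.log_pow] at this
      simp only [U1, id_eq]
      push_cast at this
      linarith
    have := hUle s hs
    nlinarith [p0 s, p1 s]
  · have hw := wt_nonneg ρ s
    rcases le_total ‖s‖ 1 with h1 | h1
    · rw [hin s h1]; linarith
    have hU0 : 0 ≤ U1 (id : ℂ → ℂ) ρ s := by
      have := Real.log_nonneg (show 1 ≤ ‖s‖ ^ 2 + ρ ^ 2 by nlinarith)
      simp only [U1, id_eq]
      linarith
    have dU : ∀ v : ℂ, ‖v‖ = 1 → |fderiv ℝ (U1 (id : ℂ → ℂ) ρ) s v| ≤ 1 := by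
      intro v hv
      rw [hU1, abs_div, abs_of_pos (show 0 < ‖id s‖ ^ 2 + ρ ^ 2 by positivity),
        div_le_one (by positivity)]
      refine (abs_re_le_norm _).trans ?_
      simp only [id_eq, fderiv_id, ContinuousLinearMap.id_apply, norm_mul, norm_conj, hv]
      nlinarith
    have dψ : ∀ v : ℂ, ‖v‖ = 1 → |fderiv ℝ ψ s v| ≤ K := by
      intro v hv
      have := (fderiv ℝ ψ s).le_of_opNorm_le (k1 s) v
      rwa [hv, mul_one] at this
    have pr : ∀ v : ℂ, ‖v‖ = 1 → -K ≤ fderiv ℝ ψ s v * fderiv ℝ (U1 (id : ℂ → ℂ) ρ) s v := by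
      intro v hv
      have : |fderiv ℝ ψ s v * fderiv ℝ (U1 (id : ℂ → ℂ) ρ) s v| ≤ K * 1 := by
        rw [abs_mul]; exact mul_le_mul (dψ v hv) (dU v hv) (abs_nonneg _) hK
      linarith [(abs_le.1 this).1]
    have d1 := (abs_le.1 (k2 s 1)).2
    have d2 := (abs_le.1 (k2 s I)).2
    simp only [norm_one, norm_I, one_pow, mul_one] at d1 d2
    have h3 : (2 - U1 (id : ℂ → ℂ) ρ s) * (dd ψ s 1 + dd ψ s I) ≤
        (2 - U1 (id : ℂ → ℂ) ρ s) * (2 * K) :=
      mul_le_mul_of_nonneg_left (by linarith) (by linarith [hUle s hs])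
    rw [hlap]
    nlinarith [pr 1 norm_one, pr I norm_I, mul_nonneg (p0 s) hw]
  · rw [hin s (hs.trans hρ1), neg_le_neg_iff, wt, mul_div_assoc', div_le_div_iff₀ (by positivity)
      (by positivity)]
    have h1 : ‖s‖ ^ 2 + ρ ^ 2 ≤ 2 * ρ ^ 2 := by nlinarith [norm_nonneg s]
    calc 1 * (‖s‖ ^ 2 + ρ ^ 2) ^ 2 ≤ 1 * (2 * ρ ^ 2) ^ 2 := by gcongr
      _ = _ := by ring

/-- a deep well forces Riesz mass -/
lemma mass2 (h2 : LapStmt) : ∃ C : ℝ, 0 ≤ C ∧ ∀ ρ : ℝ, 0 < ρ → ρ ≤ 1 → ∀ (u : ℂ → ℝ) (m : ℝ),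
    ContDiff ℝ 2 u → 0 ≤ m → (∀ s, 0 ≤ lapd u s 1) → (∀ s, ‖s‖ ≤ 2 → u s ≤ 0) →
    (∀ s, ‖s‖ ≤ ρ → u s ≤ -m) →
    m ≤ (2 - Real.log ρ) * (∫ s in closedBall (0 : ℂ) 2, lapd u s 1) +
      C * ∫ s in closedBall (0 : ℂ) 2, -u s := by
  obtain ⟨C, hC, h⟩ := exists_test h2
  refine ⟨C, hC, fun ρ hρ hρ1 u m hu hm hl hu0 hum => ?_⟩
  obtain ⟨k, hk, k0, k1, k2, k3⟩ := h ρ hρ hρ1
  have hc : HasCompactSupport k := HasCompactSupport.intro (isCompact_closedBall 0 2) fun y hy =>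
    k0 y (not_le.1 (mt mem_closedBall_zero_iff.2 hy)).le
  have hout : ∀ v y, y ∉ closedBall (0 : ℂ) 2 → k y * dd u y v - u y * dd k y v = 0 := by
    intro v y hy
    have he : k =ᶠ[𝓝 y] fun _ => 0 := by
      filter_upwards [isClosed_closedBall.isOpen_compl.mem_nhds hy] with z hz
      exact k0 z (not_le.1 (mt mem_closedBall_zero_iff.2 hz)).le
    rw [dd_congr he, dd_const, he.eq_of_nhds]
    simp
  have g1 : ∀ v, ∫ y in closedBall (0 : ℂ) 2, (k y * dd u y v - u y * dd k y v) = 0 := fun v => by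
    rw [setIntegral_eq_integral_of_forall_compl_eq_zero (hout v), green1 hk hu hc]
  have cG : ∀ v, Continuous fun y => k y * dd u y v - u y * dd k y v := fun v =>
    (hk.continuous.mul (continuous_dd hu v)).sub (hu.continuous.mul (continuous_dd hk v))
  have bd : ∀ R, Bornology.IsBounded (closedBall (0 : ℂ) R) := fun R => isBounded_closedBall
  have cl : Continuous fun s => lapd u s 1 := continuous_lapd hu continuous_id continuous_const
  have cn : Continuous fun s => -u s := hu.continuous.neg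
  set H : ℂ → ℝ := fun y => (2 - Real.log ρ) * lapd u y 1 + C * -u y -
    ((k y * dd u y 1 - u y * dd k y 1) + (k y * dd u y I - u y * dd k y I)) with hH
  have cH : Continuous H :=
    ((continuous_const.mul cl).add (continuous_const.mul cn)).sub ((cG 1).add (cG I))
  have eH : ∀ y, H y = (2 - Real.log ρ - k y) * lapd u y 1 + (C - lapd k y 1) * -u y := by
    intro y
    simp only [hH, lapd, smul_eq_mul, mul_one]
    ring
  have iH : ∫ y in closedBall (0 : ℂ) 2, H y =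
      (2 - Real.log ρ) * (∫ s in closedBall (0 : ℂ) 2, lapd u s 1) +
        C * ∫ s in closedBall (0 : ℂ) 2, -u s := by
    have c1 : Continuous fun y => (2 - Real.log ρ) * lapd u y 1 := continuous_const.mul cl
    have c2 : Continuous fun y => C * -u y := continuous_const.mul cn
    have c3 : Continuous fun y => (2 - Real.log ρ) * lapd u y 1 + C * -u y := c1.add c2
    have c4 : Continuous fun y => (k y * dd u y 1 - u y * dd k y 1) +
      (k y * dd u y I - u y * dd k y I) := (cG 1).add (cG I)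
    simp only [hH]
    rw [integral_sub (intOn c3 (bd 2)) (intOn c4 (bd 2)),
      integral_add (intOn (cG 1) (bd 2)) (intOn (cG I) (bd 2)), g1, g1,
      integral_add (intOn c1 (bd 2)) (intOn c2 (bd 2)), integral_const_mul, integral_const_mul]
    ring
  have H0 : ∀ y ∈ closedBall (0 : ℂ) 2, 0 ≤ H y := by
    intro y hy
    have hy' := mem_closedBall_zero_iff.1 hy
    rw [eH]
    exact add_nonneg (mul_nonneg (by linarith [k1 y hy']) (hl y))
      (mul_nonneg (by linarith [k2 y hy']) (by linarith [hu0 y hy']))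
  have H1 : ∀ y ∈ closedBall (0 : ℂ) ρ, 1 / (2 * ρ ^ 2) * m ≤ H y := by
    intro y hy
    have hy' := mem_closedBall_zero_iff.1 hy
    rw [eH]
    have a1 := mul_nonneg (show 0 ≤ 2 - Real.log ρ - k y by linarith [k1 y (by linarith)]) (hl y)
    have a2 : 1 / (2 * ρ ^ 2) * m ≤ (C - lapd k y 1) * -u y :=
      mul_le_mul (by linarith [k3 y hy']) (by linarith [hum y hy']) hm
        (by linarith [k2 y (by linarith)])
    linarith
  have s1 := setIntegral_ge_of_const_le_real (μ := volume) measurableSet_closedBall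
    (isCompact_closedBall (0 : ℂ) ρ).measure_lt_top.ne H1 (intOn cH (bd ρ))
  have s2 : ∫ y in closedBall (0 : ℂ) ρ, H y ≤ ∫ y in closedBall (0 : ℂ) 2, H y :=
    setIntegral_mono_set (intOn cH (bd 2))
      ((ae_restrict_iff' measurableSet_closedBall).2 (ae_of_all _ H0))
      (closedBall_subset_closedBall (by linarith)).eventuallyLE
  rw [vol_disc hρ.le] at s1
  have e : 1 / (2 * ρ ^ 2) * m * (Real.pi * ρ ^ 2) = Real.pi / 2 * m := by field_simp
  rw [← iH]
  nlinarith [Real.pi_gt_three]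

end Levi

end

end Pool.Agent.LinN2
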