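import Pool.Agent.Lib.MP_8465a2_an.N2.Levi1

/-!
Averaging the Riesz mass over parallel complex lines (MP_8465a2_an).
-/

namespace Pool.Agent.LinN2

open MeasureTheory Metric Set Filter Topology Complex
open scoped ENNReal ComplexConjugate

noncomputable section

namespace Levi

variable {n : ℕ}

lemma shift_le {E : Type} [NormedAddCommGroup E] [NormedSpace ℝ E] [FiniteDimensional ℝ E]
    [MeasurableSpace E] [BorelSpace E] (μ : Measure E) [μ.IsAddHaarMeasure] {f : E → ℝ}
    (hf : Continuous f) {w : E} {δ R : ℝ} (h0 : ∀ y, ‖y‖ ≤ R → 0 ≤ f y) (h : ‖w‖ + δ ≤ R) :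
    ∫ v in closedBall (0 : E) δ, f (w + v) ∂μ ≤ ∫ v in closedBall (0 : E) R, f v ∂μ := by
  have e := (measurePreserving_add_left μ w).setIntegral_preimage_emb
    (measurableEmbedding_addLeft w) f (closedBall w δ)
  rw [show (fun x => w + x) ⁻¹' closedBall w δ = closedBall 0 δ by
    simp [preimage_add_closedBall]] at e
  rw [e]
  refine setIntegral_mono_set (intOn hf isBounded_closedBall)
    ((ae_restrict_iff' measurableSet_closedBall).2 (ae_of_all _ fun y hy =>
      h0 y (mem_closedBall_zero_iff.1 hy))) (closedBall_subset_closedBall' ?_).eventuallyLE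
  rw [dist_zero_right]; linarith

lemma lapd_line {U : Cn n → ℝ} (hU : ContDiff ℝ 2 U) (y V : Cn n) (M : ℝ) (s : ℂ) :
    lapd (fun s : ℂ => U (y + s • V) - M) s 1 = lapd U (y + s • V) V := by
  have h := dd_comp hU y ((ContinuousLinearMap.id ℝ ℂ).smulRight V) s
  simp only [ContinuousLinearMap.smulRight_apply, ContinuousLinearMap.id_apply] at h
  simp only [lapd, dd_sub_const, h, one_smul, smul_eq_mul, mul_one]

/-- the averaged inequality -/
lemma core (h2 : LapStmt) : ∃ C : ℝ, 0 ≤ C ∧ ∀ ρ : ℝ, 0 < ρ → ρ ≤ 1 → ∀ (U : Cn n → ℝ)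
    (x0 y0 V : Cn n) (s0 : ℂ) (δ R M m : ℝ), ContDiff ℝ 2 U → (∀ y, 0 ≤ lapd U y V) → 0 ≤ m →
    ‖s0‖ ≤ 1 → ‖y0 - x0‖ + 2 * ‖V‖ + δ ≤ R →
    (∀ y, volume.real (closedBall (0 : ℂ) 3) * U y ≤
      ∫ s in closedBall (0 : ℂ) 3, U (y + s • V)) →
    (∀ y, volume.real (closedBall (0 : Cn n) δ) * U y ≤
      ∫ v in closedBall (0 : Cn n) δ, U (y + v)) →
    (∀ (v : Cn n) (s : ℂ), ‖v‖ ≤ δ → ‖s‖ ≤ 4 → U (y0 + v + s • V) ≤ M) →
    (∀ (v : Cn n) (s : ℂ), ‖v‖ ≤ δ → ‖s‖ ≤ ρ → U (y0 + v + s • V) ≤ M - m) →
    volume.real (closedBall (0 : Cn n) δ) * (m - C * (M - U (y0 + s0 • V))) ≤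
      (2 - Real.log ρ) * (4 * Real.pi * ∫ v in closedBall (0 : Cn n) R, lapd U (x0 + v) V) := by
  obtain ⟨C, hC, h⟩ := mass2 h2
  refine ⟨C * (9 * Real.pi), by positivity,
    fun ρ hρ hρ1 U x0 y0 V s0 δ R M m hU hl hm hs0 hR S1 S2 hM hMm => ?_⟩
  have cU := hU.continuous
  have hlog : 0 ≤ 2 - Real.log ρ := by linarith [Real.log_nonpos hρ.le hρ1]
  have pt : ∀ v ∈ closedBall (0 : Cn n) δ, m ≤ (2 - Real.log ρ) *
      (∫ s in closedBall (0 : ℂ) 2, lapd U (y0 + v + s • V) V) +
      C * (9 * Real.pi) * (M - U (y0 + s0 • V + v)) := by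
    intro v hv
    have hv' := mem_closedBall_zero_iff.1 hv
    have a := h ρ hρ hρ1 (fun s => U (y0 + v + s • V) - M) m
      ((hU.comp (contDiff_const.add ((ContinuousLinearMap.id ℝ ℂ).smulRight V).contDiff)).sub
        contDiff_const) hm (fun s => by rw [lapd_line hU]; exact hl _)
      (fun s hs => by linarith [hM v s hv' (by linarith)])
      (fun s hs => by linarith [hMm v s hv' hs])
    simp only [lapd_line hU] at a
    have c1 : Continuous fun s : ℂ => U (y0 + s0 • V + v + s • V) := by fun_prop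
    have b := shift_le volume (f := fun s : ℂ => M - U (y0 + s0 • V + v + s • V))
      (continuous_const.sub c1) (w := -s0) (δ := 2) (R := 3) (fun s hs => by
        have := hM v (s0 + s) hv' (by linarith [norm_add_le s0 s])
        rw [show y0 + v + (s0 + s) • V = y0 + s0 • V + v + s • V by rw [add_smul]; abel] at this
        linarith) (by rw [norm_neg]; linarith)
    have e : ∀ s : ℂ, M - U (y0 + s0 • V + v + (-s0 + s) • V) = -(U (y0 + v + s • V) - M) := by
      intro s
      rw [show y0 + s0 • V + v + (-s0 + s) • V = y0 + v + s • V by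
        rw [add_smul, neg_smul]; abel]
      ring
    simp only [e] at b
    rw [integral_sub (intOn continuous_const isBounded_closedBall) (intOn c1 isBounded_closedBall),
      setIntegral_const, smul_eq_mul] at b
    have d := S1 (y0 + s0 • V + v)
    rw [vol_disc (by norm_num)] at b d
    have : C * ∫ s in closedBall (0 : ℂ) 2, -(U (y0 + v + s • V) - M) ≤
        C * (9 * Real.pi * (M - U (y0 + s0 • V + v))) :=
      mul_le_mul_of_nonneg_left (by linarith) hC
    linarith
  have cG : Continuous (Function.uncurry fun (v : Cn n) (s : ℂ) => lapd U (y0 + v + s • V) V) :=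
    continuous_lapd hU (by fun_prop) continuous_const
  have iG : Integrable (Function.uncurry fun (v : Cn n) (s : ℂ) => lapd U (y0 + v + s • V) V)
      ((volume.restrict (closedBall (0 : Cn n) δ)).prod
        (volume.restrict (closedBall (0 : ℂ) 2))) := by
    rw [Measure.prod_restrict]
    exact cG.continuousOn.integrableOn_compact
      ((isCompact_closedBall _ _).prod (isCompact_closedBall _ _))
  have cF : Continuous fun v : Cn n => lapd U (x0 + v) V :=
    continuous_lapd hU (by fun_prop) continuous_const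
  have sw : ∫ v in closedBall (0 : Cn n) δ, ∫ s in closedBall (0 : ℂ) 2,
      lapd U (y0 + v + s • V) V ≤
      4 * Real.pi * ∫ v in closedBall (0 : Cn n) R, lapd U (x0 + v) V := by
    rw [integral_integral_swap iG]
    have := setIntegral_mono_on (μ := volume) (s := closedBall (0 : ℂ) 2)
      (f := fun s : ℂ => ∫ v in closedBall (0 : Cn n) δ, lapd U (y0 + v + s • V) V)
      (g := fun _ => ∫ v in closedBall (0 : Cn n) R, lapd U (x0 + v) V)
      iG.integral_prod_right (intOn continuous_const isBounded_closedBall)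
      measurableSet_closedBall (fun s hs => by
        have hs' := mem_closedBall_zero_iff.1 hs
        have b := shift_le volume cF (w := y0 - x0 + s • V) (δ := δ) (R := R)
          (fun _ _ => hl _) (by
            have := norm_add_le (y0 - x0) (s • V)
            rw [norm_smul] at this
            nlinarith [norm_nonneg V])
        have e : ∀ v, x0 + (y0 - x0 + s • V + v) = y0 + v + s • V := fun v => by abel
        simpa only [e] using b)
    rw [setIntegral_const, vol_disc (by norm_num), smul_eq_mul] at this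
    linarith
  have c2 : Continuous fun v : Cn n => U (y0 + s0 • V + v) := by fun_prop
  have i1 : IntegrableOn (fun v : Cn n => (2 - Real.log ρ) *
      ∫ s in closedBall (0 : ℂ) 2, lapd U (y0 + v + s • V) V) (closedBall (0 : Cn n) δ) :=
    iG.integral_prod_left.const_mul _
  have c3 : Continuous fun v : Cn n => C * (9 * Real.pi) * (M - U (y0 + s0 • V + v)) :=
    continuous_const.mul (continuous_const.sub c2)
  have i2 := intOn (μ := volume) c3 (isBounded_closedBall (x := (0 : Cn n)) (r := δ))
  have a := setIntegral_ge_of_const_le_real (μ := volume) measurableSet_closedBall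
    (isCompact_closedBall (0 : Cn n) δ).measure_lt_top.ne pt (i1.add i2)
  rw [integral_add i1 i2, integral_const_mul, integral_const_mul,
    integral_sub (intOn continuous_const isBounded_closedBall) (intOn c2 isBounded_closedBall),
    setIntegral_const, smul_eq_mul] at a
  have b := mul_le_mul_of_nonneg_left sw hlog
  have d := mul_le_mul_of_nonneg_left (S2 (y0 + s0 • V))
    (show 0 ≤ C * (9 * Real.pi) by positivity)
  linarith

lemma Ul_le {g : Cn n → Cn n} {T G : ℝ} {y : Cn n} (hT : 0 < T) (hG : T ≤ G) (h : ‖g y‖ ≤ G) :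
    Ul g T y ≤ Real.log G + Real.log (n + 1) / 2 := by
  have hG0 : 0 < G := hT.trans_le hG
  have h1 : ∑ k, ‖g y k‖ ^ 2 ≤ n * G ^ 2 := by
    refine (Finset.sum_le_card_nsmul _ _ (G ^ 2) fun k _ => ?_).trans (by simp)
    gcongr
    exact (norm_le_pi_norm _ k).trans h
  have h2 : ∑ k, ‖g y k‖ ^ 2 + T ^ 2 ≤ G ^ 2 * (n + 1) := by nlinarith
  have h3 := Real.log_le_log (by positivity) h2
  rw [Real.log_mul (by positivity) (by positivity), Real.log_pow] at h3
  unfold Ul
  push_cast at h3
  linarith

lemma le_Ul {g : Cn n → Cn n} {T a : ℝ} {y : Cn n} (ha : 0 < a) (h : a ≤ ‖g y‖) :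
    Real.log a ≤ Ul g T y := by
  have h1 : ‖g y‖ ≤ √(∑ k, ‖g y k‖ ^ 2) :=
    (pi_norm_le_iff_of_nonneg (Real.sqrt_nonneg _)).2 fun k => Real.le_sqrt_of_sq_le
      (Finset.single_le_sum (f := fun k => ‖g y k‖ ^ 2) (fun _ _ => sq_nonneg _)
        (Finset.mem_univ k))
  have h2 : a ^ 2 ≤ ∑ k, ‖g y k‖ ^ 2 + T ^ 2 := by
    have := pow_le_pow_left₀ ha.le (h.trans h1) 2
    rw [Real.sq_sqrt (by positivity)] at this
    nlinarith
  have h3 := Real.log_le_log (by positivity) h2
  rw [Real.log_pow] at h3
  unfold Ul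
  push_cast at h3
  linarith

/-- reflection symmetry of the averaged Levi form -/
lemma star_int {U : Cn n → ℝ} (hU : ContDiff ℝ 2 U) (hs : ∀ y, U (star y) = U y) (x : Rn n)
    (R : ℝ) (V : Cn n) : ∫ v in closedBall (0 : Cn n) R, lapd U (cx x + v) (star V) =
      ∫ v in closedBall (0 : Cn n) R, lapd U (cx x + v) V := by
  have h1 : ∀ y w, dd U y w = dd U (star y) (star w) := by
    intro y w
    have := dd_comp hU 0 (starL' ℝ (A := Cn n)).toContinuousLinearMap y w
    simpa [hs] using this
  have h2 : ∀ v, lapd U (cx x + v) V = lapd U (cx x + star v) (star V) := by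
    intro v
    unfold lapd
    rw [h1 _ V, h1 _ (I • V), star_add, star_cx, star_smul, ← dd_neg U _ (star I • star V)]
    simp
  have mp : MeasurePreserving (star : Cn n → Cn n) volume volume :=
    measurePreserving_pi (fun _ => volume) (fun _ => volume) (f := fun _ => conjLIE)
      fun _ => conjLIE.measurePreserving
  have me : MeasurableEmbedding (star : Cn n → Cn n) :=
    (starL' ℝ (A := Cn n)).toHomeomorph.measurableEmbedding
  have e := mp.setIntegral_preimage_emb me (fun v => lapd U (cx x + v) (star V))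
    (closedBall (0 : Cn n) R)
  rw [show (star : Cn n → Cn n) ⁻¹' closedBall 0 R = closedBall 0 R by ext y; simp] at e
  rw [← e]
  simp only [h2]

end Levi

end

end Pool.Agent.LinN2
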