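import Pool.Agent.Lib.MP_8465a2_an.N2.Stmts
import Pool.Agent.Lib.MP_8465a2_an.Global

/-!
Statements linking the sharp bound with harmonic functions (MP_8465a2_an).
-/

namespace Pool.Agent.LinN2

open MeasureTheory Pool.Agent.LinCrit Pool.Agent.Alesker

/-- approximation of the gradient by admissible polynomial maps -/
def TaylorStmt (n : ℕ) : Prop :=
  ∀ (w : Rn n → ℝ) (δ : ℝ), Har w 0 (3 * R0 n) 1 → 0 < δ → ∃ g : Cn n → Cn n, Adm g ∧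
    (∀ y, ‖y‖ ≤ 100 → ‖g y‖ ≤ 1) ∧
    ∀ x : Rn n, ‖x‖ ≤ 1 → ∀ k, ‖g (cx x) k - ((pd k w x / 5 : ℝ) : ℂ)‖ ≤ δ

/-- the sharp bound on the unit cube -/
def LocalStmt (n : ℕ) : Prop :=
  ∃ C : ℝ, 0 ≤ C ∧ ∀ (w : Rn n → ℝ) (y : Rn n) (i : Fin n) (L : ℝ), Har w 0 (3 * R0 n) 1 →
    ‖y‖ ≤ 1 → 2 ≤ L → Real.exp (-L) ≤ |pd i w y| →
    μH[(n : ℝ) - 2] {x : Rn n | ‖x‖ ≤ 1 ∧ gr w x = 0} ≤ ENNReal.ofReal (C * L ^ 2)

/-- the conjecture -/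
def FinalStmt : Prop :=
    ∀ n : ℕ, 3 ≤ n → ∃ C : ℝ, ∀ u : EuclideanSpace ℝ (Fin n) → ℝ,
      ContDiffOn ℝ 2 u (Metric.ball (0 : EuclideanSpace ℝ (Fin n)) 1) →
      (∀ x ∈ Metric.ball (0 : EuclideanSpace ℝ (Fin n)) 1,
        ∑ i : Fin n, iteratedFDeriv ℝ 2 u x
          (fun _ => EuclideanSpace.single i (1 : ℝ)) = 0) →
      (∃ x ∈ Metric.ball (0 : EuclideanSpace ℝ (Fin n)) 1,
        ∃ y ∈ Metric.ball (0 : EuclideanSpace ℝ (Fin n)) 1, u x ≠ u y) →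
      ∀ N : ℝ,
        (∀ x ∈ Metric.ball (0 : EuclideanSpace ℝ (Fin n)) 1,
          ‖fderiv ℝ u x‖ ≤ Real.exp N *
            ⨆ y : Metric.ball (0 : EuclideanSpace ℝ (Fin n)) (1 / 2),
              ‖fderiv ℝ u (y : EuclideanSpace ℝ (Fin n))‖) →
        μH[(n : ℝ) - 2]
          ({x : EuclideanSpace ℝ (Fin n) | fderiv ℝ u x = 0} ∩
            Metric.ball (0 : EuclideanSpace ℝ (Fin n)) (1 / 2))
          ≤ ENNReal.ofReal (C * N ^ 2)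

end Pool.Agent.LinN2
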