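import Pool.Agent.Lib.MP_8465a2_an.N2.BasicB
import Pool.Agent.Lib.MP_8465a2_an.N2.Stmts2

/-!
The sharp bound on the unit cube from the covering theorem for polynomials (MP_8465a2_an).
-/

namespace Pool.Agent.LinN2

open MeasureTheory Metric Set Filter Topology Pool.Agent.LinCrit Pool.Agent.Alesker
open scoped ENNReal

namespace Local

variable {n : ℕ}

/-- a good approximation of the gradient at a given depth -/
lemma approx (h2 : TaylorStmt n) {A : ℕ} (hA : 16 ≤ A) {w : Rn n → ℝ} {y : Rn n} {i : Fin n}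
    {L : ℝ} (hw : Har w 0 (3 * R0 n) 1) (hy : ‖y‖ ≤ 1) (hL : 2 ≤ L)
    (hi : Real.exp (-L) ≤ |pd i w y|) (J : ℕ) :
    ∃ g : Cn n → Cn n, Nor g (L + 3) ∧ ∀ x : Rn n, ‖x‖ ≤ 1 → gr w x = 0 →
      ∀ j ≤ J, Real.log A / 2 ≤ mj g A x j := by
  set m := Real.exp (-(5 * (L + 3)) + 2 * (L + 3) * Real.log (rj A (J + 1))) with hm
  have hm0 : 0 < m := Real.exp_pos _
  have hL0 := Real.exp_pos (-L)
  obtain ⟨g, g1, g2, g3⟩ := h2 w (min (Real.exp (-L) / 20) (m / 4)) hw (by positivity)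
  have hN : Nor g (L + 3) := by
    refine ⟨g1, by linarith, g2, ?_⟩
    have a1 : ‖g (cx y)‖ ≤ SS g 0 1 := le_SS g1.continuous (by simpa using hy)
    have a2 := norm_le_pi_norm (g (cx y)) i
    have a3 := (g3 y hy i).trans (min_le_left _ _)
    have a4 := norm_sub_norm_le (((pd i w y / 5 : ℝ) : ℂ)) (g (cx y) i)
    rw [norm_sub_rev, Complex.norm_real, Real.norm_eq_abs, abs_div,
      abs_of_pos (show (0 : ℝ) < 5 by norm_num)] at a4
    have a5 : Real.exp (-(L + 3)) * 8 ≤ Real.exp (-L) := by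
      have b1 : (2 : ℝ) ≤ Real.exp 1 := by linarith [Real.add_one_le_exp (1 : ℝ)]
      have b2 : (8 : ℝ) ≤ Real.exp 3 := by
        rw [show (3 : ℝ) = (3 : ℕ) * 1 by norm_num, Real.exp_nat_mul]
        calc (8 : ℝ) = 2 ^ 3 := by norm_num
          _ ≤ _ := by gcongr
      calc _ ≤ Real.exp (-(L + 3)) * Real.exp 3 := by gcongr
        _ = _ := by rw [← Real.exp_add]; ring_nf
    linarith
  refine ⟨g, hN, fun x hx h0 j hj => not_lt.1 fun h => ?_⟩
  have a1 := inactive hN.diff hN.nz hA h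
  have a2 : ‖g (cx x)‖ ≤ m / 4 := (pi_norm_le_iff_of_nonneg (by positivity)).2 fun k => by
    have b1 := (g3 x hx k).trans (min_le_right _ _)
    have b2 : pd k w x = 0 := congrFun h0 k
    simpa [b2] using b1
  have a3 := hN.log_ge (x := x) (by linarith) (rj_pos (A := A) (by omega) (J + 1))
    ((rj_le_one (by omega) _).trans (by norm_num))
  rw [Real.le_log_iff_exp_le (SS_pos hN.diff hN.nz _ (rj_pos (by omega) _))] at a3
  have a4 := SS_mono' g1.continuous (cx x) (rj_anti (A := A) (by omega) (Nat.succ_le_succ hj))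
  simp only [Nat.succ_eq_add_one] at a4
  linarith

/-- finite covers by small balls bound the Hausdorff measure -/
lemma meas_le (hn : 3 ≤ n) (S : Set (Rn n)) (r : ℕ → ℝ) (hr : Tendsto r atTop (𝓝 0)) (B : ℝ)
    (h : ∀ᶠ J : ℕ in atTop, ∃ F : Finset (Rn n × ℝ), (∀ q ∈ F, 0 < q.2 ∧ q.2 ≤ r J) ∧
      ∑ q ∈ F, q.2 ^ (n - 2) ≤ B ∧ ∀ x ∈ S, ∃ q ∈ F, ‖x - q.1‖ ≤ q.2) :
    μH[(n : ℝ) - 2] S ≤ ENNReal.ofReal (2 ^ (n - 2) * B) := by
  obtain ⟨F, hF⟩ := h.choice
  have hdiam : ∀ q : Rn n × ℝ, ediam (closedBall q.1 q.2) ≤ ENNReal.ofReal (2 * q.2) :=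
    fun q => ediam_le_of_forall_dist_le fun x hx y hy => by
      linarith [dist_triangle_right x y q.1, mem_closedBall.mp hx, mem_closedBall.mp hy]
  refine (Measure.hausdorffMeasure_le_liminf_sum (ι := fun J => F J) _ S (l := atTop)
    (fun J => ENNReal.ofReal (2 * r J)) ?_ (fun J q => closedBall q.1.1 q.1.2)
    (hF.mono fun J hJ q => (hdiam q.1).trans
      (ENNReal.ofReal_le_ofReal (by linarith [(hJ.1 q.1 q.2).2])))
    (hF.mono fun J hJ x hx => ?_)).trans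
      (liminf_le_of_frequently_le' (hF.mono fun J hJ => ?_).frequently)
  · simpa using ENNReal.tendsto_ofReal (hr.const_mul (2 : ℝ))
  · obtain ⟨q, hq, h⟩ := hJ.2.2 x hx
    exact mem_iUnion.2 ⟨⟨q, hq⟩, mem_closedBall_iff_norm.2 h⟩
  · calc _ ≤ ∑ q : F J, ENNReal.ofReal (2 ^ (n - 2) * q.1.2 ^ (n - 2)) :=
          Finset.sum_le_sum fun q _ => by
            have h0 := (hJ.1 q.1 q.2).1
            rw [show (n : ℝ) - 2 = (n - 2 : ℕ) by rw [Nat.cast_sub (by omega)]; simp,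
              ENNReal.rpow_natCast]
            refine (pow_le_pow_left' (hdiam q.1) _).trans (le_of_eq ?_)
            rw [← ENNReal.ofReal_pow (by positivity), mul_pow]
      _ = ENNReal.ofReal (2 ^ (n - 2) * ∑ q ∈ F J, q.2 ^ (n - 2)) := by
          rw [← ENNReal.ofReal_sum_of_nonneg fun q _ => by
            have h0 := (hJ.1 q.1 q.2).1
            positivity, ← Finset.mul_sum,
            Finset.sum_coe_sort (F J) fun q => q.2 ^ (n - 2)]
      _ ≤ _ := ENNReal.ofReal_le_ofReal (by gcongr; exact hJ.2.1)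

end Local

theorem localS {n : ℕ} (hn : 3 ≤ n) (h1 : CoverStmt n) (h2 : TaylorStmt n) : LocalStmt n := by
  obtain ⟨A, C, hA, hC, h⟩ := h1
  refine ⟨2 ^ (n - 2) * (7 * C), by positivity, fun w y i L hw hy hL hi => ?_⟩
  have hA' : (16 : ℝ) ≤ A := by exact_mod_cast hA
  have hr : Tendsto (rj A) atTop (𝓝 0) :=
    tendsto_pow_atTop_nhds_zero_of_lt_one (by positivity) (inv_lt_one_of_one_lt₀ (by linarith))
  refine (Local.meas_le hn _ (rj A) hr (C * (L + 3) ^ 2) ((h (L + 3)).mono fun J hJ => ?_)).trans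
    (ENNReal.ofReal_le_ofReal ?_)
  · obtain ⟨g, g1, g2⟩ := Local.approx h2 hA hw hy hL hi (2 * J)
    obtain ⟨F, f1, f2, f3⟩ := hJ g g1
    exact ⟨F, f1, f2, fun x hx => f3 x hx.1 (g2 x hx.1 hx.2)⟩
  · have : (L + 3) ^ 2 ≤ 7 * L ^ 2 := by nlinarith
    calc _ ≤ 2 ^ (n - 2) * (C * (7 * L ^ 2)) := by gcongr
      _ = _ := by ring

end Pool.Agent.LinN2
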