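import Pool.Agent.Lib.MP_8465a2_an.N2.BasicB

/-!
The master inequality (MP_8465a2_an).
-/

namespace Pool.Agent.LinN2

open MeasureTheory Metric Set Filter Topology Complex

noncomputable section

namespace Master

lemma bdd : Bornology.IsBounded Om := isBounded_closedBall

open Classical in
lemma overlap {ι : Type} {TS : Finset ι} {yT : ι → E2} {ρ K : ℝ} {g : E2 → ℝ} (hg : Continuous g)
    (g0 : ∀ y, 0 ≤ g y) (hb : ∀ i ∈ TS, ‖yT i‖ + ρ ≤ 3)
    (hK : ∀ y, (((TS.filter fun i => ‖y - yT i‖ ≤ ρ).card : ℕ) : ℝ) ≤ K) :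
    ∑ i ∈ TS, ∫ y in closedBall (yT i) ρ, g y ≤ K * ∫ y in Om, g y := by
  have sub : ∀ i ∈ TS, closedBall (yT i) ρ ⊆ Om := fun i hi y hy => by
    have := mem_closedBall_iff_norm.1 hy
    have := hb i hi
    exact mem_closedBall_zero_iff.2 (by linarith [norm_le_norm_add_norm_sub' y (yT i)])
  have gi : IntegrableOn g Om := intOn hg bdd
  rw [Finset.sum_congr rfl fun i hi => show ∫ y in closedBall (yT i) ρ, g y =
      ∫ y in Om, (closedBall (yT i) ρ).indicator g y by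
    rw [setIntegral_indicator measurableSet_closedBall, inter_eq_self_of_subset_right (sub i hi)],
    ← integral_finset_sum _ fun i _ => gi.integrable.indicator measurableSet_closedBall,
    ← integral_const_mul]
  refine integral_mono (integrable_finset_sum _ fun i _ =>
    gi.integrable.indicator measurableSet_closedBall) (gi.integrable.const_mul K) fun y => ?_
  have : ∑ i ∈ TS, (closedBall (yT i) ρ).indicator g y =
      ((TS.filter fun i => ‖y - yT i‖ ≤ ρ).card : ℕ) * g y := by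
    rw [← nsmul_eq_mul, ← Finset.sum_const, Finset.sum_filter]
    exact Finset.sum_congr rfl fun i _ => by simp only [indicator, mem_closedBall_iff_norm]
  simp only [this]
  exact mul_le_mul_of_nonneg_right (hK y) (g0 y)

lemma en_top {a : E2 → ℂ} {η K : ℝ} {ψ : E2 → ℝ} (ha : ContDiff ℂ 2 a) (hη : 0 < η) (hc : Cut ψ)
    (h0 : ∀ y, 2 ≤ ‖y‖ → ψ y = 0) (hK : ∀ y, ‖fderiv ℝ ψ y‖ ≤ K) :
    En a η Om ψ ≤ 2 * K ^ 2 * AR a η 0 1 := by
  have sub : closedBall (0 : E2) 2 ⊆ Om := closedBall_subset_closedBall (by norm_num)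
  have e : En a η Om ψ = En a η (closedBall 0 2) ψ :=
    setIntegral_eq_of_subset_of_forall_diff_eq_zero measurableSet_closedBall sub fun y hy => by
      rw [bf_zero_left (hc.fderiv_zero (h0 y (not_le.1 (mt mem_closedBall_zero_iff.2 hy.2)).le)),
        mul_zero]
  rw [e]
  unfold AR Ar En Bf
  rw [mul_one, one_pow, div_one, ← integral_const_mul]
  refine integral_mono (intOn (continuous_wbf ha hη hc.sm hc.sm) isBounded_closedBall)
    ((intOn (continuous_wW ha hη) isBounded_closedBall).const_mul _) fun y => ?_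
  have h1 := bf_le a ψ y
  have h2 : ‖fderiv ℝ ψ y‖ ^ 2 ≤ K ^ 2 := pow_le_pow_left₀ (norm_nonneg _) (hK y) 2
  have h3 : bf a ψ ψ y ≤ 2 * K ^ 2 * ‖Wf a y‖ ^ 2 := h1.trans (by gcongr)
  calc wt η (a y) * bf a ψ ψ y ≤ wt η (a y) * (2 * K ^ 2 * ‖Wf a y‖ ^ 2) :=
        mul_le_mul_of_nonneg_left h3 (wt_nonneg _ _)
    _ = 2 * K ^ 2 * (wt η (a y) * ‖Wf a y‖ ^ 2) := by ring

lemma bf_le_half {a : E2 → ℂ} {η : ℝ} {f h : E2 → ℝ} (ha : ContDiff ℂ 2 a) (hη : 0 < η)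
    (hf : ContDiff ℝ 1 f) (hh : ContDiff ℝ 1 h) :
    Bf a η Om f h ≤ (En a η Om f + En a η Om h) / 2 := by
  have i1 := intOn (μ := volume) (continuous_wbf ha hη hf hf) bdd
  have i2 := intOn (μ := volume) (continuous_wbf ha hη hh hh) bdd
  unfold En Bf
  rw [← integral_add i1 i2, ← integral_div]
  refine integral_mono (intOn (continuous_wbf ha hη hf hh) bdd) ((i1.add i2).div_const 2) fun y => ?_
  have := (le_abs_self _).trans (abs_bf_le a f h y one_pos)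
  have := mul_le_mul_of_nonneg_left this (wt_nonneg η (a y))
  simp only
  linarith

lemma green_om (h1 : GreenStmt) {a : E2 → ℂ} {η : ℝ} {χ Φ : E2 → ℝ} (ha : ContDiff ℂ 2 a) (hη : 0 < η)
    (hc : Cut χ) (h0 : ∀ y, 2 ≤ ‖y‖ → χ y = 0) (hΦ : ContDiff ℝ 2 Φ) :
    Bf a η Om χ Φ = -∫ y in Om, wt η (a y) * (χ y * lapd Φ y (Wf a y)) := by
  have g := h1 a η ha hη χ Φ hc.sm (compactSupport_of_zero (y0 := 0) (R := 2) (by simpa using h0)) hΦ
  rw [← setIntegral_eq_integral_of_forall_compl_eq_zero (s := Om) (fun y hy => by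
    have : χ y = 0 := h0 y (by linarith [not_le.1 (mt mem_closedBall_zero_iff.2 hy)])
    rw [bf_zero_left (hc.fderiv_zero this), this]; simp)] at g
  simp only [mul_add] at g
  have c : Continuous fun y => wt η (a y) * (χ y * lapd Φ y (Wf a y)) :=
    ((continuous_wt hη).comp ha.continuous).mul (hc.sm.continuous.mul
      (continuous_lapd hΦ continuous_id (continuous_Wf ha)))
  rw [integral_add (intOn (continuous_wbf ha hη hc.sm (hΦ.of_le one_le_two)) bdd) (intOn c bdd)] at g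
  unfold Bf
  linarith

lemma bf_test {a : E2 → ℂ} {η M0 w0 : ℝ} {χ Φ c3 ψ : E2 → ℝ} {κ : Type} {QS : Finset κ} {w : κ → ℝ}
    {ψq : κ → E2 → ℝ} (ha : ContDiff ℂ 2 a) (hη : 0 < η) (hc : Cut χ) (h0 : ∀ y, 2 ≤ ‖y‖ → χ y = 0)
    (hΦ : ContDiff ℝ 1 Φ) (h3 : ∀ y, ‖y‖ < 2 → c3 y = 1) (hψ : ContDiff ℝ 1 ψ)
    (hq : ∀ q ∈ QS, ContDiff ℝ 1 (ψq q)) :
    Bf a η Om χ (fun y => (Φ y - M0) * c3 y + w0 * ψ y + ∑ q ∈ QS, w q * ψq q y) =
      Bf a η Om χ Φ + w0 * Bf a η Om χ ψ + ∑ q ∈ QS, w q * Bf a η Om χ (ψq q) := by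
  have pt : ∀ y, bf a χ (fun y => (Φ y - M0) * c3 y + w0 * ψ y + ∑ q ∈ QS, w q * ψq q y) y =
      bf a χ Φ y + w0 * bf a χ ψ y + ∑ q ∈ QS, w q * bf a χ (ψq q) y := fun y => by
    by_cases hy : 2 ≤ ‖y‖
    · simp [bf_zero_left (hc.fderiv_zero (h0 y hy))]
    have d : HasFDerivAt (fun y => (Φ y - M0) * c3 y + w0 * ψ y + ∑ q ∈ QS, w q * ψq q y)
        (fderiv ℝ Φ y + w0 • fderiv ℝ ψ y + ∑ q ∈ QS, w q • fderiv ℝ (ψq q) y) y := by
      refine (HasFDerivAt.add ?_ ((hψ.differentiable one_ne_zero y).hasFDerivAt.const_mul w0)).add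
        (HasFDerivAt.fun_sum fun q hq' =>
          ((hq q hq').differentiable one_ne_zero y).hasFDerivAt.const_mul (w q))
      refine ((hΦ.differentiable one_ne_zero y).hasFDerivAt.sub_const M0).congr_of_eventuallyEq ?_
      filter_upwards [(isOpen_lt continuous_norm continuous_const).mem_nhds (not_le.1 hy)] with z hz
      rw [h3 z hz, mul_one]
    unfold bf
    rw [d.fderiv]
    simp only [ContinuousLinearMap.add_apply, ContinuousLinearMap.smul_apply,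
      ContinuousLinearMap.sum_apply, smul_eq_mul, mul_add, Finset.sum_add_distrib, Finset.mul_sum]
    have e : ∀ (u : ℝ) (v : E2), ∑ q ∈ QS, u * (w q * fderiv ℝ (ψq q) y v) =
        ∑ q ∈ QS, w q * (u * fderiv ℝ (ψq q) y v) := fun u v =>
      Finset.sum_congr rfl fun q _ => by ring
    rw [e, e]
    ring
  have i : ∀ f : E2 → ℝ, ContDiff ℝ 1 f → IntegrableOn (fun y => wt η (a y) * bf a χ f y) Om :=
    fun f hf => intOn (continuous_wbf ha hη hc.sm hf) bdd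
  unfold Bf
  rw [← integral_const_mul, ← integral_add (i Φ hΦ) ((i ψ hψ).const_mul w0),
    Finset.sum_congr rfl fun q _ => (integral_const_mul (w q) _).symm,
    ← integral_finset_sum _ fun q hq' => (i _ (hq q hq')).const_mul (w q),
    ← integral_add (f := fun y => wt η (a y) * bf a χ Φ y + w0 * (wt η (a y) * bf a χ ψ y))
      ((i Φ hΦ).add ((i ψ hψ).const_mul w0))
      (integrable_finset_sum _ fun q hq' => (i _ (hq q hq')).const_mul (w q))]
  refine integral_congr_ae (ae_of_all _ fun y => ?_)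
  simp only [pt, mul_add, Finset.mul_sum]
  congr 1
  · ring
  · exact Finset.sum_congr rfl fun q _ => by ring

lemma cell {a : E2 → ℂ} {η ηN ρ K θ μ G A : ℝ} {χ Φ : E2 → ℝ} {y0 : E2} (ha : ContDiff ℂ 2 a)
    (hη : 0 < η) (hc : Cut χ) (h1 : ∀ y ∈ N0 ηN, χ y = 1) (hΦ : ContDiff ℝ 2 Φ) (hK : 1 ≤ K)
    (hθ : 0 < θ) (hμ : 0 ≤ μ) (hA : 0 ≤ A) (hP : PackCell a η ηN y0 ρ K G A)
    (hL : ∀ y, ‖y - y0‖ ≤ ρ → μ * ‖Wf a y‖ ^ 2 / ρ ^ 2 ≤ K * lapd Φ y (Wf a y)) :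
    μ * G ≤ θ * (μ * A) + K ^ 2 * (∫ y in closedBall y0 ρ, wt η (a y) * (χ y * lapd Φ y (Wf a y))) +
      K ^ 2 / (4 * θ) * (μ * En a η (closedBall y0 ρ) χ) := by
  have p := hP χ hc h1
  have hE := En_nonneg a η (closedBall y0 ρ) χ
  set E := En a η (closedBall y0 ρ) χ
  have s1 : K * √(A * E) ≤ θ * A + K ^ 2 / (4 * θ) * E := by
    rw [Real.sqrt_mul hA]
    have a1 := Real.sq_sqrt hA
    have a2 := Real.sq_sqrt hE
    have a3 : 0 ≤ (θ * √A - K / 2 * √E) ^ 2 / θ := by positivity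
    have a4 : (θ * √A - K / 2 * √E) ^ 2 / θ =
        θ * √A ^ 2 + K ^ 2 / (4 * θ) * √E ^ 2 - K * (√A * √E) := by field_simp; ring
    rw [a4, a1, a2] at a3
    linarith
  have s2 : μ * ((∫ y in closedBall y0 ρ, χ y * (wt η (a y) * ‖Wf a y‖ ^ 2)) / ρ ^ 2) ≤
      K * ∫ y in closedBall y0 ρ, wt η (a y) * (χ y * lapd Φ y (Wf a y)) := by
    rw [← integral_div, ← integral_const_mul, ← integral_const_mul]
    refine setIntegral_mono_on (intOn (continuous_const.mul ((hc.sm.continuous.mul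
      (continuous_wW ha hη)).div_const _)) isBounded_closedBall) (intOn (continuous_const.mul
      (((continuous_wt hη).comp ha.continuous).mul (hc.sm.continuous.mul
      (continuous_lapd hΦ continuous_id (continuous_Wf ha))))) isBounded_closedBall)
      measurableSet_closedBall fun y hy => ?_
    have := mul_le_mul_of_nonneg_left (hL y (mem_closedBall_iff_norm.1 hy))
      (mul_nonneg (wt_nonneg η (a y)) (hc.nn y))
    calc μ * (χ y * (wt η (a y) * ‖Wf a y‖ ^ 2) / ρ ^ 2)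
        = wt η (a y) * χ y * (μ * ‖Wf a y‖ ^ 2 / ρ ^ 2) := by ring
      _ ≤ wt η (a y) * χ y * (K * lapd Φ y (Wf a y)) := this
      _ = K * (wt η (a y) * (χ y * lapd Φ y (Wf a y))) := by ring
  have s3 := mul_le_mul_of_nonneg_left s2 (zero_le_one.trans hK)
  have s4 := mul_le_mul_of_nonneg_left s1 hμ
  have s5 := mul_le_mul_of_nonneg_left p hμ
  nlinarith

lemma lim {X Y Z : ℝ} (h : ∀ τ, 0 < τ → τ ≤ 1 → X ≤ Y + τ * Z) : X ≤ Y := by
  have t : Tendsto (fun τ : ℝ => Y + τ * Z) (𝓝[>] 0) (𝓝 (Y + 0 * Z)) :=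
    ((continuous_const.add (continuous_id.mul continuous_const)).tendsto 0).mono_left nhdsWithin_le_nhds
  rw [zero_mul, add_zero] at t
  exact ge_of_tendsto t (by
    filter_upwards [Ioc_mem_nhdsGT (zero_lt_one' ℝ)] with τ hτ using h τ hτ.1 hτ.2)

end Master

open Master in
theorem master (h1 : GreenStmt) (h2 : AMinStmt) : MasterStmt := by
  intro K θ hK hθ
  obtain ⟨Kc, hKc, hcut⟩ := exists_cut
  have k3 : 1 ≤ K ^ 3 := one_le_pow₀ hK
  have kc : 1 ≤ 2 * Kc ^ 2 := by nlinarith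
  have kθ : 0 ≤ K ^ 3 / (4 * θ) := by positivity
  refine ⟨(K ^ 3 + K ^ 3 / (4 * θ)) * (2 * Kc ^ 2), by nlinarith, ?_⟩
  intro a η ηN Φ M0 N1 ρ w0 ι κ TS yT μ G A QS yQ ρQ w F ha hη hN hΦ hL hM hρ hN1 hw0 hT hO hQ hcov
  obtain ⟨ψ, cψ, -, ψ1, ψ0, ψK, -⟩ := hcut 0 1 one_pos
  obtain ⟨c3, cc, -, c1, c0, -, -⟩ := hcut 0 (3 / 2) (by norm_num)
  simp only [sub_zero, mul_one, div_one] at ψ1 ψ0 ψK c1 c0
  have hE := en_top ha hη cψ ψ0 ψK
  set E0 := En a η Om ψ + 1 with hE0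
  have hq : ∀ q, ∃ (ψq : E2 → ℝ) (M : ℝ), q ∈ QS → Cut ψq ∧ (∀ y, ‖y - yQ q‖ ≤ ρQ q → ψq y = 1) ∧
      (∀ y, 2 ≤ ‖y‖ → ψq y = 0) ∧
      ∀ τ χ, 0 < τ → τ ≤ 1 → AMin a η ηN τ E0 χ → Bf a η Om χ ψq ≤ F q + τ * M := fun q => by
    by_cases c : q ∈ QS
    · obtain ⟨ψq, a1, a2, a3, a4⟩ := (hQ q c).2.2
      obtain ⟨M, hM⟩ := a4 E0
      exact ⟨ψq, M, fun _ => ⟨a1, a2, a3, hM⟩⟩
    · exact ⟨0, 0, fun d => absurd d c⟩
  choose ψq M hq using hq
  set h : E2 → ℝ := fun y => (Φ y - M0) * c3 y + w0 * ψ y + ∑ q ∈ QS, w q * ψq q y with hh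
  have hs : ContDiff ℝ 1 h := ((((hΦ.of_le one_le_two).sub contDiff_const).mul cc.sm).add
    (contDiff_const.mul cψ.sm)).add (ContDiff.sum fun q c => contDiff_const.mul (hq q c).1.sm)
  have hp : ∀ y ∈ N0 ηN, 0 ≤ h y := fun y hy => by
    have n := norm_le_of_N0 hN hy
    have : ∑ q ∈ QS, (if ‖y - yQ q‖ ≤ ρQ q then w q else 0) ≤ ∑ q ∈ QS, w q * ψq q y :=
      Finset.sum_le_sum fun q c => by
        split_ifs with d
        · rw [(hq q c).2.1 y d, mul_one]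
        · exact mul_nonneg (hQ q c).1 ((hq q c).1.nn y)
    simp only [hh, c1 y (by linarith), ψ1 y n]
    linarith [hcov y hy]
  have hn : ∀ y, 2 ≤ ‖y‖ → h y ≤ 0 := fun y hy => by
    simp only [hh, ψ0 y hy, Finset.sum_eq_zero fun q c => show w q * ψq q y = 0 by
      rw [(hq q c).2.2.1 y hy, mul_zero], mul_zero, add_zero]
    by_cases c : ‖y‖ ≤ 3
    · exact mul_nonpos_of_nonpos_of_nonneg (by linarith [hM y c]) (cc.nn y)
    · rw [c0 y (by linarith), mul_zero]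
  have key : ∑ i ∈ TS, μ i * G i ≤ θ * ∑ i ∈ TS, μ i * A i +
      (K ^ 3 * (w0 * E0 + ∑ q ∈ QS, w q * F q) + K ^ 3 / (4 * θ) * (N1 * E0)) := by
    refine lim (Z := K ^ 3 * (∑ q ∈ QS, w q * M q + √(En a η Om h))) fun τ τ0 τ1 => ?_
    obtain ⟨χ, hχ⟩ := h2 a η ηN τ ψ ha hη cψ (fun y hy => ψ1 y (norm_le_of_N0 hN hy)) ψ0 τ0 τ1
    have v := hχ.var h hs hp hn
    rw [bf_test ha hη hχ.cut hχ.zero (hΦ.of_le one_le_two) (fun y hy => c1 y (by linarith)) cψ.sm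
      (fun q c => (hq q c).1.sm), green_om h1 ha hη hχ.cut hχ.zero hΦ] at v
    have v1 : Bf a η Om χ ψ ≤ E0 := (bf_le_half ha hη hχ.cut.sm cψ.sm).trans (by linarith [hχ.en])
    have v2 : ∑ q ∈ QS, w q * Bf a η Om χ (ψq q) ≤ ∑ q ∈ QS, w q * F q + τ * ∑ q ∈ QS, w q * M q := by
      rw [Finset.mul_sum, ← Finset.sum_add_distrib]
      refine Finset.sum_le_sum fun q c => ?_
      have := mul_le_mul_of_nonneg_left ((hq q c).2.2.2 τ χ τ0 τ1 hχ) (hQ q c).1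
      linarith
    have o1 := overlap (g := fun y => wt η (a y) * (χ y * lapd Φ y (Wf a y)))
      (((continuous_wt hη).comp ha.continuous).mul (hχ.cut.sm.continuous.mul
        (continuous_lapd hΦ continuous_id (continuous_Wf ha))))
      (fun y => mul_nonneg (wt_nonneg _ _) (mul_nonneg (hχ.cut.nn y) (hL y)))
      (fun i hi => (hT i hi).2.2.2.1) hO
    have o2 : ∑ i ∈ TS, En a η (closedBall (yT i) ρ) χ ≤ K * En a η Om χ :=
      overlap (continuous_wbf ha hη hχ.cut.sm hχ.cut.sm)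
        (fun y => mul_nonneg (wt_nonneg _ _) (bf_nonneg _ _ _)) (fun i hi => (hT i hi).2.2.2.1) hO
    have o3 : ∑ i ∈ TS, μ i * En a η (closedBall (yT i) ρ) χ ≤ N1 * (K * E0) := by
      refine (Finset.sum_le_sum fun i hi => mul_le_mul_of_nonneg_right (hT i hi).2.1
        (En_nonneg _ _ _ _)).trans ?_
      rw [← Finset.mul_sum]
      exact mul_le_mul_of_nonneg_left (o2.trans
        (mul_le_mul_of_nonneg_left hχ.en (zero_le_one.trans hK))) hN1
    have o4 := Finset.sum_le_sum fun i hi => cell ha hη hχ.cut hχ.one hΦ hK hθ (hT i hi).1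
      (hT i hi).2.2.1 (hT i hi).2.2.2.2.1 (hT i hi).2.2.2.2.2
    rw [Finset.sum_add_distrib, Finset.sum_add_distrib, ← Finset.mul_sum, ← Finset.mul_sum,
      ← Finset.mul_sum] at o4
    set L := ∫ y in Om, wt η (a y) * (χ y * lapd Φ y (Wf a y))
    have v3 : L ≤ w0 * E0 + ∑ q ∈ QS, w q * F q + τ * (∑ q ∈ QS, w q * M q + √(En a η Om h)) := by
      linarith [mul_le_mul_of_nonneg_left v1 hw0]
    have v4 := mul_le_mul_of_nonneg_left v3 (zero_le_one.trans k3)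
    have v5 := mul_le_mul_of_nonneg_left o1 (sq_nonneg K)
    have v6 := mul_le_mul_of_nonneg_left o3 (show 0 ≤ K ^ 2 / (4 * θ) by positivity)
    have e1 : K ^ 2 / (4 * θ) * (N1 * (K * E0)) = K ^ 3 / (4 * θ) * (N1 * E0) := by ring
    have e2 : K ^ 2 * (K * L) = K ^ 3 * L := by ring
    linarith
  have hF : 0 ≤ ∑ q ∈ QS, w q * F q := Finset.sum_nonneg fun q c => mul_nonneg (hQ q c).1 (hQ q c).2.1
  have hA := AR_nonneg a η 0 1
  have e0 : 0 ≤ E0 := by have := En_nonneg a η Om ψ; linarith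
  have e1 : E0 ≤ 2 * Kc ^ 2 * (AR a η 0 1 + 1) := by linarith
  refine key.trans (add_le_add le_rfl ?_)
  set S := ∑ q ∈ QS, w q * F q
  set R := AR a η 0 1 + 1
  have b1 : w0 * E0 ≤ w0 * (2 * Kc ^ 2 * R) := mul_le_mul_of_nonneg_left e1 hw0
  have b2 : N1 * E0 ≤ N1 * (2 * Kc ^ 2 * R) := mul_le_mul_of_nonneg_left e1 hN1
  have b3 : S ≤ 2 * Kc ^ 2 * S := le_mul_of_one_le_left hF kc
  have r0 : 0 ≤ 2 * Kc ^ 2 * R := e0.trans e1
  have b4 := mul_le_mul_of_nonneg_left (add_le_add b1 b3) (zero_le_one.trans k3)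
  have b5 := mul_le_mul_of_nonneg_left b2 kθ
  have b6 : 0 ≤ K ^ 3 * (N1 * (2 * Kc ^ 2 * R)) := by positivity
  have b7 : 0 ≤ K ^ 3 / (4 * θ) * (w0 * (2 * Kc ^ 2 * R) + 2 * Kc ^ 2 * S) := by positivity
  linarith

end

end Pool.Agent.LinN2
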