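import Pool.Agent.Lib.MP_8465a2_an.N2.BasicB

/-!
Tail and second moment of the defect (MP_8465a2_an).
-/

namespace Pool.Agent.LinN2

open MeasureTheory Metric Set Filter Topology Complex
open scoped ENNReal ComplexConjugate

noncomputable section

variable {n : ℕ}

namespace Mom

/-- few directions see a small gradient -/
lemma bad (hn : 3 ≤ n) (h1 : CarStmt) : ∃ K : ℝ, 1 ≤ K ∧
    ∀ (g : Cn n → Cn n) (x p : Rn n) (R D s : ℝ), Adm g → NZ g → 0 < R → ‖p - x‖ ≤ R → 1 ≤ D →
    SS g (cx x) (70 * R) ≤ Real.exp D * SS g (cx x) R →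
    volume {e : Rn n | ‖e‖ ≤ 9 / 8 ∧ ‖g (cx (p + R • e))‖ ≤ SS g (cx x) R * Real.exp (-s)} ≤
      ENNReal.ofReal (K * Real.exp (-s / (8 * D))) := by
  obtain ⟨K, hK, H⟩ := h1 (Rn n)
  refine ⟨K * (33 / 4) ^ n, one_le_mul_of_one_le_of_one_le hK (one_le_pow₀ (by norm_num)), ?_⟩
  intro g x p R D s hg h0 hR hp hD hS
  have hd := hg.differentiable
  have hc := hg.continuous
  obtain ⟨x1, hx1, hx2⟩ := exists_real hd x hR.le
  have hSpos := SS_pos hd h0 (cx x) hR
  have hM : 0 < SS g (cx x) (70 * R) := SS_pos hd h0 (cx x) (by positivity)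
  have hSM : SS g (cx x) R ≤ SS g (cx x) (70 * R) := SS_mono' hc _ (by linarith)
  have h4 : SS g (cx x) (4 * R) ≤ SS g (cx x) (70 * R) := SS_mono' hc _ (by linarith)
  set S := SS g (cx x) R
  set M := SS g (cx x) (70 * R)
  have : Nonempty (Fin n) := ⟨⟨0, by omega⟩⟩
  obtain ⟨k, hk⟩ : ∃ k, ‖g (cx x1)‖ ≤ ‖g (cx x1) k‖ := by
    obtain ⟨k, hk⟩ := Finite.exists_max fun k => ‖g (cx x1) k‖
    exact ⟨k, (pi_norm_le_iff_of_nonneg (norm_nonneg _)).2 hk⟩
  have hlow : M * Real.exp (-(2 * D)) ≤ ‖g (cx x1) k‖ := by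
    refine le_trans ?_ hk
    have a1 : M * Real.exp (-D) ≤ S := by
      rw [Real.exp_neg, ← div_eq_mul_inv, div_le_iff₀ (Real.exp_pos _)]; linarith
    have a2 : (M * Real.exp (-D)) ^ 2 ≤ S ^ 2 := by gcongr
    have a3 : S ^ 2 ≤ ‖g (cx x1)‖ * M := hx2.trans (by gcongr)
    have a4 : (M * Real.exp (-D)) ^ 2 = M * Real.exp (-(2 * D)) * M := by
      rw [show -(2 * D) = -D + -D by ring, Real.exp_add]; ring
    exact le_of_mul_le_mul_right (by linarith) hM
  have hφ : Continuous fun h : Rn n => ‖g (cx (x1 + h))‖ := by fun_prop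
  have H1 := H volume (fun h => ‖g (cx (x1 + h))‖) (33 * R / 8) M (2 * D) s hφ.measurable
    (by positivity) hM (by linarith) (fun h hh => ⟨fun w => g (cx x1 + w • cx h) k,
      differentiable_pi.1 (hd.comp (f := fun w : ℂ => cx x1 + w • cx h) (by fun_prop)) k,
      fun w hw => (norm_le_pi_norm _ k).trans (le_SS hc (by
        calc ‖cx x1 + w • cx h - cx x‖ = ‖(cx x1 - cx x) + w • cx h‖ := by congr 1; abel
          _ ≤ ‖cx x1 - cx x‖ + ‖w • cx h‖ := norm_add_le _ _
          _ ≤ 2 * R + 8 * (2 * (33 * R / 8)) := by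
            rw [norm_cx_sub, norm_smul, norm_cx]; gcongr
          _ ≤ 70 * R := by linarith)),
      by simpa using hlow,
      fun t _ => (norm_le_pi_norm _ k).trans (by rw [cx_add, cx_smul])⟩)
  set Z := {h : Rn n | ‖h‖ ≤ 33 * R / 8 ∧ ‖g (cx (x1 + h))‖ ≤ M * Real.exp (-s)}
  have hsub : {e : Rn n | ‖e‖ ≤ 9 / 8 ∧ ‖g (cx (p + R • e))‖ ≤ S * Real.exp (-s)} ⊆
      (R • ·) ⁻¹' ((fun h => (p - x1) + h) ⁻¹' Z) := by
    rintro e ⟨he1, he2⟩
    refine ⟨?_, ?_⟩
    · calc ‖p - x1 + R • e‖ = ‖(p - x) - (x1 - x) + R • e‖ := by congr 1; abel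
        _ ≤ ‖p - x‖ + ‖x1 - x‖ + ‖R • e‖ :=
          (norm_add_le _ _).trans (by gcongr; exact norm_sub_le _ _)
        _ ≤ R + 2 * R + R * (9 / 8) := by
          rw [norm_smul, Real.norm_of_nonneg hR.le]; gcongr
        _ = 33 * R / 8 := by ring
    · rw [show x1 + (p - x1 + R • e) = p + R • e by abel]
      exact he2.trans (by gcongr)
  refine (measure_mono hsub).trans ?_
  rw [Measure.addHaar_preimage_smul _ hR.ne', measure_preimage_add]
  refine (mul_le_mul_right H1 _).trans (le_of_eq ?_)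
  rw [Real.volume_pi_closedBall _ (by positivity), ← ENNReal.ofReal_mul (by positivity),
    ← ENNReal.ofReal_mul (by positivity)]
  congr 1
  rw [Module.finrank_fin_fun, Fintype.card_fin, abs_of_pos (by positivity),
    show 4 * (2 * D) = 8 * D by ring, show 2 * (33 * R / 8) = 33 / 4 * R by ring, mul_pow]
  field_simp

lemma vol_Ebox : volume (Ebox n) ≤ 1 := by
  rw [Ebox, Measure.volume_eq_prod, Measure.prod_prod, Real.volume_pi_closedBall _ (by norm_num),
    Real.volume_pi_closedBall _ (by norm_num), ← ENNReal.ofReal_mul (by positivity),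
    ENNReal.ofReal_le_one]
  exact mul_le_one₀ (pow_le_one₀ (by norm_num) (by norm_num)) (by positivity)
    (pow_le_one₀ (by norm_num) (by norm_num))

/-- the slab part -/
lemma slab (hn : 3 ≤ n) (h3 : GrazeStmt n) (G : Dir n → Rn n) (hG : Continuous G) (c t : ℝ)
    (ht : 0 ≤ t) :
    volume {θ : Dir n × Rn n | θ ∈ Tbox n ∧ G θ.1 ≠ 0 ∧ |θ.2 ⬝ᵥ G θ.1 - c| ≤ t * ‖G θ.1‖} ≤
      ENNReal.ofReal (2 ^ n * t) := by
  have hE : MeasurableSet (Ebox n) := measurableSet_closedBall.prod measurableSet_closedBall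
  have hm : MeasurableSet
      {θ : Dir n × Rn n | θ ∈ Tbox n ∧ G θ.1 ≠ 0 ∧ |θ.2 ⬝ᵥ G θ.1 - c| ≤ t * ‖G θ.1‖} := by
    refine h3.2.2.2.inter (MeasurableSet.inter ?_ ?_)
    · exact (isOpen_ne_fun (hG.comp continuous_fst) continuous_const).measurableSet
    · exact (isClosed_le (f := fun θ : Dir n × Rn n => |θ.2 ⬝ᵥ G θ.1 - c|)
        (g := fun θ : Dir n × Rn n => t * ‖G θ.1‖) (by unfold dotProduct; fun_prop)
        (by fun_prop)).measurableSet
  rw [Measure.volume_eq_prod, Measure.prod_apply hm]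
  calc _ ≤ ∫⁻ e, (Ebox n).indicator (fun _ => ENNReal.ofReal (2 ^ n * t)) e := by
        refine lintegral_mono fun e => ?_
        by_cases he : e ∈ Ebox n
        · rw [indicator_of_mem he]
          by_cases h0 : G e = 0
          · refine le_trans (le_of_eq (measure_mono_null (t := ∅) ?_ measure_empty)) zero_le
            rintro ξ ⟨_, h, _⟩
            exact h h0
          · refine le_trans (measure_mono ?_) ((h3.1 (G e) 0 c t 1 h0 ht zero_le_one).trans
              (le_of_eq ?_))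
            · rintro ξ ⟨h1, _, h2⟩
              exact ⟨mem_closedBall_iff_norm.1 h1.2, h2⟩
            · congr 1
              obtain ⟨m, rfl⟩ : ∃ m, n = m + 1 := ⟨n - 1, by omega⟩
              rw [Nat.add_sub_cancel]; ring
        · refine le_trans (le_of_eq (measure_mono_null (t := ∅) ?_ measure_empty)) zero_le
          rintro ξ ⟨h, _⟩
          exact he h.1
    _ ≤ _ := by
        rw [lintegral_indicator_const hE]
        exact mul_le_of_le_one_right' vol_Ebox

/-- the tail bound -/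
lemma tail (hn : 3 ≤ n) (h1 : CarStmt) (h3 : GrazeStmt n) : ∃ K : ℝ, 16 ≤ K ∧
    ∀ (g : Cn n → Cn n) (x p : Rn n) (R D c : ℝ), Adm g → NZ g → 0 < R →
    ‖p - x‖ ≤ R → 1 ≤ D → SS g (cx x) (70 * R) ≤ Real.exp D * SS g (cx x) R →
    ∀ s : ℝ, 0 ≤ s → volume {θ ∈ Tbox n | ‖cx θ.2 ⬝ᵥ g (cx (p + R • θ.1.1)) - c‖ ≤
      SS g (cx x) R * Real.exp (-s)} ≤ ENNReal.ofReal (K * Real.exp (-s / (16 * D))) := by
  obtain ⟨K, hK, H⟩ := bad hn h1
  have h2n : (1 : ℝ) ≤ 2 ^ n := one_le_pow₀ (by norm_num)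
  refine ⟨K * 2 ^ n + 2 ^ n + 16, by nlinarith, ?_⟩
  intro g x p R D c hg h0 hR hp hD hS s hs
  have hc := hg.continuous
  have hSpos := SS_pos hg.differentiable h0 (cx x) hR
  have H1 := H g x p R D (s / 2) hg h0 hR hp hD hS
  have H2 := slab hn h3 (fun e => rp (g (cx (p + R • e.1)))) (by unfold rp; fun_prop) c
    (Real.exp (-(s / 2))) (Real.exp_pos _).le
  set S := SS g (cx x) R
  set B := {e : Rn n | ‖e‖ ≤ 9 / 8 ∧ ‖g (cx (p + R • e))‖ ≤ S * Real.exp (-(s / 2))}
  have H3 : volume ((B ×ˢ closedBall (bv 1 : Rn n) (1 / 8)) ×ˢ closedBall (0 : Rn n) 1) ≤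
      ENNReal.ofReal (K * 2 ^ n * Real.exp (-s / (16 * D))) := by
    rw [Measure.volume_eq_prod, Measure.prod_prod, Measure.volume_eq_prod, Measure.prod_prod,
      Real.volume_pi_closedBall _ (by norm_num), Real.volume_pi_closedBall _ (by norm_num)]
    refine (mul_le_mul_left (mul_le_mul_left H1 _) _).trans ?_
    rw [← ENNReal.ofReal_mul (by positivity), ← ENNReal.ofReal_mul (by positivity)]
    refine ENNReal.ofReal_le_ofReal ?_
    rw [Fintype.card_fin, show -(s / 2) / (8 * D) = -s / (16 * D) by field_simp; ring, mul_one]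
    have : (2 * (1 / 8) : ℝ) ^ n ≤ 1 := pow_le_one₀ (by norm_num) (by norm_num)
    calc _ ≤ K * Real.exp (-s / (16 * D)) * 1 * 2 ^ n := by gcongr
      _ = _ := by ring
  refine le_trans (measure_mono ?_) ((measure_union_le _ _).trans ((add_le_add H3 H2).trans ?_))
  · rintro θ ⟨hθ, h⟩
    by_cases hb : ‖g (cx (p + R • θ.1.1))‖ ≤ S * Real.exp (-(s / 2))
    · exact Or.inl ⟨⟨⟨(Ebox_norm hθ.1).1, hb⟩, hθ.1.2⟩, hθ.2⟩
    · rw [not_le] at hb
      have e1 := hg.cx_rp (p + R • θ.1.1)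
      have e2 : ‖rp (g (cx (p + R • θ.1.1)))‖ = ‖g (cx (p + R • θ.1.1))‖ := by
        rw [← norm_cx, e1]
      refine Or.inr ⟨hθ, fun h0 => ?_, ?_⟩
      · have : (0 : ℝ) < S * Real.exp (-(s / 2)) := by positivity
        beta_reduce at h0
        rw [h0, norm_zero] at e2
        linarith
      · rw [← e1, cx_dot, ← Complex.ofReal_sub, Complex.norm_real, Real.norm_eq_abs] at h
        refine h.trans ?_
        rw [e2, show -s = -(s / 2) + -(s / 2) by ring, Real.exp_add]
        nlinarith [Real.exp_pos (-(s / 2))]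
  · rw [← ENNReal.ofReal_add (by positivity) (by positivity)]
    refine ENNReal.ofReal_le_ofReal ?_
    have : Real.exp (-(s / 2)) ≤ Real.exp (-s / (16 * D)) := by
      rw [Real.exp_le_exp, neg_div, neg_le_neg_iff]
      gcongr; linarith
    nlinarith [Real.exp_pos (-s / (16 * D))]

end Mom

theorem mom (hn : 3 ≤ n) (h1 : CarStmt) (h2 : TailStmt) (h3 : GrazeStmt n) : MomStmt n := by
  obtain ⟨K, hK, H⟩ := Mom.tail hn h1 h3
  refine ⟨512 * K, by linarith, ?_⟩
  intro g x p R D c hg h0 hR hp hD hS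
  have H1 := H g x p R D c hg h0 hR hp hD hS
  have hSpos := SS_pos hg.differentiable h0 (cx x) hR
  set S := SS g (cx x) R
  refine ⟨fun s => ?_, fun η hη => ?_⟩
  · rcases le_total 0 s with hs | hs
    · refine (H1 s hs).trans (ENNReal.ofReal_le_ofReal ?_)
      have : Real.exp (-s / (16 * D)) ≤ Real.exp (-s / (512 * K * D)) := by
        rw [Real.exp_le_exp, neg_div, neg_div, neg_le_neg_iff]
        gcongr; linarith
      nlinarith [Real.exp_pos (-s / (16 * D))]
    · refine (measure_mono (sep_subset _ _)).trans ?_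
      rw [h3.2.2.1]
      refine ENNReal.ofReal_le_ofReal ?_
      have a1 : (1 / 8 : ℝ) ^ n ≤ 1 := pow_le_one₀ (by norm_num) (by norm_num)
      have a2 : 1 ≤ Real.exp (-s / (512 * K * D)) :=
        Real.one_le_exp (div_nonneg (by linarith) (by positivity))
      nlinarith
  · have hf : Continuous fun θ : Dir n × Rn n => XV g S η (p + R • θ.1.1) θ.2 c :=
      (continuous_XV hg.continuous S hη).comp
        (f := fun θ : Dir n × Rn n => (p + R • θ.1.1, θ.2, c)) (by fun_prop)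
    refine ((h2 _ (volume.restrict (Tbox n)) _ K (16 * D) hf.measurable (by linarith)
      (by linarith) fun s hs => ?_).2).trans (le_of_eq (by congr 1; ring))
    rw [Measure.restrict_apply' h3.2.2.2]
    refine le_trans (measure_mono ?_) (H1 s hs.le)
    rintro θ ⟨h, hθ⟩
    refine ⟨hθ, ?_⟩
    have h' : s ≤ Real.log S -
        Real.log (‖cx θ.2 ⬝ᵥ g (cx (p + R • θ.1.1)) - c‖ ^ 2 + η ^ 2) / 2 :=
      (le_max_iff.1 h).resolve_left (not_le.2 hs)
    set a := ‖cx θ.2 ⬝ᵥ g (cx (p + R • θ.1.1)) - c‖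
    have a1 : Real.log (a ^ 2 + η ^ 2) ≤ Real.log ((S * Real.exp (-s)) ^ 2) := by
      rw [Real.log_pow, Real.log_mul hSpos.ne' (Real.exp_pos _).ne', Real.log_exp]
      push_cast; linarith
    rw [Real.log_le_log_iff (by positivity) (by positivity)] at a1
    exact (pow_le_pow_iff_left₀ (norm_nonneg _) (by positivity) two_ne_zero).1
      (by nlinarith [sq_nonneg η])

end

end Pool.Agent.LinN2
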