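import Pool.Agent.Lib.MP_8465a2_an.N2.BasicB

/-!
Few scales are not pinched.
-/

namespace Pool.Agent.LinN2

open Finset

namespace NP

lemma tele (ψ : ℕ → ℝ) {Λ : ℝ} (h : ∀ i j, ψ i - ψ j ≤ Λ) (N k : ℕ) :
    ∑ j ∈ range N, (ψ j - ψ (j + k)) ≤ k * Λ := by
  induction k with
  | zero => simp
  | succ k ih =>
    have h1 := sum_range_sub' (fun j => ψ (j + k)) N
    have h2 : ∑ j ∈ range N, (ψ j - ψ (j + (k + 1))) =
        ∑ j ∈ range N, (ψ j - ψ (j + k)) + ∑ j ∈ range N, (ψ (j + k) - ψ (j + 1 + k)) := by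
      rw [← sum_add_distrib]
      exact sum_congr rfl fun j _ => by rw [add_right_comm j 1 k, add_assoc]; ring
    rw [h2, h1]
    push_cast
    linarith [h (0 + k) (N + k)]

end NP

theorem np : NPStmt := by
  classical
  intro m lo hi b Λ hm hb hΛ h0 h1
  have hb' : (1 : ℝ) ≤ b := by exact_mod_cast hb
  rcases le_or_gt hi lo with hl | hl
  · rw [Ico_eq_empty_of_le hl, filter_empty, card_empty, Nat.cast_zero]
    positivity
  let ψ : ℕ → ℝ := fun j => Real.log (m (max lo (min j hi)))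
  have hp : ∀ j ≤ hi, 0 < m j := fun j hj => h0.trans_le (hm hj)
  have hc : ∀ j, max lo (min j hi) ≤ hi := fun j => max_le hl.le (min_le_right _ _)
  have hψ : Antitone ψ := fun i j hij =>
    Real.log_le_log (hp _ (hc j)) (hm (max_le_max le_rfl (min_le_min hij le_rfl)))
  have hΛ' : ∀ i j, ψ i - ψ j ≤ Λ := fun i j => by
    have a1 : ψ i ≤ Real.log (Real.exp Λ * m hi) :=
      Real.log_le_log (hp _ (hc i)) ((hm (le_max_left _ _)).trans h1)
    have a2 : Real.log (m hi) ≤ ψ j := Real.log_le_log h0 (hm (hc j))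
    rw [Real.log_mul (Real.exp_ne_zero _) h0.ne', Real.log_exp] at a1
    linarith
  let S := (range hi).filter fun j =>
    lo ≤ j ∧ j + 2 * b ≤ hi ∧ m (j + 2 * b) < b * (m j - m (j + 2 * b))
  have hS : (S.card : ℝ) ≤ 4 * b ^ 2 * Λ := by
    have a1 : ∑ j ∈ S, (1 / (2 * b) : ℝ) ≤ ∑ j ∈ S, (ψ j - ψ (j + 2 * b)) := by
      refine sum_le_sum fun j hj => ?_
      obtain ⟨-, j1, j2, j3⟩ := mem_filter.1 hj
      have p1 := hp _ j2
      have p2 := hp j (by omega)
      simp only [ψ]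
      rw [min_eq_left j2, min_eq_left (by omega : j ≤ hi), max_eq_right j1,
        max_eq_right (by omega : lo ≤ j + 2 * b), ← Real.log_div p2.ne' p1.ne']
      refine le_trans ?_ (Real.one_sub_inv_le_log_of_pos (div_pos p2 p1))
      rw [inv_div, one_sub_div p2.ne', div_le_div_iff₀ (by positivity) p2]
      nlinarith [mul_le_mul_of_nonneg_right hb' (sub_nonneg.2 (hm (le_add_right (le_refl j) :
        j ≤ j + 2 * b)))]
    have a2 : ∑ j ∈ S, (ψ j - ψ (j + 2 * b)) ≤ ∑ j ∈ range hi, (ψ j - ψ (j + 2 * b)) :=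
      sum_le_sum_of_subset_of_nonneg (filter_subset _ _) fun j _ _ =>
        sub_nonneg.2 (hψ (Nat.le_add_right _ _))
    have a3 := (a1.trans a2).trans (NP.tele ψ hΛ' hi (2 * b))
    rw [sum_const, nsmul_eq_mul, mul_one_div, div_le_iff₀ (by positivity)] at a3
    push_cast at a3
    linarith
  have hsub : ((Ico lo hi).filter fun i =>
      ¬ (lo + b ≤ i ∧ i + b ≤ hi ∧ b * (m (i - b) - m (i + b)) ≤ m (i + b))) ⊆
      (Ico lo (lo + b) ∪ Ico (hi - b) hi) ∪ S.image (· + b) := by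
    intro i hi'
    obtain ⟨i1, i2⟩ := mem_filter.1 hi'
    rw [mem_Ico] at i1
    simp only [mem_union, mem_Ico]
    by_cases c1 : lo + b ≤ i
    · by_cases c2 : i + b ≤ hi
      · refine Or.inr (mem_image.2 ⟨i - b, mem_filter.2 ⟨mem_range.2 (by omega), by omega,
          by omega, ?_⟩, by omega⟩)
        rw [show i - b + 2 * b = i + b by omega]
        exact not_le.1 fun c3 => i2 ⟨c1, c2, c3⟩
      · exact Or.inl (Or.inr ⟨by omega, i1.2⟩)
    · exact Or.inl (Or.inl ⟨i1.1, by omega⟩)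
  have a4 := (card_le_card hsub).trans ((card_union_le _ _).trans
    (add_le_add (card_union_le _ _) card_image_le))
  rw [Nat.card_Ico, Nat.card_Ico] at a4
  have a5 := (Nat.cast_le (α := ℝ)).2 (a4.trans (show _ ≤ 2 * b + S.card by omega))
  push_cast at a5
  exact a5.trans (by linarith)

end Pool.Agent.LinN2
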