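import Pool.Agent.Lib.MP_8465a2_an.N2.BasicB

/-!
Separated nets (MP_8465a2_an).
-/

namespace Pool.Agent.LinN2

open MeasureTheory Metric Set

namespace Net

lemma card_le (E : Type) [NormedAddCommGroup E] [NormedSpace ℝ E] [FiniteDimensional ℝ E]
    (F : Finset E) (c : E) (R δ : ℝ) (hR : 0 ≤ R) (hδ : 0 < δ) (h1 : ∀ x ∈ F, ‖x - c‖ ≤ R)
    (h2 : ∀ x ∈ F, ∀ x' ∈ F, x ≠ x' → δ ≤ ‖x - x'‖) :
    (F.card : ℝ) ≤ (2 * R / δ + 1) ^ Module.finrank ℝ E := by
  borelize E
  let μ : Measure E := Measure.addHaar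
  have d : (F : Set E).PairwiseDisjoint fun x => ball x (δ / 2) := fun x hx y hy xy =>
    ball_disjoint_ball (by rw [add_halves, dist_eq_norm]; exact h2 x hx y hy xy)
  have s : ⋃ x ∈ F, ball x (δ / 2) ⊆ ball c (R + δ / 2) := iUnion₂_subset fun x hx =>
    ball_subset (by rw [dist_eq_norm]; linarith [h1 x hx])
  have m := measure_mono (μ := μ) s
  rw [measure_biUnion_finset d fun _ _ => measurableSet_ball,
    Finset.sum_congr rfl fun x _ => Measure.addHaar_ball_of_pos μ x (half_pos hδ), Finset.sum_const,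
    Measure.addHaar_ball_of_pos μ c (by positivity), nsmul_eq_mul, ← mul_assoc,
    ENNReal.mul_le_mul_iff_left (measure_ball_pos μ _ one_pos).ne' measure_ball_lt_top.ne,
    ← ENNReal.ofReal_natCast, ← ENNReal.ofReal_mul (by positivity),
    ENNReal.ofReal_le_ofReal_iff (by positivity), ← le_div_iff₀ (by positivity), ← div_pow] at m
  rwa [show 2 * R / δ + 1 = (R + δ / 2) / (δ / 2) by field_simp]

end Net

theorem net : NetStmt := by
  refine ⟨Net.card_le, fun E _ _ _ G c R δ hδ hG => ?_⟩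
  classical
  let S : Set ℕ := {k | ∃ F : Finset E, (∀ x ∈ F, x ∈ G) ∧
    (∀ x ∈ F, ∀ x' ∈ F, x ≠ x' → δ ≤ ‖x - x'‖) ∧ F.card = k}
  have hb : BddAbove S := ⟨⌈(2 * max R 0 / δ + 1) ^ Module.finrank ℝ E⌉₊, by
    rintro k ⟨F, a, b, rfl⟩
    exact_mod_cast (Net.card_le E F c _ δ (le_max_right R 0) hδ
      (fun x hx => (hG x (a x hx)).trans (le_max_left _ _)) b).trans (Nat.le_ceil _)⟩
  obtain ⟨F, a, b, e⟩ := Nat.sSup_mem (s := S) ⟨0, (∅ : Finset E), by simp, by simp, rfl⟩ hb
  refine ⟨F, a, b, fun x hx => ?_⟩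
  by_contra h
  push Not at h
  have hx' : x ∉ F := fun c => by have := h x c; simp at this; linarith
  have := le_csSup hb (show (insert x F).card ∈ S from ⟨_, fun y hy =>
    (Finset.mem_insert.1 hy).elim (fun c => c ▸ hx) (a y), fun y hy y' hy' ne => by
      rcases Finset.mem_insert.1 hy with rfl | c <;> rcases Finset.mem_insert.1 hy' with rfl | c'
      · exact absurd rfl ne
      · exact (h _ c').le
      · rw [norm_sub_rev]; exact (h _ c).le
      · exact b _ c _ c' ne, rfl⟩)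
  rw [Finset.card_insert_of_notMem hx'] at this
  omega

end Pool.Agent.LinN2
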