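import Pool.Agent.Lib.MP_8465a2_an.N2.BasicB

/-!
The inequality on one plane (MP_8465a2_an).
-/

namespace Pool.Agent.LinN2

open MeasureTheory Metric Set Filter Topology Complex
open scoped ENNReal ComplexConjugate

noncomputable section

variable {n : ℕ}

namespace Omega

lemma packCell_mono {a : E2 → ℂ} {η ηN ρ K K' G A : ℝ} {y0 : E2}
    (h : PackCell a η ηN y0 ρ K G A) (hK : K ≤ K') : PackCell a η ηN y0 ρ K' G A := by
  intro χ hχ h1
  have h2 : 0 ≤ (∫ y in closedBall y0 ρ, χ y * (wt η (a y) * ‖Wf a y‖ ^ 2)) / ρ ^ 2 :=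
    div_nonneg (integral_nonneg fun y =>
      mul_nonneg (hχ.nn y) (mul_nonneg (wt_nonneg _ _) (sq_nonneg _))) (sq_nonneg _)
  exact (h χ hχ h1).trans (add_le_add (mul_le_mul_of_nonneg_right hK h2)
    (mul_le_mul_of_nonneg_right hK (Real.sqrt_nonneg _)))

lemma vol_eq {R : ℝ} (hR : 0 ≤ R) : volume.real (closedBall (0 : Cn n) R) =
    R ^ (2 * n) * volume.real (ball (0 : Cn n) 1) := by
  have h : Module.finrank ℝ (Cn n) = 2 * n := by
    rw [Module.finrank_pi_fintype]; simp [mul_comm]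
  rw [measureReal_def, Measure.addHaar_closedBall _ _ hR, h, ENNReal.toReal_mul,
    ENNReal.toReal_ofReal (by positivity), measureReal_def]

lemma om_pos : 0 < volume.real (ball (0 : Cn n) 1) :=
  ENNReal.toReal_pos (measure_ball_pos _ _ one_pos).ne' measure_ball_lt_top.ne

lemma overlap (h5 : NetStmt) {K1 r : ℝ} (hK : 1 ≤ K1) (hr : 0 < r) {p : Rn n} {e : Dir n}
    (he : e ∈ Ebox n) (F : Finset (Rn n)) (yT : Rn n → ℝ × ℝ)
    (h1 : ∀ x ∈ F, ‖p + plr e (yT x) - x‖ ≤ r)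
    (h2 : ∀ x ∈ F, ∀ x' ∈ F, x ≠ x' → r / 2 ≤ ‖x - x'‖) (y : E2) :
    (((F.filter fun x => ‖y - c2 (yT x)‖ ≤ K1 * r).card : ℕ) : ℝ) ≤ (9 * K1 + 5) ^ n := by
  have := h5.1 (Rn n) (F.filter fun x => ‖y - c2 (yT x)‖ ≤ K1 * r) (p + plr e (r2 y))
    ((1 + 9 / 4 * K1) * r) (r / 2) (by positivity) (by positivity) ?_ ?_
  · rw [Module.finrank_fin_fun] at this
    refine this.trans (le_of_eq ?_)
    congr 1
    field_simp
    ring
  · intro x hx
    obtain ⟨hx, hy⟩ := Finset.mem_filter.1 hx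
    have a1 : ‖r2 y - yT x‖ ≤ K1 * r := by
      have : r2 y - yT x = r2 (y - c2 (yT x)) := by ext <;> simp [r2, c2]
      rw [this]; exact (norm_r2_le _).trans hy
    have a2 := norm_plr_le he (r2 y - yT x)
    rw [plr_sub] at a2
    have a3 : x - (p + plr e (r2 y)) = -(p + plr e (yT x) - x) - (plr e (r2 y) - plr e (yT x)) := by
      abel
    rw [a3]
    refine (norm_sub_le _ _).trans ?_
    rw [norm_neg]
    nlinarith [h1 x hx]
  · intro x hx x' hx' hne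
    exact h2 x (Finset.mem_filter.1 hx).1 x' (Finset.mem_filter.1 hx').1 hne

lemma ar_le (h4 : ARStmt n) : ∃ K : ℝ, 1 ≤ K ∧ ∀ (g : Cn n → Cn n) (N : ℝ) (p : Rn n) (e : Dir n)
    (ξ : Rn n) (c η T : ℝ), Nor g N → e ∈ Ebox n → ‖ξ‖ ≤ 1 → ‖p‖ ≤ 2 → |c| ≤ T → 0 < η → η ≤ T →
    T ≤ SS g (cx p) 1 → AR (aa g p e ξ c) η 0 1 + 1 ≤ K * (N + XV g 1 η (p + e.1) ξ c) := by
  obtain ⟨K, hK, H⟩ := h4
  refine ⟨5 * K + 1, by linarith, fun g N p e ξ c η T hg he hξ hp hc hη hηT hT => ?_⟩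
  have hN := hg.one
  have hS := SS_pos hg.diff hg.nz (cx p) one_pos
  have hS1 : SS g (cx p) 1 ≤ 1 := hg.SS_le_one (by rw [norm_cx]; linarith)
  have a1 : SS g (cx p) (70 * 1) ≤ Real.exp (5 * N) * SS g (cx p) 1 := by
    have b1 := hg.log_ge (x := p) (by linarith) one_pos (by norm_num)
    rw [Real.log_one, mul_zero, add_zero, Real.le_log_iff_exp_le hS] at b1
    refine (hg.SS_le_one (by rw [norm_cx]; linarith)).trans ?_
    refine le_trans ?_ (mul_le_mul_of_nonneg_left b1 (Real.exp_pos _).le)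
    rw [← Real.exp_add]; simp
  have a2 := H g p p e ξ 0 c η T 1 (5 * N) hg.adm he hξ one_pos (by simp) (by linarith) a1 hc hη
    hηT hT
  rw [c2_zero, plr_zero, add_zero, one_smul] at a2
  have a3 : XV g (SS g (cx p) 1) η (p + e.1) ξ c ≤ XV g 1 η (p + e.1) ξ c := by
    unfold XV
    exact max_le_max le_rfl (sub_le_sub_right (Real.log_le_log hS hS1) _)
  have a4 := XV_nonneg g 1 η (p + e.1) ξ c
  nlinarith [mul_le_mul_of_nonneg_left a3 (by linarith : 0 ≤ K)]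

/-- the inequality on one level -/
lemma level (hn : 3 ≤ n) (h1 : MasterStmt) (h2 : AvgStmt) (h3 : LapStmt) (h4 : ARStmt n)
    (h5 : NetStmt) (K1 K2 K v0 : ℝ) (hK1 : 1 ≤ K1) (hK2 : 10 ≤ K2) (hK : 1 ≤ K) (hv : 0 < v0) :
    ∃ C : ℝ, 1 ≤ C ∧
    ∀ (g : Cn n → Cn n) (N r T η w0 : ℝ) (p : Rn n) (θ : Dir n × Rn n) (F : Finset (Rn n))
    (μ : Rn n → ℝ) (yT : Rn n → ℝ × ℝ) (κ : Type) (QS : Finset κ) (yQ : κ → ℝ × ℝ)
    (ρ w : κ → ℝ) (c : ℝ) (G : Rn n → ℝ) (FQ : κ → ℝ), Nor g N → 0 < r → K1 * r ≤ 1 / 4 →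
    K2 * r ≤ 1 → 0 < T → 0 < η →
    η ≤ T → T ≤ SS g (cx p) 1 → ‖p‖ ≤ 2 → θ ∈ Tbox n → 0 ≤ w0 → |c| ≤ T →
    (∀ y : Cn n, ‖y‖ ≤ 100 → Ul g T y ≤ n) →
    (∀ x ∈ F, 0 ≤ μ x ∧ μ x ≤ 8 * N ∧ ‖yT x‖ ≤ 1 / 4 ∧ ‖p + plr θ.1 (yT x) - x‖ ≤ r ∧
      (∀ y' W : E2, ‖y' - c2 (yT x)‖ ≤ K1 * r → μ x * r ^ (2 * n - 2) * ‖W‖ ^ 2 ≤
        K * ∫ v in closedBall (0 : Cn n) (K2 * r),
          lapd (Ul g T) (cx p + pl θ.1 y' - v) (pl θ.1 W)) ∧
      PackCell (aa g p θ.1 θ.2 c) η r (c2 (yT x)) (K1 * r) K (G x) (K * μ x)) →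
    (∀ x ∈ F, ∀ x' ∈ F, x ≠ x' → r / 2 ≤ ‖x - x'‖) →
    (∀ q ∈ QS, 0 ≤ w q ∧ 0 ≤ FQ q ∧
      Flux (aa g p θ.1 θ.2 c) η r (c2 (yQ q)) (6 * ρ q) (FQ q)) →
    (∀ y ∈ N0 r, n * volume.real (closedBall (0 : Cn n) (K2 * r)) -
        ∫ v in closedBall (0 : Cn n) (K2 * r), Ul g T (cx p + pl θ.1 y - v) ≤
      volume.real (closedBall (0 : Cn n) (K2 * r)) *
        (w0 + ∑ q ∈ QS, if ‖y - c2 (yQ q)‖ ≤ 6 * ρ q then w q else 0)) →
    ∑ x ∈ F, μ x * G x ≤ v0 / 2 * ∑ x ∈ F, μ x ^ 2 + C * ((w0 + N) *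
      (N + XV g 1 η (p + θ.1.1) θ.2 c) + ∑ q ∈ QS, w q * FQ q) := by
  set ω := volume.real (ball (0 : Cn n) 1) with hω
  have hω0 : 0 < ω := om_pos
  set KM := K + K * K2 ^ (2 * n) * ω + (9 * K1 + 5) ^ n with hKM
  have p1 : 0 ≤ K * K2 ^ (2 * n) * ω := by positivity
  have p2 : 0 ≤ (9 * K1 + 5) ^ n := by positivity
  obtain ⟨C, hC, H⟩ := h1 KM (v0 / (2 * K)) (by linarith) (by positivity)
  obtain ⟨KA, hKA, HA⟩ := ar_le h4
  refine ⟨8 * KA * C, by nlinarith, ?_⟩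
  intro g N r T η w0 p θ F μ yT κ QS yQ ρ w c G FQ hg hr hr1 hr2 hT hη hηT hTS hp hθ hw0 hc hU hF
    hsep hQ hD
  set vol := volume.real (closedBall (0 : Cn n) (K2 * r)) with hvol
  have hv1 : vol = (K2 * r) ^ (2 * n) * ω := vol_eq (by positivity)
  have hv0 : 0 < vol := by rw [hv1]; positivity
  have hN := hg.one
  obtain ⟨L1, L2, -⟩ := (h3 (Cn n) T hT).1 (Fin n) g (hg.adm.contDiff 2)
  obtain ⟨A1, A2⟩ := h2 n (Ul g T) (K2 * r) (cx p) θ.1 L1
  have hξ : ‖θ.2‖ ≤ 1 := mem_closedBall_zero_iff.1 hθ.2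
  have key := H (aa g p θ.1 θ.2 c) η r
    (fun y : E2 => ∫ v in closedBall (0 : Cn n) (K2 * r), Ul g T (cx p + pl θ.1 y - v))
    (n * vol) (8 * N * vol) (K1 * r) (w0 * vol) (Rn n) κ F (fun x => c2 (yT x))
    (fun x => μ x * vol) G (fun x => K * μ x) QS (fun q => c2 (yQ q)) (fun q => 6 * ρ q)
    (fun q => w q * vol) FQ (hg.adm.aa _ _ _ _ 2) hη (by nlinarith) A1 ?_ ?_ (by positivity)
    (by positivity) (by positivity) ?_ ?_ ?_ ?_
  · have b1 := HA g N p θ.1 θ.2 c η T hg hθ.1 hξ hp hc hη hηT hTS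
    have b2 := XV_nonneg g 1 η (p + θ.1.1) θ.2 c
    have b3 : 0 ≤ ∑ q ∈ QS, w q * FQ q :=
      Finset.sum_nonneg fun q hq => mul_nonneg (hQ q hq).1 (hQ q hq).2.1
    have e1 : ∑ x ∈ F, μ x * vol * G x = vol * ∑ x ∈ F, μ x * G x := by
      rw [Finset.mul_sum]; exact Finset.sum_congr rfl fun x _ => by ring
    have e2 : v0 / (2 * K) * ∑ x ∈ F, μ x * vol * (K * μ x) =
        vol * (v0 / 2 * ∑ x ∈ F, μ x ^ 2) := by
      rw [Finset.mul_sum, Finset.mul_sum, Finset.mul_sum]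
      exact Finset.sum_congr rfl fun x _ => by field_simp
    have e3 : ∑ q ∈ QS, w q * vol * FQ q = vol * ∑ q ∈ QS, w q * FQ q := by
      rw [Finset.mul_sum]; exact Finset.sum_congr rfl fun x _ => by ring
    rw [e1, e2, e3] at key
    refine le_of_mul_le_mul_left (key.trans ?_) hv0
    have b4 : (w0 + 8 * N) * (AR (aa g p θ.1 θ.2 c) η 0 1 + 1) ≤
        8 * KA * ((w0 + N) * (N + XV g 1 η (p + θ.1.1) θ.2 c)) := by
      have := mul_le_mul (show w0 + 8 * N ≤ 8 * (w0 + N) by linarith) b1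
        (by linarith [AR_nonneg (aa g p θ.1 θ.2 c) η 0 1]) (by positivity)
      linarith
    have b5 : ∑ q ∈ QS, w q * FQ q ≤ 8 * KA * ∑ q ∈ QS, w q * FQ q :=
      le_mul_of_one_le_left b3 (by linarith)
    have b6 := mul_le_mul_of_nonneg_left (add_le_add b4 b5) (show 0 ≤ vol * C by positivity)
    linarith
  · intro y
    rw [A2]
    exact integral_nonneg fun v => L2 _ _
  · intro y hy
    have b1 : IntegrableOn (fun v => Ul g T (cx p + pl θ.1 y - v))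
        (closedBall (0 : Cn n) (K2 * r)) :=
      intOn (L1.continuous.comp (continuous_const.sub continuous_id)) isBounded_closedBall
    have b2 := setIntegral_mono_on b1 (intOn (F := fun _ => (n : ℝ)) continuous_const
      isBounded_closedBall) measurableSet_closedBall fun v hv => hU _ (by
        have c1 := mem_closedBall_zero_iff.1 hv
        have c2 := norm_pl_le hθ.1 y
        have c3 := norm_sub_le (cx p + pl θ.1 y) v
        have c4 := norm_add_le (cx p) (pl θ.1 y)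
        rw [norm_cx] at c4
        linarith)
    rw [setIntegral_const, smul_eq_mul] at b2
    exact b2.trans_eq (mul_comm _ _)
  · intro x hx
    obtain ⟨f1, f2, f3, f4, f5, f6⟩ := hF x hx
    refine ⟨by positivity, mul_le_mul_of_nonneg_right f2 hv0.le, by positivity,
      by rw [norm_c2]; linarith, packCell_mono f6 (by linarith), fun y hy => ?_⟩
    have b1 := f5 y (Wf (aa g p θ.1 θ.2 c) y) hy
    rw [A2]
    set Λ := ∫ v in closedBall (0 : Cn n) (K2 * r),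
      lapd (Ul g T) (cx p + pl θ.1 y - v) (pl θ.1 (Wf (aa g p θ.1 θ.2 c) y)) with hΛ
    have b2 : 0 ≤ Λ := integral_nonneg fun v => L2 _ _
    set W := ‖Wf (aa g p θ.1 θ.2 c) y‖ ^ 2 with hW
    have b3 : 0 ≤ W := sq_nonneg _
    have b4 : r ^ (2 * n) = r ^ (2 * n - 2) * r ^ 2 := by
      rw [← pow_add]; congr 1; omega
    have b5 : μ x * vol * W / (K1 * r) ^ 2 =
        K2 ^ (2 * n) * ω * (μ x * r ^ (2 * n - 2) * W) / K1 ^ 2 := by
      rw [hv1, mul_pow, mul_pow, b4]; field_simp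
    rw [b5]
    refine (div_le_self (by positivity) (by nlinarith)).trans ?_
    refine (mul_le_mul_of_nonneg_left b1 (by positivity)).trans ?_
    have := mul_le_mul_of_nonneg_right (show K * K2 ^ (2 * n) * ω ≤ KM by linarith) b2
    linarith
  · intro y
    exact (overlap h5 hK1 hr hθ.1 F yT (fun x hx => (hF x hx).2.2.2.1) hsep y).trans (by linarith)
  · intro q hq
    exact ⟨mul_nonneg (hQ q hq).1 hv0.le, (hQ q hq).2⟩
  · intro y hy
    refine (hD y hy).trans (le_of_eq ?_)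
    rw [mul_add, Finset.mul_sum, mul_comm vol w0]
    congr 1
    exact Finset.sum_congr rfl fun q _ => by split_ifs <;> ring

lemma integ {ι κ : Type} {f : ℝ → ℝ} (t1 : Continuous f) (t2 : ∀ c, 0 ≤ f c)
    (t4 : HasCompactSupport f) (t5 : ∫ c, f c ≤ 1) (F : Finset ι) (QS : Finset κ) (μ : ι → ℝ)
    (w : κ → ℝ) (G : ι → ℝ → ℝ) (FQ : κ → ℝ → ℝ) (X : ℝ → ℝ) (G1 : ∀ x, Continuous (G x))
    (F1 : ∀ q, Continuous (FQ q)) (hX : Continuous X) {a b C : ℝ} (ha : 0 ≤ a)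
    (H : ∀ c, f c ≠ 0 → ∑ x ∈ F, μ x * G x c ≤ a + (b * X c + C * ∑ q ∈ QS, w q * FQ q c)) :
    ∑ x ∈ F, μ x * ∫ c, f c * G x c ≤
      a + (b * (∫ c, f c * X c) + C * ∑ q ∈ QS, w q * ∫ c, f c * FQ q c) := by
  have hI : ∀ h : ℝ → ℝ, Continuous h → Integrable fun c => f c * h c := fun h hh =>
    (t1.mul hh).integrable_of_hasCompactSupport t4.mul_right
  have pw : ∀ c, ∑ x ∈ F, μ x * (f c * G x c) ≤
      a * f c + (b * (f c * X c) + C * ∑ q ∈ QS, w q * (f c * FQ q c)) := by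
    intro c
    by_cases hc : f c = 0
    · simp [hc]
    · have := mul_le_mul_of_nonneg_left (H c hc) (t2 c)
      have e1 : ∑ x ∈ F, μ x * (f c * G x c) = f c * ∑ x ∈ F, μ x * G x c := by
        rw [Finset.mul_sum]; exact Finset.sum_congr rfl fun x _ => by ring
      have e2 : ∑ q ∈ QS, w q * (f c * FQ q c) = f c * ∑ q ∈ QS, w q * FQ q c := by
        rw [Finset.mul_sum]; exact Finset.sum_congr rfl fun x _ => by ring
      rw [e1, e2]
      linarith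
  have i1 : ∀ x ∈ F, Integrable fun c => μ x * (f c * G x c) := fun x _ =>
    (hI _ (G1 x)).const_mul _
  have i2 : ∀ q ∈ QS, Integrable fun c => w q * (f c * FQ q c) := fun q _ =>
    (hI _ (F1 q)).const_mul _
  have i3 : Integrable fun c => a * f c := (t1.integrable_of_hasCompactSupport t4).const_mul a
  have i4 : Integrable fun c => b * (f c * X c) := (hI _ hX).const_mul b
  have i5 : Integrable fun c => C * ∑ q ∈ QS, w q * (f c * FQ q c) :=
    (integrable_finsetSum QS i2).const_mul C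
  have i6 : Integrable fun c => b * (f c * X c) + C * ∑ q ∈ QS, w q * (f c * FQ q c) := i4.add i5
  have i7 : Integrable fun c =>
      a * f c + (b * (f c * X c) + C * ∑ q ∈ QS, w q * (f c * FQ q c)) := i3.add i6
  have main := integral_mono (integrable_finsetSum F i1) i7 pw
  rw [integral_add i3 i6, integral_add i4 i5, integral_const_mul, integral_const_mul,
    integral_const_mul, integral_finsetSum F i1, integral_finsetSum QS i2] at main
  simp only [integral_const_mul] at main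
  have a5 := mul_le_mul_of_nonneg_left t5 ha
  linarith

lemma cXV {g : Cn n → Cn n} (hg : Continuous g) (S : ℝ) {η : ℝ} (hη : 0 < η) (x ξ : Rn n) :
    Continuous fun c : ℝ => XV g S η x ξ c :=
  (continuous_XV hg S hη).comp (f := fun c : ℝ => (x, ξ, c)) (by fun_prop)

lemma fin_alg {v0 C S Z : ℝ} (hv : 0 < v0) (hZ : 0 ≤ Z) (h : v0 * S ≤ v0 / 2 * S + C * Z) :
    S ≤ (1 + 2 / v0 * C) * Z := by
  have a8 : v0 / 2 * S ≤ C * Z := by linarith
  have := mul_le_mul_of_nonneg_left a8 (show 0 ≤ 2 / v0 by positivity)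
  rw [← mul_assoc, ← mul_assoc, show 2 / v0 * (v0 / 2) = 1 by field_simp, one_mul] at this
  linarith

end Omega

theorem omegaS (hn : 3 ≤ n) (h1 : MasterStmt) (h2 : AvgStmt) (h3 : LapStmt) (h4 : ARStmt n)
    (h5 : NetStmt) (h6 : PtStmt) : OmegaStmt n := by
  intro K1 K2 K v0 hK1 hK2 hK hv
  obtain ⟨C, hC, H⟩ := Omega.level hn h1 h2 h3 h4 h5 K1 K2 K v0 hK1 hK2 hK hv
  refine ⟨1 + 2 / v0 * C, by have : 0 ≤ 2 / v0 * C := by positivity
                             linarith, ?_⟩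
  intro g N r T ε η w0 p θ F μ yT κ QS yQ ρ w V hg hr hr1 hr2 hT hε hη hηT hTS hp hθ hw0 hU hF
    hsep hQ hD
  obtain ⟨t1, t2, t3, t4, t5, -⟩ := h6.1 ε T hε hT
  have hG : ∀ x, ∃ G : ℝ → ℝ, Continuous G ∧ (x ∈ F → v0 * μ x ≤ ∫ c, pt ε T c * G c ∧
      ∀ c, |c| ≤ T → PackCell (aa g p θ.1 θ.2 c) η r (c2 (yT x)) (K1 * r) K (G c) (K * μ x)) := by
    intro x
    by_cases hx : x ∈ F
    · obtain ⟨G, g1, g2⟩ := (hF x hx).2.2.2.2.2
      exact ⟨G, g1, fun _ => g2⟩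
    · exact ⟨0, continuous_const, fun h => absurd h hx⟩
  choose G G1 G2 using hG
  have hFQ : ∀ q, ∃ FQ : ℝ → ℝ, Continuous FQ ∧ (q ∈ QS → ∫ c, pt ε T c * FQ c ≤ V q ∧
      ∀ c, |c| ≤ T → 0 ≤ FQ c ∧ Flux (aa g p θ.1 θ.2 c) η r (c2 (yQ q)) (6 * ρ q) (FQ c)) := by
    intro q
    by_cases hq : q ∈ QS
    · obtain ⟨G, g1, g2⟩ := (hQ q hq).2
      exact ⟨G, g1, fun _ => g2⟩
    · exact ⟨0, continuous_const, fun h => absurd h hq⟩
  choose FQ F1 F2 using hFQ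
  have hX : Continuous fun c : ℝ => XV g 1 η (p + θ.1.1) θ.2 c :=
    Omega.cXV hg.adm.continuous 1 hη _ _
  have hN := hg.one
  have hC0 : 0 ≤ C := by linarith
  have hwN : 0 ≤ w0 + N := by linarith
  have hS0 : 0 ≤ ∑ x ∈ F, μ x ^ 2 := Finset.sum_nonneg fun x _ => sq_nonneg _
  have main := Omega.integ t1 t2 t4 t5 F QS μ w G FQ _ G1 F1 hX
    (a := v0 / 2 * ∑ x ∈ F, μ x ^ 2 + C * ((w0 + N) * N)) (b := C * (w0 + N)) (C := C)
    (add_nonneg (mul_nonneg (by linarith) hS0) (mul_nonneg hC0 (mul_nonneg hwN (by linarith))))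
    (fun c hc0 => by
      have hc : |c| ≤ T := le_of_not_ge fun h => hc0 (t3 c h)
      have := H g N r T η w0 p θ F μ yT κ QS yQ ρ w c (fun x => G x c)
        (fun q => FQ q c) hg hr hr1 hr2 hT hη hηT hTS hp hθ hw0 hc hU
        (fun x hx => ⟨(hF x hx).1, (hF x hx).2.1, (hF x hx).2.2.1, (hF x hx).2.2.2.1,
          (hF x hx).2.2.2.2.1, (G2 x hx).2 c hc⟩) hsep
        (fun q hq => ⟨(hQ q hq).1, (F2 q hq).2 c hc⟩) hD
      exact this.trans_eq (by ring))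
  have a1 : v0 * ∑ x ∈ F, μ x ^ 2 ≤ ∑ x ∈ F, μ x * ∫ c, pt ε T c * G x c := by
    rw [Finset.mul_sum]
    refine Finset.sum_le_sum fun x hx => ?_
    exact le_of_eq_of_le (by ring) (mul_le_mul_of_nonneg_left (G2 x hx).1 (hF x hx).1)
  have a2 : ∑ q ∈ QS, w q * ∫ c, pt ε T c * FQ q c ≤ ∑ q ∈ QS, w q * V q :=
    Finset.sum_le_sum fun q hq => mul_le_mul_of_nonneg_left (F2 q hq).1 (hQ q hq).1
  have a3 : 0 ≤ ∑ q ∈ QS, w q * V q := Finset.sum_nonneg fun q hq =>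
    mul_nonneg (hQ q hq).1 (le_trans (integral_nonneg fun c => by
      rcases le_total T |c| with hc | hc
      · simp [t3 c hc]
      · exact mul_nonneg (t2 c) ((F2 q hq).2 c hc).1) (F2 q hq).1)
  have a4 : 0 ≤ ∫ c, pt ε T c * XV g 1 η (p + θ.1.1) θ.2 c :=
    integral_nonneg fun c => mul_nonneg (t2 c) (XV_nonneg _ _ _ _ _ _)
  have a6 := mul_le_mul_of_nonneg_left a2 hC0
  refine Omega.fin_alg hv (add_nonneg (mul_nonneg hwN (add_nonneg (by linarith) a4)) a3) ?_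
  refine a1.trans (main.trans ?_)
  exact (add_le_add le_rfl (add_le_add le_rfl a6)).trans_eq (by ring)

end

end Pool.Agent.LinN2
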