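import Pool.Agent.Lib.MP_8465a2_an.N2.BasicB

/-!
Packing cells on random planes (MP_8465a2_an).
-/

namespace Pool.Agent.LinN2

open MeasureTheory Metric Set Filter Topology Complex
open scoped ENNReal ComplexConjugate

noncomputable section

variable {n : ℕ}

namespace PCellAux

lemma shift_le {F : Cn n → ℝ} (hF : Continuous F) (h0 : ∀ v, 0 ≤ F v) (z q : Cn n) {R1 R2 : ℝ}
    (h : ‖z - q‖ + R1 ≤ R2) :
    ∫ v in closedBall (0 : Cn n) R1, F (z + v) ≤ ∫ v in closedBall (0 : Cn n) R2, F (q - v) := by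
  have e1 : ∫ v in closedBall (0 : Cn n) R1, F (z + v) = ∫ w in closedBall z R1, F w := by
    rw [← integral_indicator measurableSet_closedBall, ← integral_indicator measurableSet_closedBall,
      ← integral_add_left_eq_self ((closedBall z R1).indicator F) z]
    refine integral_congr_ae (ae_of_all _ fun v => ?_)
    simp only [indicator, mem_closedBall_iff_norm, sub_zero, add_sub_cancel_left]
  have e2 : ∫ v in closedBall (0 : Cn n) R2, F (q - v) = ∫ w in closedBall q R2, F w := by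
    rw [← integral_indicator measurableSet_closedBall, ← integral_indicator measurableSet_closedBall,
      ← integral_sub_left_eq_self ((closedBall q R2).indicator F) volume q]
    refine integral_congr_ae (ae_of_all _ fun v => ?_)
    simp only [indicator, mem_closedBall_iff_norm, sub_zero, sub_sub_cancel_left, norm_neg]
  rw [e1, e2]
  refine setIntegral_mono_set (intOn hF isBounded_closedBall) (ae_of_all _ h0)
    (LE.le.eventuallyLE fun w hw => ?_)
  rw [mem_closedBall_iff_norm] at hw ⊢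
  linarith [norm_sub_le_norm_sub_add_norm_sub w z q]

/-- the set of good planes -/
def good (g : Cn n → Cn n) (x : Rn n) (r ρ α s : ℝ) (u1 u2 : Rn n) :
    Set (Rn n × (Dir n × Rn n)) :=
  {z | ‖z.1 - x‖ ≤ ρ ∧ z.2 ∈ Tbox n ∧ α ≤ |dt u1 u2 z.2.1| ∧
    s ≤ ‖cx z.2.2 ⬝ᵥ g (cx (z.1 + r • z.2.1.1))‖}

lemma meas_good {g : Cn n → Cn n} (hg : Continuous g) (hT : MeasurableSet (Tbox n)) (x : Rn n)
    (r ρ α s : ℝ) (u1 u2 : Rn n) : MeasurableSet (good g x r ρ α s u1 u2) := by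
  have a1 : MeasurableSet {z : Rn n × (Dir n × Rn n) | ‖z.1 - x‖ ≤ ρ} :=
    (isClosed_le (by fun_prop) continuous_const).measurableSet
  have a2 : MeasurableSet {z : Rn n × (Dir n × Rn n) | α ≤ |dt u1 u2 z.2.1|} :=
    (isClosed_le continuous_const (by unfold dt dotProduct; fun_prop)).measurableSet
  have a3 : MeasurableSet {z : Rn n × (Dir n × Rn n) |
      s ≤ ‖cx z.2.2 ⬝ᵥ g (cx (z.1 + r • z.2.1.1))‖} :=
    (isClosed_le continuous_const (by unfold dotProduct; fun_prop)).measurableSet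
  exact a1.inter ((measurable_snd hT).inter (a2.inter a3))

lemma vol_good {g : Cn n → Cn n} (hg : Continuous g) (hT : MeasurableSet (Tbox n))
    (hV : volume (Tbox n) = ENNReal.ofReal ((1 / 8) ^ n)) (x : Rn n) {r ρ α s : ℝ} (hρ : 0 ≤ ρ)
    (u1 u2 : Rn n)
    (h1 : volume {θ ∈ Tbox n | |dt u1 u2 θ.1| ≤ α} ≤ ENNReal.ofReal ((1 / 8) ^ n / 4))
    (h2 : ∀ p : Rn n, ‖p - x‖ ≤ ρ → volume {θ ∈ Tbox n |
      ‖cx θ.2 ⬝ᵥ g (cx (p + r • θ.1.1)) - (0 : ℝ)‖ ≤ s} ≤ ENNReal.ofReal ((1 / 8) ^ n / 4)) :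
    ENNReal.ofReal ((1 / 8) ^ n / 2 * (2 * ρ) ^ n) ≤ volume (good g x r ρ α s u1 u2) := by
  have hm := meas_good hg hT x r ρ α s u1 u2
  have hp : (0 : ℝ) < (1 / 8) ^ n := by positivity
  rw [Measure.volume_eq_prod, Measure.prod_apply hm]
  have key : ∀ p ∈ closedBall x ρ, ENNReal.ofReal ((1 / 8) ^ n / 2) ≤
      volume (Prod.mk p ⁻¹' good g x r ρ α s u1 u2) := fun p hp' => by
    rw [mem_closedBall_iff_norm] at hp'
    have hsub : Tbox n ⊆ (Prod.mk p ⁻¹' good g x r ρ α s u1 u2) ∪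
        ({θ ∈ Tbox n | |dt u1 u2 θ.1| ≤ α} ∪ {θ ∈ Tbox n |
          ‖cx θ.2 ⬝ᵥ g (cx (p + r • θ.1.1)) - (0 : ℝ)‖ ≤ s}) := fun θ hθ => by
      by_cases a1 : |dt u1 u2 θ.1| ≤ α
      · exact Or.inr (Or.inl ⟨hθ, a1⟩)
      by_cases a2 : ‖cx θ.2 ⬝ᵥ g (cx (p + r • θ.1.1)) - (0 : ℝ)‖ ≤ s
      · exact Or.inr (Or.inr ⟨hθ, a2⟩)
      refine Or.inl ⟨hp', hθ, (not_le.1 a1).le, ?_⟩
      simpa using (not_le.1 a2).le
    have h3 := (measure_mono (μ := volume) hsub).trans ((measure_union_le _ _).trans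
      (add_le_add le_rfl ((measure_union_le _ _).trans (add_le_add h1 (h2 p hp')))))
    rw [hV, ← ENNReal.ofReal_add (by positivity) (by positivity),
      show ((1 : ℝ) / 8) ^ n = (1 / 8) ^ n / 2 + ((1 / 8) ^ n / 4 + (1 / 8) ^ n / 4) by ring_nf,
      ENNReal.ofReal_add (by positivity) (by positivity)] at h3
    have e : ((1 : ℝ) / 8) ^ n / 2 + ((1 / 8) ^ n / 4 + (1 / 8) ^ n / 4) = (1 / 8) ^ n := by ring
    rw [e] at h3
    exact (ENNReal.add_le_add_iff_right ENNReal.ofReal_ne_top).1 h3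
  calc ENNReal.ofReal ((1 / 8) ^ n / 2 * (2 * ρ) ^ n)
      = ∫⁻ _ in closedBall x ρ, ENNReal.ofReal ((1 / 8) ^ n / 2) := by
        rw [setLIntegral_const, Real.volume_pi_closedBall x hρ, Fintype.card_fin,
          ENNReal.ofReal_mul (by positivity)]
    _ ≤ ∫⁻ p in closedBall x ρ, volume (Prod.mk p ⁻¹' good g x r ρ α s u1 u2) :=
        setLIntegral_mono' measurableSet_closedBall key
    _ ≤ _ := setLIntegral_le_lintegral _ _

/-- transport of the charged area bound from the model to the plane -/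
lemma transport (h7 : AffStmt) {a : E2 → ℂ} (ha : ContDiff ℂ 2 a) {η : ℝ} (hη : 0 < η)
    (M : E2 ≃L[ℂ] E2) (y0 : E2) {χ : E2 → ℝ} (hχ : Cut χ) {R ρ c : ℝ}
    (h1 : ∀ u, ‖u‖ ≤ R → ‖M u‖ ≤ ρ) (h2 : ∀ y, ‖M.symm y‖ ≤ c * ‖y‖) :
    (∫ u in closedBall 0 R, χ (y0 + M u) * (wt η (a (y0 + M u)) *
        ‖Wf (fun u => a (y0 + M u)) u‖ ^ 2)) ≤
      c ^ 2 * ∫ y in closedBall y0 ρ, χ y * (wt η (a y) * ‖Wf a y‖ ^ 2) ∧
    En (fun u => a (y0 + M u)) η (closedBall 0 R) (fun u => χ (y0 + M u)) ≤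
      En a η (closedBall y0 ρ) χ := by
  have hd : Differentiable ℂ a := ha.differentiable two_ne_zero
  have hχd : Differentiable ℝ χ := hχ.sm.differentiable one_ne_zero
  have hin : ∀ y, M.symm (y - y0) ∈ closedBall (0 : E2) R → y ∈ closedBall y0 ρ := fun y hy => by
    rw [mem_closedBall_iff_norm]
    simpa using h1 _ (mem_closedBall_zero_iff.1 hy)
  constructor
  · have e := (h7 M y0 a η ((closedBall (0 : E2) R).indicator fun u => χ (y0 + M u)) hd).2
    have hc1 : Continuous fun y => χ y * (wt η (a y) * ‖Wf a y‖ ^ 2) :=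
      hχ.sm.continuous.mul (continuous_wW ha hη)
    rw [← integral_indicator measurableSet_closedBall, ← integral_const_mul,
      ← integral_indicator measurableSet_closedBall]
    refine le_of_eq_of_le ?_ (le_of_eq_of_le e (integral_mono_of_nonneg (ae_of_all _ fun y => ?_)
      ((integrable_indicator_iff measurableSet_closedBall).2
        (intOn (continuous_const.mul hc1) isBounded_closedBall)) (ae_of_all _ fun y => ?_)))
    · refine integral_congr_ae (ae_of_all _ fun u => ?_)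
      by_cases hu : u ∈ closedBall (0 : E2) R <;> simp [hu]
    · exact mul_nonneg (indicator_nonneg (fun _ _ => hχ.nn _) _)
        (mul_nonneg (wt_nonneg _ _) (sq_nonneg _))
    · by_cases hy : M.symm (y - y0) ∈ closedBall (0 : E2) R
      · simp only [indicator_of_mem hy, indicator_of_mem (hin y hy),
          ContinuousLinearEquiv.apply_symm_apply, add_sub_cancel]
        have a1 : ‖M.symm (Wf a y)‖ ^ 2 ≤ c ^ 2 * ‖Wf a y‖ ^ 2 := by
          rw [← mul_pow]; gcongr; exact h2 _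
        have a2 := mul_nonneg (hχ.nn y) (wt_nonneg η (a y))
        nlinarith [mul_le_mul_of_nonneg_left a1 a2]
      · simp only [indicator_of_notMem hy, zero_mul]
        exact indicator_nonneg (fun y _ => mul_nonneg (sq_nonneg _) (mul_nonneg (hχ.nn _)
          (mul_nonneg (wt_nonneg _ _) (sq_nonneg _)))) _
  · have e := (h7 M y0 a η ((closedBall (0 : E2) R).indicator fun _ => 1) hd).1 χ χ hχd hχd
    unfold En Bf
    rw [← integral_indicator measurableSet_closedBall, ← integral_indicator measurableSet_closedBall]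
    refine le_of_eq_of_le ?_ (le_of_eq_of_le e (integral_mono_of_nonneg (ae_of_all _ fun y => ?_)
      ((integrable_indicator_iff measurableSet_closedBall).2
        (intOn (continuous_wbf ha hη hχ.sm hχ.sm) isBounded_closedBall))
        (ae_of_all _ fun y => ?_)))
    · refine integral_congr_ae (ae_of_all _ fun u => ?_)
      by_cases hu : u ∈ closedBall (0 : E2) R <;> simp [hu]
    · exact mul_nonneg (indicator_nonneg (fun _ _ => zero_le_one) _)
        (mul_nonneg (wt_nonneg _ _) (bf_nonneg _ _ _))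
    · by_cases hy : M.symm (y - y0) ∈ closedBall (0 : E2) R
      · simp only [indicator_of_mem hy, indicator_of_mem (hin y hy), one_mul, le_refl]
      · simp only [indicator_of_notMem hy, zero_mul]
        exact indicator_nonneg (fun y _ => mul_nonneg (wt_nonneg _ _) (bf_nonneg _ _ _)) _

/-- area of the model -/
lemma area_model {KA : ℝ} (hKA : ∀ (f : E2 → ℂ) (η : ℝ) (l : E2 →L[ℂ] ℂ) (y0 y1 : E2) (R M : ℝ),
    ContDiff ℂ 2 f → 0 < η → 0 < R → ‖y1 - y0‖ ≤ R →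
    (∀ y, ‖y - y0‖ ≤ 4 * R → U1 f η y - (l y).re ≤ M) →
    Ar f η (closedBall y0 R) ≤ KA * R ^ 2 * (M - (U1 f η y1 - (l y1).re))) (hK : 0 ≤ KA)
    {A : E2 → ℂ} {S μ X X' B R c η T : ℝ} {y1 : E2} (hA : Wav A S μ X B) (hS : 0 < S)
    (hμ : 0 ≤ μ) (hX : 0 ≤ X) (hX' : 0 ≤ X') (hB : 0 ≤ B) (hR : 1 ≤ R) (hRB : 4 * R ≤ Real.exp B)
    (hy : ‖y1‖ ≤ R) (hl : S * Real.exp (-X') ≤ ‖sym A y1‖) (hc : |c| ≤ T) (hη : 0 < η)
    (hηT : η ≤ T) (hT : T ≤ S * Real.exp (-X') / 2) :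
    Ar (fun u => sym A u - c) η (closedBall 0 R) ≤
      KA * R ^ 2 * (3 + X + X' + μ * Real.log (4 * R)) := by
  have hE : S * Real.exp (-X') ≤ S := mul_le_of_le_one_right hS.le
    (Real.exp_le_one_iff.2 (by linarith))
  have hp : 0 < S * Real.exp (-X') := by positivity
  set Z := S * Real.exp X * (4 * R) ^ μ with hZ
  have hZS : S ≤ Z := by
    rw [hZ, mul_assoc]
    exact le_mul_of_one_le_right hS.le (one_le_mul_of_one_le_of_one_le (Real.one_le_exp hX)
      (Real.one_le_rpow (by linarith) hμ))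
  have hcn : ‖(c : ℂ)‖ ≤ T := by rwa [Complex.norm_real]
  refine (hKA _ η 0 0 y1 R (Real.log (4 * Z)) (hA.sub_sm c) hη (by linarith) (by simpa using hy)
    fun y hy => ?_).trans (mul_le_mul_of_nonneg_left ?_ (by positivity))
  · rw [sub_zero] at hy
    have h1 : ‖sym A y‖ ≤ 2 * Z := (hA.norm_sym hS.le hμ (hy.trans hRB)).trans (by
      rw [hZ]
      gcongr
      exact max_le hy ((Real.exp_le_one_iff.2 (by linarith)).trans (by linarith)))
    have h2 : ‖sym A y - c‖ ≤ 3 * Z := (norm_sub_le _ _).trans (by linarith)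
    have h3 : ‖sym A y - c‖ ^ 2 + η ^ 2 ≤ (4 * Z) ^ 2 := by
      have := pow_le_pow_left₀ (norm_nonneg _) h2 2
      have := pow_le_pow_left₀ hη.le (show η ≤ Z by linarith) 2
      nlinarith [sq_nonneg Z]
    have h4 := Real.log_le_log (by positivity) h3
    rw [Real.log_pow] at h4
    simp only [U1, zero_apply, zero_re, sub_zero]
    push_cast at h4
    linarith
  · have h1 : S * Real.exp (-X') / 2 ≤ ‖sym A y1 - c‖ := by
      linarith [norm_sub_norm_le (sym A y1) c]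
    have h3 : (S * Real.exp (-X') / 2) ^ 2 ≤ ‖sym A y1 - c‖ ^ 2 + η ^ 2 :=
      (pow_le_pow_left₀ (by positivity) h1 2).trans (le_add_of_nonneg_right (sq_nonneg _))
    have h4 := Real.log_le_log (by positivity) h3
    rw [Real.log_pow, Real.log_div hp.ne' two_ne_zero, Real.log_mul hS.ne' (Real.exp_pos _).ne',
      Real.log_exp] at h4
    have h5 : Real.log (4 * Z) = 2 * Real.log 2 + Real.log S + X + μ * Real.log (4 * R) := by
      rw [hZ, Real.log_mul (by norm_num) (by positivity), Real.log_mul (by positivity)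
        (by positivity), Real.log_mul hS.ne' (Real.exp_pos _).ne', Real.log_exp,
        Real.log_rpow (by linarith), show (4 : ℝ) = 2 ^ 2 by norm_num, Real.log_pow]
      push_cast; ring
    simp only [U1, zero_apply, zero_re, sub_zero]
    push_cast at h4
    linarith [Real.log_two_lt_d9]

/-- nearly real points of the model are nearly real points of the plane -/
lemma mem_N0_of {M : E2 ≃L[ℂ] E2} {c r η' : ℝ} {y : ℝ × ℝ} (hy : ‖y‖ ≤ 1 / 4) (hc : 0 ≤ c)
    (h1 : ∀ u, ‖M u‖ ≤ c * ‖u‖) (h2 : ∀ u, star (M u) = M (conj u.2, conj u.1))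
    (h3 : 4 * c ≤ 1 / 4) (h4 : c * η' ≤ r) {u : E2} (hu : ‖u‖ ≤ 4) (hu' : ‖u.1 - conj u.2‖ ≤ η') :
    c2 y + M u ∈ N0 r := by
  have a1 : ‖c2 y + M u‖ ≤ 1 := (norm_add_le _ _).trans (by
    rw [norm_c2]
    nlinarith [h1 u, mul_le_mul_of_nonneg_left hu hc])
  have a2 : ‖M u - star (M u)‖ ≤ r := by
    rw [h2, ← map_sub]
    refine (h1 _).trans (le_trans (mul_le_mul_of_nonneg_left (max_le hu' ?_) hc) h4)
    rw [← Complex.norm_conj, ← norm_neg]
    simpa using hu'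
  have key : ∀ z : ℂ, ‖z - conj z‖ ≤ r → |z.im| ≤ r := fun z hz => by
    rw [Complex.sub_conj, norm_mul, Complex.norm_I, Complex.norm_real, Real.norm_eq_abs, abs_mul,
      abs_two] at hz
    linarith [abs_nonneg z.im]
  refine mem_N0.2 ⟨(norm_r2_le _).trans a1, max_le ?_ ?_⟩
  · simpa [i2, c2] using key (M u).1 ((norm_fst_le _).trans a2)
  · simpa [i2, c2] using key (M u).2 ((norm_snd_le _).trans a2)

lemma ev_le {c : ℝ} (hc : 0 < c) : ∀ᶠ t in 𝓝[>] (0 : ℝ), 0 < t ∧ t ≤ c :=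
  Ioc_mem_nhdsGT hc

end PCellAux

open PCellAux in
theorem pcell (hn : 3 ≤ n) (h1 : LeviStmt n) (h2 : PlaneStmt n) (h3 : WaveStmt n) (h4 : WindStmt)
    (h5 : GroundStmt) (h6 : PoincStmt) (h7 : AffStmt) (h8 : AreaStmt) (h9 : MomStmt n)
    (h10 : GrazeStmt n) (h11 : PtStmt) (h12 : LapStmt) : PCellStmt n := by
  intro C0 hC0
  have hn' : (3 : ℝ) ≤ n := by exact_mod_cast hn
  obtain ⟨-, ⟨KG, hKG, hG⟩, hTv, hTm⟩ := h10
  obtain ⟨KM, hKM, hM⟩ := h9
  obtain ⟨KA, hKA, hA⟩ := h8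
  obtain ⟨KP, hKP, hP⟩ := h6
  obtain ⟨KW, hKW, hW⟩ := h3
  obtain ⟨KI, hKI, hI⟩ := h4 (3 * n) (by linarith)
  obtain ⟨-, hGr, -, -, hG4, -, -, -, -, hVV⟩ := h11
  have hq : (0 : ℝ) < (1 / 8) ^ n := by positivity
  have hq1 : ((1 : ℝ) / 8) ^ n ≤ 1 := pow_le_one₀ (by norm_num) (by norm_num)
  obtain ⟨α, hα, hα1, hαG⟩ : ∃ α : ℝ, 0 < α ∧ α ≤ 1 ∧ KG * √α = (1 / 8) ^ n / 4 := by
    refine ⟨((1 / 8) ^ n / (4 * KG)) ^ 2, by positivity, pow_le_one₀ (by positivity) ?_, ?_⟩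
    · rw [div_le_one (by positivity)]; linarith
    · rw [Real.sqrt_sq (by positivity)]; field_simp
  obtain ⟨KL, hKL, hL⟩ := h1 C0 α hC0 hα
  obtain ⟨d1, hd1, hd1'⟩ : ∃ d1 : ℝ, 2 ≤ d1 ∧ C0 + Real.log (n * 70) ≤ d1 :=
    ⟨_, le_max_left _ _, le_max_right _ _⟩
  obtain ⟨s1, hs1, hs1'⟩ : ∃ s1 : ℝ, 0 ≤ s1 ∧
      KM * Real.exp (-s1 / (KM * d1)) = (1 / 8) ^ n / 4 := by
    have : (1 / 8) ^ n / (4 * KM) ≤ 1 := by rw [div_le_one (by positivity)]; linarith
    refine ⟨KM * d1 * -Real.log ((1 / 8) ^ n / (4 * KM)), mul_nonneg (by positivity)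
      (neg_nonneg.2 (Real.log_nonpos (by positivity) this)), ?_⟩
    rw [← mul_neg, neg_neg, mul_div_cancel_left₀ _ (by positivity), Real.exp_log (by positivity)]
    field_simp
  obtain ⟨c1, hc1⟩ : ∃ c1 : ℝ, c1 = C0 + 3 * KW + s1 + 1 := ⟨_, rfl⟩
  obtain ⟨Sw, hSw, hSw'⟩ : ∃ Sw : ℝ, 1 ≤ Sw ∧ 8 * KI * c1 / VV ≤ Sw :=
    ⟨_, le_max_left _ _, le_max_right _ _⟩
  obtain ⟨R, hR⟩ : ∃ R : ℝ, R = Real.exp 5 + 3 * n := ⟨_, rfl⟩
  have he5 : 4 ≤ Real.exp 5 := by linarith [Real.add_one_le_exp (5 : ℝ)]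
  have hR1 : 1 ≤ R := by linarith
  have hlR : 0 ≤ Real.log (4 * R) := Real.log_nonneg (by linarith)
  obtain ⟨B1, hB1⟩ : ∃ B1 : ℝ, B1 = Sw + 1 + KI + 4 * R := ⟨_, rfl⟩
  obtain ⟨lam, hlam⟩ : ∃ lam : ℝ, lam = 4 * n / α := ⟨_, rfl⟩
  have hlam1 : 1 ≤ lam := by rw [hlam, le_div_iff₀ hα]; linarith
  have hll : 0 ≤ Real.log lam := Real.log_nonneg hlam1
  obtain ⟨K1, hK1⟩ : ∃ K1 : ℝ, K1 = 3 * n / α * Real.exp 5 := ⟨_, rfl⟩
  have hna : 1 ≤ 3 * n / α := by rw [le_div_iff₀ hα]; linarith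
  have hK11 : 1 ≤ K1 := hK1 ▸ one_le_mul_of_one_le_of_one_le hna (by linarith)
  obtain ⟨K, hK0, hKa, hKb, hKc, hKd, hKe⟩ : ∃ K : ℝ, 1 ≤ K ∧ KL ≤ K ∧ 2 * 8 ^ n ≤ K ∧ KP ≤ K ∧
      KP * (6 * n) ^ 2 * K1 ^ 2 ≤ K ∧ KA * R ^ 2 * (6 + c1 + Real.log (4 * R)) ≤ K := by
    have b1 : 0 ≤ KA * R ^ 2 * (6 + c1 + Real.log (4 * R)) :=
      mul_nonneg (by positivity) (by linarith)
    have b2 : 0 ≤ KP * (6 * n) ^ 2 * K1 ^ 2 := by positivity
    have b3 : (0 : ℝ) ≤ 2 * 8 ^ n := by positivity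
    exact ⟨KL + 2 * 8 ^ n + KP + KP * (6 * n) ^ 2 * K1 ^ 2 +
      KA * R ^ 2 * (6 + c1 + Real.log (4 * R)), by linarith, by linarith, by linarith, by linarith,
      by linarith, by linarith⟩
  refine ⟨K1, KL + 10 + 9 / 4 * K1, K, VV / 2, KL + 70 + B1 + Real.log lam + KW, hK11, by linarith,
    hK0, by linarith, by linarith, ?_⟩
  rintro g x r μ B hg h0 hr hKr hμ hB ⟨u1, u2, hT⟩
  have hμ0 : 0 < μ := by linarith
  have hB70 : 70 ≤ B := by linarith
  have hS := SS_pos hg.differentiable h0 (cx x) hr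
  set S := SS g (cx x) r with hSd
  have hρ : r * Real.exp (-B) ≤ r :=
    mul_le_of_le_one_right hr.le (Real.exp_le_one_iff.2 (by linarith))
  have hD : SS g (cx x) (70 * r) ≤ Real.exp (d1 * μ) * S :=
    (hT.SS_le hr hμ0.le ((Real.exp_le_one_iff.2 (by linarith)).trans (by linarith))
      (by linarith [Real.add_one_le_exp B])).trans (by
        gcongr
        linarith [mul_le_mul_of_nonneg_right hd1' hμ0.le])
  have hvol : ENNReal.ofReal (r ^ n / (K * Real.exp (n * B))) ≤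
      volume (good g x r (r * Real.exp (-B)) α (S * Real.exp (-(s1 * μ))) u1 u2) := by
    refine le_trans (ENNReal.ofReal_le_ofReal ?_) (vol_good hg.continuous hTm hTv x (by positivity)
      u1 u2 (hαG ▸ hG u1 u2 α hT.1 hα) fun p hp => ?_)
    · have e : Real.exp (-B) ^ n = (Real.exp (n * B))⁻¹ := by
        rw [← Real.exp_nat_mul, ← Real.exp_neg, mul_neg]
      have b1 : (1 : ℝ) ≤ 2 ^ n := one_le_pow₀ one_le_two
      calc r ^ n / (K * Real.exp (n * B)) ≤ r ^ n / (2 * 8 ^ n * Real.exp (n * B)) := by gcongr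
        _ = (1 / 8) ^ n / 2 * (1 * (r ^ n * Real.exp (-B) ^ n)) := by
          rw [e, one_div, inv_pow]; field_simp
        _ ≤ _ := by rw [mul_pow, mul_pow]; gcongr
    · refine ((hM g x p r (d1 * μ) 0 hg h0 hr (hp.trans hρ)
        (by linarith [mul_le_mul hd1 hμ (by norm_num) (by linarith)]) hD).1 (s1 * μ)).trans
        (le_of_eq (congrArg _ ?_))
      rw [← hs1']
      congr 2
      field_simp
  have hδ : 0 < VV / (16 * KI) := by positivity
  filter_upwards [ev_le (c := S * Real.exp (-(B * μ))) (by positivity),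
    ev_le (c := S * Real.exp (-(s1 * μ)) / 2) (by positivity)] with T ⟨hT0, hT1⟩ ⟨_, hT2⟩
  have hXp : 0 < S * Real.exp (C0 * μ + KW * (μ + 1) + 2 * μ) := by positivity
  filter_upwards [ev_le (c := S * Real.exp (-(μ * (Sw + 1)))) (by positivity),
    ev_le (c := √(VV / (16 * KI) * T ^ 3 / (S * Real.exp (C0 * μ + KW * (μ + 1) + 2 * μ))))
      (by positivity)] with ε ⟨hε0, hε1⟩ ⟨_, hε2⟩
  have hε3 : ε ^ 2 * (S * Real.exp (C0 * μ + KW * (μ + 1) + 2 * μ)) ≤ VV / (16 * KI) * T ^ 3 :=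
    (le_div_iff₀ hXp).1 ((Real.le_sqrt hε0.le (by positivity)).1 hε2)
  have hη'0 : 0 < α / (3 * n) := by positivity
  have hη'1 : α / (3 * n) ≤ 1 := by rw [div_le_one (by positivity)]; linarith
  filter_upwards [ev_le hT0, ev_le (c := 1 / 2) (by norm_num),
    h5 n g (‖x‖ + r + r * lam + 1) T ε _ (VV / 8) hg hT0 hε0 hη'0 hη'1 (by positivity)]
    with η ⟨hη0, hηT⟩ ⟨_, hη1⟩ hgr
  refine ⟨_, meas_good hg.continuous hTm _ _ _ _ _ _ _, fun z hz => ⟨hz.1.trans hρ, hz.2.1⟩, hvol,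
    ?_⟩
  rintro p ⟨e, ξ⟩ y hy ⟨hp, ⟨he, hξ⟩, hdt, hval⟩
  dsimp only at hp he hξ hdt hval
  rw [mem_closedBall_zero_iff] at hξ
  set p' := p + plr e y with hp'
  have hcx : cx p' = cx p + pl e (c2 y) := by rw [hp', cx_add, pl_c2]
  constructor
  · intro y' W hy'
    obtain ⟨hU, hU0, -⟩ := (h12 (Cn n) T hT0).1 (Fin n) g (hg.contDiff 2)
    refine (hL g x r μ B T u1 u2 e hg h0 hr hμ (by linarith) hT hT0 hT1 he hdt W).trans
      (mul_le_mul hKa (shift_le (F := fun w => lapd (Ul g T) w (pl e W))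
        (continuous_lapd hU continuous_id continuous_const) (fun v => hU0 _ _) _ _ ?_)
        (integral_nonneg fun v => hU0 _ _) (by linarith))
    have b1 : cx x - (cx p + pl e y') = -(cx (p' - x)) - pl e (y' - c2 y) := by
      rw [cx_sub, hcx, pl_sub]; abel
    have b2 := norm_pl_le he (y' - c2 y)
    have b3 := norm_sub_le (-(cx (p' - x))) (pl e (y' - c2 y))
    rw [norm_neg, norm_cx] at b3
    rw [b1]
    linarith [hp.trans hρ]
  obtain ⟨M, ζ, z1, m1, m2, m3, m4, m5, m6, m7, m8, m9, -⟩ := h2 e u1 u2 α r he hT.1 hα hdt hr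
  rw [← hlam] at m4
  obtain ⟨A, hA1, hA2⟩ := hW g x p' r μ (C0 * μ) B B1 lam u1 u2 ζ ξ hg hT hr hμ0.le hp m2 m3 hlam1
    m4 hξ (by linarith) (by linarith)
  have hfun : pz g p' ζ ξ = sym A := funext hA2
  have haa : ∀ (c : ℝ) (u : E2), aa g p e ξ c (c2 y + M u) = sym A u - c := fun c u => by
    rw [← hA2, aa, pz, pl_add, m1, hcx]; simp only [add_assoc]
  have hz1 : S * Real.exp (-(s1 * μ)) ≤ ‖sym A (z1, conj z1)‖ := by
    have b1 := haa 0 (z1, conj z1)
    rw [m8, aa, pl_add, ← add_assoc, ← hcx] at b1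
    have b2 : cx p' + pl e ((r : ℂ), 0) = cx (p' + r • e.1) := by simp [pl, cx_add, cx_smul]
    rw [b2, sub_left_inj] at b1
    rwa [← b1]
  have hX0 : 0 ≤ C0 * μ + KW * (μ + 1) := by positivity
  have hXc : C0 * μ + KW * (μ + 1) + s1 * μ + μ ≤ c1 * μ := by
    rw [hc1]
    linarith [mul_le_mul_of_nonneg_left hμ (show 0 ≤ KW by linarith)]
  have hrl : 0 ≤ r * lam := by positivity
  refine ⟨fun c => Gr (fun u => sym A u - c) η (α / (3 * n)),
    (hGr _ η _ hA1.sym_sm hη0 (by linarith) hη'1).1, ?_, fun c hc χ hχ hχ1 => ?_⟩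
  · have b1 := hI A S μ _ (s1 * μ) B1 Sw ε T _ z1 hA1 hS hμ hX0 (by positivity) hSw (by linarith)
      (by linarith) m9 hz1 hε0 hε1 hT0 hδ.le hε3
    have b2 := hgr p' ζ ξ (by linarith [norm_le_norm_add_norm_sub' p' x])
      (by linarith [norm_nonneg x]) (by linarith [norm_nonneg x])
    rw [hfun] at b2
    have b3 : KI * ((C0 * μ + KW * (μ + 1) + s1 * μ + μ) / Sw) ≤ VV * μ / 8 := by
      rw [← mul_div_assoc, div_le_div_iff₀ (by linarith) (by norm_num)]
      rw [div_le_iff₀ hVV] at hSw'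
      linarith [mul_le_mul_of_nonneg_left hXc (show 0 ≤ KI by linarith),
        mul_le_mul_of_nonneg_right hSw' hμ0.le]
    have b4 : KI * (VV / (16 * KI)) = VV / 16 := by field_simp
    rw [mul_add, b4] at b1
    linarith [mul_le_mul_of_nonneg_left hμ hVV.le]
  have hMc : ∀ u, ‖M u‖ ≤ 3 * n / α * r * ‖u‖ := fun u => (m5 u).trans (le_of_eq (by ring))
  have hχ' : Cut fun u => χ (c2 y + M u) :=
    ⟨hχ.sm.comp (contDiff_const.add ((M : E2 →L[ℂ] E2).restrictScalars ℝ).contDiff),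
      fun _ => hχ.nn _, fun _ => hχ.le _⟩
  have hnr : 0 ≤ 3 * n / α * r := by positivity
  have b1 := (hP (fun u => sym A u - c) η _ _ (hA1.sub_sm c) hη0 (by linarith) hη'1 hχ'
    fun u hu => hχ1 _ (mem_N0_of hy hnr hMc m7 (by
      rw [hK1] at hKr; linarith [mul_le_mul_of_nonneg_left he5 hnr])
      (le_of_eq (by field_simp)) (hG4 u ⟨hu.1.trans hη'1, hu.2⟩) hu.1)).2
  obtain ⟨b2, b3⟩ := transport h7 (hg.aa p e ξ c 2) hη0 M (c2 y) hχ (R := Real.exp 5)
    (ρ := K1 * r) (c := 6 * n / r) (fun u hu => (hMc u).trans (by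
      rw [hK1]; linarith [mul_le_mul_of_nonneg_left hu hnr])) m6
  simp only [haa] at b2 b3
  have b4 : Ar (fun u => sym A u - c) η (closedBall 0 (Real.exp 5)) ≤ K * μ := by
    refine (Ar_mono (hA1.sub_sm c) hη0 (closedBall_subset_closedBall (by linarith))
      isBounded_closedBall).trans ((area_model (fun f η l y0 y1 R M a1 a2 a3 a4 a5 =>
        (hA f η l y0 y1 R M a1 a2 a3 a4 a5).2) (by linarith) (y1 := (z1, conj z1)) hA1 hS hμ0.le
        hX0 (by positivity) (by linarith) hR1 (by linarith [Real.add_one_le_exp B1])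
        (max_le (by linarith) (by rw [Complex.norm_conj]; linarith)) hz1 hc hη0 hηT hT2).trans ?_)
    refine le_trans ?_ (mul_le_mul_of_nonneg_right hKe hμ0.le)
    rw [mul_assoc _ _ μ]
    exact mul_le_mul_of_nonneg_left (by linarith) (by positivity)
  have b5 : 0 ≤ ∫ y' in closedBall (c2 y) (K1 * r),
      χ y' * (wt η (aa g p e ξ c y') * ‖Wf (aa g p e ξ c) y'‖ ^ 2) :=
    integral_nonneg fun _ => mul_nonneg (hχ.nn _) (mul_nonneg (wt_nonneg _ _) (sq_nonneg _))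
  refine b1.trans (add_le_add ?_ (mul_le_mul hKc (Real.sqrt_le_sqrt (mul_le_mul b4 b3
    (En_nonneg _ _ _ _) (by positivity))) (Real.sqrt_nonneg _) (by linarith)))
  refine (mul_le_mul_of_nonneg_left b2 (by linarith)).trans (le_trans (le_of_eq ?_)
    (mul_le_mul_of_nonneg_right hKd (div_nonneg b5 (sq_nonneg _))))
  field_simp

end

end Pool.Agent.LinN2
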