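import Pool.Agent.Lib.MP_8465a2_an.N2.BasicB

/-!
The averaged potential is controlled by the depth (MP_8465a2_an).
-/

namespace Pool.Agent.LinN2

open MeasureTheory Metric Set Filter Topology

theorem phi {n : ℕ} (hn : 3 ≤ n) (h : SubStmt) : PhiStmt n := by
  have n1 : (1 : ℝ) ≤ n := by exact_mod_cast (by omega : 1 ≤ n)
  have p1 : (1 : ℝ) ≤ 2 ^ Module.finrank ℝ (Cn n) := one_le_pow₀ one_le_two
  refine ⟨n * 2 ^ Module.finrank ℝ (Cn n), by nlinarith, fun g N r lam hg hr hl hlr => ?_⟩
  filter_upwards [Ioc_mem_nhdsGT (zero_lt_one' ℝ)] with T hT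
  have T0 := hT.1
  have up : ∀ y : Cn n, ‖y‖ ≤ 100 → Ul g T y ≤ n := fun y hy => by
    have h1 : ∑ k, ‖g y k‖ ^ 2 ≤ ∑ _k : Fin n, (1 : ℝ) := Finset.sum_le_sum fun k _ =>
      pow_le_one₀ (norm_nonneg _) ((norm_le_pi_norm _ k).trans (hg.up y hy))
    simp only [Finset.sum_const, Finset.card_univ, Fintype.card_fin, nsmul_eq_mul, mul_one] at h1
    have h2 : T ^ 2 ≤ 1 := pow_le_one₀ T0.le hT.2
    have h3 := Real.log_le_sub_one_of_pos (show 0 < ∑ k, ‖g y k‖ ^ 2 + T ^ 2 by positivity)
    unfold Ul
    linarith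
  refine ⟨up, fun x y hx hy => ?_⟩
  have gc := hg.adm.continuous
  have cU : Continuous (Ul g T) := by
    unfold Ul
    refine (Continuous.log (by fun_prop) fun y => by positivity).div_const _
  obtain ⟨z, z1, z2⟩ := exists_SS gc (cx x) hr.le
  have S0 := SS_pos hg.diff hg.nz (cx x) hr
  have r1 : 10 * r ≤ lam * r := by gcongr
  have S1 : Real.log (SS g (cx x) r) ≤ 0 :=
    Real.log_nonpos S0.le (hg.SS_le_one (by rw [norm_cx]; linarith))
  set ρ := lam * r
  have ρ0 : 0 < ρ := by linarith
  have low : Real.log (SS g (cx x) r) ≤ Ul g T z := by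
    have : SS g (cx x) r ^ 2 ≤ ∑ k, ‖g z k‖ ^ 2 + T ^ 2 := by
      rw [← z2]
      have : ‖g z‖ ≤ √(∑ k, ‖g z k‖ ^ 2) := (pi_norm_le_iff_of_nonneg (Real.sqrt_nonneg _)).2 fun k =>
        Real.le_sqrt_of_sq_le (Finset.single_le_sum (f := fun k => ‖g z k‖ ^ 2)
          (fun _ _ => sq_nonneg _) (Finset.mem_univ k))
      have := pow_le_pow_left₀ (norm_nonneg _) this 2
      rw [Real.sq_sqrt (by positivity)] at this
      nlinarith
    have := Real.log_le_log (by positivity) this
    rw [Real.log_pow] at this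
    unfold Ul
    push_cast at this
    linarith
  have sub := (h (Cn n) volume T T0 (closedBall 0 (2 * ρ)) measurableSet_closedBall
    isBounded_closedBall (fun t v hv => by
      rw [mem_closedBall_zero_iff] at hv ⊢
      rwa [norm_smul, Complex.norm_exp_ofReal_mul_I, one_mul]) z).1 (Fin n) g hg.diff
  have vol : volume.real (closedBall (0 : Cn n) (2 * ρ)) =
      2 ^ Module.finrank ℝ (Cn n) * volume.real (closedBall (0 : Cn n) ρ) := by
    rw [Measure.real, Measure.addHaar_closedBall_mul_of_pos volume 0 two_pos, ENNReal.toReal_mul,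
      ENNReal.toReal_ofReal (by positivity)]
    rfl
  have c : Continuous fun u => (n : ℝ) - Ul g T u := continuous_const.sub cU
  have e : ∀ (R : ℝ) (f : Cn n → ℝ), Continuous f → ∫ v in closedBall (0 : Cn n) R, ((n : ℝ) - f v) =
      n * volume.real (closedBall (0 : Cn n) R) - ∫ v in closedBall (0 : Cn n) R, f v := fun R f hf => by
    rw [integral_sub (intOn continuous_const isBounded_closedBall) (intOn hf isBounded_closedBall),
      setIntegral_const, smul_eq_mul, mul_comm]
  have e1 : ∫ v in closedBall (0 : Cn n) ρ, ((n : ℝ) - Ul g T (y - v)) =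
      ∫ u in closedBall y ρ, ((n : ℝ) - Ul g T u) := by
    rw [← integral_indicator measurableSet_closedBall, ← integral_indicator measurableSet_closedBall,
      ← integral_sub_left_eq_self ((closedBall y ρ).indicator _) volume y]
    refine integral_congr_ae (ae_of_all _ fun v => ?_)
    simp [indicator, dist_eq_norm]
  have e2 : ∫ v in closedBall (0 : Cn n) (2 * ρ), ((n : ℝ) - Ul g T (z + v)) =
      ∫ u in closedBall z (2 * ρ), ((n : ℝ) - Ul g T u) := by
    rw [← integral_indicator measurableSet_closedBall, ← integral_indicator measurableSet_closedBall,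
      ← integral_add_left_eq_self ((closedBall z (2 * ρ)).indicator _) z]
    refine integral_congr_ae (ae_of_all _ fun v => ?_)
    simp [indicator, dist_eq_norm]
  have m : ∫ u in closedBall y ρ, ((n : ℝ) - Ul g T u) ≤
      ∫ u in closedBall z (2 * ρ), ((n : ℝ) - Ul g T u) := by
    refine setIntegral_mono_set (intOn c isBounded_closedBall) ((ae_restrict_iff'
      measurableSet_closedBall).2 (ae_of_all _ fun u hu => sub_nonneg.2 (up u ?_)))
      (closedBall_subset_closedBall' ?_).eventuallyLE
    · have := mem_closedBall_iff_norm.1 hu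
      have := norm_le_norm_add_norm_sub' u z
      have := norm_le_norm_add_norm_sub' z (cx x)
      rw [norm_cx] at this
      linarith
    · have := norm_sub_le_norm_sub_add_norm_sub y (cx x) z
      rw [norm_sub_rev (cx x)] at this
      rw [dist_eq_norm]
      linarith
  rw [← e1, ← e2, e _ (fun v => Ul g T (y - v)) (cU.comp (continuous_const.sub continuous_id)),
    e _ (fun v => Ul g T (z + v)) (cU.comp (continuous_const.add continuous_id))] at m
  have V0 : 0 ≤ volume.real (closedBall (0 : Cn n) (2 * ρ)) := measureReal_nonneg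
  have k : (n : ℝ) - Ul g T z ≤ n * (N - Real.log (SS g (cx x) r)) := by nlinarith [hg.one]
  have := mul_le_mul_of_nonneg_left k V0
  refine m.trans (le_trans (by linarith) (this.trans (le_of_eq ?_)))
  rw [vol]; ring

end Pool.Agent.LinN2
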