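import Pool.Agent.Lib.MP_8465a2_an.N2.BasicB

/-!
Null coordinates on a plane (MP_8465a2_an).
-/

namespace Pool.Agent.LinN2

open MeasureTheory Metric Set Filter Topology Complex
open scoped ENNReal ComplexConjugate

noncomputable section

namespace PlaneL

/-- a two by two matrix as a linear map -/
def mk2 (a b c d : ℂ) : E2 →L[ℂ] E2 :=
  (a • ContinuousLinearMap.fst ℂ ℂ ℂ + b • ContinuousLinearMap.snd ℂ ℂ ℂ).prod
    (c • ContinuousLinearMap.fst ℂ ℂ ℂ + d • ContinuousLinearMap.snd ℂ ℂ ℂ)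

lemma mk2_apply (a b c d : ℂ) (u : E2) :
    mk2 a b c d u = (a * u.1 + b * u.2, c * u.1 + d * u.2) := by simp [mk2]

lemma norm_comb {a b : ℂ} {t : ℝ} (ha : ‖a‖ ≤ t) (hb : ‖b‖ ≤ t) (u : E2) :
    ‖a * u.1 + b * u.2‖ ≤ 2 * t * ‖u‖ := by
  refine (norm_add_le _ _).trans ?_
  rw [norm_mul, norm_mul]
  linarith [mul_le_mul ha (norm_fst_le u) (norm_nonneg _) ((norm_nonneg _).trans ha),
    mul_le_mul hb (norm_snd_le u) (norm_nonneg _) ((norm_nonneg _).trans hb)]

end PlaneL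

open PlaneL in
theorem plane {n : ℕ} (hn : 3 ≤ n) : PlaneStmt n := by
  intro e u1 u2 α R he hu hα hdt hR
  set p := zc u1 u2 (cx e.1) with hp
  set q := zc u1 u2 (cx e.2) with hq
  have hp' : wc u1 u2 (cx e.1) = conj p := by rw [hp, zc_cx, wc_cx]; simp [sub_eq_add_neg]
  have hq' : wc u1 u2 (cx e.2) = conj q := by rw [hq, zc_cx, wc_cx]; simp [sub_eq_add_neg]
  have hz : ∀ y : E2, zc u1 u2 (pl e y) = p * y.1 + q * y.2 := fun y => by
    rw [pl, zc_add, zc_smul, zc_smul, mul_comm, mul_comm y.2]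
  have hw : ∀ y : E2, wc u1 u2 (pl e y) = conj p * y.1 + conj q * y.2 := fun y => by
    rw [pl, wc_add, wc_smul, wc_smul, hp', hq', mul_comm, mul_comm y.2]
  set D : ℂ := p * conj q - q * conj p with hD
  have hD1 : D = -2 * I * (dt u1 u2 e : ℝ) := by
    rw [hD, ← hp', ← hq', hp, hq, zc_cx, zc_cx, wc_cx, wc_cx, dt, dotProduct_comm e.1 u1,
      dotProduct_comm e.1 u2, dotProduct_comm e.2 u1, dotProduct_comm e.2 u2]
    push_cast
    ring
  have hDn : 2 * α ≤ ‖D‖ := by
    rw [hD1]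
    simpa using hdt
  have hD0 : D ≠ 0 := norm_pos_iff.1 (by linarith)
  have hDc : conj D = -D := by simp [hD, mul_comm]
  have hR0 : (R : ℂ) ≠ 0 := ofReal_ne_zero.2 hR.ne'
  have hn0 : (0 : ℝ) ≤ n := n.cast_nonneg
  have np : ‖p‖ ≤ n * (9 / 8) :=
    (hu.norm_zc _).trans (by rw [norm_cx]; exact mul_le_mul_of_nonneg_left (Ebox_norm he).1 hn0)
  have nq : ‖q‖ ≤ n * (9 / 8) :=
    (hu.norm_zc _).trans (by rw [norm_cx]; exact mul_le_mul_of_nonneg_left (Ebox_norm he).2 hn0)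
  let M : E2 ≃L[ℂ] E2 := ContinuousLinearEquiv.equivOfInverse
    (mk2 (R / D * conj q) (R / D * -q) (R / D * -conj p) (R / D * p))
    (mk2 (p / R) (q / R) (conj p / R) (conj q / R))
    (fun u => by ext <;> simp only [mk2_apply] <;> field_simp <;> rw [hD] <;> ring)
    (fun u => by ext <;> simp only [mk2_apply] <;> field_simp <;> rw [hD] <;> ring)
  have hM : ∀ u : E2, M u = (R / D * conj q * u.1 + R / D * -q * u.2,
      R / D * -conj p * u.1 + R / D * p * u.2) := fun u => mk2_apply _ _ _ _ u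
  have hN : ∀ y : E2, M.symm y = (zc u1 u2 (pl e y) / R, wc u1 u2 (pl e y) / R) := fun y => by
    rw [hz, hw]
    refine (mk2_apply _ _ _ _ y).trans ?_
    ext <;> simp only <;> ring
  have hst : ∀ u : E2, star (M u) = M (conj u.2, conj u.1) := fun u => by
    rw [hM, hM]
    ext <;> simp [hDc] <;> ring
  have nM : ∀ u : E2, ‖M u‖ ≤ 2 * (R / (2 * α) * (n * (9 / 8))) * ‖u‖ := fun u => by
    have k : ∀ w : ℂ, ‖w‖ ≤ n * (9 / 8) → ‖R / D * w‖ ≤ R / (2 * α) * (n * (9 / 8)) :=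
      fun w h => by
        rw [norm_mul, norm_div, Complex.norm_real, Real.norm_of_nonneg hR.le]
        gcongr
    rw [hM]
    exact max_le (norm_comb (k _ (by simpa using nq)) (k _ (by simpa using nq)) u)
      (norm_comb (k _ (by simpa using np)) (k _ np) u)
  have hk : 2 * (R / (2 * α) * (n * (9 / 8))) = 9 / 8 * (n * R / α) := by field_simp
  have h0 : 0 ≤ n * R / α := by positivity
  have hid : ∀ u : E2, (zc u1 u2 (pl e (M u)) / R, wc u1 u2 (pl e (M u)) / R) = u := fun u => by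
    rw [← hN, M.symm_apply_apply]
  refine ⟨M, pl e (M (1, 0)), p, fun u => ?_, ?_, ?_, ?_, fun u => ?_, fun y => ?_, hst, ?_,
    by linarith, hN⟩
  · rw [← pl_star, hst, ← pl_smul, ← pl_smul, ← pl_add, ← map_smul, ← map_smul, ← map_add]
    simp
  · simpa [div_eq_iff hR0] using congrArg Prod.fst (hid (1, 0))
  · simpa [hR0] using congrArg Prod.snd (hid (1, 0))
  · have h1 := nM (1, 0)
    have h2 : ‖((1, 0) : E2)‖ = 1 := by simp [Prod.norm_def]
    rw [h2, hk] at h1
    rw [show R * (4 * n / α) = 4 * (n * R / α) by ring]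
    linarith [norm_pl_le he (M (1, 0))]
  · refine (nM u).trans ?_
    rw [hk, show 3 * n * R / α = 3 * (n * R / α) by ring]
    gcongr
    norm_num
  · have h1 : n * ‖pl e y‖ / R ≤ 6 * n / R * ‖y‖ := by
      rw [show 6 * n / R * ‖y‖ = n * (6 * ‖y‖) / R by ring]
      gcongr
      linarith [norm_pl_le he y, norm_nonneg y]
    rw [hN]
    refine max_le ?_ ?_ <;>
      simp only [norm_div, Complex.norm_real, Real.norm_of_nonneg hR.le] <;> refine le_trans ?_ h1
    · gcongr; exact hu.norm_zc _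
    · gcongr; exact hu.norm_wc _
  · rw [hM]
    ext <;> simp only <;> field_simp
    · rw [hD]; ring
    · ring

end

end Pool.Agent.LinN2
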