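import Pool.Agent.Lib.MP_8465a2_an.N2.Poinc1

/-!
Poincare inequality and lower bound for the charged area (MP_8465a2_an).
-/

namespace Pool.Agent.LinN2

open MeasureTheory Metric Set Filter Topology Complex
open scoped ENNReal ComplexConjugate

noncomputable section

namespace Poinc

variable {a : E2 → ℂ} {η L : ℝ} {u : E2}

lemma zt_nonneg (L s : ℝ) : 0 ≤ zt L s :=
  mul_nonneg (Real.smoothTransition.nonneg _) (Real.smoothTransition.nonneg _)

lemma zt_le (L s : ℝ) : zt L s ≤ 1 :=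
  mul_le_one₀ (Real.smoothTransition.le_one _) (Real.smoothTransition.nonneg _)
    (Real.smoothTransition.le_one _)

lemma zt_one {s : ℝ} (h : |s| ≤ L + 2) : zt L s = 1 := by
  rw [zt, Real.smoothTransition.one_of_one_le (by linarith [le_abs_self s]),
    Real.smoothTransition.one_of_one_le (by linarith [neg_abs_le s]), mul_one]

lemma zt_ne {s : ℝ} (h : zt L s ≠ 0) : |s| ≤ L + 3 := by
  have h1 := mt Real.smoothTransition.zero_of_nonpos (left_ne_zero_of_mul h)
  have h2 := mt Real.smoothTransition.zero_of_nonpos (right_ne_zero_of_mul h)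
  exact abs_le.2 ⟨by linarith [not_le.1 h2], by linarith [not_le.1 h1]⟩

lemma dzt_ne {s : ℝ} (h : deriv (zt L) s ≠ 0) : L + 2 ≤ |s| ∧ |s| ≤ L + 3 :=
  ⟨not_lt.1 fun k => h (IsLocalMax.deriv_eq_zero
      (Eventually.of_forall fun x => zt_one k.le ▸ zt_le L x)),
    zt_ne fun k => h (IsLocalMin.deriv_eq_zero
      (Eventually.of_forall fun x => k ▸ zt_nonneg L x))⟩

lemma exists_dzt : ∃ C : ℝ, 0 ≤ C ∧ ∀ L s, |deriv (zt L) s| ≤ C := by
  have h1 : ContDiff ℝ 1 Real.smoothTransition := Real.smoothTransition.contDiff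
  have h2 : HasCompactSupport (deriv Real.smoothTransition) :=
    HasCompactSupport.intro (isCompact_Icc (a := 0) (b := 1)) fun x hx => by
      rcases not_and_or.1 hx with k | k
      · exact IsLocalMin.deriv_eq_zero (Eventually.of_forall fun y =>
          Real.smoothTransition.zero_of_nonpos (not_le.1 k).le ▸ Real.smoothTransition.nonneg y)
      · exact IsLocalMax.deriv_eq_zero (Eventually.of_forall fun y =>
          Real.smoothTransition.one_of_one_le (not_le.1 k).le ▸ Real.smoothTransition.le_one y)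
  obtain ⟨C, hC⟩ := h2.exists_bound_of_continuous (h1.continuous_deriv le_rfl)
  have h3 := fun x => (h1.differentiable one_ne_zero x).hasDerivAt
  refine ⟨2 * C, by linarith [hC 0, norm_nonneg (deriv Real.smoothTransition 0)], fun L s => ?_⟩
  have h4 : HasDerivAt (zt L) _ s :=
    ((h3 _).comp s ((hasDerivAt_id' s).const_sub (L + 3))).mul
      ((h3 _).comp s ((hasDerivAt_id' s).const_add (L + 3)))
  have k : ∀ x y, |deriv Real.smoothTransition x * Real.smoothTransition y| ≤ C := fun x y => by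
    rw [abs_mul, abs_of_nonneg (Real.smoothTransition.nonneg y)]
    exact (mul_le_of_le_one_right (abs_nonneg _) (Real.smoothTransition.le_one y)).trans (hC x)
  rw [h4.deriv]
  have k1 := abs_le.1 (k (L + 3 - s) (L + 3 + s))
  have k2 := abs_le.1 (k (L + 3 + s) (L + 3 - s))
  simp only [Function.comp_apply]
  exact abs_le.2 ⟨by linarith, by linarith⟩

/-- the facts on the weight that are used -/
def BW : Prop := (∀ q, 0 ≤ bw q) ∧ (∀ q, bw q ≤ Real.exp 4) ∧
  ∀ q, bw q ≠ 0 → Real.exp (-2) ≤ ‖q‖ ∧ ‖q‖ ≤ Real.exp 2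

lemma logs (h : Real.exp (-2) ≤ ‖u.1 * u.2‖ ∧ ‖u.1 * u.2‖ ≤ Real.exp 2) :
    0 < ‖u.1‖ ∧ 0 < ‖u.2‖ ∧ |Real.log ‖u.1‖ - sc u| ≤ 1 ∧ |Real.log ‖u.2‖ + sc u| ≤ 1 := by
  have h0 := (Real.exp_pos _).trans_le h.1
  have h1 := norm_pos_iff.2 (left_ne_zero_of_mul (norm_pos_iff.1 h0))
  have h2 := norm_pos_iff.2 (right_ne_zero_of_mul (norm_pos_iff.1 h0))
  have h3 := (Real.le_log_iff_exp_le h0).2 h.1
  have h4 := (Real.log_le_iff_le_exp h0).2 h.2
  rw [norm_mul, Real.log_mul h1.ne' h2.ne'] at h3 h4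
  unfold sc
  exact ⟨h1, h2, abs_le.2 ⟨by linarith, by linarith⟩, abs_le.2 ⟨by linarith, by linarith⟩⟩

lemma mem_Reg (hb : BW) (h : bw (u.1 * u.2) ≠ 0) (hs : |sc u| ≤ L + 3) : u ∈ Reg L := by
  obtain ⟨h1, h2, h3, h4⟩ := logs (hb.2.2 _ h)
  rw [abs_le] at h3 h4 hs
  refine ⟨?_, max_le ((Real.log_le_iff_le_exp h1).1 (by linarith))
    ((Real.log_le_iff_le_exp h2).1 (by linarith))⟩
  rcases le_total 0 (sc u) with k | k
  · exact ((Real.le_log_iff_exp_le h1).1 (by linarith)).trans (norm_fst_le u)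
  · exact ((Real.le_log_iff_exp_le h2).1 (by linarith)).trans (norm_snd_le u)

lemma mem_Kside (hb : BW) (h : bw (u.1 * u.2) ≠ 0) (hs : L + 2 ≤ sc u) (hs' : sc u ≤ L + 3) :
    u ∈ Kside L ∧ ‖u.2‖ ≤ Real.exp (-L) := by
  obtain ⟨h1, h2, h3, h4⟩ := logs (hb.2.2 _ h)
  rw [abs_le] at h3 h4
  have h5 : ‖u.2‖ ≤ Real.exp (-L) := (Real.log_le_iff_le_exp h2).1 (by linarith)
  exact ⟨⟨(Real.le_log_iff_exp_le h1).1 (by linarith),
    (Real.log_le_iff_le_exp h1).1 (by linarith), by linarith [Real.exp_pos (-L)]⟩, h5⟩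

lemma zt_Gset (hL : 1 ≤ L) {η' : ℝ} (hu : u ∈ Gset η') (h4 : ‖u‖ ≤ 4) : zt L (sc u) = 1 := by
  obtain ⟨h1, h2, h3, h5⟩ := logs hu.2
  have h6 : (4 : ℝ) ≤ Real.exp 2 := by
    have := Real.add_one_le_exp 1
    rw [show (2 : ℝ) = 1 + 1 by norm_num, Real.exp_add]
    nlinarith
  have h7 := (Real.log_le_iff_le_exp h1).2 ((norm_fst_le u).trans (h4.trans h6))
  have h8 := (Real.log_le_iff_le_exp h2).2 ((norm_snd_le u).trans (h4.trans h6))
  rw [abs_le] at h3 h5
  exact zt_one (abs_le.2 ⟨by linarith, by linarith⟩)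

/-- density of the total mass -/
def mm (a : E2 → ℂ) (L : ℝ) (u : E2) : ℝ := bw (u.1 * u.2) * zt L (sc u) * ‖Tf a u‖ ^ 2

/-- density of the side mass -/
def AA (a : E2 → ℂ) (u : E2) : ℝ :=
  ‖u.1 * fderiv ℂ a u (1, 0)‖ ^ 2 + ‖u.2 * fderiv ℂ a u (0, 1)‖ ^ 2

lemma AA_nonneg (a : E2 → ℂ) (u : E2) : 0 ≤ AA a u := by unfold AA; positivity

lemma Tf_eq (a : E2 → ℂ) (u : E2) :
    Tf a u = u.1 * fderiv ℂ a u (1, 0) - u.2 * fderiv ℂ a u (0, 1) := by
  rw [Tf, fderiv_pair]
  ring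

lemma Tf_le (a : E2 → ℂ) (u : E2) : ‖Tf a u‖ ^ 2 ≤ 2 * AA a u := by
  rw [Tf_eq, AA]
  refine (pow_le_pow_left₀ (norm_nonneg _) (norm_sub_le _ _) 2).trans ?_
  nlinarith [sq_nonneg (‖u.1 * fderiv ℂ a u (1, 0)‖ - ‖u.2 * fderiv ℂ a u (0, 1)‖)]

lemma AA_le (a : E2 → ℂ) {R : ℝ} (h : ‖u‖ ≤ R) : AA a u ≤ 2 * R ^ 2 * ‖Wf a u‖ ^ 2 := by
  have h1 : ‖fderiv ℂ a u (0, 1)‖ ≤ ‖Wf a u‖ := norm_fst_le (Wf a u)
  have h2 : ‖fderiv ℂ a u (1, 0)‖ ≤ ‖Wf a u‖ := (norm_neg _).ge.trans (norm_snd_le (Wf a u))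
  have h3 := (norm_fst_le u).trans h
  have h4 := (norm_snd_le u).trans h
  have h5 := (norm_nonneg u).trans h
  rw [AA, norm_mul, norm_mul]
  calc _ ≤ (R * ‖Wf a u‖) ^ 2 + (R * ‖Wf a u‖) ^ 2 := by gcongr
    _ = _ := by ring

lemma sc_bound (a : E2 → ℂ) (h : u.1 * u.2 ≠ 0) :
    ‖u.1 * u.2‖ ^ 2 * |(((Vf a u).1 / u.1).re - ((Vf a u).2 / u.2).re) / 2| ≤ AA a u := by
  have h0 := norm_pos_iff.2 h
  have h1 := left_ne_zero_of_mul h
  have h2 := right_ne_zero_of_mul h
  have e : (Vf a u).1 / u.1 - (Vf a u).2 / u.2 = I * conj (lam a u) *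
      (u.1 * fderiv ℂ a u (1, 0) + u.2 * fderiv ℂ a u (0, 1)) / (u.1 * u.2) := by
    simp only [Vf, Wf, Prod.smul_fst, Prod.smul_snd, smul_eq_mul]
    field_simp
    ring
  rw [← sub_re, e, abs_div, abs_two]
  refine le_trans (mul_le_mul_of_nonneg_left
    (div_le_div_of_nonneg_right (abs_re_le_norm _) two_pos.le) (sq_nonneg _)) ?_
  rw [norm_div, norm_mul (I * _), norm_mul I, norm_I, norm_conj, lam, norm_div, norm_neg, Tf_eq, AA]
  generalize u.1 * fderiv ℂ a u (1, 0) = X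
  generalize u.2 * fderiv ℂ a u (0, 1) = Y
  have k := mul_le_mul (norm_sub_le X Y) (norm_add_le X Y) (norm_nonneg _) (by positivity)
  calc _ = ‖X - Y‖ * ‖X + Y‖ / 2 := by field_simp
    _ ≤ _ := by nlinarith [sq_nonneg (‖X‖ - ‖Y‖)]

lemma amgm {x p r : ℝ} (h : x ^ 2 ≤ 4 * (p * r)) (hp : 0 ≤ p) (hr : 0 ≤ r) : x ≤ p + r :=
  (abs_le_of_sq_le_sq' (by nlinarith [sq_nonneg (p - r)]) (add_nonneg hp hr)).2

lemma opt {x A B : ℝ} (hA : 0 ≤ A) (hB : 0 ≤ B) (h : ∀ t, 0 < t → x ≤ t * A + B / t) :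
    x ≤ 2 * √(A * B) := by
  rcases le_or_gt x 0 with hx | hx
  · exact hx.trans (by positivity)
  have h1 := discrim_le_zero (a := A) (b := -x) (c := B) fun t => by
    rcases le_or_gt t 0 with k | k
    · nlinarith [mul_nonneg hA (mul_self_nonneg t), mul_nonneg hx.le (neg_nonneg.2 k)]
    · have := mul_le_mul_of_nonneg_right (h t k) k.le
      rw [add_mul, div_mul_cancel₀ _ k.ne'] at this
      linarith
  rw [discrim] at h1
  refine (abs_le_of_sq_le_sq' ?_ (by positivity)).2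
  rw [mul_pow, Real.sq_sqrt (mul_nonneg hA hB)]
  linarith

/-- the basic identity with pointwise error bounds -/
lemma key (h1 : IBPStmt) (hb : BW) (ha : ContDiff ℂ 2 a) (hη : 0 < η) (hη1 : η < 1)
    {G χ c : E2 → ℝ} (hG : ContDiff ℝ 1 G) (hG0 : ∀ u, 0 ≤ G u)
    (hc : ∀ u v, fderiv ℝ G u v = c u * fderiv ℝ χ u v) (L : ℝ) :
    ∃ Φ : E2 → ℝ, Integrable Φ ∧ ∫ u, Φ u = 0 ∧ ∀ u t, 0 < t → Φ u ≤ wt η (a u) *
      (mm a L u * G u * (1 - Pk η (u.1 * u.2)) + t * c u ^ 2 * mm a L u +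
        13 / t * (be u * zt L (sc u) * bf a χ χ u) +
        7 * G u * |deriv (zt L) (sc u)| * (bw (u.1 * u.2) * AA a u)) := by
  have h0 : ∀ u : E2, ‖u.1 * u.2‖ < Real.exp (-2) →
      be u * kk η u * (G u * zt L (sc u)) = 0 := fun u hu => by
    rw [be, not_not.1 fun k => (hb.2.2 _ k).1.not_gt hu, zero_mul, zero_mul, zero_mul]
  obtain ⟨i1, i2⟩ := pair h1 ha hη (f := fun u => be u * kk η u * (G u * zt L (sc u)))
    (contDiff_of h0 fun u hu => ((contDiffAt_be hu).mul (contDiffAt_kk hη hη1 hu)).mul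
      (hG.contDiffAt.mul ((contDiff_zt L).contDiffAt.comp u (contDiffAt_sc hu))))
    (compactSupport_of_zero (y0 := 0) (R := Real.exp (L + 4) + 1) fun u hu => by
      by_contra k
      have := (mem_Reg hb (left_ne_zero_of_mul (left_ne_zero_of_mul (left_ne_zero_of_mul k)))
        (zt_ne (right_ne_zero_of_mul (right_ne_zero_of_mul k)))).2
      rw [sub_zero] at hu
      linarith) h0
  refine ⟨_, i1, i2, fun u t ht => mul_le_mul_of_nonneg_left ?_ (wt_nonneg _ _)⟩
  by_cases hu : u.1 * u.2 = 0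
  · rw [(ev_zero h0 hu).fderiv_eq, fderiv_fun_const]
    simp [mm, be, bw, hu]
  rw [(((hd_be a hu).mul (hd_kk a hη hη1 hu)).mul ((HD.of (hG.differentiable one_ne_zero u) _).mul
    ((hd_sc hu _).comp ((contDiff_zt L).differentiable one_ne_zero _).hasDerivAt))).eq, hc]
  have e : mm a L u = be u * zt L (sc u) * ‖lam a u‖ ^ 2 := by
    have := norm_ne_zero_iff.2 hu
    rw [mm, be, lam, norm_div, norm_neg]
    field_simp
  have k1 := mul_le_mul_of_nonneg_left (sc_bound a hu) (hb.1 (u.1 * u.2))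
  rw [← mul_assoc, ← be] at k1
  have k2 := fderiv_Vf_sq χ a u
  have k3 := abs_kk η u
  have k4 := bf_nonneg a χ u
  have k5 := (be_mem u).1
  have k6 := zt_nonneg L (sc u)
  have k7 := hG0 u
  rw [e]
  generalize (((Vf a u).1 / u.1).re - ((Vf a u).2 / u.2).re) / 2 = s at k1 ⊢
  generalize fderiv ℝ χ u (Vf a u) = D at k2 ⊢
  have k8 : kk η u * c u * D ≤ t * c u ^ 2 * ‖lam a u‖ ^ 2 + 13 / t * bf a χ χ u := by
    refine amgm ?_ (by positivity) (by positivity)
    have : kk η u ^ 2 ≤ 7 ^ 2 := sq_le_sq' (abs_le.1 k3).1 (abs_le.1 k3).2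
    calc _ = kk η u ^ 2 * (c u ^ 2 * D ^ 2) := by ring
      _ ≤ 52 * (c u ^ 2 * (‖lam a u‖ ^ 2 * bf a χ χ u)) := by gcongr; linarith
      _ = _ := by field_simp; ring
  have k9 : kk η u * deriv (zt L) (sc u) * s ≤ 7 * |deriv (zt L) (sc u)| * |s| := by
    refine (le_abs_self _).trans ?_
    rw [abs_mul, abs_mul]
    gcongr
  have k10 := mul_le_mul_of_nonneg_left k8 (mul_nonneg k5 k6)
  have k11 := mul_le_mul_of_nonneg_left k9 (mul_nonneg k5 k7)
  have k12 := mul_le_mul_of_nonneg_left k1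
    (show 0 ≤ 7 * G u * |deriv (zt L) (sc u)| by positivity)
  linarith

lemma mm_nonneg (hb : BW) (a : E2 → ℂ) (L : ℝ) (u : E2) : 0 ≤ mm a L u :=
  mul_nonneg (mul_nonneg (hb.1 _) (zt_nonneg _ _)) (sq_nonneg _)

lemma Pk_nonneg (hη : 0 < η) (hη1 : η < 1) (q : ℂ) : 0 ≤ Pk η q :=
  div_nonneg (by nlinarith) (sq_nonneg _)

lemma ground (hb : BW) (h4 : ∀ u ∈ Gset 1, ‖u‖ ≤ 4) (hη : 0 < η) (hη1 : η < 1) (hL : 1 ≤ L)
    {η' : ℝ} (hη' : η' ≤ 1) {G : E2 → ℝ} (hG0 : ∀ u, 0 ≤ G u) (hG : ∀ u ∈ Gset η', G u = 1)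
    (u : E2) : (Gset η').indicator (fun u => wt η (a u) *
      (bw (u.1 * u.2) * Pk η (u.1 * u.2) * ‖Tf a u‖ ^ 2)) u ≤
      wt η (a u) * (mm a L u * G u * Pk η (u.1 * u.2)) := by
  refine indicator_apply_le' (fun hu => le_of_eq ?_) fun _ => mul_nonneg (wt_nonneg _ _)
    (mul_nonneg (mul_nonneg (mm_nonneg hb _ _ _) (hG0 u)) (Pk_nonneg hη hη1 _))
  rw [mm, hG u hu, zt_Gset hL hu (h4 u ⟨hu.1.trans hη', hu.2⟩)]
  ring

lemma cut_le (hb : BW) {S : Set E2} (hS : Reg L ⊆ S) {f : E2 → ℝ} (hf : ∀ u, 0 ≤ f u) (u : E2) :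
    be u * zt L (sc u) * f u ≤ S.indicator f u := by
  by_cases h : be u * zt L (sc u) = 0
  · rw [h, zero_mul]
    exact indicator_nonneg (fun u _ => hf u) u
  · rw [indicator_of_mem (hS (mem_Reg hb (left_ne_zero_of_mul (left_ne_zero_of_mul h))
      (zt_ne (right_ne_zero_of_mul h))))]
    exact mul_le_of_le_one_left (hf u) (mul_le_one₀ (be_mem u).2 (zt_nonneg _ _) (zt_le _ _))

/-- density of `MK` -/
def mk (a : E2 → ℂ) (η L : ℝ) : E2 → ℝ := (Kside L).indicator fun u => wt η (a u) *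
  (‖u.1 * fderiv ℂ a u (1, 0)‖ ^ 2 + (Real.exp (-L) * ‖fderiv ℂ a u (0, 1)‖) ^ 2)

lemma mk_nonneg (a : E2 → ℂ) (η L : ℝ) (u : E2) : 0 ≤ mk a η L u :=
  indicator_nonneg (fun _ _ => mul_nonneg (wt_nonneg _ _) (by positivity)) u

lemma isClosed_Kside (L : ℝ) : IsClosed (Kside L) :=
  (isClosed_le continuous_const continuous_fst.norm).inter
    ((isClosed_le continuous_fst.norm continuous_const).inter
      (isClosed_le continuous_snd.norm continuous_const))

lemma integrable_mk (ha : ContDiff ℂ 2 a) (hη : 0 < η) (L : ℝ) : Integrable (mk a η L) := by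
  have := ha.continuous_fderiv two_ne_zero
  refine (integrable_indicator_iff (isClosed_Kside L).measurableSet).2 (intOn
    (((continuous_wt hη).comp ha.continuous).mul (by fun_prop))
    (isBounded_iff_forall_norm_le.2 ⟨max (Real.exp (L + 4)) (2 * Real.exp (-L)), fun u hu => ?_⟩))
  exact max_le_max hu.2.1 hu.2.2

lemma AA_le_mk (hb : BW) (h : bw (u.1 * u.2) ≠ 0) (hs : L + 2 ≤ sc u) (hs' : sc u ≤ L + 3) :
    wt η (a u) * AA a u ≤ mk a η L u := by
  obtain ⟨h1, h2⟩ := mem_Kside hb h hs hs'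
  rw [mk, indicator_of_mem h1, AA, norm_mul u.2]
  gcongr
  exact wt_nonneg _ _

lemma AA_swap (ha : ContDiff ℂ 2 a) (u : E2) : AA (fun u => a u.swap) u.swap = AA a u := by
  have h : HasFDerivAt (fun u : E2 => a u.swap) _ u.swap :=
    (ha.differentiable two_ne_zero u).hasFDerivAt.comp u.swap
      (hasFDerivAt_snd.prodMk hasFDerivAt_fst)
  rw [AA, h.fderiv, AA, add_comm]
  rfl

lemma side_le (hb : BW) (ha : ContDiff ℂ 2 a) {C : ℝ} (hC : ∀ s, |deriv (zt L) s| ≤ C) (u : E2) :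
    wt η (a u) * (|deriv (zt L) (sc u)| * (bw (u.1 * u.2) * AA a u)) ≤
      C * Real.exp 4 * (mk a η L u + mk (fun u => a u.swap) η L u.swap) := by
  have h0 := (abs_nonneg _).trans (hC 0)
  have h1 := mk_nonneg a η L u
  have h2 := mk_nonneg (fun u => a u.swap) η L u.swap
  by_cases h3 : deriv (zt L) (sc u) = 0
  · rw [h3, abs_zero, zero_mul, mul_zero]
    positivity
  by_cases h4 : bw (u.1 * u.2) = 0
  · rw [h4, zero_mul, mul_zero, mul_zero]
    positivity
  obtain ⟨h5, h6⟩ := dzt_ne h3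
  have h7 : wt η (a u) * AA a u ≤ mk a η L u + mk (fun u => a u.swap) η L u.swap := by
    rcases le_total 0 (sc u) with k | k
    · rw [abs_of_nonneg k] at h5 h6
      linarith [AA_le_mk (a := a) (η := η) hb h4 h5 h6]
    · rw [abs_of_nonpos k, show -sc u = sc u.swap by simp [sc]; ring] at h5 h6
      have := AA_le_mk (a := fun u => a u.swap) (η := η) hb (u := u.swap)
        (by rwa [mul_comm] at h4) h5 h6
      rw [AA_swap ha, Prod.swap_swap] at this
      linarith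
  calc _ = |deriv (zt L) (sc u)| * bw (u.1 * u.2) * (wt η (a u) * AA a u) := by ring
    _ ≤ _ := mul_le_mul (mul_le_mul (hC _) (hb.2.1 _) (hb.1 _) h0) h7
      (mul_nonneg (wt_nonneg _ _) (AA_nonneg _ _)) (by positivity)

lemma isClosed_Reg (L : ℝ) : IsClosed (Reg L) :=
  (isClosed_le continuous_const continuous_norm).inter
    (isClosed_le continuous_norm continuous_const)

lemma integrable_mm (h2 : PolarStmt) (ha : ContDiff ℂ 2 a) (hη : 0 < η) (L : ℝ) {f : E2 → ℝ}
    (hf : Continuous f) : Integrable fun u => wt η (a u) * (mm a L u * f u) := by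
  obtain ⟨k1, k2, -⟩ := h2.2.2.2.2.1 (zt L) (contDiff_zt L).continuous
    (HasCompactSupport.intro (isCompact_Icc (a := -(L + 3)) (b := L + 3)) fun x hx =>
      not_not.1 fun k => hx (abs_le.1 (zt_ne k)))
  exact (((continuous_wt hη).comp ha.continuous).mul
    ((k1.mul ((continuous_Tf ha).norm.pow 2)).mul hf)).integrable_of_hasCompactSupport
    k2.mul_right.mul_right.mul_left

lemma part1 (h1 : IBPStmt) (h2 : PolarStmt) (h3 : PtStmt) {C : ℝ}
    (hC : ∀ s, |deriv (zt L) s| ≤ C) (ha : ContDiff ℂ 2 a) (hη : 0 < η) (hη1 : η < 1) {η' : ℝ}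
    (hη' : η' ≤ 1) {χ : E2 → ℝ} (hχ : Cut χ) (hG : ∀ u ∈ Gset η', χ u = 1) (hL : 1 ≤ L) :
    T2 a η L χ / 2 + Gr a η η' ≤ Tot a η L + 104 * En a η (Reg L) χ +
      7 * C * Real.exp 4 * (MK a η L + MK (fun u => a u.swap) η L) := by
  obtain ⟨-, p1, -, p2, p3, -, p4, p5, p6, -⟩ := h3
  have hb : BW := ⟨p4, p5, p6⟩
  have hG0 : ∀ u, 0 ≤ 1 - (1 - χ u) ^ 2 := fun u => by nlinarith [hχ.nn u, hχ.le u]
  obtain ⟨Φ, i1, i2, i3⟩ := key h1 hb ha hη hη1 (G := fun u => 1 - (1 - χ u) ^ 2) (χ := χ)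
    (c := fun u => 2 * (1 - χ u)) (contDiff_const.sub ((contDiff_const.sub hχ.sm).pow 2)) hG0
    (fun u v => ((HD.of (hχ.sm.differentiable one_ne_zero u) v).comp
      ((((hasDerivAt_id' _).const_sub 1).fun_pow 2).const_sub 1)).eq.trans (by simp)) L
  have j1 := integrable_mm h2 ha hη L (f := fun u => (1 - χ u) ^ 2)
    ((continuous_const.sub hχ.sm.continuous).pow 2)
  have j2 := (integrable_indicator_iff (p2 η').measurableSet).2 (p1 a η η' ha hη hη1 hη').2.2
  have j3 : Integrable fun u => wt η (a u) * mm a L u := by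
    simpa using integrable_mm h2 ha hη L (continuous_const (y := 1))
  have j4 := (integrable_indicator_iff (isClosed_Reg L).measurableSet).2
    (intOn (μ := volume) (continuous_wbf ha hη hχ.sm hχ.sm)
      (isBounded_iff_forall_norm_le.2 ⟨_, fun u hu => hu.2⟩))
  have j5 := integrable_mk ha hη L
  have j6 := integrable_mk (a := fun u => a u.swap)
    (ha.comp (contDiff_snd.prodMk contDiff_fst)) hη L
  have j7 : Integrable fun u : E2 => mk (fun u => a u.swap) η L u.swap := j6.swap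
  have main := integral_mono (((j1.div_const 2).add j2).add i1)
    ((j3.add (j4.const_mul 104)).add ((j5.add j7).const_mul (7 * C * Real.exp 4))) fun u => by
      have k1 := i3 u (1 / 8) (by norm_num)
      have k2 := ground (a := a) hb p3 hη hη1 hL hη' hG0 (fun u hu => by simp [hG u hu]) u
      have k3 := cut_le hb (subset_refl (Reg L)) (f := fun u => wt η (a u) * bf a χ χ u)
        (fun u => mul_nonneg (wt_nonneg _ _) (bf_nonneg _ _ _)) u
      have k4 := side_le (η := η) hb ha hC u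
      have k5 : 0 ≤ (1 - χ u) ^ 2 *
          (wt η (a u) * (|deriv (zt L) (sc u)| * (bw (u.1 * u.2) * AA a u))) :=
        mul_nonneg (sq_nonneg _) (mul_nonneg (wt_nonneg _ _)
          (mul_nonneg (abs_nonneg _) (mul_nonneg (hb.1 _) (AA_nonneg _ _))))
      simp only [Pi.add_apply]
      linarith
  have e : ∫ u : E2, mk (fun u => a u.swap) η L u.swap = MK (fun u => a u.swap) η L :=
    (integral_prod_swap _).trans (integral_indicator (isClosed_Kside L).measurableSet)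
  rw [integral_add' ((j1.div_const 2).add j2) i1, integral_add' (j1.div_const 2) j2, i2,
    integral_add' (j3.add (j4.const_mul 104)) ((j5.add j7).const_mul _),
    integral_add' j3 (j4.const_mul 104), integral_div, integral_const_mul, integral_const_mul,
    integral_indicator (p2 η').measurableSet, integral_indicator (isClosed_Reg L).measurableSet,
    integral_add' j5 j7, e, mk, integral_indicator (isClosed_Kside L).measurableSet,
    add_zero] at main
  exact main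

lemma part2 (h1 : IBPStmt) (h3 : PtStmt) {C : ℝ} (hC : ∀ s, |deriv (zt 1) s| ≤ C)
    (ha : ContDiff ℂ 2 a) (hη : 0 < η) (hη1 : η < 1) {η' : ℝ}
    (hη' : η' ≤ 1) {χ : E2 → ℝ} (hχ : Cut χ) (hG : ∀ u ∈ Gset η', χ u = 1) (t : ℝ) (ht : 0 < t) :
    Gr a η η' ≤ (2 + 7 * C) * (Real.exp 4 * (2 * Real.exp 5 ^ 2)) *
      (∫ u in closedBall 0 (Real.exp 5), χ u * (wt η (a u) * ‖Wf a u‖ ^ 2)) +
      t * (2 * (Real.exp 4 * (2 * Real.exp 5 ^ 2))) * Ar a η (closedBall 0 (Real.exp 5)) +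
      13 / t * En a η (closedBall 0 (Real.exp 5)) χ := by
  obtain ⟨-, p1, -, p2, p3, -, p4, p5, p6, -⟩ := h3
  have hb : BW := ⟨p4, p5, p6⟩
  have h0 := (abs_nonneg _).trans (hC 0)
  obtain ⟨Φ, i1, i2, i3⟩ := key h1 hb ha hη hη1 (G := χ) (χ := χ) (c := fun _ => 1) hχ.sm hχ.nn
    (fun u v => (one_mul _).symm) 1
  have hS : Reg 1 ⊆ closedBall 0 (Real.exp 5) := fun u hu =>
    mem_closedBall_zero_iff.2 (hu.2.trans_eq (by norm_num))
  have hm : MeasurableSet (closedBall (0 : E2) (Real.exp 5)) := measurableSet_closedBall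
  have j2 := (integrable_indicator_iff (p2 η').measurableSet).2 (p1 a η η' ha hη hη1 hη').2.2
  have j3 := (integrable_indicator_iff hm).2 (intOn (μ := volume)
    (F := fun u => χ u * (wt η (a u) * ‖Wf a u‖ ^ 2))
    (hχ.sm.continuous.mul (continuous_wW ha hη)) isBounded_closedBall)
  have j4 := (integrable_indicator_iff hm).2
    (intOn (μ := volume) (continuous_wW ha hη) isBounded_closedBall)
  have j5 := (integrable_indicator_iff hm).2
    (intOn (μ := volume) (continuous_wbf ha hη hχ.sm hχ.sm) isBounded_closedBall)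
  generalize hM : Real.exp 4 * (2 * Real.exp 5 ^ 2) = M
  have main := integral_mono (j2.add i1) (((j3.const_mul ((2 + 7 * C) * M)).add
    (j4.const_mul (t * (2 * M)))).add (j5.const_mul (13 / t))) fun u => by
      have k1 := i3 u t ht
      have k2 := ground (a := a) hb p3 hη hη1 le_rfl hη' hχ.nn hG u
      have k3 := mul_le_mul_of_nonneg_left (cut_le hb hS (f := fun u => wt η (a u) * bf a χ χ u)
        (fun u => mul_nonneg (wt_nonneg _ _) (bf_nonneg _ _ _)) u) (show 0 ≤ 13 / t by positivity)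
      have w0 := wt_nonneg η (a u)
      have w1 := hχ.nn u
      simp only [Pi.add_apply]
      by_cases hu : u ∈ closedBall (0 : E2) (Real.exp 5)
      · have k4 : bw (u.1 * u.2) * AA a u ≤ M * ‖Wf a u‖ ^ 2 := by
          rw [← hM, mul_assoc]
          exact mul_le_mul (p5 _) (AA_le a (mem_closedBall_zero_iff.1 hu)) (AA_nonneg _ _)
            (Real.exp_pos _).le
        have k5 : mm a 1 u ≤ 2 * M * ‖Wf a u‖ ^ 2 := by
          have := mul_le_mul (mul_le_of_le_one_right (p4 (u.1 * u.2)) (zt_le 1 (sc u)))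
            (Tf_le a u) (sq_nonneg _) (p4 _)
          unfold mm
          linarith
        have k6 := mul_le_mul_of_nonneg_left (mul_le_mul (hC (sc u)) k4
          (mul_nonneg (p4 _) (AA_nonneg _ _)) h0) (mul_nonneg w0 w1)
        have k7 := mul_le_mul_of_nonneg_left k5 (mul_nonneg w0 w1)
        have k8 := mul_le_mul_of_nonneg_left k5 (mul_nonneg w0 ht.le)
        rw [indicator_of_mem hu, indicator_of_mem hu]
        linarith
      · have k4 : mm a 1 u = 0 := not_not.1 fun k => hu (hS (mem_Reg hb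
          (left_ne_zero_of_mul (left_ne_zero_of_mul k))
          (zt_ne (right_ne_zero_of_mul (left_ne_zero_of_mul k)))))
        have k5 : |deriv (zt 1) (sc u)| * (bw (u.1 * u.2) * AA a u) = 0 := not_not.1 fun k =>
          hu (hS (mem_Reg hb (left_ne_zero_of_mul (right_ne_zero_of_mul k))
            (dzt_ne (abs_ne_zero.1 (left_ne_zero_of_mul k))).2))
        rw [mul_assoc (7 * χ u), k5, k4] at k1
        rw [k4] at k2
        rw [indicator_of_notMem hu, indicator_of_notMem hu]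
        linarith
  rw [integral_add' j2 i1, i2, integral_add' ((j3.const_mul _).add (j4.const_mul _))
    (j5.const_mul _), integral_add' (j3.const_mul _) (j4.const_mul _), integral_const_mul,
    integral_const_mul, integral_const_mul, integral_indicator (p2 η').measurableSet,
    integral_indicator hm, integral_indicator hm, integral_indicator hm, add_zero] at main
  exact main

end Poinc

open Poinc in
theorem poinc (h1 : IBPStmt) (h2 : PolarStmt) (h3 : PtStmt) : PoincStmt := by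
  obtain ⟨C, hC0, hC⟩ := exists_dzt
  obtain ⟨M, hM0, hM⟩ : ∃ M, 0 < M ∧ Real.exp 4 * (2 * Real.exp 5 ^ 2) = M :=
    ⟨_, by positivity, rfl⟩
  have h4 : 0 ≤ C * Real.exp 4 := by positivity
  have h5 : 0 ≤ (2 + 7 * C) * M := by positivity
  have h6 := Real.sqrt_nonneg (26 * M)
  refine ⟨208 + 14 * (C * Real.exp 4) + (2 + 7 * C) * M + 2 * √(26 * M), by linarith,
    fun a η η' χ ha hη hη1 hη' hχ hG => ⟨fun L hL => ?_, ?_⟩⟩
  · have k := part1 h1 h2 h3 (hC L) ha hη hη1 hη' hχ hG hL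
    have k1 := En_nonneg a η (Reg L) χ
    have k2 : ∀ b : E2 → ℂ, 0 ≤ MK b η L := fun b =>
      integral_nonneg fun u => mul_nonneg (wt_nonneg _ _) (by positivity)
    have k3 := add_nonneg (k2 a) (k2 fun u => a u.swap)
    nlinarith [mul_nonneg h4 k1, mul_nonneg (add_nonneg h5 h6) (add_nonneg k1 k3),
      mul_nonneg h6 (add_nonneg k1 k3)]
  · have k := part2 h1 h3 (hC 1) ha hη hη1 hη' hχ hG
    rw [hM] at k
    have k1 := En_nonneg a η (closedBall 0 (Real.exp 5)) χ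
    have k2 := Ar_nonneg a η (closedBall 0 (Real.exp 5))
    have k3 : 0 ≤ ∫ u in closedBall 0 (Real.exp 5), χ u * (wt η (a u) * ‖Wf a u‖ ^ 2) :=
      integral_nonneg fun u => mul_nonneg (hχ.nn u) (mul_nonneg (wt_nonneg _ _) (sq_nonneg _))
    generalize (∫ u in closedBall 0 (Real.exp 5), χ u * (wt η (a u) * ‖Wf a u‖ ^ 2)) = X at k k3 ⊢
    generalize En a η (closedBall 0 (Real.exp 5)) χ = E at k k1 ⊢
    generalize Ar a η (closedBall 0 (Real.exp 5)) = A at k k2 ⊢
    have k4 := opt (x := Gr a η η' - (2 + 7 * C) * M * X) (A := 2 * M * A) (B := 13 * E)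
      (by positivity) (by positivity) fun t ht => by
        have := k t ht
        rw [show 13 * E / t = 13 / t * E by ring]
        linarith
    rw [show 2 * M * A * (13 * E) = 26 * M * (A * E) by ring,
      Real.sqrt_mul (by positivity)] at k4
    have k5 := Real.sqrt_nonneg (A * E)
    nlinarith [mul_nonneg h4 k3, mul_nonneg h6 k3, mul_nonneg h4 k5, mul_nonneg h5 k5]

end

end Pool.Agent.LinN2
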