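import Pool.Agent.Lib.MP_8465a2_an.N2.BasicB

/-!
Logarithmic coordinates in one and two complex variables.
-/

namespace Pool.Agent.LinN2

open MeasureTheory Metric Set Filter Topology Complex
open scoped ENNReal ComplexConjugate

noncomputable section

namespace Polar

/-- the horizontal strip -/
def S : Set ℂ := {α : ℂ | α.im ∈ Ioc (-Real.pi) Real.pi}

/-- multiplication by a complex number as a real linear map -/
def ml (c : ℂ) : ℂ →L[ℝ] ℂ := ContinuousLinearMap.mul ℝ ℂ c

lemma det_ml (c : ℂ) : (ml c).det = normSq c := by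
  rw [← Algebra.norm_complex_apply, Algebra.norm_apply]
  rfl

lemma S_meas : MeasurableSet S := measurable_im measurableSet_Ioc

lemma exp_der (x : ℂ) : HasFDerivWithinAt Complex.exp (ml (Complex.exp x)) S x := by
  have h := ((Complex.hasDerivAt_exp x).hasFDerivAt.restrictScalars ℝ)
  refine (h.congr_fderiv ?_).hasFDerivWithinAt
  ext v <;> simp [ml, mul_comm]

lemma exp_inj : InjOn Complex.exp S := fun x hx y hy h =>
  Complex.exp_inj_of_neg_pi_lt_of_le_pi hx.1 hx.2 hy.1 hy.2 h

lemma exp_img : Complex.exp '' S = {0}ᶜ := by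
  ext z
  constructor
  · rintro ⟨x, -, rfl⟩
    exact Complex.exp_ne_zero x
  · intro hz
    exact ⟨Complex.log z, ⟨Complex.neg_pi_lt_log_im z, Complex.log_im_le_pi z⟩,
      Complex.exp_log hz⟩

lemma abs_det (x : ℂ) : |(ml (Complex.exp x)).det| = Real.exp x.re ^ 2 := by
  rw [det_ml, abs_of_nonneg (normSq_nonneg _), normSq_eq_norm_sq, Complex.norm_exp]

lemma one (G : ℂ → ℝ) : ∫ z, G z = ∫ α in S, Real.exp α.re ^ 2 * G (Complex.exp α) := by
  have h := integral_image_eq_integral_abs_det_fderiv_smul volume S_meas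
    (fun x _ => exp_der x) exp_inj G
  rw [exp_img, restrict_compl_singleton] at h
  simpa only [abs_det, smul_eq_mul] using h

lemma two (G : ℂ → ℝ≥0∞) :
    ∫⁻ z, G z = ∫⁻ α in S, ENNReal.ofReal (Real.exp α.re ^ 2) * G (Complex.exp α) := by
  have h := lintegral_image_eq_lintegral_abs_det_fderiv_mul volume S_meas
    (fun x _ => exp_der x) exp_inj G
  rw [exp_img, restrict_compl_singleton] at h
  simpa only [abs_det] using h

lemma intOn (G : ℂ → ℝ) (hG : Integrable G) :
    IntegrableOn (fun α : ℂ => Real.exp α.re ^ 2 * G (Complex.exp α)) S := by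
  have h := (integrableOn_image_iff_integrableOn_abs_det_fderiv_smul volume S_meas
    (fun x _ => exp_der x) exp_inj G).1 hG.integrableOn
  simpa only [abs_det, smul_eq_mul] using h

lemma pre : measurableEquivRealProd.symm ⁻¹' S = univ ×ˢ Ioc (-Real.pi) Real.pi := by
  ext p
  simp [S]

lemma symm_eq (p : ℝ × ℝ) : measurableEquivRealProd.symm p = (p.1 : ℂ) + p.2 * I := by
  apply Complex.ext <;> simp

lemma strip (H : ℂ → ℝ) :
    ∫ α in S, H α =
      ∫ p : ℝ × ℝ in univ ×ˢ Ioc (-Real.pi) Real.pi, H ((p.1 : ℂ) + p.2 * I) := by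
  have h := volume_preserving_equiv_real_prod.symm.setIntegral_preimage_emb
    measurableEquivRealProd.symm.measurableEmbedding H S
  rw [pre] at h
  simpa only [symm_eq] using h.symm

lemma strip_int (H : ℂ → ℝ) (hH : IntegrableOn H S) :
    IntegrableOn (fun p : ℝ × ℝ => H ((p.1 : ℂ) + p.2 * I)) (univ ×ˢ Ioc (-Real.pi) Real.pi) := by
  have h := (volume_preserving_equiv_real_prod.symm.integrableOn_comp_preimage
    measurableEquivRealProd.symm.measurableEmbedding (f := H) (s := S)).2 hH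
  rw [pre] at h
  simpa only [Function.comp_def, symm_eq] using h

lemma three (G : ℂ → ℝ) (hG : Integrable G) : ∫ z, G z =
    ∫ t : ℝ, ∫ s in (-Real.pi)..Real.pi, Real.exp t ^ 2 * G (Complex.exp (t + s * I)) := by
  have hpi : -Real.pi ≤ Real.pi := by linarith [Real.pi_pos]
  have h := strip_int _ (intOn G hG)
  rw [one, strip, Measure.volume_eq_prod, setIntegral_prod _ h]
  simp [intervalIntegral.integral_of_le hpi]

lemma four (f : ℝ → ℝ) : ∫ z : ℂ, f (Real.log ‖z‖) / ‖z‖ ^ 2 = 2 * Real.pi * ∫ t, f t := by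
  have h : ∀ α : ℂ, Real.exp α.re ^ 2 * (f (Real.log ‖Complex.exp α‖) / ‖Complex.exp α‖ ^ 2) =
      f α.re := fun α => by
    rw [Complex.norm_exp, Real.log_exp]
    have := Real.exp_pos α.re
    field_simp
  rw [one]
  simp only [h]
  rw [strip]
  have h2 := setIntegral_prod_mul (μ := (volume : Measure ℝ)) (ν := (volume : Measure ℝ)) f
    (fun _ : ℝ => (1 : ℝ)) univ (Ioc (-Real.pi) Real.pi)
  have hpi : 0 ≤ Real.pi + Real.pi := by linarith [Real.pi_pos]
  simp only [mul_one, Measure.restrict_univ, integral_const, smul_eq_mul,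
    MeasurableSet.univ, measureReal_restrict_apply, univ_inter, Real.volume_real_Ioc,
    sub_neg_eq_add, max_eq_left hpi] at h2
  simp only [add_re, ofReal_re, mul_re, I_re, mul_zero, ofReal_im, I_im, mul_one, sub_self,
    add_zero]
  rw [Measure.volume_eq_prod, h2]
  ring

lemma bb_cont : Continuous bb := by
  unfold bb
  fun_prop

lemma bb_zero {x : ℝ} (h : 2 ≤ |x|) : bb x = 0 := by
  unfold bb
  rcases le_abs.1 h with h | h
  · rw [Real.smoothTransition.zero_of_nonpos (by linarith), zero_mul]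
  · rw [Real.smoothTransition.zero_of_nonpos (x := 2 + x) (by linarith), mul_zero]

lemma bb_supp : HasCompactSupport bb := by
  refine HasCompactSupport.intro (isCompact_closedBall (0 : ℝ) 2) fun x hx => bb_zero ?_
  simp only [mem_closedBall, dist_zero_right, Real.norm_eq_abs, not_le] at hx
  exact hx.le

lemma bw_small {q : ℂ} (h : ‖q‖ < Real.exp (-2)) : bw q = 0 := by
  unfold bw
  by_cases hq : q = 0
  · simp [hq]
  · have h1 : Real.log ‖q‖ < -2 := (Real.log_lt_iff_lt_exp (norm_pos_iff.2 hq)).2 h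
    rw [bb_zero (le_abs.2 (Or.inr (by linarith))), zero_div]

lemma cont5 {k : ℝ → ℝ} (hk : Continuous k) :
    Continuous (fun u : E2 => bw (u.1 * u.2) * k (sc u)) := by
  refine continuous_iff_continuousAt.2 fun u => ?_
  by_cases hu : u.1 * u.2 = 0
  · have ho : IsOpen {v : E2 | ‖v.1 * v.2‖ < Real.exp (-2)} :=
      isOpen_lt (by fun_prop) continuous_const
    refine (continuousAt_const (y := (0 : ℝ))).congr ?_
    filter_upwards [ho.mem_nhds (show ‖u.1 * u.2‖ < Real.exp (-2) by
      rw [hu, norm_zero]; exact Real.exp_pos _)] with v hv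
    rw [bw_small hv, zero_mul]
  · have h1 : ‖u.1‖ ≠ 0 := norm_ne_zero_iff.2 (left_ne_zero_of_mul hu)
    have h2 : ‖u.2‖ ≠ 0 := norm_ne_zero_iff.2 (right_ne_zero_of_mul hu)
    have h3 : ‖u.1 * u.2‖ ≠ 0 := norm_ne_zero_iff.2 hu
    have a1 : ContinuousAt (fun v : E2 => Real.log ‖v.1‖) u :=
      ContinuousAt.log (by fun_prop) h1
    have a2 : ContinuousAt (fun v : E2 => Real.log ‖v.2‖) u :=
      ContinuousAt.log (by fun_prop) h2
    have a3 : ContinuousAt (fun v : E2 => Real.log ‖v.1 * v.2‖) u :=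
      ContinuousAt.log (by fun_prop) h3
    unfold bw sc
    exact ((bb_cont.continuousAt.comp a3).div (by fun_prop) (pow_ne_zero 2 h3)).mul
      (hk.continuousAt.comp ((a1.sub a2).div_const 2))

lemma supp5 {k : ℝ → ℝ} (hk : HasCompactSupport k) :
    HasCompactSupport (fun u : E2 => bw (u.1 * u.2) * k (sc u)) := by
  obtain ⟨R, hR⟩ := hk.isCompact.isBounded.subset_closedBall (0 : ℝ)
  refine HasCompactSupport.intro (isCompact_closedBall (0 : E2) (Real.exp (1 + R)))
    fun u hu => ?_
  by_contra h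
  have hb : bw (u.1 * u.2) ≠ 0 := left_ne_zero_of_mul h
  have hs : |sc u| ≤ R := by
    simpa using hR (subset_tsupport _ (right_ne_zero_of_mul h))
  have hq : u.1 * u.2 ≠ 0 := fun h0 => hb (by simp [bw, h0])
  have h1 : 0 < ‖u.1‖ := norm_pos_iff.2 (left_ne_zero_of_mul hq)
  have h2 : 0 < ‖u.2‖ := norm_pos_iff.2 (right_ne_zero_of_mul hq)
  have h3 : |Real.log ‖u.1 * u.2‖| < 2 := by
    by_contra h4
    exact hb (by rw [bw, bb_zero (not_lt.1 h4), zero_div])
  rw [norm_mul, Real.log_mul h1.ne' h2.ne'] at h3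
  unfold sc at hs
  obtain ⟨-, h3⟩ := abs_lt.1 h3
  obtain ⟨h4, h5⟩ := abs_le.1 hs
  apply hu
  rw [mem_closedBall, dist_zero_right, Prod.norm_def]
  exact max_le ((Real.log_le_iff_le_exp h1).1 (by linarith))
    ((Real.log_le_iff_le_exp h2).1 (by linarith))

lemma conv {k : ℝ → ℝ} (hk : Integrable k) :
    ∫ a, ∫ t, bb (a + t) * k ((a - t) / 2) = (∫ x, bb x) * ∫ s, k s := by
  have hb : Integrable (fun r : ℝ => bb (2 * r)) :=
    (bb_cont.integrable_of_hasCompactSupport bb_supp).comp_mul_left' two_ne_zero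
  have h1 : ∀ a : ℝ, ∫ t, bb (a + t) * k ((a - t) / 2) =
      2 * ∫ r, bb (2 * r) * k (a - r) := fun a => by
    have e1 := integral_add_left_eq_self (μ := volume) (fun s => bb s * k (a - s / 2)) a
    have e2 := Measure.integral_comp_mul_left (fun s => bb s * k (a - s / 2)) 2
    have e3 : ∀ t : ℝ, a - (a + t) / 2 = (a - t) / 2 := fun t => by ring
    have e4 : ∀ r : ℝ, 2 * r / 2 = r := fun r => by ring
    simp only [e3] at e1
    simp only [e4, smul_eq_mul] at e2
    rw [e1, e2, abs_of_pos (by norm_num)]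
    ring
  have h2 := integral_convolution (ContinuousLinearMap.mul ℝ ℝ) hb hk
  simp only [convolution, ContinuousLinearMap.mul_apply'] at h2
  simp only [h1]
  rw [integral_const_mul, h2, Measure.integral_comp_mul_left bb 2, abs_of_pos (by norm_num),
    smul_eq_mul]
  ring

lemma int5 {k : ℝ → ℝ} (hk : Continuous k) (hc : HasCompactSupport k) :
    ∫ u : E2, bw (u.1 * u.2) * k (sc u) = VV * ∫ s, k s := by
  have hi := (cont5 hk).integrable_of_hasCompactSupport (μ := volume) (supp5 hc)
  set F : ℝ → ℝ := fun a => 2 * Real.pi * ∫ t, bb (a + t) * k ((a - t) / 2) with hF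
  have h1 : ∀ x : ℂ, ∫ y : ℂ, bw (x * y) * k (sc (x, y)) = F (Real.log ‖x‖) / ‖x‖ ^ 2 := by
    intro x
    by_cases hx : x = 0
    · simp [hx, bw]
    rw [hF]
    dsimp only
    rw [← four, ← integral_div]
    refine integral_congr_ae (Eventually.of_forall fun y => ?_)
    by_cases hy : y = 0
    · simp [hy, bw]
    have h1 : 0 < ‖x‖ := norm_pos_iff.2 hx
    have h2 : 0 < ‖y‖ := norm_pos_iff.2 hy
    simp only [bw, sc, norm_mul, Real.log_mul h1.ne' h2.ne']
    field_simp
  rw [Measure.volume_eq_prod] at hi ⊢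
  rw [integral_prod _ hi]
  simp only [h1]
  rw [four, hF, integral_const_mul, conv (hk.integrable_of_hasCompactSupport hc), VV]
  ring

lemma six : ∫ x : ℂ, bw (x * conj x) * ‖x‖ ^ 2 = VV / (4 * Real.pi) := by
  have h : ∀ x : ℂ, bw (x * conj x) * ‖x‖ ^ 2 = bb (2 * Real.log ‖x‖) / ‖x‖ ^ 2 := fun x => by
    by_cases hx : x = 0
    · simp [hx]
    have h1 : 0 < ‖x‖ := norm_pos_iff.2 hx
    simp only [bw, norm_mul, RCLike.norm_conj, Real.log_mul h1.ne' h1.ne', ← two_mul]
    field_simp
  simp only [h]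
  rw [four (fun t => bb (2 * t)), Measure.integral_comp_mul_left bb 2, abs_of_pos (by norm_num),
    smul_eq_mul, VV]
  have := Real.pi_pos
  field_simp

end Polar

theorem polar : PolarStmt :=
  ⟨Polar.one, Polar.two, fun G h1 h2 => Polar.three G (h1.integrable_of_hasCompactSupport h2),
    fun f _ _ => Polar.four f,
    fun _ h1 h2 => ⟨Polar.cont5 h1, Polar.supp5 h2, Polar.int5 h1 h2⟩, Polar.six⟩

end

end Pool.Agent.LinN2
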