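import Pool.Agent.Lib.MP_8465a2_an.N2.BasicB

/-!
The density of the level, the weight on the `q` plane and the grounded mass (MP_8465a2_an).
-/

namespace Pool.Agent.LinN2

open MeasureTheory Metric Set Filter Topology Complex
open scoped ENNReal ComplexConjugate

noncomputable section

namespace Pt

lemma sq_pos {ε : ℝ} (hε : 0 < ε) (c : ℝ) : 0 < √(c ^ 2 + ε ^ 2) := by positivity

lemma pe_cont {ε : ℝ} (hε : 0 < ε) : Continuous (pe ε) := by
  unfold pe
  refine continuous_const.div (by fun_prop) fun c => ?_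
  have := sq_pos hε c
  positivity

lemma pe_nonneg (ε c : ℝ) : 0 ≤ pe ε c := by unfold pe; positivity

lemma pe_anti {ε T c : ℝ} (hε : 0 < ε) (hT : 0 < T) (h : T ≤ |c|) : pe ε c ≤ pe ε T := by
  unfold pe
  have h1 := sq_pos hε T
  have h2 : T ^ 2 ≤ c ^ 2 := by rw [← sq_abs c]; gcongr
  gcongr

lemma pe_le {ε T : ℝ} (hT : 0 < T) : pe ε T ≤ ε ^ 2 / (2 * T ^ 3) := by
  unfold pe
  have h : T ≤ √(T ^ 2 + ε ^ 2) := Real.le_sqrt_of_sq_le (by nlinarith [sq_nonneg ε])
  gcongr

lemma pe_der {ε : ℝ} (hε : 0 < ε) (c : ℝ) :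
    HasDerivAt (fun c : ℝ => c / (2 * √(c ^ 2 + ε ^ 2))) (pe ε c) c := by
  have h0 := sq_pos hε c
  have h1 : HasDerivAt (fun c : ℝ => c ^ 2 + ε ^ 2) (2 * c) c := by
    simpa using (hasDerivAt_pow 2 c).add_const (ε ^ 2)
  have h2 := (h1.sqrt (by positivity)).const_mul 2
  have h3 := (hasDerivAt_id' c).div h2 (by positivity)
  refine h3.congr_deriv ?_
  have h4 : √(c ^ 2 + ε ^ 2) ^ 2 = c ^ 2 + ε ^ 2 := Real.sq_sqrt (by positivity)
  unfold pe
  generalize √(c ^ 2 + ε ^ 2) = s at *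
  have h5 : ε ^ 2 = s ^ 2 - c ^ 2 := by linarith
  rw [h5]
  field_simp

lemma pt_cont {ε : ℝ} (hε : 0 < ε) (T : ℝ) : Continuous (pt ε T) :=
  ((pe_cont hε).sub continuous_const).max continuous_const

lemma pt_zero {ε T c : ℝ} (hε : 0 < ε) (hT : 0 < T) (h : T ≤ |c|) : pt ε T c = 0 :=
  max_eq_right (sub_nonpos.2 (pe_anti hε hT h))

lemma pt_supp {ε T : ℝ} (hε : 0 < ε) (hT : 0 < T) : HasCompactSupport (pt ε T) :=
  HasCompactSupport.intro (isCompact_Icc (a := -T) (b := T)) fun c hc => pt_zero hε hT (by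
    by_contra h
    exact hc (abs_le.1 (not_le.1 h).le))

lemma pt_int {ε T : ℝ} (hε : 0 < ε) (hT : 0 < T) : ∫ c, pt ε T c ≤ 1 := by
  have hTT : -T ≤ T := by linarith
  have e1 : ∫ c, pt ε T c = ∫ c in (-T)..T, pt ε T c := by
    refine (intervalIntegral.integral_eq_integral_of_support_subset fun c hc => ?_).symm
    have : ¬ T ≤ |c| := fun h => hc (pt_zero hε hT h)
    have := abs_lt.1 (not_le.1 this)
    exact ⟨this.1, this.2.le⟩
  have e2 : ∫ c in (-T)..T, pt ε T c ≤ ∫ c in (-T)..T, pe ε c :=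
    intervalIntegral.integral_mono_on hTT ((pt_cont hε T).intervalIntegrable _ _)
      ((pe_cont hε).intervalIntegrable _ _) fun c _ =>
        max_le (sub_le_self _ (pe_nonneg ε T)) (pe_nonneg ε c)
  have e3 := intervalIntegral.integral_eq_sub_of_hasDerivAt (a := -T) (b := T)
    (fun c _ => pe_der hε c) ((pe_cont hε).intervalIntegrable _ _)
  have h : T ≤ √(T ^ 2 + ε ^ 2) := Real.le_sqrt_of_sq_le (by nlinarith [sq_nonneg ε])
  have h0 := sq_pos hε T
  rw [e1]
  refine e2.trans ?_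
  rw [e3, neg_sq, ← sub_div, div_le_one (by positivity)]
  linarith

lemma bb_cont : Continuous bb := by
  have := Real.smoothTransition.continuous
  unfold bb
  fun_prop

lemma bb_nonneg (x : ℝ) : 0 ≤ bb x :=
  mul_nonneg (Real.smoothTransition.nonneg _) (Real.smoothTransition.nonneg _)

lemma bb_le (x : ℝ) : bb x ≤ 1 :=
  mul_le_one₀ (Real.smoothTransition.le_one _) (Real.smoothTransition.nonneg _)
    (Real.smoothTransition.le_one _)

lemma bb_ne {x : ℝ} (h : bb x ≠ 0) : -2 ≤ x ∧ x ≤ 2 := by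
  unfold bb at h
  obtain ⟨h1, h2⟩ := mul_ne_zero_iff.1 h
  constructor
  · by_contra k
    exact h2 (Real.smoothTransition.zero_of_nonpos (by linarith))
  · by_contra k
    exact h1 (Real.smoothTransition.zero_of_nonpos (by linarith))

lemma bw_ne {q : ℂ} (h : bw q ≠ 0) : Real.exp (-2) ≤ ‖q‖ ∧ ‖q‖ ≤ Real.exp 2 := by
  unfold bw at h
  obtain ⟨h1, h2⟩ := div_ne_zero_iff.1 h
  have h3 : 0 < ‖q‖ := (norm_nonneg q).lt_of_ne fun k => h2 (by rw [← k]; simp)
  obtain ⟨h4, h5⟩ := bb_ne h1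
  exact ⟨(Real.le_log_iff_exp_le h3).1 h4, (Real.log_le_iff_le_exp h3).1 h5⟩

lemma bw_nonneg (q : ℂ) : 0 ≤ bw q := div_nonneg (bb_nonneg _) (by positivity)

lemma bw_le (q : ℂ) : bw q ≤ Real.exp 4 := by
  by_cases h : bw q = 0
  · rw [h]; positivity
  · have h1 := (bw_ne h).1
    have h2 := Real.exp_pos (-2)
    have h3 : Real.exp 4 * Real.exp (-2) ^ 2 = 1 := by
      rw [sq, ← Real.exp_add, ← Real.exp_add]; norm_num
    unfold bw
    rw [div_le_iff₀ (pow_pos (h2.trans_le h1) 2)]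
    calc bb (Real.log ‖q‖) ≤ Real.exp 4 * Real.exp (-2) ^ 2 := h3 ▸ bb_le _
      _ ≤ Real.exp 4 * ‖q‖ ^ 2 := by gcongr

/-- the weight times a function which is continuous off the origin is continuous -/
lemma bw_mul_cont {P : ℂ → ℝ} (hP : ∀ q, q ≠ 0 → ContinuousAt P q) :
    Continuous fun q => bw q * P q := by
  refine continuous_iff_continuousAt.2 fun q => ?_
  by_cases hq : q = 0
  · have : (fun q => bw q * P q) =ᶠ[𝓝 q] fun _ => 0 := by
      filter_upwards [ball_mem_nhds q (Real.exp_pos (-2))] with z hz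
      rw [hq, mem_ball_zero_iff] at hz
      have : bw z = 0 := by
        by_contra k
        exact absurd (bw_ne k).1 (not_le.2 hz)
      rw [this, zero_mul]
    exact continuousAt_const.congr this.symm
  · have h1 : ‖q‖ ≠ 0 := norm_ne_zero_iff.2 hq
    refine ContinuousAt.mul ?_ (hP q hq)
    unfold bw
    exact (bb_cont.continuousAt.comp (continuous_norm.continuousAt.log h1)).div
      (continuous_norm.continuousAt.pow 2) (pow_ne_zero 2 h1)

lemma bw_cont : Continuous bw := by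
  simpa using bw_mul_cont (P := fun _ => 1) fun _ _ => continuousAt_const

lemma Pk_nonneg {η : ℝ} (h0 : 0 < η) (h1 : η < 1) (q : ℂ) : 0 ≤ Pk η q :=
  div_nonneg (by nlinarith) (by positivity)

lemma Pk_cont {η : ℝ} (h0 : 0 < η) (h1 : η < 1) {q : ℂ} (hq : q ≠ 0) : ContinuousAt (Pk η) q := by
  have h2 : ‖q‖ ≠ 0 := norm_ne_zero_iff.2 hq
  have h3 : ((‖q‖ : ℝ) : ℂ) ≠ 0 := ofReal_ne_zero.2 h2
  have h4 : ContinuousAt (fun q : ℂ => q / ((‖q‖ : ℝ) : ℂ)) q :=
    continuousAt_id.div (continuous_ofReal.comp continuous_norm).continuousAt h3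
  unfold Pk
  refine continuousAt_const.div (((continuousAt_const.sub (continuousAt_const.mul h4)).norm).pow 2)
    (pow_ne_zero 2 (norm_ne_zero_iff.2 fun k => ?_))
  have h5 := congrArg norm (sub_eq_zero.1 k)
  rw [norm_one, norm_mul, norm_div, norm_real, norm_real, norm_norm, div_self h2, mul_one,
    Real.norm_of_nonneg (by linarith)] at h5
  linarith

lemma G_closed (η' : ℝ) : IsClosed (Gset η') := by
  unfold Gset
  simp only [Set.ofPred_and]
  exact (isClosed_le (by fun_prop) continuous_const).inter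
    ((isClosed_le continuous_const (by fun_prop)).inter (isClosed_le (by fun_prop) continuous_const))

lemma G_norm {u : E2} (hu : u ∈ Gset 1) : ‖u‖ ≤ 4 := by
  obtain ⟨h1, -, h2⟩ := hu
  have h3 : Real.exp 2 < 12 := by
    have := Real.exp_one_lt_d9
    have h4 : Real.exp 2 = Real.exp 1 * Real.exp 1 := by rw [← Real.exp_add]; norm_num
    nlinarith [Real.exp_pos 1]
  have h4 := abs_le.1 ((abs_norm_sub_norm_le u.1 (conj u.2)).trans h1)
  rw [RCLike.norm_conj] at h4
  rw [norm_mul] at h2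
  rw [Prod.norm_def]
  refine max_le ?_ ?_
  · by_contra k
    nlinarith [not_le.1 k, h4.2]
  · by_contra k
    nlinarith [not_le.1 k, h4.1]

lemma G_compact {η' : ℝ} (h : η' ≤ 1) : IsCompact (Gset η') :=
  (isCompact_closedBall (0 : E2) 4).of_isClosed_subset (G_closed η') fun _ hu =>
    mem_closedBall_zero_iff.2 (G_norm ⟨hu.1.trans h, hu.2⟩)

lemma VV_pos : 0 < VV := by
  have h : 0 < ∫ x, bb x := by
    refine bb_cont.integral_pos_of_hasCompactSupport_nonneg_nonzero (x := 0)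
      (HasCompactSupport.intro (isCompact_Icc (a := -2) (b := 2)) fun x hx => ?_) bb_nonneg ?_
    · by_contra k
      exact hx (bb_ne k)
    · unfold bb
      exact mul_ne_zero (Real.smoothTransition.pos_of_pos (by norm_num)).ne'
        (Real.smoothTransition.pos_of_pos (by norm_num)).ne'
  unfold VV
  have := Real.pi_pos
  positivity

lemma dens_cont {a : E2 → ℂ} {η : ℝ} (ha : ContDiff ℂ 2 a) (h0 : 0 < η) (h1 : η < 1) :
    Continuous fun u : E2 => bw (u.1 * u.2) * Pk η (u.1 * u.2) * ‖Tf a u‖ ^ 2 :=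
  ((bw_mul_cont fun _ hq => Pk_cont h0 h1 hq).comp (continuous_fst.mul continuous_snd)).mul
    ((continuous_Tf ha).norm.pow 2)

lemma Gr_cont {a : E2 → ℂ} {η η' : ℝ} (ha : ContDiff ℂ 2 a) (h0 : 0 < η) (h1 : η < 1)
    (h2 : η' ≤ 1) : Continuous fun c : ℝ => Gr (fun u => a u - c) η η' := by
  have e : ∀ (c : ℂ) (u : E2), Tf (fun u => a u - c) u = Tf a u := fun c u => by
    unfold Tf
    rw [fderiv_sub_const]
  unfold Gr
  simp only [e]
  refine continuous_parametric_integral_of_continuous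
    (f := fun (c : ℝ) (u : E2) =>
      wt η (a u - c) * (bw (u.1 * u.2) * Pk η (u.1 * u.2) * ‖Tf a u‖ ^ 2)) ?_ (G_compact h2)
  exact ((continuous_wt h0).comp ((ha.continuous.comp continuous_snd).sub
    (continuous_ofReal.comp continuous_fst))).mul ((dens_cont ha h0 h1).comp continuous_snd)

end Pt

theorem ptS : PtStmt := by
  refine ⟨fun ε T hε hT => ⟨Pt.pt_cont hε T, fun c => le_max_right _ _,
      fun c hc => Pt.pt_zero hε hT hc, Pt.pt_supp hε hT, Pt.pt_int hε hT,
      fun c => le_trans (sub_le_sub_left (Pt.pe_le hT) _) (le_max_left _ _)⟩,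
    fun a η η' ha h0 h1 h2 => ⟨Pt.Gr_cont ha h0 h1 h2, ?_, ?_⟩, Pt.G_compact le_rfl, Pt.G_closed,
    fun u hu => Pt.G_norm hu, Pt.bw_cont, Pt.bw_nonneg, Pt.bw_le, fun q => Pt.bw_ne, Pt.VV_pos⟩
  · exact integral_nonneg fun u => mul_nonneg (wt_nonneg _ _)
      (mul_nonneg (mul_nonneg (Pt.bw_nonneg _) (Pt.Pk_nonneg h0 h1 _)) (by positivity))
  · exact intOn (((continuous_wt h0).comp ha.continuous).mul (Pt.dens_cont ha h0 h1))
      (Pt.G_compact h2).isBounded

end

end Pool.Agent.LinN2
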