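import Pool.Agent.Lib.MP_8465a2_an.N2.BasicB

/-!
Bound for the order of a tube, and rescaling of the packing bound (MP_8465a2_an).
-/

namespace Pool.Agent.LinN2

open MeasureTheory Metric Set Filter Topology Complex
open scoped ENNReal ComplexConjugate

noncomputable section

variable {n : ℕ}

namespace Resc

/-- the rescaled map -/
def rs (g : Cn n → Cn n) (c : Rn n) (y : Cn n) : Cn n := g (cx c + (1 / 2 : ℂ) • y)

lemma fderiv_rs {g : Cn n → Cn n} (hg : Differentiable ℂ g) (c : Rn n) (y a : Cn n) :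
    fderiv ℂ (rs g c) y a = (1 / 2 : ℂ) • fderiv ℂ g (cx c + (1 / 2 : ℂ) • y) a := by
  have hl : HasFDerivAt (fun y : Cn n => cx c + (1 / 2 : ℂ) • y)
      ((1 / 2 : ℂ) • ContinuousLinearMap.id ℂ (Cn n)) y :=
    ((hasFDerivAt_id y).const_smul (1 / 2 : ℂ)).const_add _
  have h : HasFDerivAt (rs g c) ((fderiv ℂ g (cx c + (1 / 2 : ℂ) • y)).comp
      ((1 / 2 : ℂ) • ContinuousLinearMap.id ℂ (Cn n))) y := (hg _).hasFDerivAt.comp y hl
  rw [h.fderiv, ContinuousLinearMap.comp_smul, ContinuousLinearMap.comp_id]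
  rfl

lemma adm_rs {g : Cn n → Cn n} (h : Adm g) (c : Rn n) : Adm (rs g c) where
  poly k := by
    obtain ⟨p, hp⟩ := h.poly k
    refine ⟨MvPolynomial.bind₁ (fun l => MvPolynomial.C (cx c l) +
      MvPolynomial.C (1 / 2 : ℂ) * MvPolynomial.X l) p, fun y => ?_⟩
    rw [rs, hp, ← MvPolynomial.aeval_eq_eval, ← MvPolynomial.aeval_eq_eval,
      MvPolynomial.aeval_bind₁]
    congr 2
    ext l
    simp
  real y := by
    rw [rs, rs, ← h.real, star_add, star_cx, star_smul]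
    congr 3
    simp
  curl y a b := by
    rw [fderiv_rs h.differentiable, fderiv_rs h.differentiable, smul_dotProduct, smul_dotProduct,
      h.curl]
  dvg y := by
    simp only [fderiv_rs h.differentiable, Pi.smul_apply, smul_eq_mul]
    rw [← Finset.mul_sum, h.dvg, mul_zero]

lemma sub_eq (c x : Rn n) (y : Cn n) : cx c + (1 / 2 : ℂ) • y - cx (c + (1 / 2 : ℝ) • x) =
    (1 / 2 : ℂ) • (y - cx x) := by
  ext l; simp; ring

lemma norm_half (y : Cn n) : ‖(1 / 2 : ℂ) • y‖ = ‖y‖ / 2 := by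
  rw [norm_smul]; simp; ring

lemma SS_rs {g : Cn n → Cn n} (hg : Continuous g) (c x : Rn n) (r : ℝ) :
    SS (rs g c) (cx x) (2 * r) = SS g (cx (c + (1 / 2 : ℝ) • x)) r := by
  have hc : Continuous (rs g c) := hg.comp (by fun_prop)
  refine le_antisymm (SS_le (SS_nonneg _ _ _) fun y hy => le_SS hg ?_)
    (SS_le (SS_nonneg _ _ _) fun y hy => ?_)
  · rw [sub_eq, norm_half]; linarith
  · have e : y = cx c + (1 / 2 : ℂ) • ((2 : ℂ) • (y - cx c)) := by
      rw [smul_smul]; norm_num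
    have h1 : g y = rs g c ((2 : ℂ) • (y - cx c)) := by rw [rs, ← e]
    rw [h1]
    refine le_SS hc ?_
    rw [e, sub_eq, norm_half] at hy
    linarith

lemma nor_rs {g : Cn n → Cn n} {N : ℝ} (h : Nor g N) {c : Rn n} (hc : ‖c‖ ≤ 5) :
    Nor (rs g c) (7 * N) where
  adm := adm_rs h.adm c
  one := by linarith [h.one]
  up y hy := h.up _ (by
    refine (norm_add_le _ _).trans ?_
    rw [norm_cx, norm_half]; linarith)
  low := by
    have h1 := SS_rs h.adm.continuous c 0 (1 / 2)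
    rw [cx_zero, smul_zero, add_zero, show (2 : ℝ) * (1 / 2) = 1 by norm_num] at h1
    have h2 := h.log_ge hc (s := 1 / 2) (by norm_num) (by norm_num)
    rw [h1, ← Real.le_log_iff_exp_le (SS_pos h.diff h.nz _ (by norm_num))]
    rw [one_div, Real.log_inv] at h2
    rw [one_div]
    nlinarith [Real.log_two_lt_d9, h.one]

lemma tube_rs {g : Cn n → Cn n} (hg : Continuous g) (c x : Rn n) {r μ X B : ℝ} (hr : 0 < r)
    (h : Tube g (c + (1 / 2 : ℝ) • x) r μ X B) : Tube (rs g c) x (2 * r) μ X B := by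
  obtain ⟨u1, u2, h1, h2⟩ := h
  refine ⟨u1, u2, h1, fun y hy => ?_⟩
  have h3 := h2 (cx c + (1 / 2 : ℂ) • y) (by rw [sub_eq, norm_half]; linarith)
  rw [sub_eq, zc_smul, wc_smul, norm_mul, norm_mul, ← mul_max_of_nonneg _ _ (norm_nonneg _)] at h3
  rw [SS_rs hg]
  have e : ‖(1 / 2 : ℂ)‖ * max ‖zc u1 u2 (y - cx x)‖ ‖wc u1 u2 (y - cx x)‖ / r =
      max ‖zc u1 u2 (y - cx x)‖ ‖wc u1 u2 (y - cx x)‖ / (2 * r) := by
    simp only [norm_div, norm_one, Complex.norm_ofNat]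
    field_simp
  rw [e] at h3
  exact h3

lemma order_le (g : Cn n → Cn n) (N C0 B r μ : ℝ) (x : Rn n) (h : Nor g N) (hx : ‖x‖ ≤ 5)
    (hr : 0 < r) (hr1 : r ≤ 1) (hμ : 0 ≤ μ) (h1 : 1 ≤ C0) (h2 : 2 * C0 ≤ B) (h3 : 2 * n ≤ B)
    (ht : Tube g x r μ (C0 * μ) B) : μ ≤ 8 * N := by
  obtain ⟨u1, u2, ht⟩ := ht
  have hn : (1 : ℝ) ≤ n := by exact_mod_cast ht.1.pos
  have hB : 0 < B := by linarith
  have he := Real.exp_pos (-B)
  have he1 : Real.exp (-B) ≤ 1 := Real.exp_le_one_iff.2 (by linarith)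
  have hl : Real.exp (-B) / n ≤ 1 := (div_le_one (by linarith)).2 (by linarith)
  have hl0 : 0 < Real.exp (-B) / n := by positivity
  have e : (n : ℝ) * (Real.exp (-B) / n) = Real.exp (-B) := by field_simp
  have a1 := ht.SS_le (lam := Real.exp (-B) / n) hr hμ e.ge
    (hl.trans (Real.one_le_exp hB.le))
  rw [e, Real.log_exp] at a1
  have p1 := SS_pos h.diff h.nz (cx x) hr
  have a2 := Real.log_le_log (SS_pos h.diff h.nz (cx x) (by positivity)) a1
  rw [Real.log_mul (by positivity) p1.ne', Real.log_exp] at a2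
  have a3 := h.slope hx (s := Real.exp (-B) / n * r) (t := r) (by positivity) (by nlinarith)
    (by linarith)
  rw [Real.log_mul hl0.ne' hr.ne', Real.log_div he.ne' (by linarith), Real.log_exp] at a3
  have a4 := Real.log_le_sub_one_of_pos (show (0 : ℝ) < n by linarith)
  have a5 : μ * (B / 2) ≤ N * (3 * B) := by nlinarith [h.one]
  have a6 : μ * B ≤ 8 * N * B := by nlinarith [h.one]
  exact le_of_mul_le_mul_right a6 hB

open Classical in
lemma piece {C0 B0 lo hi C : ℝ} (hP : PB n C0 B0 lo hi C) {g : Cn n → Cn n} {N : ℝ} (h : Nor g N)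
    {r : ℝ} (hr : 0 < r) (h1 : lo < 2 * r) (h2 : 2 * r ≤ hi) {F : Finset (Rn n)} {μ : Rn n → ℝ}
    (hF : Pack g C0 B0 5 r F μ) {c : Rn n} (hc : ‖c‖ ≤ 5) :
    ∑ x ∈ F.filter (fun x => ‖x - c‖ ≤ 1 / 2), r ^ (n - 2) * μ x ^ 2 ≤ C * (7 * N) ^ 2 := by
  have e : ∀ x : Rn n, c + (1 / 2 : ℝ) • ((2 : ℝ) • (x - c)) = x := fun x => by
    rw [smul_smul]; norm_num
  have hi : Function.Injective fun x : Rn n => (2 : ℝ) • (x - c) := fun x x' hx => by
    rw [← e x, ← e x']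
    exact congrArg (fun z => c + (1 / 2 : ℝ) • z) hx
  have := hP (rs g c) (7 * N) (nor_rs h hc) (2 * r) h1 h2
    ((F.filter fun x => ‖x - c‖ ≤ 1 / 2).image fun x => (2 : ℝ) • (x - c))
    (fun x => μ (c + (1 / 2 : ℝ) • x)) ⟨fun x hx => ?_, fun x hx x' hx' hne => ?_⟩
  · rw [Finset.sum_image fun x _ x' _ hx => hi hx] at this
    simp only [e] at this
    refine le_trans (Finset.sum_le_sum fun x _ => ?_) this
    gcongr
    linarith
  · obtain ⟨z, hz, rfl⟩ := Finset.mem_image.1 hx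
    rw [Finset.mem_filter] at hz
    obtain ⟨_, b2, b3⟩ := hF.mem z hz.1
    simp only [e]
    refine ⟨?_, b2, tube_rs h.adm.continuous c _ hr (by rwa [e])⟩
    rw [norm_smul, Real.norm_two]
    linarith [hz.2]
  · obtain ⟨z, hz, rfl⟩ := Finset.mem_image.1 hx
    obtain ⟨z', hz', rfl⟩ := Finset.mem_image.1 hx'
    have := hF.sep z (Finset.mem_filter.1 hz).1 z' (Finset.mem_filter.1 hz').1
      fun h => hne (by rw [h])
    rw [← smul_sub, sub_sub_sub_cancel_right, norm_smul, Real.norm_two]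
    linarith

end Resc

open Classical in
theorem resc (_hn : 3 ≤ n) (h : NetStmt) : RescStmt n := by
  refine ⟨Resc.order_le, ?_⟩
  obtain ⟨G, hG1, -, hG3⟩ := h.2 (Rn n) (closedBall 0 5) 0 5 (1 / 2) (by norm_num)
    fun x hx => mem_closedBall_iff_norm.1 hx
  refine ⟨49 * G.card + 1, by have := Nat.cast_nonneg (α := ℝ) G.card; linarith,
    fun C0 B0 lo hi C hC hP g N hN r hr h1 h2 F μ hF => ?_⟩
  calc ∑ x ∈ F, r ^ (n - 2) * μ x ^ 2
      ≤ ∑ x ∈ F, ∑ c ∈ G, if ‖x - c‖ ≤ 1 / 2 then r ^ (n - 2) * μ x ^ 2 else 0 := by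
        refine Finset.sum_le_sum fun x hx => ?_
        obtain ⟨q, hq, hq'⟩ := hG3 x (mem_closedBall_zero_iff.2 (hF.mem x hx).1)
        refine le_trans ?_ (Finset.single_le_sum (f := fun c =>
          if ‖x - c‖ ≤ 1 / 2 then r ^ (n - 2) * μ x ^ 2 else 0) (fun c _ => by positivity) hq)
        simp only [if_pos hq', le_refl]
    _ = ∑ c ∈ G, ∑ x ∈ F.filter (fun x => ‖x - c‖ ≤ 1 / 2), r ^ (n - 2) * μ x ^ 2 := by
        rw [Finset.sum_comm]
        simp only [Finset.sum_filter]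
    _ ≤ ∑ _c ∈ G, C * (7 * N) ^ 2 := Finset.sum_le_sum fun c hc =>
        Resc.piece hP hN hr h1 h2 hF (mem_closedBall_zero_iff.1 (hG1 c hc))
    _ ≤ _ := by
        rw [Finset.sum_const, nsmul_eq_mul]
        nlinarith [mul_nonneg hC (sq_nonneg N)]

end

end Pool.Agent.LinN2
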