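import Pool.Agent.Lib.MP_8465a2_an.N2.BasicB

/-!
Upper bound for the side mass of the local model (MP_8465a2_an).
-/

namespace Pool.Agent.LinN2

open MeasureTheory Metric Set Filter Topology Complex
open scoped ENNReal ComplexConjugate

noncomputable section

namespace Side

/-- logarithmic chart of the side region -/
def ch (L : ℝ) (y : E2) : E2 := (Complex.exp (L + y.1), (Real.exp (-L) : ℂ) * y.2)

lemma contDiff_ch (L : ℝ) : ContDiff ℂ 2 (ch L) := by unfold ch; fun_prop

lemma norm_ch1 (L : ℝ) (y : E2) : ‖(ch L y).1‖ = Real.exp (L + y.1.re) := by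
  simp [ch, Complex.norm_exp]

lemma norm_ch2 (L : ℝ) (y : E2) : ‖(ch L y).2‖ = Real.exp (-L) * ‖y.2‖ := by
  simp only [ch, norm_mul, Complex.norm_real, Real.norm_eq_abs, abs_of_pos (Real.exp_pos _)]

lemma hasFDerivAt_ch (L : ℝ) (y : E2) : HasFDerivAt (ch L)
    ((Complex.exp (L + y.1) • ContinuousLinearMap.fst ℂ ℂ ℂ).prod
      ((Real.exp (-L) : ℂ) • ContinuousLinearMap.snd ℂ ℂ ℂ)) y := by
  refine HasFDerivAt.prodMk ?_ ?_
  · exact ((hasFDerivAt_fst (𝕜 := ℂ) (p := y)).const_add (L : ℂ)).cexp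
  · exact (hasFDerivAt_snd (𝕜 := ℂ) (p := y)).const_mul _

lemma fderiv_comp_ch {a : E2 → ℂ} (ha : ContDiff ℂ 2 a) (L : ℝ) (y : E2) :
    fderiv ℂ (fun y => a (ch L y)) y (1, 0) = (ch L y).1 * fderiv ℂ a (ch L y) (1, 0) ∧
    fderiv ℂ (fun y => a (ch L y)) y (0, 1) =
      (Real.exp (-L) : ℂ) * fderiv ℂ a (ch L y) (0, 1) := by
  have h := ((ha.differentiable two_ne_zero (ch L y)).hasFDerivAt.comp y
    (hasFDerivAt_ch L y)).fderiv
  have h' : fderiv ℂ (fun y => a (ch L y)) y = _ := h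
  rw [h']
  constructor
  · rw [ContinuousLinearMap.comp_apply, fderiv_pair]; simp [ch]
  · rw [ContinuousLinearMap.comp_apply, fderiv_pair]; simp [ch]

lemma measurableSet_Kside (L : ℝ) : MeasurableSet (Kside L) := by
  refine IsClosed.measurableSet ?_
  exact (isClosed_le continuous_const continuous_fst.norm).inter
    ((isClosed_le continuous_fst.norm continuous_const).inter
      (isClosed_le continuous_snd.norm continuous_const))

lemma bounded_Kside (L : ℝ) : Bornology.IsBounded (Kside L) := by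
  refine (isBounded_closedBall (x := (0 : E2))
    (r := Real.exp (L + 4) + 2 * Real.exp (-L))).subset fun u hu => ?_
  rw [mem_closedBall_zero_iff, Prod.norm_def]
  have := Real.exp_pos (L + 4)
  have := Real.exp_pos (-L)
  exact max_le (by linarith [hu.2.1]) (by linarith [hu.2.2])

lemma change (h2 : PolarStmt) (L : ℝ) {G : E2 → ℝ} (hG : Continuous G) (h0 : ∀ u, 0 ≤ G u) :
    ∫ u in Kside L, G u ≤ Real.exp 8 * ∫ y in closedBall (0 : E2) 6, G (ch L y) := by
  set S : Set ℂ := {α : ℂ | α.im ∈ Ioc (-Real.pi) Real.pi} with hS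
  have hSm : MeasurableSet S := measurableSet_Ioc.preimage Complex.measurable_im
  set H : E2 → ℝ := (Kside L).indicator G with hH
  have hH0 : ∀ u, 0 ≤ H u := fun u => indicator_nonneg (fun u _ => h0 u) u
  have hHi : Integrable H (volume.prod volume) :=
    (integrable_indicator_iff (measurableSet_Kside L)).2 (intOn hG (bounded_Kside L))
  set Q : E2 → ℝ := (closedBall (0 : E2) 6).indicator fun y => Real.exp 8 * G (ch L y) with hQ
  have hGc : Continuous fun y => Real.exp 8 * G (ch L y) :=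
    continuous_const.mul (hG.comp (contDiff_ch L).continuous)
  have hQi : Integrable Q (volume.prod volume) :=
    (integrable_indicator_iff measurableSet_closedBall).2 (intOn hGc isBounded_closedBall)
  set P : ℂ → ℂ → ℝ := fun α ω =>
    S.indicator (fun α => Real.exp α.re ^ 2 * H (ch L (α, ω))) α with hP
  have e1 : ∀ ω : ℂ, ∫ z, H (z, Real.exp (-L) • ω) = Real.exp L ^ 2 * ∫ α, P α ω := by
    intro ω
    rw [h2.1, ← integral_indicator hSm, ← integral_add_left_eq_self _ (L : ℂ),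
      ← integral_const_mul]
    refine integral_congr_ae (ae_of_all _ fun α => ?_)
    by_cases hα : α ∈ S
    · have h1 : (L : ℂ) + α ∈ S := by simpa [hS] using hα
      simp only [hP, indicator_of_mem hα, indicator_of_mem h1, add_re, ofReal_re, Real.exp_add,
        ch, real_smul]
      ring
    · have h1 : (L : ℂ) + α ∉ S := by simpa [hS] using hα
      simp only [hP, indicator_of_notMem hα, indicator_of_notMem h1, mul_zero]
  have e2 : ∫ u in Kside L, G u = ∫ ω, ∫ α, P α ω := by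
    rw [← integral_indicator (measurableSet_Kside L)]
    have := integral_prod_symm H hHi
    refine this.trans ?_
    have h3 := Measure.integral_comp_smul (volume : Measure ℂ) (fun w => ∫ z, H (z, w))
      (Real.exp (-L))
    simp only [e1, integral_const_mul, Complex.finrank_real_complex, smul_eq_mul] at h3
    have h4 : |(Real.exp (-L) ^ 2)⁻¹| = Real.exp L ^ 2 := by
      rw [abs_of_pos (by positivity), Real.exp_neg, inv_pow, inv_inv]
    rw [h4] at h3
    exact (mul_left_cancel₀ (by positivity) h3).symm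
  have e3 : Real.exp 8 * ∫ y in closedBall (0 : E2) 6, G (ch L y) = ∫ ω, ∫ α, Q (α, ω) := by
    rw [← integral_const_mul, ← integral_indicator measurableSet_closedBall]
    exact integral_prod_symm Q hQi
  have hP0 : ∀ α ω, 0 ≤ P α ω := fun α ω =>
    indicator_nonneg (fun α _ => mul_nonneg (sq_nonneg _) (hH0 _)) α
  have hPQ : ∀ α ω, P α ω ≤ Q (α, ω) := by
    intro α ω
    have hq : 0 ≤ Q (α, ω) :=
      indicator_nonneg (fun y _ => mul_nonneg (Real.exp_pos _).le (h0 _)) _
    by_cases hα : α ∈ S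
    swap
    · simpa only [hP, indicator_of_notMem hα] using hq
    by_cases hk : ch L (α, ω) ∈ Kside L
    swap
    · simpa only [hP, indicator_of_mem hα, hH, indicator_of_notMem hk, mul_zero] using hq
    obtain ⟨k1, k2, k3⟩ := id hk
    rw [norm_ch1, Real.exp_le_exp] at k1 k2
    rw [norm_ch2] at k3
    have k4 : ‖ω‖ ≤ 2 := by
      have := Real.exp_pos (-L)
      nlinarith
    have hpi := Real.pi_lt_d2
    have hb : (α, ω) ∈ closedBall (0 : E2) 6 := by
      rw [mem_closedBall_zero_iff, Prod.norm_def]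
      refine max_le ?_ (by linarith)
      refine le_of_sq_le_sq ?_ (by norm_num) |> fun h => h
      rw [Complex.sq_norm, normSq_apply]
      have a1 := hα.1
      have a2 := hα.2
      simp only at k1 k2 ⊢
      nlinarith [Real.pi_pos]
    simp only [hP, indicator_of_mem hα, hH, indicator_of_mem hk, hQ, indicator_of_mem hb]
    refine mul_le_mul_of_nonneg_right ?_ (h0 _)
    rw [← Real.exp_nat_mul, Real.exp_le_exp]
    simp only at k2
    push_cast
    linarith
  rw [e2, e3]
  refine integral_mono_of_nonneg (ae_of_all _ fun ω => integral_nonneg fun α => hP0 α ω)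
    hQi.integral_prod_right ?_
  filter_upwards [hQi.prod_left_ae] with ω hω
  exact integral_mono_of_nonneg (ae_of_all _ fun α => hP0 α ω) hω (ae_of_all _ fun α => hPQ α ω)

lemma MK_le (h2 : PolarStmt) {a : E2 → ℂ} (ha : ContDiff ℂ 2 a) {η : ℝ} (hη : 0 < η) (L : ℝ) :
    MK a η L ≤ Real.exp 8 * ∫ y in closedBall (0 : E2) 6, wt η (a (ch L y)) *
      (‖fderiv ℂ (fun y => a (ch L y)) y (1, 0)‖ ^ 2 +
        ‖fderiv ℂ (fun y => a (ch L y)) y (0, 1)‖ ^ 2) := by
  have hc := ha.continuous_fderiv two_ne_zero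
  have h := change h2 L (G := fun u => wt η (a u) *
    (‖u.1 * fderiv ℂ a u (1, 0)‖ ^ 2 + (Real.exp (-L) * ‖fderiv ℂ a u (0, 1)‖) ^ 2))
    (((continuous_wt hη).comp ha.continuous).mul (by fun_prop))
    (fun u => mul_nonneg (wt_nonneg _ _) (by positivity))
  refine h.trans (le_of_eq ?_)
  congr 2
  ext y
  rw [(fderiv_comp_ch ha L y).1, (fderiv_comp_ch ha L y).2, norm_mul (Real.exp (-L) : ℂ),
    Complex.norm_real, Real.norm_eq_abs, abs_of_pos (Real.exp_pos _)]

/-- the growing family of domains -/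
def St (t : ℝ) : Set E2 := {y | |y.1.re| ≤ t ∧ ‖y.2‖ ≤ Real.exp t}

/-- the supremum on these domains -/
def Mt (F : E2 → ℂ) (t : ℝ) : ℝ := sSup ((fun y => ‖F y‖) '' St t)

lemma St_mono {s t : ℝ} (h : s ≤ t) : St s ⊆ St t := fun _ hy =>
  ⟨hy.1.trans h, hy.2.trans (Real.exp_le_exp.2 h)⟩

lemma St_ne {t : ℝ} (h : 0 ≤ t) : (St t).Nonempty :=
  ⟨0, by simpa [St] using ⟨h, (Real.exp_pos _).le⟩⟩

section Three

variable {F : E2 → ℂ} {T C : ℝ}

lemma le_Mt (hb : ∀ y ∈ St T, ‖F y‖ ≤ C) {t : ℝ} (ht : t ≤ T) {y : E2} (hy : y ∈ St t) :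
    ‖F y‖ ≤ Mt F t :=
  le_csSup ⟨C, by rintro _ ⟨y, hy, rfl⟩; exact hb y (St_mono ht hy)⟩ ⟨y, hy, rfl⟩

lemma Mt_le {t D : ℝ} (ht : 0 ≤ t) (h : ∀ y ∈ St t, ‖F y‖ ≤ D) : Mt F t ≤ D :=
  csSup_le ((St_ne ht).image _) (by rintro _ ⟨y, hy, rfl⟩; exact h y hy)

lemma Mt_mono (hb : ∀ y ∈ St T, ‖F y‖ ≤ C) {s t : ℝ} (hs : 0 ≤ s) (hst : s ≤ t) (ht : t ≤ T) :
    Mt F s ≤ Mt F t :=
  Mt_le hs fun _ hy => le_Mt hb ht (St_mono hst hy)

lemma Mt_nonneg (hb : ∀ y ∈ St T, ‖F y‖ ≤ C) {t : ℝ} (h0 : 0 ≤ t) (ht : t ≤ T) : 0 ≤ Mt F t := by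
  obtain ⟨y, hy⟩ := St_ne h0
  exact (norm_nonneg _).trans (le_Mt hb ht hy)

lemma three (hF : Differentiable ℂ F) (hb : ∀ y ∈ St T, ‖F y‖ ≤ C) {a s b : ℝ} (ha : 0 < a)
    (hab : a < b) (h1 : a ≤ s) (h2 : s ≤ b) (hT : b ≤ T) :
    Mt F s ≤ Mt F a ^ (1 - (s - a) / (b - a)) * Mt F b ^ ((s - a) / (b - a)) := by
  have hs : 0 < s := ha.trans_le h1
  refine Mt_le hs.le fun y hy => ?_
  set γ : ℂ → E2 := fun ζ =>
    ((y.1.im : ℂ) * I + ζ * ((y.1.re / s : ℝ) : ℂ), y.2 * Complex.exp (ζ - s)) with hγ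
  have key : ∀ ζ : ℂ, 0 ≤ ζ.re → γ ζ ∈ St ζ.re := by
    intro ζ hζ
    constructor
    · have : (γ ζ).1.re = ζ.re * (y.1.re / s) := by
        simp only [hγ, add_re, mul_re, ofReal_re, ofReal_im, I_re, I_im]; ring
      rw [this, abs_mul, abs_of_nonneg hζ, abs_div, abs_of_pos hs]
      exact mul_le_of_le_one_right hζ ((div_le_one hs).2 hy.1)
    · simp only [hγ, norm_mul, Complex.norm_exp]
      calc _ ≤ Real.exp s * Real.exp (ζ - s).re := by gcongr; exact hy.2
        _ = _ := by rw [← Real.exp_add]; simp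
  have hd : Differentiable ℂ fun ζ => F (γ ζ) := hF.comp (by simp only [hγ]; fun_prop)
  have := HadamardThreeLines.norm_le_interp_of_mem_verticalClosedStrip' (z := (s : ℂ))
    (f := fun ζ => F (γ ζ)) (a := Mt F a) (b := Mt F b) hab
    ⟨by simpa using h1, by simpa using h2⟩ hd.diffContOnCl
    ⟨C, by
      rintro _ ⟨z, hz, rfl⟩
      exact hb _ (St_mono (hz.2.trans hT) (key z (ha.le.trans hz.1)))⟩
    (fun z hz => by
      have hz' : z.re = a := hz
      exact le_Mt hb (hab.le.trans hT) (hz' ▸ key z (hz' ▸ ha.le)))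
    (fun z hz => by
      have hz' : z.re = b := hz
      exact le_Mt hb hT (hz' ▸ key z (hz' ▸ (ha.trans hab).le)))
  have e : γ s = y := by
    have hs' : (s : ℂ) ≠ 0 := by exact_mod_cast hs.ne'
    refine Prod.ext ?_ (by simp [hγ])
    simp only [hγ]
    push_cast
    rw [mul_div_cancel₀ _ hs', add_comm, re_add_im]
  simpa [e] using this

lemma three_log (hF : Differentiable ℂ F) (hb : ∀ y ∈ St T, ‖F y‖ ≤ C) {a s b : ℝ} (ha : 0 < a)
    (hab : a < b) (h1 : a ≤ s) (h2 : s ≤ b) (hT : b ≤ T) (hp : 0 < Mt F a) :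
    Real.log (Mt F s) ≤ Real.log (Mt F a) +
      (s - a) / (b - a) * (Real.log (Mt F b) - Real.log (Mt F a)) := by
  have p1 : 0 < Mt F s := hp.trans_le (Mt_mono hb ha.le h1 (h2.trans hT))
  have p2 : 0 < Mt F b := hp.trans_le (Mt_mono hb ha.le hab.le hT)
  have h := Real.log_le_log p1 (three hF hb ha hab h1 h2 hT)
  rw [Real.log_mul (by positivity) (by positivity), Real.log_rpow hp, Real.log_rpow p2] at h
  linarith

/-- pinching: small oscillation on a long range gives tiny oscillation on a short range -/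
lemma pinch (hF : Differentiable ℂ F) {X D s : ℝ} (hb : ∀ y ∈ St T, ‖F y‖ ≤ Real.exp X)
    (hs : 24 ≤ s) (hT : 2 * s ≤ T) {y0 : E2} (hy0 : y0 ∈ St s) (hD : Real.exp (-D) ≤ ‖F y0‖) :
    0 < Mt F 1 ∧ -D - 2 * (X + D) ≤ Real.log (Mt F 1) ∧
      Real.log (Mt F 24) - Real.log (Mt F 1) ≤ 46 * (X + D) / (T - 1) := by
  have hT1 : 0 < T - 1 := by linarith
  have hθ : (s - 1) / (T - 1) ≤ 1 / 2 := by rw [div_le_iff₀ hT1]; linarith
  have hθ0 : 0 ≤ (s - 1) / (T - 1) := div_nonneg (by linarith) hT1.le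
  have l2 : Real.exp (-D) ≤ Mt F s := hD.trans (le_Mt hb (by linarith) hy0)
  have p1 : 0 < Mt F 1 := by
    rcases (Mt_nonneg hb zero_le_one (by linarith)).eq_or_lt with h | h
    · have := three hF hb one_pos (by linarith : 1 < T) (by linarith : 1 ≤ s) (by linarith) le_rfl
      rw [← h, Real.zero_rpow (by linarith), zero_mul] at this
      linarith [Real.exp_pos (-D)]
    · exact h
  have m1 : Mt F 1 ≤ Mt F s := Mt_mono hb zero_le_one (by linarith) (by linarith)
  have m2 : Mt F s ≤ Mt F T := Mt_mono hb (by linarith) (by linarith) le_rfl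
  have a1 : Real.log (Mt F 1) ≤ Real.log (Mt F s) := Real.log_le_log p1 m1
  have a2 : Real.log (Mt F s) ≤ Real.log (Mt F T) := Real.log_le_log (by linarith) m2
  have a3 : Real.log (Mt F T) ≤ X :=
    (Real.log_le_iff_le_exp (by linarith)).2 (Mt_le (by linarith) hb)
  have a4 : -D ≤ Real.log (Mt F s) := (Real.le_log_iff_exp_le (by linarith)).2 l2
  have t1 := three_log hF hb one_pos (by linarith : 1 < T) (by linarith : 1 ≤ s) (by linarith)
    le_rfl p1
  have t2 := three_log hF hb one_pos (by linarith : 1 < T) (by norm_num : (1 : ℝ) ≤ 24)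
    (by linarith) le_rfl p1
  have a5 : Real.log (Mt F T) - Real.log (Mt F 1) ≤ 2 * (X + D) := by
    nlinarith [mul_le_mul_of_nonneg_right hθ
      (by linarith : 0 ≤ Real.log (Mt F T) - Real.log (Mt F 1))]
  refine ⟨p1, by linarith, ?_⟩
  have a6 : (24 - 1) / (T - 1) * (Real.log (Mt F T) - Real.log (Mt F 1)) ≤
      (24 - 1) / (T - 1) * (2 * (X + D)) := by gcongr
  have a7 : (24 - 1) / (T - 1) * (2 * (X + D)) = 46 * (X + D) / (T - 1) := by ring
  linarith

end Three

lemma U1_le (f : E2 → ℂ) {η : ℝ} (hη : 0 < η) (y : E2) : U1 f η y ≤ Real.log (‖f y‖ + η) := by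
  unfold U1
  have h : Real.log (‖f y‖ ^ 2 + η ^ 2) ≤ Real.log ((‖f y‖ + η) ^ 2) :=
    Real.log_le_log (by positivity) (by nlinarith [mul_nonneg (norm_nonneg (f y)) hη.le])
  rw [Real.log_pow] at h
  push_cast at h
  linarith

lemma le_U1 (f : E2 → ℂ) (η : ℝ) (y : E2) {m : ℝ} (hm : 0 < m) (h : m ≤ ‖f y‖) :
    Real.log m ≤ U1 f η y := by
  unfold U1
  have h : Real.log (m ^ 2) ≤ Real.log (‖f y‖ ^ 2 + η ^ 2) :=
    Real.log_le_log (by positivity) (by nlinarith [sq_nonneg η])
  rw [Real.log_pow] at h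
  push_cast at h
  linarith

lemma exp_four : (24 : ℝ) ≤ Real.exp 4 := by
  have h := Real.exp_one_gt_d9
  have : Real.exp 4 = Real.exp 1 ^ 4 := by rw [← Real.exp_nat_mul]; norm_num
  rw [this]
  calc (24 : ℝ) ≤ 2.7 ^ 4 := by norm_num
    _ ≤ _ := by gcongr; linarith

lemma core {A : E2 → ℂ} {C2 S0 μ X X' B L c η T : ℝ} {z1 : ℂ} (hC : 1 ≤ C2)
    (hA : Wav A S0 μ X B) (hS : 0 < S0) (hμ : 1 / 2 ≤ μ) (hX : 0 ≤ X) (hX' : 0 ≤ X')
    (hL : 112 + 12 * Real.log C2 ≤ L) (hB : 5 * L ≤ B) (hXL : X + X' ≤ μ * L / 4)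
    (hz : ‖z1‖ ≤ C2) (hl : S0 * Real.exp (-X') ≤ ‖sym A (z1, conj z1)‖) (hc : |c| ≤ T)
    (hη : 0 < η) (hηT : η ≤ T) (hT : T ≤ S0 * Real.exp (-(2 * μ * L))) :
    ∃ (y1 : E2) (M : ℝ), ‖y1‖ ≤ 6 ∧
      (∀ y : E2, ‖y‖ ≤ 24 → U1 (fun y => sym A (ch L y) - c) η y - μ * y.1.re ≤ M) ∧
      M - (U1 (fun y => sym A (ch L y) - c) η y1 - μ * y1.1.re) ≤
        92 * (2 + Real.log C2) * ((X + X' + μ) / B) + 120 * Real.exp (-(L / 2)) := by
  have hlC : 0 ≤ Real.log C2 := Real.log_nonneg hC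
  have hμ0 : 0 ≤ μ := by linarith
  have hL0 : 112 ≤ L := by linarith
  have hCL : C2 ≤ Real.exp L := (Real.log_le_iff_le_exp (by linarith)).1 (by linarith)
  set F : E2 → ℂ := fun y => A (ch L y) * Complex.exp (-(μ * (L + y.1))) / S0 with hF
  have hFd : Differentiable ℂ F := by
    have := (hA.sm.comp (contDiff_ch L)).differentiable two_ne_zero
    have h2 : Differentiable ℂ fun y : E2 => Complex.exp (-(μ * (L + y.1))) := by fun_prop
    have h3 : Differentiable ℂ fun y : E2 => A (ch L y) * Complex.exp (-(μ * (L + y.1))) :=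
      this.mul h2
    simpa only [hF, div_eq_mul_inv] using h3.mul_const (S0 : ℂ)⁻¹
  have hFn : ∀ y, ‖A (ch L y)‖ = S0 * Real.exp (μ * (L + y.1.re)) * ‖F y‖ := by
    intro y
    simp only [hF, norm_div, norm_mul, Complex.norm_exp, Complex.norm_real, Real.norm_eq_abs,
      abs_of_pos hS, neg_re, mul_re, ofReal_re, ofReal_im, add_re, zero_mul, sub_zero,
      Real.exp_neg]
    field_simp
  have hb : ∀ y ∈ St (B - L), ‖F y‖ ≤ Real.exp X := by
    intro y hy
    have a1 := abs_le.1 hy.1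
    have h1 := hA.bd (ch L y) (by
      rw [Prod.norm_def, norm_ch1, norm_ch2]
      refine max_le (Real.exp_le_exp.2 (by linarith)) ?_
      calc _ ≤ Real.exp (-L) * Real.exp (B - L) := by gcongr; exact hy.2
        _ ≤ _ := by rw [← Real.exp_add]; exact Real.exp_le_exp.2 (by linarith))
    rw [norm_ch1, max_eq_left (Real.exp_le_exp.2 (by linarith)), ← Real.exp_mul, hFn,
      mul_comm _ μ, mul_right_comm S0 (Real.exp X)] at h1
    exact le_of_mul_le_mul_left h1 (by positivity)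
  -- the lower bound at the real point
  have hl2 : S0 * Real.exp (-X') ≤ 2 * ‖A (z1, conj z1)‖ := by
    rw [sym_real, Complex.norm_real, Real.norm_eq_abs, abs_mul, abs_two] at hl
    linarith [abs_re_le_norm (A (z1, conj z1))]
  have hlog2 : Real.log 2 ≤ 1 := by linarith [Real.log_two_lt_d9]
  have hz1 : Real.exp (-L) ≤ ‖z1‖ := by
    by_contra hlt
    push Not at hlt
    have h1 := hA.bd (z1, conj z1) (by
      simp only [Prod.norm_def, norm_conj, max_self]
      exact hz.trans (hCL.trans (Real.exp_le_exp.2 (by linarith))))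
    have h2 : (max ‖z1‖ (Real.exp (-B))) ^ μ ≤ Real.exp (-L) ^ μ := by
      gcongr
      exact max_le hlt.le (Real.exp_le_exp.2 (by linarith))
    rw [← Real.exp_mul] at h2
    have h3 : S0 * Real.exp (-X') ≤ S0 * (Real.exp 1 * (Real.exp X * Real.exp (-L * μ))) := by
      have h4 : ‖A (z1, conj z1)‖ ≤ S0 * Real.exp X * Real.exp (-L * μ) :=
        h1.trans (by gcongr)
      have h5 : (2 : ℝ) ≤ Real.exp 1 := by linarith [Real.exp_one_gt_d9]
      have h6 : 0 ≤ S0 * Real.exp X * Real.exp (-L * μ) := by positivity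
      nlinarith
    have h7 := le_of_mul_le_mul_left h3 hS
    rw [← Real.exp_add, ← Real.exp_add, Real.exp_le_exp] at h7
    nlinarith
  have hz0 : z1 ≠ 0 := norm_pos_iff.1 ((Real.exp_pos _).trans_le hz1)
  set D : ℝ := X' + Real.log 2 + μ * Real.log C2 with hD
  set y0 : E2 := (Complex.log z1 - L, (Real.exp L : ℂ) * conj z1) with hy0
  have hch : ch L y0 = (z1, conj z1) := by
    refine Prod.ext ?_ ?_
    · simp [ch, hy0, Complex.exp_log hz0]
    · simp only [ch, hy0]
      rw [← mul_assoc, ← ofReal_mul, ← Real.exp_add]; simp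
  have hre : y0.1.re = Real.log ‖z1‖ - L := by simp [hy0, Complex.log_re]
  have lz1 : -L ≤ Real.log ‖z1‖ := (Real.le_log_iff_exp_le (norm_pos_iff.2 hz0)).2 hz1
  have lz2 : Real.log ‖z1‖ ≤ Real.log C2 := Real.log_le_log (norm_pos_iff.2 hz0) hz
  have hy0s : y0 ∈ St (2 * L) := by
    refine ⟨by rw [hre, abs_le]; constructor <;> linarith, ?_⟩
    simp only [hy0, norm_mul, Complex.norm_real, Real.norm_eq_abs, abs_of_pos (Real.exp_pos _),
      norm_conj]
    rw [two_mul, Real.exp_add]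
    gcongr
    exact hz.trans hCL
  have hy0D : Real.exp (-D) ≤ ‖F y0‖ := by
    have h1 := hFn y0
    rw [hch, hre] at h1
    have h2 : Real.exp (μ * (L + (Real.log ‖z1‖ - L))) ≤ Real.exp (μ * Real.log C2) :=
      Real.exp_le_exp.2 (by gcongr; linarith)
    have h3 : S0 * Real.exp (-X') ≤ S0 * (2 * Real.exp (μ * Real.log C2) * ‖F y0‖) := by
      have : ‖A (z1, conj z1)‖ ≤ S0 * Real.exp (μ * Real.log C2) * ‖F y0‖ := by
        rw [h1]; gcongr
      linarith
    have h4 := le_of_mul_le_mul_left h3 hS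
    have h5 : Real.exp (-X') = 2 * Real.exp (μ * Real.log C2) * Real.exp (-D) := by
      rw [show (2 : ℝ) = Real.exp (Real.log 2) from (Real.exp_log two_pos).symm, ← Real.exp_add,
        ← Real.exp_add]
      congr 1; rw [hD]; ring
    rw [h5] at h4
    exact le_of_mul_le_mul_left h4 (by positivity)
  obtain ⟨p1, p2, p3⟩ := pinch hFd hb (s := 2 * L) (by linarith) (by linarith) hy0s hy0D
  set m1 := Mt F 1 with hm1
  set m2 := Mt F 24 with hm2
  have m12 : m1 ≤ m2 := Mt_mono hb zero_le_one (by norm_num) (by linarith)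
  set ρ : ℝ := 24 * Real.exp (-(L / 2)) with hρ
  have hρ0 : 0 < ρ := by positivity
  have hρ1 : ρ ≤ 1 / 4 := by
    have h1 : Real.exp (-(L / 2)) ≤ Real.exp (-4) * Real.exp (-4) := by
      rw [← Real.exp_add]; exact Real.exp_le_exp.2 (by linarith)
    have h2 : Real.exp (-4) ≤ 1 / 24 := by
      rw [Real.exp_neg, one_div]; exact inv_anti₀ (by norm_num) exp_four
    have h3 := Real.exp_pos (-4)
    nlinarith
  set E0 : ℝ := Real.exp (X - μ * (2 * L - 28)) with hE0
  have hE0p : 0 < E0 := Real.exp_pos _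
  have hE : 3 * E0 ≤ ρ * m1 := by
    have h1 : Real.exp (-D - 2 * (X + D)) ≤ m1 := (Real.le_log_iff_exp_le p1).1 p2
    have h2 : E0 ≤ 8 * Real.exp (-(L / 2)) * Real.exp (-D - 2 * (X + D)) := by
      rw [show (8 : ℝ) = Real.exp (3 * Real.log 2) by
        rw [show (3 : ℝ) = (3 : ℕ) by norm_num, Real.exp_nat_mul, Real.exp_log two_pos]; norm_num,
        ← Real.exp_add, ← Real.exp_add, hE0, Real.exp_le_exp, hD]
      nlinarith [mul_le_mul_of_nonneg_left hL hμ0, mul_le_mul_of_nonneg_right hμ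
        (by linarith : 0 ≤ L)]
    have h3 : 8 * Real.exp (-(L / 2)) * Real.exp (-D - 2 * (X + D)) ≤
        8 * Real.exp (-(L / 2)) * m1 := by gcongr
    rw [hρ]; linarith
  -- the remaining terms are small
  have small : ∀ y : E2, ‖y‖ ≤ 24 →
      ‖sym A (ch L y) - c - A (ch L y)‖ + η ≤ S0 * Real.exp (μ * (L + y.1.re)) * (3 * E0) := by
    intro y hy
    have a1 : |y.1.re| ≤ 24 := (abs_re_le_norm _).trans ((norm_fst_le y).trans hy)
    have a2 : ‖y.2‖ ≤ Real.exp 4 := ((norm_snd_le y).trans hy).trans exp_four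
    have a3 := abs_le.1 a1
    have a4 : ‖(ch L y).2‖ ≤ Real.exp (4 - L) := by
      rw [norm_ch2, sub_eq_neg_add, Real.exp_add]; gcongr
    have h1 := hA.bd (conj (ch L y).2, conj (ch L y).1) (by
      simp only [Prod.norm_def, norm_conj]
      refine max_le (a4.trans (Real.exp_le_exp.2 (by linarith))) ?_
      rw [norm_ch1]; exact Real.exp_le_exp.2 (by linarith))
    have h2 : (max ‖conj (ch L y).2‖ (Real.exp (-B))) ^ μ ≤ Real.exp (4 - L) ^ μ := by
      gcongr
      exact max_le (by rwa [norm_conj]) (Real.exp_le_exp.2 (by linarith))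
    rw [← Real.exp_mul] at h2
    have h3 : ‖A (conj (ch L y).2, conj (ch L y).1)‖ ≤
        S0 * Real.exp (μ * (L + y.1.re)) * E0 := by
      refine h1.trans ((mul_le_mul_of_nonneg_left h2 (by positivity)).trans ?_)
      rw [hE0, mul_assoc S0, mul_assoc S0, ← Real.exp_add, ← Real.exp_add]
      refine mul_le_mul_of_nonneg_left (Real.exp_le_exp.2 ?_) hS.le
      linarith [mul_le_mul_of_nonneg_left a3.1 hμ0]
    have h4 : T ≤ S0 * Real.exp (μ * (L + y.1.re)) * E0 := by
      refine hT.trans ?_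
      rw [hE0, mul_assoc S0, ← Real.exp_add]
      refine mul_le_mul_of_nonneg_left (Real.exp_le_exp.2 ?_) hS.le
      linarith [mul_le_mul_of_nonneg_left a3.1 hμ0, mul_nonneg hμ0 (by linarith : 0 ≤ L)]
    have h5 : ‖sym A (ch L y) - c - A (ch L y)‖ ≤
        ‖A (conj (ch L y).2, conj (ch L y).1)‖ + |c| := by
      rw [show sym A (ch L y) - c - A (ch L y) =
        conj (A (conj (ch L y).2, conj (ch L y).1)) - c by simp only [sym]; ring]
      refine (norm_sub_le _ _).trans ?_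
      rw [norm_conj, Complex.norm_real, Real.norm_eq_abs]
    linarith
  -- a point where the supremum is nearly attained
  obtain ⟨_, ⟨y, hy, rfl⟩, hy'⟩ := exists_lt_of_lt_csSup
    ((St_ne zero_le_one).image fun y => ‖F y‖) (show m1 - 3 * E0 < m1 by linarith)
  set y1 : E2 := (Complex.log (Complex.exp y.1), y.2) with hy1
  have hre1 : y1.1.re = y.1.re := by
    simp only [hy1, Complex.log_re, Complex.norm_exp, Real.log_exp]
  have hch1 : ch L y1 = ch L y := by
    simp only [ch, hy1, Complex.exp_add, Complex.exp_log (Complex.exp_ne_zero _)]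
  have hn1 : ‖y1‖ ≤ 6 := by
    rw [Prod.norm_def]
    refine max_le ?_ (hy.2.trans (by linarith [Real.exp_one_lt_d9]))
    refine (norm_le_abs_re_add_abs_im _).trans ?_
    have b1 : |y1.1.im| ≤ Real.pi := by
      simp only [hy1, Complex.log_im]; exact abs_arg_le_pi _
    rw [hre1]
    linarith [hy.1, Real.pi_lt_d2]
  refine ⟨y1, Real.log S0 + μ * L + Real.log (m2 + 3 * E0), hn1, fun y hy => ?_, ?_⟩
  · have a1 : |y.1.re| ≤ 24 := (abs_re_le_norm _).trans ((norm_fst_le y).trans hy)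
    have a2 : ‖F y‖ ≤ m2 := le_Mt hb (by linarith) ⟨a1, ((norm_snd_le y).trans hy).trans
      (exp_four.trans (Real.exp_le_exp.2 (by norm_num)))⟩
    have a3 : ‖sym A (ch L y) - c‖ + η ≤ S0 * Real.exp (μ * (L + y.1.re)) * (m2 + 3 * E0) := by
      have b1 := norm_le_norm_add_norm_sub' (sym A (ch L y) - c) (A (ch L y))
      have b2 : ‖A (ch L y)‖ ≤ S0 * Real.exp (μ * (L + y.1.re)) * m2 := by rw [hFn]; gcongr
      linarith [small y hy]
    have a4 := (U1_le (fun y => sym A (ch L y) - c) hη y).trans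
      (Real.log_le_log (by positivity) a3)
    rw [Real.log_mul (by positivity) (by linarith), Real.log_mul hS.ne' (by positivity),
      Real.log_exp] at a4
    linarith
  · have q1 : 0 < m1 * (1 - 2 * ρ) := mul_pos p1 (by linarith)
    have a3 : S0 * Real.exp (μ * (L + y1.1.re)) * (m1 * (1 - 2 * ρ)) ≤
        ‖sym A (ch L y1) - c‖ := by
      have b1 := norm_le_norm_add_norm_sub' (A (ch L y1)) (sym A (ch L y1) - c)
      rw [norm_sub_rev (A (ch L y1))] at b1
      have b2 := small y1 (by linarith)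
      have b3 : S0 * Real.exp (μ * (L + y1.1.re)) * (m1 * (1 - 2 * ρ) + 3 * E0) ≤
          ‖A (ch L y1)‖ := by
        rw [hch1, hFn, hre1]
        gcongr
        simp only at hy'
        linarith
      linarith
    have a4 := le_U1 (fun y => sym A (ch L y) - c) η y1 (by positivity) a3
    rw [Real.log_mul (by positivity) q1.ne', Real.log_mul hS.ne' (by positivity),
      Real.log_exp, Real.log_mul p1.ne' (by linarith)] at a4
    have a5 : Real.log (m2 + 3 * E0) ≤ Real.log m2 + ρ := by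
      have b1 : m2 + 3 * E0 ≤ m2 * (1 + ρ) := by nlinarith
      have b2 := Real.log_le_log (by linarith) b1
      rw [Real.log_mul (by linarith) (by linarith)] at b2
      linarith [Real.log_le_sub_one_of_pos (by linarith : 0 < 1 + ρ)]
    have a6 : -(4 * ρ) ≤ Real.log (1 - 2 * ρ) := by
      refine le_trans ?_ (Real.one_sub_inv_le_log_of_pos (by linarith))
      have : (1 - 2 * ρ)⁻¹ ≤ 1 + 4 * ρ := by
        rw [inv_le_iff_one_le_mul₀ (by linarith)]; nlinarith
      linarith
    have a7 : 46 * (X + D) / (B - L - 1) ≤ 92 * (2 + Real.log C2) * ((X + X' + μ) / B) := by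
      have b1 : X + D ≤ (2 + Real.log C2) * (X + X' + μ) := by
        rw [hD]; nlinarith [mul_nonneg hlC hX, mul_nonneg hlC hX']
      have b2 : 0 ≤ X + D := by
        have := Real.log_nonneg (one_le_two (α := ℝ))
        rw [hD]; positivity
      calc 46 * (X + D) / (B - L - 1) ≤ 46 * (X + D) / (B / 2) := by
            gcongr
            · linarith
            · linarith
        _ = 92 * (X + D) / B := by field_simp; ring
        _ ≤ 92 * ((2 + Real.log C2) * (X + X' + μ)) / B := by gcongr; linarith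
        _ = _ := by ring
    rw [hρ] at a5 a6
    linarith

end Side

theorem side (h1 : AreaStmt) (h2 : PolarStmt) : SideStmt := by
  intro C2 hC
  obtain ⟨K0, hK0, hA⟩ := h1
  have hlC : 0 ≤ Real.log C2 := Real.log_nonneg hC
  set K1 : ℝ := Real.exp 8 * (K0 * 6 ^ 2) * (184 + 92 * Real.log C2) with hK1
  have hK1p : 0 ≤ K1 := by positivity
  have main : ∀ (A : E2 → ℂ) (S0 μ X X' B L c η T : ℝ) (z1 : ℂ),
      Wav A S0 μ X B → 0 < S0 → 1 / 2 ≤ μ → 0 ≤ X → 0 ≤ X' →
      112 + 12 * Real.log C2 + K1 ≤ L → 5 * L ≤ B →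
      X + X' ≤ μ * L / 4 → ‖z1‖ ≤ C2 → S0 * Real.exp (-X') ≤ ‖sym A (z1, conj z1)‖ → |c| ≤ T →
      0 < η → η ≤ T → T ≤ S0 * Real.exp (-(2 * μ * L)) →
      MK (fun u => sym A u - c) η L ≤
        (112 + 12 * Real.log C2 + K1) * ((X + X' + μ) / B + Real.exp (-(L / 2))) := by
    intro A S0 μ X X' B L c η T z1 hW hS hμ hX hX' hL hB hXL hz hl hc hη hηT hT
    obtain ⟨y1, M, a1, a2, a3⟩ :=
      Side.core hC hW hS hμ hX hX' (by linarith) hB hXL hz hl hc hη hηT hT
    have hl' : ∀ y : E2, (((μ : ℂ) • ContinuousLinearMap.fst ℂ ℂ ℂ) y).re = μ * y.1.re := by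
      intro y; simp
    have b1 := (hA (fun y => sym A (Side.ch L y) - c) η ((μ : ℂ) • ContinuousLinearMap.fst ℂ ℂ ℂ)
      0 y1 6 M ((hW.sub_sm c).comp (Side.contDiff_ch L)) hη (by norm_num) (by simpa using a1)
      (fun y hy => by rw [hl']; exact a2 y (by norm_num at hy; exact hy))).1
    rw [hl'] at b1
    have b2 := Side.MK_le h2 (hW.sub_sm c) hη L
    have hq : 0 ≤ (X + X' + μ) / B := div_nonneg (by linarith) (by linarith)
    have he := Real.exp_pos (-(L / 2))
    have b3 : M - (U1 (fun y => sym A (Side.ch L y) - c) η y1 - μ * y1.1.re) ≤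
        (184 + 92 * Real.log C2) * ((X + X' + μ) / B + Real.exp (-(L / 2))) := by
      nlinarith [mul_nonneg hlC he.le]
    calc _ ≤ _ := b2
      _ ≤ Real.exp 8 * (K0 * 6 ^ 2 * ((184 + 92 * Real.log C2) *
          ((X + X' + μ) / B + Real.exp (-(L / 2))))) := by
        gcongr
        exact b1.trans (by gcongr)
      _ = K1 * ((X + X' + μ) / B + Real.exp (-(L / 2))) := by rw [hK1]; ring
      _ ≤ _ := by gcongr; linarith
  refine ⟨112 + 12 * Real.log C2 + K1, by linarith, ?_⟩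
  intro A S0 μ X X' B L c η T z1 hW hS hμ hX hX' hL hB hXL hz hl hc hη hηT hT
  refine ⟨main A S0 μ X X' B L c η T z1 hW hS hμ hX hX' hL hB hXL hz hl hc hη hηT hT, ?_⟩
  simp only [sym_swap]
  refine main _ S0 μ X X' B L c η T (conj z1) hW.conj hS hμ hX hX' hL hB hXL (by simpa using hz)
    ?_ hc hη hηT hT
  rw [← sym_swap]
  simpa [Prod.swap] using hl

end

end Pool.Agent.LinN2
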