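import Pool.Agent.Lib.MP_8465a2_an.N2.BasicB

/-!
The order of growth propagates along the span (MP_8465a2_an).
-/

namespace Pool.Agent.LinN2

open MeasureTheory Metric Set Filter Topology Complex
open scoped ENNReal ComplexConjugate

theorem span (h : TWStmt) : SpanStmt := by
  intro k
  induction k with
  | zero =>
    refine ⟨1, 1, le_rfl, le_rfl, fun n g x0 v S0 r μ X B B' _ _ hS _ _ hB _ h0 _ s _ => ?_⟩
    simpa using h0.mono hS.le le_rfl (by simpa using hB)
  | succ k ih =>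
    obtain ⟨C, p, hC, hp, ih⟩ := ih
    have hk : (0 : ℝ) ≤ k := Nat.cast_nonneg k
    obtain ⟨d, hd⟩ : ∃ d : ℝ, d = 4 * k + 5 := ⟨_, rfl⟩
    have hd1 : 5 ≤ d := by linarith
    have hc : 1 ≤ 36 * d ^ 2 := by nlinarith
    have hcp : 1 ≤ C * (36 * d ^ 2) ^ p := one_le_mul_of_one_le_of_one_le hC (one_le_pow₀ hc)
    have hc2 : 1 ≤ 36 * (36 * d ^ 2) ^ 2 := by nlinarith
    refine ⟨C * (36 * d ^ 2) ^ p * (36 * (36 * d ^ 2) ^ 2), 2 * p + 4,
      one_le_mul_of_one_le_of_one_le hcp hc2, by omega,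
      fun n g x0 v S0 r μ X B B' hg hr hS hμ hB' hB hv h0 h1 s hs => ?_⟩
    have e : C * (36 * d ^ 2) ^ p * (36 * (36 * d ^ 2) ^ 2) * B' ^ (2 * p + 4) =
        C * (36 * (d * B') ^ 2) ^ p * (36 * (36 * (d * B') ^ 2) ^ 2) := by
      simp only [mul_pow, pow_add, pow_mul]; ring
    rw [e] at hB
    obtain ⟨B2, hB2⟩ : ∃ B2, B2 = d * B' := ⟨_, rfl⟩
    rw [← hB2] at hB
    have b1 : B' + 4 * (k + 1) ≤ B2 := by nlinarith
    have b2 : B2 ≤ 36 * B2 ^ 2 := by nlinarith
    obtain ⟨B3, hB3⟩ : ∃ B3, B3 = 36 * B2 ^ 2 := ⟨_, rfl⟩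
    rw [← hB3] at hB b2
    have b3 : 1 ≤ B3 := by linarith
    have b4 : 1 ≤ C * B3 ^ p := one_le_mul_of_one_le_of_one_le hC (one_le_pow₀ b3)
    have b5 : 1 ≤ 36 * B3 ^ 2 := by nlinarith
    have e0 := Real.one_le_exp (show 0 ≤ B' by linarith)
    have e1 : 4 * (k + 1) * Real.exp B' ≤ Real.exp B2 := by
      refine le_trans ?_ (Real.exp_le_exp.2 b1)
      rw [Real.exp_add, mul_comm]
      gcongr
      linarith [Real.add_one_le_exp (4 * (k + 1))]
    have e2 : Real.exp B2 ≤ Real.exp B3 := Real.exp_le_exp.2 b2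
    have e3 : 4 * Real.exp B' ≤ Real.exp B2 := by nlinarith
    have hs' : ∀ l, ‖2 * s l‖ ≤ 2 * Real.exp B' := fun l => by
      rw [norm_mul, Complex.norm_two]
      gcongr
      exact (norm_le_pi_norm s l).trans hs
    have hsv : ∀ l, ‖(2 * s l) • v l‖ ≤ 2 * Real.exp B' * (2 * r) := fun l => by
      rw [norm_smul]
      exact mul_le_mul (hs' l) (hv l) (norm_nonneg _) (by positivity)
    have u0 := ih n g x0 (fun l => v l.succ) S0 r μ X B B3 hg hr hS hμ b3 (by nlinarith)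
      (fun l => hv _) h0 (fun l => h1 _) (fun l => 2 * s l.succ)
      ((pi_norm_le_iff_of_nonneg (by positivity)).2 fun l => (hs' _).trans (by linarith))
    have u1 := h n g x0 (x0 + v 0) S0 r μ X B B3 (2 * s 0) hg hr hS hμ b3 (by nlinarith) h0 (h1 0)
      (by rw [add_sub_cancel_left]; nlinarith [hv 0])
      (by rw [add_sub_cancel_left, ← norm_smul]; nlinarith [hsv 0])
      ((hs' 0).trans (by linarith [Real.exp_le_exp.2 (show B3 ≤ 2 * B3 by linarith)]))
    rw [add_sub_cancel_left] at u1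
    have hd : ‖x0 + (2 * s 0) • v 0 - (x0 + ∑ l : Fin k, (2 * s l.succ) • v l.succ)‖ ≤
        r * Real.exp B2 := by
      rw [add_sub_add_left_eq_sub]
      have := (norm_sum_le _ _).trans (Finset.sum_le_card_nsmul Finset.univ
        (fun l : Fin k => ‖(2 * s l.succ) • v l.succ‖) _ fun l _ => hsv _)
      simp only [Finset.card_univ, Fintype.card_fin, nsmul_eq_mul] at this
      refine (norm_sub_le_of_le (hsv 0) this).trans ?_
      nlinarith
    have u2 := h n g _ _ S0 r μ (X + 6 * k * μ + 3 * μ) B3 B2 (1 / 2) hg hr hS hμ (by linarith)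
      hB3.ge (u0.mono hS.le (by linarith) le_rfl) (u1.mono hS.le (by nlinarith) le_rfl) hd
      ((mul_le_of_le_one_left (norm_nonneg _) (by norm_num)).trans hd)
      (le_trans (by norm_num) (Real.one_le_exp (by linarith)))
    have e4 : x0 + ∑ l : Fin k, (2 * s l.succ) • v l.succ + (1 / 2 : ℂ) • (x0 + (2 * s 0) • v 0 -
        (x0 + ∑ l : Fin k, (2 * s l.succ) • v l.succ)) = x0 + ∑ l, s l • v l := by
      simp only [Fin.sum_univ_succ, mul_smul, ← Finset.smul_sum]
      module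
    rw [e4] at u2
    exact u2.mono hS.le (le_of_eq (by push_cast; ring)) (by linarith)

end Pool.Agent.LinN2
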