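import Pool.Agent.Lib.MP_8465a2_an.N2.BasicB

/-!
The structure theorem for pinched scales (MP_8465a2_an).
-/

namespace Pool.Agent.LinN2

open MeasureTheory Metric Set Filter Topology Complex
open scoped ENNReal ComplexConjugate

noncomputable section

namespace Str

variable {n : ℕ}

/-- the order propagates along the complex span of pinched neighbours -/
lemma spanUP (h1 : SyncStmt) (h2 : SpanStmt) (k : ℕ) : ∃ (C : ℝ) (p : ℕ), 1 ≤ C ∧
    ∀ (n : ℕ) (g : Cn n → Cn n) (A b i : ℕ) (x : Rn n) (v : Fin k → Rn n) (B' : ℝ),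
    Differentiable ℂ g → NZ g → 3 ≤ A → 1 ≤ B' → C * B' ^ p + 13 ≤ b → Pin g A b x i →
    (∀ l, ‖v l‖ ≤ 2 * rj A i ∧ Pin g A b (x + v l) i) → ∀ s : Fin k → ℂ, ‖s‖ ≤ Real.exp B' →
    UP g (cx x + ∑ l, s l • cx (v l)) (SS g (cx x) (rj A i)) (rj A i) (mu g A x i)
      ((6 + 7 * Real.log A + 6 * k) * mu g A x i) B' := by
  obtain ⟨C, p, hC, -, h⟩ := h2 k
  refine ⟨C, p, hC, fun n g A b i x v B' hg h0 hA hB hb hx hv s hs => ?_⟩
  have hr := rj_pos (A := A) (by omega) i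
  have hpos : 0 ≤ C * B' ^ p := by positivity
  have hb13 : 13 ≤ b := by
    have : (13 : ℝ) ≤ b := by linarith
    exact_mod_cast this
  have ha := one_le_log hA
  have hμ := hx.half_le hg h0 (by omega)
  have key := h n g (cx x) (fun l => cx (v l)) (SS g (cx x) (rj A i)) (rj A i) (mu g A x i)
    ((6 + 7 * Real.log A) * mu g A x i) (b * Real.log A - 2) B' hg hr (SS_pos hg h0 _ hr)
    (by linarith) hB (by nlinarith [Nat.cast_nonneg (α := ℝ) b])
    (fun l => by rw [norm_cx]; exact (hv l).1)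
    (h1 n g A b i x x hg h0 hA hb13 hx hx (by simp; positivity))
    (fun l => by
      rw [← cx_add]
      exact h1 n g A b i x (x + v l) hg h0 hA hb13 hx (hv l).2 (by simpa using (hv l).1)) s hs
  convert key using 1
  ring

lemma theta_pos {A : ℕ} (hA : 3 ≤ A) (k : ℕ) : 0 < (1 / (8 * (A : ℝ))) ^ k := by
  have : (0 : ℝ) < A := by exact_mod_cast (by omega : 0 < A)
  positivity

lemma theta_le {A : ℕ} (hA : 3 ≤ A) (k : ℕ) : (1 / (8 * (A : ℝ))) ^ k ≤ 1 := by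
  have : (3 : ℝ) ≤ A := by exact_mod_cast hA
  refine pow_le_one₀ (by positivity) ?_
  rw [div_le_one (by positivity)]
  linarith

/-- full scales are tubes -/
lemma tube (hn : 3 ≤ n) (h1 : SyncStmt) (h2 : SpanStmt) (h3 : GreedyStmt) {A : ℕ} (hA : 3 ≤ A) :
    ∃ (C1 : ℝ) (p : ℕ), 1 ≤ C1 ∧ ∀ g : Cn n → Cn n, Adm g → NZ g → ∀ (b : ℕ) (x : Rn n) (i : ℕ)
    (B : ℝ), 1 ≤ B → C1 * B ^ p ≤ b → Full g A b x i →
      Tube g x (rj A i) (mu g A x i)
        ((6 + 7 * Real.log A + 6 * (n - 2 : ℕ)) * mu g A x i) B := by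
  obtain ⟨C, p, hC, h⟩ := spanUP h1 h2 (n - 2)
  set θ := (1 / (8 * (A : ℝ))) ^ (n - 2) with hθ
  have t0 : 0 < θ := theta_pos hA _
  have t1 : θ ≤ 1 := theta_le hA _
  have hn0 : (0 : ℝ) ≤ n := Nat.cast_nonneg n
  set Q := 2 * (1 + 2 * (n : ℝ)) / θ with hQ
  have q1 : 2 * (1 + 2 * (n : ℝ)) ≤ Q := le_div_self (by positivity) t0 t1
  have q0 : 0 < Q := by linarith
  set L := Real.log Q with hL
  have l0 : 0 ≤ L := Real.log_nonneg (by linarith)
  have c0 : 0 ≤ C * (1 + L) ^ p := by positivity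
  refine ⟨C * (1 + L) ^ p + 13, p, by linarith, fun g hg h0 b x i B hB hb hF => ?_⟩
  obtain ⟨hx, v, hv, hs⟩ := hF
  have hr := rj_pos (A := A) (by omega) i
  have hμ := hx.half_le hg.differentiable h0 (by omega)
  obtain ⟨u1, u2, hu, hy⟩ := (h3 n).2.1 v (θ * rj A i) (by omega) (by positivity) hs
  refine ⟨u1, u2, hu, fun y hyx => ?_⟩
  obtain ⟨s, s1, s2⟩ := hy (y - cx x)
  have e1 : Real.exp (B + L) = Real.exp B * Q := by rw [Real.exp_add, hL, Real.exp_log q0]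
  have b1 : C * (B + L) ^ p + 13 ≤ b := by
    have a1 : (B + L) ^ p ≤ (1 + L) ^ p * B ^ p := by
      rw [← mul_pow]
      gcongr
      nlinarith
    have a2 : 1 ≤ B ^ p := one_le_pow₀ hB
    nlinarith [mul_le_mul_of_nonneg_left a1 (by linarith : 0 ≤ C)]
  have s3 : ‖s‖ ≤ Real.exp (B + L) := by
    rw [e1, hQ, mul_div_assoc', le_div_iff₀ t0]
    refine le_of_mul_le_mul_right ?_ hr
    nlinarith [mul_le_mul_of_nonneg_left hyx (by positivity : 0 ≤ 2 * (1 + 2 * (n : ℝ)))]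
  have key := h n g A b i x v (B + L) hg.differentiable h0 hA (by linarith) b1 hx hv s s3
  set m := max (max ‖zc u1 u2 (y - cx x)‖ ‖wc u1 u2 (y - cx x)‖ / rj A i) (Real.exp (-B)) with hm
  have m1 : Real.exp (-B) ≤ m := le_max_right _ _
  have m0 : 0 < m := (Real.exp_pos _).trans_le m1
  have m2 : m ≤ Real.exp (B + L) := by
    refine max_le ?_ (Real.exp_le_exp.2 (by linarith))
    rw [div_le_iff₀ hr, e1]
    have a1 : (n : ℝ) * ‖y - cx x‖ ≤ Real.exp B * Q * rj A i := by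
      have := mul_le_mul (show (n : ℝ) ≤ Q by linarith) hyx (norm_nonneg _) q0.le
      linarith
    exact max_le ((hu.norm_zc _).trans a1) ((hu.norm_wc _).trans a1)
  have m3 : |Real.log m| ≤ B + L := by
    rw [abs_le, Real.le_log_iff_exp_le m0, Real.log_le_iff_le_exp m0]
    exact ⟨(Real.exp_le_exp.2 (by linarith)).trans m1, m2⟩
  have k2 := key (Real.log m) m3 y (by
    rw [Real.exp_log m0, ← sub_sub, mul_comm, ← div_le_iff₀ hr]
    exact (div_le_div_of_nonneg_right s2 hr.le).trans (le_max_left _ _))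
  rwa [Real.exp_add, mul_comm (mu g A x i), ← Real.rpow_def_of_pos m0, ← mul_assoc] at k2

/-- there are no `n - 1` spread pinched neighbours -/
lemma noSpread (hn : 3 ≤ n) (h1 : SyncStmt) (h2 : SpanStmt) (h3 : GreedyStmt) (h4 : CKStmt n)
    {A : ℕ} (hA : 3 ≤ A) : ∃ b0 : ℕ, 1 ≤ b0 ∧ ∀ g : Cn n → Cn n, Adm g → NZ g →
    ∀ (b : ℕ) (x : Rn n) (i : ℕ) (v : Fin (n - 1) → Rn n), b0 ≤ b → Pin g A b x i →
    (∀ l, ‖v l‖ ≤ 2 * rj A i ∧ Pin g A b (x + v l) i) →
    ¬ Spread (n - 1) ((1 / (8 * (A : ℝ))) ^ (n - 1) * rj A i) v := by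
  obtain ⟨C, p, hC, h⟩ := spanUP h1 h2 (n - 1)
  obtain ⟨K, hK, hck⟩ := h4
  set θ := (1 / (8 * (A : ℝ))) ^ (n - 1) with hθ
  have t0 : 0 < θ := theta_pos hA _
  have t1 : θ ≤ 1 := theta_le hA _
  set Q := 2 * K / θ with hQ
  have q1 : 2 * K ≤ Q := le_div_self (by positivity) t0 t1
  have q0 : 0 < Q := by linarith
  set L := Real.log Q with hL
  have l0 : 0 ≤ L := Real.log_nonneg (by linarith)
  have ha := one_le_log hA
  set C0 := 6 + 7 * Real.log A + 6 * ((n - 1 : ℕ) : ℝ) with hC0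
  have c0 : 0 ≤ C0 := by positivity
  refine ⟨⌈C * (C0 + 2 + L) ^ p⌉₊ + 13, by omega, fun g hg h0 b x i v hb hx hv hs => ?_⟩
  have hr := rj_pos (A := A) (by omega) i
  have hμ := hx.half_le hg.differentiable h0 (by omega)
  have hS := SS_pos hg.differentiable h0 (cx x) hr
  have b1 : C * (C0 + 2 + L) ^ p + 13 ≤ b := by
    have a1 : ((⌈C * (C0 + 2 + L) ^ p⌉₊ + 13 : ℕ) : ℝ) ≤ b := by exact_mod_cast hb
    push_cast at a1
    linarith [Nat.le_ceil (C * (C0 + 2 + L) ^ p)]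
  obtain ⟨ν, hν, ht⟩ := (h3 n).2.2 v (θ * rj A i) (by omega) (by positivity) hs
  have key := hck g (cx x) ν (rj A i) (SS g (cx x) (rj A i) * Real.exp (-1)) hg hν hr
    fun t t2 t3 => by
      obtain ⟨s, s1, rfl⟩ := ht t t2
      have s3 : ‖s‖ ≤ Real.exp (C0 + 2 + L) := by
        refine le_trans ?_ (Real.exp_le_exp.2 (show L ≤ _ by linarith))
        rw [hL, Real.exp_log q0, hQ, le_div_iff₀ t0]
        refine le_of_mul_le_mul_right ?_ hr
        nlinarith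
      refine (h n g A b i x v (C0 + 2 + L) hg.differentiable h0 hA (by linarith) b1 hx hv s s3
        (-(C0 + 2 + L)) (by rw [abs_neg, abs_of_nonneg (by linarith)]) _
        (by simp; positivity)).trans ?_
      gcongr
      nlinarith
  have k2 := SS_le (by positivity) key
  have k3 : Real.exp (-1) < 1 / 2 := by
    rw [Real.exp_neg, inv_lt_comm₀ (Real.exp_pos _) (by norm_num)]
    linarith [Real.add_one_lt_exp (one_ne_zero (α := ℝ))]
  nlinarith

end Str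

theorem str {n : ℕ} (hn : 3 ≤ n) (h1 : SyncStmt) (h2 : SpanStmt) (h3 : GreedyStmt)
    (h4 : CKStmt n) : StrStmt n := by
  intro A hA
  obtain ⟨C1, p, hC1, ht⟩ := Str.tube hn h1 h2 h3 hA
  obtain ⟨b0, hb0, hs⟩ := Str.noSpread hn h1 h2 h3 h4 hA
  have ha := one_le_log hA
  have hA0 : (3 : ℝ) ≤ A := by exact_mod_cast hA
  refine ⟨6 + 7 * Real.log A + 6 * (n - 2 : ℕ), C1, p, b0,
    by linarith [Nat.cast_nonneg (α := ℝ) (n - 2)], hC1, hb0, fun g hg h0 b x i =>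
    ⟨ht g hg h0 b x i, fun hb hx => ?_⟩⟩
  have hr := rj_pos (A := A) (by omega) i
  have key : ∀ k d : ℕ, k ≤ d + 1 → (∃ v : Fin k → Rn n,
      (∀ l, ‖v l‖ ≤ 2 * rj A i ∧ Pin g A b (x + v l) i) ∧
      Spread k ((1 / (8 * (A : ℝ))) ^ k * rj A i) v) ∨
      Near A i d (fun x' => Pin g A b x' i) x := fun k d hk => by
    rcases (h3 n).1 k {v | ‖v‖ ≤ 2 * rj A i ∧ Pin g A b (x + v) i} (rj A i) (1 / (2 * A)) hr
      (by positivity) (by rw [div_le_one (by positivity)]; linarith) (fun v hv => hv.1) with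
      ⟨v, v1, v2⟩ | ⟨W, w1, w2⟩
    · refine Or.inl ⟨v, v1, ?_⟩
      convert v2 using 3
      field_simp
      norm_num
    · refine Or.inr ⟨W, by omega, fun x' p1 p2 => ?_⟩
      obtain ⟨w, a1, a2⟩ := w2 (x' - x) ⟨p2, by simpa using p1⟩
      exact ⟨w, a1, a2.trans (le_of_eq (by ring))⟩
  refine ⟨(key (n - 1) (n - 2) (by omega)).resolve_left ?_, fun hF =>
    (key (n - 2) (n - 3) (by omega)).resolve_left fun h => hF ⟨hx, h⟩⟩
  rintro ⟨v, v1, v2⟩
  exact hs g hg h0 b x i v hb hx v1 v2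

end

end Pool.Agent.LinN2
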