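import Pool.Agent.Lib.MP_8465a2_an.N2.BasicB

/-!
Sub-mean value inequality on circled sets (MP_8465a2_an).
-/

namespace Pool.Agent.LinN2

open MeasureTheory Metric Set Filter Topology Complex
open scoped ENNReal ComplexConjugate

noncomputable section

namespace Sub

lemma jensen {h : ℂ → ℂ} (hd : Differentiable ℂ h) (h0 : h 0 ≠ 0) {ρ : ℂ → ℝ} (hρ : Continuous ρ)
    (h1 : ∀ z, 1 ≤ ρ z) (h2 : ∀ z, ‖h z‖ ≤ ρ z) :
    Real.log ‖h 0‖ ≤ Real.circleAverage (fun z => Real.log (ρ z)) 0 1 := by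
  have ha : AnalyticOnNhd ℂ h (closedBall 0 |1|) := fun z _ => hd.analyticAt z
  have a1 := ha.circleAverage_log_norm one_ne_zero h0
  have a2 : 0 ≤ ∑ᶠ u, MeromorphicOn.divisor h (closedBall 0 |1|) u * Real.log (1 * ‖0 - u‖⁻¹) := by
    refine finsum_nonneg fun u => ?_
    by_cases hu : u ∈ closedBall (0 : ℂ) |1|
    · refine mul_nonneg (mod_cast MeromorphicOn.AnalyticOnNhd.divisor_nonneg ha u) ?_
      rw [one_mul, Real.log_inv, neg_nonneg]
      exact Real.log_nonpos (norm_nonneg _) (by simpa using hu)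
    · simp only [hu, not_false_eq_true, Function.locallyFinsuppWithin.apply_eq_zero_of_notMem,
        Int.cast_zero, zero_mul, le_refl]
  refine (le_add_of_nonneg_left a2).trans (a1 ▸ Real.circleAverage_mono
    (ha.mono sphere_subset_closedBall).meromorphicOn.circleIntegrable_log_norm
    ((hρ.log fun z => (one_pos.trans_le (h1 z)).ne').continuousOn.circleIntegrable zero_le_one)
    fun z _ => ?_)
  rcases eq_zero_or_norm_pos (h z) with e | e
  · simpa [e] using Real.log_nonneg (h1 z)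
  · exact Real.log_le_log e (h2 z)

lemma cs {ι : Type} [Fintype ι] (a b : ι → ℂ) (η : ℝ) :
    ‖∑ k, conj (a k) * b k + (η : ℂ) ^ 2‖ ^ 2 ≤
      (∑ k, ‖a k‖ ^ 2 + η ^ 2) * (∑ k, ‖b k‖ ^ 2 + η ^ 2) := by
  have a1 : ‖∑ k, conj (a k) * b k + (η : ℂ) ^ 2‖ ≤ ∑ k, ‖a k‖ * ‖b k‖ + η ^ 2 := by
    refine (norm_add_le _ _).trans (add_le_add (norm_sum_le_of_le _ fun k _ => by simp) (by simp))
  have a2 := Finset.sum_mul_sq_le_sq_mul_sq Finset.univ (fun k => ‖a k‖) fun k => ‖b k‖
  have a3 : 2 * ∑ k, ‖a k‖ * ‖b k‖ ≤ ∑ k, ‖a k‖ ^ 2 + ∑ k, ‖b k‖ ^ 2 := by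
    rw [Finset.mul_sum, ← Finset.sum_add_distrib]
    exact Finset.sum_le_sum fun k _ => by rw [← mul_assoc]; exact two_mul_le_add_sq _ _
  have a4 := mul_le_mul_of_nonneg_left a3 (sq_nonneg η)
  have a5 := pow_le_pow_left₀ (norm_nonneg _) a1 2
  linarith

lemma circle {ι : Type} [Fintype ι] {F : ℂ → ι → ℂ} (hF : Differentiable ℂ F) {η : ℝ}
    (hη : 0 < η) : Ul F η 0 ≤ Real.circleAverage (Ul F η) 0 1 := by
  have hc := hF.continuous
  set ρ : ℂ → ℝ := fun z => ∑ k, ‖F z k‖ ^ 2 + η ^ 2 with hρ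
  have c0 : Continuous ρ := by fun_prop
  have p0 : ∀ z, η ^ 2 ≤ ρ z := fun z => le_add_of_nonneg_left (by positivity)
  have p1 : ∀ z, 0 < ρ z := fun z => (pow_pos hη 2).trans_le (p0 z)
  have q0 := p1 0
  have e0 : ∑ k, conj (F 0 k) * F 0 k + (η : ℂ) ^ 2 = (ρ 0 : ℝ) := by
    simp [hρ, Complex.conj_mul']
  have a := jensen (h := fun z => (∑ k, conj (F 0 k) * F z k + (η : ℂ) ^ 2) ^ 2 /
    ((η ^ 2 * ρ 0 : ℝ) : ℂ)) (ρ := fun z => ρ z / η ^ 2) (by fun_prop) (by
      rw [e0]
      exact_mod_cast (by positivity : (0 : ℝ) < ρ 0 ^ 2 / (η ^ 2 * ρ 0)).ne') (by fun_prop)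
    (fun z => (one_le_div (by positivity)).2 (p0 z)) fun z => by
      rw [norm_div, norm_pow, Complex.norm_real, Real.norm_of_nonneg (by positivity),
        div_le_iff₀ (by positivity)]
      refine (cs _ _ η).trans (le_of_eq ?_)
      change ρ 0 * ρ z = _
      field_simp
  have e1 : ∀ z, Real.log (ρ z / η ^ 2) = (2 : ℝ) • Ul F η z - Real.log (η ^ 2) := fun z => by
    rw [Real.log_div (p1 z).ne' (by positivity), Ul, smul_eq_mul, mul_div_cancel₀ _ two_ne_zero]
  have c1 : Continuous (Ul F η) := (c0.log fun z => (p1 z).ne').div_const 2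
  rw [e0, ← ofReal_pow, ← ofReal_div, Complex.norm_real, Real.norm_of_nonneg (by positivity),
    show ρ 0 ^ 2 / (η ^ 2 * ρ 0) = ρ 0 / η ^ 2 by field_simp] at a
  simp only [e1] at a
  rw [Real.circleAverage_fun_sub (f₁ := fun z => (2 : ℝ) • Ul F η z)
    ((c1.fun_const_smul _).continuousOn.circleIntegrable zero_le_one)
    (circleIntegrable_const _ _ _), Real.circleAverage_fun_smul, Real.circleAverage_const,
    smul_eq_mul, smul_eq_mul] at a
  linarith

variable {E : Type} [NormedAddCommGroup E] [NormedSpace ℝ E] [NormedSpace ℂ E]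
  [FiniteDimensional ℝ E] [MeasurableSpace E] [BorelSpace E] (μ : Measure E) [μ.IsAddHaarMeasure]

lemma rot {c : ℂ} (hc : ‖c‖ = 1) : MeasurePreserving (fun v : E => c • v) μ μ := by
  have h0 : c ≠ 0 := by rintro rfl; simp at hc
  let e : E ≃L[ℂ] E := ContinuousLinearEquiv.smulLeft (Units.mk0 c h0)
  have := e.isAddHaarMeasure_map μ
  have a1 := Measure.isAddLeftInvariant_eq_smul (μ.map e) μ
  have a2 : e ⁻¹' closedBall 0 1 = closedBall 0 1 := Set.ext fun v => by
    change c • v ∈ closedBall (0 : E) 1 ↔ _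
    rw [mem_closedBall_zero_iff, mem_closedBall_zero_iff, norm_smul, hc, one_mul]
  have a3 := congrArg (fun m : Measure E => m (closedBall 0 1)) a1
  simp only [Measure.map_apply e.continuous.measurable measurableSet_closedBall, a2,
    Measure.smul_apply, ENNReal.smul_def, smul_eq_mul] at a3
  have a4 : Measure.addHaarScalarFactor (μ.map e) μ = 1 := by
    have := (ENNReal.mul_left_inj (measure_closedBall_pos μ (0 : E) one_pos).ne'
      measure_closedBall_lt_top.ne).1 ((one_mul _).trans a3)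
    exact_mod_cast this.symm
  rw [a4, one_smul] at a1
  exact ⟨e.continuous.measurable, a1⟩

lemma avg {K : Set E} (hK : MeasurableSet K) (hb : Bornology.IsBounded K)
    (hr : ∀ (t : ℝ), ∀ v ∈ K, Complex.exp (t * I) • v ∈ K) {U : E → ℝ} (hU : Continuous U) {c : ℝ}
    (h : ∀ v, c ≤ Real.circleAverage (fun w => U (w • v)) 0 1) :
    μ.real K * c ≤ ∫ v in K, U v ∂μ := by
  have a1 : ∀ t : ℝ, ∫ v in K, U (circleMap 0 1 t • v) ∂μ = ∫ v in K, U v ∂μ := fun t => by
    have hc : ‖circleMap 0 1 t‖ = 1 := by simp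
    have h0 : circleMap 0 1 t ≠ 0 := circleMap_ne_center one_ne_zero
    have e : (fun v : E => circleMap 0 1 t • v) ⁻¹' K = K := Set.ext fun v => by
      rw [circleMap_zero, ofReal_one, one_mul]
      refine ⟨fun hv => ?_, hr t v⟩
      have := hr (-t) _ hv
      rwa [smul_smul, ← Complex.exp_add, ofReal_neg, neg_mul, neg_add_cancel, Complex.exp_zero,
        one_smul] at this
    have := (rot μ hc).setIntegral_preimage_emb (Homeomorph.smulOfNeZero _ h0).measurableEmbedding
      U K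
    rwa [e] at this
  have a2 : Integrable (Function.uncurry fun (t : ℝ) (v : E) => U (circleMap 0 1 t • v))
      ((volume.restrict (uIoc 0 (2 * Real.pi))).prod (μ.restrict K)) := by
    rw [Measure.prod_restrict]
    refine (ContinuousOn.integrableOn_compact (isCompact_uIcc.prod hb.isCompact_closure)
      (Continuous.continuousOn ?_)).mono_set (prod_mono uIoc_subset_uIcc subset_closure)
    exact hU.comp (((continuous_circleMap 0 1).comp continuous_fst).smul continuous_snd)
  have a3 := intervalIntegral_integral_swap a2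
  have a4 : IntegrableOn (fun v => ∫ t in 0..2 * Real.pi, U (circleMap 0 1 t • v)) K μ := by
    simpa only [intervalIntegral.integral_of_le Real.two_pi_pos.le,
      uIoc_of_le Real.two_pi_pos.le, Function.uncurry_apply_pair, IntegrableOn] using a2.integral_prod_right
  simp only [a1, intervalIntegral.integral_const, sub_zero, smul_eq_mul] at a3
  calc _ = ∫ _ in K, c ∂μ := by rw [setIntegral_const, smul_eq_mul]
    _ ≤ ∫ v in K, ((2 * Real.pi)⁻¹ * ∫ t in 0..2 * Real.pi, U (circleMap 0 1 t • v)) ∂μ :=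
      integral_mono (integrableOn_const hb.measure_lt_top.ne) (a4.const_mul _) h
    _ = _ := by rw [integral_const_mul, ← a3, inv_mul_cancel_left₀ Real.two_pi_pos.ne']

end Sub

theorem sub : SubStmt := by
  intro E _ _ _ _ _ _ _ μ _ η hη K hK hb hr y
  have key : ∀ (ι : Type) [Fintype ι] (F : E → ι → ℂ), Differentiable ℂ F →
      μ.real K * Ul F η y ≤ ∫ v in K, Ul F η (y + v) ∂μ := fun ι _ F hF => by
    have hc := hF.continuous
    refine Sub.avg μ hK hb hr (U := fun v => Ul F η (y + v)) ?_ fun v => ?_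
    · exact (Continuous.log (by fun_prop) fun v => by positivity).div_const 2
    · have := Sub.circle (F := fun w : ℂ => F (y + w • v)) (hF.comp (by fun_prop)) hη
      rwa [Ul, zero_smul, add_zero] at this
  refine ⟨key, fun f hf => ?_⟩
  have := key Unit (fun y _ => f y) (differentiable_pi.2 fun _ => hf)
  simpa [Ul, U1] using this

end

end Pool.Agent.LinN2
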