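import Pool.Agent.Lib.MP_8465a2_an.N2.BasicB

/-!
Nearby pinched points have the same order of growth.
-/

namespace Pool.Agent.LinN2

open MeasureTheory Metric Set Filter Topology Complex

namespace Sync

variable {n : ℕ} {g : Cn n → Cn n} {A b i : ℕ}

/-- comparison of the heights at two nearby points -/
lemma shift (hg : Differentiable ℂ g) (h0 : NZ g) {x x' : Rn n} {σ t : ℝ}
    (h : ‖x' - x‖ ≤ 2 * Real.exp σ) (ht : 0 ≤ t) :
    HH g (cx x') (σ + t) ≤ HH g (cx x) (σ + t + 2) := by
  refine Real.log_le_log (SS_pos hg h0 _ (Real.exp_pos _)) (SS_mono hg.continuous ?_)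
  rw [norm_cx_sub, Real.exp_add (σ + t)]
  have h1 : Real.exp σ ≤ Real.exp (σ + t) := Real.exp_le_exp.2 (by linarith)
  have h2 : (2 : ℝ) + 1 ≤ Real.exp 2 := Real.add_one_le_exp 2
  nlinarith [Real.exp_pos (σ + t)]

/-- the pinching inequality for the orders -/
lemma pin_mu (hA : 2 ≤ A) {x : Rn n} (h : Pin g A b x i) :
    b * mu g A x (i - b) ≤ (b + 1) * mu g A x (i + b) := by
  have hl : 0 < Real.log A := Real.log_pos (by exact_mod_cast hA)
  have := h.2.2
  rw [mj_eq hA, mj_eq hA] at this
  exact le_of_mul_le_mul_right (by linarith) hl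

/-- growth above the scale `i` -/
lemma up_le (hg : Differentiable ℂ g) (h0 : NZ g) (hA : 2 ≤ A) (hb : 1 ≤ b) (hi : b ≤ i)
    (x : Rn n) {t : ℝ} (ht : 0 ≤ t) (ht' : t ≤ b * Real.log A) :
    HH g (cx x) (-(i * Real.log A) + t) - HH g (cx x) (-(i * Real.log A)) ≤
      mu g A x (i - b) * t := by
  have hl : 0 < Real.log A := Real.log_pos (by exact_mod_cast hA)
  have hb' : (1 : ℝ) ≤ b := by exact_mod_cast hb
  have := HH_le_mu hg h0 hA x (i - b) (a := -(i * Real.log A)) (b := -(i * Real.log A) + t)
    (by linarith) (by push_cast [Nat.cast_sub hi]; nlinarith) (by rw [Nat.cast_sub hi]; linarith)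
  rwa [add_sub_cancel_left] at this

end Sync

open Sync in
theorem sync : SyncStmt := by
  intro n g A b i x x' hg h0 hA hb hx hx' hd s hs y' hy'
  have hA2 : 2 ≤ A := by omega
  have ha := one_le_log hA
  have hb' : (13 : ℝ) ≤ b := by exact_mod_cast hb
  have hba : 13 ≤ b * Real.log A := by nlinarith
  rw [rj_eq_exp (by omega)] at hd hy' ⊢
  rw [← Real.exp_add] at hy'
  obtain ⟨hs1, hs2⟩ := abs_le.1 hs
  have m0 : 0 ≤ mu g A x i := by linarith [hx.half_le hg h0 hA2]
  have m1 : mu g A x i ≤ mu g A x (i - b) := mu_anti hg h0 hA2 x (Nat.sub_le i b)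
  have m2 : b * mu g A x (i - b) ≤ (b + 1) * mu g A x i :=
    (pin_mu hA2 hx).trans (mul_le_mul_of_nonneg_left (mu_anti hg h0 hA2 x (Nat.le_add_right i b))
      (by linarith))
  have key : HH g (cx x') (-(i * Real.log A) + s) ≤ HH g (cx x) (-(i * Real.log A)) +
      ((6 + 7 * Real.log A) * mu g A x i + mu g A x i * s) := by
    rcases le_total 0 s with h | h
    · have k1 := shift hg h0 hd h
      have k2 := up_le hg h0 hA2 (by omega) hx.1 x (t := s + 2) (by linarith) (by linarith)
      rw [← add_assoc] at k2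
      have k3 : (mu g A x (i - b) - mu g A x i) * (s + 2) ≤
          (mu g A x (i - b) - mu g A x i) * (b * Real.log A) :=
        mul_le_mul_of_nonneg_left (by linarith) (by linarith)
      have k4 : (b * (mu g A x (i - b) - mu g A x i)) * Real.log A ≤ mu g A x i * Real.log A :=
        mul_le_mul_of_nonneg_right (by linarith) (by linarith)
      nlinarith
    · have hd' : ‖x - x'‖ ≤ 2 * Real.exp (-(i * Real.log A)) := by rwa [norm_sub_rev]
      have k1 := shift hg h0 hd le_rfl
      have k2 := up_le hg h0 hA2 (by omega) hx.1 x (t := 2) (by linarith) (by linarith)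
      have k3 := mu_le_HH hg h0 hA2 x' (i + b) (a := -(i * Real.log A) + s)
        (b := -(i * Real.log A)) (by linarith) (by push_cast; linarith) (by push_cast; linarith)
      have k4 := up_le hg h0 hA2 (by omega) hx.1 x' (t := b * Real.log A) (by linarith) le_rfl
      have k5 := shift hg h0 hd' (t := b * Real.log A - 2) (by linarith)
      have k6 := mu_le_HH hg h0 hA2 x i (a := -(i * Real.log A) + 2)
        (b := -(i * Real.log A) + (b * Real.log A - 2)) (by linarith) (by push_cast; linarith)
        (by linarith)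
      rw [add_zero] at k1
      rw [show -(i * Real.log A) + (b * Real.log A - 2) + 2 = -(i * Real.log A) + b * Real.log A
        by ring] at k5
      have k7 : (b * mu g A x' (i - b)) * Real.log A ≤
          ((b + 1) * mu g A x' (i + b)) * Real.log A :=
        mul_le_mul_of_nonneg_right (pin_mu hA2 hx') (by linarith)
      have k8 : (mu g A x i - mu g A x' (i + b)) * ((b + 1) * Real.log A) ≤
          mu g A x i * (Real.log A + 4) := by nlinarith
      have k9 : (mu g A x i - mu g A x' (i + b)) * (-s) ≤ mu g A x i * (Real.log A + 4) := by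
        rcases le_total 0 (mu g A x i - mu g A x' (i + b)) with e | e
        · exact (mul_le_mul_of_nonneg_left (by linarith) e).trans k8
        · exact (mul_nonpos_of_nonpos_of_nonneg e (by linarith)).trans (by positivity)
      have k10 : mu g A x (i - b) ≤ 2 * mu g A x i :=
        le_of_mul_le_mul_left (m2.trans (by nlinarith)) (by linarith : (0 : ℝ) < b)
      nlinarith
  refine (le_SS hg.continuous hy').trans ?_
  have p1 := SS_pos hg h0 (cx x') (Real.exp_pos (-(i * Real.log A) + s))
  have p2 := SS_pos hg h0 (cx x) (Real.exp_pos (-(i * Real.log A)))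
  rw [← Real.exp_log p1, ← Real.exp_log p2, ← Real.exp_add]
  exact Real.exp_le_exp.2 key

end Pool.Agent.LinN2
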