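import Pool.Agent.Lib.MP_8465a2_an.N2.BasicB

/-!
Tube shells on a plane (MP_8465a2_an).
-/

namespace Pool.Agent.LinN2

open MeasureTheory Metric Set Filter Topology Complex
open scoped ENNReal ComplexConjugate

noncomputable section

namespace TShell

lemma cut_comp {ψ : E2 → ℝ} (h : Cut ψ) {f : E2 → E2} (hf : ContDiff ℂ 1 f) :
    Cut fun y => ψ (f y) :=
  ⟨h.sm.comp (hf.restrict_scalars ℝ), fun _ => h.nn _, fun _ => h.le _⟩

lemma closed_Reg (L : ℝ) : IsClosed (Reg L) :=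
  (isClosed_le continuous_const continuous_norm).inter (isClosed_le continuous_norm continuous_const)

/-- a shell of the model gives a shell on the plane -/
lemma transfer (h6 : AffStmt) {a : E2 → ℂ} (M : E2 ≃L[ℂ] E2) (y0 : E2) {η ηN η' ri ro K s L : ℝ}
    (ha : ContDiff ℂ 2 a) (hη : 0 < η) (hK : 0 ≤ K) {ψ : E2 → ℝ} (hψ : Cut ψ)
    (h1 : ∀ u, ‖u‖ ≤ 1 → ψ u = 1) (h0 : ∀ u, 2 * Real.exp L ≤ ‖u‖ → ψ u = 0)
    (hri : ∀ v, ‖v‖ ≤ ri → ‖M.symm v‖ < Real.exp (-1))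
    (hro : ∀ u, ‖u‖ ≤ Real.exp (L + 4) → ‖M u‖ < ro)
    (hG : ∀ u ∈ Gset η', y0 + M u ∈ N0 ηN)
    (hm : ∀ χ, Cut χ → (∀ u ∈ Gset η', χ u = 1) →
      ∫ u, wt η (a (y0 + M u)) * ((1 - χ u) ^ 2 * bf (fun u => a (y0 + M u)) ψ ψ u) ≤
        K * (s + En (fun u => a (y0 + M u)) η (Reg L) χ)) : Shell a η ηN y0 ri ro K s := by
  have c1 : Cut fun y => ψ (M.symm (y - y0)) := cut_comp hψ (by fun_prop)
  have e1 : ∀ y, y0 + M (M.symm (y - y0)) = y := fun y => by simp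
  refine ⟨_, c1, fun y hy => h1 _ ((hri _ hy).le.trans (Real.exp_le_one_iff.2 (by norm_num))),
    fun y hy => h0 _ (not_lt.1 fun h => ?_), fun χ hχ hχ1 => ?_⟩
  · have h2 := hro _ (h.le.trans (show 2 * Real.exp L ≤ Real.exp (L + 4) by
      rw [Real.exp_add, mul_comm]
      gcongr
      linarith [Real.add_one_le_exp 4]))
    rw [M.apply_symm_apply] at h2
    linarith
  have c2 : Cut fun u => χ (y0 + M u) := cut_comp hχ (by fun_prop)
  have had := ha.differentiable two_ne_zero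
  have h2 := (h6 M y0 a η (fun u => (1 - χ (y0 + M u)) ^ 2) had).1 _ _
    (c1.sm.differentiable one_ne_zero) (c1.sm.differentiable one_ne_zero)
  have h3 := (h6 M y0 a η ((Reg L).indicator 1) had).1 _ _
    (hχ.sm.differentiable one_ne_zero) (hχ.sm.differentiable one_ne_zero)
  have h4 := hm _ c2 fun u hu => hχ1 _ (hG u hu)
  simp only [add_sub_cancel_left, M.symm_apply_apply, e1] at h2
  have m1 : MeasurableSet ((fun y => M.symm (y - y0)) ⁻¹' Reg L) :=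
    ((closed_Reg L).preimage (by fun_prop)).measurableSet
  have h5 : En (fun u => a (y0 + M u)) η (Reg L) (fun u => χ (y0 + M u)) =
      En a η ((fun y => M.symm (y - y0)) ⁻¹' Reg L) χ := by
    rw [En, En, Bf, Bf, ← integral_indicator (closed_Reg L).measurableSet, ← integral_indicator m1]
    refine Eq.trans ?_ (h3.trans ?_)
    · refine integral_congr_ae (ae_of_all _ fun u => ?_)
      by_cases hu : u ∈ Reg L <;> simp [hu]
    · refine integral_congr_ae (ae_of_all _ fun y => ?_)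
      by_cases hu : M.symm (y - y0) ∈ Reg L <;> simp [hu, -map_sub]
  have h7 : En a η ((fun y => M.symm (y - y0)) ⁻¹' Reg L) χ ≤
      En a η (closedBall y0 ro \ closedBall y0 ri) χ := by
    refine En_mono ha hη hχ.sm (fun y hy => ⟨?_, fun h => ?_⟩)
      (isBounded_closedBall.subset sdiff_subset)
    · have := hro _ hy.2
      rw [M.apply_symm_apply] at this
      exact mem_closedBall_iff_norm.2 this.le
    · exact (hri _ (mem_closedBall_iff_norm.1 h)).not_ge hy.1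
  calc _ = ∫ u, wt η (a (y0 + M u)) *
        ((1 - χ (y0 + M u)) ^ 2 * bf (fun u => a (y0 + M u)) ψ ψ u) := by
        simp only [mul_left_comm (wt η _)]
        exact h2.symm
    _ ≤ _ := h4
    _ ≤ _ := by rw [h5]; gcongr

/-- nearly real points of the model are grounded -/
lemma ground_mem (h7 : PtStmt) {M : E2 ≃L[ℂ] E2} {y : ℝ × ℝ} {Q δ ηN η' : ℝ} (hQ : 0 ≤ Q)
    (hM : ∀ u, ‖M u‖ ≤ Q * ‖u‖) (hs : ∀ u, star (M u) = M (conj u.2, conj u.1))
    (hy : ‖y‖ ≤ 1 - δ) (h1 : 4 * Q ≤ δ) (h2 : Q * η' ≤ ηN) (h3 : η' ≤ 1) {u : E2}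
    (hu : u ∈ Gset η') : c2 y + M u ∈ N0 ηN := by
  have a1 : ‖u‖ ≤ 4 := h7.2.2.2.2.1 u ⟨hu.1.trans h3, hu.2⟩
  have a2 : ‖M u‖ ≤ δ := (hM u).trans (by nlinarith)
  have a3 : ‖M u - star (M u)‖ ≤ ηN := by
    rw [hs, ← map_sub]
    refine (hM _).trans (le_trans ?_ h2)
    gcongr
    refine max_le hu.1 ?_
    have := hu.1
    rw [← Complex.norm_conj, map_sub, conj_conj, norm_sub_rev] at this
    exact this
  have a4 : ∀ z : ℂ, |z.im| ≤ ‖z - conj z‖ := fun z => by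
    rw [Complex.sub_conj, norm_mul, Complex.norm_I, mul_one, Complex.norm_real, Real.norm_eq_abs,
      abs_mul, abs_two]
    linarith [abs_nonneg z.im]
  have b1 : |y.1| ≤ ‖y‖ := norm_fst_le y
  have b2 : |y.2| ≤ ‖y‖ := norm_snd_le y
  have b3 := (abs_re_le_norm _).trans (norm_fst_le (M u))
  have b4 := (abs_re_le_norm _).trans (norm_snd_le (M u))
  refine ⟨?_, ?_, ?_, ?_⟩
  · simpa [c2] using (abs_add_le y.1 (M u).1.re).trans (by linarith)
  · simpa [c2] using (abs_add_le y.2 (M u).2.re).trans (by linarith)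
  · simpa [c2] using (a4 (M u).1).trans ((norm_fst_le (M u - star (M u))).trans a3)
  · simpa [c2] using (a4 (M u).2).trans ((norm_snd_le (M u - star (M u))).trans a3)

lemma ev_le {f : ℝ → ℝ} {b : ℝ} (hf : Continuous f) (h : f 0 < b) :
    ∀ᶠ t in 𝓝[>] (0 : ℝ), f t ≤ b :=
  ((hf.tendsto 0).eventually (ge_mem_nhds h)).filter_mono nhdsWithin_le_nhds

/-- the average of the defect over the levels -/
lemma avg (h7 : PtStmt) {ε T V W : ℝ} (hε : 0 < ε) (hT : 0 < T) (hV : 0 ≤ V) {G : ℝ → ℝ}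
    (hG : Continuous G) (h : W ≤ ∫ c, pt ε T c * G c) : ∫ c, pt ε T c * (V - G c) ≤ V - W := by
  obtain ⟨a1, -, -, a2, a3, -⟩ := h7.1 ε T hε hT
  have i1 : Integrable fun c => pt ε T c * G c :=
    (a1.mul hG).integrable_of_hasCompactSupport a2.mul_right
  have i2 : Integrable fun c => pt ε T c * V :=
    (a1.integrable_of_hasCompactSupport a2).mul_const V
  simp only [mul_sub]
  rw [integral_sub i2 i1, integral_mul_const]
  nlinarith

lemma arith1 {μ κ KL KD V G c : ℝ} (hμ : 1 / 2 ≤ μ) (hκ : 2 ≤ κ) (hD : 0 ≤ KD) (hc : 2 ≤ c)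
    (h : V * μ - KD * ((μ * κ / 8 + μ * κ / 8 + μ) / κ ^ 6 + 1 / κ ^ 5) ≤ G) :
    V * μ + KL * μ / κ ^ 5 - (G - 1 / κ ^ 5) ≤ (KL + 4 * KD + c) * μ / κ ^ 5 := by
  have b1 : (μ * κ / 8 + μ * κ / 8 + μ) / κ ^ 6 ≤ 2 * (μ / κ ^ 5) := by
    rw [pow_succ, div_le_iff₀ (by positivity), mul_assoc, ← mul_assoc (μ / κ ^ 5),
      div_mul_cancel₀ _ (by positivity)]
    nlinarith
  have b2 : 1 / κ ^ 5 ≤ 2 * (μ / κ ^ 5) := by
    rw [← mul_div_assoc]; gcongr; linarith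
  have b3 : 0 ≤ μ / κ ^ 5 := by positivity
  rw [mul_div_assoc, mul_div_assoc]
  linarith [mul_le_mul_of_nonneg_left (add_le_add b1 b2) hD, mul_le_mul_of_nonneg_right hc b3]

lemma arith2 {m κ R δ : ℝ} (hm : 3 ≤ m) (hκ : 4 * m + 4 ≤ κ) (hR : 0 < R)
    (hδ : R * Real.exp (3 * κ) ≤ δ) (hδ1 : δ ≤ 1) :
    4 * (3 * m * R / Real.exp (-κ)) ≤ δ ∧ R / Real.exp (-κ) ≤ 1 ∧ 1 ≤ 4 * m / Real.exp (-κ) ∧
      3 * m * R / Real.exp (-κ) * Real.exp (κ + 4) < R * Real.exp (3 * κ) := by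
  have hE : 3 * m * Real.exp 4 < Real.exp κ := by
    calc 3 * m * Real.exp 4 < Real.exp (4 * m) * Real.exp 4 := by
          gcongr; linarith [Real.add_one_le_exp (4 * m)]
      _ ≤ _ := by rw [← Real.exp_add]; gcongr
  have hE4 : 5 ≤ Real.exp 4 := by linarith [Real.add_one_le_exp 4]
  have hE3 : Real.exp (3 * κ) = Real.exp κ * Real.exp κ * Real.exp κ := by
    rw [← Real.exp_add, ← Real.exp_add]; ring_nf
  simp only [Real.exp_neg, div_inv_eq_mul, Real.exp_add]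
  rw [hE3] at hδ ⊢
  have hE5 : 15 * m ≤ Real.exp κ := by nlinarith
  generalize Real.exp κ = E at *
  have b0 : 0 < E := by linarith
  have b1 : 0 < R * E := by positivity
  have b2 : 12 * m ≤ E * E := by nlinarith
  have b3 := mul_le_mul_of_nonneg_left b2 b1.le
  refine ⟨by linarith, by nlinarith, by nlinarith, ?_⟩
  linarith [mul_lt_mul_of_pos_left hE (mul_pos b1 b0)]

lemma arith3 {μ κ C K : ℝ} (hμ : 1 / 2 ≤ μ) (hK : 0 ≤ K) (h : 8 * (C + 3 * K) ≤ κ) :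
    C * μ + K * (μ + 1) ≤ μ * κ / 8 := by
  nlinarith [mul_le_mul_of_nonneg_left h (show 0 ≤ μ by linarith)]

end TShell

open TShell

theorem tshell {n : ℕ} (hn : 3 ≤ n) (h1 : PlaneStmt n) (h2 : WaveStmt n) (h3 : LShellStmt)
    (h4 : WindStmt) (h5 : GroundStmt) (h6 : AffStmt) (h7 : PtStmt) : TShellStmt n := by
  intro C0 hC0
  have hn' : (3 : ℝ) ≤ n := by exact_mod_cast hn
  obtain ⟨KW, hKW, h2⟩ := h2
  obtain ⟨KL, hKL, h3⟩ := h3 (3 * n) (by linarith)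
  obtain ⟨KD, hKD, h4⟩ := h4 (3 * n) (by linarith)
  refine ⟨KL + 4 * KD + (8 * (C0 + 3 * KW) + 4 * n + 4), by linarith,
    fun g x R μ κ δ ηN u1 u2 hg hg0 hκ hμ hR hT hδ hδ1 hN hN1 => ?_⟩
  obtain ⟨ψ, hψ, hψ1, hψ0, h3⟩ := h3 κ (by linarith)
  have hS := SS_pos hg.differentiable hg0 (cx x) hR
  set S0 := SS g (cx x) R
  have hκ2 : 2 ≤ κ := by linarith
  have hκ5 : 2 ≤ κ ^ 5 := hκ2.trans (le_self_pow₀ (by linarith) (by norm_num))
  have hκ6 : 2 * κ ≤ κ ^ 6 := by rw [pow_succ]; gcongr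
  have hδ5 : 0 < 1 / κ ^ 5 := by positivity
  have hη' : 0 < ηN / (3 * n) := by positivity
  have hη1 : ηN / (3 * n) ≤ 1 := by rw [div_le_one (by positivity)]; linarith
  obtain ⟨q1, q2, hl, q3⟩ := arith2 hn' (by linarith) hR hδ hδ1
  filter_upwards [self_mem_nhdsWithin, ev_le continuous_id
    (show (0 : ℝ) < S0 * Real.exp (-(2 * μ * κ)) by positivity)] with T hT0 hT1
  have hT0 : 0 < T := hT0
  filter_upwards [self_mem_nhdsWithin, ev_le continuous_id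
    (show (0 : ℝ) < S0 * Real.exp (-(μ * (κ ^ 6 + 1))) by positivity),
    ev_le (f := fun ε => ε ^ 2 * (S0 * Real.exp (μ * κ / 8 + 2 * μ))) (b := 1 / κ ^ 5 * T ^ 3)
      (by fun_prop) (by simpa using by positivity)] with ε hε0 hε1 hε2
  have hε0 : 0 < ε := hε0
  filter_upwards [self_mem_nhdsWithin, ev_le continuous_id hT0,
    ev_le continuous_id one_half_pos, h5 n g (‖x‖ + R + R * (4 * n / Real.exp (-κ)) + 1) T ε _ _ hg
      hT0 hε0 hη' hη1 hδ5] with η hη0 hη2 hη3 hη4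
  have hη0 : 0 < η := hη0
  have hη5 : η < 1 := lt_of_le_of_lt hη3 one_half_lt_one
  intro p θ y hθ hy hp hdt hv
  have hξ : ‖θ.2‖ ≤ 1 := mem_closedBall_zero_iff.1 hθ.2
  obtain ⟨M, ζ, z1, m1, m2, m3, m4, m5, m6, m7, m8, m9, -⟩ :=
    h1 θ.1 u1 u2 _ R hθ.1 hT.1 (Real.exp_pos _) hdt hR
  obtain ⟨A, hA, hAs⟩ := h2 g x (p + plr θ.1 y) R μ _ _ (2 * κ ^ 6) _ u1 u2 ζ θ.2 hg hT hR
    (by linarith) hp m2 m3 hl m4 hξ (by positivity) (by
      rw [Real.log_div (by positivity) (by positivity), Real.log_exp]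
      linarith [Real.log_le_self (show (0 : ℝ) ≤ 4 * n by positivity)])
  have hA' : Wav A S0 μ (μ * κ / 8) (2 * κ ^ 6) := hA.mono hS.le (by linarith)
    (arith3 hμ (by linarith) (by linarith)) le_rfl
  have e1 : ∀ (c : ℝ) (u : E2), aa g p θ.1 θ.2 c (c2 y + M u) = sym A u - c := fun c u => by
    rw [← hAs, aa, pz, pl_add, m1, pl_c2, cx_add, ← add_assoc, ← add_assoc]
  have e2 : sym A (z1, conj z1) = cx θ.2 ⬝ᵥ g (cx (p + plr θ.1 y + R • θ.1.1)) := by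
    rw [← hAs, pz, add_assoc, ← m1, m8, cx_add (p + plr θ.1 y), cx_smul]
    simp [pl]
  rw [← e2] at hv
  have g1 := hη4 (p + plr θ.1 y) ζ θ.2 (by
    have b1 : R * Real.exp (-(3 * κ ^ 6)) ≤ R :=
      mul_le_of_le_one_right hR.le (Real.exp_le_one_iff.2 (by linarith))
    have b2 : 0 ≤ R * (4 * n / Real.exp (-κ)) := by positivity
    linarith [norm_le_norm_add_norm_sub' (p + plr θ.1 y) x]) (by linarith [norm_nonneg x]) (by
    have b2 : 0 ≤ R * (4 * n / Real.exp (-κ)) := by positivity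
    linarith [norm_nonneg x])
  rw [show pz g (p + plr θ.1 y) ζ θ.2 = sym A from funext hAs] at g1
  have g2 := h4 A S0 μ _ (μ * κ / 8) _ (κ ^ 6) ε T (1 / κ ^ 5) z1 hA' hS hμ (by positivity)
    (by positivity) (by linarith) (by linarith) (by linarith) m9 hv hε0 hε1 hT0 hδ5.le hε2
  have g3 := (h7.2.1 (sym A) η _ hA'.sym_sm hη0 hη5 hη1).1
  have hVV := h7.2.2.2.2.2.2.2.2.2
  refine ⟨fun c => VV * μ + KL * μ / κ ^ 5 - Gr (fun u => sym A u - c) η (ηN / (3 * n)),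
    continuous_const.sub g3, (avg h7 hε0 hT0 (by positivity) g3 g1).trans ?_, fun c hc => ?_⟩
  · exact arith1 hμ hκ2 (by linarith) (by linarith) g2
  obtain ⟨l1, l2⟩ := h3 A S0 μ c η T _ z1 hA' hS hμ m9 hv hc hη0 hη2 hη5 hT1 hη1
  refine ⟨sub_nonneg.2 l1, Shell.mono (K := KL) ?_ (sub_nonneg.2 l1) (by linarith)⟩
  refine transfer h6 M (c2 y) (η' := ηN / (3 * n)) (hg.aa _ _ _ _ _) hη0 (by linarith) hψ hψ1 hψ0
    (fun v hv => ?_) (fun u hu => ?_)
    (fun u hu => ground_mem h7 (by positivity) m5 m7 hy q1 ?_ hη1 hu) ?_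
  · refine (m6 v).trans_lt ?_
    calc 6 * n / R * ‖v‖ ≤ 6 * n / R * (R / (18 * n)) := by gcongr
      _ = 3⁻¹ := by field_simp; norm_num
      _ < _ := by rw [Real.exp_neg]; gcongr; exact Real.exp_one_lt_three
  · refine (m5 u).trans_lt ?_
    exact lt_of_le_of_lt (by gcongr) q3
  · calc 3 * n * R / Real.exp (-κ) * (ηN / (3 * n)) = R / Real.exp (-κ) * ηN := by field_simp
      _ ≤ _ := mul_le_of_le_one_left hN.le q2
  · simp only [e1]
    exact l2

end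

end Pool.Agent.LinN2
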