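import Pool.Agent.Lib.MP_8465a2_an.N2.BasicB

/-!
Two wells: the order of vanishing propagates along the complex line through two points.
-/

namespace Pool.Agent.LinN2

open Metric Set Complex

namespace TW

/-- maximum principle on a disc with two holes, with a rational weight -/
theorem mp {φ : ℂ → ℂ} (hφ : Differentiable ℂ φ) {m k : ℕ} (hk : 0 < k) {R κ M : ℝ} (hκ : 0 < κ)
    (hM : 0 ≤ M) {t0 : ℂ} (h0 : ‖t0‖ ≤ R) (h1 : κ ≤ ‖t0‖) (h2 : κ ≤ ‖t0 - 1‖)
    (h : ∀ t : ℂ, (‖t‖ = R ∨ ‖t‖ = κ ∨ ‖t - 1‖ = κ) →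
      ‖φ t‖ ≤ M * (‖t‖ * ‖t - 1‖ / (‖t0‖ * ‖t0 - 1‖)) ^ ((m : ℝ) / k)) : ‖φ t0‖ ≤ M := by
  set U : Set ℂ := {t | ‖t‖ ≤ R ∧ κ ≤ ‖t‖ ∧ κ ≤ ‖t - 1‖} with hU
  have hn1 : Continuous fun t : ℂ => ‖t - 1‖ := by fun_prop
  have hc : IsClosed U := by
    exact (isClosed_le continuous_norm continuous_const).inter
      ((isClosed_le continuous_const continuous_norm).inter
        (isClosed_le continuous_const hn1))
  have hb : Bornology.IsBounded U :=
    (isBounded_closedBall (x := (0 : ℂ)) (r := R)).subset fun t ht => by simpa using ht.1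
  have ne0 : ∀ t ∈ U, t ≠ 0 ∧ t - 1 ≠ 0 := fun t ht =>
    ⟨norm_pos_iff.1 (hκ.trans_le ht.2.1), norm_pos_iff.1 (hκ.trans_le ht.2.2)⟩
  have ht0 : t0 ∈ U := ⟨h0, h1, h2⟩
  set F : ℂ → ℂ := fun t => φ t ^ k * (t0 * (t0 - 1) / (t * (t - 1))) ^ m with hF
  have hd : DiffContOnCl ℂ F U := by
    refine DifferentiableOn.diffContOnCl ?_
    rw [hc.closure_eq]
    intro t ht
    refine DifferentiableAt.differentiableWithinAt ?_
    have := mul_ne_zero (ne0 t ht).1 (ne0 t ht).2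
    have h3 : DifferentiableAt ℂ (fun t : ℂ => t * (t - 1)) t := by fun_prop
    exact ((hφ t).pow k).mul (((differentiableAt_const (t0 * (t0 - 1))).div h3 this).pow m)
  have hfr : ∀ t ∈ frontier U, ‖F t‖ ≤ M ^ k := by
    intro t ht
    have htU : t ∈ U := hc.frontier_subset ht
    have hcase : ‖t‖ = R ∨ ‖t‖ = κ ∨ ‖t - 1‖ = κ := by
      by_contra hn
      push Not at hn
      have ho : IsOpen {t : ℂ | ‖t‖ < R ∧ κ < ‖t‖ ∧ κ < ‖t - 1‖} :=
        (isOpen_lt continuous_norm continuous_const).inter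
          ((isOpen_lt continuous_const continuous_norm).inter
            (isOpen_lt continuous_const hn1))
      refine ht.2 (interior_maximal (fun z hz => ?_) ho ⟨lt_of_le_of_ne htU.1 hn.1,
        lt_of_le_of_ne htU.2.1 hn.2.1.symm, lt_of_le_of_ne htU.2.2 hn.2.2.symm⟩)
      exact ⟨hz.1.le, hz.2.1.le, hz.2.2.le⟩
    have p1 : 0 < ‖t‖ * ‖t - 1‖ := mul_pos (hκ.trans_le htU.2.1) (hκ.trans_le htU.2.2)
    have p2 : 0 < ‖t0‖ * ‖t0 - 1‖ := mul_pos (hκ.trans_le h1) (hκ.trans_le h2)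
    set w := ‖t‖ * ‖t - 1‖ / (‖t0‖ * ‖t0 - 1‖) with hw
    have hw0 : 0 < w := div_pos p1 p2
    have e1 : (w ^ ((m : ℝ) / k)) ^ k = w ^ m := by
      rw [← Real.rpow_natCast, ← Real.rpow_mul hw0.le, div_mul_cancel₀ _ (by positivity),
        Real.rpow_natCast]
    have e2 : ‖φ t‖ ^ k ≤ M ^ k * w ^ m := by
      rw [← e1, ← mul_pow]
      exact pow_le_pow_left₀ (norm_nonneg _) (h t hcase) k
    have e3 : ‖t0 * (t0 - 1) / (t * (t - 1))‖ = w⁻¹ := by
      rw [norm_div, norm_mul, norm_mul, hw, inv_div]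
    simp only [hF, norm_mul, norm_pow, e3]
    calc ‖φ t‖ ^ k * w⁻¹ ^ m ≤ M ^ k * w ^ m * w⁻¹ ^ m := by gcongr
      _ = M ^ k := by rw [mul_assoc, ← mul_pow, mul_inv_cancel₀ hw0.ne', one_pow, mul_one]
  have key := Complex.norm_le_of_forall_mem_frontier_norm_le hb hd hfr (subset_closure ht0)
  have e4 : F t0 = φ t0 ^ k := by
    simp only [hF]
    rw [div_self (mul_ne_zero (ne0 t0 ht0).1 (ne0 t0 ht0).2), one_pow, mul_one]
  rw [e4, norm_pow] at key
  exact le_of_pow_le_pow_left₀ hk.ne' hM key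

theorem exists_rat {μ B : ℝ} (hμ : 0 ≤ μ) (hB : 1 ≤ B) : ∃ m k : ℕ, 0 < k ∧
    μ * (1 - 1 / (5 * B)) ≤ (m : ℝ) / k ∧ (m : ℝ) / k ≤ μ * (1 - 1 / (9 * B)) := by
  rcases hμ.eq_or_lt with rfl | hμ
  · exact ⟨0, 1, one_pos, by simp, by simp⟩
  · have h1 : 1 / (9 * B) < 1 / (5 * B) := one_div_lt_one_div_of_lt (by positivity) (by linarith)
    have h2 : 1 / (5 * B) ≤ 1 := by rw [div_le_one (by positivity)]; linarith
    obtain ⟨q, hq1, hq2⟩ := exists_rat_btwn (show μ * (1 - 1 / (5 * B)) < μ * (1 - 1 / (9 * B)) by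
      nlinarith)
    have hq0 : (0 : ℝ) ≤ q := le_trans (mul_nonneg hμ.le (by linarith)) hq1.le
    have hq0' : 0 ≤ q.num := Rat.num_nonneg.2 (by exact_mod_cast hq0)
    have e : ((q.num.toNat : ℕ) : ℝ) / (q.den : ℕ) = q := by
      have : ((q.num.toNat : ℕ) : ℝ) = (q.num : ℝ) := by
        rw [← Int.cast_natCast, Int.toNat_of_nonneg hq0']
      rw [this, Rat.cast_def]
    exact ⟨q.num.toNat, q.den, q.den_pos, e ▸ hq1.le, e ▸ hq2.le⟩

/-- comparison of exponents -/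
theorem fin_le {x S a b c w α : ℝ} (hS : 0 < S) (hα : 0 ≤ α) (hx : x ≤ S * Real.exp a)
    (hw : Real.exp c ≤ w) (h : a ≤ b + α * c) : x ≤ S * Real.exp b * w ^ α := by
  have h1 : Real.exp (α * c) ≤ w ^ α := by
    rw [mul_comm, Real.exp_mul]
    exact Real.rpow_le_rpow (Real.exp_pos _).le hw hα
  calc x ≤ S * Real.exp a := hx
    _ ≤ S * (Real.exp b * Real.exp (α * c)) := by rw [← Real.exp_add]; gcongr
    _ ≤ S * (Real.exp b * w ^ α) := by gcongr
    _ = _ := by ring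

end TW

open TW in
theorem tw : TWStmt := by
  intro n g y0 y1 S0 r μ X B B' t0 hg hr hS hμ hB' hB u0 u1 hl hd0 ht0 s hs y' hy'
  obtain ⟨hs1, hs2⟩ := abs_le.1 hs
  have hBB : 36 * B' ≤ B := by nlinarith
  set v := y1 - y0 with hv
  set ℓ := ‖v‖ with hℓ
  set ρ := r * Real.exp s with hρ
  set η := y' - (y0 + t0 • v) with hη
  set a := ‖t0‖ with ha
  set b := ‖t0 - 1‖ with hb
  have hρ0 : 0 < ρ := by positivity
  have hℓ0 : 0 ≤ ℓ := norm_nonneg _
  have ha0 : 0 ≤ a := norm_nonneg _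
  have hb0 : 0 ≤ b := norm_nonneg _
  have e3 : (9 : ℝ) ≤ Real.exp 3 := by
    have h1 : Real.exp 3 = Real.exp 1 ^ 3 := by rw [← Real.exp_nat_mul]; norm_num
    have h2 : (2.5 : ℝ) ≤ Real.exp 1 := le_trans (by norm_num) Real.exp_one_gt_d9.le
    rw [h1]
    exact le_trans (by norm_num) (pow_le_pow_left₀ (by norm_num) h2 3)
  have near : ∀ y, UP g y S0 r μ X B → ‖y' - y‖ ≤ 9 * ρ →
      ‖g y'‖ ≤ S0 * Real.exp (X + 3 * μ + μ * s) := by
    intro y hy h
    have := hy (s + 3) (abs_le.2 ⟨by linarith, by linarith⟩) y' (by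
      rw [Real.exp_add, ← mul_assoc, ← hρ]
      linarith [mul_le_mul_of_nonneg_left e3 hρ0.le])
    rwa [show X + μ * (s + 3) = X + 3 * μ + μ * s by ring] at this
  by_cases c0 : a * ℓ ≤ 8 * ρ
  · refine near y0 u0 ?_
    have : y' - y0 = η + t0 • v := by rw [hη]; abel
    rw [this]
    refine (norm_add_le _ _).trans ?_
    rw [norm_smul]
    linarith
  by_cases c1 : b * ℓ ≤ 8 * ρ
  · refine near y1 u1 ?_
    have : y' - y1 = η + (t0 - 1) • v := by rw [hη, hv, sub_smul, one_smul]; abel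
    rw [this]
    refine (norm_add_le _ _).trans ?_
    rw [norm_smul]
    linarith
  push Not at c0 c1
  have hℓp : 0 < ℓ := by
    rcases hℓ0.eq_or_lt with h | h
    · rw [← h] at c0; linarith
    · exact h
  have hap : 0 < a := by
    rcases ha0.eq_or_lt with h | h
    · rw [← h] at c0; linarith
    · exact h
  have hbp : 0 < b := by
    rcases hb0.eq_or_lt with h | h
    · rw [← h] at c1; linarith
    · exact h
  have hab : 1 ≤ a + b := by
    have := norm_sub_le t0 (t0 - 1)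
    rw [sub_sub_cancel, norm_one] at this
    exact this
  have hba : b ≤ a + 1 := by
    have := norm_sub_le t0 1
    rw [norm_one] at this
    exact this
  have hE : 2 ≤ Real.exp B' := by have := Real.add_one_le_exp B'; linarith
  set E := Real.exp B' with hEd
  have hE0 : 0 < E := by linarith
  have hd1 : b * ℓ ≤ 2 * (r * E) := by linarith [mul_le_mul_of_nonneg_right hba hℓ0]
  have hρE : r ≤ ρ * E := by
    rw [hρ, mul_assoc, hEd, ← Real.exp_add]
    exact le_mul_of_one_le_right hr.le (Real.one_le_exp (by linarith))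
  have ht0' : a ≤ E ^ 2 := by
    rw [hEd, ← Real.exp_nat_mul]; exact_mod_cast ht0
  obtain ⟨m, k, hk, hα1, hα2⟩ := exists_rat hμ hB'
  set α : ℝ := (m : ℝ) / k with hα
  have hα0 : 0 ≤ α := by positivity
  have hαμ : α ≤ μ := by
    have : 0 ≤ μ * (1 / (9 * B')) := by positivity
    linarith
  set R := a * b * ℓ / ρ with hR
  have hRρ : R * ρ = a * b * ℓ := by rw [hR]; field_simp
  have hRa : 8 * a ≤ R := by
    rw [hR, le_div_iff₀ hρ0]; linarith [mul_le_mul_of_nonneg_left c1.le ha0]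
  have hRb : 8 * b ≤ R := by
    rw [hR, le_div_iff₀ hρ0]; linarith [mul_le_mul_of_nonneg_left c0.le hb0]
  have hR4 : 4 ≤ R := by linarith
  set κ := r * Real.exp (-B) / (2 * ℓ) with hκ
  have hκ0 : 0 < κ := by positivity
  have hκℓ : κ * (2 * ℓ) = r * Real.exp (-B) := by rw [hκ]; field_simp
  have hE3 : Real.exp (-B) * E ^ 3 ≤ 1 := by
    rw [hEd, ← Real.exp_nat_mul, ← Real.exp_add]
    exact Real.exp_le_one_iff.2 (by push_cast; linarith)
  have hxB : 0 < Real.exp (-B) := Real.exp_pos _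
  have hsm : r * Real.exp (-B) * E ^ 2 ≤ ρ := by
    have h1 : r * (Real.exp (-B) * E ^ 3) ≤ ρ * E :=
      (mul_le_of_le_one_right hr.le hE3).trans hρE
    have h2 : r * Real.exp (-B) * E ^ 2 * E ≤ ρ * E := by linarith
    exact le_of_mul_le_mul_right h2 hE0
  have hE2 : 4 ≤ E ^ 2 := le_trans (by norm_num) (pow_le_pow_left₀ (by norm_num) hE 2)
  have hsm1 : r * Real.exp (-B) ≤ ρ := by
    have : 0 < r * Real.exp (-B) := by positivity
    linarith [mul_le_mul_of_nonneg_left hE2 this.le]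
  have hκa : κ ≤ a := by rw [hκ, div_le_iff₀ (by positivity)]; linarith
  have hκb : κ ≤ b := by rw [hκ, div_le_iff₀ (by positivity)]; linarith
  have hκh : κ ≤ 1 / 2 := by
    rw [hκ, div_le_iff₀ (by positivity)]
    have h1 : r * Real.exp (-B) * E ^ 2 ≤ ℓ * E ^ 2 := by
      linarith [mul_le_mul_of_nonneg_right ht0' hℓ0]
    have := le_of_mul_le_mul_right h1 (by positivity)
    linarith
  have hρab : 4 * ρ ≤ a * b * ℓ := by linarith [mul_le_mul_of_nonneg_right hR4 hρ0.le]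
  have hηρ : ‖η‖ ≤ ρ := hy'
  have t0ne : t0 * (t0 - 1) ≠ 0 := mul_ne_zero (norm_pos_iff.1 hap) (norm_pos_iff.1 hbp)
  set γ : ℂ → Cn n := fun t => y0 + t • v + (t * (t - 1) / (t0 * (t0 - 1))) • η with hγ
  have hγd : Differentiable ℂ γ := by
    simp only [hγ, div_eq_mul_inv]; fun_prop
  have hγ0 : γ t0 = y' := by
    simp only [hγ]; rw [div_self t0ne, one_smul, hη]; abel
  have nq : ∀ t : ℂ, ‖(t * (t - 1) / (t0 * (t0 - 1))) • η‖ ≤ ‖t‖ * ‖t - 1‖ / (a * b) * ρ := by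
    intro t
    rw [norm_smul, norm_div, norm_mul, norm_mul]
    gcongr
  have g0 : ∀ t : ℂ, ‖γ t - y0‖ ≤ ‖t‖ * ℓ + ‖t‖ * ‖t - 1‖ / (a * b) * ρ := by
    intro t
    have : γ t - y0 = t • v + (t * (t - 1) / (t0 * (t0 - 1))) • η := by simp only [hγ]; abel
    rw [this]
    refine (norm_add_le _ _).trans ?_
    rw [norm_smul]
    linarith [nq t]
  have g1 : ∀ t : ℂ, ‖γ t - y1‖ ≤ ‖t - 1‖ * ℓ + ‖t‖ * ‖t - 1‖ / (a * b) * ρ := by
    intro t
    have : γ t - y1 = (t - 1) • v + (t * (t - 1) / (t0 * (t0 - 1))) • η := by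
      simp only [hγ, hv]; rw [sub_smul, one_smul]; abel
    rw [this]
    refine (norm_add_le _ _).trans ?_
    rw [norm_smul]
    linarith [nq t]
  have habp : 0 < a * b := mul_pos hap hbp
  have small : ∀ (y z : Cn n) (p q : ℝ), UP g y S0 r μ X B → 1 - κ ≤ q → q ≤ 1 + κ → p = κ * q →
      ‖z - y‖ ≤ κ * ℓ + p / (a * b) * ρ →
      ‖g z‖ ≤ S0 * Real.exp (X + 3 * μ + μ * s) * (p / (a * b)) ^ α := by
    intro y z p q hy q1 q2 hp hz
    have h1 : p / (a * b) * ρ ≤ κ * ℓ := by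
      rw [div_mul_eq_mul_div, div_le_iff₀ habp, hp]
      have : q * ρ ≤ ℓ * (a * b) := by
        linarith [mul_le_mul_of_nonneg_right (show q ≤ 4 by linarith) hρ0.le]
      linarith [mul_le_mul_of_nonneg_left this hκ0.le]
    have h2 := hy (-B) (by rw [abs_neg, abs_of_nonneg (by linarith)]) z (by linarith)
    refine fin_le (c := -(B + 3 * B' + 3)) hS hα0 h2 ?_ ?_
    · rw [le_div_iff₀ habp, hp]
      have h3 : Real.exp (-(B + 3 * B' + 3)) * (E ^ 3 * Real.exp 3) = Real.exp (-B) := by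
        rw [hEd, ← Real.exp_nat_mul, ← Real.exp_add, ← Real.exp_add]; congr 1; push_cast; ring
      set x := Real.exp (-(B + 3 * B' + 3)) with hx
      have hx0 : 0 < x := Real.exp_pos _
      have h4 : a * (b * ℓ) ≤ E ^ 2 * (2 * (r * E)) := by gcongr
      have h5 : x * (a * b) * (4 * ℓ) ≤ κ * (2 * ℓ) := by
        rw [hκℓ, ← h3]
        have h6 : x * (4 * (a * (b * ℓ))) ≤ x * (4 * (E ^ 2 * (2 * (r * E)))) := by gcongr
        have h7 : x * (r * E ^ 3) * 8 ≤ x * (r * E ^ 3) * Real.exp 3 := by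
          gcongr; linarith
        linarith
      have h8 : x * (a * b) * 2 * (2 * ℓ) ≤ κ * (2 * ℓ) := by linarith
      have h9 := le_of_mul_le_mul_right h8 (by positivity)
      linarith [mul_le_mul_of_nonneg_left (show 1 / 2 ≤ q by linarith) hκ0.le]
    · have h3 : 4 * B' ≤ 1 / (9 * B') * (B + 3 * B' + 3) := by
        rw [div_mul_eq_mul_div, le_div_iff₀ (by positivity)]; linarith
      have h4 : α * (B + 3 * B' + 3) ≤ μ * (1 - 1 / (9 * B')) * (B + 3 * B' + 3) :=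
        mul_le_mul_of_nonneg_right hα2 (by linarith)
      have h5 : μ * (4 * B') ≤ μ * (1 / (9 * B') * (B + 3 * B' + 3)) := by gcongr
      have h6 : μ * (-B') ≤ μ * s := by gcongr
      linarith
  rw [← hγ0]
  have hM : 0 ≤ S0 * Real.exp (X + 3 * μ + μ * s) := by positivity
  refine (pi_norm_le_iff_of_nonneg hM).2 fun j => ?_
  refine mp (φ := fun t => g (γ t) j) (m := m) (k := k) (R := R)
    (differentiable_pi.1 (hg.comp hγd) j) hk hκ0 hM (by linarith) hκa hκb fun t ht => ?_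
  refine (norm_le_pi_norm (g (γ t)) j).trans ?_
  have n1 : ‖t - 1‖ ≤ ‖t‖ + 1 := by simpa using norm_sub_le t 1
  have n2 : ‖t‖ ≤ ‖t - 1‖ + 1 := by simpa using norm_add_le (t - 1) 1
  have n3 : 1 ≤ ‖t‖ + ‖t - 1‖ := by simpa using norm_sub_le t (t - 1)
  rcases ht with ht | ht | ht
  · set Q := R * ℓ / ρ with hQ
    have hQρ : Q * ρ = R * ℓ := by rw [hQ]; field_simp
    have hQ2 : Q * ρ ^ 2 = a * ℓ * (b * ℓ) := by
      rw [pow_two, ← mul_assoc, hQρ, mul_right_comm, hRρ]; ring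
    have hQ1 : 1 ≤ Q := by
      have h1 : 8 * ρ * (8 * ρ) ≤ a * ℓ * (b * ℓ) := by gcongr
      have h2 : 1 * ρ ^ 2 ≤ Q * ρ ^ 2 := by linarith [sq_nonneg ρ]
      exact le_of_mul_le_mul_right h2 (by positivity)
    have hQ5 : Q ≤ E ^ 5 := by
      have h1 : a * ℓ * (b * ℓ) ≤ r * E * (2 * (r * E)) := by gcongr
      have h2 : r * E * (2 * (r * E)) ≤ ρ * E * E * (E * (ρ * E * E)) := by gcongr
      have h3 : Q * ρ ^ 2 ≤ E ^ 5 * ρ ^ 2 := by linarith
      exact le_of_mul_le_mul_right h3 (by positivity)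
    set L := Real.log Q with hL
    have hQL : Real.exp L = Q := Real.exp_log (by linarith)
    have hL0 : 0 ≤ L := Real.log_nonneg hQ1
    have hL5 : L ≤ 5 * B' := by
      rw [← Real.exp_le_exp, hQL]
      refine hQ5.trans_eq ?_
      rw [hEd, ← Real.exp_nat_mul]; norm_num
    have h1 : ‖γ t - y0‖ ≤ r * Real.exp (s + L + 3 / 2) := by
      refine (g0 t).trans ?_
      have h0 : r * Real.exp (s + L + 3 / 2) = R * ℓ * Real.exp (3 / 2) := by
        rw [Real.exp_add, Real.exp_add, hQL, ← hQρ, hρ]; ring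
      rw [h0, ht]
      have h2 : R * ‖t - 1‖ / (a * b) * ρ = ‖t - 1‖ * ℓ := by
        rw [show R * ‖t - 1‖ / (a * b) * ρ = R * ρ * ‖t - 1‖ / (a * b) by ring, hRρ]; field_simp
      have h3 : 3 / 2 + 1 ≤ Real.exp (3 / 2) := Real.add_one_le_exp _
      have h4 : ‖t - 1‖ * ℓ ≤ (R + R / 4) * ℓ := by gcongr; linarith
      have h5 : R * ℓ * (3 / 2 + 1) ≤ R * ℓ * Real.exp (3 / 2) := by gcongr
      have h6 : 0 ≤ R * ℓ := by positivity
      rw [h2]
      linarith
    have h2 := u0 (s + L + 3 / 2) (abs_le.2 ⟨by linarith, by linarith⟩) _ h1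
    refine fin_le (c := L - 1 / 2) hS hα0 h2 ?_ ?_
    · rw [le_div_iff₀ habp, Real.exp_sub, hQL, ht, div_mul_eq_mul_div,
        div_le_iff₀ (Real.exp_pos _)]
      have h3 : 1 / 2 + 1 ≤ Real.exp (1 / 2) := Real.add_one_le_exp _
      have h4 : Q * (a * b) = R * R := by
        have : Q * (a * b) * ρ = R * R * ρ := by
          rw [mul_right_comm, hQρ, mul_assoc R R, hRρ]; ring
        exact mul_right_cancel₀ hρ0.ne' this
      have h5 : R * (3 / 4 * R) * (1 / 2 + 1) ≤ R * ‖t - 1‖ * Real.exp (1 / 2) := by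
        gcongr; linarith
      rw [h4]
      linarith [mul_self_nonneg R]
    · have h3 : 1 / (5 * B') * L ≤ 1 := by
        rw [div_mul_eq_mul_div, div_le_one (by positivity)]; linarith
      have h4 : μ * (1 - 1 / (5 * B')) * L ≤ α * L := by gcongr
      have h5 : μ * (1 / (5 * B') * L) ≤ μ * 1 := by gcongr
      linarith
  · refine small y0 (γ t) _ ‖t - 1‖ u0 (by linarith) (by linarith) (by rw [ht]) ?_
    have := g0 t
    rw [ht] at this ⊢
    exact this
  · refine small y1 (γ t) _ ‖t‖ u1 (by linarith) (by linarith) (by rw [ht, mul_comm]) ?_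
    have := g1 t
    rw [ht] at this ⊢
    exact this

end Pool.Agent.LinN2
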