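import Pool.Agent.Lib.MP_8465a2_an.N2.BasicB
import Pool.Agent.Lib.MP_8465a2_an.N2.Stmts2

/-!
Approximation of the gradient of a harmonic function by admissible polynomial maps.
-/

namespace Pool.Agent.LinN2

open Finset MvPolynomial Pool.Agent.LinCrit Pool.Agent.Alesker
open scoped Nat

noncomputable section

variable {n : ℕ}

namespace Taylor

/-- complex polynomial of the `k`-th derivative at the origin -/
def TP : ℕ → (Rn n → ℝ) → MvPolynomial (Fin n) ℂ
  | 0, v => C ((v 0 : ℝ) : ℂ)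
  | k + 1, v => ∑ i, X i * TP k (pd i v)

lemma eval_cx (k : ℕ) (v : Rn n → ℝ) (h : Rn n) :
    eval (cx h) (TP k v) = ((TL k v 0 h : ℝ) : ℂ) := by
  induction k generalizing v with
  | zero => simp [TP, TL]
  | succ k ih => simp [TP, TL, ih]

lemma eval_star (k : ℕ) (v : Rn n → ℝ) (y : Cn n) :
    eval (star y) (TP k v) = star (eval y (TP k v)) := by
  induction k generalizing v with
  | zero => simp [TP]
  | succ k ih => simp [TP, ih]

lemma pderiv_TP (k : ℕ) {v : Rn n → ℝ} (hv : Sm v) (l : Fin n) :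
    pderiv l (TP (k + 1) v) = C ((k : ℂ) + 1) * TP k (pd l v) := by
  have e : ∀ (k : ℕ) (v : Rn n → ℝ), pderiv l (TP (k + 1) v) =
      TP k (pd l v) + ∑ i, X i * pderiv l (TP k (pd i v)) := by
    intro k v
    simp only [TP, map_sum, pderiv_mul, sum_add_distrib]
    congr 1
    rw [sum_eq_single l (fun i _ hi => by rw [pderiv_X_of_ne hi, zero_mul]) (by simp),
      pderiv_X_self, one_mul]
  induction k generalizing v with
  | zero =>
    rw [e]
    simp [TP]
  | succ k ih =>
    rw [e]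
    simp_rw [ih (hv.pd _), show ∀ i, pd l (pd i v) = pd i (pd l v) from
      fun i => funext (pd_comm hv l i), mul_left_comm _ (C ((k : ℂ) + 1)), ← mul_sum]
    change _ + C ((k : ℂ) + 1) * TP (k + 1) (pd l v) = _
    push_cast
    simp only [map_add, map_one]
    ring

lemma harm (k : ℕ) {v : Rn n → ℝ} (hv : Sm v) {r : ℝ} (hr : 0 < r)
    (h : ∀ z, ‖z - 0‖ ≤ r → lap v z = 0) : ∑ l, TP k (pd l (pd l v)) = 0 := by
  induction k generalizing v r with
  | zero =>
    have := h 0 (by simpa using hr.le)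
    simp only [TP]
    rw [← map_sum, ← Complex.ofReal_sum, show ∑ l, pd l (pd l v) 0 = 0 from this]
    simp
  | succ k ih =>
    simp only [TP]
    rw [sum_comm]
    refine sum_eq_zero fun i _ => ?_
    rw [← mul_sum]
    have h2 := ih (hv.pd i) (half_pos hr) (lap_pd hv (half_lt_self hr) h i)
    have e : ∀ l, pd i (pd l (pd l v)) = pd l (pd l (pd i v)) := fun l => by
      rw [show pd l (pd i v) = pd i (pd l v) from funext (pd_comm hv l i)]
      exact funext (pd_comm (hv.pd l) i l)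
    simp_rw [e]
    rw [h2, mul_zero]

lemma TP_bound (k : ℕ) {v : Rn n → ℝ} {t M : ℝ} (ht : 0 < t)
    (hv : Har v 0 (k * t) M) (y : Cn n) :
    ‖eval y (TP k v)‖ ≤ (Cg n * n * ‖y‖ / t) ^ k * M := by
  induction k generalizing v M with
  | zero => simpa [TP] using hv.bd 0 (by simp)
  | succ k ih =>
    have h1 : ∀ i, ‖y i * eval y (TP k (pd i v))‖ ≤
        ‖y‖ * ((Cg n * n * ‖y‖ / t) ^ k * (Cg n / t * M)) := fun i => by
      rw [norm_mul]
      refine mul_le_mul (norm_le_pi_norm y i) (ih (Har.pd' ?_ ht i)) (norm_nonneg _)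
        (norm_nonneg _)
      rwa [Nat.cast_succ, add_mul, one_mul] at hv
    simp only [TP, map_sum, map_mul, eval_X]
    refine ((norm_sum_le _ _).trans (sum_le_sum fun i _ => h1 i)).trans (le_of_eq ?_)
    simp only [sum_const, card_univ, Fintype.card_fin, nsmul_eq_mul]
    ring

lemma TP_le (k : ℕ) {v : Rn n → ℝ} (hv : Har v 0 (R0 n) 1) (y : Cn n) :
    ‖eval y (TP k v)‖ ≤ (‖y‖ / 128) ^ k * k ! := by
  have hC := Cg_ge n
  have hR : 0 < R0 n - 8 := by linarith [R0_ge n]
  rcases k with _ | d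
  · simpa [TP] using hv.bd 0 (by simp; linarith)
  have h1 := TP_bound (d + 1) (v := v) (M := 1) (t := (R0 n - 8) / (d + 1 : ℕ)) (by positivity)
    (by rw [mul_div_cancel₀ _ (by positivity)]; exact hv.mono (by simp)) y
  refine h1.trans ?_
  have h2 : Cg n * n * ‖y‖ / ((R0 n - 8) / (d + 1 : ℕ)) ≤ ‖y‖ / 128 * ((d + 1 : ℕ) / 6) := by
    rw [div_div_eq_mul_div, div_le_iff₀ hR]
    have : R0 n - 8 = 768 * Cg n * (n + 1) := by unfold R0; ring
    rw [this]
    have : 0 ≤ Cg n * ‖y‖ * (d + 1 : ℕ) := by positivity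
    nlinarith
  have h3 : (((d + 1 : ℕ) : ℝ) / 6) ^ (d + 1) ≤ (d + 1)! := by
    have h4 := Real.pow_div_factorial_le_exp ((d + 1 : ℕ) : ℝ) (by positivity) (d + 1)
    rw [div_le_iff₀ (by positivity), ← Real.exp_one_pow] at h4
    have h5 : Real.exp 1 ^ (d + 1) ≤ 6 ^ (d + 1) :=
      pow_le_pow_left₀ (by positivity) (Real.exp_one_lt_d9.le.trans (by norm_num)) _
    rw [div_pow, div_le_iff₀ (by positivity)]
    refine h4.trans ?_
    rw [mul_comm]
    gcongr
  calc _ ≤ (‖y‖ / 128 * ((d + 1 : ℕ) / 6)) ^ (d + 1) * 1 := by gcongr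
    _ ≤ _ := by rw [mul_pow, mul_one]; gcongr

lemma diff_eval (p : MvPolynomial (Fin n) ℂ) : Differentiable ℂ fun y : Cn n => eval y p :=
  ((AnalyticOnNhd.eval_mvPolynomial p).contDiff (n := 1)).differentiable one_ne_zero

lemma fderiv_eval (p : MvPolynomial (Fin n) ℂ) (y a : Cn n) :
    fderiv ℂ (fun y : Cn n => eval y p) y a = ∑ l, a l * eval y (pderiv l p) := by
  induction p using MvPolynomial.induction_on with
  | C c => simp
  | add p q hp hq =>
    simp only [map_add]
    rw [fderiv_fun_add (diff_eval p y) (diff_eval q y), add_apply, hp, hq]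
    simp [mul_add, sum_add_distrib]
  | mul_X p i hp =>
    simp only [map_mul, eval_X, pderiv_mul, map_add]
    have hi : HasFDerivAt (fun y : Cn n => y i)
        (ContinuousLinearMap.proj i : Cn n →L[ℂ] ℂ) y :=
      (ContinuousLinearMap.proj i : Cn n →L[ℂ] ℂ).hasFDerivAt
    rw [fderiv_fun_mul (diff_eval p y) hi.differentiableAt, hi.fderiv]
    simp only [add_apply, smul_apply, hp,
      ContinuousLinearMap.proj_apply, smul_eq_mul, mul_add, sum_add_distrib]
    rw [add_comm]
    congr 1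
    · rw [mul_sum]
      exact sum_congr rfl fun l _ => by ring
    · rw [sum_eq_single i (fun l _ hl => by rw [pderiv_X_of_ne hl.symm]; simp) (by simp),
        pderiv_X_self]
      simp [mul_comm]

/-- the Taylor polynomial of one fifth of the `k`-th component of the gradient -/
def GP (d : ℕ) (w : Rn n → ℝ) (k : Fin n) : MvPolynomial (Fin n) ℂ :=
  ∑ j ∈ range (d + 1), C ((5 * (j ! : ℂ))⁻¹) * TP j (pd k w)

lemma pderiv_GP (d : ℕ) {w : Rn n → ℝ} (hw : Sm w) (k l : Fin n) :
    pderiv l (GP d w k) =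
      ∑ j ∈ range d, C ((5 * ((j + 1)! : ℂ))⁻¹ * ((j : ℂ) + 1)) * TP j (pd l (pd k w)) := by
  rw [GP, map_sum, sum_range_succ']
  simp only [pderiv_C_mul, pderiv_TP _ (hw.pd k)]
  simp [TP, mul_assoc]

end Taylor

open Taylor in
theorem taylor (hn : 3 ≤ n) : TaylorStmt n := by
  intro w δ hw hδ
  have _ := hn
  have hR := R0_pos n
  obtain ⟨d, hd⟩ := exists_pow_lt_of_lt_one hδ (show (1 / 128 : ℝ) < 1 by norm_num)
  have hk : ∀ k, Har (pd k w) 0 (R0 n) 1 := fun k =>
    Har.pd (hw.mono (y := 0) (S := R0 n + R0 n) (by simp; linarith)) k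
  have hf : ∀ y a : Cn n, ∀ k, fderiv ℂ (fun (y : Cn n) k => eval y (GP d w k)) y a k =
      ∑ l, a l * eval y (pderiv l (GP d w k)) := by
    intro y a k
    rw [fderiv_pi fun k => diff_eval (GP d w k) y, ContinuousLinearMap.pi_apply, fderiv_eval]
  refine ⟨fun y k => eval y (GP d w k), ⟨fun k => ⟨_, fun _ => rfl⟩, fun y => ?_,
    fun y a b => ?_, fun y => ?_⟩, fun y hy => ?_, fun x hx k => ?_⟩
  · ext k
    simp [GP, eval_star]
  · simp only [dotProduct, hf, sum_mul]
    rw [sum_comm]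
    refine sum_congr rfl fun l _ => sum_congr rfl fun k _ => ?_
    rw [pderiv_GP d hw.sm k l, pderiv_GP d hw.sm l k,
      show pd l (pd k w) = pd k (pd l w) from funext (pd_comm hw.sm l k)]
    ring
  · have e : ∀ l, ∑ l', (Pi.single l 1 : Cn n) l' * eval y (pderiv l' (GP d w l)) =
        eval y (pderiv l (GP d w l)) := fun l => by
      rw [sum_eq_single l (fun l' _ h => by rw [Pi.single_eq_of_ne h, zero_mul]) (by simp)]
      simp
    simp only [hf, e]
    rw [← map_sum]
    simp only [pderiv_GP d hw.sm]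
    rw [sum_comm, sum_eq_zero fun j _ => by
      rw [← mul_sum, harm j hw.sm (by linarith) hw.har, mul_zero], map_zero]
  · refine (pi_norm_le_iff_of_nonneg zero_le_one).2 fun k => ?_
    have h1 : ∀ j, ‖eval y (C ((5 * (j ! : ℂ))⁻¹) * TP j (pd k w))‖ ≤ (25 / 32 : ℝ) ^ j / 5 := by
      intro j
      have h2 := TP_le j (hk k) y
      have h3 : (‖y‖ / 128) ^ j ≤ (25 / 32 : ℝ) ^ j :=
        pow_le_pow_left₀ (by positivity) (by linarith) j
      have h4 : (0 : ℝ) < j ! := by positivity
      rw [map_mul, eval_C, norm_mul, norm_inv, norm_mul, Complex.norm_natCast,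
        show ‖(5 : ℂ)‖ = 5 by simp, inv_mul_le_iff₀ (by positivity)]
      calc _ ≤ (25 / 32 : ℝ) ^ j * j ! := h2.trans (by gcongr)
        _ = _ := by ring
    beta_reduce
    rw [GP, map_sum]
    refine (norm_sum_le _ _).trans ((sum_le_sum fun j _ => h1 j).trans ?_)
    rw [← sum_div, geom_sum_eq (by norm_num)]
    have : (0 : ℝ) ≤ (25 / 32) ^ (d + 1) := by positivity
    rw [div_le_one (by norm_num), div_le_iff_of_neg (by norm_num)]
    linarith
  · have h1 := taylor_le d (hk k) (h := x) (by linarith)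
    rw [zero_add, mul_one] at h1
    have e : eval (cx x) (GP d w k) =
        (((∑ j ∈ range (d + 1), co j (pd k w) 0 x) / 5 : ℝ) : ℂ) := by
      simp only [GP, map_sum, map_mul, eval_C, eval_cx, co, sum_div]
      push_cast
      exact sum_congr rfl fun j _ => by ring
    beta_reduce
    rw [e, ← Complex.ofReal_sub, Complex.norm_real, Real.norm_eq_abs, ← sub_div, abs_div,
      abs_sub_comm]
    have h2 : (‖x‖ / 128) ^ (d + 1) ≤ (1 / 128 : ℝ) ^ d :=
      calc _ ≤ (1 / 128 : ℝ) ^ (d + 1) := pow_le_pow_left₀ (by positivity) (by linarith) _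
        _ ≤ _ := pow_le_pow_of_le_one (by norm_num) (by norm_num) (by omega)
    rw [show |(5 : ℝ)| = 5 by norm_num, div_le_iff₀ (by norm_num)]
    linarith

end

end Pool.Agent.LinN2
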