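import Pool.Agent.Lib.MP_8465a2_an.N2.BasicB

/-!
Upper bound for the total mass of the local model (MP_8465a2_an).
-/

namespace Pool.Agent.LinN2

open MeasureTheory Metric Set Filter Topology Complex
open scoped ENNReal ComplexConjugate

noncomputable section

namespace TotL

/-- the field tangent to the fibres of `q = z w` -/
def TT (u : E2) : E2 := (u.1, -u.2)

/-- the same field as a linear map -/
def TL : E2 →L[ℂ] E2 :=
  (ContinuousLinearMap.fst ℂ ℂ ℂ).prod (-ContinuousLinearMap.snd ℂ ℂ ℂ)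

/-- a weight depending on `q` and the fibre coordinate -/
def GG (k : ℝ → ℝ) (u : E2) : ℝ := bw (u.1 * u.2) * k (sc u)

lemma TL_apply (u : E2) : TL u = TT u := by simp [TL, TT]

lemma TT_eq : TT = TL := funext fun u => (TL_apply u).symm

lemma bw_zero : bw 0 = 0 := by simp [bw]

lemma contDiff_GG (h5 : PtStmt) {k : ℝ → ℝ} (hk : ContDiff ℝ 1 k) : ContDiff ℝ 1 (GG k) := by
  obtain ⟨-, -, -, -, -, -, -, -, hb, -⟩ := h5
  refine contDiff_iff_contDiffAt.2 fun u => ?_
  by_cases hq : u.1 * u.2 = 0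
  · have hc : Continuous fun v : E2 => ‖v.1 * v.2‖ := by fun_prop
    have hev : ∀ᶠ v : E2 in 𝓝 u, ‖v.1 * v.2‖ < Real.exp (-2) :=
      hc.continuousAt.eventually_lt continuousAt_const (by simp [hq, Real.exp_pos])
    refine (contDiffAt_const (c := (0 : ℝ))).congr_of_eventuallyEq (hev.mono fun v hv => ?_)
    have : bw (v.1 * v.2) = 0 := by
      by_contra h
      exact absurd (hb _ h).1 (not_le.2 hv)
    simp [GG, this]
  · have h1 : u.1 ≠ 0 := left_ne_zero_of_mul hq
    have h2 : u.2 ≠ 0 := right_ne_zero_of_mul hq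
    have n1 : ContDiffAt ℝ 1 (fun v : E2 => ‖v.1‖) u := contDiffAt_fst.norm ℝ h1
    have n2 : ContDiffAt ℝ 1 (fun v : E2 => ‖v.2‖) u := contDiffAt_snd.norm ℝ h2
    have nq : ContDiffAt ℝ 1 (fun v : E2 => ‖v.1 * v.2‖) u :=
      (contDiffAt_fst.mul contDiffAt_snd).norm ℝ hq
    have lq : ContDiffAt ℝ 1 (fun v : E2 => Real.log ‖v.1 * v.2‖) u :=
      nq.log (norm_ne_zero_iff.2 hq)
    have hs : ContDiffAt ℝ 1 sc u :=
      ((n1.log (norm_ne_zero_iff.2 h1)).sub (n2.log (norm_ne_zero_iff.2 h2))).div_const 2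
    have st : ContDiff ℝ 1 Real.smoothTransition := Real.smoothTransition.contDiff (n := 1)
    have hbb : ContDiff ℝ 1 bb :=
      (st.comp (contDiff_const.sub contDiff_id)).mul (st.comp (contDiff_const.add contDiff_id))
    exact ((hbb.contDiffAt.comp u lq).div (nq.pow 2)
      (pow_ne_zero 2 (norm_ne_zero_iff.2 hq))).mul (hk.contDiffAt.comp u hs)

lemma fderiv_GG (h5 : PtStmt) {k : ℝ → ℝ} (hk : ContDiff ℝ 1 k) (u : E2) (z : ℂ) :
    fderiv ℝ (GG k) u (z • TT u) = z.re * GG (deriv k) u := by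
  let γ : ℝ → E2 := fun t => (Complex.exp (t * z) * u.1, Complex.exp (-(t * z)) * u.2)
  have e1 : HasDerivAt (fun t : ℝ => (t : ℂ) * z) z 0 := by
    simpa using (Complex.ofRealCLM.hasDerivAt (x := 0)).mul_const z
  have hγ : HasDerivAt γ (z • TT u) 0 := by
    have := (e1.cexp.mul_const u.1).prodMk (e1.neg.cexp.mul_const u.2)
    simpa [TT] using this
  have g0 : γ 0 = u := by simp [γ]
  have hd : DifferentiableAt ℝ (GG k) (γ 0) :=
    (contDiff_GG h5 hk).differentiable one_ne_zero _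
  have c1 := hd.hasFDerivAt.comp_hasDerivAt (0 : ℝ) hγ
  rw [g0] at c1
  have hq : ∀ t, (γ t).1 * (γ t).2 = u.1 * u.2 := fun t => by
    simp only [γ]
    rw [mul_mul_mul_comm, ← Complex.exp_add]
    simp
  have c2 : HasDerivAt (GG k ∘ γ) (z.re * GG (deriv k) u) 0 := by
    by_cases h0 : u.1 * u.2 = 0
    · have : GG k ∘ γ = fun _ => 0 := funext fun t => by simp [GG, hq, h0, bw_zero]
      rw [this]
      simpa [GG, h0, bw_zero] using hasDerivAt_const (0 : ℝ) (0 : ℝ)
    · have h1 : ‖u.1‖ ≠ 0 := norm_ne_zero_iff.2 (left_ne_zero_of_mul h0)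
      have h2 : ‖u.2‖ ≠ 0 := norm_ne_zero_iff.2 (right_ne_zero_of_mul h0)
      have : GG k ∘ γ = fun t => bw (u.1 * u.2) * k (sc u + t * z.re) := funext fun t => by
        simp only [Function.comp, GG, hq]
        congr 2
        simp only [sc, γ, norm_mul, Complex.norm_exp]
        rw [Real.log_mul (Real.exp_ne_zero _) h1, Real.log_mul (Real.exp_ne_zero _) h2,
          Real.log_exp, Real.log_exp]
        simp
        ring
      rw [this]
      have d1 : HasDerivAt (fun t : ℝ => sc u + t * z.re) z.re 0 := by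
        simpa using ((hasDerivAt_id (0 : ℝ)).mul_const z.re).const_add (sc u)
      have d2 : HasDerivAt k (deriv k (sc u)) (sc u + 0 * z.re) := by
        simpa using (hk.differentiable one_ne_zero (sc u)).hasDerivAt
      exact ((d2.comp (0 : ℝ) d1).const_mul (bw (u.1 * u.2))).congr_deriv (by unfold GG; ring)
  exact c1.unique c2

lemma int_fderiv {F : E2 → ℝ} (hF : ContDiff ℝ 1 F) (hc : HasCompactSupport F) {W : E2 → E2}
    (hW : Continuous W) : Integrable fun u => fderiv ℝ F u (W u) := by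
  refine ((hF.continuous_fderiv one_ne_zero).clm_apply hW).integrable_of_hasCompactSupport ?_
  refine (hc.fderiv ℝ).mono fun u hu h => hu ?_
  simp [h]

lemma green (h1 : IBPStmt) (h4 : PolarStmt) (h5 : PtStmt) {U : E2 → ℝ} (hU : ContDiff ℝ 2 U)
    {ζ : ℝ → ℝ} (hζ : ContDiff ℝ 2 ζ) (hc : HasCompactSupport ζ) :
    ∫ u, GG ζ u * lapd U u (TT u) = ∫ u, GG (deriv (deriv ζ)) u * U u := by
  have hζ1 : ContDiff ℝ 1 (deriv ζ) := (contDiff_succ_iff_deriv.1 (show ContDiff ℝ (1 + 1) ζ from hζ)).2.2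
  have hζ0 : ContDiff ℝ 1 ζ := hζ.of_le one_le_two
  have hU1 : ContDiff ℝ 1 U := hU.of_le one_le_two
  have hD : ContDiff ℝ 1 (fderiv ℝ U) := hU.fderiv_right (m := 1) le_rfl
  obtain ⟨-, -, -, -, hp, -⟩ := h4
  obtain ⟨p0, p0', -⟩ := hp ζ hζ.continuous hc
  obtain ⟨p1, p1', -⟩ := hp _ hζ1.continuous hc.deriv
  obtain ⟨p2, p2', -⟩ := hp _ (hζ1.continuous_deriv le_rfl) hc.deriv.deriv
  have hT : Continuous TT := TT_eq ▸ TL.continuous
  -- the derivative of `U` along `z • TT`
  have hL : ∀ z : ℂ, ContDiff ℝ 1 fun u : E2 => z • TT u := fun z => by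
    rw [TT_eq]
    exact (z • TL).contDiff.restrict_scalars ℝ
  have hQ : ∀ z : ℂ, ContDiff ℝ 1 fun u => fderiv ℝ U u (z • TT u) := fun z => hD.clm_apply (hL z)
  have dQ : ∀ (z : ℂ) (u : E2), fderiv ℝ (fun u => fderiv ℝ U u (z • TT u)) u (z • TT u) =
      dd U u (z • TT u) + fderiv ℝ U u ((z * z) • u) := fun z u => by
    rw [fderiv_clm_apply (hD.differentiable one_ne_zero u) ((hL z).differentiable one_ne_zero u)]
    have : fderiv ℝ (fun u : E2 => z • TT u) u = (z • TL).restrictScalars ℝ := by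
      rw [TT_eq]
      exact ((z • TL).hasFDerivAt.restrictScalars ℝ).fderiv
    have e : z • z • TT (TT u) = (z * z) • u := by ext <;> simp [TT, mul_assoc]
    rw [this, add_comm, ← e]
    simp [dd, TL_apply]
  have g0 := contDiff_GG h5 hζ0
  have g1 := contDiff_GG h5 hζ1
  let F1 : E2 → ℝ := fun u => GG ζ u * fderiv ℝ U u ((1 : ℂ) • TT u) - GG (deriv ζ) u * U u
  let F2 : E2 → ℝ := fun u => GG ζ u * fderiv ℝ U u (I • TT u)
  have s1 : ContDiff ℝ 1 F1 := (g0.mul (hQ 1)).sub (g1.mul hU1)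
  have s2 : ContDiff ℝ 1 F2 := g0.mul (hQ I)
  have k1 : HasCompactSupport F1 := (p0'.mul_right).sub p1'.mul_right
  have k2 : HasCompactSupport F2 := p0'.mul_right
  have hdiv : ∀ y, (fderiv ℂ TT y (1, 0)).1 + (fderiv ℂ TT y (0, 1)).2 = 0 := fun y => by
    rw [TT_eq, TL.fderiv]
    simp [TL_apply, TT]
  have hTs : ContDiff ℂ 1 TT := TT_eq ▸ TL.contDiff
  have i1 := (h1 TT hTs hdiv F1 s1 k1).1
  have i2 := (h1 TT hTs hdiv F2 s2 k2).2
  have pt : ∀ u, GG ζ u * lapd U u (TT u) - GG (deriv (deriv ζ)) u * U u =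
      fderiv ℝ F1 u (TT u) + fderiv ℝ F2 u (I • TT u) := fun u => by
    have a0 := (g0.differentiable one_ne_zero u).hasFDerivAt
    have a1 := (g1.differentiable one_ne_zero u).hasFDerivAt
    have b1 := ((hQ 1).differentiable one_ne_zero u).hasFDerivAt
    have b2 := ((hQ I).differentiable one_ne_zero u).hasFDerivAt
    have c := (hU1.differentiable one_ne_zero u).hasFDerivAt
    have f1 := ((a0.mul b1).sub (a1.mul c)).fderiv
    have f2 := (a0.mul b2).fderiv
    have e1 : fderiv ℝ F1 u = _ := f1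
    have e2 : fderiv ℝ F2 u = _ := f2
    have q1 := dQ 1 u
    have q2 := dQ I u
    have r0 := fderiv_GG h5 hζ0 u 1
    have r1 := fderiv_GG h5 hζ1 u 1
    have r2 := fderiv_GG h5 hζ0 u I
    rw [e1, e2]
    simp only [one_smul, mul_one, I_mul_I, neg_smul, map_neg, one_re, one_mul, I_re,
      zero_mul] at q1 q2 r0 r1 r2
    simp only [_root_.sub_apply, _root_.add_apply, _root_.smul_apply, smul_eq_mul, one_smul, q1, q2, r0, r1, r2, lapd]
    ring
  have j1 : Integrable fun u => GG ζ u * lapd U u (TT u) :=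
    (p0.mul (continuous_lapd hU continuous_id hT)).integrable_of_hasCompactSupport p0'.mul_right
  have j2 : Integrable fun u => GG (deriv (deriv ζ)) u * U u :=
    (p2.mul hU.continuous).integrable_of_hasCompactSupport p2'.mul_right
  rw [← sub_eq_zero, ← integral_sub j1 j2]
  simp_rw [pt]
  rw [integral_add (int_fderiv s1 k1 hT) (int_fderiv s2 k2 (hL I).continuous), i1, i2, add_zero]

/-- the convex profile -/
lemma exists_profile : ∃ (R : ℝ → ℝ) (K0 m : ℝ), ContDiff ℝ 2 R ∧ 0 ≤ K0 ∧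
    (∀ s, 0 ≤ deriv (deriv R) s) ∧ (∀ s, deriv (deriv R) s ≤ K0) ∧
    (∀ s, deriv (deriv R) s ≠ 0 → |s| ≤ 1) ∧ ∫ s, deriv (deriv R) s = 1 ∧
    (∀ s, s ≤ -1 → R s = 0) ∧ (∀ s, 1 ≤ s → R s = s - m) ∧ (∀ s, 0 ≤ R s) ∧ (∀ s, s - 1 ≤ R s) ∧
    (∀ s, R s ≤ max s 0 + 1) ∧ ∀ s t, 2 * R s ≤ R (s + t) + R (s - t) := by
  let P : ℝ → ℝ := fun s => Real.smoothTransition ((s + 1) / 2)
  have st : ContDiff ℝ 1 Real.smoothTransition := Real.smoothTransition.contDiff (n := 1)
  have hP : ContDiff ℝ 1 P := st.comp ((contDiff_id.add contDiff_const).div_const 2)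
  have P0 : ∀ s, 0 ≤ P s := fun s => Real.smoothTransition.nonneg _
  have P1 : ∀ s, P s ≤ 1 := fun s => Real.smoothTransition.le_one _
  have Pl : ∀ s, s ≤ -1 → P s = 0 := fun s hs => Real.smoothTransition.zero_of_nonpos (by linarith)
  have Pr : ∀ s, 1 ≤ s → P s = 1 := fun s hs => Real.smoothTransition.one_of_one_le (by linarith)
  have Pm : Monotone P := fun s t h => Real.smoothTransition.monotone (by linarith)
  let R : ℝ → ℝ := fun s => ∫ t in (-1 : ℝ)..s, P t
  have hR : ∀ s, HasDerivAt R (P s) s := fun s => (hP.continuous.integral_hasStrictDerivAt _ s).hasDerivAt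
  have dR : deriv R = P := funext fun s => (hR s).deriv
  have Rd : Differentiable ℝ R := fun s => (hR s).differentiableAt
  have hs : ∀ s, deriv P s ≠ 0 → |s| ≤ 1 := fun s h => by
    by_contra h'
    rcases lt_abs.1 (not_le.1 h') with h1 | h1
    · exact h (IsLocalMax.deriv_eq_zero (Eventually.of_forall fun t => (Pr s h1.le).symm ▸ P1 t))
    · exact h (IsLocalMin.deriv_eq_zero
        (Eventually.of_forall fun t => (Pl s (by linarith)).symm ▸ P0 t))
  have hc : HasCompactSupport (deriv P) :=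
    HasCompactSupport.intro (isCompact_Icc (a := -1) (b := 1)) fun s h => by
      by_contra h'
      exact h (abs_le.1 (hs s h'))
  obtain ⟨K0, hK⟩ := hc.exists_bound_of_continuous (hP.continuous_deriv le_rfl)
  have ii : ∀ a b, IntervalIntegrable P volume a b := fun a b => hP.continuous.intervalIntegrable a b
  have Rl : ∀ s, s ≤ -1 → R s = 0 := fun s h => by
    have : ∫ t in (-1 : ℝ)..s, P t = ∫ t in (-1 : ℝ)..s, (0 : ℝ) :=
      intervalIntegral.integral_congr fun t ht => Pl t (by rw [uIcc_of_ge h] at ht; exact ht.2)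
    simpa using this
  have Rr : ∀ s, 1 ≤ s → R s = s - (1 - R 1) := fun s h => by
    have : ∫ t in (1 : ℝ)..s, P t = ∫ t in (1 : ℝ)..s, (1 : ℝ) :=
      intervalIntegral.integral_congr fun t ht => Pr t (by rw [uIcc_of_le h] at ht; exact ht.1)
    have h2 := intervalIntegral.integral_add_adjacent_intervals (ii (-1) 1) (ii 1 s)
    simp only [intervalIntegral.integral_const, smul_eq_mul, mul_one] at this
    simp only [R]
    linarith
  have R0 : ∀ s, 0 ≤ R s := fun s => by
    rcases le_total s (-1) with h | h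
    · exact (Rl s h).ge
    · exact intervalIntegral.integral_nonneg h fun t _ => P0 t
  refine ⟨R, K0, 1 - R 1, ?_, (norm_nonneg _).trans (hK 0), fun s => ?_, fun s => ?_, ?_, ?_, Rl, Rr,
    R0, fun s => ?_, fun s => ?_, fun s t => ?_⟩
  · exact (contDiff_succ_iff_deriv (n := 1)).2 ⟨Rd, by simp, dR ▸ hP⟩
  · rw [dR]; exact Pm.deriv_nonneg
  · rw [dR]; exact (le_abs_self _).trans (hK s)
  · rw [dR]; exact hs
  · rw [dR, ← intervalIntegral.integral_eq_integral_of_support_subset (a := -2) (b := 2)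
      fun s h => ⟨by linarith [abs_le.1 (hs s h)], by linarith [abs_le.1 (hs s h)]⟩,
      intervalIntegral.integral_deriv_eq_sub (fun x _ => hP.differentiable one_ne_zero x)
        ((hP.continuous_deriv le_rfl).intervalIntegrable _ _), Pr 2 (by norm_num),
      Pl (-2) (by norm_num), sub_zero]
  · rcases le_total s 1 with h | h
    · linarith [R0 s]
    · linarith [Rr s h, R0 1]
  · rcases le_total s (-1) with h | h
    · linarith [Rl s h, le_max_right s 0]
    · have := intervalIntegral.integral_mono_on h (ii (-1) s)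
        (intervalIntegrable_const (c := (1 : ℝ))) fun t _ => P1 t
      simp only [intervalIntegral.integral_const, smul_eq_mul, mul_one] at this
      have h2 : R s ≤ s - -1 := this
      linarith [le_max_left s 0]
  · have hcv : ConvexOn ℝ univ R := Monotone.convexOn_univ_of_deriv Rd (dR ▸ Pm)
    have := hcv.2 (mem_univ (s + t)) (mem_univ (s - t)) (show (0 : ℝ) ≤ 1 / 2 by norm_num)
      (show (0 : ℝ) ≤ 1 / 2 by norm_num) (by norm_num)
    simp only [smul_eq_mul] at this
    rw [show 1 / 2 * (s + t) + 1 / 2 * (s - t) = s by ring] at this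
    linarith

lemma norm_le_of_GG (h5 : PtStmt) {k : ℝ → ℝ} {u : E2} (h : GG k u ≠ 0) :
    ‖u‖ ≤ Real.exp (1 + |sc u|) := by
  obtain ⟨-, -, -, -, -, -, -, -, hb, -⟩ := h5
  obtain ⟨b1, b2⟩ := hb _ (left_ne_zero_of_mul h)
  have hq : u.1 * u.2 ≠ 0 := norm_pos_iff.1 ((Real.exp_pos _).trans_le b1)
  have h1 : 0 < ‖u.1‖ := norm_pos_iff.2 (left_ne_zero_of_mul hq)
  have h2 : 0 < ‖u.2‖ := norm_pos_iff.2 (right_ne_zero_of_mul hq)
  have hl : Real.log ‖u.1‖ + Real.log ‖u.2‖ ≤ 2 := by
    rw [← Real.log_mul h1.ne' h2.ne', ← norm_mul]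
    exact (Real.log_le_iff_le_exp (norm_pos_iff.2 hq)).2 b2
  have a1 := le_abs_self (sc u)
  have a2 := neg_abs_le (sc u)
  have hs : sc u = (Real.log ‖u.1‖ - Real.log ‖u.2‖) / 2 := rfl
  exact max_le ((Real.log_le_iff_le_exp h1).1 (by linarith))
    ((Real.log_le_iff_le_exp h2).1 (by linarith))

lemma U_le {A : E2 → ℂ} {S0 μ X B c η T t : ℝ} (hA : Wav A S0 μ X B) (hS : 0 < S0) (hμ : 0 ≤ μ)
    (hX : 0 ≤ X) (hc : |c| ≤ T) (hη : 0 < η) (hT : η ≤ T) (hT' : 2 * T ≤ S0) (ht : 0 ≤ t)
    (htB : t ≤ B) {u : E2} (hu : ‖u‖ ≤ Real.exp t) :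
    U1 (fun u => sym A u - c) η u ≤ Real.log S0 + X + μ * t + 2 := by
  have h1 := hA.norm_sym hS.le hμ (hu.trans (Real.exp_le_exp.2 htB))
  have h2 : (max ‖u‖ (Real.exp (-B))) ^ μ ≤ Real.exp (μ * t) := by
    rw [mul_comm, Real.exp_mul]
    exact Real.rpow_le_rpow (by positivity) (max_le hu (Real.exp_le_exp.2 (by linarith))) hμ
  set Y := Real.exp (Real.log S0 + X + μ * t) with hY
  have hY' : Y = S0 * Real.exp X * Real.exp (μ * t) := by
    rw [hY, Real.exp_add, Real.exp_add, Real.exp_log hS]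
  have hY0 : S0 ≤ Y := by
    rw [hY', mul_assoc, ← Real.exp_add]
    exact le_mul_of_one_le_right hS.le (Real.one_le_exp (by positivity))
  have h3 : ‖sym A u‖ ≤ 2 * Y := h1.trans (by rw [hY']; gcongr)
  have h4 : ‖sym A u - c‖ ≤ 5 / 2 * Y := by
    refine (norm_sub_le _ _).trans ?_
    rw [Complex.norm_real, Real.norm_eq_abs]
    linarith
  have h5 : (9 : ℝ) ≤ Real.exp 4 := by
    rw [show (4 : ℝ) = 2 + 2 by norm_num, Real.exp_add]
    nlinarith [Real.add_one_le_exp 2]
  have h6 : ‖sym A u - c‖ ^ 2 + η ^ 2 ≤ Real.exp (2 * (Real.log S0 + X + μ * t + 2)) := by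
    rw [show 2 * (Real.log S0 + X + μ * t + 2) = (Real.log S0 + X + μ * t) +
      (Real.log S0 + X + μ * t) + 4 by ring, Real.exp_add, Real.exp_add, ← hY]
    have := pow_le_pow_left₀ (norm_nonneg _) h4 2
    have := pow_le_pow_left₀ hη.le (show η ≤ Y / 2 by linarith) 2
    nlinarith [mul_pos (hS.trans_le hY0) (hS.trans_le hY0)]
  have := (Real.log_le_iff_le_exp (by positivity)).2 h6
  unfold U1
  linarith

lemma le_U {A : E2 → ℂ} {S0 X' c η T : ℝ} (hS : 0 < S0) (hc : |c| ≤ T) {u : E2}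
    (hu : S0 * Real.exp (-X') ≤ ‖sym A u‖) (hT : 2 * T ≤ S0 * Real.exp (-X')) :
    Real.log S0 - X' - 1 ≤ U1 (fun u => sym A u - c) η u := by
  set Y := S0 * Real.exp (-X') with hY
  have hY0 : 0 < Y := by positivity
  have h1 : Y / 2 ≤ ‖sym A u - c‖ := by
    have := norm_sub_norm_le (sym A u) c
    rw [Complex.norm_real, Real.norm_eq_abs] at this
    linarith
  have h2 : Real.exp (Real.log S0 - X' - 1) ≤ Y / 2 := by
    rw [sub_eq_add_neg, sub_eq_add_neg, Real.exp_add, Real.exp_add, Real.exp_log hS, ← hY,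
      Real.exp_neg, ← div_eq_mul_inv]
    gcongr
    linarith [Real.add_one_le_exp 1]
  have h3 : Real.exp (2 * (Real.log S0 - X' - 1)) ≤ ‖sym A u - c‖ ^ 2 + η ^ 2 := by
    rw [two_mul, Real.exp_add, ← sq]
    have := pow_le_pow_left₀ (Real.exp_pos _).le (h2.trans h1) 2
    linarith [sq_nonneg η]
  have := (Real.le_log_iff_exp_le ((Real.exp_pos _).trans_le h3)).2 h3
  unfold U1
  linarith

/-- second difference -/
def sd (f : ℝ → ℝ) (S s : ℝ) : ℝ := f (s + S) - 2 * f s + f (s - S)

lemma deriv_sd {f : ℝ → ℝ} (hf : Differentiable ℝ f) (S : ℝ) :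
    deriv (sd f S) = sd (deriv f) S := funext fun s =>
  ((((hf (s + S)).hasDerivAt.comp_add_const s S).sub ((hf s).hasDerivAt.const_mul 2)).add
    ((hf (s - S)).hasDerivAt.comp_sub_const s S)).deriv

lemma contDiff_sd {f : ℝ → ℝ} (hf : ContDiff ℝ 2 f) (S : ℝ) : ContDiff ℝ 2 (sd f S) :=
  ((hf.comp (contDiff_id.add contDiff_const)).sub (contDiff_const.mul hf)).add
    (hf.comp (contDiff_id.sub contDiff_const))

lemma arith {t V μ C Z S L ρ : ℝ} (hV : 0 < V) (hμ : 1 / 2 ≤ μ) (hC : 0 ≤ C) (hZ : 0 ≤ Z)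
    (hL : 1 ≤ L) (hS : 2 * (L + 4) ≤ S) (hρ : 0 ≤ ρ)
    (h : (S - L - 6) * t ≤ V * μ * (S + 2) + C * (Z + μ * ρ + 3)) :
    t ≤ V * μ + (30 * V + 4 * C * (ρ + 6)) * (Z + μ * L) / S := by
  have hD : 0 < S - L - 6 := by linarith
  have hS0 : 0 < S := by linarith
  have hμL : μ ≤ μ * L := le_mul_of_one_le_right (by linarith) hL
  have hw : 0 ≤ Z + μ * L := by linarith
  have h1 : Z + μ * ρ + 3 ≤ (ρ + 6) * (Z + μ * L) := by
    nlinarith [mul_nonneg hρ hZ, mul_nonneg hρ (sub_nonneg.2 hμL)]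
  have h2 : V * μ * (L + 8) ≤ 9 * V * (Z + μ * L) := by
    have : μ * (L + 8) ≤ 9 * (Z + μ * L) := by linarith
    nlinarith [mul_le_mul_of_nonneg_left this hV.le]
  have h3 : (S - L - 6) * (t - V * μ) ≤ (9 * V + C * (ρ + 6)) * (Z + μ * L) := by
    nlinarith [mul_le_mul_of_nonneg_left h1 hC]
  have hE : 0 ≤ (9 * V + C * (ρ + 6)) * (Z + μ * L) := by positivity
  rw [← sub_le_iff_le_add', le_div_iff₀ hS0]
  rcases le_total (t - V * μ) 0 with h0 | h0
  · exact (mul_nonpos_of_nonpos_of_nonneg h0 hS0.le).trans (by positivity)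
  · have h4 : 3 * S ≤ 10 * (S - L - 6) := by linarith
    have h5 := mul_le_mul_of_nonneg_left h4 h0
    have h6 : 0 ≤ C * (ρ + 6) * (Z + μ * L) := by positivity
    nlinarith

end TotL

open TotL in
theorem tot (h1 : IBPStmt) (h2 : LapStmt) (h3 : SubStmt) (h4 : PolarStmt) (h5 : PtStmt) :
    TotStmt := by
  intro C2 hC2
  have : (volume : Measure E2).IsAddHaarMeasure :=
    inferInstanceAs ((volume : Measure ℂ).prod (volume : Measure ℂ)).IsAddHaarMeasure
  obtain ⟨R, K0, m, hR, hK0, Λ0, ΛK, Λs, Λ1, Rl, Rr, R0, Rlo, Rup, Rcv⟩ := exists_profile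
  set Λ := deriv (deriv R) with hΛ
  have hR1 : ContDiff ℝ 1 (deriv R) :=
    (contDiff_succ_iff_deriv.1 (show ContDiff ℝ (1 + 1) R from hR)).2.2
  have Λc : Continuous Λ := hR1.continuous_deriv le_rfl
  have hp := h4.2.2.2.2.1
  obtain ⟨-, -, -, -, -, -, bw0, bw4, -, hV⟩ := id h5
  set ρ : ℝ := Real.exp 2 + C2 with hρ
  have hρ0 : 0 ≤ ρ := by positivity
  set C : ℝ := Real.exp 4 * K0 with hC
  have hC0 : 0 ≤ C := by positivity
  set V0 : ℝ := volume.real (closedBall (0 : E2) ρ) with hV0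
  have hV00 : 0 ≤ V0 := measureReal_nonneg
  have hK' : 0 ≤ 30 * VV + 4 * (C * V0) * (ρ + C2 + 6) := by positivity
  refine ⟨30 * VV + 4 * (C * V0) * (ρ + C2 + 6) + (ρ + C2), by linarith [Real.exp_pos 2], ?_⟩
  intro A S0 μ X X' B S L c η T z1 hA hS0 hμ hX hX' hL hS hB hKB hz1 hlow hc hη hηT hT
  have hμ0 : 0 ≤ μ := by linarith
  have hT' : 2 * T ≤ S0 := hT.trans
    (mul_le_of_le_one_right hS0.le (Real.exp_le_one_iff.2 (by linarith)))
  set a : E2 → ℂ := fun u => sym A u - c with ha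
  have has : ContDiff ℂ 2 a := hA.sub_sm c
  obtain ⟨hU, -, hlap⟩ := (h2 E2 η hη).2 a has
  set U := U1 a η with hUd
  have hUle : ∀ t, 0 ≤ t → t ≤ B → ∀ u : E2, ‖u‖ ≤ Real.exp t →
      U u ≤ Real.log S0 + X + μ * t + 2 := fun t ht htB u hu =>
    U_le hA hS0 hμ0 hX hc hη hηT hT' ht htB hu
  set y1 : E2 := (z1, conj z1) with hy1
  have hy1n : ‖y1‖ ≤ C2 := by simpa [hy1, Prod.norm_def] using hz1
  have hU1 : Real.log S0 - X' - 1 ≤ U y1 := le_U hS0 hc hlow hT
  set M1 := Real.log S0 + X + μ * (S + 2) + 2 with hM1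
  set M := Real.log S0 + X + μ * (ρ + C2) + 2 with hM
  have hMb : ∀ v : E2, ‖v‖ ≤ ρ → U (y1 + v) ≤ M := fun v hv =>
    hUle _ (by linarith) (by linarith) _ ((norm_add_le _ _).trans
      (by linarith [Real.add_one_le_exp (ρ + C2)]))
  -- the profile
  have ζc : HasCompactSupport (sd R S) :=
    HasCompactSupport.intro (isCompact_Icc (a := -(S + 1)) (b := S + 1)) fun s hs => by
      rcases not_and_or.1 hs with h | h
      · have h := not_le.1 h
        simp [sd, Rl (s + S) (by linarith), Rl s (by linarith), Rl (s - S) (by linarith)]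
      · have h := not_le.1 h
        simp only [sd, Rr (s + S) (by linarith), Rr s (by linarith), Rr (s - S) (by linarith)]
        ring
  have ζz : ∀ s, (S - L - 6) * zt L s ≤ sd R S s := fun s => by
    by_cases hs : |s| ≤ L + 3
    · have z1 : zt L s ≤ 1 := mul_le_one₀ (Real.smoothTransition.le_one _)
        (Real.smoothTransition.nonneg _) (Real.smoothTransition.le_one _)
      have z2 := mul_le_mul_of_nonneg_left z1 (show 0 ≤ S - L - 6 by linarith)
      have z3 : 2 * max s 0 ≤ s + (L + 3) := by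
        rcases le_total s 0 with h | h
        · rw [max_eq_right h]; linarith [abs_le.1 hs]
        · rw [max_eq_left h]; linarith [abs_le.1 hs]
      unfold sd
      linarith [Rlo (s + S), Rup s, R0 (s - S)]
    · have : zt L s = 0 := by
        rcases lt_abs.1 (not_le.1 hs) with h | h
        · simp [zt, Real.smoothTransition.zero_of_nonpos (show L + 3 - s ≤ 0 by linarith)]
        · simp [zt, Real.smoothTransition.zero_of_nonpos (show L + 3 + s ≤ 0 by linarith)]
      unfold sd
      rw [this]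
      linarith [Rcv s S]
  have hg := green h1 h4 h5 hU (contDiff_sd hR S) ζc
  rw [deriv_sd (hR.differentiable two_ne_zero), deriv_sd (hR1.differentiable one_ne_zero)] at hg
  have hT0 : Continuous TT := TT_eq ▸ TL.continuous
  obtain ⟨p0, p0', -⟩ := hp _ (contDiff_sd hR S).continuous ζc
  have step1 : (S - L - 6) * 2 * Tot a η L ≤ ∫ u, GG (sd R S) u * lapd U u (TT u) := by
    unfold Tot
    rw [← integral_const_mul]
    refine integral_mono_of_nonneg (ae_of_all _ fun u => ?_)
      ((p0.mul (continuous_lapd hU continuous_id hT0)).integrable_of_hasCompactSupport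
        p0'.mul_right) (ae_of_all _ fun u => ?_)
    · have : 0 ≤ zt L (sc u) :=
        mul_nonneg (Real.smoothTransition.nonneg _) (Real.smoothTransition.nonneg _)
      have := bw0 (u.1 * u.2)
      have := wt_nonneg η (a u)
      have : 0 ≤ S - L - 6 := by linarith
      positivity
    · have e := mul_le_mul_of_nonneg_left (ζz (sc u)) (mul_nonneg (bw0 (u.1 * u.2))
        (mul_nonneg (wt_nonneg η (a u)) (sq_nonneg ‖Tf a u‖)))
      have e2 : lapd U u (TT u) = 2 * (wt η (a u) * ‖Tf a u‖ ^ 2) := hlap u (TT u)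
      simp only [e2, GG]
      linarith
  -- shifted bumps
  have sh : ∀ t : ℝ, Continuous (GG fun s => Λ (s + t)) ∧ HasCompactSupport (GG fun s => Λ (s + t)) ∧
      ∫ u, GG (fun s => Λ (s + t)) u = VV := fun t => by
    have := hp (fun s => Λ (s + t)) (Λc.comp (continuous_id.add continuous_const))
      (HasCompactSupport.intro (isCompact_Icc (a := -1 - t) (b := 1 - t)) fun s hs => by
        by_contra h
        exact hs ⟨by linarith [abs_le.1 (Λs _ h)], by linarith [abs_le.1 (Λs _ h)]⟩)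
    rwa [integral_add_right_eq_self Λ t, Λ1, mul_one] at this
  have sn : ∀ (t : ℝ) (u : E2), 0 ≤ GG (fun s => Λ (s + t)) u := fun t u =>
    mul_nonneg (bw0 _) (Λ0 _)
  have sb : ∀ (t : ℝ) (u : E2), GG (fun s => Λ (s + t)) u ≠ 0 → ‖u‖ ≤ Real.exp (|t| + 2) :=
    fun t u h => (norm_le_of_GG h5 h).trans (Real.exp_le_exp.2 (by
      have := Λs _ (right_ne_zero_of_mul h)
      have := abs_sub (sc u + t) t
      rw [add_sub_cancel_right] at this
      linarith))
  have so : ∀ t : ℝ, |t| = S → ∀ u : E2,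
      GG (fun s => Λ (s + t)) u * U u ≤ M1 * GG (fun s => Λ (s + t)) u := fun t ht u => by
    by_cases h : GG (fun s => Λ (s + t)) u = 0
    · simp [h]
    · rw [mul_comm M1]
      exact mul_le_mul_of_nonneg_left (hUle _ (by linarith) hB u (ht ▸ sb t u h)) (sn t u)
  let H : E2 → ℝ := (closedBall (0 : E2) ρ).indicator fun v => M - U (y1 + v)
  have H0 : ∀ v, 0 ≤ H v := fun v =>
    indicator_nonneg (fun v hv => sub_nonneg.2 (hMb v (mem_closedBall_zero_iff.1 hv))) v
  have cU : Continuous fun v => U (y1 + v) := hU.continuous.comp (continuous_const.add continuous_id)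
  have iU : IntegrableOn (fun v => U (y1 + v)) (closedBall (0 : E2) ρ) := intOn cU isBounded_closedBall
  have iM : IntegrableOn (fun _ : E2 => M) (closedBall (0 : E2) ρ) :=
    intOn continuous_const isBounded_closedBall
  have Hi : Integrable H := (iM.sub iU).integrable_indicator measurableSet_closedBall
  have HI : ∫ u, H (u - y1) ≤ V0 * (M - U y1) := by
    rw [integral_sub_right_eq_self H y1, integral_indicator measurableSet_closedBall,
      integral_sub iM iU, setIntegral_const, smul_eq_mul]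
    have := (h3 E2 volume η hη (closedBall 0 ρ) measurableSet_closedBall isBounded_closedBall
      (fun t v hv => by
        rw [mem_closedBall_zero_iff] at hv ⊢
        rwa [norm_smul, Complex.norm_exp_ofReal_mul_I, one_mul]) y1).2 a
      (has.differentiable two_ne_zero)
    linarith
  have sm : ∀ u : E2, -(GG (fun s => Λ (s + 0)) u * U u) ≤
      -M * GG (fun s => Λ (s + 0)) u + C * H (u - y1) := fun u => by
    by_cases h : GG (fun s => Λ (s + 0)) u = 0
    · rw [h]
      simpa using mul_nonneg hC0 (H0 (u - y1))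
    · have hu : ‖u - y1‖ ≤ ρ := (norm_sub_le _ _).trans (by
        have := sb 0 u h
        rw [abs_zero, zero_add] at this
        linarith)
      have e : H (u - y1) = M - U u := by
        simp only [H, indicator_of_mem (mem_closedBall_zero_iff.2 hu), add_sub_cancel]
      have e0 := H0 (u - y1)
      have b : GG (fun s => Λ (s + 0)) u ≤ C := mul_le_mul (bw4 _) (ΛK _) (Λ0 _) (by positivity)
      rw [e] at e0 ⊢
      nlinarith [mul_le_mul_of_nonneg_right b e0]
  have ig : ∀ t, Integrable (GG fun s => Λ (s + t)) := fun t =>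
    (sh t).1.integrable_of_hasCompactSupport (sh t).2.1
  have igU : ∀ t, Integrable fun u => GG (fun s => Λ (s + t)) u * U u := fun t =>
    ((sh t).1.mul hU.continuous).integrable_of_hasCompactSupport (sh t).2.1.mul_right
  have o : ∀ t : ℝ, |t| = S → ∫ u, GG (fun s => Λ (s + t)) u * U u ≤ M1 * VV := fun t ht => by
    rw [← (sh t).2.2, ← integral_const_mul]
    exact integral_mono (igU t) ((ig t).const_mul _) (so t ht)
  have mid : -∫ u, GG (fun s => Λ (s + 0)) u * U u ≤ -M * VV + C * (V0 * (M - U y1)) := by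
    have Hi' : Integrable fun u => C * H (u - y1) := (Hi.comp_sub_right y1).const_mul C
    have := integral_mono (igU 0).neg (((ig 0).const_mul (-M)).add Hi') sm
    simp only [Pi.neg_apply, Pi.add_apply] at this
    rw [integral_neg, integral_add ((ig 0).const_mul (-M)) Hi', integral_const_mul,
      integral_const_mul, (sh 0).2.2] at this
    linarith [mul_le_mul_of_nonneg_left HI hC0]
  have split : ∫ u, GG (sd Λ S) u * U u = (∫ u, GG (fun s => Λ (s + S)) u * U u) -
      2 * (∫ u, GG (fun s => Λ (s + 0)) u * U u) + ∫ u, GG (fun s => Λ (s + -S)) u * U u := by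
    have i2 : Integrable fun u => GG (fun s => Λ (s + S)) u * U u -
        2 * (GG (fun s => Λ (s + 0)) u * U u) := (igU S).sub ((igU 0).const_mul 2)
    rw [← integral_const_mul, ← integral_sub (igU S) ((igU 0).const_mul 2),
      ← integral_add i2 (igU (-S))]
    refine integral_congr_ae (ae_of_all _ fun u => ?_)
    simp only [GG, sd, add_zero, sub_eq_add_neg]
    ring
  have o1 := o S (abs_of_nonneg (by linarith))
  have o2 := o (-S) (by rw [abs_neg]; exact abs_of_nonneg (by linarith))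
  have fin : (S - L - 6) * Tot a η L ≤
      VV * μ * (S + 2) + C * V0 * (X + X' + μ * (ρ + C2) + 3) := by
    have b1 : C * (V0 * (M - U y1)) ≤ C * V0 * (X + X' + μ * (ρ + C2) + 3) := by
      rw [← mul_assoc]
      exact mul_le_mul_of_nonneg_left (by linarith) (by positivity)
    have b2 : 0 ≤ VV * (μ * (ρ + C2)) := by positivity
    have b3 : M1 * VV - M * VV = VV * μ * (S + 2) - VV * (μ * (ρ + C2)) := by
      rw [hM1, hM]; ring
    rw [hg, split] at step1
    linarith
  refine (arith hV hμ (by positivity) (by positivity) hL hS (by positivity) fin).trans ?_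
  have : 0 ≤ X + X' + μ * L := by positivity
  have : 0 < S := by linarith
  have : 30 * VV + 4 * (C * V0) * (ρ + C2 + 6) ≤
      30 * VV + 4 * (C * V0) * (ρ + C2 + 6) + (ρ + C2) := by linarith
  gcongr

end

end Pool.Agent.LinN2
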