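import Pool.Agent.Lib.MP_8465a2_an.N2.BasicB

/-!
From a multiple cover by nested cells to a cover.
-/

namespace Pool.Agent.LinN2

open Finset

namespace Tree

lemma exists_rank (S : Finset ℕ) {ρ : ℕ} (h : ρ < S.card) :
    ∃ i ∈ S, (S.filter (· < i)).card = ρ := by
  induction S using Finset.induction_on_max with
  | empty => simp at h
  | insert a s ha ih =>
    rw [card_insert_of_notMem fun h' => lt_irrefl a (ha a h')] at h
    rcases Nat.lt_succ_iff_lt_or_eq.1 h with h | h
    · obtain ⟨i, hi, e⟩ := ih h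
      exact ⟨i, mem_insert_of_mem hi, by rw [filter_insert, if_neg (ha i hi).not_gt, e]⟩
    · exact ⟨a, mem_insert_self _ _, by
        rw [filter_insert, if_neg (lt_irrefl a), filter_true_of_mem ha, h]⟩

end Tree

theorem tree : TreeStmt := by
  classical
  intro X ι f I W c t ht hf hc
  let r : ℕ → X → ℕ := fun i x => ((I.filter fun j => f j x ∈ W j).filter (· < i)).card
  have hr : ∀ i x x', f i x = f i x' → r i x = r i x' := fun i x x' e => by
    simp only [r, filter_filter]
    exact congrArg card (filter_congr fun j _ => and_congr_left fun hj => by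
      rw [hf j i x x' hj.le e])
  let V : ℕ → ℕ → Finset ι := fun ρ i => (W i).filter fun w => ∃ x, f i x = w ∧ r i x = ρ
  have h1 : ∀ i, ∑ ρ ∈ range t, (V ρ i).card ≤ (W i).card := fun i => by
    rw [← card_biUnion]
    · exact card_le_card (biUnion_subset.2 fun ρ _ => filter_subset _ _)
    · intro ρ _ ρ' _ hne
      refine disjoint_left.2 fun w h h' => hne ?_
      obtain ⟨-, x, e, rfl⟩ := mem_filter.1 h
      obtain ⟨-, x', e', rfl⟩ := mem_filter.1 h'
      exact hr i x x' (e.trans e'.symm)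
  have h2 : ∑ ρ ∈ range t, t * ∑ i ∈ I, c i * (V ρ i).card ≤
      ∑ _ρ ∈ range t, ∑ i ∈ I, c i * (W i).card := by
    rw [sum_const, card_range, nsmul_eq_mul, ← mul_sum, sum_comm]
    refine mul_le_mul_of_nonneg_left (sum_le_sum fun i _ => ?_) (Nat.cast_nonneg t)
    rw [← mul_sum]
    exact mul_le_mul_of_nonneg_left (by exact_mod_cast h1 i) (hc i)
  obtain ⟨ρ, hρ, h3⟩ := exists_le_of_sum_le (nonempty_range_iff.2 (by omega)) h2
  refine ⟨V ρ, fun x hx => ?_, h3⟩
  obtain ⟨i, hi, e⟩ := Tree.exists_rank _ ((mem_range.1 hρ).trans_le hx)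
  exact ⟨i, (mem_filter.1 hi).1, mem_filter.2 ⟨(mem_filter.1 hi).2, x, rfl, e⟩⟩

end Pool.Agent.LinN2
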