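import Pool.Agent.Lib.MP_8465a2_an.N2.BasicB

/-!
Goursat decomposition of a harmonic polynomial in null coordinates (MP_8465a2_an).
-/

namespace Pool.Agent.LinN2

open MeasureTheory Metric Set Filter Topology Complex
open scoped ENNReal ComplexConjugate Nat

noncomputable section

variable {n : ℕ}

namespace Wave

open MvPolynomial

/-- complex polynomials -/
abbrev PP (n : ℕ) := MvPolynomial (Fin n) ℂ

/-- directional derivative of a polynomial -/
def D : Cn n →ₗ[ℂ] Module.End ℂ (PP n) :=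
  Fintype.linearCombination ℂ fun l => (pderiv l : Derivation ℂ (PP n) (PP n)).toLinearMap

lemma D_apply (v : Cn n) (P : PP n) : D v P = ∑ l, v l • pderiv l P := by
  simp [D, Fintype.linearCombination_apply]

lemma D_C (v : Cn n) (a : ℂ) : D v (C a : PP n) = 0 := by simp [D_apply]

lemma D_mul_X (v : Cn n) (P : PP n) (l : Fin n) : D v (P * X l) = D v P * X l + v l • P := by
  classical
  simp only [D_apply, pderiv_mul, smul_add, Finset.sum_add_distrib, Finset.sum_mul, smul_mul_assoc,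
    pderiv_X, Pi.single_apply, mul_ite, mul_one, mul_zero, smul_ite, smul_zero]
  simp

lemma D_comm' (v w : Cn n) (P : PP n) : D v (D w P) = D w (D v P) := by
  induction P using MvPolynomial.induction_on with
  | C a => simp [D_C]
  | add p q hp hq => simp [hp, hq]
  | mul_X p l hp =>
    simp only [D_mul_X, map_add, map_smul, hp]
    abel

lemma D_comm (v w : Cn n) : Commute (D v) (D w) := LinearMap.ext fun P => D_comm' v w P

lemma D_pow_mul_X (v : Cn n) (P : PP n) (l : Fin n) (m : ℕ) :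
    (D v ^ (m + 1)) (P * X l) = (D v ^ (m + 1)) P * X l + ((m + 1 : ℕ) * v l) • (D v ^ m) P := by
  induction m with
  | zero => simp [D_mul_X]
  | succ m ih =>
    rw [pow_succ' (D v) (m + 1), Module.End.mul_apply, ih, map_add, D_mul_X, map_smul,
      Module.End.mul_apply, ← Module.End.mul_apply (D v) (D v ^ m), ← pow_succ', add_assoc,
      ← add_smul]
    congr 2
    push_cast; ring

lemma nil (v : Cn n) (P : PP n) : ∃ N : ℕ, ∀ m, N ≤ m → (D v ^ m) P = 0 := by
  induction P using MvPolynomial.induction_on with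
  | C a =>
    refine ⟨1, fun m hm => ?_⟩
    obtain ⟨k, rfl⟩ : ∃ k, m = k + 1 := ⟨m - 1, by omega⟩
    rw [pow_succ, Module.End.mul_apply, D_C, map_zero]
  | add p q hp hq =>
    obtain ⟨N1, h1⟩ := hp
    obtain ⟨N2, h2⟩ := hq
    exact ⟨max N1 N2, fun m hm => by
      rw [map_add, h1 m (le_of_max_le_left hm), h2 m (le_of_max_le_right hm), add_zero]⟩
  | mul_X p l hp =>
    obtain ⟨N, h⟩ := hp
    refine ⟨N + 1, fun m hm => ?_⟩
    obtain ⟨k, rfl⟩ : ∃ k, m = k + 1 := ⟨m - 1, by omega⟩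
    rw [D_pow_mul_X, h _ (by omega), h _ (by omega)]
    simp

lemma hasDerivAt_eval (y v : Cn n) (P : PP n) (s : ℂ) :
    HasDerivAt (fun s : ℂ => eval (y + s • v) P) (eval (y + s • v) (D v P)) s := by
  induction P using MvPolynomial.induction_on with
  | C a => simpa [D_C] using hasDerivAt_const s a
  | add p q hp hq => simpa using hp.fun_add hq
  | mul_X p l hp =>
    have h : HasDerivAt (fun s : ℂ => y l + s * v l) (v l) s := by
      simpa using ((hasDerivAt_id s).mul_const (v l)).const_add (y l)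
    have e1 : (fun s : ℂ => eval (y + s • v) (p * X l)) =
        fun s : ℂ => eval (y + s • v) p * (y l + s * v l) := by ext s; simp
    rw [e1]
    refine (hp.fun_mul h).congr_deriv ?_
    simp [D_mul_X, smul_eval]; ring

lemma diff_eval (P : PP n) : Differentiable ℂ fun y : Cn n => eval y P :=
  (AnalyticOnNhd.eval_mvPolynomial P).contDiff (n := 1) |>.differentiable one_ne_zero

lemma fderiv_eval (y v : Cn n) (P : PP n) :
    fderiv ℂ (fun y : Cn n => eval y P) y v = eval y (D v P) := by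
  have h1 := hasDerivAt_eval y v P 0
  have h2 : HasDerivAt (fun s : ℂ => y + s • v) v 0 := by
    simpa using ((hasDerivAt_id (0 : ℂ)).smul_const v).const_add y
  have h3 := (diff_eval P (y + (0 : ℂ) • v)).hasFDerivAt.comp_hasDerivAt (0 : ℂ) h2
  simpa using h3.unique h1

lemma iter_eval (y v : Cn n) (k : ℕ) (P : PP n) :
    iteratedDeriv k (fun s : ℂ => eval (y + s • v) P) = fun s => eval (y + s • v) ((D v ^ k) P) := by
  induction k with
  | zero => simp
  | succ k ih =>
    rw [iteratedDeriv_succ, ih]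
    ext s
    rw [(hasDerivAt_eval y v _ s).deriv, pow_succ', Module.End.mul_apply]

lemma diff_line (y v : Cn n) (P : PP n) : Differentiable ℂ fun s : ℂ => eval (y + s • v) P :=
  fun s => (hasDerivAt_eval y v P s).differentiableAt

/-- Cauchy estimate -/
lemma cauchy (y v : Cn n) (P : PP n) (k : ℕ) {ρ M : ℝ} (hρ : 0 < ρ)
    (h : ∀ s : ℂ, ‖s‖ ≤ ρ → ‖eval (y + s • v) P‖ ≤ M) :
    ‖eval y ((D v ^ k) P)‖ ≤ k ! * M / ρ ^ k := by
  have := norm_iteratedDeriv_le_of_forall_mem_sphere_norm_le (c := 0) (C := M) k hρ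
    (diff_line y v P).diffContOnCl fun z hz => h z (by simpa using le_of_eq hz)
  simpa [iter_eval] using this

/-- Taylor formula -/
lemma taylor (y v : Cn n) (P : PP n) {N : ℕ} (h : ∀ m, N ≤ m → (D v ^ m) P = 0) (s : ℂ) :
    eval (y + s • v) P = ∑ k ∈ Finset.range N, s ^ k / k ! * eval y ((D v ^ k) P) := by
  have h1 := hasSum_taylorSeries_of_entire (diff_line y v P) 0 s
  have h2 := hasSum_sum_of_ne_finset_zero (L := SummationFilter.unconditional ℕ)
    (s := Finset.range N)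
    (f := fun k : ℕ => (k ! : ℂ)⁻¹ • (s - 0) ^ k •
      iteratedDeriv k (fun s : ℂ => eval (y + s • v) P) 0) fun k hk => by
      simp [iter_eval, h k (by simpa using hk)]
  rw [h1.unique h2]
  refine Finset.sum_congr rfl fun k _ => ?_
  simp [iter_eval]; ring

/-- conjugation of the coefficients -/
def sg : PP n →+* PP n := map (starRingEnd ℂ)

lemma eval_sg (y : Cn n) (P : PP n) : eval (star y) (sg P) = conj (eval y P) := by
  induction P using MvPolynomial.induction_on with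
  | C a => simp [sg]
  | add p q hp hq => simp [hp, hq]
  | mul_X p l hp => rw [map_mul, map_mul, hp]; simp [sg]

lemma sg_smul (c : ℂ) (P : PP n) : sg (c • P) = conj c • sg P := by
  simp [sg, smul_eq_C_mul]

lemma D_sg (v : Cn n) (P : PP n) : D (star v) (sg P) = sg (D v P) := by
  simp only [D_apply, map_sum, sg_smul]
  refine Finset.sum_congr rfl fun l _ => ?_
  simp [sg, pderiv_map]

lemma D_pow_sg (v : Cn n) (k : ℕ) (P : PP n) : (D (star v) ^ k) (sg P) = sg ((D v ^ k) P) := by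
  induction k with
  | zero => simp
  | succ k ih => rw [pow_succ', pow_succ', Module.End.mul_apply, Module.End.mul_apply, ih, D_sg]

section Axis

variable {u1 u2 : Rn n}

/-- projection of a basis vector to the axis -/
def TT (u1 u2 : Rn n) (l : Fin n) : Cn n :=
  Pi.single l 1 - (cx u1 + I • cx u2) l • nv u1 u2 - (cx u1 - I • cx u2) l • star (nv u1 u2)

/-- Laplacian along the axis -/
def LL (u1 u2 : Rn n) : Module.End ℂ (PP n) := ∑ l, D (TT u1 u2 l) ^ 2

/-- Laplacian -/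
def Lap (n : ℕ) : Module.End ℂ (PP n) := ∑ l, D (Pi.single l 1) ^ 2

lemma zc_snv (h : ON u1 u2) : zc u1 u2 (star (nv u1 u2)) = 0 := by
  rw [zc_star, h.wc_nv, map_zero]
lemma wc_snv (h : ON u1 u2) : wc u1 u2 (star (nv u1 u2)) = 1 := by
  rw [wc_star, h.zc_nv, map_one]

lemma zc_TT (h : ON u1 u2) (l : Fin n) : zc u1 u2 (TT u1 u2 l) = 0 := by
  rw [TT, zc_sub, zc_sub, zc_smul, zc_smul, h.zc_nv, zc_snv h, zc, dotProduct_single_one]
  simp
lemma wc_TT (h : ON u1 u2) (l : Fin n) : wc u1 u2 (TT u1 u2 l) = 0 := by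
  rw [TT, wc_sub, wc_sub, wc_smul, wc_smul, h.wc_nv, wc_snv h, wc, dotProduct_single_one]
  simp

lemma norm_TT (h : ON u1 u2) (l : Fin n) : ‖TT u1 u2 l‖ ≤ 2 := by
  have h1 : ‖(Pi.single l 1 : Cn n)‖ = 1 := by rw [Pi.norm_single, norm_one]
  have h2 : ‖(cx u1 + I • cx u2) l • nv u1 u2‖ ≤ 1 * (1 / 2) := by
    rw [norm_smul]
    exact mul_le_mul ((norm_le_pi_norm _ l).trans h.norm_add) h.norm_nv (norm_nonneg _) zero_le_one
  have h3 : ‖(cx u1 - I • cx u2) l • star (nv u1 u2)‖ ≤ 1 * (1 / 2) := by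
    rw [norm_smul, norm_star]
    exact mul_le_mul ((norm_le_pi_norm _ l).trans h.norm_sub) h.norm_nv (norm_nonneg _) zero_le_one
  refine (norm_sub_le _ _).trans ?_
  linarith [norm_sub_le (Pi.single l 1 : Cn n) ((cx u1 + I • cx u2) l • nv u1 u2)]

lemma sum_single (a : Cn n) : ∑ l, a l • (Pi.single l 1 : Cn n) = a := by
  ext k; simp [Pi.single_apply]

lemma add_eq (u1 u2 : Rn n) : cx u1 + I • cx u2 = (2 : ℂ) • star (nv u1 u2) := by
  rw [star_nv, smul_smul]; simp
lemma sub_eq (u1 u2 : Rn n) : cx u1 - I • cx u2 = (2 : ℂ) • nv u1 u2 := by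
  rw [nv, smul_smul]; simp

lemma sum_TT (a : Cn n) : ∑ l, a l • TT u1 u2 l =
    a - zc u1 u2 a • nv u1 u2 - wc u1 u2 a • star (nv u1 u2) := by
  simp only [TT, smul_sub, Finset.sum_sub_distrib, sum_single, smul_smul, ← Finset.sum_smul]
  rw [zc, wc, dotProduct_comm, dotProduct_comm (cx u1 - I • cx u2)]
  rfl

lemma LL_eq (h : ON u1 u2) :
    LL u1 u2 = Lap n - (4 : ℂ) • (D (nv u1 u2) * D (star (nv u1 u2))) := by
  have key : ∀ (T : Fin n → Cn n) (a : Cn n) (w : Cn n),
      ∑ l, D (T l) * D (a l • w) = D (∑ l, a l • T l) * D w := fun T a w => by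
    simp only [map_sum, map_smul, Finset.sum_mul, mul_smul_comm, smul_mul_assoc]
  have e1 : LL u1 u2 = ∑ l, D (TT u1 u2 l) * D (Pi.single l 1) := by
    have : LL u1 u2 = ∑ l, (D (TT u1 u2 l) * D (Pi.single l 1) -
        D (TT u1 u2 l) * D ((cx u1 + I • cx u2) l • nv u1 u2) -
        D (TT u1 u2 l) * D ((cx u1 - I • cx u2) l • star (nv u1 u2))) :=
      Finset.sum_congr rfl fun l _ => by rw [← mul_sub, ← mul_sub, ← map_sub, ← map_sub, sq]; rfl
    rw [this, Finset.sum_sub_distrib, Finset.sum_sub_distrib, key, key, sum_TT, sum_TT, add_eq,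
      sub_eq, zc_smul, zc_smul, wc_smul, wc_smul, zc_snv h, wc_snv h, h.zc_nv, h.wc_nv]
    simp
  have e2 : LL u1 u2 = ∑ l, (D (Pi.single l 1) * D (Pi.single l 1) -
        D (Pi.single l 1) * D ((cx u1 + I • cx u2) l • nv u1 u2) -
        D (Pi.single l 1) * D ((cx u1 - I • cx u2) l • star (nv u1 u2))) := by
    rw [e1]
    exact Finset.sum_congr rfl fun l _ => by
      rw [← mul_sub, ← mul_sub, ← map_sub, ← map_sub, (D_comm _ _).eq]; rfl
  rw [e2, Finset.sum_sub_distrib, Finset.sum_sub_distrib, key, key, sum_single, sum_single, add_eq,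
    sub_eq, map_smul, map_smul, smul_mul_assoc, smul_mul_assoc, (D_comm (star _) _).eq, sub_sub,
    ← add_smul, Lap]
  simp only [sq]
  norm_num

lemma comm_LL (u1 u2 : Rn n) (v : Cn n) : Commute (D v) (LL u1 u2) :=
  Commute.sum_right _ _ _ fun _ _ => (D_comm _ _).pow_right 2

lemma comm_Lap (v : Cn n) : Commute (D v) (Lap n) :=
  Commute.sum_right _ _ _ fun _ _ => (D_comm _ _).pow_right 2

/-- mixed null derivatives of a harmonic polynomial -/
lemma mixed (h : ON u1 u2) {P : PP n} (hP : Lap n P = 0) (j : ℕ) :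
    (D (nv u1 u2) ^ j * D (star (nv u1 u2)) ^ j) P = (-1 / 4 : ℂ) ^ j • (LL u1 u2 ^ j) P := by
  rw [← (D_comm _ _).mul_pow]
  have hc : Commute (D (nv u1 u2) * D (star (nv u1 u2))) (LL u1 u2) :=
    (comm_LL u1 u2 _).mul_left (comm_LL u1 u2 _)
  have h1 : (D (nv u1 u2) * D (star (nv u1 u2))) P = (-1 / 4 : ℂ) • LL u1 u2 P := by
    rw [LL_eq h, LinearMap.sub_apply, hP, LinearMap.smul_apply, zero_sub, smul_neg, smul_smul,
      ← neg_smul]
    norm_num
  generalize D (nv u1 u2) * D (star (nv u1 u2)) = E at hc h1 ⊢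
  induction j with
  | zero => simp
  | succ j ih =>
    rw [pow_succ', Module.End.mul_apply, ih, map_smul, ← Module.End.mul_apply,
      (hc.pow_right j).eq, Module.End.mul_apply, h1, map_smul, smul_smul, pow_succ, pow_succ,
      Module.End.mul_apply]

/-- Nagumo estimate for powers of the Laplacian along the axis -/
lemma nagumo (h : ON u1 u2) {δ M : ℝ} (hδ : 0 < δ) (P : PP n) (j : ℕ) (y : Cn n)
    (hM : ∀ t, zc u1 u2 t = 0 → wc u1 u2 t = 0 → ‖t‖ ≤ j * δ → ‖eval (y + t) P‖ ≤ M) :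
    ‖eval y ((LL u1 u2 ^ j) P)‖ ≤ (8 * n / δ ^ 2) ^ j * M := by
  induction j generalizing y with
  | zero => simpa using hM 0 (by simp [zc]) (by simp [wc]) (by simp)
  | succ j ih =>
    rw [pow_succ', Module.End.mul_apply]
    conv_lhs => enter [1, 2, 1]; rw [LL]
    rw [LinearMap.sum_apply, map_sum]
    refine (norm_sum_le _ _).trans ((Finset.sum_le_card_nsmul _ _
      (2 ! * ((8 * n / δ ^ 2) ^ j * M) / (δ / 2) ^ 2) fun l _ => ?_).trans (le_of_eq ?_))
    · refine cauchy _ _ _ 2 (by positivity) fun s hs => ih _ fun t h1 h2 h3 => ?_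
      rw [add_assoc]
      refine hM _ (by rw [zc_add, zc_smul, zc_TT h, h1]; simp)
        (by rw [wc_add, wc_smul, wc_TT h, h2]; simp) ((norm_add_le _ _).trans ?_)
      rw [norm_smul]
      push_cast
      nlinarith [mul_le_mul hs (norm_TT h l) (norm_nonneg _) (by positivity)]
    · rw [pow_succ (8 * n / δ ^ 2)]
      generalize (8 * n / δ ^ 2) ^ j = c
      simp [Nat.factorial]; field_simp; ring

end Axis

/-- the polynomial of an admissible map tested with a real covector -/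
lemma exists_poly {g : Cn n → Cn n} (hg : Adm g) (ξ : Rn n) :
    ∃ P : PP n, (∀ y, eval y P = cx ξ ⬝ᵥ g y) ∧ Lap n P = 0 ∧ sg P = P := by
  choose p hp using hg.poly
  have hd : ∀ y v k, fderiv ℂ g y v k = eval y (D v (p k)) := fun y v k => by
    rw [← fderiv_eval, ← funext (hp k), fderiv_apply (hg.differentiable y)]
    rfl
  have he : ∀ y, eval y (∑ k, cx ξ k • p k) = cx ξ ⬝ᵥ g y := fun y => by
    simp only [map_sum, smul_eval, dotProduct, hp]
  refine ⟨∑ k, cx ξ k • p k, he, ?_, ?_⟩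
  · have h1 : ∀ l, D (Pi.single l 1) (∑ k, cx ξ k • p k) = D (cx ξ) (p l) := fun l =>
      MvPolynomial.funext fun y => by
        rw [← hd, ← dotProduct_single_one (fderiv ℂ g y (cx ξ)) l, hg.curl]
        simp only [map_sum, map_smul, smul_eval, dotProduct, hd, mul_comm]
    have h2 : ∑ l, D (Pi.single l 1) (p l) = 0 := MvPolynomial.funext fun y => by
      rw [map_sum, map_zero, ← hg.dvg y]
      simp only [hd]
    rw [Lap, LinearMap.sum_apply]
    simp only [sq, Module.End.mul_apply, h1, D_comm' (Pi.single _ 1) (cx ξ)]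
    rw [← map_sum, h2, map_zero]
  · refine MvPolynomial.funext fun y => ?_
    rw [← star_star y, eval_sg, he, he, star_star, hg.real]
    simp [dotProduct]

/-- double Taylor formula -/
lemma taylor2 (v w : Cn n) (P : PP n) : ∃ N : ℕ, ∀ (y : Cn n) (a b : ℂ),
    eval (y + a • v + b • w) P = ∑ i ∈ Finset.range N, ∑ j ∈ Finset.range N,
      a ^ i * b ^ j / (i ! * j !) * eval y ((D v ^ i * D w ^ j) P) := by
  obtain ⟨N1, h1⟩ := nil v P
  obtain ⟨N2, h2⟩ := nil w P
  refine ⟨max N1 N2, fun y a b => ?_⟩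
  rw [taylor _ w P (N := max N1 N2) fun m hm => h2 m (le_of_max_le_right hm), Finset.sum_comm]
  refine Finset.sum_congr rfl fun j _ => ?_
  rw [taylor y v _ (N := max N1 N2) fun m hm => by
    rw [← Module.End.mul_apply, ((D_comm v w).pow_pow m j).eq, Module.End.mul_apply,
      h1 m (le_of_max_le_left hm), map_zero], Finset.mul_sum]
  refine Finset.sum_congr rfl fun i _ => ?_
  rw [Module.End.mul_apply]
  ring

lemma fact_le (k j : ℕ) : (k ! : ℝ) * ((j : ℝ) ^ 2) ^ j ≤ ((k + j) ! * j !) * 9 ^ j := by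
  have h1 : (j : ℝ) ^ j ≤ j ! * 3 ^ j := by
    have := Real.pow_div_factorial_le_exp (j : ℝ) (Nat.cast_nonneg j) j
    rw [div_le_iff₀ (by positivity), ← mul_one (j : ℝ), Real.exp_nat_mul, mul_one] at this
    refine this.trans ?_
    rw [mul_comm]
    gcongr
    exact Real.exp_one_lt_three.le
  have h2 : (k ! : ℝ) * j ! ≤ (k + j) ! := by
    exact_mod_cast Nat.le_of_dvd (Nat.factorial_pos _)
      (Nat.factorial_mul_factorial_dvd_factorial_add k j)
  calc (k ! : ℝ) * ((j : ℝ) ^ 2) ^ j = k ! * ((j : ℝ) ^ j * (j : ℝ) ^ j) := by ring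
    _ ≤ k ! * ((j ! * 3 ^ j) * (j ! * 3 ^ j)) := by gcongr
    _ = (k ! * j !) * j ! * (3 * 3) ^ j := by rw [mul_pow]; ring
    _ ≤ (k + j) ! * j ! * (3 * 3) ^ j := by gcongr
    _ = _ := by norm_num

/-- the estimate of one term -/
lemma term_le {u1 u2 : Rn n} (h : ON u1 u2) {P : PP n} (hP : Lap n P = 0) {ρ R M : ℝ}
    (hρ : 0 < ρ) (hR : 0 < R) (y : Cn n)
    (hM : ∀ (s : ℂ) (t : Cn n), ‖s‖ ≤ 2 * ρ → zc u1 u2 t = 0 → wc u1 u2 t = 0 →
      ‖t‖ ≤ 9 * n * R → ‖eval (y + s • nv u1 u2 + t) P‖ ≤ M) {a b : ℂ} (ha : ‖a‖ ≤ ρ)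
    (ha' : ‖a‖ ≤ R) (hb : ‖b‖ ≤ R) {i j : ℕ} (hij : j ≤ i) :
    ‖a ^ i * b ^ j / (i ! * j !) * eval y ((D (nv u1 u2) ^ i * D (star (nv u1 u2)) ^ j) P)‖ ≤
      M * ((1 / 2) ^ i * (1 / 2) ^ j) := by
  obtain ⟨k, rfl⟩ : ∃ k, i = k + j := ⟨i - j, by omega⟩
  have hn : (1 : ℝ) ≤ n := by exact_mod_cast h.pos
  have hM0 : 0 ≤ M := (norm_nonneg _).trans
    (hM 0 0 (by simp [hρ.le]) (by simp [zc]) (by simp [wc]) (by simp; positivity))
  have h1 : ∀ s : ℂ, ‖s‖ ≤ 2 * ρ → ‖eval (y + s • nv u1 u2) ((LL u1 u2 ^ j) P)‖ ≤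
      (8 * n * j ^ 2 / (9 * n * R) ^ 2) ^ j * M := fun s hs => by
    rcases Nat.eq_zero_or_pos j with rfl | hj
    · simpa using hM s 0 hs (by simp [zc]) (by simp [wc]) (by simp; positivity)
    have hj' : (0 : ℝ) < j := by exact_mod_cast hj
    have := nagumo h (δ := 9 * n * R / j) (M := M) (by positivity) P j (y + s • nv u1 u2)
      fun t h1 h2 h3 => hM s t hs h1 h2 (h3.trans_eq (by field_simp))
    refine this.trans_eq ?_
    congr 2
    field_simp
  have h2 := cauchy y _ _ k (by positivity) h1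
  rw [pow_add (D _), mul_assoc (D _ ^ k), Module.End.mul_apply, mixed h hP, map_smul, smul_eval,
    norm_mul, norm_mul, norm_div, norm_mul, norm_mul, norm_pow, norm_pow, norm_pow, norm_natCast,
    norm_natCast, show ‖(-1 / 4 : ℂ)‖ = 1 / 4 by norm_num]
  have h3 := fact_le k j
  calc _ ≤ (ρ ^ k * R ^ j) * R ^ j / ((k + j) ! * j !) * ((1 / 4) ^ j *
        (k ! * ((8 * n * j ^ 2 / (9 * n * R) ^ 2) ^ j * M) / (2 * ρ) ^ k)) := by
        rw [pow_add]; gcongr
    _ = (ρ / (2 * ρ)) ^ k * (R * R * (1 / 4) * (8 * n / (9 * n * R) ^ 2)) ^ j * M *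
        ((k ! * ((j : ℝ) ^ 2) ^ j) / ((k + j) ! * j !)) := by
        rw [show 8 * n * (j : ℝ) ^ 2 / (9 * n * R) ^ 2 = 8 * n / (9 * n * R) ^ 2 * j ^ 2 by ring]
        generalize 8 * n / (9 * n * R) ^ 2 = c
        simp only [mul_pow, div_pow]
        ring
    _ ≤ (1 / 2) ^ k * (1 / 36) ^ j * M * 9 ^ j := by
        rw [show ρ / (2 * ρ) = 1 / 2 by field_simp]
        gcongr
        · rw [show R * R * (1 / 4) * (8 * n / (9 * n * R) ^ 2) = 2 / (81 * n) by field_simp; ring,
            div_le_div_iff₀ (by positivity) (by positivity)]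
          linarith
        · rw [div_le_iff₀ (by positivity)]
          linarith
    _ = _ := by
        rw [pow_add, show (1 / 36 : ℝ) = 1 / 2 * (1 / 2) / 9 by norm_num, div_pow _ 9, mul_pow]
        generalize (1 / 2 : ℝ) = c
        field_simp

/-- weights of the decomposition -/
def th (i j : ℕ) : ℝ := if j < i then 1 else if i = j then 1 / 2 else 0

lemma th_add (i j : ℕ) : th i j + th j i = 1 := by
  unfold th
  rcases lt_trichotomy i j with h | rfl | h
  · simp [h, h.ne, h.le]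
  · norm_num
  · simp [h, h.ne, h.le]

lemma sum_half (N : ℕ) : ∑ i ∈ Finset.range N, (1 / 2 : ℝ) ^ i ≤ 2 :=
  (summable_geometric_two.sum_le_tsum _ fun _ _ => by positivity).trans tsum_geometric_two.le

end Wave

open Wave MvPolynomial in
theorem wave (hn : 3 ≤ n) : WaveStmt n := by
  refine ⟨9 * n + 4, by linarith [Nat.cast_nonneg (α := ℝ) n], ?_⟩
  intro g x p r μ X B B1 lam u1 u2 ζ ξ hg hT hr hμ hp hz hw hl hζ hξ hB1 hB
  have h := hT.1
  have hn : (1 : ℝ) ≤ n := by exact_mod_cast h.pos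
  obtain ⟨P, hP, hL, hs⟩ := exists_poly hg ξ
  obtain ⟨N, hN⟩ := taylor2 (nv u1 u2) (star (nv u1 u2)) P
  obtain ⟨τ, hτ⟩ : ∃ τ, τ = ζ - (r : ℂ) • nv u1 u2 := ⟨_, rfl⟩
  have zτ : zc u1 u2 τ = 0 := by rw [hτ, zc_sub, zc_smul, hz, h.zc_nv]; simp
  have wτ : wc u1 u2 τ = 0 := by rw [hτ, wc_sub, wc_smul, hw, h.wc_nv]; simp
  have nτ : ‖τ‖ ≤ 3 / 2 * (r * lam) := by
    rw [hτ]
    refine (norm_sub_le _ _).trans ?_
    rw [norm_smul, Complex.norm_real, Real.norm_of_nonneg hr.le]
    nlinarith [h.norm_nv]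
  let a : ℕ → ℕ → E2 → ℂ := fun i j u => (r * u.1) ^ i * (r * u.2) ^ j / (i ! * j !) *
    eval (cx p + (u.1 • τ + u.2 • star τ)) ((D (nv u1 u2) ^ i * D (star (nv u1 u2)) ^ j) P)
  have ha : ∀ i j (u : E2), conj (a i j (conj u.2, conj u.1)) = a j i u := fun i j u => by
    have e1 : star (cx p + (conj u.2 • τ + conj u.1 • star τ)) = cx p + (u.1 • τ + u.2 • star τ) := by
      ext l; simp; ring
    have e2 : sg ((D (nv u1 u2) ^ i * D (star (nv u1 u2)) ^ j) P) =
        (D (nv u1 u2) ^ j * D (star (nv u1 u2)) ^ i) P := by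
      rw [Module.End.mul_apply, ← D_pow_sg, ← D_pow_sg, star_star, hs, ← Module.End.mul_apply,
        ((D_comm _ _).pow_pow i j).eq]
    simp only [a]
    rw [map_mul, ← eval_sg, e1, e2]
    congr 1
    simp; ring
  let A : E2 → ℂ := fun u => ∑ i ∈ Finset.range N, ∑ j ∈ Finset.range N, th i j * a i j u
  have hA : ∀ u, pz g p ζ ξ u = sym A u := fun u => by
    have e1 : cx p + u.1 • ζ + u.2 • star ζ =
        cx p + (u.1 • τ + u.2 • star τ) + (r * u.1) • nv u1 u2 + (r * u.2) • star (nv u1 u2) := by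
      ext l; simp [hτ]; ring
    rw [pz, ← hP, e1, hN]
    simp only [sym, A, map_sum, map_mul, ha, conj_ofReal]
    rw [Finset.sum_comm (f := fun i j => (th i j : ℂ) * a j i u), ← Finset.sum_add_distrib]
    refine Finset.sum_congr rfl fun i _ => ?_
    rw [← Finset.sum_add_distrib]
    refine Finset.sum_congr rfl fun j _ => ?_
    rw [← add_mul, ← ofReal_add, th_add]
    simp [a]
  have hsm : ContDiff ℂ 2 A := by
    refine ContDiff.sum fun i _ => ContDiff.sum fun j _ => contDiff_const.mul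
      (ContDiff.mul (by fun_prop) ?_)
    exact (AnalyticOnNhd.eval_mvPolynomial _).contDiff.comp (by fun_prop)
  refine ⟨A, ⟨hsm, ?_, fun u hu => ?_⟩, hA⟩
  · have : (fun u : E2 => conj (A (conj u.1, conj u.2))) =
        fun u : E2 => pz g p ζ ξ (u.2, u.1) - A (u.2, u.1) := by
      ext u; rw [hA, sym]; simp
    rw [this]
    exact ((hg.pz p ζ ξ 2).sub hsm).comp (contDiff_snd.prodMk contDiff_fst)
  obtain ⟨s, hs'⟩ : ∃ s, s = max ‖u.1‖ (Real.exp (-B1)) := ⟨_, rfl⟩
  rw [← hs']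
  have s1 : ‖u.1‖ ≤ s := hs' ▸ le_max_left _ _
  have s2 : Real.exp (-B1) ≤ s := hs' ▸ le_max_right _ _
  have s0 : 0 < s := (Real.exp_pos _).trans_le s2
  have u1' : ‖u.1‖ ≤ Real.exp B1 := (norm_fst_le u).trans hu
  have u2' : ‖u.2‖ ≤ Real.exp B1 := (norm_snd_le u).trans hu
  have s3 : s ≤ Real.exp B1 := hs' ▸ max_le u1' (Real.exp_le_exp.2 (by linarith))
  have hlog : 0 ≤ Real.log lam := Real.log_nonneg hl
  have eK : 9 * (n : ℝ) + 5 ≤ Real.exp (9 * n + 4) := by linarith [Real.add_one_le_exp (9 * n + 4)]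
  have e1 : 1 ≤ Real.exp B1 := Real.one_le_exp hB1
  have eB : Real.exp B1 * lam * (9 * n + 5) ≤ Real.exp B := by
    refine le_trans ?_ (Real.exp_le_exp.2 hB)
    rw [Real.exp_add, Real.exp_add, Real.exp_log (by linarith)]
    gcongr
  have eB' : n * Real.exp (-B) ≤ s := by
    refine le_trans ?_ s2
    rw [Real.exp_neg, Real.exp_neg, ← div_eq_mul_inv, ← one_div,
      div_le_div_iff₀ (Real.exp_pos _) (Real.exp_pos _)]
    nlinarith [mul_le_mul hl (show (n : ℝ) ≤ 9 * n + 5 by linarith) (by linarith) (by linarith)]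
  have eB0 : Real.exp (-B) ≤ 1 := Real.exp_le_one_iff.2 (by linarith)
  have S0 := SS_nonneg g (cx x) r
  have hpx : ‖cx p - cx x‖ ≤ r * Real.exp (-B) := by rwa [norm_cx_sub]
  have t0 : ‖u.1 • τ + u.2 • star τ‖ ≤ 3 * (r * (Real.exp B1 * lam)) := by
    refine (norm_add_le _ _).trans ?_
    rw [norm_smul, norm_smul, norm_star]
    nlinarith [mul_le_mul u1' nτ (norm_nonneg _) (by positivity),
      mul_le_mul u2' nτ (norm_nonneg _) (by positivity)]
  have key : ∀ (c : ℂ) (t : Cn n), ‖c‖ ≤ 2 * (r * s) → zc u1 u2 t = 0 → wc u1 u2 t = 0 →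
      ‖t‖ ≤ 9 * n * (r * Real.exp B1) →
      ‖eval (cx p + (u.1 • τ + u.2 • star τ) + c • nv u1 u2 + t) P‖ ≤
        n * (SS g (cx x) r * Real.exp X * (3 * s) ^ μ) := fun c t hc h1 h2 h3 => by
    have e : cx p + (u.1 • τ + u.2 • star τ) + c • nv u1 u2 + t - cx x =
        cx p - cx x + (u.1 • τ + u.2 • star τ) + c • nv u1 u2 + t := by abel
    have b1 : ‖c • nv u1 u2‖ ≤ r * Real.exp B1 := by
      rw [norm_smul]
      nlinarith [mul_le_mul hc h.norm_nv (norm_nonneg _) (by positivity)]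
    have b2 : r * Real.exp B1 ≤ r * (Real.exp B1 * lam) := by gcongr; nlinarith
    have b3 : r * Real.exp (-B) ≤ r * Real.exp B1 := by gcongr; linarith
    have b4 := hT.2 (cx p + (u.1 • τ + u.2 • star τ) + c • nv u1 u2 + t) (by
      rw [e]
      refine (norm_add_le_of_le (norm_add_le_of_le (norm_add_le_of_le hpx t0) b1) h3).trans ?_
      nlinarith [mul_le_mul_of_nonneg_left eB hr.le,
        mul_le_mul_of_nonneg_left b2 (show (0 : ℝ) ≤ 9 * n by positivity)])
    have b5 : n * ‖cx p - cx x‖ ≤ r * s := by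
      nlinarith [mul_le_mul_of_nonneg_left eB' hr.le,
        mul_le_mul_of_nonneg_left hpx (show (0 : ℝ) ≤ n by positivity)]
    rw [e] at b4
    simp only [zc_add, wc_add, zc_smul, wc_smul, zc_star, wc_star, zτ, wτ, h1, h2, h.zc_nv, h.wc_nv,
      map_zero, mul_zero, add_zero, mul_one] at b4
    rw [hP]
    refine (norm_dot_le _ _).trans ?_
    rw [norm_cx, mul_assoc]
    refine mul_le_mul_of_nonneg_left
      ((mul_le_of_le_one_left (norm_nonneg _) hξ).trans (b4.trans ?_)) (by positivity)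
    gcongr
    refine max_le ?_ (by nlinarith [Real.exp_pos (-B)])
    rw [div_le_iff₀ hr]
    exact max_le ((norm_add_le_of_le ((h.norm_zc _).trans b5) hc).trans (by linarith))
      (((h.norm_wc _).trans b5).trans (by nlinarith [mul_pos hr s0]))
  have hr1 : ∀ z : ℂ, ‖r * z‖ = r * ‖z‖ := fun z => by
    rw [norm_mul, Complex.norm_real, Real.norm_of_nonneg hr.le]
  have hterm : ∀ i j, ‖th i j * a i j u‖ ≤ n * (SS g (cx x) r * Real.exp X * (3 * s) ^ μ) *
      ((1 / 2) ^ i * (1 / 2) ^ j) := fun i j => by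
    rcases lt_or_ge i j with hij | hij
    · rw [th, if_neg (by omega), if_neg hij.ne, ofReal_zero, zero_mul, norm_zero]
      positivity
    rw [norm_mul]
    refine (mul_le_of_le_one_left (norm_nonneg _) ?_).trans (term_le h hL (by positivity)
      (by positivity) _ key (by rw [hr1]; gcongr) (by rw [hr1]; gcongr) (by rw [hr1]; gcongr) hij)
    unfold th
    split_ifs <;> norm_num
  calc ‖A u‖ ≤ ∑ i ∈ Finset.range N, ∑ j ∈ Finset.range N,
        n * (SS g (cx x) r * Real.exp X * (3 * s) ^ μ) * ((1 / 2) ^ i * (1 / 2) ^ j) :=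
        norm_sum_le_of_le _ fun i _ => norm_sum_le_of_le _ fun j _ => hterm i j
    _ = n * (SS g (cx x) r * Real.exp X * (3 * s) ^ μ) *
        ((∑ i ∈ Finset.range N, (1 / 2) ^ i) * ∑ j ∈ Finset.range N, (1 / 2) ^ j) := by
        rw [Finset.sum_mul_sum, Finset.mul_sum]
        simp only [Finset.mul_sum]
    _ ≤ n * (SS g (cx x) r * Real.exp X * (3 * s) ^ μ) * (2 * 2) := by
        gcongr <;> exact sum_half N
    _ = SS g (cx x) r * (Real.exp X * (3 ^ μ * (4 * n))) * s ^ μ := by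
        rw [Real.mul_rpow (by norm_num) s0.le]; ring
    _ ≤ _ := by
        rw [mul_add, mul_one, Real.exp_add, Real.exp_add, Real.exp_mul]
        gcongr <;> linarith

end

end Pool.Agent.LinN2
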