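import Pool.Agent.Lib.MP_8465a2_an.N2.BasicB

/-!
The winding estimate: the level curves of a wave of order `μ` have about `μ` real branches.
-/

namespace Pool.Agent.LinN2

open MeasureTheory Metric Set Filter Topology Complex
open scoped ENNReal ComplexConjugate

noncomputable section

namespace Wind

variable {A : E2 → ℂ} {S0 μ X B : ℝ}

/-- the complexified circle of radius `exp t` -/
def cu (t : ℝ) (w : ℂ) : E2 := (exp (t + w * I), exp (t - w * I))
/-- the wave along the complexified circle -/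
def ft (A : E2 → ℂ) (t : ℝ) (w : ℂ) : ℂ := 2 * A (cu t w)
/-- the wave on the real slice -/
def fr (A : E2 → ℂ) (x : ℂ) : ℂ := 2 * A (x, conj x)
/-- radial weight -/
def om (x : ℂ) : ℝ := bw (x * conj x) * ‖x‖ ^ 2
/-- the integrand of the limit mass -/
def PP (A : E2 → ℂ) (ε T : ℝ) (x : ℂ) : ℝ :=
  pt ε T (sym A (x, conj x)).re * ‖Tf (sym A) (x, conj x)‖

lemma cu_real (t s : ℝ) : cu t s = (exp (t + s * I), conj (exp (t + s * I))) := by
  rw [cu, ← exp_conj]
  simp [sub_eq_add_neg]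

lemma norm_cu1 (t : ℝ) (w : ℂ) : ‖(cu t w).1‖ = Real.exp (t - w.im) := by
  simp [cu, norm_exp, sub_eq_add_neg]

lemma norm_cu2 (t : ℝ) (w : ℂ) : ‖(cu t w).2‖ = Real.exp (t + w.im) := by
  simp [cu, norm_exp]

lemma hasDerivAt_cu (t : ℝ) (w : ℂ) :
    HasDerivAt (cu t) (I • ((cu t w).1, -(cu t w).2)) w := by
  have h1 : HasDerivAt (fun w : ℂ => exp (t + w * I)) (exp (t + w * I) * I) w := by
    simpa using (((hasDerivAt_id w).mul_const I).const_add (t : ℂ)).cexp
  have h2 : HasDerivAt (fun w : ℂ => exp (t - w * I)) (exp (t - w * I) * -I) w := by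
    simpa using (((hasDerivAt_id w).mul_const I).const_sub (t : ℂ)).cexp
  have h3 : I • ((cu t w).1, -(cu t w).2) =
      (exp (t + w * I) * I, exp (t - w * I) * -I) := by
    simp [cu, mul_comm]
  rw [h3]
  exact h1.prodMk h2

lemma diff_ft (h : Wav A S0 μ X B) (t : ℝ) : Differentiable ℂ (ft A t) :=
  ((h.sm.differentiable (by norm_num)).comp fun w => (hasDerivAt_cu t w).differentiableAt).const_mul 2

lemma per_ft (A : E2 → ℂ) (t : ℝ) : Function.Periodic (ft A t) (2 * Real.pi) := fun w => by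
  have h1 : exp (t + (w + 2 * Real.pi) * I) = exp (t + w * I) := by
    rw [← exp_periodic (t + w * I)]
    congr 1
    ring
  have h2 : exp (t - (w + 2 * Real.pi) * I) = exp (t - w * I) := by
    rw [← exp_periodic (t - (w + 2 * Real.pi) * I)]
    congr 1
    ring
  simp only [ft, cu, h1, h2]

lemma ft_real (A : E2 → ℂ) (t s : ℝ) : ft A t s = fr A (exp (t + s * I)) := by
  rw [ft, cu_real, fr]

lemma sym_cu (A : E2 → ℂ) (t s : ℝ) : sym A (cu t s) = ((ft A t s).re : ℝ) := by
  rw [ft, cu_real, sym_real]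
  simp

lemma norm_Tf (h : Wav A S0 μ X B) (t s : ℝ) :
    ‖Tf (sym A) (cu t s)‖ = |(deriv (ft A t) s).re| := by
  have h1 := (((h.sym_sm.differentiable (by norm_num)) (cu t s)).hasFDerivAt.comp_hasDerivAt
    (s : ℂ) (hasDerivAt_cu t s)).comp_ofReal
  have h2 := ((diff_ft h t s).hasDerivAt.real_of_complex).ofReal_comp
  have h3 := h1.unique (h2.congr_of_eventuallyEq (Eventually.of_forall fun y => sym_cu A t y))
  rw [map_smul] at h3
  have h4 := congrArg norm h3
  rwa [norm_smul, norm_I, one_mul, norm_real, Real.norm_eq_abs] at h4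

lemma PP_eq (h : Wav A S0 μ X B) (ε T t s : ℝ) :
    PP A ε T (exp (t + s * I)) = pt ε T (ft A t s).re * |(deriv (ft A t) s).re| := by
  rw [PP, ← cu_real, norm_Tf h, sym_cu, ofReal_re]

lemma norm_le (h : Wav A S0 μ X B) (hS : 0 ≤ S0) (hμ : 0 ≤ μ) {u : E2} {c : ℝ}
    (hu : ‖u‖ ≤ Real.exp B) (h1 : ‖u.1‖ ≤ Real.exp c) (h2 : -B ≤ c) :
    ‖2 * A u‖ ≤ 2 * (S0 * Real.exp (X + μ * c)) := by
  have h3 : (max ‖u.1‖ (Real.exp (-B))) ^ μ ≤ Real.exp (μ * c) := by
    rw [mul_comm, Real.exp_mul]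
    exact Real.rpow_le_rpow (by positivity) (max_le h1 (Real.exp_le_exp.2 h2)) hμ
  rw [norm_mul, Real.exp_add, ← mul_assoc S0]
  simp only [norm_ofNat]
  exact mul_le_mul_of_nonneg_left ((h.bd u hu).trans (by gcongr)) (by norm_num)

lemma norm_ft (h : Wav A S0 μ X B) (hS : 0 ≤ S0) (hμ : 0 ≤ μ) {t c : ℝ} {w : ℂ}
    (h1 : t - w.im ≤ c) (h2 : -B ≤ c) (h3 : c ≤ B) (h4 : t + w.im ≤ B) :
    ‖ft A t w‖ ≤ 2 * (S0 * Real.exp (X + μ * c)) := by
  refine norm_le h hS hμ ?_ (by rw [norm_cu1]; exact Real.exp_le_exp.2 h1) h2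
  rw [Prod.norm_def, norm_cu1, norm_cu2]
  exact max_le (Real.exp_le_exp.2 (h1.trans h3)) (Real.exp_le_exp.2 h4)

lemma norm_deriv_ft (h : Wav A S0 μ X B) (hS : 0 ≤ S0) (hμ : 0 ≤ μ) (hB : 2 ≤ B) {t : ℝ}
    (ht : |t| ≤ 1) (s : ℝ) : ‖deriv (ft A t) s‖ ≤ 2 * (S0 * Real.exp (X + 2 * μ)) := by
  have := norm_deriv_le_of_forall_mem_sphere_norm_le (c := (s : ℂ)) (R := 1)
    (C := 2 * (S0 * Real.exp (X + μ * 2))) one_pos (diff_ft h t).diffContOnCl fun z hz => by
      have h1 := abs_im_le_norm (z - s)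
      rw [mem_sphere_iff_norm.1 hz, sub_im, ofReal_im, sub_zero, abs_le] at h1
      rw [abs_le] at ht
      exact norm_ft h hS hμ (by linarith) (by linarith) hB (by linarith)
  rwa [div_one, mul_comm μ] at this

lemma continuous_U1 {E : Type} [TopologicalSpace E] {f : E → ℂ} (hf : Continuous f) {ε : ℝ}
    (hε : 0 < ε) : Continuous (U1 f ε) :=
  (Continuous.log (by fun_prop) fun y => by positivity).div_const 2

lemma continuous_pe {ε : ℝ} (hε : 0 < ε) : Continuous (pe ε) :=
  continuous_const.div (by fun_prop) fun c => by positivity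

lemma U1_le {E : Type} {f : E → ℂ} {y : E} {ε m : ℝ} (hε : 0 < ε) (h1 : ‖f y‖ ≤ 2 * m)
    (h2 : ε ≤ m) : U1 f ε y ≤ Real.log m + 1 := by
  have hm : 0 < m := hε.trans_le h2
  have h3 : ‖f y‖ ^ 2 + ε ^ 2 ≤ m ^ 2 * Real.exp 2 := by
    have h4 : ‖f y‖ ^ 2 ≤ (2 * m) ^ 2 := by gcongr
    have h5 : ε ^ 2 ≤ m ^ 2 := by gcongr
    have h6 : (5 : ℝ) ≤ Real.exp 2 := by
      have := Real.quadratic_le_exp_of_nonneg (x := 2) (by norm_num)
      linarith
    nlinarith [sq_nonneg m]
  have h7 := Real.log_le_log (by positivity) h3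
  rw [Real.log_mul (by positivity) (by positivity), Real.log_pow, Real.log_exp] at h7
  unfold U1
  push_cast at h7
  linarith

lemma le_of_U1 {E : Type} {f : E → ℂ} {y : E} {ε M s : ℝ} (hε : 0 < ε) (hM : 0 < M)
    (h : s ≤ Real.log M - U1 f ε y) : ‖f y‖ ≤ M * Real.exp (-s) := by
  have h1 : Real.log (‖f y‖ ^ 2 + ε ^ 2) ≤ Real.log ((M * Real.exp (-s)) ^ 2) := by
    rw [Real.log_pow, Real.log_mul hM.ne' (by positivity), Real.log_exp]
    unfold U1 at h
    push_cast
    linarith
  have h2 := (Real.log_le_log_iff (by positivity) (by positivity)).1 h1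
  exact (pow_le_pow_iff_left₀ (norm_nonneg _) (by positivity) two_ne_zero).1
    (by linarith [sq_nonneg ε])

/-- the estimate on one circle -/
lemma circle (h1 : CircStmt) (h5 : PtStmt) (h : Wav A S0 μ X B) {S ε T δ : ℝ} (hS0 : 0 < S0)
    (hμ : 0 ≤ μ) (hX : 0 ≤ X) (hS : 1 ≤ S) (hB : S + 1 ≤ B) (hε : 0 < ε)
    (hε' : ε ≤ S0 * Real.exp (-(μ * (S + 1)))) (hT : 0 < T)
    (hδ : ε ^ 2 * (S0 * Real.exp (X + 2 * μ)) ≤ δ * T ^ 3) {t : ℝ} (ht : |t| ≤ 1) :
    0 ≤ ∫ s in (-Real.pi)..Real.pi, (PP A ε T (exp (t + s * I)) -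
      U1 (fr A) ε (exp (t + s * I)) / (Real.pi * S) +
      ((Real.log S0 + (X + μ * (1 - S)) + 1) / (Real.pi * S) + δ)) := by
  have hd := diff_ft h t
  have hc := h1 (ft A t) ε S hd (per_ft A t) hε (by linarith)
  have hpi := Real.pi_pos
  have hle : -Real.pi ≤ Real.pi := by linarith
  have c0 : Continuous fun s : ℝ => ft A t s := hd.continuous.comp continuous_ofReal
  have c1 : Continuous fun s : ℝ => |(deriv (ft A t) s).re| :=
    (continuous_re.comp (hd.deriv.continuous.comp continuous_ofReal)).abs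
  have c2 : Continuous fun s : ℝ => pt ε T (ft A t s).re * |(deriv (ft A t) s).re| :=
    ((h5.1 ε T hε hT).1.comp (continuous_re.comp c0)).mul c1
  have c3 : Continuous fun s : ℝ => pe ε (ft A t s).re * |(deriv (ft A t) s).re| :=
    ((continuous_pe hε).comp (continuous_re.comp c0)).mul c1
  have c4 : Continuous fun s : ℝ => U1 (ft A t) ε s :=
    (continuous_U1 hd.continuous hε).comp continuous_ofReal
  have c5 : Continuous fun s : ℝ => U1 (ft A t) ε (s + S * I) :=
    (continuous_U1 hd.continuous hε).comp (by fun_prop)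
  set C := Real.log S0 + (X + μ * (1 - S)) + 1 with hC
  have e1 : ∀ s : ℝ, U1 (fr A) ε (exp (t + s * I)) = U1 (ft A t) ε s := fun s => by
    rw [U1, U1, ft_real]
  simp only [PP_eq h, e1]
  have i1 : ∫ s in (-Real.pi)..Real.pi, U1 (ft A t) ε (s + S * I) ≤
      ∫ _ in (-Real.pi)..Real.pi, C := by
    refine intervalIntegral.integral_mono_on hle (c5.intervalIntegrable _ _)
      intervalIntegrable_const fun s _ => ?_
    rw [abs_le] at ht
    have := U1_le (f := ft A t) (y := s + S * I) (m := S0 * Real.exp (X + μ * (1 - S))) hε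
      (norm_ft h hS0.le hμ (by simp; linarith) (by linarith) (by linarith) (by simp; linarith))
      (hε'.trans (by gcongr; nlinarith))
    rwa [Real.log_mul hS0.ne' (by positivity), Real.log_exp] at this
  have i2 : ∫ s in (-Real.pi)..Real.pi, pe ε (ft A t s).re * |(deriv (ft A t) s).re| ≤
      ∫ s in (-Real.pi)..Real.pi, (pt ε T (ft A t s).re * |(deriv (ft A t) s).re| + δ) := by
    refine intervalIntegral.integral_mono_on hle (c3.intervalIntegrable _ _)
      ((c2.add continuous_const).intervalIntegrable _ _) fun s _ => ?_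
    have a1 := (h5.1 ε T hε hT).2.2.2.2.2 (ft A t s).re
    have a2 := (abs_re_le_norm _).trans (norm_deriv_ft h hS0.le hμ (by linarith) ht s)
    have a3 : ε ^ 2 / (2 * T ^ 3) * |(deriv (ft A t) s).re| ≤ δ := by
      rw [div_mul_eq_mul_div, div_le_iff₀ (by positivity)]
      nlinarith [mul_le_mul_of_nonneg_left a2 (sq_nonneg ε)]
    nlinarith [mul_le_mul_of_nonneg_right a1 (abs_nonneg (deriv (ft A t) s).re)]
  rw [intervalIntegral.integral_add (c2.intervalIntegrable _ _) intervalIntegrable_const] at i2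
  have c6 : Continuous fun s : ℝ => pt ε T (ft A t s).re * |(deriv (ft A t) s).re| -
      U1 (ft A t) ε s / (Real.pi * S) := c2.sub (c4.div_const _)
  rw [intervalIntegral.integral_add (c6.intervalIntegrable _ _)
    intervalIntegrable_const, intervalIntegral.integral_sub (c2.intervalIntegrable _ _)
    ((c4.div_const _).intervalIntegrable _ _), intervalIntegral.integral_div]
  simp only [intervalIntegral.integral_const, smul_eq_mul] at i1 i2 ⊢
  set J0 := ∫ s in (-Real.pi)..Real.pi, U1 (ft A t) ε s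
  set JS := ∫ s in (-Real.pi)..Real.pi, U1 (ft A t) ε (s + S * I)
  set P1 := ∫ s in (-Real.pi)..Real.pi, pt ε T (ft A t s).re * |(deriv (ft A t) s).re|
  set P2 := ∫ s in (-Real.pi)..Real.pi, pe ε (ft A t s).re * |(deriv (ft A t) s).re|
  have a1 : (J0 - (Real.pi - -Real.pi) * C) / (Real.pi * S) ≤ P2 := by
    rw [div_le_iff₀ (by linarith)] at hc
    rw [div_le_iff₀ (by positivity)]
    nlinarith
  rw [sub_div, mul_div_assoc] at a1
  linarith

lemma om_nonneg (h5 : PtStmt) (x : ℂ) : 0 ≤ om x :=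
  mul_nonneg (h5.2.2.2.2.2.2.1 _) (by positivity)

lemma om_ne (h5 : PtStmt) {x : ℂ} (hx : om x ≠ 0) :
    Real.exp (-2) ≤ ‖x‖ ^ 2 ∧ ‖x‖ ^ 2 ≤ Real.exp 2 := by
  have := h5.2.2.2.2.2.2.2.2.1 _ (left_ne_zero_of_mul hx)
  rwa [norm_mul, norm_conj, ← sq] at this

lemma norm_le_three (h5 : PtStmt) {x : ℂ} (hx : om x ≠ 0) : ‖x‖ ≤ 3 := by
  have h1 := (om_ne h5 hx).2
  have h2 : Real.exp 2 ≤ 3 ^ 2 := by
    rw [show (2 : ℝ) = 1 + 1 by norm_num, Real.exp_add]
    nlinarith [Real.exp_one_lt_d9, Real.exp_pos 1]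
  exact (pow_le_pow_iff_left₀ (norm_nonneg _) (by norm_num) two_ne_zero).1 (h1.trans h2)

lemma om_le (h5 : PtStmt) (x : ℂ) : om x ≤ Real.exp 4 * 9 := by
  by_cases hx : om x = 0
  · rw [hx]; positivity
  · have h1 := norm_le_three h5 hx
    exact mul_le_mul (h5.2.2.2.2.2.2.2.1 _) (by nlinarith [norm_nonneg x]) (by positivity)
      (by positivity)

lemma continuous_om (h5 : PtStmt) : Continuous om :=
  (h5.2.2.2.2.2.1.comp (by fun_prop)).mul (by fun_prop)

lemma supp_om (h5 : PtStmt) (g : ℂ → ℝ) : HasCompactSupport fun x => om x * g x :=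
  HasCompactSupport.intro (isCompact_closedBall 0 3) fun x hx => by
    rw [of_not_not (mt (norm_le_three h5) (by simpa using hx)), zero_mul]

lemma int_om (h5 : PtStmt) {g : ℂ → ℝ} (hg : Continuous g) : Integrable fun x => om x * g x :=
  ((continuous_om h5).mul hg).integrable_of_hasCompactSupport (supp_om h5 g)

lemma om_exp (t s : ℝ) : om (exp (t + s * I)) = om (exp t) := by
  have h : ‖exp (t + s * I)‖ = ‖exp (t : ℂ)‖ := by simp [norm_exp]
  rw [om, om, mul_conj', mul_conj', h]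

/-- integration of an estimate on circles -/
lemma radial (h2 : PolarStmt) (h5 : PtStmt) {g : ℂ → ℝ} (hg : Continuous g)
    (h : ∀ t : ℝ, |t| ≤ 1 → 0 ≤ ∫ s in (-Real.pi)..Real.pi, g (exp (t + s * I))) :
    0 ≤ ∫ x, om x * g x := by
  rw [h2.2.2.1 (fun x => om x * g x) ((continuous_om h5).mul hg) (supp_om h5 g)]
  refine integral_nonneg fun t => ?_
  simp only [om_exp, ← mul_assoc, intervalIntegral.integral_const_mul, Pi.zero_apply]
  by_cases h0 : om (exp t) = 0
  · simp [h0]
  · refine mul_nonneg (mul_nonneg (by positivity) (om_nonneg h5 _)) (h t ?_)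
    have := om_ne h5 h0
    rw [norm_exp, ofReal_re, ← Real.exp_nat_mul, Real.exp_le_exp, Real.exp_le_exp] at this
    push_cast at this
    rw [abs_le]
    constructor <;> linarith [this.1, this.2]

lemma continuous_fr (h : Wav A S0 μ X B) : Continuous (fr A) :=
  continuous_const.mul (h.sm.continuous.comp (by fun_prop))

/-- the mean depth of the wave on the real slice -/
lemma depth (h3 : CarStmt) (h4 : TailStmt) (h5 : PtStmt) {C2 : ℝ} (hC : 1 ≤ C2) :
    ∃ K : ℝ, 0 ≤ K ∧ ∀ (A : E2 → ℂ) (S0 μ X X' B ε : ℝ) (z1 : ℂ), Wav A S0 μ X B → 0 < S0 →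
      1 / 2 ≤ μ → 0 ≤ X → 0 ≤ X' → 48 + 17 * C2 ≤ B → ‖z1‖ ≤ C2 →
      S0 * Real.exp (-X') ≤ ‖sym A (z1, conj z1)‖ → 0 < ε →
      ∫ x, om x * (Real.log S0 + X - U1 (fr A) ε x) ≤ K * (X + X' + μ) := by
  obtain ⟨K, hK, hcar⟩ := h3 ℂ
  set ρ := 3 + C2 with hρ
  set R := 48 + 17 * C2 with hR
  set v := (volume (closedBall (0 : ℂ) ρ)).toReal with hv
  have hv0 : 0 ≤ v := ENNReal.toReal_nonneg
  refine ⟨Real.exp 4 * 9 * (K * v * (4 * (R + 2))), by positivity,
    fun A S0 μ X X' B ε z1 h hS0 hμ hX hX' hB hz hz' hε => ?_⟩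
  set M := 2 * (S0 * Real.exp (X + μ * R)) with hM
  set L := X + X' + μ * R + 1 with hL
  have hM0 : 0 < M := by positivity
  have hμR : 0 ≤ μ * R := by positivity
  have hL1 : 1 ≤ L := by linarith
  have cU := continuous_U1 (continuous_fr h) hε
  have hRe : R ≤ Real.exp R := by linarith [Real.add_one_le_exp R]
  have key : ∀ s, volume {w : ℂ | ‖w‖ ≤ ρ ∧ ‖fr A (z1 + w)‖ ≤ M * Real.exp (-s)} ≤
      ENNReal.ofReal (K * v * Real.exp (-s / (4 * L))) := fun s => by
    refine (hcar volume (fun w => ‖fr A (z1 + w)‖) ρ M L s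
      ((continuous_fr h).comp (by fun_prop)).norm.measurable (by positivity) hM0 hL1
      fun w hw => ⟨fun ζ => 2 * A (z1 + ζ * w, conj z1 + ζ * conj w), ?_, fun ζ hζ => ?_, ?_,
        fun t _ => ?_⟩).trans (le_of_eq ?_)
    · exact ((h.sm.differentiable (by norm_num)).comp (by fun_prop)).const_mul 2
    · have a0 : ‖ζ‖ * ‖w‖ ≤ 8 * (2 * ρ) := by gcongr
      have a1 : ‖z1 + ζ * w‖ ≤ R := (norm_add_le _ _).trans (by rw [norm_mul]; linarith)
      have a2 : ‖conj z1 + ζ * conj w‖ ≤ R :=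
        (norm_add_le _ _).trans (by rw [norm_mul, norm_conj, norm_conj]; linarith)
      exact norm_le h hS0.le (by linarith)
        ((max_le a1 a2).trans (hRe.trans (Real.exp_le_exp.2 hB))) (a1.trans hRe) (by linarith)
    · have a1 : ‖sym A (z1, conj z1)‖ ≤ ‖2 * A (z1, conj z1)‖ := by
        rw [sym_real, norm_real, Real.norm_eq_abs, abs_mul, norm_mul]
        simpa using abs_re_le_norm _
      simp only [zero_mul, add_zero]
      refine le_trans ?_ (hz'.trans a1)
      have a2 : Real.exp (X + μ * R) * Real.exp (-L) = Real.exp (-X') * Real.exp (-1) := by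
        rw [← Real.exp_add, ← Real.exp_add]
        congr 1
        ring
      have a3 : 2 * Real.exp (-1) ≤ 1 := by
        rw [Real.exp_neg, ← div_eq_mul_inv, div_le_one (Real.exp_pos 1)]
        linarith [Real.add_one_le_exp 1]
      calc M * Real.exp (-L) = S0 * Real.exp (-X') * (2 * Real.exp (-1)) := by
            rw [hM, mul_assoc, mul_assoc, a2]; ring
        _ ≤ _ := mul_le_of_le_one_right (by positivity) a3
    · simp [fr]
    · rw [mul_right_comm, ENNReal.ofReal_mul (q := v) (by positivity), hv,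
        ENNReal.ofReal_toReal measure_closedBall_lt_top.ne]
  let f : ℂ → ℝ := (closedBall z1 ρ).indicator fun x => Real.log M - U1 (fr A) ε x
  have cf : Continuous fun x => Real.log M - U1 (fr A) ε x := continuous_const.sub cU
  have mf : Measurable f := cf.measurable.indicator measurableSet_closedBall
  have tail := (h4 ℂ volume f (K * v) (4 * L) mf (by positivity)
    (by positivity) fun s hs => by
      refine le_trans ?_ (key s)
      refine le_of_le_of_eq (measure_mono fun x hx => ?_)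
        (measure_preimage_add_right volume (-z1) _)
      have hx2 : s ≤ f x := hx
      by_cases hx' : x ∈ closedBall z1 ρ
      · simp only [f, indicator_of_mem hx'] at hx2
        refine ⟨by simpa [dist_eq_norm, sub_eq_add_neg] using hx', ?_⟩
        simpa using le_of_U1 hε hM0 hx2
      · simp only [f, indicator_of_notMem hx'] at hx2
        linarith).1
  have hlog : Real.log S0 + X ≤ Real.log M := by
    rw [hM, Real.log_mul (by norm_num) (by positivity), Real.log_mul hS0.ne' (by positivity),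
      Real.log_exp]
    linarith [Real.log_nonneg (x := 2) (by norm_num)]
  have b1 : ∫⁻ x, ENNReal.ofReal (om x * (Real.log S0 + X - U1 (fr A) ε x)) ≤
      ENNReal.ofReal (Real.exp 4 * 9 * (K * v * (4 * L))) := by
    rw [ENNReal.ofReal_mul (by positivity)]
    refine le_trans ?_ (mul_le_mul_right tail _)
    rw [← lintegral_const_mul' _ _ ENNReal.ofReal_ne_top]
    refine lintegral_mono fun x => ?_
    by_cases hx : om x = 0
    · simp [hx]
    · have hx' : x ∈ closedBall z1 ρ := mem_closedBall_iff_norm.2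
        ((norm_sub_le _ _).trans (by linarith [norm_le_three h5 hx]))
      simp only [f, indicator_of_mem hx']
      rw [ENNReal.ofReal_mul (om_nonneg h5 x)]
      exact mul_le_mul' (ENNReal.ofReal_le_ofReal (om_le h5 x))
        (ENNReal.ofReal_le_ofReal (by linarith))
  have cg : Continuous fun x => Real.log S0 + X - U1 (fr A) ε x := continuous_const.sub cU
  rw [integral_eq_lintegral_pos_part_sub_lintegral_neg_part (int_om h5 cg)]
  refine (sub_le_self _ ENNReal.toReal_nonneg).trans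
    ((ENNReal.toReal_le_of_le_ofReal (by positivity) b1).trans ?_)
  have b2 : L ≤ (R + 2) * (X + X' + μ) := by nlinarith
  calc Real.exp 4 * 9 * (K * v * (4 * L))
      ≤ Real.exp 4 * 9 * (K * v * (4 * ((R + 2) * (X + X' + μ)))) := by gcongr
    _ = _ := by ring

end Wind

open Wind in
theorem wind (h1 : CircStmt) (h2 : PolarStmt) (h3 : CarStmt) (h4 : TailStmt) (h5 : PtStmt) :
    WindStmt := by
  intro C2 hC
  obtain ⟨K, hK, hd⟩ := depth h3 h4 h5 hC
  have hV : 0 < VV := h5.2.2.2.2.2.2.2.2.2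
  have hpi := Real.pi_pos
  refine ⟨48 + 17 * C2 + (3 * VV + 4 * Real.pi * K) + Real.pi * VV, by
    have : 0 ≤ 3 * VV + 4 * Real.pi * K + Real.pi * VV := by positivity
    linarith, fun A S0 μ X X' B S ε T δ z1 h hS0 hμ hX hX' hS hB hKB hz hz' hε hε' hT hδ0 hδ => ?_⟩
  have p1 : 0 ≤ 3 * VV + 4 * Real.pi * K := by positivity
  have p2 : 0 ≤ Real.pi * VV := by positivity
  have d1 := hd A S0 μ X X' B ε z1 h hS0 hμ hX hX' (by linarith) hz hz' hε
  have cU := continuous_U1 (continuous_fr h) hε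
  have cP : Continuous (PP A ε T) :=
    ((h5.1 ε T hε hT).1.comp (continuous_re.comp (h.sym_sm.continuous.comp (by fun_prop)))).mul
      ((continuous_Tf h.sym_sm).comp (by fun_prop)).norm
  have d2 := radial h2 h5 (g := fun x => PP A ε T x - U1 (fr A) ε x / (Real.pi * S) +
    ((Real.log S0 + (X + μ * (1 - S)) + 1) / (Real.pi * S) + δ)) (by fun_prop)
    fun t ht => circle h1 h5 h hS0 (by linarith) hX hS hB hε hε' hT hδ ht
  have e1 : ∀ x, om x * (PP A ε T x - U1 (fr A) ε x / (Real.pi * S) +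
      ((Real.log S0 + (X + μ * (1 - S)) + 1) / (Real.pi * S) + δ)) =
      om x * PP A ε T x + om x * (Real.log S0 + X - U1 (fr A) ε x) / (Real.pi * S) +
        om x * ((μ * (1 - S) + 1) / (Real.pi * S) + δ) := fun x => by ring
  simp only [e1] at d2
  have cg : Continuous fun x => Real.log S0 + X - U1 (fr A) ε x := continuous_const.sub cU
  have i1 := int_om h5 cP
  have i2 := (int_om h5 cg).div_const (Real.pi * S)
  have i12 : Integrable fun x => om x * PP A ε T x +
      om x * (Real.log S0 + X - U1 (fr A) ε x) / (Real.pi * S) := i1.add i2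
  have i3 : Integrable fun x => om x * ((μ * (1 - S) + 1) / (Real.pi * S) + δ) :=
    int_om h5 continuous_const
  rw [integral_add i12 i3, integral_add i1 i2, integral_div, integral_mul_const,
    show ∫ x, om x = VV / (4 * Real.pi) from h2.2.2.2.2.2] at d2
  change _ ≤ 4 * Real.pi ^ 2 * ∫ x, om x * PP A ε T x
  set G := ∫ x, om x * PP A ε T x
  set D := ∫ x, om x * (Real.log S0 + X - U1 (fr A) ε x)
  have hS' : 0 < S := by linarith
  set Q := (X + X' + μ) / S with hQ
  have hQ0 : 0 ≤ Q := by positivity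
  have e2 : 4 * Real.pi ^ 2 * (G + D / (Real.pi * S) +
      VV / (4 * Real.pi) * ((μ * (1 - S) + 1) / (Real.pi * S) + δ)) =
      4 * Real.pi ^ 2 * G + 4 * Real.pi * (D / S) + VV * ((μ + 1) / S) - VV * μ +
        Real.pi * VV * δ := by
    field_simp
    ring
  have d3 := mul_nonneg (by positivity : 0 ≤ 4 * Real.pi ^ 2) d2
  rw [e2] at d3
  have d4 : D / S ≤ K * Q := by
    rw [hQ, ← mul_div_assoc]
    gcongr
  have d5 : (μ + 1) / S ≤ 3 * Q := by
    rw [hQ, ← mul_div_assoc]
    gcongr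
    linarith
  have d6 := mul_le_mul_of_nonneg_left d4 (by positivity : 0 ≤ 4 * Real.pi)
  have d7 := mul_le_mul_of_nonneg_left d5 hV.le
  have d8 : 0 ≤ (48 + 17 * C2) * (Q + δ) := by positivity
  nlinarith [mul_nonneg p1 hδ0, mul_nonneg p2 hQ0]

end

end Pool.Agent.LinN2
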