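import Pool.Agent.Lib.MP_8465a2_an.N2.BasicB

/-!
Covering count for the points with few bad and many degenerate scales.
-/

namespace Pool.Agent.LinN2

open Metric Set

namespace Y

variable {n : ℕ}

/-- a net with a cardinality bound -/
lemma net (h : NetStmt) (E : Type) [NormedAddCommGroup E] [NormedSpace ℝ E] [FiniteDimensional ℝ E]
    (R δ : ℝ) (hR : 0 ≤ R) (hδ : 0 < δ) :
    ∃ F : Finset E, (∀ x : E, ‖x‖ ≤ R → ∃ q ∈ F, ‖x - q‖ ≤ δ) ∧
      (F.card : ℝ) ≤ (2 * R / δ + 1) ^ Module.finrank ℝ E := by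
  obtain ⟨F, h1, h2, h3⟩ := h.2 E {x | ‖x‖ ≤ R} 0 R δ hδ (fun x hx => by simpa using hx)
  exact ⟨F, fun x hx => h3 x hx, h.1 E F 0 R δ hR hδ (fun x hx => by simpa using h1 x hx) h2⟩

/-- one refinement step inside a ball -/
lemma step (h : NetStmt) {A : ℕ} (hA : 1 ≤ A) (Y : Set (Rn n)) (i d : ℕ)
    (hY : ∀ x ∈ Y, Near A i d (fun x' => x' ∈ Y) x) (c : Rn n) :
    ∃ G : Finset (Rn n), (∀ x ∈ Y, ‖x - c‖ ≤ rj A i → ∃ q ∈ G, ‖x - q‖ ≤ rj A (i + 1)) ∧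
      (G.card : ℝ) ≤ (13 * (A : ℝ)) ^ d := by
  classical
  have hA' : (1 : ℝ) ≤ A := by exact_mod_cast hA
  by_cases hx : ∃ x0 ∈ Y, ‖x0 - c‖ ≤ rj A i
  swap
  · exact ⟨∅, fun x hx1 hx2 => absurd ⟨x, hx1, hx2⟩ hx, by simp⟩
  obtain ⟨x0, hx0, hc⟩ := hx
  obtain ⟨W, hW, hN⟩ := hY x0 hx0
  have hr := rj_pos hA i
  have hδ : 0 < rj A i / (2 * A) := by positivity
  have hδr : rj A i / (2 * A) ≤ rj A i := div_le_self hr.le (by linarith)
  obtain ⟨F, hF, hcard⟩ := net h W (3 * rj A i) (rj A i / (2 * A)) (by positivity) hδ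
  refine ⟨F.image fun q : W => x0 + (q : Rn n), fun x hx1 hx2 => ?_, ?_⟩
  · have h2 : ‖x - x0‖ ≤ 2 * rj A i := by
      calc ‖x - x0‖ = ‖(x - c) - (x0 - c)‖ := by congr 1; abel
        _ ≤ ‖x - c‖ + ‖x0 - c‖ := norm_sub_le _ _
        _ ≤ _ := by linarith
    obtain ⟨w, hw, hw2⟩ := hN x hx1 h2
    have hwn : ‖(⟨w, hw⟩ : W)‖ ≤ 3 * rj A i := by
      change ‖w‖ ≤ _
      calc ‖w‖ = ‖(x - x0) - (x - x0 - w)‖ := by congr 1; abel
        _ ≤ ‖x - x0‖ + ‖x - x0 - w‖ := norm_sub_le _ _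
        _ ≤ _ := by linarith
    obtain ⟨q, hq, hq2⟩ := hF _ hwn
    refine ⟨x0 + q, Finset.mem_image.2 ⟨q, hq, rfl⟩, ?_⟩
    have hq3 : ‖w - (q : Rn n)‖ ≤ rj A i / (2 * A) := hq2
    calc ‖x - (x0 + q)‖ = ‖(x - x0 - w) + (w - (q : Rn n))‖ := by congr 1; abel
      _ ≤ ‖x - x0 - w‖ + ‖w - (q : Rn n)‖ := norm_add_le _ _
      _ ≤ rj A i / (2 * A) + rj A i / (2 * A) := add_le_add hw2 hq3
      _ = rj A (i + 1) := by rw [rj_succ]; field_simp; ring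
  · have e : 2 * (3 * rj A i) / (rj A i / (2 * A)) + 1 = 12 * A + 1 := by field_simp; ring
    rw [e] at hcard
    calc ((F.image fun q : W => x0 + (q : Rn n)).card : ℝ) ≤ F.card := by
          exact_mod_cast Finset.card_image_le
      _ ≤ (12 * (A : ℝ) + 1) ^ Module.finrank ℝ W := hcard
      _ ≤ (13 * (A : ℝ)) ^ Module.finrank ℝ W := by gcongr; linarith
      _ ≤ (13 * (A : ℝ)) ^ d := pow_le_pow_right₀ (by linarith) hW

/-- recursive cover -/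
lemma cover (h : NetStmt) {A : ℕ} (hA : 1 ≤ A) (Y : Set (Rn n)) (hY5 : ∀ x ∈ Y, ‖x‖ ≤ 5)
    (d : ℕ → ℕ) (m : ℕ) (hY : ∀ i < m, ∀ x ∈ Y, Near A i (d i) (fun x' => x' ∈ Y) x) :
    ∃ F : Finset (Rn n), (∀ x ∈ Y, ∃ c ∈ F, ‖x - c‖ ≤ rj A m) ∧
      (F.card : ℝ) ≤ 11 ^ n * (13 * (A : ℝ)) ^ (∑ i ∈ Finset.range m, d i) := by
  classical
  induction m with
  | zero =>
    obtain ⟨F, hF, hc⟩ := net h (Rn n) 5 1 (by norm_num) one_pos
    refine ⟨F, fun x hx => by simpa using hF x (hY5 x hx), ?_⟩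
    have e : Module.finrank ℝ (Rn n) = n := by simp
    rw [e] at hc
    norm_num at hc ⊢
    exact_mod_cast hc
  | succ m ih =>
    obtain ⟨F, hF, hc⟩ := ih fun i hi => hY i (by omega)
    choose G hG1 hG2 using step h hA Y m (d m) (hY m (by omega))
    refine ⟨F.biUnion G, fun x hx => ?_, ?_⟩
    · obtain ⟨c, hc1, hc2⟩ := hF x hx
      obtain ⟨q, hq1, hq2⟩ := hG1 c x hx hc2
      exact ⟨q, Finset.mem_biUnion.2 ⟨c, hc1, hq1⟩, hq2⟩
    · calc ((F.biUnion G).card : ℝ) ≤ ∑ c ∈ F, ((G c).card : ℝ) := by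
            exact_mod_cast Finset.card_biUnion_le
        _ ≤ ∑ _c ∈ F, (13 * (A : ℝ)) ^ d m := Finset.sum_le_sum fun c _ => hG2 c
        _ = F.card * (13 * (A : ℝ)) ^ d m := by simp
        _ ≤ (11 ^ n * (13 * (A : ℝ)) ^ (∑ i ∈ Finset.range m, d i)) * (13 * (A : ℝ)) ^ d m := by
            gcongr
        _ = _ := by rw [Finset.sum_range_succ, pow_add, mul_assoc]

lemma near_mono {A i d : ℕ} {P Q : Rn n → Prop} {x : Rn n} (h : Near A i d P x)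
    (hQ : ∀ x', Q x' → P x') : Near A i d Q x := by
  obtain ⟨W, h1, h2⟩ := h
  exact ⟨W, h1, fun x' hx' => h2 x' (hQ x' hx')⟩

lemma near_top {A : ℕ} (hA : 1 ≤ A) (i : ℕ) (P : Rn n → Prop) (x : Rn n) : Near A i n P x := by
  refine ⟨⊤, by simp, fun x' _ _ => ⟨x' - x, trivial, ?_⟩⟩
  have := rj_pos hA i
  rw [sub_self, norm_zero]
  positivity

/-- dimension attached to a pattern -/
def dm (n : ℕ) (S0 S2 : Finset ℕ) (i : ℕ) : ℕ :=
  if i ∈ S2 then n - 3 else if i ∈ S0 then n else n - 2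

lemma sum_dm (hn : 3 ≤ n) (m : ℕ) {S0 S2 : Finset ℕ} (h2 : S2 ⊆ Finset.range m) :
    ∑ i ∈ Finset.range m, dm n S0 S2 i + S2.card ≤ m * (n - 2) + 2 * S0.card := by
  classical
  have e2 : S2.card = ∑ i ∈ Finset.range m, if i ∈ S2 then 1 else 0 := by
    rw [Finset.sum_ite_mem, Finset.inter_eq_right.2 h2]; simp
  have e0 : ∑ i ∈ Finset.range m, (if i ∈ S0 then 1 else 0) ≤ S0.card := by
    rw [Finset.sum_ite_mem]
    simpa using Finset.card_le_card Finset.inter_subset_right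
  have e1 : m * (n - 2) = ∑ _i ∈ Finset.range m, (n - 2) := by simp
  calc _ = ∑ i ∈ Finset.range m, (dm n S0 S2 i + if i ∈ S2 then 1 else 0) := by
        rw [Finset.sum_add_distrib, ← e2]
    _ ≤ ∑ i ∈ Finset.range m, ((n - 2) + 2 * if i ∈ S0 then 1 else 0) := by
        refine Finset.sum_le_sum fun i _ => ?_
        unfold dm
        split_ifs <;> omega
    _ = m * (n - 2) + 2 * ∑ i ∈ Finset.range m, (if i ∈ S0 then 1 else 0) := by
        rw [Finset.sum_add_distrib, ← e1, Finset.mul_sum]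
    _ ≤ _ := by omega

lemma numerics {A J D : ℕ} (hA : (48 * 13 ^ (2 * n)) ^ 16 ≤ A)
    (hD : 16 * D + J ≤ 16 * (2 * J * (n - 2))) :
    (16 : ℝ) ^ J * (11 ^ n * (13 * (A : ℝ)) ^ D) * rj A (2 * J) ^ (n - 2) ≤
      11 ^ n * Real.exp (-(J : ℝ)) := by
  obtain ⟨k, hk⟩ : ∃ k, 2 * J * (n - 2) = D + k := ⟨2 * J * (n - 2) - D, by omega⟩
  have hJk : J ≤ 16 * k := by omega
  set T : ℝ := 48 * 13 ^ (2 * n) with hT
  have hT1 : 1 ≤ T := by
    have : (1 : ℝ) ≤ 13 ^ (2 * n) := one_le_pow₀ (by norm_num)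
    linarith
  have hAT : T ^ 16 ≤ A := by rw [hT]; exact_mod_cast hA
  have hA0 : (0 : ℝ) < A := lt_of_lt_of_le (by positivity) hAT
  have h1 : T ^ J ≤ (A : ℝ) ^ k := by
    calc T ^ J ≤ T ^ (16 * k) := pow_le_pow_right₀ hT1 hJk
      _ = (T ^ 16) ^ k := pow_mul _ _ _
      _ ≤ _ := by gcongr
  have h2 : (13 : ℝ) ^ D ≤ (13 ^ (2 * n)) ^ J := by
    rw [← pow_mul]
    refine pow_le_pow_right₀ (by norm_num) ?_
    have : 2 * J * (n - 2) ≤ 2 * J * n := Nat.mul_le_mul_left _ (Nat.sub_le _ _)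
    nlinarith
  have h3 : Real.exp J ≤ 3 ^ J := by
    have : Real.exp J = Real.exp 1 ^ J := by rw [← Real.exp_nat_mul, mul_one]
    rw [this]
    exact pow_le_pow_left₀ (Real.exp_pos _).le (Real.exp_one_lt_d9.le.trans (by norm_num)) J
  have e : (16 : ℝ) ^ J * (11 ^ n * (13 * (A : ℝ)) ^ D) * rj A (2 * J) ^ (n - 2) =
      11 ^ n * ((16 ^ J * 13 ^ D) / (A : ℝ) ^ k) := by
    rw [rj, ← pow_mul, hk, pow_add, mul_pow, inv_pow, inv_pow]
    field_simp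
  rw [e, Real.exp_neg, ← one_div]
  gcongr 11 ^ n * ?_
  rw [div_le_div_iff₀ (by positivity) (Real.exp_pos _), one_mul]
  calc (16 : ℝ) ^ J * 13 ^ D * Real.exp J ≤ 16 ^ J * (13 ^ (2 * n)) ^ J * 3 ^ J := by gcongr
    _ = T ^ J := by rw [hT, ← mul_pow, ← mul_pow]; congr 1; ring
    _ ≤ _ := h1

end Y

open Y in
theorem ycov {n : ℕ} (hn : 3 ≤ n) (h : NetStmt) : YStmt n := by
  classical
  refine ⟨(48 * 13 ^ (2 * n)) ^ 16, fun A hA P1 P2 h1 h2 J => ?_⟩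
  have hA1 : 1 ≤ A := le_trans (Nat.one_le_pow _ _ (by positivity)) hA
  let Ys : Finset ℕ × Finset ℕ → Set (Rn n) := fun s =>
    {x | ‖x‖ ≤ 5 ∧ ((Finset.range (2 * J)).filter fun i => ¬ P1 x i) = s.1 ∧
      ((Finset.range (2 * J)).filter fun i => P2 x i) = s.2}
  have key : ∀ s, ∃ F : Finset (Rn n), (∀ x ∈ Ys s, ∃ c ∈ F, ‖x - c‖ ≤ rj A (2 * J)) ∧
      (F.card : ℝ) ≤ 11 ^ n * (13 * (A : ℝ)) ^ (∑ i ∈ Finset.range (2 * J), dm n s.1 s.2 i) := by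
    intro s
    refine cover h hA1 (Ys s) (fun x hx => hx.1) _ _ fun i hi x hx => ?_
    have m2 : ∀ x ∈ Ys s, i ∈ s.2 ↔ P2 x i := fun x hx => by
      rw [← hx.2.2]; simp [hi]
    have m1 : ∀ x ∈ Ys s, i ∈ s.1 ↔ ¬ P1 x i := fun x hx => by
      rw [← hx.2.1]; simp [hi]
    unfold dm
    split_ifs with a b
    · exact near_mono (h2 x i ((m2 x hx).1 a)) fun x' hx' => (m2 x' hx').1 a
    · exact near_top hA1 _ _ _
    · exact near_mono (h1 x i (not_not.1 fun c => b ((m1 x hx).2 c)))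
        fun x' hx' => not_not.1 fun c => b ((m1 x' hx').2 c)
  choose F hF1 hF2 using key
  let Pt : Finset (Finset ℕ × Finset ℕ) :=
    ((Finset.range (2 * J)).powerset ×ˢ (Finset.range (2 * J)).powerset).filter
      fun s => 32 * s.1.card ≤ J ∧ J ≤ 8 * s.2.card
  refine ⟨Pt.biUnion F, fun x hx => ?_, ?_⟩
  · obtain ⟨c, hc1, hc2⟩ := hF1 (_, _) x ⟨hx.1, rfl, rfl⟩
    refine ⟨c, Finset.mem_biUnion.2 ⟨_, ?_, hc1⟩, hc2⟩
    refine Finset.mem_filter.2 ⟨Finset.mem_product.2 ⟨?_, ?_⟩, ?_, ?_⟩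
    · exact Finset.mem_powerset.2 (Finset.filter_subset _ _)
    · exact Finset.mem_powerset.2 (Finset.filter_subset _ _)
    · exact hx.2.1
    · exact hx.2.2
  · have hr : 0 < rj A (2 * J) ^ (n - 2) := pow_pos (rj_pos hA1 _) _
    have hP : (Pt.card : ℝ) ≤ 16 ^ J := by
      have : Pt.card ≤ 16 ^ J := by
        refine (Finset.card_filter_le _ _).trans (le_of_eq ?_)
        rw [Finset.card_product, Finset.card_powerset, Finset.card_range, pow_mul, ← mul_pow]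
        norm_num
      exact_mod_cast this
    have hb : ∀ s ∈ Pt, ((F s).card : ℝ) * rj A (2 * J) ^ (n - 2) ≤
        11 ^ n * Real.exp (-(J : ℝ)) / 16 ^ J := by
      intro s hs
      obtain ⟨hs1, hs2, hs3⟩ := Finset.mem_filter.1 hs
      have h4 := sum_dm (S0 := s.1) hn (2 * J) (Finset.mem_powerset.1 (Finset.mem_product.1 hs1).2)
      have h5 := numerics (n := n) (J := J) (D := ∑ i ∈ Finset.range (2 * J), dm n s.1 s.2 i) hA
        (by omega)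
      rw [le_div_iff₀ (by positivity)]
      refine le_trans ?_ h5
      have := hF2 s
      calc _ = (16 : ℝ) ^ J * ((F s).card : ℝ) * rj A (2 * J) ^ (n - 2) := by ring
        _ ≤ _ := by gcongr
    calc ((Pt.biUnion F).card : ℝ) * rj A (2 * J) ^ (n - 2)
        ≤ (∑ s ∈ Pt, ((F s).card : ℝ)) * rj A (2 * J) ^ (n - 2) := by
          gcongr
          exact_mod_cast Finset.card_biUnion_le
      _ = ∑ s ∈ Pt, ((F s).card : ℝ) * rj A (2 * J) ^ (n - 2) := Finset.sum_mul _ _ _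
      _ ≤ ∑ _s ∈ Pt, 11 ^ n * Real.exp (-(J : ℝ)) / 16 ^ J := Finset.sum_le_sum hb
      _ = Pt.card * (11 ^ n * Real.exp (-(J : ℝ)) / 16 ^ J) := by simp
      _ ≤ 16 ^ J * (11 ^ n * Real.exp (-(J : ℝ)) / 16 ^ J) := by gcongr
      _ = _ := by field_simp

end Pool.Agent.LinN2
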