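import Pool.Agent.Lib.MP_8465a2_an.N2.IBP
import Pool.Agent.Lib.MP_8465a2_an.N2.Lap
import Pool.Agent.Lib.MP_8465a2_an.N2.Sub
import Pool.Agent.Lib.MP_8465a2_an.N2.Area
import Pool.Agent.Lib.MP_8465a2_an.N2.Polar
import Pool.Agent.Lib.MP_8465a2_an.N2.Pt
import Pool.Agent.Lib.MP_8465a2_an.N2.Car
import Pool.Agent.Lib.MP_8465a2_an.N2.Aff
import Pool.Agent.Lib.MP_8465a2_an.N2.Avg
import Pool.Agent.Lib.MP_8465a2_an.N2.AMin
import Pool.Agent.Lib.MP_8465a2_an.N2.Disc
import Pool.Agent.Lib.MP_8465a2_an.N2.Flux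
import Pool.Agent.Lib.MP_8465a2_an.N2.Master
import Pool.Agent.Lib.MP_8465a2_an.N2.Poinc
import Pool.Agent.Lib.MP_8465a2_an.N2.LCut
import Pool.Agent.Lib.MP_8465a2_an.N2.Tot
import Pool.Agent.Lib.MP_8465a2_an.N2.Side
import Pool.Agent.Lib.MP_8465a2_an.N2.Circ
import Pool.Agent.Lib.MP_8465a2_an.N2.Wind
import Pool.Agent.Lib.MP_8465a2_an.N2.Ground
import Pool.Agent.Lib.MP_8465a2_an.N2.LShell
import Pool.Agent.Lib.MP_8465a2_an.N2.Wave
import Pool.Agent.Lib.MP_8465a2_an.N2.CK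
import Pool.Agent.Lib.MP_8465a2_an.N2.TW
import Pool.Agent.Lib.MP_8465a2_an.N2.Span
import Pool.Agent.Lib.MP_8465a2_an.N2.Sync
import Pool.Agent.Lib.MP_8465a2_an.N2.Greedy
import Pool.Agent.Lib.MP_8465a2_an.N2.Str
import Pool.Agent.Lib.MP_8465a2_an.N2.Net
import Pool.Agent.Lib.MP_8465a2_an.N2.Y
import Pool.Agent.Lib.MP_8465a2_an.N2.NP
import Pool.Agent.Lib.MP_8465a2_an.N2.Heavy
import Pool.Agent.Lib.MP_8465a2_an.N2.Dec
import Pool.Agent.Lib.MP_8465a2_an.N2.Plane
import Pool.Agent.Lib.MP_8465a2_an.N2.AR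
import Pool.Agent.Lib.MP_8465a2_an.N2.Graze
import Pool.Agent.Lib.MP_8465a2_an.N2.Mom
import Pool.Agent.Lib.MP_8465a2_an.N2.TShell
import Pool.Agent.Lib.MP_8465a2_an.N2.Chain
import Pool.Agent.Lib.MP_8465a2_an.N2.Levi
import Pool.Agent.Lib.MP_8465a2_an.N2.PCell
import Pool.Agent.Lib.MP_8465a2_an.N2.Phi
import Pool.Agent.Lib.MP_8465a2_an.N2.Resc
import Pool.Agent.Lib.MP_8465a2_an.N2.Omega
import Pool.Agent.Lib.MP_8465a2_an.N2.Hit
import Pool.Agent.Lib.MP_8465a2_an.N2.Exp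
import Pool.Agent.Lib.MP_8465a2_an.N2.Boot
import Pool.Agent.Lib.MP_8465a2_an.N2.Tree
import Pool.Agent.Lib.MP_8465a2_an.N2.Cover
import Pool.Agent.Lib.MP_8465a2_an.N2.Taylor
import Pool.Agent.Lib.MP_8465a2_an.N2.Local
import Pool.Agent.Lib.MP_8465a2_an.N2.Final

/-!
The sharp bound for critical sets of harmonic functions (MP_8465a2_an): assembly of all steps.
-/

namespace Pool.Agent.LinN2

theorem main : FinalStmt := final fun n hn => by
  have hA := area ibp lap sub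
  have hP := poinc ibp polar ptS
  have hW := wind (circ lap) polar car tail ptS
  have hG := ground ptS
  have hL := lshell (lcut polar ptS) hP (tot ibp lap sub polar ptS) (side hA polar) ptS
  have hM := mom hn car tail (graze hn)
  have hT := tshell hn (plane hn) (wave hn) hL hW hG aff ptS
  have hC := chain hn (flux disc) round hT (arS hn hA) hM (graze hn) ptS
  have hQ := pcell hn (levi hn (ck hn) lap sub) (plane hn) (wave hn) hW hG hP aff hA hM (graze hn)
    ptS lap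
  have hO := omegaS hn (master green amin) avg lap (arS hn hA) net ptS
  have hE := expS hn hO hC hQ (phi hn sub) (resc hn net) (hit hn) hM (graze hn) ptS
  have hB := boot hn (dec hn (heavy hn np) net) hE (resc hn net)
  exact localS hn (cover hn (str hn sync (span tw) greedy (ck hn)) (ycov hn net) hB np net tree)
    (taylor hn)

end Pool.Agent.LinN2
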