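import Pool.Agent.Lib.MP_8465a2_an.N2.BasicB

/-!
The pairing with the gradient of the argument of `q` along the level curves (MP_8465a2_an).
-/

namespace Pool.Agent.LinN2

namespace Poinc

open MeasureTheory Metric Set Filter Topology Complex
open scoped ENNReal ComplexConjugate

noncomputable section

section HD

variable {F : Type} [NormedAddCommGroup F] [NormedSpace ℝ F] {u v : E2}

/-- `f` is differentiable at `u` with derivative `d` in the direction `v` -/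
def HD (f : E2 → F) (u v : E2) (d : F) : Prop :=
  ∃ f' : E2 →L[ℝ] F, HasFDerivAt f f' u ∧ f' v = d

lemma HD.eq {f : E2 → F} {d : F} (h : HD f u v d) : fderiv ℝ f u v = d := by
  obtain ⟨f', h1, h2⟩ := h
  rw [h1.fderiv, h2]

lemma HD.of {f : E2 → F} (h : DifferentiableAt ℝ f u) (v : E2) : HD f u v (fderiv ℝ f u v) :=
  ⟨_, h.hasFDerivAt, rfl⟩

lemma HD.ofC {f : E2 → ℂ} (h : DifferentiableAt ℂ f u) (v : E2) : HD f u v (fderiv ℂ f u v) :=
  ⟨_, h.hasFDerivAt.restrictScalars ℝ, rfl⟩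

lemma HD.congr {f g : E2 → F} {d e : F} (h : HD f u v d) (hg : g =ᶠ[𝓝 u] f) (he : d = e) :
    HD g u v e := by
  obtain ⟨f', h1, h2⟩ := h
  exact ⟨f', h1.congr_of_eventuallyEq hg, h2.trans he⟩

lemma HD.mul {A : Type} [NormedCommRing A] [NormedAlgebra ℝ A] {f g : E2 → A} {d e : A}
    (h : HD f u v d) (k : HD g u v e) : HD (fun y => f y * g y) u v (f u * e + g u * d) := by
  obtain ⟨f', h1, rfl⟩ := h
  obtain ⟨g', k1, rfl⟩ := k
  exact ⟨_, h1.mul k1, by simp⟩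

lemma HD.sub {f g : E2 → F} {d e : F} (h : HD f u v d) (k : HD g u v e) :
    HD (fun y => f y - g y) u v (d - e) := by
  obtain ⟨f', h1, rfl⟩ := h
  obtain ⟨g', k1, rfl⟩ := k
  exact ⟨_, h1.sub k1, by simp⟩

lemma HD.comp {A : Type} [NontriviallyNormedField A] [NormedAlgebra ℝ A] {f : E2 → A} {d c : A}
    {φ : A → A} (h : HD f u v d) (k : HasDerivAt φ c (f u)) :
    HD (fun y => φ (f y)) u v (c * d) := by
  obtain ⟨f', h1, rfl⟩ := h
  exact ⟨_, k.comp_hasFDerivAt u h1, by simp⟩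

lemma HD.compF {F' : Type} [NormedAddCommGroup F'] [NormedSpace ℝ F'] {f : E2 → F} {d : F}
    {φ : F → F'} {L : F →L[ℝ] F'} (h : HD f u v d) (k : HasFDerivAt φ L (f u)) :
    HD (fun y => φ (f y)) u v (L d) := by
  obtain ⟨f', h1, rfl⟩ := h
  exact ⟨_, k.comp u h1, rfl⟩

lemma HD.fst (u v : E2) : HD (fun y : E2 => y.1) u v v.1 := ⟨_, hasFDerivAt_fst, rfl⟩
lemma HD.snd (u v : E2) : HD (fun y : E2 => y.2) u v v.2 := ⟨_, hasFDerivAt_snd, rfl⟩

lemma HD.lognorm {f : E2 → ℂ} {d : ℂ} (h : HD f u v d) (h0 : f u ≠ 0) :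
    HD (fun y => Real.log ‖f y‖) u v (d / f u).re := by
  obtain ⟨f', h1, rfl⟩ := h
  have h2 : ‖f u‖ ^ 2 ≠ 0 := pow_ne_zero _ (norm_ne_zero_iff.2 h0)
  refine ⟨_, ((h1.norm_sq.log h2).const_mul (1 / 2)).congr_of_eventuallyEq
    (Eventually.of_forall fun y => by simp [Real.log_pow]), ?_⟩
  rw [div_re, normSq_eq_norm_sq]
  simp [Complex.inner]
  field_simp

end HD

variable {a : E2 → ℂ} {η : ℝ}

/-- logarithmic derivative of `q` along the level curves -/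
def lam (a : E2 → ℂ) (u : E2) : ℂ := -Tf a u / (u.1 * u.2)

/-- gradient of the argument of `q` along the level curves -/
def Vf (a : E2 → ℂ) (u : E2) : E2 := (I * conj (lam a u)) • Wf a u

lemma fderiv_Vf (f : E2 → ℝ) (a : E2 → ℂ) (u : E2) : fderiv ℝ f u (Vf a u) =
    (lam a u).im * fderiv ℝ f u (Wf a u) + (lam a u).re * fderiv ℝ f u (I • Wf a u) := by
  rw [← smul_eq_mul, ← smul_eq_mul, ← map_smul, ← map_smul, ← map_add, Vf]
  congr 1
  rw [← Complex.coe_smul, ← Complex.coe_smul, smul_smul, ← add_smul]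
  congr 1
  apply Complex.ext <;> simp

lemma fderiv_Vf_sq (f : E2 → ℝ) (a : E2 → ℂ) (u : E2) :
    fderiv ℝ f u (Vf a u) ^ 2 ≤ ‖lam a u‖ ^ 2 * bf a f f u := by
  rw [fderiv_Vf, ← normSq_eq_norm_sq, normSq_apply, bf]
  nlinarith [sq_nonneg ((lam a u).im * fderiv ℝ f u (I • Wf a u) -
    (lam a u).re * fderiv ℝ f u (Wf a u))]

lemma div_Wf (ha : ContDiff ℂ 2 a) (y : E2) :
    (fderiv ℂ (Wf a) y (1, 0)).1 + (fderiv ℂ (Wf a) y (0, 1)).2 = 0 := by
  have h1 := ((ha.fderiv_right (m := 1) le_rfl).differentiable one_ne_zero y).hasFDerivAt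
  have h2 : HasFDerivAt (Wf a) _ y :=
    (h1.clm_apply (hasFDerivAt_const ((0, 1) : E2) y)).prodMk
      (h1.clm_apply (hasFDerivAt_const ((1, 0) : E2) y)).neg
  rw [h2.fderiv]
  simp [(ha.contDiffAt.isSymmSndFDerivAt (by simp)).eq (1, 0) (0, 1)]

lemma ev_ne {u : E2} (h : u.1 * u.2 ≠ 0) : ∀ᶠ y in 𝓝 u, y.1 * y.2 ≠ 0 :=
  (by fun_prop : Continuous fun y : E2 => y.1 * y.2).continuousAt.eventually_ne h

lemma ev_zero {F : Type} [Zero F] {f : E2 → F}
    (h0 : ∀ u : E2, ‖u.1 * u.2‖ < Real.exp (-2) → f u = 0) {u : E2} (h : u.1 * u.2 = 0) :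
    f =ᶠ[𝓝 u] fun _ => 0 :=
  ((by fun_prop : Continuous fun y : E2 => ‖y.1 * y.2‖).continuousAt.eventually_lt
    continuousAt_const (by simp [h, Real.exp_pos])).mono h0

lemma contDiff_of {f : E2 → ℝ} (h0 : ∀ u : E2, ‖u.1 * u.2‖ < Real.exp (-2) → f u = 0)
    (h : ∀ u : E2, u.1 * u.2 ≠ 0 → ContDiffAt ℝ 1 f u) : ContDiff ℝ 1 f :=
  contDiff_iff_contDiffAt.2 fun u => (eq_or_ne (u.1 * u.2) 0).elim
    (fun e => contDiffAt_const.congr_of_eventuallyEq (ev_zero h0 e)) (h u)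

lemma contDiffAt_lam (ha : ContDiff ℂ 2 a) {u : E2} (h : u.1 * u.2 ≠ 0) :
    ContDiffAt ℂ 1 (lam a) u := by
  have := ha.fderiv_right (m := 1) le_rfl
  have h1 : ContDiff ℂ 1 (Tf a) := by
    unfold Tf
    fun_prop
  exact h1.contDiffAt.neg.div (by fun_prop) h

lemma integrable_fderiv {f : E2 → ℝ} {W : E2 → E2} (hf : ContDiff ℝ 1 f) (hc : HasCompactSupport f)
    (hW : Continuous W) : Integrable fun y => fderiv ℝ f y (W y) := by
  have := hf.continuous_fderiv one_ne_zero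
  refine Continuous.integrable_of_hasCompactSupport (by fun_prop)
    ((hc.fderiv ℝ).mono fun y hy h0 => hy ?_)
  simp [h0]

/-- the argument of `q` is harmonic on the level curves -/
lemma pair0 (h1 : IBPStmt) (ha : ContDiff ℂ 2 a) {f : E2 → ℝ} (hf : ContDiff ℝ 1 f)
    (hc : HasCompactSupport f) (h0 : ∀ u : E2, ‖u.1 * u.2‖ < Real.exp (-2) → f u = 0) :
    Integrable (fun u => fderiv ℝ f u (Vf a u)) ∧ ∫ u, fderiv ℝ f u (Vf a u) = 0 := by
  have hL : ∀ L : ℂ →L[ℝ] ℝ, ContDiff ℝ 1 fun u => f u * L (lam a u) := fun L =>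
    contDiff_of (fun u hu => by rw [h0 u hu, zero_mul]) fun u hu =>
      hf.contDiffAt.mul (L.contDiff.contDiffAt.comp u ((contDiffAt_lam ha hu).restrict_scalars ℝ))
  have hW := continuous_Wf ha
  have i1 := integrable_fderiv (hL imCLM) hc.mul_right hW
  have i2 := integrable_fderiv (W := fun y => I • Wf a y) (hL reCLM) hc.mul_right
    (hW.const_smul I)
  have e : (fun u => fderiv ℝ f u (Vf a u)) = fun u =>
      fderiv ℝ (fun u => f u * imCLM (lam a u)) u (Wf a u) +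
      fderiv ℝ (fun u => f u * reCLM (lam a u)) u (I • Wf a u) := by
    funext u
    by_cases hu : u.1 * u.2 = 0
    · have k : ∀ g : E2 → ℝ, fderiv ℝ (fun u => f u * g u) u = 0 := fun g => by
        rw [(ev_zero (f := fun u => f u * g u)
          (fun u hu => by rw [h0 u hu, zero_mul]) hu).fderiv_eq, fderiv_fun_const]
        rfl
      rw [k, k, (ev_zero h0 hu).fderiv_eq, fderiv_fun_const]
      simp
    · have k1 := hf.differentiable one_ne_zero u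
      have k2 := (contDiffAt_lam ha hu).differentiableAt one_ne_zero
      rw [((HD.of k1 _).mul ((HD.ofC k2 _).compF imCLM.hasFDerivAt)).eq,
        ((HD.of k1 _).mul ((HD.ofC k2 _).compF reCLM.hasFDerivAt)).eq, fderiv_Vf,
        (fderiv ℂ (lam a) u).map_smul]
      simp
      ring
  rw [e]
  refine ⟨i1.add i2, ?_⟩
  rw [integral_add i1 i2, (h1 _ (contDiff_Wf ha) (div_Wf ha) _ (hL imCLM) hc.mul_right).1,
    (h1 _ (contDiff_Wf ha) (div_Wf ha) _ (hL reCLM) hc.mul_right).2, add_zero]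

lemma pair (h1 : IBPStmt) (ha : ContDiff ℂ 2 a) (hη : 0 < η) {f : E2 → ℝ} (hf : ContDiff ℝ 1 f)
    (hc : HasCompactSupport f) (h0 : ∀ u : E2, ‖u.1 * u.2‖ < Real.exp (-2) → f u = 0) :
    Integrable (fun u => wt η (a u) * fderiv ℝ f u (Vf a u)) ∧
      ∫ u, wt η (a u) * fderiv ℝ f u (Vf a u) = 0 := by
  have hw : ContDiff ℝ 1 fun u => wt η (a u) :=
    (contDiff_wt hη 1).comp ((ha.of_le one_le_two).restrict_scalars ℝ)
  have e : (fun u => wt η (a u) * fderiv ℝ f u (Vf a u)) =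
      fun u => fderiv ℝ (fun u => wt η (a u) * f u) u (Vf a u) := by
    funext u
    rw [(((HD.ofC (ha.differentiable two_ne_zero u) _).compF
      ((contDiff_wt hη 1).differentiable one_ne_zero _).hasFDerivAt).mul
      (HD.of (hf.differentiable one_ne_zero u) _)).eq]
    simp [Vf, (fderiv ℂ a u).map_smul, fderiv_Wf]
  rw [e]
  exact pair0 h1 ha (hw.mul hf) hc.mul_left fun u hu => by rw [h0 u hu, mul_zero]

/-- radial cutoff -/
def be (u : E2) : ℝ := bw (u.1 * u.2) * ‖u.1 * u.2‖ ^ 2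

/-- primitive of `1 - Pk` -/
def kk (η : ℝ) (u : E2) : ℝ :=
  2 * (Complex.log (1 - ((1 - η : ℝ) : ℂ) * (u.1 * u.2 / (‖u.1 * u.2‖ : ℝ)))).im

lemma be_eq {u : E2} (h : u.1 * u.2 ≠ 0) : be u = bb (Real.log ‖u.1 * u.2‖) :=
  div_mul_cancel₀ _ (pow_ne_zero _ (norm_ne_zero_iff.2 h))

lemma contDiff_bb : ContDiff ℝ 1 bb :=
  (Real.smoothTransition.contDiff.comp (by fun_prop)).mul
    (Real.smoothTransition.contDiff.comp (by fun_prop))

lemma contDiff_zt (L : ℝ) : ContDiff ℝ 1 (zt L) :=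
  (Real.smoothTransition.contDiff.comp (by fun_prop)).mul
    (Real.smoothTransition.contDiff.comp (by fun_prop))

lemma be_mem (u : E2) : 0 ≤ be u ∧ be u ≤ 1 := by
  by_cases h : u.1 * u.2 = 0
  · simp [be, h]
  · rw [be_eq h]
    exact ⟨mul_nonneg (Real.smoothTransition.nonneg _) (Real.smoothTransition.nonneg _),
      mul_le_one₀ (Real.smoothTransition.le_one _) (Real.smoothTransition.nonneg _)
        (Real.smoothTransition.le_one _)⟩

lemma abs_kk (η : ℝ) (u : E2) : |kk η u| ≤ 7 := by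
  rw [kk, log_im, abs_mul, abs_two]
  linarith [abs_arg_le_pi (1 - ((1 - η : ℝ) : ℂ) * (u.1 * u.2 / (‖u.1 * u.2‖ : ℝ))),
    Real.pi_lt_d2]

lemma slit (hη : 0 < η) (hη1 : η < 1) {q : ℂ} (h : q ≠ 0) :
    1 - ((1 - η : ℝ) : ℂ) * (q / (‖q‖ : ℝ)) ∈ slitPlane := by
  rw [sub_eq_add_neg]
  refine mem_slitPlane_of_norm_lt_one ?_
  rw [norm_neg, norm_mul, norm_div, norm_real, norm_real, norm_norm,
    div_self (norm_ne_zero_iff.2 h), mul_one, Real.norm_of_nonneg (by linarith)]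
  linarith

lemma hd_q (a : E2 → ℂ) {u : E2} (h : u.1 * u.2 ≠ 0) :
    HD (fun y : E2 => y.1 * y.2) u (Vf a u) (u.1 * u.2 * (I * (‖lam a u‖ ^ 2 : ℝ))) := by
  refine ((HD.fst u _).mul (HD.snd u _)).congr EventuallyEq.rfl ?_
  have e : u.1 * u.2 * lam a u = -Tf a u := mul_div_cancel₀ _ h
  rw [← normSq_eq_norm_sq, normSq_eq_conj_mul_self]
  rw [Tf, fderiv_pair] at e
  simp only [Vf, Wf, Prod.smul_fst, Prod.smul_snd, smul_eq_mul]
  linear_combination (-I * conj (lam a u)) * e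

lemma hd_log (a : E2 → ℂ) {u : E2} (h : u.1 * u.2 ≠ 0) :
    HD (fun y : E2 => Real.log ‖y.1 * y.2‖) u (Vf a u) 0 :=
  ((hd_q a h).lognorm h).congr EventuallyEq.rfl (by
    rw [mul_div_cancel_left₀ _ h, mul_comm, re_ofReal_mul, I_re, mul_zero])

lemma hd_be (a : E2 → ℂ) {u : E2} (h : u.1 * u.2 ≠ 0) : HD be u (Vf a u) 0 :=
  ((hd_log a h).comp (contDiff_bb.differentiable one_ne_zero _).hasDerivAt).congr
    ((ev_ne h).mono fun _ hy => be_eq hy) (mul_zero _)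

lemma hd_kk (a : E2 → ℂ) (hη : 0 < η) (hη1 : η < 1) {u : E2} (h : u.1 * u.2 ≠ 0) :
    HD (kk η) u (Vf a u) ((1 - Pk η (u.1 * u.2)) * ‖lam a u‖ ^ 2) := by
  have h0 : ‖u.1 * u.2‖ ≠ 0 := norm_ne_zero_iff.2 h
  have h1 : HD (fun y : E2 => ‖y.1 * y.2‖) u (Vf a u) 0 :=
    ((hd_log a h).comp (Real.hasDerivAt_exp _)).congr
      ((ev_ne h).mono fun _ hy => (Real.exp_log (norm_pos_iff.2 hy)).symm) (mul_zero _)
  have h2 := (hd_q a h).mul
    ((h1.compF ofRealCLM.hasFDerivAt).comp (hasDerivAt_inv (ofReal_ne_zero.2 h0)))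
  have h3 := slit hη hη1 h
  have h4 := ((h2.comp (((hasDerivAt_id' _).const_mul ((1 - η : ℝ) : ℂ)).const_sub 1 |>.clog
    h3)).compF imCLM.hasFDerivAt).comp ((hasDerivAt_id' _).const_mul 2)
  refine h4.congr EventuallyEq.rfl ?_
  have h5 : normSq (1 - (1 - ((1 - η : ℝ) : ℂ) * (u.1 * u.2 / (‖u.1 * u.2‖ : ℝ)))) =
      (1 - η) ^ 2 := by
    rw [sub_sub_cancel, normSq_eq_norm_sq, norm_mul, norm_div, norm_real, norm_real, norm_norm,
      div_self h0, mul_one, Real.norm_eq_abs, sq_abs]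
  have h6 := slitPlane_ne_zero h3
  simp only [map_zero, mul_zero, zero_add, ofRealCLM_apply, imCLM_apply, mul_one, Pk,
    ← div_eq_mul_inv]
  rw [show ∀ y : ℂ, y = 1 - ((1 - η : ℝ) : ℂ) * (u.1 * u.2 / (‖u.1 * u.2‖ : ℝ)) → y ≠ 0 →
    -((1 - η : ℝ) : ℂ) / y * (((‖u.1 * u.2‖ : ℝ) : ℂ)⁻¹ *
      (u.1 * u.2 * (I * (‖lam a u‖ ^ 2 : ℝ)))) = (1 - y⁻¹) * (I * (‖lam a u‖ ^ 2 : ℝ)) from
    fun y e hy => by
      rw [show 1 - y⁻¹ = (y - 1) / y by field_simp, show y - 1 = _ by rw [e, sub_sub_cancel_left]]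
      ring]
  · generalize 1 - ((1 - η : ℝ) : ℂ) * (u.1 * u.2 / (‖u.1 * u.2‖ : ℝ)) = y at h5 h6
    have h7 := normSq_pos.2 h6
    rw [← normSq_eq_norm_sq y, ← h5, normSq_sub]
    generalize ‖lam a u‖ ^ 2 = l
    simp
    field_simp
    ring
  · rfl
  · exact h6

lemma hd_sc {u : E2} (h : u.1 * u.2 ≠ 0) (v : E2) :
    HD sc u v (((v.1 / u.1).re - (v.2 / u.2).re) / 2) :=
  ((((HD.fst u v).lognorm (left_ne_zero_of_mul h)).sub
    ((HD.snd u v).lognorm (right_ne_zero_of_mul h))).comp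
    ((hasDerivAt_id' _).div_const 2)).congr EventuallyEq.rfl (by ring)

lemma contDiffAt_be {u : E2} (h : u.1 * u.2 ≠ 0) : ContDiffAt ℝ 1 be u :=
  (contDiff_bb.contDiffAt.comp u (((contDiffAt_fst.mul contDiffAt_snd).norm ℝ h).log
    (norm_ne_zero_iff.2 h))).congr_of_eventuallyEq ((ev_ne h).mono fun _ hy => be_eq hy)

lemma contDiffAt_sc {u : E2} (h : u.1 * u.2 ≠ 0) : ContDiffAt ℝ 1 sc u :=
  (((contDiffAt_fst.norm ℝ (left_ne_zero_of_mul h)).log
    (norm_ne_zero_iff.2 (left_ne_zero_of_mul h))).sub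
    ((contDiffAt_snd.norm ℝ (right_ne_zero_of_mul h)).log
    (norm_ne_zero_iff.2 (right_ne_zero_of_mul h)))).div_const 2

lemma contDiffAt_kk (hη : 0 < η) (hη1 : η < 1) {u : E2} (h : u.1 * u.2 ≠ 0) :
    ContDiffAt ℝ 1 (kk η) u := by
  have h1 : ContDiffAt ℝ 1 (fun y : E2 => y.1 * y.2) u := contDiffAt_fst.mul contDiffAt_snd
  have h2 : ContDiffAt ℝ 1
      (fun y : E2 => 1 - ((1 - η : ℝ) : ℂ) * (y.1 * y.2 / (‖y.1 * y.2‖ : ℝ))) u :=
    contDiffAt_const.sub (contDiffAt_const.mul (h1.mul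
      ((ofRealCLM.contDiff.contDiffAt.comp u (h1.norm ℝ h)).inv
        (ofReal_ne_zero.2 (norm_ne_zero_iff.2 h)))))
  have h3 := ((contDiffAt_log (n := 1) (slit hη hη1 h)).restrict_scalars ℝ).comp u h2
  exact contDiffAt_const.mul (imCLM.contDiff.contDiffAt.comp u h3)

end

end Poinc

end Pool.Agent.LinN2
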