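import Pool.Agent.Lib.MP_8465a2_an.N2.Defs

/-!
Statements of the steps of the proof of the sharp bound (MP_8465a2_an).
-/

namespace Pool.Agent.LinN2

open MeasureTheory Metric Set Filter Topology Complex
open scoped ENNReal ComplexConjugate

noncomputable section

/-! ### Tools -/

/-- integration by parts along a holomorphic divergence free field -/
def IBPStmt : Prop :=
  ∀ W : E2 → E2, ContDiff ℂ 1 W →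
    (∀ y, (fderiv ℂ W y (1, 0)).1 + (fderiv ℂ W y (0, 1)).2 = 0) →
    ∀ F : E2 → ℝ, ContDiff ℝ 1 F → HasCompactSupport F →
      ∫ y, fderiv ℝ F y (W y) = 0 ∧ ∫ y, fderiv ℝ F y (I • W y) = 0

/-- Green identity along the level curves -/
def GreenStmt : Prop :=
  ∀ (a : E2 → ℂ) (η : ℝ), ContDiff ℂ 2 a → 0 < η → ∀ f φ : E2 → ℝ, ContDiff ℝ 1 f →
    HasCompactSupport f → ContDiff ℝ 2 φ →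
    ∫ y, wt η (a y) * (bf a f φ y + f y * lapd φ y (Wf a y)) = 0

/-- the Levi form of the regularised logarithm -/
def LapStmt : Prop :=
  ∀ (E : Type) [NormedAddCommGroup E] [NormedSpace ℝ E] [NormedSpace ℂ E] [IsScalarTower ℝ ℂ E]
    (η : ℝ), 0 < η →
    (∀ (ι : Type) [Fintype ι] (F : E → ι → ℂ), ContDiff ℂ 2 F → ContDiff ℝ 2 (Ul F η) ∧
      (∀ y v, 0 ≤ lapd (Ul F η) y v) ∧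
      ∀ y v w, lapd (Ul F η) y (v + I • w) + lapd (Ul F η) y (v - I • w) =
        2 * lapd (Ul F η) y v + 2 * lapd (Ul F η) y w) ∧
    ∀ f : E → ℂ, ContDiff ℂ 2 f → ContDiff ℝ 2 (U1 f η) ∧
      (∀ y v, fderiv ℝ (U1 f η) y v = (conj (f y) * fderiv ℂ f y v).re / (‖f y‖ ^ 2 + η ^ 2)) ∧
      ∀ y v, lapd (U1 f η) y v = 2 * (wt η (f y) * ‖fderiv ℂ f y v‖ ^ 2)

/-- sub-mean value inequality on circled sets -/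
def SubStmt : Prop :=
  ∀ (E : Type) [NormedAddCommGroup E] [NormedSpace ℝ E] [NormedSpace ℂ E] [IsScalarTower ℝ ℂ E]
    [FiniteDimensional ℝ E] [MeasurableSpace E] [BorelSpace E] (μ : Measure E)
    [μ.IsAddHaarMeasure] (η : ℝ), 0 < η → ∀ K : Set E, MeasurableSet K → Bornology.IsBounded K →
    (∀ (t : ℝ), ∀ v ∈ K, Complex.exp (t * I) • v ∈ K) → ∀ y : E,
    (∀ (ι : Type) [Fintype ι] (F : E → ι → ℂ), Differentiable ℂ F →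
      μ.real K * Ul F η y ≤ ∫ v in K, Ul F η (y + v) ∂μ) ∧
    ∀ f : E → ℂ, Differentiable ℂ f → μ.real K * U1 f η y ≤ ∫ v in K, U1 f η (y + v) ∂μ

/-- area of the level curves from the growth of the function -/
def AreaStmt : Prop :=
  ∃ K : ℝ, 1 ≤ K ∧ ∀ (f : E2 → ℂ) (η : ℝ) (l : E2 →L[ℂ] ℂ) (y0 y1 : E2) (R M : ℝ),
    ContDiff ℂ 2 f → 0 < η → 0 < R → ‖y1 - y0‖ ≤ R →
    (∀ y, ‖y - y0‖ ≤ 4 * R → U1 f η y - (l y).re ≤ M) →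
    (∫ y in closedBall y0 R, wt η (f y) *
      (‖fderiv ℂ f y (1, 0)‖ ^ 2 + ‖fderiv ℂ f y (0, 1)‖ ^ 2)) ≤
      K * R ^ 2 * (M - (U1 f η y1 - (l y1).re)) ∧
    Ar f η (closedBall y0 R) ≤ K * R ^ 2 * (M - (U1 f η y1 - (l y1).re))

/-- logarithmic coordinates -/
def PolarStmt : Prop :=
  (∀ G : ℂ → ℝ, ∫ z, G z =
    ∫ α in {α : ℂ | α.im ∈ Ioc (-Real.pi) Real.pi}, Real.exp α.re ^ 2 * G (Complex.exp α)) ∧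
  (∀ G : ℂ → ℝ≥0∞, ∫⁻ z, G z = ∫⁻ α in {α : ℂ | α.im ∈ Ioc (-Real.pi) Real.pi},
    ENNReal.ofReal (Real.exp α.re ^ 2) * G (Complex.exp α)) ∧
  (∀ G : ℂ → ℝ, Continuous G → HasCompactSupport G → ∫ z, G z =
    ∫ t : ℝ, ∫ s in (-Real.pi)..Real.pi, Real.exp t ^ 2 * G (Complex.exp (t + s * I))) ∧
  (∀ f : ℝ → ℝ, Continuous f → HasCompactSupport f →
    ∫ z : ℂ, f (Real.log ‖z‖) / ‖z‖ ^ 2 = 2 * Real.pi * ∫ t, f t) ∧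
  (∀ k : ℝ → ℝ, Continuous k → HasCompactSupport k →
    Continuous (fun u : E2 => bw (u.1 * u.2) * k (sc u)) ∧
    HasCompactSupport (fun u : E2 => bw (u.1 * u.2) * k (sc u)) ∧
    ∫ u : E2, bw (u.1 * u.2) * k (sc u) = VV * ∫ s, k s) ∧
  ∫ x : ℂ, bw (x * conj x) * ‖x‖ ^ 2 = VV / (4 * Real.pi)

/-- Cartan estimate along rays -/
def CarStmt : Prop :=
  ∀ (E : Type) [NormedAddCommGroup E] [NormedSpace ℝ E] [FiniteDimensional ℝ E]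
    [MeasurableSpace E] [BorelSpace E], ∃ K : ℝ, 1 ≤ K ∧ ∀ (μ : Measure E) [μ.IsAddHaarMeasure]
    (φ : E → ℝ) (ρ M L s : ℝ), Measurable φ → 0 < ρ → 0 < M → 1 ≤ L →
    (∀ h : E, ‖h‖ ≤ 2 * ρ → ∃ F : ℂ → ℂ, Differentiable ℂ F ∧ (∀ w, ‖w‖ ≤ 8 → ‖F w‖ ≤ M) ∧
      M * Real.exp (-L) ≤ ‖F 0‖ ∧ ∀ t ∈ Icc (0 : ℝ) 1, ‖F t‖ ≤ φ (t • h)) →
    μ {h | ‖h‖ ≤ ρ ∧ φ h ≤ M * Real.exp (-s)} ≤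
      ENNReal.ofReal (K * Real.exp (-s / (4 * L))) * μ (closedBall 0 ρ)

/-- moments from an exponential tail -/
def TailStmt : Prop :=
  ∀ (Ω : Type) [MeasurableSpace Ω] (μ : Measure Ω) (f : Ω → ℝ) (K D : ℝ), Measurable f →
    0 ≤ K → 0 < D → (∀ s, 0 < s → μ {x | s ≤ f x} ≤ ENNReal.ofReal (K * Real.exp (-s / D))) →
    ∫⁻ x, ENNReal.ofReal (f x) ∂μ ≤ ENNReal.ofReal (K * D) ∧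
    ∫⁻ x, ENNReal.ofReal (f x) ^ 2 ∂μ ≤ ENNReal.ofReal (2 * K * D ^ 2)

/-- invariance under complex affine maps -/
def AffStmt : Prop :=
  ∀ (M : E2 ≃L[ℂ] E2) (y0 : E2) (a : E2 → ℂ) (η : ℝ) (F : E2 → ℝ), Differentiable ℂ a →
    (∀ f h : E2 → ℝ, Differentiable ℝ f → Differentiable ℝ h →
      ∫ u, F u * (wt η (a (y0 + M u)) *
        bf (fun u => a (y0 + M u)) (fun u => f (y0 + M u)) (fun u => h (y0 + M u)) u) =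
      ∫ y, F (M.symm (y - y0)) * (wt η (a y) * bf a f h y)) ∧
    ∫ u, F u * (wt η (a (y0 + M u)) * ‖Wf (fun u => a (y0 + M u)) u‖ ^ 2) =
      ∫ y, F (M.symm (y - y0)) * (wt η (a y) * ‖M.symm (Wf a y)‖ ^ 2)

/-- averages over translations -/
def AvgStmt : Prop :=
  ∀ (n : ℕ) (φ : Cn n → ℝ) (R : ℝ) (p : Cn n) (e : Dir n), ContDiff ℝ 2 φ →
    ContDiff ℝ 2 (fun y : E2 => ∫ v in closedBall (0 : Cn n) R, φ (p + pl e y - v)) ∧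
    ∀ y W : E2, lapd (fun y : E2 => ∫ v in closedBall (0 : Cn n) R, φ (p + pl e y - v)) y W =
      ∫ v in closedBall (0 : Cn n) R, lapd φ (p + pl e y - v) (pl e W)

/-! ### Potential theory -/

/-- existence of approximate minimisers -/
def AMinStmt : Prop :=
  ∀ (a : E2 → ℂ) (η ηN τ : ℝ) (ψ : E2 → ℝ), ContDiff ℂ 2 a → 0 < η → Cut ψ →
    (∀ y ∈ N0 ηN, ψ y = 1) → (∀ y, 2 ≤ ‖y‖ → ψ y = 0) → 0 < τ → τ ≤ 1 →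
    ∃ χ, AMin a η ηN τ (En a η Om ψ + 1) χ

/-- the discrete decay lemma -/
def DiscStmt : Prop :=
  ∀ K : ℝ, 1 ≤ K → ∃ C : ℝ, 1 ≤ C ∧ ∀ (k : ℕ) (e s : ℕ → ℝ), 1 ≤ k → (∀ t ≤ k, 0 ≤ e t) →
    (∀ t < k, e (t + 1) ≤ e t) → (∀ t < k, 0 ≤ s (t + 1)) →
    (∀ t < k, e (t + 1) ^ 2 ≤ K * (s (t + 1) + (e t - e (t + 1))) * (e t - e (t + 1))) →
    e k ≤ C * (∑ t ∈ Finset.range k, s (t + 1) + e 0) / k ^ 2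

/-- round shells -/
def RoundStmt : Prop :=
  ∃ K : ℝ, 1 ≤ K ∧ ∀ (a : E2 → ℂ) (η ηN : ℝ) (y0 : E2) (R ri ro s : ℝ), ContDiff ℂ 2 a → 0 < η →
    0 < R → ri ≤ R → 2 * R ≤ ro → AR a η y0 R ≤ s → Shell a η ηN y0 ri ro K s

/-- the flux through a chain of shells -/
def FluxStmt : Prop :=
  ∀ K : ℝ, 1 ≤ K → ∃ C : ℝ, 1 ≤ C ∧ ∀ (a : E2 → ℂ) (η ηN : ℝ) (y0 : E2) (k1 k2 : ℕ)
    (lam R0 R' A0 ρ : ℝ) (ri ro s Al : ℕ → ℝ), ContDiff ℂ 2 a → 0 < η → 1 ≤ k1 → 1 ≤ k2 →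
    0 < lam → 0 < R0 → 0 < R' → ‖y0‖ + 2 * R0 ≤ 2 → ri 0 ≤ R0 → AR a η y0 R0 ≤ A0 →
    (∀ t < k1, ri (t + 1) ≤ ro (t + 1) ∧ ro (t + 1) ≤ ri t ∧ 0 ≤ s (t + 1) ∧
      Shell a η ηN y0 (ri (t + 1)) (ro (t + 1)) K (s (t + 1))) →
    2 * R' ≤ ri k1 → (∀ l < k2, AR a η y0 (R' / 2 ^ l) ≤ Al l) → ρ * 2 ^ k2 ≤ R' →
    Flux a η ηN y0 ρ (C * ((∑ l ∈ Finset.range k2, Al l) / (lam * k2 ^ 2) +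
      lam * (∑ t ∈ Finset.range k1, s (t + 1) + A0) / k1 ^ 2))

open Classical in
/-- the master inequality for one family of level curves -/
def MasterStmt : Prop :=
  ∀ K θ : ℝ, 1 ≤ K → 0 < θ → ∃ C : ℝ, 1 ≤ C ∧ ∀ (a : E2 → ℂ) (η ηN : ℝ) (Φ : E2 → ℝ)
    (M0 N1 ρ w0 : ℝ) (ι κ : Type) (TS : Finset ι) (yT : ι → E2) (μ G A : ι → ℝ)
    (QS : Finset κ) (yQ : κ → E2) (ρQ w F : κ → ℝ), ContDiff ℂ 2 a → 0 < η → ηN ≤ 1 →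
    ContDiff ℝ 2 Φ → (∀ y, 0 ≤ lapd Φ y (Wf a y)) → (∀ y, ‖y‖ ≤ 3 → Φ y ≤ M0) → 0 < ρ → 0 ≤ N1 →
    0 ≤ w0 →
    (∀ i ∈ TS, 0 ≤ μ i ∧ μ i ≤ N1 ∧ 0 ≤ A i ∧ ‖yT i‖ + ρ ≤ 3 ∧
      PackCell a η ηN (yT i) ρ K (G i) (A i) ∧
      ∀ y, ‖y - yT i‖ ≤ ρ → μ i * ‖Wf a y‖ ^ 2 / ρ ^ 2 ≤ K * lapd Φ y (Wf a y)) →
    (∀ y, (((TS.filter fun i => ‖y - yT i‖ ≤ ρ).card : ℕ) : ℝ) ≤ K) →
    (∀ q ∈ QS, 0 ≤ w q ∧ 0 ≤ F q ∧ Flux a η ηN (yQ q) (ρQ q) (F q)) →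
    (∀ y ∈ N0 ηN, M0 - Φ y ≤ w0 + ∑ q ∈ QS, if ‖y - yQ q‖ ≤ ρQ q then w q else 0) →
    ∑ i ∈ TS, μ i * G i ≤ θ * ∑ i ∈ TS, μ i * A i +
      C * ((w0 + N1) * (AR a η 0 1 + 1) + ∑ q ∈ QS, w q * F q)

/-! ### The local model -/

/-- Poincare inequality and lower bound for the charged area -/
def PoincStmt : Prop :=
  ∃ K : ℝ, 1 ≤ K ∧ ∀ (a : E2 → ℂ) (η η' : ℝ) (χ : E2 → ℝ), ContDiff ℂ 2 a → 0 < η → η < 1 →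
    η' ≤ 1 → Cut χ → (∀ u ∈ Gset η', χ u = 1) →
    (∀ L, 1 ≤ L → T2 a η L χ ≤ 2 * (Tot a η L - Gr a η η') +
      K * (En a η (Reg L) χ + MK a η L + MK (fun u => a u.swap) η L)) ∧
    Gr a η η' ≤ K * (∫ u in closedBall 0 (Real.exp 5), χ u * (wt η (a u) * ‖Wf a u‖ ^ 2)) +
      K * √(Ar a η (closedBall 0 (Real.exp 5)) * En a η (closedBall 0 (Real.exp 5)) χ)

/-- the cutoff of a tube shell -/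
def LCutStmt : Prop :=
  ∃ K : ℝ, 1 ≤ K ∧ ∀ L : ℝ, 1 ≤ L → ∃ ψ, Cut ψ ∧ (∀ u, ‖u‖ ≤ 1 → ψ u = 1) ∧
    (∀ u, 2 * Real.exp L ≤ ‖u‖ → ψ u = 0) ∧ ∀ (a : E2 → ℂ) (η : ℝ) (χ : E2 → ℝ),
    ContDiff ℂ 2 a → 0 < η → Cut χ → ∫ u, wt η (a u) * ((1 - χ u) ^ 2 * bf a ψ ψ u) ≤
      K * (T2 a η L χ + MK a η L + MK (fun u => a u.swap) η L)

/-- upper bound for the total mass -/
def TotStmt : Prop :=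
  ∀ C2 : ℝ, 1 ≤ C2 → ∃ K : ℝ, 1 ≤ K ∧ ∀ (A : E2 → ℂ) (S0 μ X X' B S L c η T : ℝ) (z1 : ℂ),
    Wav A S0 μ X B → 0 < S0 → 1 / 2 ≤ μ → 0 ≤ X → 0 ≤ X' → 1 ≤ L → 2 * (L + 4) ≤ S → S + 2 ≤ B →
    K ≤ B → ‖z1‖ ≤ C2 → S0 * Real.exp (-X') ≤ ‖sym A (z1, conj z1)‖ → |c| ≤ T → 0 < η → η ≤ T →
    2 * T ≤ S0 * Real.exp (-X') →
    Tot (fun u => sym A u - c) η L ≤ VV * μ + K * (X + X' + μ * L) / S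

/-- upper bound for the side mass -/
def SideStmt : Prop :=
  ∀ C2 : ℝ, 1 ≤ C2 → ∃ K : ℝ, 1 ≤ K ∧ ∀ (A : E2 → ℂ) (S0 μ X X' B L c η T : ℝ) (z1 : ℂ),
    Wav A S0 μ X B → 0 < S0 → 1 / 2 ≤ μ → 0 ≤ X → 0 ≤ X' → K ≤ L → 5 * L ≤ B →
    X + X' ≤ μ * L / 4 → ‖z1‖ ≤ C2 → S0 * Real.exp (-X') ≤ ‖sym A (z1, conj z1)‖ → |c| ≤ T →
    0 < η → η ≤ T → T ≤ S0 * Real.exp (-(2 * μ * L)) →
    MK (fun u => sym A u - c) η L ≤ K * ((X + X' + μ) / B + Real.exp (-(L / 2))) ∧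
    MK (fun u => sym A u.swap - c) η L ≤ K * ((X + X' + μ) / B + Real.exp (-(L / 2)))

/-- real zeros from the winding number, on one circle -/
def CircStmt : Prop :=
  ∀ (f : ℂ → ℂ) (ε S : ℝ), Differentiable ℂ f → Function.Periodic f (2 * Real.pi) → 0 < ε →
    0 < S → ((∫ s in (-Real.pi)..Real.pi, U1 f ε s) -
      ∫ s in (-Real.pi)..Real.pi, U1 f ε (s + S * I)) / S ≤
      Real.pi * ∫ s in (-Real.pi)..Real.pi, pe ε (f s).re * |(deriv f s).re|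

/-- lower bound for the limit of the grounded mass -/
def WindStmt : Prop :=
  ∀ C2 : ℝ, 1 ≤ C2 → ∃ K : ℝ, 1 ≤ K ∧ ∀ (A : E2 → ℂ) (S0 μ X X' B S ε T δ : ℝ) (z1 : ℂ),
    Wav A S0 μ X B → 0 < S0 → 1 / 2 ≤ μ → 0 ≤ X → 0 ≤ X' → 1 ≤ S → S + 1 ≤ B → K ≤ B →
    ‖z1‖ ≤ C2 → S0 * Real.exp (-X') ≤ ‖sym A (z1, conj z1)‖ → 0 < ε →
    ε ≤ S0 * Real.exp (-(μ * (S + 1))) → 0 < T → 0 ≤ δ →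
    ε ^ 2 * (S0 * Real.exp (X + 2 * μ)) ≤ δ * T ^ 3 →
    VV * μ - K * ((X + X' + μ) / S + δ) ≤ Glim (sym A) ε T

/-- the density of the level and continuity in the level -/
def PtStmt : Prop :=
  (∀ ε T : ℝ, 0 < ε → 0 < T → Continuous (pt ε T) ∧ (∀ c, 0 ≤ pt ε T c) ∧
    (∀ c, T ≤ |c| → pt ε T c = 0) ∧ HasCompactSupport (pt ε T) ∧ ∫ c, pt ε T c ≤ 1 ∧
    ∀ c, pe ε c - ε ^ 2 / (2 * T ^ 3) ≤ pt ε T c) ∧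
  (∀ (a : E2 → ℂ) (η η' : ℝ), ContDiff ℂ 2 a → 0 < η → η < 1 → η' ≤ 1 →
    Continuous (fun c : ℝ => Gr (fun u => a u - c) η η') ∧ 0 ≤ Gr a η η' ∧
    IntegrableOn (fun u => wt η (a u) * (bw (u.1 * u.2) * Pk η (u.1 * u.2) * ‖Tf a u‖ ^ 2))
      (Gset η')) ∧
  IsCompact (Gset 1) ∧ (∀ η', IsClosed (Gset η')) ∧ (∀ u ∈ Gset 1, ‖u‖ ≤ 4) ∧
  Continuous bw ∧ (∀ q, 0 ≤ bw q) ∧ (∀ q, bw q ≤ Real.exp 4) ∧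
  (∀ q, bw q ≠ 0 → Real.exp (-2) ≤ ‖q‖ ∧ ‖q‖ ≤ Real.exp 2) ∧ 0 < VV

/-- the real slice limit, uniformly in the plane -/
def GroundStmt : Prop :=
  ∀ (n : ℕ) (g : Cn n → Cn n) (R T ε η' δ : ℝ), Adm g → 0 < T → 0 < ε → 0 < η' → η' ≤ 1 → 0 < δ →
    ∀ᶠ η in 𝓝[>] (0 : ℝ), ∀ (p : Rn n) (ζ : Cn n) (ξ : Rn n), ‖p‖ ≤ R → ‖ζ‖ ≤ R → ‖ξ‖ ≤ R →
      Glim (pz g p ζ ξ) ε T - δ ≤ ∫ c, pt ε T c * Gr (fun u => pz g p ζ ξ u - c) η η'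

/-- the shell of the local model -/
def LShellStmt : Prop :=
  ∀ C2 : ℝ, 1 ≤ C2 → ∃ K : ℝ, 1 ≤ K ∧ ∀ κ : ℝ, K ≤ κ → ∃ ψ, Cut ψ ∧ (∀ u, ‖u‖ ≤ 1 → ψ u = 1) ∧
    (∀ u, 2 * Real.exp κ ≤ ‖u‖ → ψ u = 0) ∧
    ∀ (A : E2 → ℂ) (S0 μ c η T η' : ℝ) (z1 : ℂ), Wav A S0 μ (μ * κ / 8) (2 * κ ^ 6) → 0 < S0 →
    1 / 2 ≤ μ → ‖z1‖ ≤ C2 → S0 * Real.exp (-(μ * κ / 8)) ≤ ‖sym A (z1, conj z1)‖ → |c| ≤ T →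
    0 < η → η ≤ T → η < 1 → T ≤ S0 * Real.exp (-(2 * μ * κ)) → η' ≤ 1 →
    Gr (fun u => sym A u - c) η η' ≤ VV * μ + K * μ / κ ^ 5 ∧
    ∀ χ, Cut χ → (∀ u ∈ Gset η', χ u = 1) →
      ∫ u, wt η (sym A u - c) * ((1 - χ u) ^ 2 * bf (fun u => sym A u - c) ψ ψ u) ≤
        K * (VV * μ + K * μ / κ ^ 5 - Gr (fun u => sym A u - c) η η' +
          En (fun u => sym A u - c) η (Reg κ) χ)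

/-- Goursat decomposition -/
def WaveStmt (n : ℕ) : Prop :=
  ∃ K : ℝ, 1 ≤ K ∧ ∀ (g : Cn n → Cn n) (x p : Rn n) (r μ X B B1 lam : ℝ) (u1 u2 : Rn n)
    (ζ : Cn n) (ξ : Rn n), Adm g → TubeAx g x r μ X B u1 u2 → 0 < r → 0 ≤ μ →
    ‖p - x‖ ≤ r * Real.exp (-B) → zc u1 u2 ζ = r → wc u1 u2 ζ = 0 → 1 ≤ lam → ‖ζ‖ ≤ r * lam →
    ‖ξ‖ ≤ 1 → 0 ≤ B1 → B1 + Real.log lam + K ≤ B →
    ∃ A, Wav A (SS g (cx x) r) μ (X + K * (μ + 1)) B1 ∧ ∀ u, pz g p ζ ξ u = sym A u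

/-! ### Structure of pinched scales -/

/-- Cauchy-Kowalevski bound -/
def CKStmt (n : ℕ) : Prop :=
  ∃ K : ℝ, 1 ≤ K ∧ ∀ (g : Cn n → Cn n) (x : Cn n) (ν : Rn n) (R M : ℝ), Adm g → ν ⬝ᵥ ν = 1 →
    0 < R → (∀ t, cx ν ⬝ᵥ t = 0 → ‖t‖ ≤ K * R → ‖g (x + t)‖ ≤ M) →
    ∀ y, ‖y - x‖ ≤ R → ‖g y‖ ≤ 2 * M

/-- two wells -/
def TWStmt : Prop :=
  ∀ (n : ℕ) (g : Cn n → Cn n) (y0 y1 : Cn n) (S0 r μ X B B' : ℝ) (t0 : ℂ), Differentiable ℂ g →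
    0 < r → 0 < S0 → 0 ≤ μ → 1 ≤ B' → 36 * B' ^ 2 ≤ B → UP g y0 S0 r μ X B → UP g y1 S0 r μ X B →
    ‖y1 - y0‖ ≤ r * Real.exp B' → ‖t0‖ * ‖y1 - y0‖ ≤ r * Real.exp B' → ‖t0‖ ≤ Real.exp (2 * B') →
    UP g (y0 + t0 • (y1 - y0)) S0 r μ (X + 3 * μ) B'

/-- the order propagates along the span -/
def SpanStmt : Prop :=
  ∀ k : ℕ, ∃ (C : ℝ) (p : ℕ), 1 ≤ C ∧ 1 ≤ p ∧ ∀ (n : ℕ) (g : Cn n → Cn n) (x0 : Cn n)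
    (v : Fin k → Cn n) (S0 r μ X B B' : ℝ), Differentiable ℂ g → 0 < r → 0 < S0 → 0 ≤ μ →
    1 ≤ B' → C * B' ^ p ≤ B → (∀ l, ‖v l‖ ≤ 2 * r) → UP g x0 S0 r μ X B →
    (∀ l, UP g (x0 + v l) S0 r μ X B) → ∀ s : Fin k → ℂ, ‖s‖ ≤ Real.exp B' →
    UP g (x0 + ∑ l, s l • v l) S0 r μ (X + 6 * k * μ) B'

/-- nearby pinched points have the same order -/
def SyncStmt : Prop :=
  ∀ (n : ℕ) (g : Cn n → Cn n) (A b i : ℕ) (x x' : Rn n), Differentiable ℂ g → NZ g → 3 ≤ A →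
    13 ≤ b → Pin g A b x i → Pin g A b x' i → ‖x' - x‖ ≤ 2 * rj A i →
    UP g (cx x') (SS g (cx x) (rj A i)) (rj A i) (mu g A x i)
      ((6 + 7 * Real.log A) * mu g A x i) (b * Real.log A - 2)

/-- greedy choice of spread vectors and orthogonal complements -/
def GreedyStmt : Prop :=
  ∀ n : ℕ, (∀ (k : ℕ) (G : Set (Rn n)) (r θ : ℝ), 0 < r → 0 < θ → θ ≤ 1 →
      (∀ v ∈ G, ‖v‖ ≤ 2 * r) → (∃ v : Fin k → Rn n, (∀ l, v l ∈ G) ∧ Spread k ((θ / 4) ^ k * r) v) ∨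
      ∃ W : Submodule ℝ (Rn n), Module.finrank ℝ W < k ∧ ∀ v ∈ G, ∃ w ∈ W, ‖v - w‖ ≤ θ * r) ∧
    (∀ (v : Fin (n - 2) → Rn n) (θ : ℝ), 2 ≤ n → 0 < θ → Spread (n - 2) θ v →
      ∃ u1 u2, ON u1 u2 ∧ ∀ y : Cn n, ∃ s : Fin (n - 2) → ℂ,
        θ * ‖s‖ ≤ 2 * (1 + 2 * n) * ‖y‖ ∧
        ‖y - ∑ l, s l • cx (v l)‖ ≤ max ‖zc u1 u2 y‖ ‖wc u1 u2 y‖) ∧
    ∀ (v : Fin (n - 1) → Rn n) (θ : ℝ), 1 ≤ n → 0 < θ → Spread (n - 1) θ v →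
      ∃ ν : Rn n, ν ⬝ᵥ ν = 1 ∧ ∀ t : Cn n, cx ν ⬝ᵥ t = 0 → ∃ s : Fin (n - 1) → ℂ,
        θ * ‖s‖ ≤ 2 * ‖t‖ ∧ t = ∑ l, s l • cx (v l)

/-- the structure theorem -/
def StrStmt (n : ℕ) : Prop := ∀ A : ℕ, 3 ≤ A → ∃ (C0 C1 : ℝ) (p b0 : ℕ), StrHyp n A C0 C1 p b0

/-- nets and separated sets -/
def NetStmt : Prop :=
  (∀ (E : Type) [NormedAddCommGroup E] [NormedSpace ℝ E] [FiniteDimensional ℝ E] (F : Finset E)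
    (c : E) (R δ : ℝ), 0 ≤ R → 0 < δ → (∀ x ∈ F, ‖x - c‖ ≤ R) →
    (∀ x ∈ F, ∀ x' ∈ F, x ≠ x' → δ ≤ ‖x - x'‖) →
    (F.card : ℝ) ≤ (2 * R / δ + 1) ^ Module.finrank ℝ E) ∧
  (∀ (E : Type) [NormedAddCommGroup E] [NormedSpace ℝ E] [FiniteDimensional ℝ E] (G : Set E)
    (c : E) (R δ : ℝ), 0 < δ → (∀ x ∈ G, ‖x - c‖ ≤ R) → ∃ F : Finset E, (∀ x ∈ F, x ∈ G) ∧
    (∀ x ∈ F, ∀ x' ∈ F, x ≠ x' → δ ≤ ‖x - x'‖) ∧ ∀ x ∈ G, ∃ q ∈ F, ‖x - q‖ ≤ δ)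

/-- the covering count holds for large ratio -/
def YStmt (n : ℕ) : Prop := ∃ A0 : ℕ, ∀ A, A0 ≤ A → YHyp n A

open Classical in
/-- few scales are not pinched -/
def NPStmt : Prop :=
  ∀ (m : ℕ → ℝ) (lo hi b : ℕ) (Λ : ℝ), Antitone m → 1 ≤ b → 0 ≤ Λ → 0 < m hi →
    m lo ≤ Real.exp Λ * m hi →
    ((((Finset.Ico lo hi).filter fun i =>
      ¬ (lo + b ≤ i ∧ i + b ≤ hi ∧ b * (m (i - b) - m (i + b)) ≤ m (i + b))).card : ℕ) : ℝ) ≤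
      2 * b + 4 * b ^ 2 * Λ

/-- a heavy block with few degenerate scales gives chains -/
def HeavyStmt (n : ℕ) : Prop :=
  ∀ (A : ℕ) (C0 C1 : ℝ) (p b0 : ℕ), 100 * n ≤ A → StrHyp n A C0 C1 p b0 → ∀ B0 : ℝ, 1 ≤ B0 →
    ∃ b : ℕ → ℕ, (∀ k, b0 ≤ b k) ∧ ∀ᶠ k : ℕ in atTop, ∀ (g : Cn n → Cn n) (x : Rn n), Adm g → NZ g →
    ‖x‖ ≤ 5 → Real.log A / 2 ≤ mj g A x (2 ^ k) →
    mj g A x (2 ^ (k - 1)) ≤ 4 * mj g A x (2 ^ k) → mj g A x 0 ≤ 4 ^ k * mj g A x (2 ^ k) →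
    x ∉ Yset (fun x i => Pin g A b0 x i)
      (fun x i => Pin g A (b k) x i ∧ ¬ Full g A (b k) x i) (2 ^ (k - 1)) →
    ∃ I : Finset ℕ, I ⊆ Finset.Ico (3 * 2 ^ (k - 2)) (2 ^ k) ∧ 2 ^ k ≤ 8 * I.card ∧ ∀ i ∈ I,
      1 / 2 ≤ mu g A x i ∧ mu g A x (2 ^ (k - 1)) ≤ 4 * mu g A x i ∧
      Tube g x (rj A i) (mu g A x i) (C0 * mu g A x i) B0 ∧
      Chain g C0 x (rj A i) (mu g A x i) k (2 ^ k / 2)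

/-- existence of the decomposition -/
def DecStmt (n : ℕ) : Prop :=
  ∀ (A : ℕ) (C0 C1 : ℝ) (p b0 : ℕ), 100 * n ≤ A → StrHyp n A C0 C1 p b0 → YHyp n A →
    ∃ C : ℝ, 1 ≤ C ∧ ∀ B0 κ0 : ℝ, 1 ≤ B0 → ∀ᶠ k0 : ℕ in atTop, ∀ (g : Cn n → Cn n) (N r : ℝ),
    Nor g N → 0 < r → r ≤ 1 →
    ∃ KS FY ρY IS ρ FQ μq, Dec g N C0 B0 κ0 r C k0 KS FY ρY IS ρ FQ μq

/-! ### Random planes -/

/-- null coordinates on a plane -/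
def PlaneStmt (n : ℕ) : Prop :=
  ∀ (e : Dir n) (u1 u2 : Rn n) (α R : ℝ), e ∈ Ebox n → ON u1 u2 → 0 < α → α ≤ |dt u1 u2 e| →
    0 < R → ∃ (M : E2 ≃L[ℂ] E2) (ζ : Cn n) (z1 : ℂ),
      (∀ u, pl e (M u) = u.1 • ζ + u.2 • star ζ) ∧ zc u1 u2 ζ = R ∧ wc u1 u2 ζ = 0 ∧
      ‖ζ‖ ≤ R * (4 * n / α) ∧ (∀ u, ‖M u‖ ≤ 3 * n * R / α * ‖u‖) ∧
      (∀ y, ‖M.symm y‖ ≤ 6 * n / R * ‖y‖) ∧ (∀ u, star (M u) = M (conj u.2, conj u.1)) ∧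
      M (z1, conj z1) = ((R : ℂ), 0) ∧ ‖z1‖ ≤ 3 * n ∧
      ∀ y : E2, M.symm y = (zc u1 u2 (pl e y) / R, wc u1 u2 (pl e y) / R)

/-- area of round shells -/
def ARStmt (n : ℕ) : Prop :=
  ∃ K : ℝ, 1 ≤ K ∧ ∀ (g : Cn n → Cn n) (x p : Rn n) (e : Dir n) (ξ : Rn n) (y : ℝ × ℝ)
    (c η T R D : ℝ), Adm g → e ∈ Ebox n → ‖ξ‖ ≤ 1 → 0 < R → ‖p + plr e y - x‖ ≤ R → 1 ≤ D →
    SS g (cx x) (70 * R) ≤ Real.exp D * SS g (cx x) R → |c| ≤ T → 0 < η → η ≤ T →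
    T ≤ SS g (cx x) R →
    AR (aa g p e ξ c) η (c2 y) R ≤ K * (D + XV g (SS g (cx x) R) η (p + plr e y + R • e.1) ξ c)

/-- slabs and grazing planes -/
def GrazeStmt (n : ℕ) : Prop :=
  (∀ (G x0 : Rn n) (c t R : ℝ), G ≠ 0 → 0 ≤ t → 0 ≤ R →
    volume {ξ : Rn n | ‖ξ - x0‖ ≤ R ∧ |ξ ⬝ᵥ G - c| ≤ t * ‖G‖} ≤
      ENNReal.ofReal (2 * t * (2 * R) ^ (n - 1))) ∧
  (∃ K : ℝ, 1 ≤ K ∧ ∀ (u1 u2 : Rn n) (α : ℝ), ON u1 u2 → 0 < α →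
    volume {θ ∈ Tbox n | |dt u1 u2 θ.1| ≤ α} ≤ ENNReal.ofReal (K * √α)) ∧
  volume (Tbox n) = ENNReal.ofReal ((1 / 8) ^ n) ∧ MeasurableSet (Tbox n)

/-- tail and second moment of the defect -/
def MomStmt (n : ℕ) : Prop :=
  ∃ K : ℝ, 1 ≤ K ∧ ∀ (g : Cn n → Cn n) (x p : Rn n) (R D c : ℝ), Adm g → NZ g → 0 < R →
    ‖p - x‖ ≤ R → 1 ≤ D → SS g (cx x) (70 * R) ≤ Real.exp D * SS g (cx x) R →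
    (∀ s : ℝ, volume {θ ∈ Tbox n | ‖cx θ.2 ⬝ᵥ g (cx (p + R • θ.1.1)) - c‖ ≤
      SS g (cx x) R * Real.exp (-s)} ≤ ENNReal.ofReal (K * Real.exp (-s / (K * D)))) ∧
    ∀ η : ℝ, 0 < η → ∫⁻ θ in Tbox n, ENNReal.ofReal
      (XV g (SS g (cx x) R) η (p + R • θ.1.1) θ.2 c) ^ 2 ≤ ENNReal.ofReal (K * D ^ 2)

/-- tube shells on a plane -/
def TShellStmt (n : ℕ) : Prop :=
  ∀ C0 : ℝ, 1 ≤ C0 → ∃ K : ℝ, 1 ≤ K ∧ ∀ (g : Cn n → Cn n) (x : Rn n) (R μ κ δ ηN : ℝ)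
    (u1 u2 : Rn n), Adm g → NZ g → K ≤ κ → 1 / 2 ≤ μ → 0 < R →
    TubeAx g x R μ (C0 * μ) (3 * κ ^ 6) u1 u2 → R * Real.exp (3 * κ) ≤ δ → δ ≤ 1 → 0 < ηN →
    ηN ≤ 1 → ∀ᶠ T in 𝓝[>] (0 : ℝ), ∀ᶠ ε in 𝓝[>] (0 : ℝ), ∀ᶠ η in 𝓝[>] (0 : ℝ),
    ∀ (p : Rn n) (θ : Dir n × Rn n) (y : ℝ × ℝ), θ ∈ Tbox n → ‖y‖ ≤ 1 - δ →
    ‖p + plr θ.1 y - x‖ ≤ R * Real.exp (-(3 * κ ^ 6)) → Real.exp (-κ) ≤ |dt u1 u2 θ.1| →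
    SS g (cx x) R * Real.exp (-(μ * κ / 8)) ≤ ‖cx θ.2 ⬝ᵥ g (cx (p + plr θ.1 y + R • θ.1.1))‖ →
    ∃ s : ℝ → ℝ, Continuous s ∧ ∫ c, pt ε T c * s c ≤ K * μ / κ ^ 5 ∧ ∀ c, |c| ≤ T → 0 ≤ s c ∧
      Shell (aa g p θ.1 θ.2 c) η ηN (c2 y) (R / (18 * n)) (R * Real.exp (3 * κ)) K (s c)

/-- the cost of a chain -/
def ChainStmt (n : ℕ) : Prop :=
  ∀ C0 : ℝ, 1 ≤ C0 → ∃ K : ℝ, 1 ≤ K ∧ ∀ (g : Cn n → Cn n) (x : Rn n) (ρ μ κ J ηN : ℝ), Adm g →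
    NZ g → K ≤ κ → κ ^ 6 ≤ J → 1 / 2 ≤ μ → 0 < ρ → Chain g C0 x ρ μ κ J → 0 < ηN → ηN ≤ 1 →
    ∀ᶠ T in 𝓝[>] (0 : ℝ), ∀ᶠ ε in 𝓝[>] (0 : ℝ), ∀ᶠ η in 𝓝[>] (0 : ℝ),
    ∃ Cst : Rn n × (Dir n × Rn n) × (ℝ × ℝ) → ℝ≥0∞, Measurable Cst ∧
      (∀ p', ‖p' - x‖ ≤ 3 * ρ → ∫⁻ y in closedBall (0 : ℝ × ℝ) (1 + ρ), ∫⁻ θ in Tbox n,
        Cst (p', θ, y) ≤ ENNReal.ofReal (K * μ ^ 2 / (J * κ ^ 2))) ∧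
      ∀ (p : Rn n) (θ : Dir n × Rn n) (y : ℝ × ℝ), θ ∈ Tbox n → ‖y‖ ≤ 1 + ρ →
        ‖p + plr θ.1 y - x‖ ≤ 3 * ρ → ∃ V, ENNReal.ofReal (μ * V) ≤ Cst (p + plr θ.1 y, θ, y) ∧
          QCell g T ε η ηN ρ p θ y V

/-- lower bound for the averaged Levi form -/
def LeviStmt (n : ℕ) : Prop :=
  ∀ C0 α : ℝ, 1 ≤ C0 → 0 < α → ∃ K : ℝ, 1 ≤ K ∧ ∀ (g : Cn n → Cn n) (x : Rn n) (r μ B T : ℝ)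
    (u1 u2 : Rn n) (e : Dir n), Adm g → NZ g → 0 < r → 1 / 2 ≤ μ → K ≤ B →
    TubeAx g x r μ (C0 * μ) B u1 u2 → 0 < T → T ≤ SS g (cx x) r * Real.exp (-(B * μ)) →
    e ∈ Ebox n → α ≤ |dt u1 u2 e| → ∀ W : E2, μ * r ^ (2 * n - 2) * ‖W‖ ^ 2 ≤
      K * ∫ v in closedBall (0 : Cn n) (K * r), lapd (Ul g T) (cx x + v) (pl e W)

/-- packing cells -/
def PCellStmt (n : ℕ) : Prop :=
  ∀ C0 : ℝ, 1 ≤ C0 → ∃ K1 K2 K v0 B0 : ℝ, 1 ≤ K1 ∧ 10 ≤ K2 ∧ 1 ≤ K ∧ 0 < v0 ∧ 1 ≤ B0 ∧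
    ∀ (g : Cn n → Cn n) (x : Rn n) (r μ B : ℝ), Adm g → NZ g → 0 < r → K1 * r ≤ 1 / 4 →
    1 / 2 ≤ μ → B0 ≤ B → Tube g x r μ (C0 * μ) B →
    ∀ᶠ T in 𝓝[>] (0 : ℝ), ∀ᶠ ε in 𝓝[>] (0 : ℝ), ∀ᶠ η in 𝓝[>] (0 : ℝ),
    ∃ G : Set (Rn n × (Dir n × Rn n)), MeasurableSet G ∧ (∀ z ∈ G, ‖z.1 - x‖ ≤ r ∧ z.2 ∈ Tbox n) ∧
      ENNReal.ofReal (r ^ n / (K * Real.exp (n * B))) ≤ volume G ∧
      ∀ (p : Rn n) (θ : Dir n × Rn n) (y : ℝ × ℝ), ‖y‖ ≤ 1 / 4 → (p + plr θ.1 y, θ) ∈ G →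
        PCell g T ε η r μ K1 K2 K v0 p θ y

/-- lower bound for the averaged potential near real points -/
def PhiStmt (n : ℕ) : Prop :=
  ∃ K : ℝ, 1 ≤ K ∧ ∀ (g : Cn n → Cn n) (N r lam : ℝ), Nor g N → 0 < r → 10 ≤ lam → lam * r ≤ 1 →
    ∀ᶠ T in 𝓝[>] (0 : ℝ), (∀ y : Cn n, ‖y‖ ≤ 100 → Ul g T y ≤ n) ∧
    ∀ (x : Rn n) (y : Cn n), ‖x‖ ≤ 5 → ‖y - cx x‖ ≤ 9 / 4 * r →
      n * volume.real (closedBall (0 : Cn n) (lam * r)) -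
        ∫ v in closedBall (0 : Cn n) (lam * r), Ul g T (y - v) ≤
      volume.real (closedBall (0 : Cn n) (lam * r)) * (K * (N - Real.log (SS g (cx x) r)))

/-- rescaling -/
def RescStmt (n : ℕ) : Prop :=
  (∀ (g : Cn n → Cn n) (N C0 B r μ : ℝ) (x : Rn n), Nor g N → ‖x‖ ≤ 5 → 0 < r → r ≤ 1 → 0 ≤ μ →
    1 ≤ C0 → 2 * C0 ≤ B → 2 * n ≤ B → Tube g x r μ (C0 * μ) B → μ ≤ 8 * N) ∧
  ∃ K : ℝ, 1 ≤ K ∧ ∀ C0 B0 lo hi C : ℝ, 0 ≤ C → PB n C0 B0 lo hi C →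
    ∀ (g : Cn n → Cn n) (N : ℝ), Nor g N → ∀ r, 0 < r → lo < 2 * r → 2 * r ≤ hi → ∀ F μ,
    Pack g C0 B0 5 r F μ → ∑ x ∈ F, r ^ (n - 2) * μ x ^ 2 ≤ K * C * N ^ 2

open Classical in
/-- the inequality on one plane -/
def OmegaStmt (n : ℕ) : Prop :=
  ∀ K1 K2 K v0 : ℝ, 1 ≤ K1 → 10 ≤ K2 → 1 ≤ K → 0 < v0 → ∃ C : ℝ, 1 ≤ C ∧
    ∀ (g : Cn n → Cn n) (N r T ε η w0 : ℝ) (p : Rn n) (θ : Dir n × Rn n) (F : Finset (Rn n))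
    (μ : Rn n → ℝ) (yT : Rn n → ℝ × ℝ) (κ : Type) (QS : Finset κ) (yQ : κ → ℝ × ℝ)
    (ρ w V : κ → ℝ), Nor g N → 0 < r → K1 * r ≤ 1 / 4 → K2 * r ≤ 1 → 0 < T → 0 < ε → 0 < η →
    η ≤ T → T ≤ SS g (cx p) 1 → ‖p‖ ≤ 2 → θ ∈ Tbox n → 0 ≤ w0 →
    (∀ y : Cn n, ‖y‖ ≤ 100 → Ul g T y ≤ n) →
    (∀ x ∈ F, 0 ≤ μ x ∧ μ x ≤ 8 * N ∧ ‖yT x‖ ≤ 1 / 4 ∧ ‖p + plr θ.1 (yT x) - x‖ ≤ r ∧
      PCell g T ε η r (μ x) K1 K2 K v0 p θ (yT x)) →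
    (∀ x ∈ F, ∀ x' ∈ F, x ≠ x' → r / 2 ≤ ‖x - x'‖) →
    (∀ q ∈ QS, 0 ≤ w q ∧ QCell g T ε η r (ρ q) p θ (yQ q) (V q)) →
    (∀ y ∈ N0 r, n * volume.real (closedBall (0 : Cn n) (K2 * r)) -
        ∫ v in closedBall (0 : Cn n) (K2 * r), Ul g T (cx p + pl θ.1 y - v) ≤
      volume.real (closedBall (0 : Cn n) (K2 * r)) *
        (w0 + ∑ q ∈ QS, if ‖y - c2 (yQ q)‖ ≤ 6 * ρ q then w q else 0)) →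
    ∑ x ∈ F, μ x ^ 2 ≤ C * ((w0 + N) *
      (N + ∫ c, pt ε T c * XV g 1 η (p + θ.1.1) θ.2 c) + ∑ q ∈ QS, w q * V q)

/-- hitting probabilities -/
def HitStmt (n : ℕ) : Prop :=
  (∀ F : Rn n × (Dir n × Rn n) × (ℝ × ℝ) → ℝ≥0∞, Measurable F → ∀ Y : Set (ℝ × ℝ),
    Measurable (fun ω : Rn n × (Dir n × Rn n) => ∫⁻ y in Y, F (ω.1 + plr ω.2.1 y, ω.2, y)) ∧
    ∫⁻ ω in (univ : Set (Rn n)) ×ˢ Tbox n, ∫⁻ y in Y, F (ω.1 + plr ω.2.1 y, ω.2, y) =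
      ∫⁻ p' : Rn n, ∫⁻ y in Y, ∫⁻ θ in Tbox n, F (p', θ, y)) ∧
  (∀ (F : Rn n × (Dir n × Rn n) × (ℝ × ℝ) → ℝ≥0∞) (x : Rn n) (ρ : ℝ) (p : Rn n)
    (θ : Dir n × Rn n) (y0 : ℝ × ℝ), Measurable F → 0 < ρ → ρ ≤ 1 / 2 → θ ∈ Tbox n → ‖y0‖ ≤ 1 →
    ‖p + plr θ.1 y0 - x‖ ≤ ρ / 2 → ∃ y : ℝ × ℝ, ‖y‖ ≤ 1 + ρ ∧ ‖p + plr θ.1 y - x‖ ≤ 3 * ρ ∧
      ENNReal.ofReal (ρ ^ 2) * F (p + plr θ.1 y, θ, y) ≤ ∫⁻ y in closedBall (0 : ℝ × ℝ) (1 + ρ),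
        {z : Rn n × (Dir n × Rn n) × (ℝ × ℝ) | ‖z.1 - x‖ ≤ 3 * ρ}.indicator F
          (p + plr θ.1 y, θ, y)) ∧
  ∀ (x : Rn n) (r : ℝ) (p : Rn n) (θ : Dir n × Rn n), 0 < r → θ ∈ Tbox n →
    volume {y : ℝ × ℝ | ‖p + plr θ.1 y - x‖ ≤ r} ≤ ENNReal.ofReal (30 * r ^ 2)

/-- the averaged inequality -/
def ExpStmt (n : ℕ) : Prop :=
  ∀ C0 : ℝ, 1 ≤ C0 → ∃ B0 r0 κ0 : ℝ, 1 ≤ B0 ∧ 0 < r0 ∧ r0 ≤ 1 ∧ ∀ C : ℝ, 1 ≤ C → ∃ K : ℝ, 1 ≤ K ∧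
    ∀ (g : Cn n → Cn n) (N r : ℝ) (k0 : ℕ) KS FY ρY IS ρ FQ μq (F : Finset (Rn n))
    (μ : Rn n → ℝ), Nor g N → 0 < r → r ≤ r0 → Dec g N C0 B0 κ0 r C k0 KS FY ρY IS ρ FQ μq →
    Pack g C0 B0 1 r F μ → ∑ x ∈ F, r ^ (n - 2) * μ x ^ 2 ≤ K * (2 ^ k0 * N ^ 2 +
      ∑ k ∈ KS, ∑ i ∈ IS k, (∑ q ∈ FQ k i, ρ i ^ (n - 2) * μq i q ^ 2) / (2 ^ k * (k : ℝ) ^ 2))

/-- the packing theorem -/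
def BootStmt (n : ℕ) : Prop :=
  ∀ (A : ℕ) (C0 C1 : ℝ) (p b0 : ℕ), 100 * n ≤ A → StrHyp n A C0 C1 p b0 → YHyp n A →
    ∃ B0 r0 C : ℝ, 1 ≤ B0 ∧ 0 < r0 ∧ 0 ≤ C ∧ PB n C0 B0 0 r0 C

open Classical in
/-- from a multiple cover by nested cells to a cover -/
def TreeStmt : Prop :=
  ∀ (X ι : Type) (f : ℕ → X → ι) (I : Finset ℕ) (W : ℕ → Finset ι) (c : ℕ → ℝ) (t : ℕ), 1 ≤ t →
    (∀ i j x x', i ≤ j → f j x = f j x' → f i x = f i x') → (∀ i, 0 ≤ c i) →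
    ∃ W' : ℕ → Finset ι, (∀ x, t ≤ (I.filter fun i => f i x ∈ W i).card → ∃ i ∈ I, f i x ∈ W' i) ∧
      t * ∑ i ∈ I, c i * (W' i).card ≤ ∑ i ∈ I, c i * (W i).card

/-- the covering theorem for polynomials -/
def CoverStmt (n : ℕ) : Prop :=
  ∃ (A : ℕ) (C : ℝ), 16 ≤ A ∧ 0 ≤ C ∧ ∀ N : ℝ, ∀ᶠ J : ℕ in atTop, ∀ g : Cn n → Cn n, Nor g N →
    ∃ F : Finset (Rn n × ℝ), (∀ q ∈ F, 0 < q.2 ∧ q.2 ≤ rj A J) ∧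
      ∑ q ∈ F, q.2 ^ (n - 2) ≤ C * N ^ 2 ∧
      ∀ x : Rn n, ‖x‖ ≤ 1 → (∀ j ≤ 2 * J, Real.log A / 2 ≤ mj g A x j) →
        ∃ q ∈ F, ‖x - q.1‖ ≤ q.2

end

end Pool.Agent.LinN2
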