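import Pool.Agent.Lib.MP_8465a2_an.N2.Stmts2

/-!
Unique continuation for the gradient of a harmonic function, from the finiteness of the measure
of critical sets (MP_8465a2_an).
-/

namespace Pool.Agent.LinN2

open MeasureTheory Metric Set Filter Topology

lemma fderiv_aff {E F : Type} [NormedAddCommGroup E] [NormedSpace ℝ E] [NormedAddCommGroup F]
    [NormedSpace ℝ F] (u : E → F) (x : E) (s : ℝ) :
    (fderiv ℝ fun y => u (x + s • y)) = s • fun y => fderiv ℝ u (x + s • y) := by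
  ext1 y
  rw [fderiv_comp_smul (f := fun y => u (x + y)), fderiv_comp_add_left]
  rfl

lemma fderiv_aff2 {E F : Type} [NormedAddCommGroup E] [NormedSpace ℝ E] [NormedAddCommGroup F]
    [NormedSpace ℝ F] (u : E → F) (x : E) (s : ℝ) (y v : E) :
    fderiv ℝ (s • fun y => u (x + s • y)) y v = (s * s) • fderiv ℝ u (x + s • y) v := by
  rw [fderiv_const_smul_field, fderiv_aff]
  simp [smul_smul]

theorem unique (h : FinalStmt) {n : ℕ} (hn : 3 ≤ n) {u : EuclideanSpace ℝ (Fin n) → ℝ}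
    (hu : ContDiffOn ℝ 2 u (ball 0 1)) (hl : ∀ x ∈ ball (0 : EuclideanSpace ℝ (Fin n)) 1,
      ∑ i : Fin n, iteratedFDeriv ℝ 2 u x (fun _ => EuclideanSpace.single i (1 : ℝ)) = 0)
    (h0 : ∀ z ∈ ball (0 : EuclideanSpace ℝ (Fin n)) (1 / 2), fderiv ℝ u z = 0) :
    ∀ z ∈ ball (0 : EuclideanSpace ℝ (Fin n)) 1, fderiv ℝ u z = 0 := by
  obtain ⟨C, h⟩ := h n hn
  refine fun z hz => interior_subset (s := {z | fderiv ℝ u z = 0})
    ((convex_ball _ _).isPreconnected.subset_of_closure_inter_subset isOpen_interior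
      ⟨0, mem_ball_self one_pos, mem_interior_iff_mem_nhds.2
        (mem_of_superset (ball_mem_nhds 0 (by norm_num)) h0)⟩ ?_ hz)
  rintro x ⟨hx, hx'⟩
  obtain ⟨s, hs, hs'⟩ := nhds_basis_closedBall.mem_iff.1 (isOpen_ball.mem_nhds hx')
  have hm : ∀ y ∈ ball (0 : EuclideanSpace ℝ (Fin n)) 1, x + s • y ∈ closedBall x s :=
    fun y hy => by
      rw [mem_closedBall_iff_norm, add_sub_cancel_left, norm_smul, Real.norm_of_nonneg hs.le]
      exact mul_le_of_le_one_right hs.le (mem_ball_zero_iff.1 hy).le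
  have hsub : ball (0 : EuclideanSpace ℝ (Fin n)) (1 / 2) ⊆ ball 0 1 := ball_subset_ball (by norm_num)
  have hc : Continuous fun z : EuclideanSpace ℝ (Fin n) => s⁻¹ • (z - x) := by fun_prop
  have he : ∀ z : EuclideanSpace ℝ (Fin n), x + s • s⁻¹ • (z - x) = z := fun z => by
    rw [smul_inv_smul₀ hs.ne', add_sub_cancel]
  have hb : (fun z => s⁻¹ • (z - x)) ⁻¹' ball (0 : EuclideanSpace ℝ (Fin n)) (1 / 2) ∈ 𝓝 x :=
    hc.continuousAt.preimage_mem_nhds (by simpa using ball_mem_nhds 0 (by norm_num))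
  by_contra hx0
  obtain ⟨y0, hy0, hy1⟩ : ∃ y0 ∈ ball (0 : EuclideanSpace ℝ (Fin n)) (1 / 2),
      fderiv ℝ (fun y => u (x + s • y)) y0 ≠ 0 := by
    by_contra h1
    push Not at h1
    refine hx0 (mem_interior_iff_mem_nhds.2 (mem_of_superset hb fun z hz => ?_))
    have := h1 _ hz
    rw [fderiv_aff, Pi.smul_apply, he, smul_eq_zero_iff_right hs.ne'] at this
    exact this
  obtain ⟨M, hM⟩ := (isCompact_closedBall x s).exists_bound_of_continuousOn
    ((hu.continuousOn_fderiv_of_isOpen isOpen_ball one_le_two).mono hs')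
  have hM' : ∀ y ∈ ball (0 : EuclideanSpace ℝ (Fin n)) 1,
      ‖fderiv ℝ (fun y => u (x + s • y)) y‖ ≤ s * M := fun y hy => by
    rw [fderiv_aff, Pi.smul_apply, norm_smul, Real.norm_of_nonneg hs.le]
    exact mul_le_mul_of_nonneg_left (hM _ (hm y hy)) hs.le
  have hpos := (norm_pos_iff.2 hy1).trans_le (le_ciSup (f := fun y :
    ball (0 : EuclideanSpace ℝ (Fin n)) (1 / 2) => ‖fderiv ℝ (fun y => u (x + s • y)) y‖)
    ⟨s * M, by rintro _ ⟨y, rfl⟩; exact hM' y (hsub y.2)⟩ ⟨y0, hy0⟩)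
  have key := h (fun y => u (x + s • y)) (hu.comp (by fun_prop) fun y hy => hs' (hm y hy))
    (fun y hy => ?_) ?_ _ fun y hy => (hM' y hy).trans ((div_le_iff₀ hpos).1
      ((le_add_of_nonneg_right zero_le_one).trans (Real.add_one_le_exp _)))
  · obtain ⟨z, hz, hz'⟩ := mem_closure_iff_nhds.1 hx _ hb
    have h1 : {y | fderiv ℝ (fun y => u (x + s • y)) y = 0} ∩ ball 0 (1 / 2) ∈
        𝓝 (s⁻¹ • (z - x)) := by
      refine inter_mem (mem_of_superset ((show Continuous fun y : EuclideanSpace ℝ (Fin n) =>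
        x + s • y by fun_prop).continuousAt.preimage_mem_nhds
        (by rw [he]; exact mem_interior_iff_mem_nhds.1 hz')) fun y hy => ?_)
        (isOpen_ball.mem_nhds hz)
      rw [mem_ofPred_eq, fderiv_aff, Pi.smul_apply, show fderiv ℝ u (x + s • y) = 0 from hy,
        smul_zero]
    have h2 := hausdorffMeasure_of_lt_dimH (d := ((n - 2 : ℕ) : NNReal)) (s := {y | fderiv ℝ
      (fun y => u (x + s • y)) y = 0} ∩ ball 0 (1 / 2)) (by
        rw [Real.dimH_of_mem_nhds h1, finrank_euclideanSpace_fin]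
        exact_mod_cast (by omega : n - 2 < n))
    rw [NNReal.coe_natCast, Nat.cast_sub (by omega), Nat.cast_ofNat] at h2
    exact ENNReal.ofReal_ne_top (top_le_iff.1 (h2 ▸ key))
  · have := hl _ (hs' (hm y hy))
    simp only [iteratedFDeriv_two_apply] at this ⊢
    rw [fderiv_aff]
    refine (Finset.sum_congr rfl fun i _ => congrArg (fun L : EuclideanSpace ℝ (Fin n) →L[ℝ] ℝ =>
      L (EuclideanSpace.single i 1)) (fderiv_aff2 (fderiv ℝ u) x s y _)).trans ?_
    simp [← Finset.mul_sum, this]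
  · by_contra h1
    push Not at h1
    refine hy1 ((Filter.EventuallyEq.fderiv_eq (f := fun _ => u (x + s • y0)) ?_).trans
      (fderiv_const_apply _))
    exact eventually_of_mem (isOpen_ball.mem_nhds (hsub hy0)) fun y hy => h1 y hy y0 (hsub hy0)

end Pool.Agent.LinN2
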